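import Mathlib

set_option autoImplicit false

/-! Gauged sigma model, file M1: this file joins several modules to save build time. -/

section S_K

/-!
# Gauged sigma model (MP_c266fd_an): numerical constants and the cut-off in the target

`eps` bounds the square root of the first order energy, `Gam, Gam1` the second order energy,
`ep1 / om` is the length scale of the multiplier, `qq` the position of the cut-off in the target.
-/

namespace H72GS

open Set

noncomputable section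

/-- square root of the (small) first order energy -/
def eps : ℝ := 1 / 10 ^ 22
/-- bootstrap constant for the second order energy -/
def Gam : ℝ := 13 * 10 ^ 6
/-- bootstrap constant for the corrected second order energy -/
def Gam1 : ℝ := 10 ^ 7
/-- multiplier scale: `L = ep1 / om` -/
def ep1 : ℝ := 1 / 10 ^ 4
/-- cut-off parameter -/
def qq : ℝ := 1 / 10 ^ 36

/-- square of the positive part -/
def pp (u : ℝ) : ℝ := (max 0 u) ^ 2

/-- quadratic spline step: `0` for `u ≤ 0`, `1` for `u ≥ 1` -/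
def Hs (u : ℝ) : ℝ := 2 * pp u - 4 * pp (u - 1 / 2) + 2 * pp (u - 1)

/-- derivative of `Hs` -/
def Hsd (u : ℝ) : ℝ := 4 * max 0 u - 8 * max 0 (u - 1 / 2) + 4 * max 0 (u - 1)

/-- cut-off as a function of `c = cos f`: `1` for `c ≤ 1 - 2 qq`, `0` for `c ≥ 1 - qq` -/
def hc (c : ℝ) : ℝ := Hs ((1 - qq - c) / qq)

/-- derivative of `hc` -/
def hcd (c : ℝ) : ℝ := -(1 / qq) * Hsd ((1 - qq - c) / qq)

/-- `Θ(f) = sin f * hc (cos f)` -/
def Th (f : ℝ) : ℝ := Real.sin f * hc (Real.cos f)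

/-- `Θ'` -/
def Thd (f : ℝ) : ℝ := Real.cos f * hc (Real.cos f) - Real.sin f ^ 2 * hcd (Real.cos f)

/-- `Ξ(f) = Θ(f) cos f - Θ'(f) sin f = sin³ f * hcd (cos f)` -/
def Xi (f : ℝ) : ℝ := Real.sin f ^ 3 * hcd (Real.cos f)

/-- `J' = - Ξ`, `J 0 = 0` -/
def JJ (f : ℝ) : ℝ := -∫ s in (0 : ℝ)..f, Xi s

end

end H72GS

end S_K

section S_Pre

/-!
# Gauged sigma model: time slices of an equivariant solution and the functionals

`Pre` collects the functions of `r` attached to an equivariant configuration at a fixed time: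
angle `f`, `a` (angular potential, `μ = 4 + a`), `g = f_t`, `e = a_t / r`,
`w = f_r + μ sin f / r`, `y = a_r / r + 1 - cos f`, the time derivatives `wt, gt, yt`, the
`r`-derivatives `wr, yr`, and the quotients `w1 = w / r`, `g1 = g / r`, `s1 = sin f / r`.
`IsSlice R1 p` are the relations between them; everything vanishes at `r = R1`.
-/

namespace H72GS

open Set intervalIntegral

noncomputable section

/-- functions of `r` at a fixed time -/
structure Pre where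
  f : ℝ → ℝ
  a : ℝ → ℝ
  g : ℝ → ℝ
  e : ℝ → ℝ
  w : ℝ → ℝ
  y : ℝ → ℝ
  wt : ℝ → ℝ
  wr : ℝ → ℝ
  gt : ℝ → ℝ
  yt : ℝ → ℝ
  yr : ℝ → ℝ
  w1 : ℝ → ℝ
  g1 : ℝ → ℝ
  s1 : ℝ → ℝ

/-- `A = 1 + μ² - 2 μ cos f` -/
def Pre.A (p : Pre) (r : ℝ) : ℝ :=
  1 + (4 + p.a r) ^ 2 - 2 * (4 + p.a r) * Real.cos (p.f r)

/-- first order energy -/
def Pre.En (p : Pre) (R1 : ℝ) : ℝ :=
  ∫ r in (0 : ℝ)..R1, r * (p.g r ^ 2 + p.e r ^ 2 + p.w r ^ 2 + p.y r ^ 2)

/-- second order energy -/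
def Pre.X (p : Pre) (R1 : ℝ) : ℝ :=
  ∫ r in (0 : ℝ)..R1, r * (p.wt r ^ 2 + p.wr r ^ 2
    + (p.A r + r ^ 2 * (1 - Real.cos (p.f r))) * p.w1 r ^ 2)

/-- time derivative of `X` -/
def Pre.dX (p : Pre) (R1 : ℝ) : ℝ :=
  ∫ r in (0 : ℝ)..R1, (2 * (4 + p.a r) * Real.sin (p.f r) * p.g r * r * p.w1 r ^ 2
    + 2 * ((4 + p.a r) - Real.cos (p.f r)) * p.e r * p.w r ^ 2
    + r * Real.sin (p.f r) * p.g r * p.w r ^ 2
    + 2 * p.wt r * ((4 + p.a r) * Real.sin (p.f r) * (p.w r ^ 2 - p.g r ^ 2)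
      + 2 * r * Real.cos (p.f r) * (p.e r * p.g r - p.w r * p.y r)))

/-- correction term -/
def Pre.D (p : Pre) (R1 : ℝ) : ℝ :=
  ∫ r in (0 : ℝ)..R1, p.w r * (4 + p.a r) * Real.sin (p.f r) * p.g r ^ 2

/-- time derivative of `D` -/
def Pre.dD (p : Pre) (R1 : ℝ) : ℝ :=
  ∫ r in (0 : ℝ)..R1, (p.wt r * (4 + p.a r) * Real.sin (p.f r) * p.g r ^ 2
    + p.w r * (r * p.e r * Real.sin (p.f r) * p.g r ^ 2
      + (4 + p.a r) * Real.cos (p.f r) * p.g r ^ 3
      + 2 * (4 + p.a r) * Real.sin (p.f r) * p.g r * p.gt r))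

/-- Morawetz functional with scale `L` -/
def Pre.M (p : Pre) (R1 L : ℝ) : ℝ :=
  ∫ r in (0 : ℝ)..R1, p.wt r * (r ^ 2 / (r + L) * p.wr r + r / (2 * (r + L)) * p.w r)

/-- coefficient of `w1²` in the derivative of `M` -/
def Pre.m3 (p : Pre) (L r : ℝ) : ℝ :=
  (1 / 4) * r ^ 2 * (r - L) / (r + L) ^ 3
    + (1 / 2) * ((2 * ((4 + p.a r) - Real.cos (p.f r)) * r ^ 2 * (p.y r - 1 + Real.cos (p.f r))
        + 2 * (4 + p.a r) * Real.sin (p.f r) * (r * p.w r - (4 + p.a r) * Real.sin (p.f r))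
        - 2 * p.A r
        + r ^ 2 * Real.sin (p.f r) * (r * p.w r - (4 + p.a r) * Real.sin (p.f r))) * (r / (r + L))
      + (r * p.A r + r ^ 3 * (1 - Real.cos (p.f r))) * (L / (r + L) ^ 2))

/-- time derivative of `M` along a time dependent scale with value `L` and derivative `L'` -/
def Pre.dM (p : Pre) (R1 L L' : ℝ) : ℝ :=
  ∫ r in (0 : ℝ)..R1, (-(1 / 2) * (r * L / (r + L) ^ 2) * (p.wt r ^ 2 + p.wr r ^ 2)
    + p.m3 L r * p.w1 r ^ 2
    + ((4 + p.a r) * Real.sin (p.f r) * (p.w r ^ 2 - p.g r ^ 2)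
        + 2 * r * Real.cos (p.f r) * (p.e r * p.g r - p.w r * p.y r))
      * (r / (r + L) * p.wr r + p.w r / (2 * (r + L)))
    - L' * (r / (r + L) ^ 2) * (r * p.wt r * p.wr r + (1 / 2) * p.wt r * p.w r))

/-- local part of the second order energy -/
def Pre.Xl (p : Pre) (L : ℝ) : ℝ :=
  ∫ r in (0 : ℝ)..L, r * (p.wt r ^ 2 + p.wr r ^ 2 + p.w1 r ^ 2)

/-- size of the soliton -/
def Pre.N (p : Pre) (R1 : ℝ) : ℝ :=
  ∫ r in (0 : ℝ)..R1, r * Th (p.f r) * Real.sin (p.f r)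

/-- momentum -/
def Pre.P (p : Pre) (R1 : ℝ) : ℝ :=
  ∫ r in (0 : ℝ)..R1, r * p.g r * Th (p.f r)

/-- time derivative of `N` -/
def Pre.dN (p : Pre) (R1 : ℝ) : ℝ :=
  ∫ r in (0 : ℝ)..R1, r * p.g r * (2 * Th (p.f r) * Real.cos (p.f r) - Xi (p.f r))

/-- time derivative of `P` -/
def Pre.dP (p : Pre) (R1 : ℝ) : ℝ :=
  ∫ r in (0 : ℝ)..R1, (r * Thd (p.f r) * (p.g r ^ 2 - p.w r ^ 2)
    - (4 + p.a r) * p.w r * Xi (p.f r) - r * p.y r * Real.sin (p.f r) * Th (p.f r))

/-- second order energy of the gauge part -/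
def Pre.Ey (p : Pre) (R1 : ℝ) : ℝ :=
  ∫ r in (0 : ℝ)..R1, (1 / 2) * r * (p.yt r ^ 2 + p.yr r ^ 2 + Real.sin (p.f r) ^ 2 * p.y r ^ 2)

/-- time derivative of `Ey` -/
def Pre.dEy (p : Pre) (R1 : ℝ) : ℝ :=
  ∫ r in (0 : ℝ)..R1, (r * Real.sin (p.f r) * Real.cos (p.f r) * p.g r * p.y r ^ 2
    + r * p.yt r * Real.cos (p.f r) * (p.g r ^ 2 - p.w r ^ 2))

/-- relations at a fixed time -/
structure IsSlice (R1 : ℝ) (p : Pre) : Prop where
  R1pos : 0 < R1
  R1le : R1 ≤ 1 / 1000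
  R1ge : 1 / 10 ^ 50 ≤ R1
  cf : Continuous p.f
  ca : Continuous p.a
  cg : Continuous p.g
  ce : Continuous p.e
  cw : Continuous p.w
  cy : Continuous p.y
  cwt : Continuous p.wt
  cwr : Continuous p.wr
  cgt : Continuous p.gt
  cyt : Continuous p.yt
  cyr : Continuous p.yr
  cw1 : Continuous p.w1
  cg1 : Continuous p.g1
  cs1 : Continuous p.s1
  df : ∀ r, 0 < r → HasDerivAt p.f (p.w r - (4 + p.a r) * Real.sin (p.f r) / r) r
  da : ∀ r, 0 < r → HasDerivAt p.a (r * (p.y r - 1 + Real.cos (p.f r))) r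
  dg : ∀ r, 0 < r → HasDerivAt p.g
    (p.wt r - p.e r * Real.sin (p.f r) - (4 + p.a r) * Real.cos (p.f r) * p.g r / r) r
  dw : ∀ r, HasDerivAt p.w (p.wr r) r
  dy : ∀ r, HasDerivAt p.y (p.yr r) r
  de : ∀ r, HasDerivAt (fun x => x * p.e x) (r * (p.yt r - p.g r * Real.sin (p.f r))) r
  hgt : ∀ r, 0 ≤ r → p.gt r = p.wr r + (1 - (4 + p.a r) * Real.cos (p.f r)) * p.w1 r
    - p.y r * Real.sin (p.f r)
  hw1 : ∀ r, p.w r = r * p.w1 r
  hg1 : ∀ r, p.g r = r * p.g1 r
  hs1 : ∀ r, Real.sin (p.f r) = r * p.s1 r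
  f0 : p.f 0 = Real.pi
  a0 : p.a 0 = 0
  fR : p.f R1 = 0
  gR : p.g R1 = 0
  eR : p.e R1 = 0
  wR : p.w R1 = 0
  yR : p.y R1 = 0

/-- bootstrap hypotheses at a fixed time; `om` is the collapse rate -/
structure Hyp (R1 : ℝ) (p : Pre) (om : ℝ) : Prop where
  en : p.En R1 ≤ eps ^ 2
  Npos : 0 < p.N R1
  hP : p.P R1 = -4 * om * p.N R1
  hom : 10 ^ 60 ≤ om
  h3 : 1 ≤ om ^ 3 * p.N R1
  hEy : p.Ey R1 ≤ om
  hX : p.X R1 ≤ Gam ^ 2 * om ^ 4 * p.N R1

end

end H72GS

end S_Pre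

section S_Gen

/-!
# Gen: generic lemmas (damped linear ODEs, continuous induction, Cauchy-Schwarz)

Proof sketches.
* `damp_fwd`: for `δ > 0` the function `x ↦ √(v² + δ²) - ∫_{x0}^x |s|` has derivative
  `v v' / √(v²+δ²) - |s| ≤ 0` (as `v v' = - c v² + v s ≤ |v| |s|`), so it is antitone; let `δ → 0`.
  `damp_bwd` is the same backwards.
* `cont_ind`: first point where `h = c` (or `IsClosed.Icc_subset_of_forall_mem_nhdsWithin`).
* `cs`: discriminant, or the integral of `(∫v²·|u| - ∫|u||v|·|v|)²`, or `inner_mul_le_norm_mul_norm`.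
* `pw3`: Cauchy-Schwarz with `s³|G| = s^{5/2} · s^{1/2}|G|`, `∫ s⁵ ≤ x1⁶ / 6`; `pwm3`: `∫ s⁻⁷ ≤ x0⁻⁶/6`;
  `pwlog`: `∫_{x0}^{x1} 1/s ≤ log 2 ≤ 1`.
-/

namespace H72GS

open Set MeasureTheory intervalIntegral

theorem damp_fwd {v c s : ℝ → ℝ} {x0 x1 : ℝ} (h01 : x0 ≤ x1)
    (hv : ∀ x ∈ Icc x0 x1, HasDerivAt v (-(c x) * v x + s x) x)
    (hc : ∀ x ∈ Icc x0 x1, 0 ≤ c x) (hs : ContinuousOn s (Icc x0 x1)) :
    |v x1| ≤ |v x0| + ∫ x in x0..x1, |s x| := by
  set S : ℝ → ℝ := fun x => |s (max x0 (min x x1))| with hS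
  have hSc : Continuous S := by
    apply Continuous.abs
    refine hs.comp_continuous (by fun_prop) (fun x => ⟨le_max_left _ _, ?_⟩)
    exact max_le h01 (min_le_right _ _)
  have hSe : ∀ x ∈ Icc x0 x1, S x = |s x| := by
    intro x hx
    simp only [hS]
    rw [min_eq_left hx.2, max_eq_right hx.1]
  have hint : ∫ x in x0..x1, |s x| = ∫ x in x0..x1, S x := by
    apply intervalIntegral.integral_congr
    intro x hx
    rw [uIcc_of_le h01] at hx
    exact (hSe x hx).symm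
  rw [hint]
  apply le_of_forall_pos_le_add
  intro δ hδ
  have hpos : ∀ x, 0 < v x ^ 2 + δ ^ 2 := fun x => by positivity
  set F : ℝ → ℝ := fun x => Real.sqrt (v x ^ 2 + δ ^ 2) - ∫ t in x0..x, S t with hF
  have hFd : ∀ x ∈ Icc x0 x1, HasDerivAt F
      ((2 * v x * (-(c x) * v x + s x)) / (2 * Real.sqrt (v x ^ 2 + δ ^ 2)) - S x) x := by
    intro x hx
    have h1 : HasDerivAt (fun x => v x ^ 2 + δ ^ 2) (2 * v x * (-(c x) * v x + s x)) x := by
      have h2 := ((hv x hx).pow 2).add_const (δ ^ 2)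
      refine h2.congr_deriv ?_
      simp
    have h3 := h1.sqrt (hpos x).ne'
    exact h3.sub (hSc.integral_hasStrictDerivAt x0 x).hasDerivAt
  have hanti : AntitoneOn F (Icc x0 x1) := by
    apply antitoneOn_of_deriv_nonpos (convex_Icc x0 x1)
    · exact fun x hx => (hFd x hx).continuousAt.continuousWithinAt
    · exact fun x hx => (hFd x (interior_subset hx)).differentiableAt.differentiableWithinAt
    · intro x hx
      have hx' := interior_subset hx
      rw [(hFd x hx').deriv, hSe x hx', sub_nonpos]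
      have h4 : 0 < Real.sqrt (v x ^ 2 + δ ^ 2) := Real.sqrt_pos.2 (hpos x)
      rw [div_le_iff₀ (by positivity)]
      have h5 : |v x| ≤ Real.sqrt (v x ^ 2 + δ ^ 2) := by
        rw [← Real.sqrt_sq_eq_abs]
        exact Real.sqrt_le_sqrt (by nlinarith [sq_nonneg δ])
      have h6 : v x * s x ≤ |v x| * |s x| := by
        rw [← abs_mul]; exact le_abs_self _
      have h7 : |v x| * |s x| ≤ Real.sqrt (v x ^ 2 + δ ^ 2) * |s x| :=
        mul_le_mul_of_nonneg_right h5 (abs_nonneg _)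
      have h8 : 0 ≤ c x * v x ^ 2 := mul_nonneg (hc x hx') (sq_nonneg _)
      nlinarith
  have h9 := hanti (left_mem_Icc.2 h01) (right_mem_Icc.2 h01) h01
  simp only [hF, intervalIntegral.integral_same, sub_zero] at h9
  have h10 : |v x1| ≤ Real.sqrt (v x1 ^ 2 + δ ^ 2) := by
    rw [← Real.sqrt_sq_eq_abs]
    exact Real.sqrt_le_sqrt (by nlinarith [sq_nonneg δ])
  have h11 : Real.sqrt (v x0 ^ 2 + δ ^ 2) ≤ |v x0| + δ := by
    rw [Real.sqrt_le_left (by positivity)]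
    nlinarith [sq_abs (v x0), abs_nonneg (v x0), mul_nonneg (abs_nonneg (v x0)) hδ.le]
  linarith

theorem damp_bwd {v c s : ℝ → ℝ} {x0 x1 : ℝ} (h01 : x0 ≤ x1)
    (hv : ∀ x ∈ Icc x0 x1, HasDerivAt v (c x * v x + s x) x)
    (hc : ∀ x ∈ Icc x0 x1, 0 ≤ c x) (hs : ContinuousOn s (Icc x0 x1)) :
    |v x0| ≤ |v x1| + ∫ x in x0..x1, |s x| := by
  have hm : ∀ x ∈ Icc (-x1) (-x0), -x ∈ Icc x0 x1 := fun x hx =>
    ⟨by linarith [hx.2], by linarith [hx.1]⟩
  have h := damp_fwd (v := fun x => v (-x)) (c := fun x => c (-x)) (s := fun x => -s (-x))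
    (x0 := -x1) (x1 := -x0) (by linarith) ?_ ?_ ?_
  · simp only [neg_neg, abs_neg] at h
    have h2 := intervalIntegral.integral_comp_neg (a := -x1) (b := -x0) (fun x => |s x|)
    rw [neg_neg, neg_neg] at h2
    rw [← h2]
    exact h
  · intro x hx
    have h1 := (hv (-x) (hm x hx)).scomp x (hasDerivAt_neg x)
    refine h1.congr_deriv ?_
    simp only [smul_eq_mul]
    ring
  · exact fun x hx => hc _ (hm x hx)
  · exact (hs.comp continuous_neg.continuousOn hm).neg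

theorem cont_ind {h : ℝ → ℝ} {x0 x1 c : ℝ} (hh : ContinuousOn h (Icc x0 x1)) (h0 : h x0 < c)
    (hs : ∀ x ∈ Icc x0 x1, (∀ s ∈ Icc x0 x, h s ≤ c) → h x < c) :
    ∀ x ∈ Icc x0 x1, h x < c := by
  by_contra hcon
  push Not at hcon
  obtain ⟨x, hx, hxc⟩ := hcon
  have hcl : IsClosed (Icc x0 x1 ∩ h ⁻¹' (Ici c)) :=
    hh.preimage_isClosed_of_isClosed isClosed_Icc isClosed_Ici
  have hcp : IsCompact (Icc x0 x1 ∩ h ⁻¹' (Ici c)) :=
    isCompact_Icc.of_isClosed_subset hcl inter_subset_left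
  obtain ⟨m, hm, hml⟩ := hcp.exists_isLeast ⟨x, hx, hxc⟩
  have hlt : ∀ s ∈ Icc x0 m, s < m → h s < c := by
    intro s hs1 hsm
    by_contra hc2
    push Not at hc2
    have := hml ⟨⟨hs1.1, hsm.le.trans hm.1.2⟩, hc2⟩
    linarith
  have hmc : h m ≤ c := by
    by_contra hc2
    push Not at hc2
    have hsub : Icc x0 m ⊆ Icc x0 x1 := Icc_subset_Icc_right hm.1.2
    obtain ⟨z, hz, hzc⟩ := intermediate_value_Icc hm.1.1 (hh.mono hsub) ⟨h0.le, hc2.le⟩
    rcases hz.2.lt_or_eq with hzm | hzm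
    · exact absurd hzc (hlt z hz hzm).ne
    · rw [hzm] at hzc
      linarith
  have hfin := hs m hm.1 (fun s hs1 => by
    rcases hs1.2.lt_or_eq with h1 | h1
    · exact (hlt s hs1 h1).le
    · rw [h1]; exact hmc)
  have hge : c ≤ h m := hm.2
  linarith

theorem cont_ind_bwd {h : ℝ → ℝ} {x0 x1 c : ℝ} (hh : ContinuousOn h (Icc x0 x1)) (h1 : h x1 < c)
    (hs : ∀ x ∈ Icc x0 x1, (∀ s ∈ Icc x x1, h s ≤ c) → h x < c) :
    ∀ x ∈ Icc x0 x1, h x < c := by
  have hm : ∀ x ∈ Icc (-x1) (-x0), -x ∈ Icc x0 x1 := fun x hx =>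
    ⟨by linarith [hx.2], by linarith [hx.1]⟩
  have h2 := cont_ind (h := fun x => h (-x)) (x0 := -x1) (x1 := -x0) (c := c)
    (hh.comp continuous_neg.continuousOn hm) (by simpa using h1) (by
      intro x hx hall
      refine hs (-x) (hm x hx) (fun s hs1 => ?_)
      have := hall (-s) ⟨by linarith [hs1.2], by linarith [hs1.1]⟩
      simpa using this)
  intro x hx
  have := h2 (-x) ⟨by linarith [hx.2], by linarith [hx.1]⟩
  simpa using this

theorem cs {a b : ℝ} (hab : a ≤ b) {u v : ℝ → ℝ} (hu : ContinuousOn u (Icc a b))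
    (hv : ContinuousOn v (Icc a b)) :
    (∫ x in a..b, |u x| * |v x|) ^ 2 ≤ (∫ x in a..b, u x ^ 2) * (∫ x in a..b, v x ^ 2) := by
  have hA : IntervalIntegrable (fun x => u x ^ 2) volume a b :=
    (hu.pow 2).intervalIntegrable_of_Icc hab
  have hC : IntervalIntegrable (fun x => v x ^ 2) volume a b :=
    (hv.pow 2).intervalIntegrable_of_Icc hab
  have hB : IntervalIntegrable (fun x => |u x| * |v x|) volume a b :=
    (hu.abs.mul hv.abs).intervalIntegrable_of_Icc hab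
  have key : ∀ t : ℝ, 0 ≤ (∫ x in a..b, v x ^ 2) * (t * t) +
      (-2 * ∫ x in a..b, |u x| * |v x|) * t + ∫ x in a..b, u x ^ 2 := by
    intro t
    have h1 : ∫ x in a..b, (t * |v x| - |u x|) ^ 2 = (∫ x in a..b, v x ^ 2) * (t * t) +
        (-2 * ∫ x in a..b, |u x| * |v x|) * t + ∫ x in a..b, u x ^ 2 := by
      have h2 : ∀ x, (t * |v x| - |u x|) ^ 2 =
          (v x ^ 2 * (t * t) + (|u x| * |v x|) * (-2 * t)) + u x ^ 2 := by
        intro x
        have e1 := sq_abs (v x)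
        have e2 := sq_abs (u x)
        linear_combination (t * t) * e1 + e2
      simp only [h2]
      rw [intervalIntegral.integral_add ((hC.mul_const _).add (hB.mul_const _)) hA,
        intervalIntegral.integral_add (hC.mul_const _) (hB.mul_const _),
        intervalIntegral.integral_mul_const, intervalIntegral.integral_mul_const]
      ring
    rw [← h1]
    exact intervalIntegral.integral_nonneg hab (fun x _ => sq_nonneg _)
  have h3 := discrim_le_zero key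
  unfold discrim at h3
  nlinarith

/-- weighted Cauchy-Schwarz -/
theorem csr {a b : ℝ} (ha : 0 ≤ a) (hab : a ≤ b) {u v : ℝ → ℝ} (hu : ContinuousOn u (Icc a b))
    (hv : ContinuousOn v (Icc a b)) :
    ∫ r in a..b, r * (|u r| * |v r|) ≤
      Real.sqrt (∫ r in a..b, r * u r ^ 2) * Real.sqrt (∫ r in a..b, r * v r ^ 2) := by
  have hsq : ContinuousOn (fun r : ℝ => Real.sqrt r) (Icc a b) := Real.continuous_sqrt.continuousOn
  have h := cs hab (hsq.mul hu) (hsq.mul hv)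
  have hr : ∀ r ∈ Icc a b, 0 ≤ r := fun r hr => ha.trans hr.1
  have e1 : ∫ x in a..b, |Real.sqrt x * u x| * |Real.sqrt x * v x| =
      ∫ r in a..b, r * (|u r| * |v r|) := by
    apply intervalIntegral.integral_congr
    intro r hr1
    rw [uIcc_of_le hab] at hr1
    simp only [abs_mul, abs_of_nonneg (Real.sqrt_nonneg r)]
    have := Real.mul_self_sqrt (hr r hr1)
    linear_combination (|u r| * |v r|) * this
  have e2 : ∀ w : ℝ → ℝ, ∫ x in a..b, (Real.sqrt x * w x) ^ 2 = ∫ r in a..b, r * w r ^ 2 := by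
    intro w
    apply intervalIntegral.integral_congr
    intro r hr1
    rw [uIcc_of_le hab] at hr1
    simp only [mul_pow, Real.sq_sqrt (hr r hr1)]
  simp only [Pi.mul_apply] at h
  rw [e1, e2, e2] at h
  have hA : 0 ≤ ∫ r in a..b, r * u r ^ 2 := intervalIntegral.integral_nonneg hab
    (fun r hr1 => mul_nonneg (hr r hr1) (sq_nonneg _))
  rw [← Real.sqrt_mul hA]
  exact Real.le_sqrt_of_sq_le h

/-- the three weights -/
theorem Gen_weight {x0 x1 K : ℝ} (h0 : 0 < x0) (h01 : x0 ≤ x1) {G U : ℝ → ℝ}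
    (hG : ContinuousOn G (Icc x0 x1)) (hU : ContinuousOn U (Icc x0 x1))
    (hK : ∫ x in x0..x1, U x ^ 2 ≤ K) :
    ∫ x in x0..x1, |U x| * |Real.sqrt x * G x| ≤ Real.sqrt (K * ∫ s in x0..x1, s * G s ^ 2) := by
  have hsq : ContinuousOn (fun r : ℝ => Real.sqrt r) (Icc x0 x1) := Real.continuous_sqrt.continuousOn
  have h := cs h01 hU (hsq.mul hG)
  have e2 : ∫ x in x0..x1, (Real.sqrt x * G x) ^ 2 = ∫ r in x0..x1, r * G r ^ 2 := by
    apply intervalIntegral.integral_congr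
    intro r hr1
    rw [uIcc_of_le h01] at hr1
    simp only [mul_pow, Real.sq_sqrt (h0.le.trans hr1.1)]
  simp only [Pi.mul_apply] at h
  rw [e2] at h
  have hA : 0 ≤ ∫ r in x0..x1, r * G r ^ 2 := intervalIntegral.integral_nonneg h01
    (fun r hr1 => mul_nonneg (h0.le.trans hr1.1) (sq_nonneg _))
  exact Real.le_sqrt_of_sq_le (h.trans (mul_le_mul_of_nonneg_right hK hA))

theorem pw3 {x0 x1 : ℝ} (h0 : 0 < x0) (h01 : x0 ≤ x1) {G : ℝ → ℝ}
    (hG : ContinuousOn G (Icc x0 x1)) :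
    ∫ s in x0..x1, s ^ 3 * |G s| ≤ x1 ^ 3 * Real.sqrt ((∫ s in x0..x1, s * G s ^ 2) / 6) := by
  have hx1 : 0 < x1 := h0.trans_le h01
  have hU : ContinuousOn (fun x : ℝ => Real.sqrt x * x ^ 2) (Icc x0 x1) :=
    (Real.continuous_sqrt.mul (continuous_pow 2)).continuousOn
  have hK : ∫ x in x0..x1, (Real.sqrt x * x ^ 2) ^ 2 ≤ x1 ^ 6 / 6 := by
    have e1 : ∫ x in x0..x1, (Real.sqrt x * x ^ 2) ^ 2 = ∫ x in x0..x1, x ^ 5 := by
      apply intervalIntegral.integral_congr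
      intro r hr1
      rw [uIcc_of_le h01] at hr1
      simp only [mul_pow, Real.sq_sqrt (h0.le.trans hr1.1)]
      ring
    rw [e1, integral_pow]
    have : 0 ≤ x0 ^ 6 := by positivity
    norm_num
    linarith
  have h := Gen_weight h0 h01 hG hU hK
  have e3 : ∫ x in x0..x1, |Real.sqrt x * x ^ 2| * |Real.sqrt x * G x| =
      ∫ s in x0..x1, s ^ 3 * |G s| := by
    apply intervalIntegral.integral_congr
    intro r hr1
    rw [uIcc_of_le h01] at hr1
    simp only [abs_mul, abs_of_nonneg (Real.sqrt_nonneg r), abs_pow, sq_abs]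
    have := Real.mul_self_sqrt (h0.le.trans hr1.1)
    linear_combination (r ^ 2 * |G r|) * this
  rw [e3] at h
  refine h.trans (le_of_eq ?_)
  rw [show x1 ^ 6 / 6 * ∫ s in x0..x1, s * G s ^ 2 =
    (x1 ^ 3) ^ 2 * ((∫ s in x0..x1, s * G s ^ 2) / 6) by ring,
    Real.sqrt_mul (sq_nonneg _), Real.sqrt_sq (by positivity)]

theorem pwm3 {x0 x1 : ℝ} (h0 : 0 < x0) (h01 : x0 ≤ x1) {G : ℝ → ℝ}
    (hG : ContinuousOn G (Icc x0 x1)) :
    ∫ s in x0..x1, |G s| / s ^ 3 ≤
      1 / x0 ^ 3 * Real.sqrt ((∫ s in x0..x1, s * G s ^ 2) / 6) := by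
  have hx1 : 0 < x1 := h0.trans_le h01
  have hpos : ∀ x ∈ Icc x0 x1, 0 < x := fun x hx => h0.trans_le hx.1
  have hU : ContinuousOn (fun x : ℝ => (Real.sqrt x * x ^ 3)⁻¹) (Icc x0 x1) := by
    apply ContinuousOn.inv₀ (Real.continuous_sqrt.mul (continuous_pow 3)).continuousOn
    intro x hx
    have h1 := hpos x hx
    have h2 := Real.sqrt_pos.2 h1
    exact (mul_pos h2 (pow_pos h1 3)).ne'
  have hK : ∫ x in x0..x1, ((Real.sqrt x * x ^ 3)⁻¹) ^ 2 ≤ (1 / x0 ^ 6) / 6 := by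
    have e1 : ∫ x in x0..x1, ((Real.sqrt x * x ^ 3)⁻¹) ^ 2 = ∫ x in x0..x1, x ^ (-7 : ℤ) := by
      apply intervalIntegral.integral_congr
      intro r hr1
      rw [uIcc_of_le h01] at hr1
      have h1 := hpos r hr1
      simp only [inv_pow, mul_pow, Real.sq_sqrt h1.le]
      rw [show (-7 : ℤ) = -((7 : ℕ) : ℤ) by norm_num, zpow_neg, zpow_natCast]
      congr 1
      ring
    have hnot : (0 : ℝ) ∉ uIcc x0 x1 := by
      rw [uIcc_of_le h01]
      exact fun h => absurd h.1 (not_le.2 h0)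
    rw [e1, integral_zpow (Or.inr ⟨by norm_num, hnot⟩)]
    norm_num
    have h4 : (0 : ℝ) ≤ (x1 ^ 6)⁻¹ := by positivity
    linarith
  have h := Gen_weight h0 h01 hG hU hK
  have e3 : ∫ x in x0..x1, |(Real.sqrt x * x ^ 3)⁻¹| * |Real.sqrt x * G x| =
      ∫ s in x0..x1, |G s| / s ^ 3 := by
    apply intervalIntegral.integral_congr
    intro r hr1
    rw [uIcc_of_le h01] at hr1
    have h1 := hpos r hr1
    have h2 := Real.sqrt_pos.2 h1
    simp only [abs_mul, abs_inv, abs_of_pos h2, abs_of_pos (pow_pos h1 3)]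
    field_simp
  rw [e3] at h
  refine h.trans (le_of_eq ?_)
  rw [show 1 / x0 ^ 6 / 6 * ∫ s in x0..x1, s * G s ^ 2 =
    (1 / x0 ^ 3) ^ 2 * ((∫ s in x0..x1, s * G s ^ 2) / 6) by ring,
    Real.sqrt_mul (sq_nonneg _), Real.sqrt_sq (by positivity)]

theorem pwlog {x0 x1 : ℝ} (h0 : 0 < x0) (h01 : x0 ≤ x1) (h2 : x1 ≤ 2 * x0) {G : ℝ → ℝ}
    (hG : ContinuousOn G (Icc x0 x1)) :
    ∫ s in x0..x1, |G s| ≤ Real.sqrt (∫ s in x0..x1, s * G s ^ 2) := by
  have hx1 : 0 < x1 := h0.trans_le h01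
  have hpos : ∀ x ∈ Icc x0 x1, 0 < x := fun x hx => h0.trans_le hx.1
  have hU : ContinuousOn (fun x : ℝ => (Real.sqrt x)⁻¹) (Icc x0 x1) := by
    apply ContinuousOn.inv₀ Real.continuous_sqrt.continuousOn
    intro x hx
    exact (Real.sqrt_pos.2 (hpos x hx)).ne'
  have hK : ∫ x in x0..x1, ((Real.sqrt x)⁻¹) ^ 2 ≤ 1 := by
    have e1 : ∫ x in x0..x1, ((Real.sqrt x)⁻¹) ^ 2 = ∫ x in x0..x1, x⁻¹ := by
      apply intervalIntegral.integral_congr
      intro r hr1
      rw [uIcc_of_le h01] at hr1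
      simp only [inv_pow, Real.sq_sqrt (hpos r hr1).le]
    rw [e1, integral_inv_of_pos h0 hx1]
    have h3 : x1 / x0 ≤ 2 := by rw [div_le_iff₀ h0]; exact h2
    calc Real.log (x1 / x0) ≤ x1 / x0 - 1 := Real.log_le_sub_one_of_pos (by positivity)
      _ ≤ 1 := by linarith
  have h := Gen_weight h0 h01 hG hU hK
  have e3 : ∫ x in x0..x1, |(Real.sqrt x)⁻¹| * |Real.sqrt x * G x| = ∫ s in x0..x1, |G s| := by
    apply intervalIntegral.integral_congr
    intro r hr1
    rw [uIcc_of_le h01] at hr1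
    have h1 := Real.sqrt_pos.2 (hpos r hr1)
    simp only [abs_mul, abs_inv, abs_of_pos h1]
    field_simp
  rw [e3, one_mul] at h
  exact h

/-- monotonicity in the domain for nonnegative continuous integrands -/
theorem int_mono_set {a b c d : ℝ} (h1 : a ≤ c) (h2 : c ≤ d) (h3 : d ≤ b) {u : ℝ → ℝ}
    (hu : ContinuousOn u (Icc a b)) (h0 : ∀ x ∈ Icc a b, 0 ≤ u x) :
    ∫ x in c..d, u x ≤ ∫ x in a..b, u x := by
  have hab : a ≤ b := h1.trans (h2.trans h3)
  apply intervalIntegral.integral_mono_interval h1 h2 h3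
  · rw [Filter.EventuallyLE, ae_restrict_iff' measurableSet_Ioc]
    exact Filter.Eventually.of_forall fun x hx => h0 x ⟨hx.1.le, hx.2⟩
  · exact hu.intervalIntegrable_of_Icc hab

end H72GS

end S_Gen

section S_Cut

/-!
# Cut: facts on the cut-off functions

`pp` has derivative `2 max 0 u`; `Hs u = 0` for `u ≤ 0`, `= 2u²` on `[0,1/2]`, `= 1 - 2(1-u)²` on
`[1/2,1]`, `= 1` for `u ≥ 1`; `0 ≤ Hsd ≤ 2`.  On the support of `hcd (cos f)` one has
`1 - cos f ≤ 2 qq`, so `sin² f ≤ 4 qq`, `|sin f| ≤ 2·10⁻¹⁸`, hence `|Xi| ≤ 8 qq^{3/2} · 2/qq`.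
For `JJ`: on `[-2, π+2]`, `Xi s = 0` unless `cos s ≥ 1 - 2 qq`, i.e. unless `|s| ≤ 3·10⁻¹⁸`.
-/

namespace H72GS

open Set

theorem Cut_pp_nonpos {u : ℝ} (h : u ≤ 0) : pp u = 0 := by
  simp [pp, max_eq_left h]

theorem Cut_pp_nonneg {u : ℝ} (h : 0 ≤ u) : pp u = u ^ 2 := by
  simp [pp, max_eq_right h]

theorem hasDerivAt_pp (u : ℝ) : HasDerivAt pp (2 * max 0 u) u := by
  rcases lt_trichotomy u 0 with h | h | h
  · rw [max_eq_left h.le, mul_zero]
    refine (hasDerivAt_const u (0 : ℝ)).congr_of_eventuallyEq ?_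
    filter_upwards [gt_mem_nhds h] with x hx
    exact Cut_pp_nonpos (le_of_lt hx)
  · subst h
    rw [max_self, mul_zero, ← hasDerivWithinAt_univ, ← Iic_union_Ici (a := (0 : ℝ))]
    refine HasDerivWithinAt.union ?_ ?_
    · refine (hasDerivWithinAt_const (0 : ℝ) _ (0 : ℝ)).congr ?_ ?_
      · intro x hx
        exact Cut_pp_nonpos hx
      · exact Cut_pp_nonpos le_rfl
    · have h1 : HasDerivWithinAt (fun x : ℝ => x ^ 2) 0 (Ici 0) 0 := by
        have := (hasDerivAt_pow 2 (0 : ℝ)).hasDerivWithinAt (s := Ici 0)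
        simpa using this
      refine h1.congr ?_ ?_
      · intro x hx
        exact Cut_pp_nonneg hx
      · exact Cut_pp_nonneg le_rfl
  · rw [max_eq_right h.le]
    have h1 : HasDerivAt (fun x : ℝ => x ^ 2) (2 * u) u := by
      have := hasDerivAt_pow 2 u
      simpa using this
    refine h1.congr_of_eventuallyEq ?_
    filter_upwards [lt_mem_nhds h] with x hx
    exact Cut_pp_nonneg (le_of_lt hx)

theorem Cut_hasDerivAt_Hs (u : ℝ) : HasDerivAt Hs (Hsd u) u := by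
  have h0 := hasDerivAt_pp u
  have h1 : HasDerivAt (fun x : ℝ => pp (x - 1 / 2)) (2 * max 0 (u - 1 / 2)) u := by
    have := HasDerivAt.comp u (hasDerivAt_pp (u - 1 / 2)) ((hasDerivAt_id u).sub_const (1 / 2))
    simpa [Function.comp_def] using this
  have h2 : HasDerivAt (fun x : ℝ => pp (x - 1)) (2 * max 0 (u - 1)) u := by
    have := HasDerivAt.comp u (hasDerivAt_pp (u - 1)) ((hasDerivAt_id u).sub_const 1)
    simpa [Function.comp_def] using this
  have h3 := ((h0.const_mul 2).sub (h1.const_mul 4)).add (h2.const_mul 2)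
  refine (h3.congr_deriv ?_).congr_of_eventuallyEq ?_
  · simp only [Hsd]; ring
  · exact Filter.Eventually.of_forall fun x => rfl

theorem Cut_qq_pos : 0 < qq := by norm_num [qq]

theorem hasDerivAt_hc (c : ℝ) : HasDerivAt hc (hcd c) c := by
  have h0 : HasDerivAt (fun x : ℝ => (1 - qq - x) / qq) (-(1 / qq)) c := by
    have := ((hasDerivAt_id c).const_sub (1 - qq)).div_const qq
    simpa [neg_div] using this
  have h1 := HasDerivAt.comp c (Cut_hasDerivAt_Hs ((1 - qq - c) / qq)) h0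
  refine (h1.congr_deriv ?_).congr_of_eventuallyEq ?_
  · simp only [hcd]; ring
  · exact Filter.Eventually.of_forall fun x => rfl

theorem continuous_hc : Continuous hc :=
  continuous_iff_continuousAt.2 fun c => (hasDerivAt_hc c).continuousAt

theorem continuous_hcd : Continuous hcd := by
  unfold hcd Hsd
  fun_prop

theorem Cut_Hs_zero {u : ℝ} (h : u ≤ 0) : Hs u = 0 := by
  simp only [Hs]
  rw [Cut_pp_nonpos h, Cut_pp_nonpos (by linarith), Cut_pp_nonpos (by linarith)]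
  ring

theorem Cut_Hs_one {u : ℝ} (h : 1 ≤ u) : Hs u = 1 := by
  simp only [Hs]
  rw [Cut_pp_nonneg (by linarith), Cut_pp_nonneg (by linarith), Cut_pp_nonneg (by linarith)]
  ring

theorem Cut_Hs_mem (u : ℝ) : 0 ≤ Hs u ∧ Hs u ≤ 1 := by
  rcases le_total u 0 with h | h
  · rw [Cut_Hs_zero h]; norm_num
  rcases le_total 1 u with h1 | h1
  · rw [Cut_Hs_one h1]; norm_num
  rcases le_total u (1 / 2) with h2 | h2
  · simp only [Hs]
    rw [Cut_pp_nonneg h, Cut_pp_nonpos (by linarith), Cut_pp_nonpos (by linarith)]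
    constructor <;> nlinarith
  · simp only [Hs]
    rw [Cut_pp_nonneg h, Cut_pp_nonneg (by linarith), Cut_pp_nonpos (by linarith)]
    constructor <;> nlinarith

theorem Cut_Hsd_zero {u : ℝ} (h : u ≤ 0) : Hsd u = 0 := by
  simp only [Hsd]
  rw [max_eq_left h, max_eq_left (by linarith), max_eq_left (by linarith)]
  ring

theorem Cut_Hsd_one {u : ℝ} (h : 1 ≤ u) : Hsd u = 0 := by
  simp only [Hsd]
  rw [max_eq_right (by linarith), max_eq_right (by linarith), max_eq_right (by linarith)]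
  ring

theorem Cut_Hsd_mem (u : ℝ) : 0 ≤ Hsd u ∧ Hsd u ≤ 2 := by
  rcases le_total u 0 with h | h
  · rw [Cut_Hsd_zero h]; norm_num
  rcases le_total 1 u with h1 | h1
  · rw [Cut_Hsd_one h1]; norm_num
  rcases le_total u (1 / 2) with h2 | h2
  · simp only [Hsd]
    rw [max_eq_right h, max_eq_left (by linarith), max_eq_left (by linarith)]
    constructor <;> linarith
  · simp only [Hsd]
    rw [max_eq_right h, max_eq_right (by linarith), max_eq_left (by linarith)]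
    constructor <;> linarith

theorem hc_nonneg (c : ℝ) : 0 ≤ hc c := (Cut_Hs_mem _).1

theorem hc_le_one (c : ℝ) : hc c ≤ 1 := (Cut_Hs_mem _).2

theorem hc_one {c : ℝ} (h : c ≤ 1 - 2 * qq) : hc c = 1 := by
  refine Cut_Hs_one ?_
  rw [le_div_iff₀ Cut_qq_pos]
  linarith

theorem hc_zero {c : ℝ} (h : 1 - qq ≤ c) : hc c = 0 := by
  refine Cut_Hs_zero ?_
  exact div_nonpos_of_nonpos_of_nonneg (by linarith) Cut_qq_pos.le

theorem hcd_abs (c : ℝ) : |hcd c| ≤ 2 / qq := by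
  have h := Cut_Hsd_mem ((1 - qq - c) / qq)
  have h1 : 0 < 1 / qq := one_div_pos.2 Cut_qq_pos
  simp only [hcd]
  rw [abs_mul, abs_neg, abs_of_pos h1, abs_of_nonneg h.1]
  calc 1 / qq * Hsd ((1 - qq - c) / qq) ≤ 1 / qq * 2 := by gcongr; exact h.2
    _ = 2 / qq := by ring

theorem hcd_zero_of_le {c : ℝ} (h : c ≤ 1 - 2 * qq) : hcd c = 0 := by
  simp only [hcd]
  rw [Cut_Hsd_one, mul_zero]
  rw [le_div_iff₀ Cut_qq_pos]
  linarith

theorem hcd_zero_of_ge {c : ℝ} (h : 1 - qq ≤ c) : hcd c = 0 := by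
  simp only [hcd]
  rw [Cut_Hsd_zero, mul_zero]
  exact div_nonpos_of_nonpos_of_nonneg (by linarith) Cut_qq_pos.le

theorem hasDerivAt_Th (f : ℝ) : HasDerivAt Th (Thd f) f := by
  have h1 : HasDerivAt (hc ∘ Real.cos) (hcd (Real.cos f) * (-Real.sin f)) f :=
    HasDerivAt.comp f (hasDerivAt_hc (Real.cos f)) (Real.hasDerivAt_cos f)
  have h2 := (Real.hasDerivAt_sin f).mul h1
  refine (h2.congr_deriv ?_).congr_of_eventuallyEq ?_
  · simp only [Thd, Function.comp_apply]; ring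
  · exact Filter.Eventually.of_forall fun x => rfl

theorem continuous_Th : Continuous Th := by
  unfold Th
  exact Real.continuous_sin.mul (continuous_hc.comp Real.continuous_cos)

theorem continuous_Thd : Continuous Thd := by
  unfold Thd
  exact (Real.continuous_cos.mul (continuous_hc.comp Real.continuous_cos)).sub
    ((Real.continuous_sin.pow 2).mul (continuous_hcd.comp Real.continuous_cos))

theorem continuous_Xi : Continuous Xi := by
  unfold Xi
  exact (Real.continuous_sin.pow 3).mul (continuous_hcd.comp Real.continuous_cos)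

theorem Th_mul_sin_nonneg (f : ℝ) : 0 ≤ Th f * Real.sin f := by
  have h : Th f * Real.sin f = Real.sin f ^ 2 * hc (Real.cos f) := by
    simp only [Th]; ring
  rw [h]
  exact mul_nonneg (sq_nonneg _) (hc_nonneg _)

theorem Th_sq_le (f : ℝ) : Th f ^ 2 ≤ Th f * Real.sin f := by
  have h : Th f * Real.sin f - Th f ^ 2
      = Real.sin f ^ 2 * (hc (Real.cos f) * (1 - hc (Real.cos f))) := by
    simp only [Th]; ring
  have h2 : 0 ≤ Real.sin f ^ 2 * (hc (Real.cos f) * (1 - hc (Real.cos f))) :=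
    mul_nonneg (sq_nonneg _) (mul_nonneg (hc_nonneg _) (by linarith [hc_le_one (Real.cos f)]))
  linarith

theorem Th_abs_le (f : ℝ) : |Th f| ≤ |Real.sin f| := by
  simp only [Th]
  rw [abs_mul, abs_of_nonneg (hc_nonneg _)]
  calc |Real.sin f| * hc (Real.cos f) ≤ |Real.sin f| * 1 := by
        gcongr; exact hc_le_one _
    _ = |Real.sin f| := mul_one _

theorem Cut_sin_sq {f : ℝ} (h : 1 - 2 * qq ≤ Real.cos f) : Real.sin f ^ 2 ≤ 4 * qq := by
  have h1 := Real.sin_sq_add_cos_sq f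
  have h2 := Real.cos_le_one f
  have h3 : (0 : ℝ) < qq := Cut_qq_pos
  have h4 : qq ≤ 1 / 4 := by norm_num [qq]
  nlinarith

theorem Thd_abs (f : ℝ) : |Thd f| ≤ 9 := by
  have h1 : |Real.cos f * hc (Real.cos f)| ≤ 1 := by
    rw [abs_mul, abs_of_nonneg (hc_nonneg _)]
    calc |Real.cos f| * hc (Real.cos f) ≤ 1 * 1 :=
          mul_le_mul (Real.abs_cos_le_one f) (hc_le_one _) (hc_nonneg _) zero_le_one
      _ = 1 := mul_one _
  have h2 : |Real.sin f ^ 2 * hcd (Real.cos f)| ≤ 8 := by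
    rcases le_total (Real.cos f) (1 - 2 * qq) with h | h
    · rw [hcd_zero_of_le h, mul_zero, abs_zero]; norm_num
    · rw [abs_mul, abs_of_nonneg (sq_nonneg _)]
      calc Real.sin f ^ 2 * |hcd (Real.cos f)| ≤ (4 * qq) * (2 / qq) :=
            mul_le_mul (Cut_sin_sq h) (hcd_abs _) (abs_nonneg _)
              (mul_nonneg (by norm_num) Cut_qq_pos.le)
        _ = 8 := by
            have := Cut_qq_pos.ne'
            field_simp; norm_num
  simp only [Thd]
  calc |Real.cos f * hc (Real.cos f) - Real.sin f ^ 2 * hcd (Real.cos f)|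
      ≤ |Real.cos f * hc (Real.cos f)| + |Real.sin f ^ 2 * hcd (Real.cos f)| := abs_sub _ _
    _ ≤ 1 + 8 := add_le_add h1 h2
    _ = 9 := by norm_num

theorem Th_zero {f : ℝ} (h : 1 - qq ≤ Real.cos f) : Th f = 0 := by
  simp only [Th]; rw [hc_zero h, mul_zero]

theorem Thd_zero {f : ℝ} (h : 1 - qq ≤ Real.cos f) : Thd f = 0 := by
  simp only [Thd]; rw [hc_zero h, hcd_zero_of_ge h]; ring

theorem Xi_zero {f : ℝ} (h : 1 - qq ≤ Real.cos f) : Xi f = 0 := by
  simp only [Xi]; rw [hcd_zero_of_ge h, mul_zero]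

theorem Cut_Xi_zero_of_le {f : ℝ} (h : Real.cos f ≤ 1 - 2 * qq) : Xi f = 0 := by
  simp only [Xi]; rw [hcd_zero_of_le h, mul_zero]

theorem Cut_sin_abs {f : ℝ} (h : 1 - 2 * qq ≤ Real.cos f) : |Real.sin f| ≤ 2 / 10 ^ 18 := by
  refine abs_le_of_sq_le_sq ?_ (by norm_num)
  have h1 := Cut_sin_sq h
  have h2 : (4 : ℝ) * qq = (2 / 10 ^ 18) ^ 2 := by norm_num [qq]
  linarith

theorem Xi_abs (f : ℝ) : |Xi f| ≤ 16 / 10 ^ 18 := by
  rcases le_total (Real.cos f) (1 - 2 * qq) with h | h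
  · rw [Cut_Xi_zero_of_le h, abs_zero]; norm_num
  · simp only [Xi]
    rw [abs_mul, abs_pow]
    calc |Real.sin f| ^ 3 * |hcd (Real.cos f)| ≤ (2 / 10 ^ 18) ^ 3 * (2 / qq) := by
          gcongr
          · exact Cut_sin_abs h
          · exact hcd_abs _
      _ = 16 / 10 ^ 18 := by norm_num [qq]

theorem Xi_sin_abs (f : ℝ) : |Xi f * Real.sin f| ≤ 32 * qq := by
  rcases le_total (Real.cos f) (1 - 2 * qq) with h | h
  · rw [Cut_Xi_zero_of_le h, zero_mul, abs_zero]; norm_num [qq]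
  · simp only [Xi]
    rw [abs_mul, abs_mul, abs_pow]
    calc |Real.sin f| ^ 3 * |hcd (Real.cos f)| * |Real.sin f|
        ≤ (2 / 10 ^ 18) ^ 3 * (2 / qq) * (2 / 10 ^ 18) := by
          have hs := Cut_sin_abs h
          have hq : (0 : ℝ) ≤ 2 / qq := div_nonneg (by norm_num) Cut_qq_pos.le
          exact mul_le_mul (mul_le_mul (pow_le_pow_left₀ (abs_nonneg _) hs 3) (hcd_abs _)
            (abs_nonneg _) (by positivity)) hs (abs_nonneg _) (mul_nonneg (by positivity) hq)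
      _ = 32 * qq := by norm_num [qq]

theorem Th_cos_sub (f : ℝ) : Th f * Real.cos f - Thd f * Real.sin f = Xi f := by
  simp only [Th, Thd, Xi]; ring

theorem hasDerivAt_JJ (f : ℝ) : HasDerivAt JJ (-Xi f) f := by
  have h := intervalIntegral.integral_hasDerivAt_right
    (continuous_Xi.intervalIntegrable 0 f)
    (continuous_Xi.stronglyMeasurableAtFilter _ _) (continuous_Xi.continuousAt (x := f))
  exact h.neg

theorem continuous_JJ : Continuous JJ :=
  continuous_iff_continuousAt.2 fun c => (hasDerivAt_JJ c).continuousAt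

theorem Cut_Xi_far {s : ℝ} (h1 : -2 ≤ s) (h2 : s ≤ Real.pi + 2) (h3 : 4 / 10 ^ 18 ≤ |s|) :
    Xi s = 0 := by
  refine Cut_Xi_zero_of_le ?_
  have hpi := Real.pi_gt_three
  have hpi2 := Real.pi_lt_d2
  have hq : qq = 1 / 10 ^ 36 := rfl
  rcases le_total s Real.pi with h4 | h4
  · have habs : |s| ≤ Real.pi := abs_le.2 ⟨by linarith, h4⟩
    have h5 := Real.cos_le_one_sub_mul_cos_sq habs
    have h6 : (4 / 10 ^ 18 : ℝ) ^ 2 ≤ s ^ 2 := by
      rw [← sq_abs s]; gcongr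
    have h7 : 2 * qq ≤ 2 / Real.pi ^ 2 * s ^ 2 := by
      have h8 : (0 : ℝ) < Real.pi ^ 2 := by positivity
      rw [div_mul_eq_mul_div, le_div_iff₀ h8]
      have h9 : Real.pi ^ 2 ≤ 10 := by nlinarith
      rw [hq]
      nlinarith
    linarith
  · have h5 : Real.cos s ≤ 1 / 2 + 1 / 4 := by
      have h6 : Real.cos s = Real.cos (2 * Real.pi - s) := by
        rw [Real.cos_two_pi_sub]
      rw [h6]
      have h7 : (1.1 : ℝ) ≤ 2 * Real.pi - s := by
        have := Real.pi_gt_d2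
        norm_num at this ⊢
        linarith
      have h8 : 2 * Real.pi - s ≤ Real.pi := by linarith
      have h9 : |2 * Real.pi - s| ≤ Real.pi := abs_le.2 ⟨by linarith, h8⟩
      have h10 := Real.cos_le_one_sub_mul_cos_sq h9
      have h11 : (1 : ℝ) / 4 ≤ 2 / Real.pi ^ 2 * (2 * Real.pi - s) ^ 2 := by
        have h12 : (0 : ℝ) < Real.pi ^ 2 := by positivity
        rw [div_mul_eq_mul_div, le_div_iff₀ h12]
        nlinarith
      linarith
    have : qq ≤ 1 / 8 := by norm_num [qq]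
    linarith

theorem JJ_abs {f : ℝ} (h1 : -2 ≤ f) (h2 : f ≤ Real.pi + 2) : |JJ f| ≤ 100 * qq := by
  have hpi := Real.pi_gt_three
  have hB : ∀ a b : ℝ, |b - a| ≤ 4 / 10 ^ 18 → |∫ s in a..b, Xi s| ≤ 100 * qq := by
    intro a b hab
    have h := intervalIntegral.norm_integral_le_of_norm_le_const (a := a) (b := b) (f := Xi)
      (C := 16 / 10 ^ 18) (fun x _ => by rw [Real.norm_eq_abs]; exact Xi_abs x)
    rw [Real.norm_eq_abs] at h
    refine h.trans ?_
    calc (16 / 10 ^ 18 : ℝ) * |b - a| ≤ 16 / 10 ^ 18 * (4 / 10 ^ 18) := by gcongr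
      _ ≤ 100 * qq := by norm_num [qq]
  simp only [JJ]
  rw [abs_neg]
  rcases le_total |f| (4 / 10 ^ 18) with h3 | h3
  · exact hB 0 f (by simpa using h3)
  · rcases le_total 0 f with h4 | h4
    · rw [abs_of_nonneg h4] at h3
      have hz : ∫ s in (4 / 10 ^ 18 : ℝ)..f, Xi s = 0 := by
        rw [intervalIntegral.integral_congr (g := fun _ => (0 : ℝ))]
        · simp
        · intro s hs
          rw [uIcc_of_le h3] at hs
          exact Cut_Xi_far (by linarith [hs.1, show (0 : ℝ) ≤ 4 / 10 ^ 18 by positivity])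
            (by linarith [hs.2]) (by rw [abs_of_nonneg (le_trans (by positivity) hs.1)]; exact hs.1)
      rw [← intervalIntegral.integral_add_adjacent_intervals
        (continuous_Xi.intervalIntegrable 0 (4 / 10 ^ 18)) (continuous_Xi.intervalIntegrable _ f),
        hz, add_zero]
      exact hB 0 _ (by rw [sub_zero, abs_of_nonneg (by positivity)])
    · rw [abs_of_nonpos h4] at h3
      have hz : ∫ s in (-(4 / 10 ^ 18) : ℝ)..f, Xi s = 0 := by
        rw [intervalIntegral.integral_congr (g := fun _ => (0 : ℝ))]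
        · simp
        · intro s hs
          rw [uIcc_of_ge (by linarith)] at hs
          have h5 : (0 : ℝ) ≤ 4 / 10 ^ 18 := by positivity
          exact Cut_Xi_far (by linarith [hs.1]) (by linarith [hs.2])
            (by rw [abs_of_nonpos (by linarith [hs.2])]; linarith [hs.2])
      rw [← intervalIntegral.integral_add_adjacent_intervals
        (continuous_Xi.intervalIntegrable 0 (-(4 / 10 ^ 18))) (continuous_Xi.intervalIntegrable _ f),
        hz, add_zero]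
      exact hB 0 _ (by rw [sub_zero, abs_neg, abs_of_nonneg (by positivity)])

theorem JJ_zero {f : ℝ} (h1 : |f| ≤ 2) (h2 : 1 - qq ≤ Real.cos f) : JJ f = 0 := by
  have hpi := Real.pi_gt_three
  simp only [JJ]
  rw [neg_eq_zero, intervalIntegral.integral_congr (g := fun _ => (0 : ℝ))]
  · simp
  · intro s hs
    refine Xi_zero (h2.trans ?_)
    have h3 : |s| ≤ |f| := by
      rcases le_total 0 f with h4 | h4
      · rw [uIcc_of_le h4] at hs
        rw [abs_of_nonneg hs.1, abs_of_nonneg h4]; exact hs.2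
      · rw [uIcc_of_ge h4] at hs
        rw [abs_of_nonpos hs.2, abs_of_nonpos h4]; linarith [hs.1]
    rw [← Real.cos_abs f, ← Real.cos_abs s]
    exact Real.cos_le_cos_of_nonneg_of_le_pi (abs_nonneg _) (by linarith) h3

end H72GS

end S_Cut

section S_ParamInt

/-!
# ParamInt: parametric integrals over a fixed interval, fundamental theorem

* `contDiff_paramInt`: induction on the order with `contDiff_succ_iff_fderiv_apply` (finite
  dimension) and `intervalIntegral.hasFDerivAt_integral_of_dominated_of_fderiv_le` (continuity on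
  compact sets gives the domination), `contDiff_infty`.
* `hasDerivAt_int`, `hasDerivAt_int_loc`: `intervalIntegral.hasDerivAt_integral_of_dominated_loc_of_deriv_le`,
  the derivative is bounded on a compact neighbourhood.
* `ftc`: `intervalIntegral.integral_eq_sub_of_hasDerivAt_of_le`.
-/

namespace H72GS

open Set MeasureTheory intervalIntegral
open scoped ContDiff

private theorem ParamInt_hasFDerivAt {E : Type*} [NormedAddCommGroup E] [NormedSpace ℝ E]
    [FiniteDimensional ℝ E] {F : E × ℝ → ℝ} (hF : ContDiff ℝ 1 F) (a b : ℝ) (x : E) :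
    HasFDerivAt (fun x => ∫ s in a..b, F (x, s))
      (∫ s in a..b, (fderiv ℝ F (x, s)) ∘L ContinuousLinearMap.inl ℝ E ℝ) x := by
  have : ProperSpace E := FiniteDimensional.proper ℝ E
  have hFc : Continuous F := hF.continuous
  have hF'c : Continuous (fun p : E × ℝ => (fderiv ℝ F p) ∘L ContinuousLinearMap.inl ℝ E ℝ) :=
    (hF.continuous_fderiv one_ne_zero).clm_comp continuous_const
  have hcomp : IsCompact (Metric.closedBall x 1 ×ˢ uIcc a b) :=
    (isCompact_closedBall x 1).prod isCompact_uIcc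
  obtain ⟨M, hM⟩ := hcomp.exists_bound_of_continuousOn hF'c.continuousOn
  apply intervalIntegral.hasFDerivAt_integral_of_dominated_of_fderiv_le (𝕜 := ℝ)
    (F := fun y s => F (y, s))
    (F' := fun y s => (fderiv ℝ F (y, s)) ∘L ContinuousLinearMap.inl ℝ E ℝ)
    (s := Metric.ball x 1) (bound := fun _ => M) (Metric.ball_mem_nhds x one_pos)
  · refine Filter.Eventually.of_forall fun y => ?_
    exact (hFc.comp (by fun_prop : Continuous fun s : ℝ => (y, s))).aestronglyMeasurable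
  · exact (hFc.comp (by fun_prop : Continuous fun s : ℝ => (x, s))).intervalIntegrable _ _
  · exact (hF'c.comp (by fun_prop : Continuous fun s : ℝ => (x, s))).aestronglyMeasurable
  · refine ae_of_all _ fun t ht y hy => ?_
    exact hM (y, t) ⟨Metric.ball_subset_closedBall hy, uIoc_subset_uIcc ht⟩
  · exact intervalIntegrable_const
  · refine ae_of_all _ fun t ht y hy => ?_
    have hd : HasFDerivAt F (fderiv ℝ F (y, t)) (y, t) :=
      (hF.differentiable one_ne_zero _).hasFDerivAt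
    exact hd.comp y (hasFDerivAt_prodMk_left y t)

private theorem ParamInt_fderiv {E : Type*} [NormedAddCommGroup E] [NormedSpace ℝ E]
    [FiniteDimensional ℝ E] {F : E × ℝ → ℝ} (hF : ContDiff ℝ 1 F) (a b : ℝ) (x v : E) :
    fderiv ℝ (fun x => ∫ s in a..b, F (x, s)) x v = ∫ s in a..b, fderiv ℝ F (x, s) (v, 0) := by
  rw [(ParamInt_hasFDerivAt hF a b x).fderiv]
  have hF'c : Continuous (fun p : E × ℝ => (fderiv ℝ F p) ∘L ContinuousLinearMap.inl ℝ E ℝ) :=
    (hF.continuous_fderiv one_ne_zero).clm_comp continuous_const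
  have h1 : IntervalIntegrable (fun s => (fderiv ℝ F (x, s)) ∘L ContinuousLinearMap.inl ℝ E ℝ)
      volume a b :=
    (hF'c.comp (by fun_prop : Continuous fun s : ℝ => (x, s))).intervalIntegrable _ _
  rw [ContinuousLinearMap.intervalIntegral_apply h1 v]
  rfl

private theorem ParamInt_nat {E : Type*} [NormedAddCommGroup E] [NormedSpace ℝ E]
    [FiniteDimensional ℝ E] (a b : ℝ) (n : ℕ) : ∀ {F : E × ℝ → ℝ} (_ : ContDiff ℝ n F),
    ContDiff ℝ n (fun x => ∫ s in a..b, F (x, s)) := by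
  induction n with
  | zero =>
    intro F hF
    simp only [Nat.cast_zero, contDiff_zero] at hF ⊢
    exact intervalIntegral.continuous_parametric_intervalIntegral_of_continuous'
      (f := fun x s => F (x, s)) hF a b
  | succ n ih =>
    intro F hF
    have h1 : ContDiff ℝ 1 F := hF.of_le (by norm_cast; omega)
    push_cast at hF ⊢
    rw [contDiff_succ_iff_fderiv_apply]
    refine ⟨fun x => (ParamInt_hasFDerivAt h1 a b x).differentiableAt, by simp, ?_⟩
    intro y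
    have h2 : (fun x => fderiv ℝ (fun x => ∫ s in a..b, F (x, s)) x y) =
        fun x => ∫ s in a..b, fderiv ℝ F (x, s) (y, 0) := by
      funext x
      exact ParamInt_fderiv h1 a b x y
    rw [h2]
    apply ih (F := fun p => fderiv ℝ F p (y, 0))
    exact (hF.fderiv_right le_rfl).clm_apply contDiff_const

/-- parametric integrals over a fixed interval are smooth -/
theorem contDiff_paramInt {E : Type*} [NormedAddCommGroup E] [NormedSpace ℝ E]
    [FiniteDimensional ℝ E] {F : E × ℝ → ℝ} (hF : ContDiff ℝ ∞ F) (a b : ℝ) :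
    ContDiff ℝ ∞ (fun x => ∫ s in a..b, F (x, s)) := by
  rw [contDiff_infty] at hF ⊢
  intro n
  exact ParamInt_nat a b n (hF n)

theorem fderiv_paramInt {E : Type*} [NormedAddCommGroup E] [NormedSpace ℝ E]
    [FiniteDimensional ℝ E] {F : E × ℝ → ℝ} (hF : ContDiff ℝ ∞ F) (a b : ℝ) (x v : E) :
    fderiv ℝ (fun x => ∫ s in a..b, F (x, s)) x v = ∫ s in a..b, fderiv ℝ F (x, s) (v, 0) :=
  ParamInt_fderiv (hF.of_le (by exact_mod_cast le_top)) a b x v

private theorem ParamInt_core {F F' : ℝ → ℝ → ℝ} {a b t0 δ : ℝ} (hδ : 0 < δ)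
    (hF : ∀ t ∈ Ioo (t0 - δ) (t0 + δ), ContinuousOn (F t) (uIcc a b))
    (hF' : ContinuousOn (fun p : ℝ × ℝ => F' p.1 p.2) (Ioo (t0 - δ) (t0 + δ) ×ˢ uIcc a b))
    (h : ∀ t ∈ Ioo (t0 - δ) (t0 + δ), ∀ r ∈ uIcc a b, HasDerivAt (fun s => F s r) (F' t r) t) :
    HasDerivAt (fun s => ∫ r in a..b, F s r) (∫ r in a..b, F' t0 r) t0 := by
  have hsub : Icc (t0 - δ/2) (t0 + δ/2) ×ˢ uIcc a b ⊆ Ioo (t0 - δ) (t0 + δ) ×ˢ uIcc a b := by
    refine Set.prod_mono ?_ le_rfl
    intro x hx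
    exact ⟨by linarith [hx.1], by linarith [hx.2]⟩
  obtain ⟨M, hM⟩ := ((isCompact_Icc (a := t0 - δ/2) (b := t0 + δ/2)).prod
    (isCompact_uIcc (a := a) (b := b))).exists_bound_of_continuousOn (hF'.mono hsub)
  have hs : Ioo (t0 - δ/2) (t0 + δ/2) ∈ nhds t0 :=
    Ioo_mem_nhds (by linarith) (by linarith)
  have hin : ∀ t ∈ Ioo (t0 - δ/2) (t0 + δ/2), t ∈ Ioo (t0 - δ) (t0 + δ) := fun x hx =>
    ⟨by linarith [hx.1], by linarith [hx.2]⟩
  have ht0 : t0 ∈ Ioo (t0 - δ) (t0 + δ) := ⟨by linarith, by linarith⟩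
  refine (intervalIntegral.hasDerivAt_integral_of_dominated_loc_of_deriv_le (𝕜 := ℝ)
    (F := F) (F' := F') (s := Ioo (t0 - δ/2) (t0 + δ/2)) (bound := fun _ => M) hs ?_ ?_ ?_ ?_ ?_ ?_).2
  · filter_upwards [hs] with t ht
    exact ((hF t (hin t ht)).mono uIoc_subset_uIcc).aestronglyMeasurable measurableSet_uIoc
  · exact (hF t0 ht0).intervalIntegrable
  · have : ContinuousOn (F' t0) (uIcc a b) := by
      refine hF'.comp (f := fun r => (t0, r)) (by fun_prop) ?_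
      intro r hr
      exact ⟨ht0, hr⟩
    exact (this.mono uIoc_subset_uIcc).aestronglyMeasurable measurableSet_uIoc
  · refine ae_of_all _ fun r hr t ht => ?_
    exact hM (t, r) ⟨⟨ht.1.le, ht.2.le⟩, uIoc_subset_uIcc hr⟩
  · exact intervalIntegrable_const
  · refine ae_of_all _ fun r hr t ht => ?_
    exact h t (hin t ht) r (uIoc_subset_uIcc hr)

/-- derivative of an integral over a fixed interval -/
theorem hasDerivAt_int {F F' : ℝ → ℝ → ℝ} (hF : ∀ t, Continuous (F t))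
    (hF' : Continuous (fun p : ℝ × ℝ => F' p.1 p.2))
    (h : ∀ t r, HasDerivAt (fun s => F s r) (F' t r) t) (a b t : ℝ) :
    HasDerivAt (fun s => ∫ r in a..b, F s r) (∫ r in a..b, F' t r) t :=
  ParamInt_core one_pos (fun t _ => (hF t).continuousOn) hF'.continuousOn (fun t _ r _ => h t r)

/-- local version: everything only near the time `t0` and for `r ∈ [a,b]` -/
theorem hasDerivAt_int_loc {F F' : ℝ → ℝ → ℝ} {a b t0 δ : ℝ} (hab : a ≤ b) (hδ : 0 < δ)
    (hF : ∀ t ∈ Ioo (t0 - δ) (t0 + δ), ContinuousOn (F t) (Icc a b))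
    (hF' : ContinuousOn (fun p : ℝ × ℝ => F' p.1 p.2) (Ioo (t0 - δ) (t0 + δ) ×ˢ Icc a b))
    (h : ∀ t ∈ Ioo (t0 - δ) (t0 + δ), ∀ r ∈ Icc a b, HasDerivAt (fun s => F s r) (F' t r) t) :
    HasDerivAt (fun s => ∫ r in a..b, F s r) (∫ r in a..b, F' t0 r) t0 := by
  rw [← uIcc_of_le hab] at hF hF' h
  exact ParamInt_core hδ hF hF' h

/-- fundamental theorem: derivative on the open interval only, continuity on the closed one -/
theorem ftc {F F' : ℝ → ℝ} {a b : ℝ} (hab : a ≤ b) (hF : ContinuousOn F (Icc a b))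
    (hF' : ContinuousOn F' (Icc a b)) (h : ∀ r ∈ Ioo a b, HasDerivAt F (F' r) r) :
    ∫ r in a..b, F' r = F b - F a := by
  refine intervalIntegral.integral_eq_sub_of_hasDerivAt_of_le hab hF h ?_
  apply ContinuousOn.intervalIntegrable
  rw [uIcc_of_le hab]
  exact hF'

end H72GS

end S_ParamInt

section S_Api

/-!
# Api: smooth functions of two variables, Hadamard quotients, parametric integrals

* `Sm u`: `u t r` is jointly `C^∞`.
* `Q u t r = ∫_0^1 (∂_r u)(t, s r) ds`, so `r * Q u t r = u t r` if `u t 0 = 0`.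
* smoothness of `Q u` from `contDiff_paramInt` (`ParamInt.lean`), `dt_Q` from `fderiv_paramInt` or
  `hasDerivAt_int`.
-/

namespace H72GS

open Set MeasureTheory intervalIntegral
open scoped ContDiff

noncomputable section

/-- `u` is a smooth function of `(t,r)` -/
def Sm (u : ℝ → ℝ → ℝ) : Prop := ContDiff ℝ ∞ (fun p : ℝ × ℝ => u p.1 p.2)

/-- time derivative -/
def dt (u : ℝ → ℝ → ℝ) : ℝ → ℝ → ℝ := fun t r => deriv (fun s => u s r) t

/-- radial derivative -/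
def dr (u : ℝ → ℝ → ℝ) : ℝ → ℝ → ℝ := fun t r => deriv (fun x => u t x) r

/-- Hadamard quotient -/
def Q (u : ℝ → ℝ → ℝ) : ℝ → ℝ → ℝ := fun t r => ∫ s in (0 : ℝ)..1, dr u t (s * r)

variable {u v : ℝ → ℝ → ℝ}

theorem Sm.cont (h : Sm u) : Continuous (fun p : ℝ × ℝ => u p.1 p.2) := by
  exact ContDiff.continuous h

theorem Sm.cont_r (h : Sm u) (t : ℝ) : Continuous (u t) := by
  exact h.cont.comp (Continuous.prodMk_right t)

theorem Sm.cont_t (h : Sm u) (r : ℝ) : Continuous (fun t => u t r) := by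
  exact h.cont.comp (Continuous.prodMk_left r)

theorem Api_hasDerivAt_t (h : Sm u) (t r : ℝ) :
    HasDerivAt (fun s => u s r) (fderiv ℝ (fun p : ℝ × ℝ => u p.1 p.2) (t, r) (1, 0)) t := by
  have hd : HasFDerivAt (fun p : ℝ × ℝ => u p.1 p.2)
      (fderiv ℝ (fun p : ℝ × ℝ => u p.1 p.2) (t, r)) (t, r) :=
    ((ContDiff.differentiable h (by simp)) (t, r)).hasFDerivAt
  have hg : HasDerivAt (fun s : ℝ => ((s, r) : ℝ × ℝ)) (1, 0) t :=
    (hasDerivAt_id t).prodMk (hasDerivAt_const t r)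
  exact hd.comp_hasDerivAt t hg

theorem Api_hasDerivAt_r (h : Sm u) (t r : ℝ) :
    HasDerivAt (u t) (fderiv ℝ (fun p : ℝ × ℝ => u p.1 p.2) (t, r) (0, 1)) r := by
  have hd : HasFDerivAt (fun p : ℝ × ℝ => u p.1 p.2)
      (fderiv ℝ (fun p : ℝ × ℝ => u p.1 p.2) (t, r)) (t, r) :=
    ((ContDiff.differentiable h (by simp)) (t, r)).hasFDerivAt
  have hg : HasDerivAt (fun s : ℝ => ((t, s) : ℝ × ℝ)) (0, 1) r :=
    (hasDerivAt_const r t).prodMk (hasDerivAt_id r)
  exact hd.comp_hasDerivAt r hg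

theorem Api_dt_eq (h : Sm u) : (fun p : ℝ × ℝ => dt u p.1 p.2) =
    fun p => fderiv ℝ (fun p : ℝ × ℝ => u p.1 p.2) p (1, 0) := by
  funext p
  exact (Api_hasDerivAt_t h p.1 p.2).deriv

theorem Api_dr_eq (h : Sm u) : (fun p : ℝ × ℝ => dr u p.1 p.2) =
    fun p => fderiv ℝ (fun p : ℝ × ℝ => u p.1 p.2) p (0, 1) := by
  funext p
  exact (Api_hasDerivAt_r h p.1 p.2).deriv

theorem Sm.hasDerivAt_t (h : Sm u) (t r : ℝ) : HasDerivAt (fun s => u s r) (dt u t r) t := by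
  exact (Api_hasDerivAt_t h t r).differentiableAt.hasDerivAt

theorem Sm.hasDerivAt_r (h : Sm u) (t r : ℝ) : HasDerivAt (u t) (dr u t r) r := by
  exact (Api_hasDerivAt_r h t r).differentiableAt.hasDerivAt

theorem Sm.dt (h : Sm u) : Sm (dt u) := by
  have h1 : ContDiff ℝ ∞ (fun p : ℝ × ℝ => H72GS.dt u p.1 p.2) := by
    rw [Api_dt_eq h]
    exact (ContDiff.fderiv_right (m := ∞) h (by simp)).clm_apply contDiff_const
  exact h1

theorem Sm.dr (h : Sm u) : Sm (dr u) := by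
  have h1 : ContDiff ℝ ∞ (fun p : ℝ × ℝ => H72GS.dr u p.1 p.2) := by
    rw [Api_dr_eq h]
    exact (ContDiff.fderiv_right (m := ∞) h (by simp)).clm_apply contDiff_const
  exact h1

/-- mixed derivatives commute -/
theorem Sm.comm (h : Sm u) : H72GS.dt (H72GS.dr u) = H72GS.dr (H72GS.dt u) := by
  have hF : ContDiff ℝ ∞ (fun p : ℝ × ℝ => u p.1 p.2) := h
  have hF' : ContDiff ℝ ∞ (fderiv ℝ (fun p : ℝ × ℝ => u p.1 p.2)) :=
    ContDiff.fderiv_right (m := ∞) hF (by simp)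
  funext t r
  have hdd := (hF'.differentiable (by simp)) (t, r)
  have e1 : H72GS.dt (H72GS.dr u) t r =
      fderiv ℝ (fun p : ℝ × ℝ => H72GS.dr u p.1 p.2) (t, r) (1, 0) :=
    (Api_hasDerivAt_t h.dr t r).deriv
  have e2 : H72GS.dr (H72GS.dt u) t r =
      fderiv ℝ (fun p : ℝ × ℝ => H72GS.dt u p.1 p.2) (t, r) (0, 1) :=
    (Api_hasDerivAt_r h.dt t r).deriv
  rw [e1, e2, Api_dr_eq h, Api_dt_eq h, fderiv_clm_apply hdd (differentiableAt_const _),
    fderiv_clm_apply hdd (differentiableAt_const _)]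
  have hs : IsSymmSndFDerivAt ℝ (fun p : ℝ × ℝ => u p.1 p.2) (t, r) :=
    (hF.contDiffAt).isSymmSndFDerivAt (by
      rw [minSmoothness_of_isRCLikeNormedField]; exact WithTop.coe_le_coe.2 le_top)
  simpa using (hs (1, 0) (0, 1))

theorem Sm.add (hu : Sm u) (hv : Sm v) : Sm (fun t r => u t r + v t r) := by
  exact ContDiff.add hu hv

theorem Sm.sub (hu : Sm u) (hv : Sm v) : Sm (fun t r => u t r - v t r) := by
  exact ContDiff.sub hu hv

theorem Sm.mul (hu : Sm u) (hv : Sm v) : Sm (fun t r => u t r * v t r) := by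
  exact ContDiff.mul hu hv

theorem Sm.neg (hu : Sm u) : Sm (fun t r => -u t r) := by
  exact ContDiff.neg hu

theorem Sm.pow (hu : Sm u) (n : ℕ) : Sm (fun t r => u t r ^ n) := by
  exact ContDiff.pow hu n

theorem Sm.const (c : ℝ) : Sm (fun _ _ => c) := by
  exact contDiff_const

theorem Sm.idr : Sm (fun _ r => r) := by
  exact contDiff_snd

theorem Sm.idt : Sm (fun t _ => t) := by
  exact contDiff_fst

theorem Sm.sin (hu : Sm u) : Sm (fun t r => Real.sin (u t r)) := by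
  exact Real.contDiff_sin.comp hu

theorem Sm.cos (hu : Sm u) : Sm (fun t r => Real.cos (u t r)) := by
  exact Real.contDiff_cos.comp hu

theorem Sm.Q (h : Sm u) : Sm (Q u) := by
  have h1 : ContDiff ℝ ∞ (fun q : (ℝ × ℝ) × ℝ => H72GS.dr u q.1.1 (q.2 * q.1.2)) := by
    have h2 : ContDiff ℝ ∞ (fun p : ℝ × ℝ => H72GS.dr u p.1 p.2) := h.dr
    have h3 : ContDiff ℝ ∞ (fun q : (ℝ × ℝ) × ℝ => (q.1.1, q.2 * q.1.2)) := by fun_prop
    exact h2.comp h3
  exact contDiff_paramInt h1 0 1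

theorem mul_Q (h : Sm u) {t : ℝ} (h0 : u t 0 = 0) (r : ℝ) : r * Q u t r = u t r := by
  have hc : Continuous (fun s : ℝ => r * H72GS.dr u t (s * r)) := by
    have := h.dr.cont_r t
    fun_prop
  have hd : ∀ s ∈ Set.uIcc (0 : ℝ) 1,
      HasDerivAt (fun s => u t (s * r)) (r * H72GS.dr u t (s * r)) s := by
    intro s _
    have h1 := (h.hasDerivAt_r t (s * r)).comp s ((hasDerivAt_id s).mul_const r)
    refine h1.congr_deriv ?_
    ring
  have h2 := intervalIntegral.integral_eq_sub_of_hasDerivAt hd (hc.intervalIntegrable 0 1)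
  simp only [one_mul, zero_mul, h0, sub_zero] at h2
  rw [← h2, Q, ← intervalIntegral.integral_const_mul]

/-- `dt (Q u) = Q (dt u)` -/
theorem dt_Q (h : Sm u) : H72GS.dt (Q u) = Q (H72GS.dt u) := by
  funext t r
  have hF : ∀ s, Continuous (fun x => H72GS.dr u s (x * r)) := by
    intro s
    have := h.dr.cont_r s
    fun_prop
  have hF' : Continuous (fun p : ℝ × ℝ => H72GS.dt (H72GS.dr u) p.1 (p.2 * r)) := by
    have h1 := h.dr.dt.cont
    exact h1.comp (by fun_prop : Continuous (fun p : ℝ × ℝ => (p.1, p.2 * r)))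
  have h1 := hasDerivAt_int (F := fun s x => H72GS.dr u s (x * r))
    (F' := fun s x => H72GS.dt (H72GS.dr u) s (x * r)) hF hF'
    (fun s x => h.dr.hasDerivAt_t s (x * r)) 0 1 t
  have h2 : H72GS.dt (Q u) t r = ∫ x in (0 : ℝ)..1, H72GS.dt (H72GS.dr u) t (x * r) := h1.deriv
  rw [h2, h.comm]
  rfl

/-- value at the origin -/
theorem Q_zero (t : ℝ) : Q u t 0 = H72GS.dr u t 0 := by
  simp [Q]

/-- cancellation of a factor `r`, by continuity at `0` -/
theorem cancel_r {f g : ℝ → ℝ} (hf : Continuous f) (hg : Continuous g)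
    (h : ∀ r, r * f r = r * g r) : f = g := by
  refine Continuous.ext_on (dense_compl_singleton (0 : ℝ)) hf hg ?_
  intro r hr
  exact mul_left_cancel₀ (Set.mem_compl_singleton_iff.1 hr) (h r)

/-- an identity for `r > 0` extends to `r ≥ 0` -/
theorem eq_of_pos {f g : ℝ → ℝ} (hf : Continuous f) (hg : Continuous g)
    (h : ∀ r, 0 < r → f r = g r) : ∀ r, 0 ≤ r → f r = g r := by
  have h1 : Set.Ioi (0 : ℝ) ⊆ {r | f r = g r} := fun r hr => h r hr
  have h2 := (isClosed_eq hf hg).closure_subset_iff.2 h1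
  rw [closure_Ioi] at h2
  exact fun r hr => h2 hr

end

end H72GS

end S_Api

section S_Boot

/-!
# Boot: the continuity argument (pure real analysis)

`G(t)` := `10^60 ≤ om ∧ 1 ≤ om³ N ∧ Ey ≤ om ∧ X ≤ Gam² om⁴ N`.  Let `S` be the set of `t ∈ [0,T]` with
`G` on `[0,t]`; `S` is closed (continuity).  For `t ∈ S`, on `[0,t]`:
`om' ≥ 0.99 om² > 0`, `(om³ N)' ≥ om⁴ N (2.97 - 2.01) > 0`, `(om - Ey)' > 0`,
`(Gam1² om⁴ N - Y)' ≥ om⁵ N (10¹⁴ · (3.96 - 2.01) - 9·10¹³) > 0`, so at `t` all of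
`om > 10^60`, `om³ N > 1`, `Ey < om`, `Y < Gam1² om⁴ N` are strict and
`X ≤ (10/7)(Y + 10^10 om⁴ N) < Gam² om⁴ N`; by continuity `G` holds slightly beyond `t`.
Hence `G` on `[0,T]` and `(1/om)' ≤ -0.99`: `0 < 1/om(T) ≤ 1/om(0) - 0.99 T`, contradiction.
(`IsClosed.Icc_subset_of_forall_mem_nhdsWithin`.)
-/

namespace H72GS

open Set Filter Topology

private lemma Boot_mono {φ : ℝ → ℝ} {t : ℝ} (ht : 0 ≤ t)
    (h : ∀ u ∈ Icc 0 t, ∃ d, HasDerivAt φ d u ∧ 0 ≤ d) : φ 0 ≤ φ t := by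
  rcases eq_or_lt_of_le ht with h0 | h0
  · rw [← h0]
  · choose! d hd1 hd2 using h
    obtain ⟨c, hc, hc2⟩ := exists_hasDerivAt_eq_slope φ d h0
      (fun x hx => (hd1 x hx).continuousAt.continuousWithinAt)
      (fun x hx => hd1 x ⟨hx.1.le, hx.2.le⟩)
    have h1 := hd2 c ⟨hc.1.le, hc.2.le⟩
    rw [hc2, sub_zero] at h1
    have h2 : 0 ≤ φ t - φ 0 := by
      by_contra hcon
      push Not at hcon
      have := div_neg_of_neg_of_pos hcon h0
      linarith
    linarith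

theorem boot {T : ℝ} (hT : 0 < T) {N om X Y Ey : ℝ → ℝ}
    (cN : ContinuousOn N (Icc 0 T)) (com : ContinuousOn om (Icc 0 T))
    (cX : ContinuousOn X (Icc 0 T)) (cEy : ContinuousOn Ey (Icc 0 T))
    (Npos : ∀ t ∈ Icc 0 T, 0 < N t)
    (hst : ∀ t ∈ Icc 0 T, 10 ^ 60 ≤ om t → 1 ≤ om t ^ 3 * N t → Ey t ≤ om t →
      X t ≤ Gam ^ 2 * om t ^ 4 * N t →
      (∃ N', HasDerivAt N N' t ∧ |N' + 2 * om t * N t| ≤ om t * N t / 100) ∧
      (∃ om', HasDerivAt om om' t ∧ |om' - om t ^ 2| ≤ om t ^ 2 / 100) ∧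
      (∃ Ey', HasDerivAt Ey Ey' t ∧ Ey' ≤ om t ^ 2 / 100) ∧
      (∃ Y', HasDerivAt Y Y' t ∧ Y' ≤ 9 * 10 ^ 13 * om t ^ 5 * N t) ∧
      7 / 10 * X t ≤ Y t + 10 ^ 10 * om t ^ 4 * N t)
    (i1 : 10 ^ 60 < om 0) (i2 : 1 < om 0 ^ 3 * N 0) (i3 : Ey 0 < om 0)
    (i4 : X 0 < Gam ^ 2 * om 0 ^ 4 * N 0) (i5 : Y 0 < Gam1 ^ 2 * om 0 ^ 4 * N 0)
    (hlong : 11 / 10 ≤ T * om 0) : False := by
  have hGam : Gam ^ 2 = 169 * 10 ^ 12 := by unfold Gam; norm_num
  have hGam1 : Gam1 ^ 2 = 10 ^ 14 := by unfold Gam1; norm_num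
  rw [hGam] at hst i4
  rw [hGam1] at i5
  -- the good property
  let Gd : ℝ → Prop := fun t => 10 ^ 60 ≤ om t ∧ 1 ≤ om t ^ 3 * N t ∧ Ey t ≤ om t ∧
    X t ≤ 169 * 10 ^ 12 * om t ^ 4 * N t
  -- the strict consequences at the end of a good interval
  have strict : ∀ t ∈ Icc 0 T, (∀ u ∈ Icc 0 t, Gd u) →
      10 ^ 60 < om t ∧ 1 < om t ^ 3 * N t ∧ Ey t < om t ∧
      X t < 169 * 10 ^ 12 * om t ^ 4 * N t := by
    intro t ht hgood
    have hd : ∀ u ∈ Icc 0 t, 0 < om u ∧ 0 < N u ∧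
        (∃ N', HasDerivAt N N' u ∧ |N' + 2 * om u * N u| ≤ om u * N u / 100) ∧
        (∃ om', HasDerivAt om om' u ∧ |om' - om u ^ 2| ≤ om u ^ 2 / 100) ∧
        (∃ Ey', HasDerivAt Ey Ey' u ∧ Ey' ≤ om u ^ 2 / 100) ∧
        (∃ Y', HasDerivAt Y Y' u ∧ Y' ≤ 9 * 10 ^ 13 * om u ^ 5 * N u) ∧
        7 / 10 * X u ≤ Y u + 10 ^ 10 * om u ^ 4 * N u := by
      intro u hu
      have huT : u ∈ Icc 0 T := ⟨hu.1, hu.2.trans ht.2⟩
      obtain ⟨g1, g2, g3, g4⟩ := hgood u hu
      have h := hst u huT g1 g2 g3 g4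
      exact ⟨lt_of_lt_of_le (by norm_num) g1, Npos u huT, h⟩
    have m1 : om 0 ≤ om t := by
      refine Boot_mono ht.1 ?_
      intro u hu
      obtain ⟨h1, h2, -, ⟨o', ho1, ho2⟩, -⟩ := hd u hu
      refine ⟨o', ho1, ?_⟩
      have := (abs_le.1 ho2).1
      have h3 : 0 ≤ om u ^ 2 := sq_nonneg _
      linarith
    have m2 : om 0 ^ 3 * N 0 ≤ om t ^ 3 * N t := by
      refine Boot_mono (φ := fun s => om s ^ 3 * N s) ht.1 ?_
      intro u hu
      obtain ⟨h1, h2, ⟨n', hn1, hn2⟩, ⟨o', ho1, ho2⟩, -⟩ := hd u hu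
      refine ⟨_, (ho1.pow 3).mul hn1, ?_⟩
      have a1 := (abs_le.1 ho2).1
      have a2 := (abs_le.1 hn2).1
      have b1 : 99 / 100 * om u ^ 2 ≤ o' := by linarith
      have b2 : -(201 / 100) * (om u * N u) ≤ n' := by linarith
      have c1 : (3 * om u ^ 2 * N u) * (99 / 100 * om u ^ 2) ≤ (3 * om u ^ 2 * N u) * o' :=
        mul_le_mul_of_nonneg_left b1 (by positivity)
      have c2 : om u ^ 3 * (-(201 / 100) * (om u * N u)) ≤ om u ^ 3 * n' :=
        mul_le_mul_of_nonneg_left b2 (by positivity)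
      have c3 : 0 ≤ om u ^ 4 * N u := by positivity
      have e : ((3 : ℕ) : ℝ) * om u ^ (3 - 1) * o' * N u + om u ^ 3 * n' =
        (3 * om u ^ 2 * N u) * o' + om u ^ 3 * n' := by
        norm_num
        ring
      simp only [Pi.pow_apply]
      rw [e]
      nlinarith
    have m3 : om 0 - Ey 0 ≤ om t - Ey t := by
      refine Boot_mono (φ := fun s => om s - Ey s) ht.1 ?_
      intro u hu
      obtain ⟨h1, h2, -, ⟨o', ho1, ho2⟩, ⟨e', he1, he2⟩, -⟩ := hd u hu
      refine ⟨_, ho1.sub he1, ?_⟩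
      have a1 := (abs_le.1 ho2).1
      have h3 : 0 ≤ om u ^ 2 := sq_nonneg _
      linarith
    have m4 : 10 ^ 14 * om 0 ^ 4 * N 0 - Y 0 ≤ 10 ^ 14 * om t ^ 4 * N t - Y t := by
      refine Boot_mono (φ := fun s => 10 ^ 14 * om s ^ 4 * N s - Y s) ht.1 ?_
      intro u hu
      obtain ⟨h1, h2, ⟨n', hn1, hn2⟩, ⟨o', ho1, ho2⟩, -, ⟨y', hy1, hy2⟩, -⟩ := hd u hu
      refine ⟨_, (((ho1.pow 4).const_mul (10 ^ 14)).mul hn1).sub hy1, ?_⟩
      have a1 := (abs_le.1 ho2).1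
      have a2 := (abs_le.1 hn2).1
      have b1 : 99 / 100 * om u ^ 2 ≤ o' := by linarith
      have b2 : -(201 / 100) * (om u * N u) ≤ n' := by linarith
      have c1 : (4 * om u ^ 3 * N u) * (99 / 100 * om u ^ 2) ≤ (4 * om u ^ 3 * N u) * o' :=
        mul_le_mul_of_nonneg_left b1 (by positivity)
      have c2 : om u ^ 4 * (-(201 / 100) * (om u * N u)) ≤ om u ^ 4 * n' :=
        mul_le_mul_of_nonneg_left b2 (by positivity)
      have c3 : 0 ≤ om u ^ 5 * N u := by positivity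
      have e : 10 ^ 14 * (((4 : ℕ) : ℝ) * om u ^ (4 - 1) * o') * N u + 10 ^ 14 * om u ^ 4 * n' - y' =
        10 ^ 14 * ((4 * om u ^ 3 * N u) * o' + om u ^ 4 * n') - y' := by
        norm_num
        ring
      simp only [Pi.pow_apply]
      rw [e]
      have c4 : (4 * om u ^ 3 * N u) * (99 / 100 * om u ^ 2) +
        om u ^ 4 * (-(201 / 100) * (om u * N u)) = (195 / 100) * (om u ^ 5 * N u) := by ring
      have c5 : (195 / 100) * (om u ^ 5 * N u) ≤ (4 * om u ^ 3 * N u) * o' + om u ^ 4 * n' := by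
        linarith
      have c6 : y' ≤ 9 * 10 ^ 13 * (om u ^ 5 * N u) := by
        rw [← mul_assoc]; exact hy2
      linarith
    obtain ⟨h1, h2, -, -, -, -, hX⟩ := hd t ⟨ht.1, le_refl _⟩
    refine ⟨by linarith, by linarith, by linarith, ?_⟩
    have c1 : 0 < om t ^ 4 * N t := by positivity
    have c2 : Y t < 10 ^ 14 * (om t ^ 4 * N t) := by
      have : 10 ^ 14 * (om t ^ 4 * N t) = 10 ^ 14 * om t ^ 4 * N t := by ring
      linarith
    have c3 : 7 / 10 * X t ≤ Y t + 10 ^ 10 * (om t ^ 4 * N t) := by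
      have : 10 ^ 10 * (om t ^ 4 * N t) = 10 ^ 10 * om t ^ 4 * N t := by ring
      linarith
    have c4 : 169 * 10 ^ 12 * om t ^ 4 * N t = 169 * 10 ^ 12 * (om t ^ 4 * N t) := by ring
    rw [c4]
    linarith
  -- continuity
  have cC : IsClosed (Icc 0 T ∩ {t | Gd t}) := by
    have e : Icc 0 T ∩ {t | Gd t} = (((Icc 0 T ∩ om ⁻¹' (Ici (10 ^ 60))) ∩
        (Icc 0 T ∩ (fun t => om t ^ 3 * N t) ⁻¹' (Ici 1))) ∩
        (Icc 0 T ∩ (fun t => om t - Ey t) ⁻¹' (Ici 0))) ∩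
        (Icc 0 T ∩ (fun t => 169 * 10 ^ 12 * om t ^ 4 * N t - X t) ⁻¹' (Ici 0)) := by
      ext t
      simp only [mem_inter_iff, mem_preimage, mem_Ici, mem_ofPred_eq, sub_nonneg, Gd]
      tauto
    rw [e]
    refine ((?_ : IsClosed _).inter ?_ |>.inter ?_).inter ?_
    · exact com.preimage_isClosed_of_isClosed isClosed_Icc isClosed_Ici
    · exact ((com.pow 3).mul cN).preimage_isClosed_of_isClosed isClosed_Icc isClosed_Ici
    · exact (com.sub cEy).preimage_isClosed_of_isClosed isClosed_Icc isClosed_Ici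
    · exact (((continuousOn_const.mul (com.pow 4)).mul cN).sub cX).preimage_isClosed_of_isClosed
        isClosed_Icc isClosed_Ici
  have hall : Icc 0 T ⊆ {t | ∀ u ∈ Icc 0 t, Gd u} := by
    refine IsClosed.Icc_subset_of_forall_mem_nhdsWithin ?_ ?_ ?_
    · apply IsSeqClosed.isClosed
      intro x t hx hlim
      have ht : t ∈ Icc 0 T := isClosed_Icc.mem_of_tendsto hlim (Eventually.of_forall fun n => (hx n).2)
      refine ⟨?_, ht⟩
      intro u hu
      rcases eq_or_lt_of_le hu.2 with h | h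
      · rw [h]
        have : t ∈ Icc 0 T ∩ {t | Gd t} := by
          refine cC.mem_of_tendsto hlim (Eventually.of_forall fun n => ?_)
          exact ⟨(hx n).2, (hx n).1 (x n) ⟨(hx n).2.1, le_refl _⟩⟩
        exact this.2
      · obtain ⟨n, hn⟩ := (hlim.eventually (lt_mem_nhds h)).exists
        exact (hx n).1 u ⟨hu.1, hn.le⟩
    · intro u hu
      have : u = 0 := le_antisymm hu.2 hu.1
      rw [this]
      exact ⟨i1.le, i2.le, i3.le, i4.le⟩
    · rintro t ⟨hg, ht⟩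
      have htT : t ∈ Icc 0 T := ⟨ht.1, ht.2.le⟩
      obtain ⟨s1, s2, s3, s4⟩ := strict t htT hg
      have e1 : ∀ᶠ v in 𝓝[Icc 0 T] t, 10 ^ 60 < om v :=
        (com t htT).eventually (lt_mem_nhds s1)
      have e2 : ∀ᶠ v in 𝓝[Icc 0 T] t, 1 < om v ^ 3 * N v :=
        (((com.pow 3).mul cN) t htT).eventually (lt_mem_nhds s2)
      have e3 : ∀ᶠ v in 𝓝[Icc 0 T] t, 0 < om v - Ey v :=
        ((com.sub cEy) t htT).eventually (lt_mem_nhds (sub_pos.2 s3))
      have e4 : ∀ᶠ v in 𝓝[Icc 0 T] t, 0 < 169 * 10 ^ 12 * om v ^ 4 * N v - X v :=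
        ((((continuousOn_const.mul (com.pow 4)).mul cN).sub cX) t htT).eventually
          (lt_mem_nhds (sub_pos.2 s4))
      have e5 : ∀ᶠ v in 𝓝[Icc 0 T] t, Gd v := by
        filter_upwards [e1, e2, e3, e4] with v h1 h2 h3 h4
        exact ⟨h1.le, h2.le, (sub_pos.1 h3).le, (sub_pos.1 h4).le⟩
      rw [eventually_nhdsWithin_iff, Metric.eventually_nhds_iff] at e5
      obtain ⟨δ, hδ, h5⟩ := e5
      have hmem : Ioo t (min (t + δ) T) ∈ 𝓝[>] t :=
        Ioo_mem_nhdsGT (lt_min (by linarith) ht.2)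
      refine mem_of_superset hmem ?_
      intro v hv u hu
      rcases le_total u t with h | h
      · exact hg u ⟨hu.1, h⟩
      · have hv1 : v < t + δ := lt_of_lt_of_le hv.2 (min_le_left _ _)
        have hv2 : v < T := lt_of_lt_of_le hv.2 (min_le_right _ _)
        apply h5
        · rw [Real.dist_eq, abs_of_nonneg (by linarith)]
          linarith [hu.2]
        · exact ⟨hu.1, hu.2.trans hv2.le⟩
  -- conclusion
  have hT1 : T ∈ Icc 0 T := ⟨hT.le, le_refl _⟩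
  have hgT := hall hT1
  have fin : -(om 0)⁻¹ - 99 / 100 * 0 ≤ -(om T)⁻¹ - 99 / 100 * T := by
    refine Boot_mono (φ := fun s => -(om s)⁻¹ - 99 / 100 * s) hT.le ?_
    intro u hu
    obtain ⟨g1, g2, g3, g4⟩ := hgT u hu
    obtain ⟨-, ⟨o', ho1, ho2⟩, -⟩ := hst u hu g1 g2 g3 g4
    have h1 : 0 < om u := lt_of_lt_of_le (by norm_num) g1
    refine ⟨_, ((ho1.inv h1.ne').neg).sub ((hasDerivAt_id u).const_mul (99 / 100)), ?_⟩
    have a1 := (abs_le.1 ho2).1
    have b1 : 99 / 100 * om u ^ 2 ≤ o' := by linarith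
    have h2 : 0 < om u ^ 2 := by positivity
    have h3 : 99 / 100 ≤ o' / om u ^ 2 := by
      rw [le_div_iff₀ h2]
      linarith
    have e : -(-o' / om u ^ 2) - 99 / 100 * 1 = o' / om u ^ 2 - 99 / 100 := by ring
    rw [e]
    linarith
  have h0 : 0 < om 0 := lt_trans (by norm_num) i1
  have hT2 : 0 < om T := lt_of_lt_of_le (by norm_num) (hgT T hT1).1
  have h1 : 0 < (om T)⁻¹ := inv_pos.2 hT2
  have h2 : 99 / 100 * T < (om 0)⁻¹ := by linarith
  have h3 : 99 / 100 * T * om 0 < 1 := by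
    have := mul_lt_mul_of_pos_right h2 h0
    rwa [inv_mul_cancel₀ h0.ne'] at this
  linarith

end H72GS

end S_Boot

section S_Rad

/-!
# Rad: smooth equivariant solutions, and the functions attached to them

`Rad T R0`: `f, al` globally smooth, `a = r al`, the radial equations hold for `t ∈ [0,T]`, `r > 0`:
`f_tt = f_rr + f_r/r - μ² sin f cos f / r² - (1 - cos f) sin f`,
`a_tt = a_rr - a_r / r - μ sin² f`, `μ = 4 + a`; the data are vacuum for `r ≥ R0`, `al = al_t = 0` at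
`t = 0`.

Derived functions: `s = sin f`, `c = cos f`, `S1 = s/r`, `μ`, `g = f_t`, `e = al_t`,
`w = f_r + μ S1`, `y = a_r/r + 1 - c = al1 + al_r + 1 - c`, `al1 = al/r`, `w1 = w/r`, `g1 = g/r`,
`e1 = e/r`.
-/

namespace H72GS

open Set MeasureTheory intervalIntegral

noncomputable section

/-- smooth equivariant solution on `[0,T]`, vacuum initially for `r ≥ R0` -/
structure Rad (T R0 : ℝ) where
  f : ℝ → ℝ → ℝ
  al : ℝ → ℝ → ℝ
  hT : 0 < T
  hR0 : 0 < R0
  sf : Sm f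
  sal : Sm al
  f0 : ∀ t, f t 0 = Real.pi
  fr0 : ∀ t, dr f t 0 = 0
  al0 : ∀ t, al t 0 = 0
  eqf : ∀ t ∈ Icc 0 T, ∀ r > 0, r ^ 2 * dt (dt f) t r = r ^ 2 * dr (dr f) t r + r * dr f t r
    - (4 + r * al t r) ^ 2 * Real.sin (f t r) * Real.cos (f t r)
    - r ^ 2 * (1 - Real.cos (f t r)) * Real.sin (f t r)
  eqa : ∀ t ∈ Icc 0 T, ∀ r > 0, r ^ 2 * dt (dt al) t r = r ^ 2 * dr (dr al) t r + r * dr al t r
    - al t r - r * (4 + r * al t r) * Real.sin (f t r) ^ 2
  f_init : ∀ r, R0 ≤ r → f 0 r = 0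
  g_init : ∀ r, R0 ≤ r → dt f 0 r = 0
  al_init : ∀ r, al 0 r = 0
  e_init : ∀ r, dt al 0 r = 0

namespace Rad

variable {T R0 : ℝ} (R : Rad T R0)

def s (t r : ℝ) : ℝ := Real.sin (R.f t r)
def c (t r : ℝ) : ℝ := Real.cos (R.f t r)
def S1 : ℝ → ℝ → ℝ := Q R.s
def mu (t r : ℝ) : ℝ := 4 + r * R.al t r
def g : ℝ → ℝ → ℝ := dt R.f
def e : ℝ → ℝ → ℝ := dt R.al
def w (t r : ℝ) : ℝ := dr R.f t r + R.mu t r * R.S1 t r
def al1 : ℝ → ℝ → ℝ := Q R.al
def y (t r : ℝ) : ℝ := R.al1 t r + dr R.al t r + 1 - R.c t r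
def w1 : ℝ → ℝ → ℝ := Q R.w
def g1 : ℝ → ℝ → ℝ := Q R.g
def e1 : ℝ → ℝ → ℝ := Q R.e

/-- time slice -/
def pre (t : ℝ) : Pre where
  f := R.f t
  a := fun r => r * R.al t r
  g := R.g t
  e := R.e t
  w := R.w t
  y := R.y t
  wt := dt R.w t
  wr := dr R.w t
  gt := dt R.g t
  yt := dt R.y t
  yr := dr R.y t
  w1 := R.w1 t
  g1 := R.g1 t
  s1 := R.S1 t

end Rad

end

end H72GS

end S_Rad
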