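import Mathlib
import Pool.Agent.H72.GM.M1

set_option autoImplicit false

/-! Gauged sigma model, file M2: this file joins several modules to save build time. -/

section S_Kin

/-!
# Kin: smoothness, kinematic identities (all `t, r ∈ ℝ`)

`r S1 = s` (`sin π = 0`), `S1 t 0 = dr s t 0 = cos π · f_r(t,0) = 0`, so `w t 0 = 0`, `r w1 = w`;
`g t 0 = 0` since `f t 0 = π`; `e t 0 = 0`.
Identities are proved after multiplying by `r` (or `r²`) and using `cancel_r`.
* `dt_s`: `s_t = c g`; `dt S1 = Q (c g) = c g1`;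
* `wt_eq`: `w_t = g_r + μ c g1 + e s` (`μ_t = r e`, `r e S1 = e s`);
* `yt_eq`: `y_t = e1 + e_r + g s`.
* `fr_eq`: `r f_r = r w - μ s`;  `ar_eq`: `(r al)_r = r (y - 1 + c)`.
-/

namespace H72GS

open Set MeasureTheory intervalIntegral

namespace Rad

variable {T R0 : ℝ} (R : Rad T R0)

theorem s_sm : Sm R.s := R.sf.sin
theorem c_sm : Sm R.c := R.sf.cos
theorem S1_sm : Sm R.S1 := R.s_sm.Q
theorem mu_sm : Sm R.mu := (Sm.const 4).add (Sm.idr.mul R.sal)
theorem g_sm : Sm R.g := R.sf.dt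
theorem e_sm : Sm R.e := R.sal.dt
theorem w_sm : Sm R.w := R.sf.dr.add (R.mu_sm.mul R.S1_sm)
theorem al1_sm : Sm R.al1 := R.sal.Q
theorem y_sm : Sm R.y := ((R.al1_sm.add R.sal.dr).add (Sm.const 1)).sub R.c_sm
theorem w1_sm : Sm R.w1 := R.w_sm.Q
theorem g1_sm : Sm R.g1 := R.g_sm.Q
theorem e1_sm : Sm R.e1 := R.e_sm.Q

theorem Kin_s_zero (t : ℝ) : R.s t 0 = 0 := by
  unfold s
  rw [R.f0, Real.sin_pi]

theorem g_zero (t : ℝ) : R.g t 0 = 0 := by
  unfold g dt
  have h : (fun s => R.f s 0) = fun _ => Real.pi := funext fun s => R.f0 s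
  rw [h, deriv_const]

theorem e_zero (t : ℝ) : R.e t 0 = 0 := by
  unfold e dt
  have h : (fun s => R.al s 0) = fun _ => (0 : ℝ) := funext fun s => R.al0 s
  rw [h, deriv_const]

theorem dt_s (t r : ℝ) : dt R.s t r = R.c t r * R.g t r :=
  (R.sf.hasDerivAt_t t r).sin.deriv

theorem dt_c (t r : ℝ) : dt R.c t r = -(R.s t r * R.g t r) := by
  have h := (R.sf.hasDerivAt_t t r).cos.deriv
  rw [← neg_mul]
  exact h

theorem dr_s (t r : ℝ) : dr R.s t r = R.c t r * dr R.f t r :=
  (R.sf.hasDerivAt_r t r).sin.deriv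

theorem dr_c (t r : ℝ) : dr R.c t r = -(R.s t r * dr R.f t r) := by
  have h := (R.sf.hasDerivAt_r t r).cos.deriv
  rw [← neg_mul]
  exact h

theorem dt_mu (t r : ℝ) : dt R.mu t r = r * R.e t r :=
  (((R.sal.hasDerivAt_t t r).const_mul r).const_add 4).deriv

theorem r_S1 (t r : ℝ) : r * R.S1 t r = R.s t r := mul_Q R.s_sm (R.Kin_s_zero t) r
theorem r_al1 (t r : ℝ) : r * R.al1 t r = R.al t r := mul_Q R.sal (R.al0 t) r

theorem S1_zero (t : ℝ) : R.S1 t 0 = 0 := by
  unfold S1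
  rw [Q_zero, dr_s, R.fr0, mul_zero]

theorem w_zero (t : ℝ) : R.w t 0 = 0 := by
  unfold w
  rw [R.fr0, R.S1_zero, mul_zero, add_zero]

theorem r_w1 (t r : ℝ) : r * R.w1 t r = R.w t r := mul_Q R.w_sm (R.w_zero t) r
theorem r_g1 (t r : ℝ) : r * R.g1 t r = R.g t r := mul_Q R.g_sm (R.g_zero t) r
theorem r_e1 (t r : ℝ) : r * R.e1 t r = R.e t r := mul_Q R.e_sm (R.e_zero t) r

theorem dr_mu (t r : ℝ) : dr R.mu t r = r * (R.y t r - 1 + R.c t r) := by
  have h : dr R.mu t r = 1 * R.al t r + r * dr R.al t r :=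
    (((hasDerivAt_id r).mul (R.sal.hasDerivAt_r t r)).const_add 4).deriv
  rw [h, ← R.r_al1 t r]
  unfold y
  ring

theorem fr_eq (t r : ℝ) : r * dr R.f t r = r * R.w t r - R.mu t r * R.s t r := by
  rw [← R.r_S1 t r]
  unfold w
  ring

theorem Kin_dt_zero {u : ℝ → ℝ → ℝ} (h : ∀ t, u t 0 = 0) (t : ℝ) : dt u t 0 = 0 := by
  unfold dt
  have h1 : (fun s => u s 0) = fun _ => (0 : ℝ) := funext fun s => h s
  rw [h1, deriv_const]

theorem dt_w1 (t r : ℝ) : r * dt R.w1 t r = dt R.w t r := by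
  unfold w1
  rw [dt_Q R.w_sm]
  exact mul_Q R.w_sm.dt (Kin_dt_zero R.w_zero t) r

theorem Kin_dt_S1 (t r : ℝ) : r * dt R.S1 t r = R.c t r * R.g t r := by
  unfold S1
  rw [dt_Q R.s_sm, mul_Q R.s_sm.dt (Kin_dt_zero R.Kin_s_zero t) r, dt_s]

theorem wt_eq (t r : ℝ) : dt R.w t r =
    dr R.g t r + R.mu t r * R.c t r * R.g1 t r + R.e t r * R.s t r := by
  have hw : ∀ r, dt R.w t r = dt (dr R.f) t r + (dt R.mu t r * R.S1 t r + R.mu t r * dt R.S1 t r) :=
    fun r => ((R.sf.dr.hasDerivAt_t t r).add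
      ((R.mu_sm.hasDerivAt_t t r).mul (R.S1_sm.hasDerivAt_t t r))).deriv
  have hc : dt (dr R.f) = dr R.g := R.sf.comm
  have key : (fun r => dt R.w t r) = fun r =>
      dr R.g t r + R.mu t r * R.c t r * R.g1 t r + R.e t r * R.s t r := by
    apply cancel_r
    · exact R.w_sm.dt.cont_r t
    · exact ((R.g_sm.dr.add ((R.mu_sm.mul R.c_sm).mul R.g1_sm)).add (R.e_sm.mul R.s_sm)).cont_r t
    · intro r
      rw [hw r, hc, dt_mu, mul_add, mul_add]
      have h1 : r * (R.mu t r * dt R.S1 t r) = R.mu t r * (R.c t r * R.g t r) := by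
        rw [← R.Kin_dt_S1 t r]; ring
      have h2 : r * (r * R.e t r * R.S1 t r) = r * (R.e t r * R.s t r) := by
        rw [← R.r_S1 t r]; ring
      have h3 : R.mu t r * (R.c t r * R.g t r) = r * (R.mu t r * R.c t r * R.g1 t r) := by
        rw [← R.r_g1 t r]; ring
      rw [h1, h2, h3]
      ring
  exact congrFun key r

theorem yt_eq (t r : ℝ) : dt R.y t r = R.e1 t r + dr R.e t r + R.g t r * R.s t r := by
  have hy : dt R.y t r = dt R.al1 t r + dt (dr R.al) t r - dt R.c t r :=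
    ((((R.al1_sm.hasDerivAt_t t r).add (R.sal.dr.hasDerivAt_t t r)).add_const 1).sub
      (R.c_sm.hasDerivAt_t t r)).deriv
  have h1 : dt R.al1 = R.e1 := dt_Q R.sal
  have h2 : dt (dr R.al) = dr R.e := R.sal.comm
  rw [hy, h1, h2, dt_c]
  ring

end Rad

end H72GS

end S_Kin

section S_Dyn

/-!
# Dyn: dynamic identities on `[0,T]`

* `gt_eq` is `eqf` rewritten: `w_r + (1 - μ c) w1 - y s`; for `r > 0` insert
  `f_r = w - μ s / r`, `r w_r = ...`, then `eq_of_pos`.
* `et_eq` is `eqa` rewritten: `y_r - s w`.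
* `wtt_eq`: `w_tt = (g_t)_r + (μ c)_t g1 + μ c Q(g_t) + e_t s + e c g` (time derivative of `wt_eq`),
  insert `gt_eq`, `et_eq` (as functions of `r ≥ 0`; differentiate in `r` for `r > 0`), multiply by `r`.
  `A = 1 + μ² - 2 μ c`.  Checked numerically.
* `ytt_eq` similarly from `yt_eq`.
-/

namespace H72GS

open Set MeasureTheory intervalIntegral

namespace Rad

variable {T R0 : ℝ} (R : Rad T R0)

/-- derivative in `r` of the identity `r f_r = r w - μ s` -/
private theorem Dyn_wr (t r : ℝ) : R.w t r + r * dr R.w t r =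
    dr R.f t r + r * dr (dr R.f) t r + r * (R.y t r - 1 + R.c t r) * R.s t r
      + R.mu t r * (R.c t r * dr R.f t r) := by
  have h1 : HasDerivAt (fun x => x * dr R.f t x) (1 * dr R.f t r + r * dr (dr R.f) t r) r :=
    (hasDerivAt_id r).mul (R.sf.dr.hasDerivAt_r t r)
  have h2 : HasDerivAt (fun x => x * R.w t x - R.mu t x * R.s t x)
      ((1 * R.w t r + r * dr R.w t r) - (dr R.mu t r * R.s t r + R.mu t r * dr R.s t r)) r :=
    ((hasDerivAt_id r).mul (R.w_sm.hasDerivAt_r t r)).sub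
      ((R.mu_sm.hasDerivAt_r t r).mul (R.s_sm.hasDerivAt_r t r))
  have h3 : (fun x => x * dr R.f t x) = fun x => x * R.w t x - R.mu t x * R.s t x := by
    funext x; exact R.fr_eq t x
  rw [h3] at h1
  have h4 := h1.unique h2
  rw [R.dr_mu, R.dr_s] at h4
  linarith

/-- derivative in `r` of `r y = al + r al_r + r (1 - c)` -/
private theorem Dyn_yr (t r : ℝ) : R.y t r + r * dr R.y t r =
    2 * dr R.al t r + r * dr (dr R.al) t r + (1 - R.c t r) + r * (R.s t r * dr R.f t r) := by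
  have h1 : HasDerivAt (fun x => x * R.y t x) (1 * R.y t r + r * dr R.y t r) r :=
    (hasDerivAt_id r).mul (R.y_sm.hasDerivAt_r t r)
  have h2 : HasDerivAt (fun x => R.al t x + x * dr R.al t x + x * (1 - R.c t x))
      (dr R.al t r + (1 * dr R.al t r + r * dr (dr R.al) t r)
        + (1 * (1 - R.c t r) + r * (0 - dr R.c t r))) r :=
    ((R.sal.hasDerivAt_r t r).add ((hasDerivAt_id r).mul (R.sal.dr.hasDerivAt_r t r))).add
      ((hasDerivAt_id r).mul ((hasDerivAt_const r 1).sub (R.c_sm.hasDerivAt_r t r)))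
  have h3 : (fun x => x * R.y t x) = fun x => R.al t x + x * dr R.al t x + x * (1 - R.c t x) := by
    funext x
    have := R.r_al1 t x
    show x * (R.al1 t x + dr R.al t x + 1 - R.c t x) = _
    linear_combination this
  rw [h3] at h1
  have h4 := h1.unique h2
  rw [R.dr_c] at h4
  linear_combination h4

private theorem Dyn_gt_pos {t : ℝ} (ht : t ∈ Icc 0 T) {r : ℝ} (hr : 0 < r) : dt R.g t r =
    dr R.w t r + (1 - R.mu t r * R.c t r) * R.w1 t r - R.y t r * R.s t r := by
  have h1 := R.eqf t ht r hr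
  have h2 := R.Dyn_wr t r
  have h3 := R.fr_eq t r
  have h4 := R.r_w1 t r
  have h5 : r ^ 2 * dt R.g t r = r ^ 2 * (dr R.w t r + (1 - R.mu t r * R.c t r) * R.w1 t r
      - R.y t r * R.s t r) := by
    change r ^ 2 * dt R.g t r = r ^ 2 * dr (dr R.f) t r + r * dr R.f t r
      - (R.mu t r) ^ 2 * R.s t r * R.c t r - r ^ 2 * (1 - R.c t r) * R.s t r at h1
    linear_combination h1 - r * h2 - (R.mu t r * R.c t r) * h3 - r * (1 - R.mu t r * R.c t r) * h4
  exact mul_left_cancel₀ (pow_ne_zero 2 hr.ne') h5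

theorem gt_eq {t : ℝ} (ht : t ∈ Icc 0 T) {r : ℝ} (hr : 0 ≤ r) : dt R.g t r =
    dr R.w t r + (1 - R.mu t r * R.c t r) * R.w1 t r - R.y t r * R.s t r := by
  refine eq_of_pos (f := fun r => dt R.g t r) (g := fun r => dr R.w t r
    + (1 - R.mu t r * R.c t r) * R.w1 t r - R.y t r * R.s t r) (R.g_sm.dt.cont_r t) ?_
    (fun x hx => R.Dyn_gt_pos ht hx) r hr
  exact ((R.w_sm.dr.cont_r t).add ((continuous_const.sub ((R.mu_sm.cont_r t).mul
    (R.c_sm.cont_r t))).mul (R.w1_sm.cont_r t))).sub ((R.y_sm.cont_r t).mul (R.s_sm.cont_r t))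

private theorem Dyn_et_pos {t : ℝ} (ht : t ∈ Icc 0 T) {r : ℝ} (hr : 0 < r) :
    dt R.e t r = dr R.y t r - R.s t r * R.w t r := by
  have h1 := R.eqa t ht r hr
  have h2 := R.Dyn_yr t r
  have h3 := R.fr_eq t r
  have h4 := R.r_al1 t r
  have h5 : r ^ 2 * dt R.e t r = r ^ 2 * (dr R.y t r - R.s t r * R.w t r) := by
    change r ^ 2 * dt R.e t r = r ^ 2 * dr (dr R.al) t r + r * dr R.al t r
      - R.al t r - r * (R.mu t r) * R.s t r ^ 2 at h1
    have h6 : r * R.y t r = R.al t r + r * dr R.al t r + r * (1 - R.c t r) := by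
      show r * (R.al1 t r + dr R.al t r + 1 - R.c t r) = _
      linear_combination h4
    linear_combination h1 - r * h2 + h6 - r * R.s t r * h3
  exact mul_left_cancel₀ (pow_ne_zero 2 hr.ne') h5

theorem et_eq {t : ℝ} (ht : t ∈ Icc 0 T) {r : ℝ} (hr : 0 ≤ r) :
    dt R.e t r = dr R.y t r - R.s t r * R.w t r := by
  refine eq_of_pos (f := fun r => dt R.e t r) (g := fun r => dr R.y t r - R.s t r * R.w t r)
    (R.e_sm.dt.cont_r t) ?_ (fun x hx => R.Dyn_et_pos ht hx) r hr
  exact (R.y_sm.dr.cont_r t).sub ((R.s_sm.cont_r t).mul (R.w_sm.cont_r t))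

/-- derivative in `r` of `gt_eq` -/
private theorem Dyn_gtr {t : ℝ} (ht : t ∈ Icc 0 T) {r : ℝ} (hr : 0 < r) :
    dr (dt R.g) t r = dr (dr R.w) t r
      + ((0 - (dr R.mu t r * R.c t r + R.mu t r * dr R.c t r)) * R.w1 t r
        + (1 - R.mu t r * R.c t r) * dr R.w1 t r)
      - (dr R.y t r * R.s t r + R.y t r * dr R.s t r) := by
  have h1 := R.g_sm.dt.hasDerivAt_r t r
  have h2 : HasDerivAt (fun r => dr R.w t r + (1 - R.mu t r * R.c t r) * R.w1 t r
      - R.y t r * R.s t r) (dr (dr R.w) t r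
      + ((0 - (dr R.mu t r * R.c t r + R.mu t r * dr R.c t r)) * R.w1 t r
        + (1 - R.mu t r * R.c t r) * dr R.w1 t r)
      - (dr R.y t r * R.s t r + R.y t r * dr R.s t r)) r :=
    ((R.w_sm.dr.hasDerivAt_r t r).add (((hasDerivAt_const r 1).sub
      ((R.mu_sm.hasDerivAt_r t r).mul (R.c_sm.hasDerivAt_r t r))).mul
        (R.w1_sm.hasDerivAt_r t r))).sub ((R.y_sm.hasDerivAt_r t r).mul (R.s_sm.hasDerivAt_r t r))
  refine h1.unique (h2.congr_of_eventuallyEq ?_)
  filter_upwards [lt_mem_nhds hr] with x hx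
  exact R.gt_eq ht hx.le

/-- derivative in `r` of `et_eq` -/
private theorem Dyn_etr {t : ℝ} (ht : t ∈ Icc 0 T) {r : ℝ} (hr : 0 < r) :
    dr (dt R.e) t r = dr (dr R.y) t r
      - (dr R.s t r * R.w t r + R.s t r * dr R.w t r) := by
  have h1 := R.e_sm.dt.hasDerivAt_r t r
  have h2 : HasDerivAt (fun r => dr R.y t r - R.s t r * R.w t r) (dr (dr R.y) t r
      - (dr R.s t r * R.w t r + R.s t r * dr R.w t r)) r :=
    (R.y_sm.dr.hasDerivAt_r t r).sub ((R.s_sm.hasDerivAt_r t r).mul (R.w_sm.hasDerivAt_r t r))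
  refine h1.unique (h2.congr_of_eventuallyEq ?_)
  filter_upwards [lt_mem_nhds hr] with x hx
  exact R.et_eq ht hx.le

private theorem Dyn_dt_g1 (t r : ℝ) : r * dt R.g1 t r = dt R.g t r := by
  have h1 : HasDerivAt (fun x => r * R.g1 x r) (r * dt R.g1 t r) t :=
    (R.g1_sm.hasDerivAt_t t r).const_mul r
  have h2 := R.g_sm.hasDerivAt_t t r
  have h3 : (fun x => r * R.g1 x r) = fun x => R.g x r := by
    funext x; exact R.r_g1 x r
  rw [h3] at h1
  exact h1.unique h2

private theorem Dyn_dt_e1 (t r : ℝ) : r * dt R.e1 t r = dt R.e t r := by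
  have h1 : HasDerivAt (fun x => r * R.e1 x r) (r * dt R.e1 t r) t :=
    (R.e1_sm.hasDerivAt_t t r).const_mul r
  have h2 := R.e_sm.hasDerivAt_t t r
  have h3 : (fun x => r * R.e1 x r) = fun x => R.e x r := by
    funext x; exact R.r_e1 x r
  rw [h3] at h1
  exact h1.unique h2

private theorem Dyn_dr_w1 (t r : ℝ) : R.w1 t r + r * dr R.w1 t r = dr R.w t r := by
  have h1 : HasDerivAt (fun x => x * R.w1 t x) (1 * R.w1 t r + r * dr R.w1 t r) r :=
    (hasDerivAt_id r).mul (R.w1_sm.hasDerivAt_r t r)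
  have h2 := R.w_sm.hasDerivAt_r t r
  have h3 : (fun x => x * R.w1 t x) = fun x => R.w t x := by
    funext x; exact R.r_w1 t x
  rw [h3] at h1
  have := h1.unique h2
  linarith

theorem wtt_eq {t : ℝ} (ht : t ∈ Icc 0 T) {r : ℝ} (hr : 0 < r) :
    r * dt (dt R.w) t r = dr R.w t r + r * dr (dr R.w) t r
      - ((1 + R.mu t r ^ 2 - 2 * R.mu t r * R.c t r) + r ^ 2 * (1 - R.c t r)) * R.w1 t r
      + R.mu t r * R.s t r * (R.w t r ^ 2 - R.g t r ^ 2)
      + 2 * r * R.c t r * (R.e t r * R.g t r - R.w t r * R.y t r) := by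
  have h1 := R.w_sm.dt.hasDerivAt_t t r
  have h2 : HasDerivAt (fun x => dr R.g x r + R.mu x r * R.c x r * R.g1 x r + R.e x r * R.s x r)
      (dt (dr R.g) t r + ((dt R.mu t r * R.c t r + R.mu t r * dt R.c t r) * R.g1 t r
        + R.mu t r * R.c t r * dt R.g1 t r) + (dt R.e t r * R.s t r + R.e t r * dt R.s t r)) t :=
    ((R.g_sm.dr.hasDerivAt_t t r).add ((((R.mu_sm.hasDerivAt_t t r).mul
      (R.c_sm.hasDerivAt_t t r))).mul (R.g1_sm.hasDerivAt_t t r))).add
      ((R.e_sm.hasDerivAt_t t r).mul (R.s_sm.hasDerivAt_t t r))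
  have h3 : (fun x => dt R.w x r) =
      fun x => dr R.g x r + R.mu x r * R.c x r * R.g1 x r + R.e x r * R.s x r := by
    funext x; exact R.wt_eq x r
  rw [h3] at h1
  have h4 := h1.unique h2
  rw [R.g_sm.comm, R.dt_mu, R.dt_c, R.dt_s, R.Dyn_gtr ht hr, R.dr_mu, R.dr_c, R.dr_s] at h4
  have h5 := R.Dyn_dt_g1 t r
  have h6 := R.gt_eq ht hr.le
  have h7 := R.et_eq ht hr.le
  have h8 := R.Dyn_dr_w1 t r
  have h9 := R.fr_eq t r
  have h10 := R.r_w1 t r
  have h11 := R.r_g1 t r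
  have h12 : R.s t r ^ 2 + R.c t r ^ 2 = 1 := Real.sin_sq_add_cos_sq _
  generalize dt (dt R.w) t r = wtt at *
  generalize dr R.w t r = wr at *
  generalize dr (dr R.w) t r = wrr at *
  generalize R.mu t r = mu at *
  generalize R.c t r = c at *
  generalize R.s t r = s at *
  generalize R.w1 t r = w1 at *
  generalize R.w t r = w at *
  generalize R.g1 t r = g1 at *
  generalize R.g t r = g at *
  generalize R.e t r = e at *
  generalize R.y t r = y at *
  generalize dr R.y t r = yr at *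
  generalize dr R.f t r = fr at *
  generalize dt R.g1 t r = g1t at *
  generalize dt R.g t r = gt at *
  generalize dt R.e t r = et at *
  generalize dr R.w1 t r = w1r at *
  subst h6 h7
  linear_combination r * h4 + mu * c * h5 + (1 - mu * c) * h8 + (r * e * c - mu * s * g) * h11
    + (-r * (y - 1 + c) * c + mu * s * w + r * (1 - c)) * h10 + (mu * s * w1 - y * c) * h9
    - (r * w + mu ^ 2 * w1) * h12

theorem ytt_eq {t : ℝ} (ht : t ∈ Icc 0 T) {r : ℝ} (hr : 0 < r) :
    r * dt (dt R.y) t r = dr R.y t r + r * dr (dr R.y) t r - r * R.s t r ^ 2 * R.y t r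
      + r * R.c t r * (R.g t r ^ 2 - R.w t r ^ 2) := by
  have h1 := R.y_sm.dt.hasDerivAt_t t r
  have h2 : HasDerivAt (fun x => R.e1 x r + dr R.e x r + R.g x r * R.s x r)
      (dt R.e1 t r + dt (dr R.e) t r + (dt R.g t r * R.s t r + R.g t r * dt R.s t r)) t :=
    ((R.e1_sm.hasDerivAt_t t r).add (R.e_sm.dr.hasDerivAt_t t r)).add
      ((R.g_sm.hasDerivAt_t t r).mul (R.s_sm.hasDerivAt_t t r))
  have h3 : (fun x => dt R.y x r) = fun x => R.e1 x r + dr R.e x r + R.g x r * R.s x r := by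
    funext x; exact R.yt_eq x r
  rw [h3] at h1
  have h4 := h1.unique h2
  rw [R.e_sm.comm, R.dt_s, R.Dyn_etr ht hr, R.dr_s] at h4
  have h5 := R.Dyn_dt_e1 t r
  have h6 := R.gt_eq ht hr.le
  have h7 := R.et_eq ht hr.le
  have h9 := R.fr_eq t r
  have h10 := R.r_w1 t r
  linear_combination r * h4 + h5 + r * R.s t r * h6 + h7 - R.c t r * R.w t r * h9
    + R.s t r * (1 - R.mu t r * R.c t r) * h10

end Rad

end H72GS

end S_Dyn

section S_Supp

/-!
# Supp: finite speed of propagation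

For `R2` large let `ψ(t,r) = pp (r - R0 - t) * pp (R2 - t - r)` (`pp u = (max 0 u)²`, `C¹`), so
`ψ_t = -A' B - A B'`, `ψ_r = A' B - A B'`, `|ψ_r| ≤ -ψ_t`.  Then
`d/dt ∫_0^{R2} ψ r (g²+e²+w²+y²)/2 = ∫ ψ_t r (..)/2 - ∫ ψ_r r (g w + e y) ≤ 0`
because `r (g g_t + e e_t + w w_t + y y_t) = (r (g w + e y))_r` (from `gt_eq, et_eq, wt_eq, yt_eq`).
At `t = 0` the integral vanishes (for `r ≥ R0`: `f = g = al = e = 0`, hence `s = 0`, `w = f_r = 0`
for `r > R0`, `y = 0`).  Hence `g = e = w = y = 0` for `t ∈ [0,T]`, `R0 + t < r`; so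
`f(t,r) = f(0,r) = 0`, `al(t,r) = 0` there; closure gives `r ≥ R0 + t`.
`supp_deriv`: time derivatives and `r`-derivatives vanish too on `r ≥ R0 + T`, `t ∈ [0,T]`
(for `r > R0 + T` directly, at `r = R0 + T` by continuity; at `t = 0, T` by continuity in `t`).
-/

namespace H72GS

open Set MeasureTheory intervalIntegral

theorem Supp_pp_cont : Continuous pp := by
  unfold pp
  fun_prop

theorem Supp_pp_nonneg (u : ℝ) : 0 ≤ pp u := by
  unfold pp
  positivity

theorem Supp_pp_pos {u : ℝ} (hu : 0 < u) : 0 < pp u := by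
  unfold pp
  rw [max_eq_right hu.le]
  positivity

theorem Supp_pp_zero {u : ℝ} (hu : u ≤ 0) : pp u = 0 := by
  unfold pp
  rw [max_eq_left hu]
  norm_num

theorem Supp_pp_deriv (u : ℝ) : HasDerivAt pp (2 * max 0 u) u := by
  refine hasDerivAt_of_hasDerivAt_of_ne' (f := pp) (g := fun u => 2 * max 0 u) (x := 0) ?_
    Supp_pp_cont.continuousAt (by fun_prop) u
  intro y hy
  rcases lt_or_gt_of_ne hy with h | h
  · have h1 : HasDerivAt (fun _ : ℝ => (0 : ℝ)) 0 y := hasDerivAt_const y 0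
    have h2 : (fun _ : ℝ => (0 : ℝ)) =ᶠ[nhds y] pp := by
      filter_upwards [Iio_mem_nhds h] with z hz
      exact (Supp_pp_zero (le_of_lt hz)).symm
    have h3 : (2 * max 0 y : ℝ) = 0 := by rw [max_eq_left h.le]; ring
    show HasDerivAt pp (2 * max 0 y) y
    rw [h3]
    exact h2.hasDerivAt_iff.mp h1
  · have h1 : HasDerivAt (fun z : ℝ => z ^ 2) (2 * y) y := by
      simpa using hasDerivAt_pow 2 y
    have h2 : (fun z : ℝ => z ^ 2) =ᶠ[nhds y] pp := by
      filter_upwards [Ioi_mem_nhds h] with z hz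
      show z ^ 2 = pp z
      unfold pp
      rw [max_eq_right (le_of_lt hz)]
    have h3 : (2 * max 0 y : ℝ) = 2 * y := by rw [max_eq_right h.le]
    show HasDerivAt pp (2 * max 0 y) y
    rw [h3]
    exact h2.hasDerivAt_iff.mp h1

/-- the weight -/
noncomputable def Supp_psi (R0 K t r : ℝ) : ℝ := pp (r - R0 - t) * pp (K - t - r)

/-- time derivative of the weight -/
noncomputable def Supp_psit (R0 K t r : ℝ) : ℝ :=
  -(2 * max 0 (r - R0 - t)) * pp (K - t - r) - pp (r - R0 - t) * (2 * max 0 (K - t - r))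

/-- radial derivative of the weight -/
noncomputable def Supp_psir (R0 K t r : ℝ) : ℝ :=
  (2 * max 0 (r - R0 - t)) * pp (K - t - r) - pp (r - R0 - t) * (2 * max 0 (K - t - r))

theorem Supp_psi_cont (R0 K : ℝ) : Continuous (fun p : ℝ × ℝ => Supp_psi R0 K p.1 p.2) := by
  unfold Supp_psi pp
  fun_prop

theorem Supp_psit_cont (R0 K : ℝ) : Continuous (fun p : ℝ × ℝ => Supp_psit R0 K p.1 p.2) := by
  unfold Supp_psit pp
  fun_prop

theorem Supp_psir_cont (R0 K : ℝ) : Continuous (fun p : ℝ × ℝ => Supp_psir R0 K p.1 p.2) := by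
  unfold Supp_psir pp
  fun_prop

theorem Supp_psi_dt (R0 K t r : ℝ) :
    HasDerivAt (fun s => Supp_psi R0 K s r) (Supp_psit R0 K t r) t := by
  have h1 : HasDerivAt (fun s : ℝ => r - R0 - s) (-1) t := by
    simpa using (hasDerivAt_id t).const_sub (r - R0)
  have h2 : HasDerivAt (fun s : ℝ => K - s - r) (-1) t := by
    simpa using ((hasDerivAt_id t).const_sub K).sub_const r
  have h3 := (Supp_pp_deriv (r - R0 - t)).comp t h1
  have h4 := (Supp_pp_deriv (K - t - r)).comp t h2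
  have h5 := h3.mul h4
  unfold Supp_psi Supp_psit
  refine h5.congr_deriv ?_
  simp only [Function.comp]
  ring

theorem Supp_psi_dr (R0 K t r : ℝ) :
    HasDerivAt (fun x => Supp_psi R0 K t x) (Supp_psir R0 K t r) r := by
  have h1 : HasDerivAt (fun x : ℝ => x - R0 - t) 1 r := by
    simpa using ((hasDerivAt_id r).sub_const R0).sub_const t
  have h2 : HasDerivAt (fun x : ℝ => K - t - x) (-1) r := by
    simpa using (hasDerivAt_id r).const_sub (K - t)
  have h3 := (Supp_pp_deriv (r - R0 - t)).comp r h1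
  have h4 := (Supp_pp_deriv (K - t - r)).comp r h2
  have h5 := h3.mul h4
  unfold Supp_psi Supp_psir
  refine h5.congr_deriv ?_
  simp only [Function.comp]
  ring

theorem Supp_psi_nonneg (R0 K t r : ℝ) : 0 ≤ Supp_psi R0 K t r :=
  mul_nonneg (Supp_pp_nonneg _) (Supp_pp_nonneg _)

theorem Supp_psi_abs (R0 K t r : ℝ) : |Supp_psir R0 K t r| ≤ -Supp_psit R0 K t r := by
  unfold Supp_psir Supp_psit
  have h1 : 0 ≤ (2 * max 0 (r - R0 - t)) * pp (K - t - r) :=
    mul_nonneg (by positivity) (Supp_pp_nonneg _)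
  have h2 : 0 ≤ pp (r - R0 - t) * (2 * max 0 (K - t - r)) :=
    mul_nonneg (Supp_pp_nonneg _) (by positivity)
  rw [abs_le]
  constructor <;> linarith

namespace Rad

variable {T R0 : ℝ} (R : Rad T R0)

/-- energy density -/
noncomputable def Supp_q (t r : ℝ) : ℝ :=
  (R.g t r ^ 2 + R.e t r ^ 2 + R.w t r ^ 2 + R.y t r ^ 2) / 2

/-- flux -/
noncomputable def Supp_j (t r : ℝ) : ℝ := R.g t r * R.w t r + R.e t r * R.y t r

/-- time derivative of the density -/
noncomputable def Supp_qt (t r : ℝ) : ℝ :=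
  R.g t r * dt R.g t r + R.e t r * dt R.e t r + R.w t r * dt R.w t r + R.y t r * dt R.y t r

/-- radial derivative of the flux -/
noncomputable def Supp_jr (t r : ℝ) : ℝ :=
  dr R.g t r * R.w t r + R.g t r * dr R.w t r + (dr R.e t r * R.y t r + R.e t r * dr R.y t r)

theorem Supp_q_cont : Continuous (fun p : ℝ × ℝ => R.Supp_q p.1 p.2) := by
  have h1 := R.g_sm.cont
  have h2 := R.e_sm.cont
  have h3 := R.w_sm.cont
  have h4 := R.y_sm.cont
  unfold Supp_q
  fun_prop

theorem Supp_j_cont : Continuous (fun p : ℝ × ℝ => R.Supp_j p.1 p.2) := by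
  have h1 := R.g_sm.cont
  have h2 := R.e_sm.cont
  have h3 := R.w_sm.cont
  have h4 := R.y_sm.cont
  unfold Supp_j
  fun_prop

theorem Supp_qt_cont : Continuous (fun p : ℝ × ℝ => R.Supp_qt p.1 p.2) := by
  have h1 := R.g_sm.cont
  have h2 := R.e_sm.cont
  have h3 := R.w_sm.cont
  have h4 := R.y_sm.cont
  have h5 := R.g_sm.dt.cont
  have h6 := R.e_sm.dt.cont
  have h7 := R.w_sm.dt.cont
  have h8 := R.y_sm.dt.cont
  unfold Supp_qt
  fun_prop

theorem Supp_jr_cont : Continuous (fun p : ℝ × ℝ => R.Supp_jr p.1 p.2) := by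
  have h1 := R.g_sm.cont
  have h2 := R.e_sm.cont
  have h3 := R.w_sm.cont
  have h4 := R.y_sm.cont
  have h5 := R.g_sm.dr.cont
  have h6 := R.e_sm.dr.cont
  have h7 := R.w_sm.dr.cont
  have h8 := R.y_sm.dr.cont
  unfold Supp_jr
  fun_prop

theorem Supp_q_nonneg (t r : ℝ) : 0 ≤ R.Supp_q t r := by
  unfold Supp_q
  positivity

theorem Supp_j_le (t r : ℝ) : |R.Supp_j t r| ≤ R.Supp_q t r := by
  unfold Supp_q Supp_j
  rw [abs_le]
  constructor
  · nlinarith [sq_nonneg (R.g t r + R.w t r), sq_nonneg (R.e t r + R.y t r)]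
  · nlinarith [sq_nonneg (R.g t r - R.w t r), sq_nonneg (R.e t r - R.y t r)]

theorem Supp_q_dt (t r : ℝ) : HasDerivAt (fun s => R.Supp_q s r) (R.Supp_qt t r) t := by
  have h1 := R.g_sm.hasDerivAt_t t r
  have h2 := R.e_sm.hasDerivAt_t t r
  have h3 := R.w_sm.hasDerivAt_t t r
  have h4 := R.y_sm.hasDerivAt_t t r
  have h5 := ((((h1.pow 2).add (h2.pow 2)).add (h3.pow 2)).add (h4.pow 2)).div_const 2
  unfold Supp_q Supp_qt
  refine h5.congr_deriv ?_
  push_cast
  ring

theorem Supp_j_dr (t r : ℝ) : HasDerivAt (fun x => R.Supp_j t x) (R.Supp_jr t r) r := by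
  have h1 := R.g_sm.hasDerivAt_r t r
  have h2 := R.e_sm.hasDerivAt_r t r
  have h3 := R.w_sm.hasDerivAt_r t r
  have h4 := R.y_sm.hasDerivAt_r t r
  have h5 := (h1.mul h3).add (h2.mul h4)
  unfold Supp_j Supp_jr
  exact h5

/-- conservation law -/
theorem Supp_cons {t : ℝ} (ht : t ∈ Icc 0 T) {r : ℝ} (hr : 0 ≤ r) :
    r * R.Supp_qt t r = R.Supp_j t r + r * R.Supp_jr t r := by
  unfold Supp_qt Supp_j Supp_jr
  rw [R.gt_eq ht hr, R.et_eq ht hr, R.wt_eq t r, R.yt_eq t r]
  have h1 := R.r_w1 t r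
  have h2 := R.r_g1 t r
  have h3 := R.r_e1 t r
  linear_combination (R.g t r * (1 - R.mu t r * R.c t r)) * h1
    + (R.w t r * (R.mu t r * R.c t r)) * h2 + R.y t r * h3

/-- weighted energy -/
noncomputable def Supp_E (K t : ℝ) : ℝ := ∫ r in (0 : ℝ)..K, Supp_psi R0 K t r * (r * R.Supp_q t r)

theorem Supp_E_deriv (K t : ℝ) : HasDerivAt (R.Supp_E K)
    (∫ r in (0 : ℝ)..K, (Supp_psit R0 K t r * (r * R.Supp_q t r)
      + Supp_psi R0 K t r * (r * R.Supp_qt t r))) t := by
  have hp := Supp_psi_cont R0 K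
  have hpt := Supp_psit_cont R0 K
  have hq := R.Supp_q_cont
  have hqt := R.Supp_qt_cont
  refine hasDerivAt_int (F := fun t r => Supp_psi R0 K t r * (r * R.Supp_q t r))
    (F' := fun t r => Supp_psit R0 K t r * (r * R.Supp_q t r)
      + Supp_psi R0 K t r * (r * R.Supp_qt t r)) ?_ ?_ ?_ 0 K t
  · intro s
    have h1 : Continuous (fun r : ℝ => Supp_psi R0 K s r) :=
      hp.comp (Continuous.prodMk continuous_const continuous_id)
    have h2 : Continuous (fun r : ℝ => R.Supp_q s r) :=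
      hq.comp (Continuous.prodMk continuous_const continuous_id)
    exact h1.mul (continuous_id.mul h2)
  · exact (hpt.mul (continuous_snd.mul hq)).add (hp.mul (continuous_snd.mul hqt))
  · intro s r
    have h1 := Supp_psi_dt R0 K s r
    have h2 := (R.Supp_q_dt s r).const_mul r
    exact h1.mul h2

theorem Supp_E_deriv_nonpos {K t : ℝ} (hK : 0 ≤ K) (ht : t ∈ Icc 0 T) :
    (∫ r in (0 : ℝ)..K, (Supp_psit R0 K t r * (r * R.Supp_q t r)
      + Supp_psi R0 K t r * (r * R.Supp_qt t r))) ≤ 0 := by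
  have hp : Continuous (fun r : ℝ => Supp_psi R0 K t r) :=
    (Supp_psi_cont R0 K).comp (Continuous.prodMk continuous_const continuous_id)
  have hpt : Continuous (fun r : ℝ => Supp_psit R0 K t r) :=
    (Supp_psit_cont R0 K).comp (Continuous.prodMk continuous_const continuous_id)
  have hpr : Continuous (fun r : ℝ => Supp_psir R0 K t r) :=
    (Supp_psir_cont R0 K).comp (Continuous.prodMk continuous_const continuous_id)
  have hq : Continuous (fun r : ℝ => R.Supp_q t r) :=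
    R.Supp_q_cont.comp (Continuous.prodMk continuous_const continuous_id)
  have hqt : Continuous (fun r : ℝ => R.Supp_qt t r) :=
    R.Supp_qt_cont.comp (Continuous.prodMk continuous_const continuous_id)
  have hj : Continuous (fun r : ℝ => R.Supp_j t r) :=
    R.Supp_j_cont.comp (Continuous.prodMk continuous_const continuous_id)
  have hjr : Continuous (fun r : ℝ => R.Supp_jr t r) :=
    R.Supp_jr_cont.comp (Continuous.prodMk continuous_const continuous_id)
  -- the total derivative integrates to zero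
  have hF : ∀ r : ℝ, HasDerivAt (fun x => Supp_psi R0 K t x * (x * R.Supp_j t x))
      (Supp_psir R0 K t r * (r * R.Supp_j t r)
        + Supp_psi R0 K t r * (R.Supp_j t r + r * R.Supp_jr t r)) r := by
    intro r
    have h1 := Supp_psi_dr R0 K t r
    have h2 := (hasDerivAt_id r).mul (R.Supp_j_dr t r)
    have h3 := h1.mul h2
    refine h3.congr_deriv ?_
    simp only [id, Pi.mul_apply]
    ring
  have hint : (∫ r in (0 : ℝ)..K, (Supp_psir R0 K t r * (r * R.Supp_j t r)
        + Supp_psi R0 K t r * (R.Supp_j t r + r * R.Supp_jr t r))) = 0 := by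
    rw [intervalIntegral.integral_eq_sub_of_hasDerivAt (fun r _ => hF r)]
    · have h1 : Supp_psi R0 K t K = 0 := by
        unfold Supp_psi
        rw [Supp_pp_zero (u := K - t - K) (by linarith [ht.1])]
        ring
      rw [h1]
      ring
    · apply Continuous.intervalIntegrable
      exact (hpr.mul (continuous_id.mul hj)).add (hp.mul (hj.add (continuous_id.mul hjr)))
  refine le_trans (intervalIntegral.integral_mono_on hK ?_ ?_ ?_) hint.le
  · apply Continuous.intervalIntegrable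
    exact (hpt.mul (continuous_id.mul hq)).add (hp.mul (continuous_id.mul hqt))
  · apply Continuous.intervalIntegrable
    exact (hpr.mul (continuous_id.mul hj)).add (hp.mul (hj.add (continuous_id.mul hjr)))
  · intro r hr
    rw [R.Supp_cons ht hr.1]
    have h1 := Supp_psi_abs R0 K t r
    have h2 := R.Supp_j_le t r
    have h3 := R.Supp_q_nonneg t r
    have h4 : |Supp_psir R0 K t r * R.Supp_j t r| ≤ -Supp_psit R0 K t r * R.Supp_q t r := by
      rw [abs_mul]
      exact mul_le_mul h1 h2 (abs_nonneg _) ((abs_nonneg _).trans h1)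
    have h5 := (abs_le.mp h4).1
    have h6 : 0 ≤ r * (Supp_psir R0 K t r * R.Supp_j t r - Supp_psit R0 K t r * R.Supp_q t r) :=
      mul_nonneg hr.1 (by linarith)
    nlinarith [h6]

theorem Supp_init {r : ℝ} (hr : R0 < r) : R.Supp_q 0 r = 0 := by
  have hr0 : 0 < r := R.hR0.trans hr
  have hf : R.f 0 r = 0 := R.f_init r hr.le
  have hg : R.g 0 r = 0 := R.g_init r hr.le
  have he : R.e 0 r = 0 := R.e_init r
  have hs : R.s 0 r = 0 := by unfold Rad.s; rw [hf, Real.sin_zero]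
  have hc : R.c 0 r = 1 := by unfold Rad.c; rw [hf, Real.cos_zero]
  have hfr : dr R.f 0 r = 0 := by
    unfold dr
    have : (fun x => R.f 0 x) =ᶠ[nhds r] (fun _ => (0 : ℝ)) := by
      filter_upwards [Ioi_mem_nhds hr] with x hx
      exact R.f_init x (le_of_lt hx)
    rw [this.deriv_eq]
    simp
  have halr : dr R.al 0 r = 0 := by
    unfold dr
    have : (fun x => R.al 0 x) = (fun _ => (0 : ℝ)) := by
      ext x
      exact R.al_init x
    rw [this]
    simp
  have hS1 : R.S1 0 r = 0 := by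
    have h := R.r_S1 0 r
    rw [hs] at h
    exact (mul_eq_zero.mp h).resolve_left hr0.ne'
  have hal1 : R.al1 0 r = 0 := by
    have h := R.r_al1 0 r
    rw [R.al_init] at h
    exact (mul_eq_zero.mp h).resolve_left hr0.ne'
  have hw : R.w 0 r = 0 := by
    unfold Rad.w
    rw [hfr, hS1]
    ring
  have hy : R.y 0 r = 0 := by
    unfold Rad.y
    rw [hal1, halr, hc]
    ring
  unfold Supp_q
  rw [hg, he, hw, hy]
  norm_num

theorem Supp_E_zero (K : ℝ) : R.Supp_E K 0 = 0 := by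
  unfold Supp_E
  have : (fun r : ℝ => Supp_psi R0 K 0 r * (r * R.Supp_q 0 r)) = fun _ => 0 := by
    ext r
    rcases le_or_gt r R0 with h | h
    · have h1 : Supp_psi R0 K 0 r = 0 := by
        unfold Supp_psi
        rw [Supp_pp_zero (u := r - R0 - 0) (by linarith)]
        ring
      rw [h1]
      ring
    · rw [R.Supp_init h]
      ring
  rw [this]
  simp

theorem Supp_E_nonneg {K : ℝ} (hK : 0 ≤ K) (t : ℝ) : 0 ≤ R.Supp_E K t := by
  unfold Supp_E
  apply intervalIntegral.integral_nonneg hK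
  intro r hr
  exact mul_nonneg (Supp_psi_nonneg _ _ _ _) (mul_nonneg hr.1 (R.Supp_q_nonneg t r))

theorem Supp_E_le {K : ℝ} (hK : 0 ≤ K) {t : ℝ} (ht : t ∈ Icc 0 T) : R.Supp_E K t = 0 := by
  have hanti : AntitoneOn (R.Supp_E K) (Icc 0 T) := by
    apply antitoneOn_of_deriv_nonpos (convex_Icc 0 T)
    · intro s _
      exact (R.Supp_E_deriv K s).continuousAt.continuousWithinAt
    · intro s _
      exact (R.Supp_E_deriv K s).differentiableAt.differentiableWithinAt
    · intro s hs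
      rw [interior_Icc] at hs
      rw [(R.Supp_E_deriv K s).deriv]
      exact R.Supp_E_deriv_nonpos hK ⟨hs.1.le, hs.2.le⟩
  have h1 := hanti (show (0 : ℝ) ∈ Icc 0 T from ⟨le_refl _, R.hT.le⟩) ht ht.1
  rw [R.Supp_E_zero] at h1
  exact le_antisymm h1 (R.Supp_E_nonneg hK t)

theorem Supp_q_zero {t : ℝ} (ht : t ∈ Icc 0 T) {r : ℝ} (hr : R0 + t < r) :
    R.Supp_q t r = 0 := by
  have hr0 : 0 < r := by
    have := R.hR0
    have := ht.1
    linarith
  have hq : Continuous (fun r : ℝ => R.Supp_q t r) :=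
    R.Supp_q_cont.comp (Continuous.prodMk continuous_const continuous_id)
  set K : ℝ := r + t + 1 with hKdef
  have hK : 0 ≤ K := by
    have := ht.1
    linarith
  have hp : Continuous (fun r : ℝ => Supp_psi R0 K t r) :=
    (Supp_psi_cont R0 K).comp (Continuous.prodMk continuous_const continuous_id)
  have hE := R.Supp_E_le hK ht
  unfold Supp_E at hE
  by_contra hne
  have hqpos : 0 < R.Supp_q t r := lt_of_le_of_ne (R.Supp_q_nonneg t r) (Ne.symm hne)
  have hpos : 0 < ∫ r in (0 : ℝ)..K, Supp_psi R0 K t r * (r * R.Supp_q t r) := by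
    apply intervalIntegral.integral_pos (by linarith [ht.1])
    · exact (hp.mul (continuous_id.mul hq)).continuousOn
    · intro x hx
      exact mul_nonneg (Supp_psi_nonneg _ _ _ _) (mul_nonneg hx.1.le (R.Supp_q_nonneg t x))
    · refine ⟨r, ⟨hr0.le, by linarith [ht.1]⟩, ?_⟩
      have h1 : 0 < Supp_psi R0 K t r := by
        unfold Supp_psi
        exact mul_pos (Supp_pp_pos (by linarith)) (Supp_pp_pos (by linarith))
      exact mul_pos h1 (mul_pos hr0 hqpos)
  linarith

theorem Supp_four {t : ℝ} (ht : t ∈ Icc 0 T) {r : ℝ} (hr : R0 + t < r) :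
    R.g t r = 0 ∧ R.e t r = 0 ∧ R.w t r = 0 ∧ R.y t r = 0 := by
  have h := R.Supp_q_zero ht hr
  unfold Supp_q at h
  refine ⟨?_, ?_, ?_, ?_⟩ <;>
  · apply pow_eq_zero_iff (n := 2) (by norm_num) |>.mp
    nlinarith [sq_nonneg (R.g t r), sq_nonneg (R.e t r), sq_nonneg (R.w t r),
      sq_nonneg (R.y t r)]

/-- a function with vanishing derivative on `[0,t]` -/
theorem Supp_const {u u' : ℝ → ℝ} (hu : ∀ x, HasDerivAt u (u' x) x) {t : ℝ} (ht : 0 ≤ t)
    (h : ∀ x ∈ Icc 0 t, u' x = 0) : u t = u 0 := by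
  have := constant_of_has_deriv_right_zero (f := u) (a := 0) (b := t)
    (fun x _ => (hu x).continuousAt.continuousWithinAt)
    (fun x hx => by
      have h1 := (hu x).hasDerivWithinAt (s := Ici x)
      rw [h x ⟨hx.1, hx.2.le⟩] at h1
      exact h1)
  exact this t ⟨ht, le_refl _⟩

theorem Supp_f {t : ℝ} (ht : t ∈ Icc 0 T) {r : ℝ} (hr : R0 + t < r) : R.f t r = 0 := by
  have h := Supp_const (u := fun s => R.f s r) (u' := fun s => dt R.f s r)
    (fun x => R.sf.hasDerivAt_t x r) ht.1 (by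
      intro x hx
      exact (R.Supp_four (t := x) ⟨hx.1, hx.2.trans ht.2⟩ (by linarith [hx.2])).1)
  rw [h]
  exact R.f_init r (by linarith [ht.1])

theorem Supp_al {t : ℝ} (ht : t ∈ Icc 0 T) {r : ℝ} (hr : R0 + t < r) : R.al t r = 0 := by
  have h := Supp_const (u := fun s => R.al s r) (u' := fun s => dt R.al s r)
    (fun x => R.sal.hasDerivAt_t x r) ht.1 (by
      intro x hx
      exact (R.Supp_four (t := x) ⟨hx.1, hx.2.trans ht.2⟩ (by linarith [hx.2])).2.1)
  rw [h]
  exact R.al_init r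

/-- closure in `r` -/
theorem Supp_closure {u : ℝ → ℝ} (hu : Continuous u) {a : ℝ} (h : ∀ x, a < x → u x = 0) :
    ∀ x, a ≤ x → u x = 0 := by
  intro x hx
  have h1 : IsClosed {x | u x = 0} := isClosed_eq hu continuous_const
  have h2 : closure (Ioi a) ⊆ {x | u x = 0} := by
    apply closure_minimal _ h1
    intro y hy
    exact h y hy
  rw [closure_Ioi] at h2
  exact h2 hx

theorem supp {t : ℝ} (ht : t ∈ Icc 0 T) {r : ℝ} (hr : R0 + T ≤ r) :
    R.f t r = 0 ∧ R.al t r = 0 ∧ R.g t r = 0 ∧ R.e t r = 0 ∧ R.w t r = 0 ∧ R.y t r = 0 := by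
  have hr' : R0 + t ≤ r := by linarith [ht.2]
  refine ⟨?_, ?_, ?_, ?_, ?_, ?_⟩
  · exact Supp_closure (R.sf.cont_r t) (fun x hx => R.Supp_f ht hx) r hr'
  · exact Supp_closure (R.sal.cont_r t) (fun x hx => R.Supp_al ht hx) r hr'
  · exact Supp_closure (R.g_sm.cont_r t) (fun x hx => (R.Supp_four ht hx).1) r hr'
  · exact Supp_closure (R.e_sm.cont_r t) (fun x hx => (R.Supp_four ht hx).2.1) r hr'
  · exact Supp_closure (R.w_sm.cont_r t) (fun x hx => (R.Supp_four ht hx).2.2.1) r hr'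
  · exact Supp_closure (R.y_sm.cont_r t) (fun x hx => (R.Supp_four ht hx).2.2.2) r hr'

end Rad

end H72GS

end S_Supp

section S_SuppD

/-!
# SuppD: derivatives vanish outside the support

For `r > R0 + T`, `t ∈ [0,T]`: the functions vanish near `r`, so `r`-derivatives vanish; for
`t ∈ (0,T)` they vanish near `t`, so time derivatives vanish; the end points `t = 0, T` and
`r = R0 + T` by continuity (`Sm.cont`).
-/

namespace H72GS

open Set MeasureTheory intervalIntegral

/-- a function vanishing on a set with unique derivatives has zero derivative there -/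
theorem SuppD_zero {u : ℝ → ℝ} {u' x : ℝ} {S : Set ℝ} (hS : UniqueDiffWithinAt ℝ S x)
    (hx : x ∈ S) (hu : HasDerivAt u u' x) (h : ∀ z ∈ S, u z = 0) : u' = 0 := by
  have h1 : HasDerivWithinAt u u' S x := hu.hasDerivWithinAt
  have h2 : HasDerivWithinAt (fun _ : ℝ => (0 : ℝ)) 0 S x := hasDerivWithinAt_const x S 0
  have h3 : HasDerivWithinAt u 0 S x := h2.congr (fun z hz => h z hz) (h x hx)
  exact hS.eq_deriv S h1 h3

theorem SuppD_t {u : ℝ → ℝ → ℝ} (hu : Sm u) {T t r : ℝ} (hT : 0 < T) (ht : t ∈ Icc 0 T)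
    (h : ∀ s ∈ Icc 0 T, u s r = 0) : dt u t r = 0 :=
  SuppD_zero (uniqueDiffOn_Icc hT t ht) ht (hu.hasDerivAt_t t r) h

theorem SuppD_r {u : ℝ → ℝ → ℝ} (hu : Sm u) {a t r : ℝ} (hr : a ≤ r)
    (h : ∀ x, a ≤ x → u t x = 0) : dr u t r = 0 :=
  SuppD_zero (uniqueDiffOn_Ici a r hr) (show r ∈ Ici a from hr) (hu.hasDerivAt_r t r)
    (fun x hx => h x hx)

namespace Rad

variable {T R0 : ℝ} (R : Rad T R0)

theorem supp_deriv {t : ℝ} (ht : t ∈ Icc 0 T) {r : ℝ} (hr : R0 + T ≤ r) :
    dt R.w t r = 0 ∧ dr R.w t r = 0 ∧ dt R.y t r = 0 ∧ dr R.y t r = 0 ∧ dt R.g t r = 0 ∧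
      dt R.e t r = 0 ∧ dt (dt R.w) t r = 0 := by
  have hwt : ∀ s ∈ Icc 0 T, dt R.w s r = 0 := fun s hs =>
    SuppD_t R.w_sm R.hT hs (fun s' hs' => (R.supp hs' hr).2.2.2.2.1)
  refine ⟨hwt t ht, ?_, ?_, ?_, ?_, ?_, ?_⟩
  · exact SuppD_r R.w_sm hr (fun x hx => (R.supp ht hx).2.2.2.2.1)
  · exact SuppD_t R.y_sm R.hT ht (fun s' hs' => (R.supp hs' hr).2.2.2.2.2)
  · exact SuppD_r R.y_sm hr (fun x hx => (R.supp ht hx).2.2.2.2.2)
  · exact SuppD_t R.g_sm R.hT ht (fun s' hs' => (R.supp hs' hr).2.2.1)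
  · exact SuppD_t R.e_sm R.hT ht (fun s' hs' => (R.supp hs' hr).2.2.2.1)
  · exact SuppD_t R.w_sm.dt R.hT ht hwt

end Rad

end H72GS

end S_SuppD

section S_Slice

/-! # Slice: time slices satisfy `IsSlice`; conservation of the first order energy

`HasDerivAt` of `En`: integrand derivative `2 r (g g_t + e e_t + w w_t + y y_t)
= 2 (r (g w + e y))_r`, boundary terms vanish (`supp`, and factor `r` at `0`). -/

namespace H72GS

open Set MeasureTheory intervalIntegral

namespace Rad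

variable {T R0 : ℝ} (R : Rad T R0)

theorem isSlice (h1 : R0 + T ≤ 1 / 1000) (h2 : 1 / 10 ^ 50 ≤ R0 + T) {t : ℝ}
    (ht : t ∈ Icc 0 T) : IsSlice (R0 + T) (R.pre t) := by
  have hpos : 0 < R0 + T := by linarith [R.hR0, R.hT]
  have hsupp := R.supp ht (le_refl (R0 + T))
  refine
    { R1pos := hpos
      R1le := h1
      R1ge := h2
      cf := R.sf.cont_r t
      ca := continuous_id.mul (R.sal.cont_r t)
      cg := R.g_sm.cont_r t
      ce := R.e_sm.cont_r t
      cw := R.w_sm.cont_r t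
      cy := R.y_sm.cont_r t
      cwt := R.w_sm.dt.cont_r t
      cwr := R.w_sm.dr.cont_r t
      cgt := R.g_sm.dt.cont_r t
      cyt := R.y_sm.dt.cont_r t
      cyr := R.y_sm.dr.cont_r t
      cw1 := R.w1_sm.cont_r t
      cg1 := R.g1_sm.cont_r t
      cs1 := R.S1_sm.cont_r t
      df := ?_
      da := ?_
      dg := ?_
      dw := fun r => R.w_sm.hasDerivAt_r t r
      dy := fun r => R.y_sm.hasDerivAt_r t r
      de := ?_
      hgt := fun r hr => R.gt_eq ht hr
      hw1 := fun r => (R.r_w1 t r).symm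
      hg1 := fun r => (R.r_g1 t r).symm
      hs1 := fun r => (R.r_S1 t r).symm
      f0 := R.f0 t
      a0 := ?_
      fR := hsupp.1
      gR := hsupp.2.2.1
      eR := hsupp.2.2.2.1
      wR := hsupp.2.2.2.2.1
      yR := hsupp.2.2.2.2.2 }
  · intro r hr
    have h3 := R.sf.hasDerivAt_r t r
    have h4 := R.fr_eq t r
    have h5 : dr R.f t r = (R.pre t).w r - (4 + (R.pre t).a r) * Real.sin ((R.pre t).f r) / r := by
      show dr R.f t r = R.w t r - R.mu t r * R.s t r / r
      rw [eq_sub_iff_add_eq, ← mul_right_inj' hr.ne', mul_add, h4]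
      field_simp
      ring
    rw [← h5]
    exact h3
  · intro r _
    have h3 : HasDerivAt (fun x => x * R.al t x) (1 * R.al t r + r * dr R.al t r) r :=
      (hasDerivAt_id r).mul (R.sal.hasDerivAt_r t r)
    refine h3.congr_deriv ?_
    show _ = r * (R.al1 t r + dr R.al t r + 1 - R.c t r - 1 + R.c t r)
    rw [← R.r_al1 t r]
    ring
  · intro r hr
    have h3 := R.g_sm.hasDerivAt_r t r
    have h4 := R.wt_eq t r
    refine h3.congr_deriv ?_
    show _ = dt R.w t r - R.e t r * R.s t r - R.mu t r * R.c t r * R.g t r / r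
    rw [h4, ← R.r_g1 t r]
    field_simp
    ring
  · intro r
    have h3 : HasDerivAt (fun x => x * R.e t x) (1 * R.e t r + r * dr R.e t r) r :=
      (hasDerivAt_id r).mul (R.e_sm.hasDerivAt_r t r)
    refine h3.congr_deriv ?_
    show _ = r * (dt R.y t r - R.g t r * R.s t r)
    rw [R.yt_eq t r, ← R.r_e1 t r]
    ring
  · show 0 * R.al t 0 = 0
    ring

theorem hasDerivAt_En {t : ℝ} (ht : t ∈ Icc 0 T) :
    HasDerivAt (fun τ => (R.pre τ).En (R0 + T)) 0 t := by
  have hpos : 0 < R0 + T := by linarith [R.hR0, R.hT]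
  have hq := R.Supp_q_cont
  have hqt := R.Supp_qt_cont
  have hj : Continuous (fun r : ℝ => R.Supp_j t r) :=
    R.Supp_j_cont.comp (Continuous.prodMk continuous_const continuous_id)
  have hjr : Continuous (fun r : ℝ => R.Supp_jr t r) :=
    R.Supp_jr_cont.comp (Continuous.prodMk continuous_const continuous_id)
  have h1 := hasDerivAt_int (F := fun t r => r * (2 * R.Supp_q t r))
    (F' := fun t r => r * (2 * R.Supp_qt t r)) (by
      intro s
      have h2 : Continuous (fun r : ℝ => R.Supp_q s r) :=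
        hq.comp (Continuous.prodMk continuous_const continuous_id)
      exact continuous_id.mul (h2.const_mul 2 |>.congr fun _ => rfl))
    (continuous_snd.mul (continuous_const.mul hqt)) (by
      intro s r
      exact ((R.Supp_q_dt s r).const_mul 2).const_mul r) 0 (R0 + T) t
  have h3 : (∫ r in (0 : ℝ)..(R0 + T), r * (2 * R.Supp_qt t r)) = 0 := by
    have hF : ∀ r : ℝ, HasDerivAt (fun x => 2 * (x * R.Supp_j t x))
        (2 * (R.Supp_j t r + r * R.Supp_jr t r)) r := by
      intro r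
      have h2 := ((hasDerivAt_id r).mul (R.Supp_j_dr t r)).const_mul 2
      refine h2.congr_deriv ?_
      simp only [id]
      ring
    have h4 : (∫ r in (0 : ℝ)..(R0 + T), r * (2 * R.Supp_qt t r))
        = ∫ r in (0 : ℝ)..(R0 + T), 2 * (R.Supp_j t r + r * R.Supp_jr t r) := by
      apply intervalIntegral.integral_congr
      intro r hr
      rw [uIcc_of_le hpos.le] at hr
      have h5 := R.Supp_cons ht hr.1
      show r * (2 * R.Supp_qt t r) = 2 * (R.Supp_j t r + r * R.Supp_jr t r)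
      linarith
    rw [h4, intervalIntegral.integral_eq_sub_of_hasDerivAt (fun r _ => hF r)]
    · have hs := R.supp ht (le_refl (R0 + T))
      have h5 : R.Supp_j t (R0 + T) = 0 := by
        unfold Supp_j
        rw [hs.2.2.1, hs.2.2.2.1]
        ring
      rw [h5]
      ring
    · apply Continuous.intervalIntegrable
      exact continuous_const.mul (hj.add (continuous_id.mul hjr))
  rw [h3] at h1
  have h6 : (fun τ => (R.pre τ).En (R0 + T))
      = fun s => ∫ r in (0 : ℝ)..(R0 + T), r * (2 * R.Supp_q s r) := by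
    funext τ
    unfold Pre.En
    congr 1
    funext r
    show r * (R.g τ r ^ 2 + R.e τ r ^ 2 + R.w τ r ^ 2 + R.y τ r ^ 2) = r * (2 * R.Supp_q τ r)
    unfold Supp_q
    ring
  rw [h6]
  exact h1

theorem En_const {t : ℝ} (ht : t ∈ Icc 0 T) :
    (R.pre t).En (R0 + T) = (R.pre 0).En (R0 + T) := by
  have := constant_of_has_deriv_right_zero (f := fun τ => (R.pre τ).En (R0 + T)) (a := 0) (b := t)
    (fun x hx => (R.hasDerivAt_En ⟨hx.1, hx.2.trans ht.2⟩).continuousAt.continuousWithinAt)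
    (fun x hx => (R.hasDerivAt_En ⟨hx.1, hx.2.le.trans ht.2⟩).hasDerivWithinAt)
  exact this t ⟨ht.1, le_refl _⟩

end Rad

end H72GS

end S_Slice

section S_DerX

/-! # DerX: time derivative of the second order energy

Integrand `r (wt² + wr²) + r (A + r²(1-c)) w1²`; its `t`-derivative is
`2 r wt wtt + 2 r wr (wt)_r + (A_t + r² s g) r w1² + 2 (A + r²(1-c)) w1 wt`
(`r w1_t = wt`), `A_t = 2 μ r e - 2 r e c + 2 μ s g`.  Insert `wtt_eq`:
`2 wt (r wtt) + 2 r wr (wt)_r = 2 (r wr wt)_r - 2 (A + r²(1-c)) w1 wt + 2 wt S'`,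
`S' = μ s (w²-g²) + 2 r c (e g - w y)`; FTC, boundary terms vanish. -/

namespace H72GS

open Set MeasureTheory intervalIntegral

namespace Rad

variable {T R0 : ℝ} (R : Rad T R0)

/-- the coefficient `A + r² (1 - c)` -/
noncomputable def DerX_V (t r : ℝ) : ℝ :=
  (1 + R.mu t r ^ 2 - 2 * R.mu t r * R.c t r) + r ^ 2 * (1 - R.c t r)

/-- the integrand of `X` -/
noncomputable def DerX_F (t r : ℝ) : ℝ :=
  r * (dt R.w t r ^ 2 + dr R.w t r ^ 2 + R.DerX_V t r * R.w1 t r ^ 2)

/-- the flux -/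
noncomputable def DerX_G (t r : ℝ) : ℝ := r * (2 * (dr R.w t r * dt R.w t r))

/-- the integrand of `dX` -/
noncomputable def DerX_I (t r : ℝ) : ℝ :=
  2 * R.mu t r * R.s t r * R.g t r * r * R.w1 t r ^ 2
    + 2 * (R.mu t r - R.c t r) * R.e t r * R.w t r ^ 2
    + r * R.s t r * R.g t r * R.w t r ^ 2
    + 2 * dt R.w t r * (R.mu t r * R.s t r * (R.w t r ^ 2 - R.g t r ^ 2)
      + 2 * r * R.c t r * (R.e t r * R.g t r - R.w t r * R.y t r))

theorem DerX_V_sm : Sm R.DerX_V := by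
  have h1 : Sm (fun t r => R.mu t r ^ 2) := R.mu_sm.pow 2
  have h2 : Sm (fun t r => 2 * R.mu t r * R.c t r) := ((Sm.const 2).mul R.mu_sm).mul R.c_sm
  have h3 : Sm (fun t r => r ^ 2 * (1 - R.c t r)) :=
    (Sm.idr.pow 2).mul ((Sm.const 1).sub R.c_sm)
  exact (((Sm.const 1).add h1).sub h2).add h3

theorem DerX_F_sm : Sm R.DerX_F :=
  Sm.idr.mul (((R.w_sm.dt.pow 2).add (R.w_sm.dr.pow 2)).add
    (R.DerX_V_sm.mul (R.w1_sm.pow 2)))

theorem DerX_G_sm : Sm R.DerX_G :=
  Sm.idr.mul ((Sm.const 2).mul (R.w_sm.dr.mul R.w_sm.dt))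

theorem DerX_I_sm : Sm R.DerX_I := by
  have h1 : Sm (fun t r => 2 * R.mu t r * R.s t r * R.g t r * r * R.w1 t r ^ 2) :=
    (((((Sm.const 2).mul R.mu_sm).mul R.s_sm).mul R.g_sm).mul Sm.idr).mul (R.w1_sm.pow 2)
  have h2 : Sm (fun t r => 2 * (R.mu t r - R.c t r) * R.e t r * R.w t r ^ 2) :=
    (((Sm.const 2).mul (R.mu_sm.sub R.c_sm)).mul R.e_sm).mul (R.w_sm.pow 2)
  have h3 : Sm (fun t r => r * R.s t r * R.g t r * R.w t r ^ 2) :=
    ((Sm.idr.mul R.s_sm).mul R.g_sm).mul (R.w_sm.pow 2)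
  have h4 : Sm (fun t r => R.mu t r * R.s t r * (R.w t r ^ 2 - R.g t r ^ 2)) :=
    (R.mu_sm.mul R.s_sm).mul ((R.w_sm.pow 2).sub (R.g_sm.pow 2))
  have h5 : Sm (fun t r => 2 * r * R.c t r * (R.e t r * R.g t r - R.w t r * R.y t r)) :=
    (((Sm.const 2).mul Sm.idr).mul R.c_sm).mul ((R.e_sm.mul R.g_sm).sub (R.w_sm.mul R.y_sm))
  have h6 : Sm (fun t r => 2 * dt R.w t r * (R.mu t r * R.s t r * (R.w t r ^ 2 - R.g t r ^ 2)
      + 2 * r * R.c t r * (R.e t r * R.g t r - R.w t r * R.y t r))) :=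
    ((Sm.const 2).mul R.w_sm.dt).mul (h4.add h5)
  exact ((h1.add h2).add h3).add h6

theorem DerX_dtV (t r : ℝ) : HasDerivAt (fun x => R.DerX_V x r)
    (2 * R.mu t r * (r * R.e t r) - 2 * (r * R.e t r) * R.c t r
      + 2 * R.mu t r * (R.s t r * R.g t r) + r ^ 2 * (R.s t r * R.g t r)) t := by
  have hmu := R.mu_sm.hasDerivAt_t t r
  have hc := R.c_sm.hasDerivAt_t t r
  rw [R.dt_mu] at hmu
  rw [R.dt_c] at hc
  have h := ((((hmu.pow 2).const_add 1).sub ((hmu.const_mul 2).mul hc)).add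
    ((hc.const_sub 1).const_mul (r ^ 2)))
  refine HasDerivAt.congr_deriv (f := fun x => R.DerX_V x r) h ?_
  push_cast
  ring

theorem DerX_dtF (t r : ℝ) : dt R.DerX_F t r =
    r * (2 * dt R.w t r * dt (dt R.w) t r + 2 * dr R.w t r * dt (dr R.w) t r
      + ((2 * R.mu t r * (r * R.e t r) - 2 * (r * R.e t r) * R.c t r
      + 2 * R.mu t r * (R.s t r * R.g t r) + r ^ 2 * (R.s t r * R.g t r)) * R.w1 t r ^ 2
      + R.DerX_V t r * (2 * R.w1 t r * dt R.w1 t r))) := by
  have h0 := R.DerX_F_sm.hasDerivAt_t t r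
  have h1 := R.w_sm.dt.hasDerivAt_t t r
  have h2 := R.w_sm.dr.hasDerivAt_t t r
  have h3 := R.w1_sm.hasDerivAt_t t r
  have h4 := R.DerX_dtV t r
  have h := ((((h1.pow 2).add (h2.pow 2)).add (h4.mul (h3.pow 2))).const_mul r)
  have h5 := h0.unique h
  rw [h5]
  simp only [Pi.pow_apply]
  push_cast
  ring

theorem DerX_drG (t r : ℝ) : dr R.DerX_G t r =
    2 * (dr R.w t r * dt R.w t r) + r * (2 * (dr (dr R.w) t r * dt R.w t r
      + dr R.w t r * dr (dt R.w) t r)) := by
  have h0 := R.DerX_G_sm.hasDerivAt_r t r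
  have h1 := R.w_sm.dt.hasDerivAt_r t r
  have h2 := R.w_sm.dr.hasDerivAt_r t r
  have h := (hasDerivAt_id r).mul ((h2.mul h1).const_mul 2)
  have h5 := h0.unique h
  rw [h5]
  simp only [id, Pi.mul_apply]
  ring

theorem DerX_id {t : ℝ} (ht : t ∈ Icc 0 T) {r : ℝ} (hr : 0 ≤ r) :
    dt R.DerX_F t r = R.DerX_I t r + dr R.DerX_G t r := by
  refine eq_of_pos (f := fun r => dt R.DerX_F t r)
    (g := fun r => R.DerX_I t r + dr R.DerX_G t r) (R.DerX_F_sm.dt.cont_r t)
    ((R.DerX_I_sm.cont_r t).add (R.DerX_G_sm.dr.cont_r t)) ?_ r hr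
  intro x hx
  rw [R.DerX_dtF, R.DerX_drG, R.w_sm.comm]
  have h1 := R.wtt_eq ht hx
  have h2 := R.dt_w1 t x
  have h3 := R.r_w1 t x
  unfold DerX_I DerX_V
  linear_combination (2 * dt R.w t x) * h1
    + (2 * ((1 + R.mu t x ^ 2 - 2 * R.mu t x * R.c t x) + x ^ 2 * (1 - R.c t x)) * R.w1 t x) * h2
    + ((2 * (R.mu t x - R.c t x) * R.e t x + x * R.s t x * R.g t x)
      * (x * R.w1 t x + R.w t x)) * h3

theorem hasDerivAt_X {t : ℝ} (ht : t ∈ Icc 0 T) :
    HasDerivAt (fun τ => (R.pre τ).X (R0 + T)) ((R.pre t).dX (R0 + T)) t := by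
  have h1 := hasDerivAt_int (F := R.DerX_F) (F' := dt R.DerX_F) (fun t => R.DerX_F_sm.cont_r t)
    R.DerX_F_sm.dt.cont (fun t r => R.DerX_F_sm.hasDerivAt_t t r) 0 (R0 + T) t
  have hpos : 0 ≤ R0 + T := add_nonneg R.hR0.le R.hT.le
  have h2 : (∫ r in (0 : ℝ)..(R0 + T), dt R.DerX_F t r) = (R.pre t).dX (R0 + T) := by
    have h3 : (∫ r in (0 : ℝ)..(R0 + T), dt R.DerX_F t r)
        = ∫ r in (0 : ℝ)..(R0 + T), (R.DerX_I t r + dr R.DerX_G t r) := by
      refine intervalIntegral.integral_congr fun r hr => ?_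
      rw [uIcc_of_le hpos] at hr
      exact R.DerX_id ht hr.1
    rw [h3, intervalIntegral.integral_add ((R.DerX_I_sm.cont_r t).intervalIntegrable _ _)
      ((R.DerX_G_sm.dr.cont_r t).intervalIntegrable _ _)]
    have h4 : (∫ r in (0 : ℝ)..(R0 + T), dr R.DerX_G t r) = 0 := by
      rw [intervalIntegral.integral_eq_sub_of_hasDerivAt
        (fun r _ => R.DerX_G_sm.hasDerivAt_r t r)
        ((R.DerX_G_sm.dr.cont_r t).intervalIntegrable _ _)]
      have h5 : dt R.w t (R0 + T) = 0 := (R.supp_deriv ht le_rfl).1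
      unfold DerX_G
      rw [h5]
      ring
    rw [h4, add_zero]
    rfl
  rw [h2] at h1
  exact h1

end Rad

end H72GS

end S_DerX

section S_DerD

/-! # DerD: time derivatives of `D` and `Ey`

`D`: integrand `w μ s g²`, `μ_t = r e`, `s_t = c g`; no integration by parts.
`Ey`: `(1/2) r (yt² + yr² + s² y²)`: `r yt ytt + r yr (yt)_r + r s c g y² + r s² y yt`, insert
`ytt_eq`: `r yt ytt + r yr (yt)_r = (r yr yt)_r - r s² y yt + r c yt (g² - w²)`. -/

namespace H72GS

open Set MeasureTheory intervalIntegral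

namespace Rad

variable {T R0 : ℝ} (R : Rad T R0)

theorem hasDerivAt_D {t : ℝ} (ht : t ∈ Icc 0 T) :
    HasDerivAt (fun τ => (R.pre τ).D (R0 + T)) ((R.pre t).dD (R0 + T)) t := by
  have hw := R.w_sm
  have hmu := R.mu_sm
  have hss := R.s_sm
  have hg := R.g_sm
  have hF : Sm (fun t r => R.w t r * R.mu t r * R.s t r * R.g t r ^ 2) :=
    ((hw.mul hmu).mul hss).mul (hg.pow 2)
  have h1 := hasDerivAt_int (F := fun t r => R.w t r * R.mu t r * R.s t r * R.g t r ^ 2)
    (F' := dt (fun t r => R.w t r * R.mu t r * R.s t r * R.g t r ^ 2))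
    (fun t => hF.cont_r t) hF.dt.cont hF.hasDerivAt_t 0 (R0 + T) t
  have h2 : (R.pre t).dD (R0 + T) = ∫ r in (0 : ℝ)..(R0 + T),
      dt (fun t r => R.w t r * R.mu t r * R.s t r * R.g t r ^ 2) t r := by
    unfold Pre.dD
    apply intervalIntegral.integral_congr
    intro r _
    have h3 := (((hw.hasDerivAt_t t r).mul (hmu.hasDerivAt_t t r)).mul
      (hss.hasDerivAt_t t r)).mul ((hg.hasDerivAt_t t r).pow 2)
    have h4 : dt (fun t r => R.w t r * R.mu t r * R.s t r * R.g t r ^ 2) t r = _ := h3.deriv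
    rw [h4, R.dt_mu, R.dt_s]
    change dt R.w t r * R.mu t r * R.s t r * R.g t r ^ 2
      + R.w t r * (r * R.e t r * R.s t r * R.g t r ^ 2
      + R.mu t r * R.c t r * R.g t r ^ 3
      + 2 * R.mu t r * R.s t r * R.g t r * dt R.g t r) = _
    simp only [Nat.cast_ofNat, Pi.mul_apply, Pi.pow_apply]
    ring
  rw [h2]
  exact h1

theorem DerD_Ey_int {t : ℝ} (ht : t ∈ Icc 0 T) {r : ℝ} (hr : 0 < r) :
    dt (fun t r => (1 / 2 : ℝ) * r * (dt R.y t r ^ 2 + dr R.y t r ^ 2
      + R.s t r ^ 2 * R.y t r ^ 2)) t r =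
      (dr R.y t r * dt R.y t r + r * (dr (dr R.y) t r * dt R.y t r + dr R.y t r * dr (dt R.y) t r))
      + (r * R.s t r * R.c t r * R.g t r * R.y t r ^ 2
        + r * dt R.y t r * R.c t r * (R.g t r ^ 2 - R.w t r ^ 2)) := by
  have hy := R.y_sm
  have hss := R.s_sm
  have h3 := ((((hy.dt.hasDerivAt_t t r).pow 2).add ((hy.dr.hasDerivAt_t t r).pow 2)).add
    (((hss.hasDerivAt_t t r).pow 2).mul ((hy.hasDerivAt_t t r).pow 2))).const_mul ((1 / 2 : ℝ) * r)
  have h4 : dt (fun t r => (1 / 2 : ℝ) * r * (dt R.y t r ^ 2 + dr R.y t r ^ 2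
      + R.s t r ^ 2 * R.y t r ^ 2)) t r = _ := h3.deriv
  have h5 : dt (dr R.y) t r = dr (dt R.y) t r := by rw [hy.comm]
  rw [h4, R.dt_s, h5]
  have h6 := R.ytt_eq ht hr
  simp only [Nat.cast_ofNat, Pi.mul_apply, Pi.pow_apply]
  linear_combination (dt R.y t r) * h6

theorem hasDerivAt_Ey {t : ℝ} (ht : t ∈ Icc 0 T) :
    HasDerivAt (fun τ => (R.pre τ).Ey (R0 + T)) ((R.pre t).dEy (R0 + T)) t := by
  have hy := R.y_sm
  have hss := R.s_sm
  have hcc := R.c_sm
  have hg := R.g_sm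
  have hw := R.w_sm
  have hR1 : 0 ≤ R0 + T := by linarith [R.hT, R.hR0]
  have hF : Sm (fun t r => (1 / 2 : ℝ) * r * (dt R.y t r ^ 2 + dr R.y t r ^ 2
      + R.s t r ^ 2 * R.y t r ^ 2)) :=
    ((Sm.const (1 / 2)).mul Sm.idr).mul (((hy.dt.pow 2).add (hy.dr.pow 2)).add
      ((hss.pow 2).mul (hy.pow 2)))
  have h1 := hasDerivAt_int (F := fun t r => (1 / 2 : ℝ) * r * (dt R.y t r ^ 2 + dr R.y t r ^ 2
      + R.s t r ^ 2 * R.y t r ^ 2))
    (F' := dt (fun t r => (1 / 2 : ℝ) * r * (dt R.y t r ^ 2 + dr R.y t r ^ 2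
      + R.s t r ^ 2 * R.y t r ^ 2)))
    (fun t => hF.cont_r t) hF.dt.cont hF.hasDerivAt_t 0 (R0 + T) t
  -- boundary term
  have hB : Sm (fun t r => r * (dr R.y t r * dt R.y t r)) := Sm.idr.mul (hy.dr.mul hy.dt)
  have hBd : ∀ r, HasDerivAt (fun r => r * (dr R.y t r * dt R.y t r))
      (dr R.y t r * dt R.y t r + r * (dr (dr R.y) t r * dt R.y t r
        + dr R.y t r * dr (dt R.y) t r)) r := by
    intro r
    have h := (hasDerivAt_id r).mul ((hy.dr.hasDerivAt_r t r).mul (hy.dt.hasDerivAt_r t r))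
    refine h.congr_deriv ?_
    simp only [id, one_mul, Pi.mul_apply]
  have cB : Continuous (fun r => dr R.y t r * dt R.y t r + r * (dr (dr R.y) t r * dt R.y t r
        + dr R.y t r * dr (dt R.y) t r)) := by
    have a1 := hy.dr.cont_r t
    have a2 := hy.dt.cont_r t
    have a3 := hy.dr.dr.cont_r t
    have a4 := hy.dt.dr.cont_r t
    exact (a1.mul a2).add (continuous_id.mul ((a3.mul a2).add (a1.mul a4)))
  have cE : Continuous (fun r => r * R.s t r * R.c t r * R.g t r * R.y t r ^ 2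
        + r * dt R.y t r * R.c t r * (R.g t r ^ 2 - R.w t r ^ 2)) := by
    have a1 := hss.cont_r t
    have a2 := hcc.cont_r t
    have a3 := hg.cont_r t
    have a4 := hy.cont_r t
    have a5 := hy.dt.cont_r t
    have a6 := hw.cont_r t
    exact ((((continuous_id.mul a1).mul a2).mul a3).mul (a4.pow 2)).add
      (((continuous_id.mul a5).mul a2).mul ((a3.pow 2).sub (a6.pow 2)))
  have hBint : ∫ r in (0 : ℝ)..(R0 + T), (dr R.y t r * dt R.y t r
      + r * (dr (dr R.y) t r * dt R.y t r + dr R.y t r * dr (dt R.y) t r)) = 0 := by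
    rw [intervalIntegral.integral_eq_sub_of_hasDerivAt (fun r _ => hBd r)
      (cB.intervalIntegrable _ _)]
    obtain ⟨_, _, h3, _⟩ := R.supp_deriv ht (le_refl (R0 + T))
    rw [h3]
    ring
  have h2 : (R.pre t).dEy (R0 + T) = ∫ r in (0 : ℝ)..(R0 + T),
      dt (fun t r => (1 / 2 : ℝ) * r * (dt R.y t r ^ 2 + dr R.y t r ^ 2
      + R.s t r ^ 2 * R.y t r ^ 2)) t r := by
    have h3 : ∫ r in (0 : ℝ)..(R0 + T),
      dt (fun t r => (1 / 2 : ℝ) * r * (dt R.y t r ^ 2 + dr R.y t r ^ 2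
      + R.s t r ^ 2 * R.y t r ^ 2)) t r = ∫ r in (0 : ℝ)..(R0 + T),
        ((dr R.y t r * dt R.y t r
          + r * (dr (dr R.y) t r * dt R.y t r + dr R.y t r * dr (dt R.y) t r))
        + (r * R.s t r * R.c t r * R.g t r * R.y t r ^ 2
        + r * dt R.y t r * R.c t r * (R.g t r ^ 2 - R.w t r ^ 2))) := by
      apply intervalIntegral.integral_congr_ae
      filter_upwards with r hr
      rw [uIoc_of_le hR1] at hr
      exact R.DerD_Ey_int ht hr.1
    rw [h3, intervalIntegral.integral_add (cB.intervalIntegrable _ _) (cE.intervalIntegrable _ _),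
      hBint, zero_add]
    rfl
  rw [h2]
  exact h1

end Rad

end H72GS

end S_DerD

section S_DerN

/-! # DerN: time derivatives of `N` and `P`

`N`: `(Th(f) s)_t = (Thd s + Th c) g`, and `Thd s + Th c = 2 Th c - Xi` (`Th_cos_sub`).
`P`: `(g Th)_t = g_t Th + g² Thd`, insert `gt_eq`:
`r (w_r + (1 - μ c) w1 - y s) Th = (r w Th)_r - r w Thd f_r - μ c w Th - r y s Th`, and
`r f_r = r w - μ s`: `= (r w Th)_r - r Thd w² - μ w (Th c - Thd s) - r y s Th`. -/

namespace H72GS

open Set MeasureTheory intervalIntegral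

namespace Rad

variable {T R0 : ℝ} (R : Rad T R0)

theorem DerN_Th_t (t r : ℝ) :
    HasDerivAt (fun s => Th (R.f s r)) (Thd (R.f t r) * R.g t r) t := by
  have h := (hasDerivAt_Th (R.f t r)).comp t (R.sf.hasDerivAt_t t r)
  exact h

theorem DerN_Th_r (t r : ℝ) :
    HasDerivAt (fun x => Th (R.f t x)) (Thd (R.f t r) * dr R.f t r) r := by
  have h := (hasDerivAt_Th (R.f t r)).comp r (R.sf.hasDerivAt_r t r)
  exact h

theorem hasDerivAt_N {t : ℝ} (ht : t ∈ Icc 0 T) :
    HasDerivAt (fun τ => (R.pre τ).N (R0 + T)) ((R.pre t).dN (R0 + T)) t := by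
  have hf := R.sf.cont
  have hg := R.g_sm.cont
  have hTh : Continuous (fun p : ℝ × ℝ => Th (R.f p.1 p.2)) := continuous_Th.comp hf
  have hXi : Continuous (fun p : ℝ × ℝ => Xi (R.f p.1 p.2)) := continuous_Xi.comp hf
  have hcf : Continuous (fun p : ℝ × ℝ => Real.cos (R.f p.1 p.2)) := Real.continuous_cos.comp hf
  have key := hasDerivAt_int (F := fun t r => r * Th (R.f t r) * Real.sin (R.f t r))
    (F' := fun t r => r * R.g t r * (2 * Th (R.f t r) * Real.cos (R.f t r) - Xi (R.f t r)))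
    ?_ ?_ ?_ 0 (R0 + T) t
  · exact key
  · intro s
    have h1 := R.sf.cont_r s
    exact (continuous_id.mul (continuous_Th.comp h1)).mul (Real.continuous_sin.comp h1)
  · exact (continuous_snd.mul hg).mul (((continuous_const.mul hTh).mul hcf).sub hXi)
  · intro s r
    have h1 := R.DerN_Th_t s r
    have h2 : HasDerivAt (fun x => Real.sin (R.f x r)) (Real.cos (R.f s r) * R.g s r) s :=
      (R.sf.hasDerivAt_t s r).sin
    have h3 := (h1.const_mul r).mul h2
    refine h3.congr_deriv ?_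
    have h4 := Th_cos_sub (R.f s r)
    linear_combination (-r * R.g s r) * h4

theorem hasDerivAt_P {t : ℝ} (ht : t ∈ Icc 0 T) :
    HasDerivAt (fun τ => (R.pre τ).P (R0 + T)) ((R.pre t).dP (R0 + T)) t := by
  have hf := R.sf.cont
  have hg := R.g_sm.cont
  have hgt := R.g_sm.dt.cont
  have hTh : Continuous (fun p : ℝ × ℝ => Th (R.f p.1 p.2)) := continuous_Th.comp hf
  have hThd : Continuous (fun p : ℝ × ℝ => Thd (R.f p.1 p.2)) := continuous_Thd.comp hf
  have key := hasDerivAt_int (F := fun t r => r * R.g t r * Th (R.f t r))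
    (F' := fun t r => r * dt R.g t r * Th (R.f t r)
      + r * R.g t r * (Thd (R.f t r) * R.g t r)) ?_ ?_ ?_ 0 (R0 + T) t
  · refine key.congr_deriv ?_
    -- the difference is a total derivative
    have hR1 : (0 : ℝ) ≤ R0 + T := by
      have := R.hR0
      have := R.hT
      linarith
    have cf := R.sf.cont_r t
    have cTh : Continuous (fun r => Th (R.f t r)) := continuous_Th.comp cf
    have cThd : Continuous (fun r => Thd (R.f t r)) := continuous_Thd.comp cf
    have cXi : Continuous (fun r => Xi (R.f t r)) := continuous_Xi.comp cf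
    have cw := R.w_sm.cont_r t
    have cwr := R.w_sm.dr.cont_r t
    have cfr := R.sf.dr.cont_r t
    have cg := R.g_sm.cont_r t
    have cgt := R.g_sm.dt.cont_r t
    have cy := R.y_sm.cont_r t
    have cmu : Continuous (fun r => 4 + r * R.al t r) := R.mu_sm.cont_r t
    have hF : ∀ r : ℝ, HasDerivAt (fun x => x * R.w t x * Th (R.f t x))
        ((1 * R.w t r + r * dr R.w t r) * Th (R.f t r)
          + r * R.w t r * (Thd (R.f t r) * dr R.f t r)) r := by
      intro r
      exact ((hasDerivAt_id r).mul (R.w_sm.hasDerivAt_r t r)).mul (R.DerN_Th_r t r)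
    have cF' : Continuous (fun r => (1 * R.w t r + r * dr R.w t r) * Th (R.f t r)
          + r * R.w t r * (Thd (R.f t r) * dr R.f t r)) := by
      exact (((continuous_const.mul cw).add (continuous_id.mul cwr)).mul cTh).add
        ((continuous_id.mul cw).mul (cThd.mul cfr))
    have hint : (∫ r in (0 : ℝ)..(R0 + T), ((1 * R.w t r + r * dr R.w t r) * Th (R.f t r)
          + r * R.w t r * (Thd (R.f t r) * dr R.f t r))) = 0 := by
      rw [intervalIntegral.integral_eq_sub_of_hasDerivAt (fun r _ => hF r)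
        (cF'.intervalIntegrable _ _)]
      have h1 : R.w t (R0 + T) = 0 := (R.supp ht le_rfl).2.2.2.2.1
      rw [h1]
      ring
    have hdP : (R.pre t).dP (R0 + T) = ∫ r in (0 : ℝ)..(R0 + T),
        (r * Thd (R.f t r) * (R.g t r ^ 2 - R.w t r ^ 2)
          - (4 + r * R.al t r) * R.w t r * Xi (R.f t r)
          - r * R.y t r * Real.sin (R.f t r) * Th (R.f t r)) := rfl
    have csin : Continuous (fun r => Real.sin (R.f t r)) := Real.continuous_sin.comp cf
    have cdP : Continuous (fun r => r * Thd (R.f t r) * (R.g t r ^ 2 - R.w t r ^ 2)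
          - (4 + r * R.al t r) * R.w t r * Xi (R.f t r)
          - r * R.y t r * Real.sin (R.f t r) * Th (R.f t r)) := by
      exact (((continuous_id.mul cThd).mul ((cg.pow 2).sub (cw.pow 2))).sub
        ((cmu.mul cw).mul cXi)).sub (((continuous_id.mul cy).mul csin).mul cTh)
    rw [hdP]
    have hsum : (∫ r in (0 : ℝ)..(R0 + T), (r * dt R.g t r * Th (R.f t r)
        + r * R.g t r * (Thd (R.f t r) * R.g t r))) =
        (∫ r in (0 : ℝ)..(R0 + T), (r * Thd (R.f t r) * (R.g t r ^ 2 - R.w t r ^ 2)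
          - (4 + r * R.al t r) * R.w t r * Xi (R.f t r)
          - r * R.y t r * Real.sin (R.f t r) * Th (R.f t r)))
        + ∫ r in (0 : ℝ)..(R0 + T), ((1 * R.w t r + r * dr R.w t r) * Th (R.f t r)
          + r * R.w t r * (Thd (R.f t r) * dr R.f t r)) := by
      rw [← intervalIntegral.integral_add (cdP.intervalIntegrable _ _)
        (cF'.intervalIntegrable _ _)]
      refine intervalIntegral.integral_congr ?_
      intro r hr
      rw [uIcc_of_le hR1] at hr
      have h1 := R.gt_eq ht hr.1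
      have h2 := R.r_w1 t r
      have h3 := R.fr_eq t r
      have h4 := Th_cos_sub (R.f t r)
      have hs : R.s t r = Real.sin (R.f t r) := rfl
      have hc : R.c t r = Real.cos (R.f t r) := rfl
      have hm : R.mu t r = 4 + r * R.al t r := rfl
      rw [hs] at h1 h3
      rw [hc] at h1
      rw [hm] at h1 h3
      simp only
      rw [h1]
      linear_combination ((1 - (4 + r * R.al t r) * Real.cos (R.f t r)) * Th (R.f t r)) * h2
        - (R.w t r * Thd (R.f t r)) * h3 - ((4 + r * R.al t r) * R.w t r) * h4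
    rw [hsum, hint, add_zero]
  · intro s
    have h1 := R.sf.cont_r s
    exact (continuous_id.mul (R.g_sm.cont_r s)).mul (continuous_Th.comp h1)
  · exact ((continuous_snd.mul hgt).mul hTh).add ((continuous_snd.mul hg).mul (hThd.mul hg))
  · intro s r
    have h1 := R.DerN_Th_t s r
    have h2 := (R.g_sm.hasDerivAt_t s r).const_mul r
    have h3 := h2.mul h1
    exact h3

end Rad

end H72GS

end S_DerN
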