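import Mathlib
import Pool.Agent.H72.GM.M1
import Pool.Agent.H72.GM.M2

set_option autoImplicit false

/-! Gauged sigma model, file M3: this file joins several modules to save build time. -/

section S_DerM

/-! # DerM: the Morawetz identity

`M = ∫ wt (r²/(r+L) wr + r w/(2(r+L)))`, `L = L(τ)` differentiable at `t`, `L t > 0`.
`t`-derivative of the integrand at fixed `L`:
`wtt (r²/(r+L) wr + r w/(2(r+L))) + wt (r²/(r+L) (wt)_r + r wt/(2(r+L)))`, and the derivative in `L`: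
`-L' wt (r² wr + r w/2)/(r+L)²`.  Insert `wtt_eq` (`r wtt = (r wr)_r - (A + r²(1-c)) w1 + S'`):
with `ζ = r/(r+L)`, `β = 1/(2(r+L)) = ζ/(2r)`:
* `(r wr)_r ζ wr = (1/2)(r ζ wr²)_r + (1/2) ζ wr² - (1/2) r ζ' wr²`,
* `(r wr)_r β w = (r wr β w)_r - r β wr² - (1/2)(r β' w²)_r + (1/2)(r β')_r w²`,
* `-(A + r²(1-c)) w1 ζ wr = -(1/2)(V r ζ w²)_r + (1/2)(V r ζ)_r w²`, `V = A/r² + 1 - c`,
* `r wt (wt)_r ζ + β r wt² = (1/2)(r ζ wt²)_r - (1/2) r ζ' wt²`.
The coefficient of `w²` is `m3/r²`; all total derivatives vanish at `0` (`w = r w1`) and at `R0+T`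
(`supp`, `supp_deriv`).  To avoid division use `w = r w1` in the primitives
(`V r ζ w² = (A + r²(1-c)) r²/(r+L) w1²·...`).  The final formula `dM` was checked numerically.
Use `hasDerivAt_int_loc` (near `t`, `L > L(t)/2 > 0` by continuity is not available for `L'` at other
times: so first prove `M(τ, ℓ)` is differentiable jointly, e.g. write
`M(τ,L(τ)) = M(τ,L(t)) + (M(τ,L(τ)) - M(τ,L(t)))` and use
`1/(r+L(τ)) - 1/(r+L(t)) = -(L(τ)-L(t))/((r+L(τ))(r+L(t)))` with continuity of the rest). -/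

namespace H72GS

open Set MeasureTheory intervalIntegral Filter Topology

/-- algebraic identity behind `DerM` -/
private lemma DerM_key (r ℓ wt wr wrr wtr w w1 c s μ g e y fr X : ℝ) (hD : r + ℓ ≠ 0)
    (hw : w = r * w1) (hfr : r * fr = r * w - μ * s)
    (hX : r * X = wr + r * wrr - ((1 + μ ^ 2 - 2 * μ * c) + r ^ 2 * (1 - c)) * w1
      + μ * s * (w ^ 2 - g ^ 2) + 2 * r * c * (e * g - w * y)) :
    (X * (r ^ 2 * wr + r / 2 * w) + wt * (r ^ 2 * wtr + r / 2 * wt)) / (r + ℓ) -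
      (-(1 / 2) * (r * ℓ / (r + ℓ) ^ 2) * (wt ^ 2 + wr ^ 2)
    + ((1 / 4) * r ^ 2 * (r - ℓ) / (r + ℓ) ^ 3
    + (1 / 2) * ((2 * (μ - c) * r ^ 2 * (y - 1 + c)
        + 2 * μ * s * (r * w - μ * s)
        - 2 * (1 + μ ^ 2 - 2 * μ * c)
        + r ^ 2 * s * (r * w - μ * s)) * (r / (r + ℓ))
      + (r * (1 + μ ^ 2 - 2 * μ * c) + r ^ 3 * (1 - c)) * (ℓ / (r + ℓ) ^ 2))) * w1 ^ 2
    + (μ * s * (w ^ 2 - g ^ 2) + 2 * r * c * (e * g - w * y))
      * (r / (r + ℓ) * wr + w / (2 * (r + ℓ)))) =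
    ((r * (wr ^ 2 + wt ^ 2) + r ^ 2 * (wr * wrr + wt * wtr)
      + (1 / 2) * (wr * w + r * wrr * w + r * wr * wr)
      - (1 / 2) * (2 * (μ - c) * (r * (y - 1 + c)) + 2 * μ * s * fr + 2 * r * (1 - c)
        + r ^ 2 * s * fr) * w ^ 2
      - ((1 + μ ^ 2 - 2 * μ * c) + r ^ 2 * (1 - c)) * w * wr) * (r + ℓ)
      - ((1 / 2) * r ^ 2 * (wr ^ 2 + wt ^ 2) + (1 / 2) * r * wr * w
      - (1 / 2) * ((1 + μ ^ 2 - 2 * μ * c) + r ^ 2 * (1 - c)) * w ^ 2)) / (r + ℓ) ^ 2
      + ((1 / 4) * (w ^ 2 + 2 * r * w * wr) * (r + ℓ) ^ 2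
        - (1 / 4) * r * w ^ 2 * (2 * (r + ℓ))) / ((r + ℓ) ^ 2) ^ 2 := by
  subst hw
  have hD2 : (r + ℓ) ^ 2 ≠ 0 := pow_ne_zero 2 hD
  field_simp
  linear_combination (4 * r * (2 * wr + w1)) * (r + ℓ) ^ 2 * hX +
    4 * (2 * μ * s + r ^ 2 * s) * r * w1 ^ 2 * (r + ℓ) ^ 2 * hfr


/-- product with a function vanishing at the point -/
private lemma DerM_mul_zero {f K : ℝ → ℝ} {f' t : ℝ} (hf : HasDerivAt f f' t) (h0 : f t = 0)
    (hK : ContinuousAt K t) : HasDerivAt (fun x => f x * K x) (f' * K t) t := by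
  rw [hasDerivAt_iff_tendsto_slope] at hf ⊢
  have h1 : Tendsto (fun x => slope f t x * K x) (𝓝[≠] t) (𝓝 (f' * K t)) :=
    hf.mul (hK.tendsto.mono_left nhdsWithin_le_nhds)
  refine h1.congr (fun x => ?_)
  simp only [slope_def_field, h0, zero_mul, sub_zero]
  ring

/-- continuity of a parametric integral with a moving pole -/
private lemma DerM_cont {U : ℝ → ℝ → ℝ} (hU : Continuous (fun p : ℝ × ℝ => U p.1 p.2))
    {L : ℝ → ℝ} {t b : ℝ} (hb : 0 ≤ b) (hL : ContinuousAt L t) (hL0 : 0 < L t) :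
    ContinuousAt (fun τ => ∫ r in (0 : ℝ)..b, U τ r / ((r + L τ) * (r + L t))) t := by
  set a : ℝ := L t / 2 with ha
  have ha0 : 0 < a := by rw [ha]; linarith
  have hG : Continuous (fun q : ℝ × ℝ => ∫ r in (0 : ℝ)..b,
      U q.1 r / ((max r 0 + max q.2 a) * (max r 0 + L t))) := by
    apply intervalIntegral.continuous_parametric_intervalIntegral_of_continuous'
    have h1 : Continuous (fun p : (ℝ × ℝ) × ℝ => U p.1.1 p.2) :=
      hU.comp ((continuous_fst.comp continuous_fst).prodMk continuous_snd)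
    refine h1.div ?_ ?_
    · exact (((continuous_snd.max continuous_const).add
        ((continuous_snd.comp continuous_fst).max continuous_const)).mul
        ((continuous_snd.max continuous_const).add continuous_const))
    · intro p
      have h2 : 0 < max p.2 0 + max p.1.2 a :=
        add_pos_of_nonneg_of_pos (le_max_right _ _) (lt_of_lt_of_le ha0 (le_max_right _ _))
      have h3 : 0 < max p.2 0 + L t := add_pos_of_nonneg_of_pos (le_max_right _ _) hL0
      exact (mul_pos h2 h3).ne'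
  have hcomp : ContinuousAt (fun τ => ∫ r in (0 : ℝ)..b,
      U τ r / ((max r 0 + max (L τ) a) * (max r 0 + L t))) t :=
    ContinuousAt.comp (f := fun τ => (τ, L τ)) hG.continuousAt (continuousAt_id.prodMk hL)
  refine hcomp.congr ?_
  have hev : ∀ᶠ τ in 𝓝 t, a < L τ := hL.eventually (lt_mem_nhds (by rw [ha]; linarith))
  filter_upwards [hev] with τ hτ
  apply intervalIntegral.integral_congr
  intro r hr
  rw [uIcc_of_le hb] at hr
  simp only
  rw [max_eq_left hr.1, max_eq_left hτ.le]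

namespace Rad

variable {T R0 : ℝ} (R : Rad T R0)

private noncomputable def DerM_U (t r : ℝ) : ℝ := dt R.w t r * (r ^ 2 * dr R.w t r + r / 2 * R.w t r)

private lemma DerM_U_sm : Sm R.DerM_U := by
  have h := R.w_sm.dt.mul (((Sm.idr.pow 2).mul R.w_sm.dr).add
    ((Sm.idr.mul (Sm.const (1 / 2))).mul R.w_sm))
  have e : (fun t r => dt R.w t r * (r ^ 2 * dr R.w t r + r * (1 / 2) * R.w t r)) =
      R.DerM_U := by
    funext t r
    simp only [DerM_U]
    ring
  rw [← e]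
  exact h

private lemma DerM_dtU (t r : ℝ) : dt R.DerM_U t r =
    dt (dt R.w) t r * (r ^ 2 * dr R.w t r + r / 2 * R.w t r) +
      dt R.w t r * (r ^ 2 * dr (dt R.w) t r + r / 2 * dt R.w t r) := by
  have h1 := R.w_sm.dt.hasDerivAt_t t r
  have h2 := R.w_sm.dr.hasDerivAt_t t r
  have h3 := R.w_sm.hasDerivAt_t t r
  rw [R.w_sm.comm] at h2
  exact (h1.mul ((h2.const_mul (r ^ 2)).add (h3.const_mul (r / 2)))).deriv

/-- potential -/
private noncomputable def DerM_V (t r : ℝ) : ℝ :=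
  (1 + R.mu t r ^ 2 - 2 * R.mu t r * R.c t r) + r ^ 2 * (1 - R.c t r)

private lemma DerM_dV (t r : ℝ) : HasDerivAt (R.DerM_V t)
    (2 * (R.mu t r - R.c t r) * (r * (R.y t r - 1 + R.c t r)) +
      2 * R.mu t r * R.s t r * dr R.f t r + 2 * r * (1 - R.c t r) +
      r ^ 2 * R.s t r * dr R.f t r) r := by
  have hm := R.mu_sm.hasDerivAt_r t r
  rw [R.dr_mu] at hm
  have hc := R.c_sm.hasDerivAt_r t r
  rw [R.dr_c] at hc
  have h := (((hm.pow 2).const_add 1).sub ((hm.const_mul 2).mul hc)).add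
    (((hasDerivAt_id r).pow 2).mul (hc.const_sub 1))
  refine (h.congr_deriv ?_)
  simp only [id, Pi.pow_apply, Nat.cast_ofNat]
  ring

/-- primitive -/
private noncomputable def DerM_G (t ℓ r : ℝ) : ℝ :=
  ((1 / 2) * r ^ 2 * (dr R.w t r ^ 2 + dt R.w t r ^ 2) + (1 / 2) * r * dr R.w t r * R.w t r
      - (1 / 2) * R.DerM_V t r * R.w t r ^ 2) / (r + ℓ)
    + ((1 / 4) * r * R.w t r ^ 2) / (r + ℓ) ^ 2

/-- derivative of the primitive -/
private noncomputable def DerM_Gd (t ℓ r : ℝ) : ℝ :=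
    ((r * (dr R.w t r ^ 2 + dt R.w t r ^ 2) +
      r ^ 2 * (dr R.w t r * dr (dr R.w) t r + dt R.w t r * dr (dt R.w) t r)
      + (1 / 2) * (dr R.w t r * R.w t r + r * dr (dr R.w) t r * R.w t r
        + r * dr R.w t r * dr R.w t r)
      - (1 / 2) * (2 * (R.mu t r - R.c t r) * (r * (R.y t r - 1 + R.c t r)) +
        2 * R.mu t r * R.s t r * dr R.f t r + 2 * r * (1 - R.c t r)
        + r ^ 2 * R.s t r * dr R.f t r) * R.w t r ^ 2
      - ((1 + R.mu t r ^ 2 - 2 * R.mu t r * R.c t r) + r ^ 2 * (1 - R.c t r)) * R.w t r *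
        dr R.w t r) * (r + ℓ)
      - ((1 / 2) * r ^ 2 * (dr R.w t r ^ 2 + dt R.w t r ^ 2) + (1 / 2) * r * dr R.w t r * R.w t r
      - (1 / 2) * ((1 + R.mu t r ^ 2 - 2 * R.mu t r * R.c t r) + r ^ 2 * (1 - R.c t r)) *
        R.w t r ^ 2)) / (r + ℓ) ^ 2
      + ((1 / 4) * (R.w t r ^ 2 + 2 * r * R.w t r * dr R.w t r) * (r + ℓ) ^ 2
        - (1 / 4) * r * R.w t r ^ 2 * (2 * (r + ℓ))) / ((r + ℓ) ^ 2) ^ 2

private lemma DerM_dG (t ℓ r : ℝ) (hD : r + ℓ ≠ 0) : HasDerivAt (R.DerM_G t ℓ)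
    (R.DerM_Gd t ℓ r) r := by
  have hw := R.w_sm.hasDerivAt_r t r
  have hwr := R.w_sm.dr.hasDerivAt_r t r
  have hwt := R.w_sm.dt.hasDerivAt_r t r
  have hV := R.DerM_dV t r
  have hid := hasDerivAt_id r
  have hden : HasDerivAt (fun x : ℝ => x + ℓ) 1 r := (hasDerivAt_id r).add_const ℓ
  have hden2 := hden.pow 2
  have hP := ((((hid.pow 2).const_mul (1 / 2)).mul ((hwr.pow 2).add (hwt.pow 2))).add
    (((hid.const_mul (1 / 2)).mul hwr).mul hw)).sub ((hV.const_mul (1 / 2)).mul (hw.pow 2))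
  have hP2 := (hid.const_mul (1 / 4)).mul (hw.pow 2)
  have h := (hP.div hden hD).add (hP2.div hden2 (pow_ne_zero 2 hD))
  refine (h.congr_deriv ?_)
  simp only [id, Pi.pow_apply, Pi.add_apply, Pi.mul_apply, Nat.cast_ofNat, DerM_V,
    Pi.sub_apply, DerM_Gd]
  ring

theorem hasDerivAt_M {t : ℝ} (ht : t ∈ Icc 0 T) {L : ℝ → ℝ} {L' : ℝ} (hL : HasDerivAt L L' t)
    (hL0 : 0 < L t) :
    HasDerivAt (fun τ => (R.pre τ).M (R0 + T) (L τ)) ((R.pre t).dM (R0 + T) (L t) L') t := by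
  set b : ℝ := R0 + T with hb
  have hb0 : 0 ≤ b := by rw [hb]; linarith [R.hT, R.hR0]
  have hUc : Continuous (fun p : ℝ × ℝ => R.DerM_U p.1 p.2) := R.DerM_U_sm.cont
  have hUtc : Continuous (fun p : ℝ × ℝ => dt R.DerM_U p.1 p.2) := R.DerM_U_sm.dt.cont
  -- fixed scale
  have hfix : HasDerivAt (fun τ => ∫ r in (0 : ℝ)..b, R.DerM_U τ r / (r + L t))
      (∫ r in (0 : ℝ)..b, dt R.DerM_U t r / (r + L t)) t := by
    have hne : ∀ r ∈ Icc 0 b, r + L t ≠ 0 := fun r hr => (add_pos_of_nonneg_of_pos hr.1 hL0).ne'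
    refine hasDerivAt_int_loc (F := fun τ r => R.DerM_U τ r / (r + L t))
      (F' := fun τ r => dt R.DerM_U τ r / (r + L t)) hb0 one_pos ?_ ?_ ?_
    · intro τ _
      exact (R.DerM_U_sm.cont_r τ).continuousOn.div (by fun_prop) hne
    · refine hUtc.continuousOn.div (by fun_prop) ?_
      intro p hp
      exact hne p.2 hp.2
    · intro τ _ r _
      exact (R.DerM_U_sm.hasDerivAt_t τ r).div_const _
  -- variation of the scale
  have hvar : HasDerivAt (fun τ => -(L τ - L t) *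
      ∫ r in (0 : ℝ)..b, R.DerM_U τ r / ((r + L τ) * (r + L t)))
      (-L' * ∫ r in (0 : ℝ)..b, R.DerM_U t r / ((r + L t) * (r + L t))) t := by
    refine DerM_mul_zero (f := fun τ => -(L τ - L t)) ?_ (by simp)
      (DerM_cont hUc hb0 hL.continuousAt hL0)
    exact (hL.sub_const _).neg
  have hsum := hfix.add hvar
  have hev : (fun τ => (R.pre τ).M b (L τ)) =ᶠ[𝓝 t]
      ((fun τ => ∫ r in (0 : ℝ)..b, R.DerM_U τ r / (r + L t)) + fun τ => -(L τ - L t) *
      ∫ r in (0 : ℝ)..b, R.DerM_U τ r / ((r + L τ) * (r + L t))) := by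
    have hpos : ∀ᶠ τ in 𝓝 t, 0 < L τ := hL.continuousAt.eventually (lt_mem_nhds hL0)
    filter_upwards [hpos] with τ hτ
    have hne : ∀ r ∈ uIcc 0 b, r + L t ≠ 0 := fun r hr => by
      rw [uIcc_of_le hb0] at hr
      exact (add_pos_of_nonneg_of_pos hr.1 hL0).ne'
    have hne' : ∀ r ∈ uIcc 0 b, r + L τ ≠ 0 := fun r hr => by
      rw [uIcc_of_le hb0] at hr
      exact (add_pos_of_nonneg_of_pos hr.1 hτ).ne'
    have hi1 : IntervalIntegrable (fun r => R.DerM_U τ r / (r + L t)) volume 0 b :=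
      ((R.DerM_U_sm.cont_r τ).continuousOn.div (by fun_prop) hne).intervalIntegrable
    have hi2 : IntervalIntegrable (fun r => R.DerM_U τ r / ((r + L τ) * (r + L t))) volume 0 b :=
      ((R.DerM_U_sm.cont_r τ).continuousOn.div (by fun_prop)
        (fun r hr => mul_ne_zero (hne' r hr) (hne r hr))).intervalIntegrable
    simp only [Pi.add_apply]
    rw [← intervalIntegral.integral_const_mul, ← intervalIntegral.integral_add hi1
      (hi2.const_mul _)]
    apply intervalIntegral.integral_congr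
    intro r hr
    have h1 := hne r hr
    have h2 := hne' r hr
    simp only [pre, DerM_U]
    field_simp
    ring
  refine (hsum.congr_of_eventuallyEq hev).congr_deriv ?_
  -- identification of the derivative
  have hne : ∀ r ∈ uIcc 0 b, r + L t ≠ 0 := fun r hr => by
    rw [uIcc_of_le hb0] at hr
    exact (add_pos_of_nonneg_of_pos hr.1 hL0).ne'
  have hi1 : IntervalIntegrable (fun r => dt R.DerM_U t r / (r + L t)) volume 0 b :=
    ((R.DerM_U_sm.dt.cont_r t).continuousOn.div (by fun_prop) hne).intervalIntegrable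
  have hi2 : IntervalIntegrable (fun r => R.DerM_U t r / ((r + L t) * (r + L t))) volume 0 b :=
    ((R.DerM_U_sm.cont_r t).continuousOn.div (by fun_prop)
      (fun r hr => mul_ne_zero (hne r hr) (hne r hr))).intervalIntegrable
  have hneI : ∀ r ∈ Icc 0 b, r + L t ≠ 0 := fun r hr => (add_pos_of_nonneg_of_pos hr.1 hL0).ne'
  have c1 : Continuous (R.w t) := R.w_sm.cont_r t
  have c2 : Continuous (dr R.w t) := R.w_sm.dr.cont_r t
  have c3 : Continuous (dt R.w t) := R.w_sm.dt.cont_r t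
  have c4 : Continuous (dr (dr R.w) t) := R.w_sm.dr.dr.cont_r t
  have c5 : Continuous (dr (dt R.w) t) := R.w_sm.dt.dr.cont_r t
  have c6 : Continuous (R.mu t) := R.mu_sm.cont_r t
  have c7 : Continuous (R.c t) := R.c_sm.cont_r t
  have c8 : Continuous (R.s t) := R.s_sm.cont_r t
  have c9 : Continuous (R.y t) := R.y_sm.cont_r t
  have c10 : Continuous (dr R.f t) := R.sf.dr.cont_r t
  have hGc : ContinuousOn (R.DerM_Gd t (L t)) (Icc 0 b) := by
    unfold DerM_Gd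
    refine ContinuousOn.add (ContinuousOn.div ?_ (by fun_prop)
      (fun r hr => pow_ne_zero 2 (hneI r hr))) (ContinuousOn.div ?_ (by fun_prop)
      (fun r hr => pow_ne_zero 2 (pow_ne_zero 2 (hneI r hr))))
    · exact Continuous.continuousOn (by fun_prop)
    · exact Continuous.continuousOn (by fun_prop)
  have hG : ∫ r in (0 : ℝ)..b, R.DerM_Gd t (L t) r = 0 := by
    rw [ftc (F := R.DerM_G t (L t)) hb0]
    · obtain ⟨-, -, -, -, hw0, -⟩ := R.supp ht (le_refl (R0 + T))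
      obtain ⟨hd1, hd2, -⟩ := R.supp_deriv ht (le_refl (R0 + T))
      rw [← hb] at hw0 hd1 hd2
      simp only [DerM_G, hw0, hd1, hd2, R.w_zero]
      norm_num
    · intro r hr
      exact (R.DerM_dG t (L t) r (hneI r hr)).continuousAt.continuousWithinAt
    · exact hGc
    · intro r hr
      exact R.DerM_dG t (L t) r (hneI r ⟨hr.1.le, hr.2.le⟩)
  have hGi : IntervalIntegrable (R.DerM_Gd t (L t)) volume 0 b := by
    rw [← uIcc_of_le hb0] at hGc
    exact hGc.intervalIntegrable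
  have e1 : (∫ r in (0 : ℝ)..b, dt R.DerM_U t r / (r + L t)) +
      -L' * ∫ r in (0 : ℝ)..b, R.DerM_U t r / ((r + L t) * (r + L t)) =
      ∫ r in (0 : ℝ)..b, (dt R.DerM_U t r / (r + L t) +
        -L' * (R.DerM_U t r / ((r + L t) * (r + L t))) - R.DerM_Gd t (L t) r) := by
    rw [intervalIntegral.integral_sub (hi1.add (hi2.const_mul _)) hGi, hG, sub_zero,
      intervalIntegral.integral_add hi1 (hi2.const_mul _),
      intervalIntegral.integral_const_mul]
  rw [e1]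
  apply intervalIntegral.integral_congr_ae
  refine Eventually.of_forall (fun r hr => ?_)
  rw [uIoc_of_le hb0] at hr
  have hr0 : 0 < r := hr.1
  have hD : r + L t ≠ 0 := (add_pos hr0 hL0).ne'
  have key := DerM_key r (L t) (dt R.w t r) (dr R.w t r) (dr (dr R.w) t r) (dr (dt R.w) t r)
    (R.w t r) (R.w1 t r) (R.c t r) (R.s t r) (R.mu t r) (R.g t r) (R.e t r) (R.y t r)
    (dr R.f t r) (dt (dt R.w) t r) hD (R.r_w1 t r).symm (R.fr_eq t r) (by
      rw [R.wtt_eq ht hr0])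
  have hGd : R.DerM_Gd t (L t) r = _ := key.symm
  rw [R.DerM_dtU, hGd]
  have m1 : (4 : ℝ) + r * R.al t r = R.mu t r := rfl
  have m2 : Real.cos (R.f t r) = R.c t r := rfl
  have m3 : Real.sin (R.f t r) = R.s t r := rfl
  simp only [pre, Pre.m3, Pre.A, DerM_U, m1, m2, m3]
  have hU2 : dt R.w t r * (r ^ 2 * dr R.w t r + r / 2 * R.w t r) / ((r + L t) * (r + L t)) =
      (r / (r + L t) ^ 2) * (r * dt R.w t r * dr R.w t r + (1 / 2) * dt R.w t r * R.w t r) := by
    field_simp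
  rw [hU2]
  ring

end Rad

end H72GS

end S_DerM

section S_StA

/-!
# StA: first consequences of the slice relations

Proof sketches (`ε = eps = 10⁻²²`, `R1 ≤ 1/1000`).
* `a_abs`: `a(r) = ∫_0^r s (y - 1 + cos f)`, `|∫ s y| ≤ (∫ s)^{1/2} (∫ s y²)^{1/2} ≤ r ε`,
  `|∫ s (cos f - 1)| ≤ r²`, so `|a| ≤ R1 (ε + R1) ≤ 2·10⁻⁶` (FTC: derivative only on `(0, r)`,
  `a` continuous, `a 0 = 0`).
* `A_ge`: `A = 1 + μ² - 2 μ cos f ≥ (μ - 1)²`, `μ = 4 + a ≥ 3.999`.
* `X_split`: drop `r²(1 - cos f) w1² ≥ 0`, use `A ≥ 8`.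
* `w_abs`: `w(r)² = ∫_0^r 2 w wr ≤ ∫_0^r (w²/s + s wr²) = ∫_0^r s (w1² + wr²) ≤ X` (`w = s w1`).
* products: `2 |u v| ≤ κ u² + v²/κ`, `κ = √8` (rational `κ = 14/5` is enough:
  `|wt| |w1| ≤ (wt² /(14/5) + (14/5) w1²)/2 ≤ (wt² + 8 w1²)/5`).
-/

namespace H72GS

open Set MeasureTheory intervalIntegral

variable {R1 : ℝ} {p : Pre}

private theorem StA_eps : (eps : ℝ) ^ 2 ≤ 1 / 10 ^ 6 := by
  unfold eps
  norm_num

/-- the integral of the identity -/
private theorem StA_int_id (r : ℝ) : ∫ s in (0 : ℝ)..r, s = r ^ 2 / 2 := by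
  rw [integral_id]; ring

theorem En_parts (hs : IsSlice R1 p) (hE : p.En R1 ≤ eps ^ 2) :
    ∫ r in (0 : ℝ)..R1, r * p.g r ^ 2 ≤ eps ^ 2 ∧ ∫ r in (0 : ℝ)..R1, r * p.w r ^ 2 ≤ eps ^ 2 ∧
      ∫ r in (0 : ℝ)..R1, r * p.y r ^ 2 ≤ eps ^ 2 ∧ ∫ r in (0 : ℝ)..R1, r * p.e r ^ 2 ≤ eps ^ 2 := by
  have hR := hs.R1pos.le
  have cg := hs.cg
  have ce := hs.ce
  have cw := hs.cw
  have cy := hs.cy
  have key : ∀ u : ℝ → ℝ, Continuous u →
      (∀ r, u r ^ 2 ≤ p.g r ^ 2 + p.e r ^ 2 + p.w r ^ 2 + p.y r ^ 2) →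
      ∫ r in (0 : ℝ)..R1, r * u r ^ 2 ≤ eps ^ 2 := by
    intro u hu hle
    refine le_trans ?_ hE
    unfold Pre.En
    apply intervalIntegral.integral_mono_on hR
    · exact Continuous.intervalIntegrable (by fun_prop) _ _
    · exact Continuous.intervalIntegrable (by fun_prop) _ _
    · intro r hr
      exact mul_le_mul_of_nonneg_left (hle r) hr.1
  refine ⟨key _ cg fun r => ?_, key _ cw fun r => ?_, key _ cy fun r => ?_, key _ ce fun r => ?_⟩ <;>
    nlinarith [sq_nonneg (p.g r), sq_nonneg (p.e r), sq_nonneg (p.w r), sq_nonneg (p.y r)]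

theorem a_abs (hs : IsSlice R1 p) (hE : p.En R1 ≤ eps ^ 2) :
    ∀ r ∈ Icc 0 R1, |p.a r| ≤ 1 / 100000 := by
  intro r hr
  have cy := hs.cy
  have cf := hs.cf
  have hcc : Continuous (fun s => s * (p.y s - 1 + Real.cos (p.f s))) := by
    have := Real.continuous_cos.comp cf
    fun_prop
  have hftc : ∫ s in (0 : ℝ)..r, s * (p.y s - 1 + Real.cos (p.f s)) = p.a r - p.a 0 :=
    intervalIntegral.integral_eq_sub_of_hasDerivAt_of_le hr.1 hs.ca.continuousOn
      (fun s hs' => hs.da s hs'.1) (hcc.intervalIntegrable _ _)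
  rw [hs.a0, sub_zero] at hftc
  rw [← hftc]
  have h1 : |∫ s in (0 : ℝ)..r, s * (p.y s - 1 + Real.cos (p.f s))| ≤
      ∫ s in (0 : ℝ)..r, |s * (p.y s - 1 + Real.cos (p.f s))| :=
    intervalIntegral.abs_integral_le_integral_abs hr.1
  have h2 : ∫ s in (0 : ℝ)..r, |s * (p.y s - 1 + Real.cos (p.f s))| ≤
      ∫ s in (0 : ℝ)..r, (s * p.y s ^ 2 + 3 * s) := by
    apply intervalIntegral.integral_mono_on hr.1
    · exact hcc.abs.intervalIntegrable _ _
    · exact Continuous.intervalIntegrable (by fun_prop) _ _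
    · intro s hs'
      rw [abs_mul, abs_of_nonneg hs'.1]
      have h3 : |p.y s - 1 + Real.cos (p.f s)| ≤ p.y s ^ 2 + 3 := by
        have c1 := Real.neg_one_le_cos (p.f s)
        have c2 := Real.cos_le_one (p.f s)
        rw [abs_le]
        constructor <;> nlinarith [sq_nonneg (p.y s - 1), sq_nonneg (p.y s + 1)]
      calc s * |p.y s - 1 + Real.cos (p.f s)| ≤ s * (p.y s ^ 2 + 3) :=
            mul_le_mul_of_nonneg_left h3 hs'.1
        _ = s * p.y s ^ 2 + 3 * s := by ring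
  have h3 : ∫ s in (0 : ℝ)..r, (s * p.y s ^ 2 + 3 * s) =
      (∫ s in (0 : ℝ)..r, s * p.y s ^ 2) + 3 * (r ^ 2 / 2) := by
    rw [intervalIntegral.integral_add, intervalIntegral.integral_const_mul, StA_int_id]
    · exact Continuous.intervalIntegrable (by fun_prop) _ _
    · exact Continuous.intervalIntegrable (by fun_prop) _ _
  have h4 : ∫ s in (0 : ℝ)..r, s * p.y s ^ 2 ≤ ∫ s in (0 : ℝ)..R1, s * p.y s ^ 2 :=
    int_mono_set le_rfl hr.1 hr.2 (Continuous.continuousOn (by fun_prop))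
      (fun x hx => mul_nonneg hx.1 (sq_nonneg _))
  have h5 := (En_parts hs hE).2.2.1
  have h6 := StA_eps
  have h7 : r ≤ 1 / 1000 := hr.2.trans hs.R1le
  have h8 : r ^ 2 ≤ 1 / 10 ^ 6 := by nlinarith [hr.1]
  norm_num at h6 h8 ⊢
  linarith

theorem A_ge (hs : IsSlice R1 p) (hE : p.En R1 ≤ eps ^ 2) :
    ∀ r ∈ Icc 0 R1, 89 / 10 ≤ p.A r ∧ p.A r ≤ 26 := by
  intro r hr
  have h := abs_le.1 (a_abs hs hE r hr)
  have c1 := Real.neg_one_le_cos (p.f r)
  have c2 := Real.cos_le_one (p.f r)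
  unfold Pre.A
  constructor
  · nlinarith [mul_nonneg (by linarith : 0 ≤ 4 + p.a r) (by linarith : 0 ≤ 1 - Real.cos (p.f r))]
  · nlinarith [mul_nonneg (by linarith : 0 ≤ 4 + p.a r) (by linarith : 0 ≤ 1 + Real.cos (p.f r))]

theorem X_split (hs : IsSlice R1 p) (hE : p.En R1 ≤ eps ^ 2) :
    (∫ r in (0 : ℝ)..R1, r * p.wt r ^ 2) + (∫ r in (0 : ℝ)..R1, r * p.wr r ^ 2)
      + 8 * (∫ r in (0 : ℝ)..R1, r * p.w1 r ^ 2) ≤ p.X R1 := by
  have hR := hs.R1pos.le
  have cwt := hs.cwt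
  have cwr := hs.cwr
  have cw1 := hs.cw1
  have ca := hs.ca
  have hcos : Continuous (fun r => Real.cos (p.f r)) := Real.continuous_cos.comp hs.cf
  have e1 : (∫ r in (0 : ℝ)..R1, r * p.wt r ^ 2) + (∫ r in (0 : ℝ)..R1, r * p.wr r ^ 2)
      + 8 * (∫ r in (0 : ℝ)..R1, r * p.w1 r ^ 2) =
      ∫ r in (0 : ℝ)..R1, (r * p.wt r ^ 2 + r * p.wr r ^ 2 + 8 * (r * p.w1 r ^ 2)) := by
    rw [intervalIntegral.integral_add, intervalIntegral.integral_add,
      intervalIntegral.integral_const_mul]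
    · exact Continuous.intervalIntegrable (by fun_prop) _ _
    · exact Continuous.intervalIntegrable (by fun_prop) _ _
    · exact Continuous.intervalIntegrable (by fun_prop) _ _
    · exact Continuous.intervalIntegrable (by fun_prop) _ _
  rw [e1]
  unfold Pre.X
  apply intervalIntegral.integral_mono_on hR
  · exact Continuous.intervalIntegrable (by fun_prop) _ _
  · refine Continuous.intervalIntegrable ?_ _ _
    unfold Pre.A
    fun_prop
  · intro r hr
    have hA := (A_ge hs hE r hr).1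
    have c2 := Real.cos_le_one (p.f r)
    have h1 : 8 ≤ p.A r + r ^ 2 * (1 - Real.cos (p.f r)) := by
      have := mul_nonneg (sq_nonneg r) (by linarith : 0 ≤ 1 - Real.cos (p.f r))
      linarith
    have h2 := mul_le_mul_of_nonneg_right h1 (sq_nonneg (p.w1 r))
    have h3 := mul_le_mul_of_nonneg_left h2 hr.1
    nlinarith

private theorem StA_nn (hs : IsSlice R1 p) (u : ℝ → ℝ) : 0 ≤ ∫ r in (0 : ℝ)..R1, r * u r ^ 2 :=
  intervalIntegral.integral_nonneg hs.R1pos.le (fun r hr => mul_nonneg hr.1 (sq_nonneg _))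

theorem X_nonneg (hs : IsSlice R1 p) (hE : p.En R1 ≤ eps ^ 2) : 0 ≤ p.X R1 := by
  have h := X_split hs hE
  have h1 := StA_nn hs p.wt
  have h2 := StA_nn hs p.wr
  have h3 := StA_nn hs p.w1
  linarith

/-- each part separately -/
theorem X_parts (hs : IsSlice R1 p) (hE : p.En R1 ≤ eps ^ 2) :
    ∫ r in (0 : ℝ)..R1, r * p.wt r ^ 2 ≤ p.X R1 ∧ ∫ r in (0 : ℝ)..R1, r * p.wr r ^ 2 ≤ p.X R1 ∧
      ∫ r in (0 : ℝ)..R1, r * p.w1 r ^ 2 ≤ p.X R1 / 8 := by
  have h := X_split hs hE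
  have h1 := StA_nn hs p.wt
  have h2 := StA_nn hs p.wr
  have h3 := StA_nn hs p.w1
  refine ⟨by linarith, by linarith, by linarith⟩

theorem w_abs (hs : IsSlice R1 p) (hE : p.En R1 ≤ eps ^ 2) :
    ∀ r ∈ Icc 0 R1, |p.w r| ≤ Real.sqrt (p.X R1) := by
  intro r hr
  apply Real.abs_le_sqrt
  have cw := hs.cw
  have cwr := hs.cwr
  have cw1 := hs.cw1
  have hw0 : p.w 0 = 0 := by rw [hs.hw1 0, zero_mul]
  have hftc : ∫ s in (0 : ℝ)..r, 2 * p.w s * p.wr s = p.w r ^ 2 - p.w 0 ^ 2 := by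
    apply intervalIntegral.integral_eq_sub_of_hasDerivAt
    · intro s _
      have := (hs.dw s).pow 2
      have e : ((2 : ℕ) : ℝ) * p.w s ^ (2 - 1) * p.wr s = 2 * p.w s * p.wr s := by norm_num
      rw [e] at this
      exact this
    · exact Continuous.intervalIntegrable (by fun_prop) _ _
  rw [hw0] at hftc
  have h1 : ∫ s in (0 : ℝ)..r, 2 * p.w s * p.wr s ≤
      ∫ s in (0 : ℝ)..r, (s * p.w1 s ^ 2 + s * p.wr s ^ 2) := by
    apply intervalIntegral.integral_mono_on hr.1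
    · exact Continuous.intervalIntegrable (by fun_prop) _ _
    · exact Continuous.intervalIntegrable (by fun_prop) _ _
    · intro s hs'
      rw [hs.hw1 s]
      nlinarith [mul_nonneg hs'.1 (sq_nonneg (p.w1 s - p.wr s))]
  have h2 : ∫ s in (0 : ℝ)..r, (s * p.w1 s ^ 2 + s * p.wr s ^ 2) ≤
      ∫ s in (0 : ℝ)..R1, (s * p.w1 s ^ 2 + s * p.wr s ^ 2) :=
    int_mono_set le_rfl hr.1 hr.2 (Continuous.continuousOn (by fun_prop))
      (fun x hx => add_nonneg (mul_nonneg hx.1 (sq_nonneg _)) (mul_nonneg hx.1 (sq_nonneg _)))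
  have h3 : ∫ s in (0 : ℝ)..R1, (s * p.w1 s ^ 2 + s * p.wr s ^ 2) =
      (∫ s in (0 : ℝ)..R1, s * p.w1 s ^ 2) + ∫ s in (0 : ℝ)..R1, s * p.wr s ^ 2 := by
    rw [intervalIntegral.integral_add]
    · exact Continuous.intervalIntegrable (by fun_prop) _ _
    · exact Continuous.intervalIntegrable (by fun_prop) _ _
  have h := X_split hs hE
  have n1 := StA_nn hs p.wt
  have n3 := StA_nn hs p.w1
  linarith

/-- general quadratic form bound -/
private theorem StA_quad (hs : IsSlice R1 p) {u : ℝ → ℝ} (hu : Continuous u) {α β γ : ℝ}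
    (h : ∀ r, u r ≤ α * p.wt r ^ 2 + β * p.wr r ^ 2 + γ * p.w1 r ^ 2) :
    ∫ r in (0 : ℝ)..R1, r * u r ≤ α * (∫ r in (0 : ℝ)..R1, r * p.wt r ^ 2)
      + β * (∫ r in (0 : ℝ)..R1, r * p.wr r ^ 2) + γ * (∫ r in (0 : ℝ)..R1, r * p.w1 r ^ 2) := by
  have cwt := hs.cwt
  have cwr := hs.cwr
  have cw1 := hs.cw1
  have e1 : α * (∫ r in (0 : ℝ)..R1, r * p.wt r ^ 2)
      + β * (∫ r in (0 : ℝ)..R1, r * p.wr r ^ 2) + γ * (∫ r in (0 : ℝ)..R1, r * p.w1 r ^ 2) =
      ∫ r in (0 : ℝ)..R1, (α * (r * p.wt r ^ 2) + β * (r * p.wr r ^ 2) + γ * (r * p.w1 r ^ 2)) := by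
    rw [intervalIntegral.integral_add, intervalIntegral.integral_add,
      intervalIntegral.integral_const_mul, intervalIntegral.integral_const_mul,
      intervalIntegral.integral_const_mul]
    · exact Continuous.intervalIntegrable (by fun_prop) _ _
    · exact Continuous.intervalIntegrable (by fun_prop) _ _
    · exact Continuous.intervalIntegrable (by fun_prop) _ _
    · exact Continuous.intervalIntegrable (by fun_prop) _ _
  rw [e1]
  apply intervalIntegral.integral_mono_on hs.R1pos.le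
  · exact Continuous.intervalIntegrable (by fun_prop) _ _
  · exact Continuous.intervalIntegrable (by fun_prop) _ _
  · intro r hr
    have := mul_le_mul_of_nonneg_left (h r) hr.1
    linarith

theorem X_prods (hs : IsSlice R1 p) (hE : p.En R1 ≤ eps ^ 2) :
    ∫ r in (0 : ℝ)..R1, r * (|p.wt r| * |p.w1 r|) ≤ p.X R1 / 5 ∧
      ∫ r in (0 : ℝ)..R1, r * (|p.wr r| * |p.w1 r|) ≤ p.X R1 / 5 ∧
      ∫ r in (0 : ℝ)..R1, r * (|p.wt r| * |p.wr r|) ≤ p.X R1 / 2 := by
  have cwt := hs.cwt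
  have cwr := hs.cwr
  have cw1 := hs.cw1
  have h := X_split hs hE
  have n1 := StA_nn hs p.wt
  have n2 := StA_nn hs p.wr
  have n3 := StA_nn hs p.w1
  refine ⟨?_, ?_, ?_⟩
  · have := StA_quad hs (u := fun r => |p.wt r| * |p.w1 r|) (by fun_prop) (α := 1 / 5) (β := 0)
      (γ := 8 / 5) (fun r => by
        rw [← sq_abs (p.wt r), ← sq_abs (p.w1 r)]
        nlinarith [sq_nonneg (|p.wt r| - 5 / 2 * |p.w1 r|), sq_nonneg (|p.w1 r|)])
    linarith
  · have := StA_quad hs (u := fun r => |p.wr r| * |p.w1 r|) (by fun_prop) (α := 0) (β := 1 / 5)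
      (γ := 8 / 5) (fun r => by
        rw [← sq_abs (p.wr r), ← sq_abs (p.w1 r)]
        nlinarith [sq_nonneg (|p.wr r| - 5 / 2 * |p.w1 r|), sq_nonneg (|p.w1 r|)])
    linarith
  · have := StA_quad hs (u := fun r => |p.wt r| * |p.wr r|) (by fun_prop) (α := 1 / 2) (β := 1 / 2)
      (γ := 0) (fun r => by
        rw [← sq_abs (p.wt r), ← sq_abs (p.wr r)]
        nlinarith [sq_nonneg (|p.wt r| - |p.wr r|)])
    linarith

/-- the combination appearing with the multiplier -/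
theorem X_wtprod (hs : IsSlice R1 p) (hE : p.En R1 ≤ eps ^ 2) :
    ∫ r in (0 : ℝ)..R1, r * (|p.wt r| * (|p.wr r| + (1 / 2) * |p.w1 r|)) ≤ (59 / 100) * p.X R1 := by
  have cwt := hs.cwt
  have cwr := hs.cwr
  have cw1 := hs.cw1
  have h := X_split hs hE
  have := StA_quad hs (u := fun r => |p.wt r| * (|p.wr r| + (1 / 2) * |p.w1 r|)) (by fun_prop)
    (α := 59 / 100) (β := 59 / 100) (γ := 59 / 100 * 8) (fun r => by
      rw [← sq_abs (p.wt r), ← sq_abs (p.wr r), ← sq_abs (p.w1 r)]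
      nlinarith [sq_nonneg (|p.wr r| - 50 / 59 * |p.wt r|), sq_nonneg (|p.wt r| - 2 * |p.w1 r|),
        sq_nonneg (|p.wt r|), sq_nonneg (|p.w1 r|)])
  linarith

end H72GS

end S_StA

section S_StF

/-!
# StF: shape of the angle, energy level

`lam` is a point with `f lam = π/2`.  Right of it `u = tan (f/2)` solves
`u' = -μ u / r + (1/2)(1+u²) w`, so `v = r³ u` solves `v' = -((μ-3)/r) v + r³ (1/2)(1+u²) w` (damped).
As long as `|f| ≤ 2`: `(1/2)(1+u²) ≤ (1/2)(1 + tan² 1) ≤ 9/5`, so by `damp_fwd`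
`|u(r)| ≤ (lam/r)³ + (9/5) r⁻³ ∫_lam^r s³ |w|`, and by `pw3` this is `≤ (lam/r)³ + eps`, hence
`|u| ≤ 1 + eps < tan 1` and `|f| < 2`: continuous induction `cont_ind` with `h = |f|`, `c = 2`.
Left of it use `f' = π - f`, `u = tan ((π - f)/2)`, `u' = μ u / r - (1/2)(1+u²) w`,
`v = u / r³`, `v' = ((μ-3)/r) v - r⁻³ (1/2)(1+u²) w` and `damp_bwd`, `pwm3`, `cont_ind_bwd`.
(`tan 1 < 8/5` and `1 + (8/5)² ≤ 18/5`; `|w|` in the integrals, `∫_0^{R1} r w² ≤ eps²`.)
-/

namespace H72GS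

open Set MeasureTheory intervalIntegral

variable {R1 : ℝ} {p : Pre}

theorem exists_lam (hs : IsSlice R1 p) :
    ∃ lam : ℝ, 0 < lam ∧ lam < R1 ∧ p.f lam = Real.pi / 2 := by
  have h1 : Icc (p.f R1) (p.f 0) ⊆ p.f '' Icc 0 R1 :=
    intermediate_value_Icc' hs.R1pos.le hs.cf.continuousOn
  have h2 : Real.pi / 2 ∈ Icc (p.f R1) (p.f 0) := by
    rw [hs.fR, hs.f0]
    constructor <;> linarith [Real.pi_pos]
  obtain ⟨lam, hl, hfl⟩ := h1 h2
  refine ⟨lam, lt_of_le_of_ne hl.1 ?_, lt_of_le_of_ne hl.2 ?_, hfl⟩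
  · rintro rfl
    rw [hs.f0] at hfl
    linarith [Real.pi_pos]
  · rintro rfl
    rw [hs.fR] at hfl
    linarith [Real.pi_pos]

private lemma StF_cos1 : (27 : ℝ) / 50 ≤ Real.cos 1 + 27/5000 := by
  have h1 : |Real.cos (1/4) - (1 - (1/4:ℝ) ^ 2 / 2)| ≤ |(1/4:ℝ)| ^ 4 * (5 / 96) :=
    Real.cos_bound (by rw [abs_of_nonneg] <;> norm_num)
  rw [abs_of_nonneg (by norm_num : (0:ℝ) ≤ 1/4)] at h1
  have h2 := (abs_le.1 h1).1
  have h3 : Real.cos (1/2) = 2 * Real.cos (1/4) ^ 2 - 1 := by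
    rw [← Real.cos_two_mul]; norm_num
  have h4 : Real.cos 1 = 2 * Real.cos (1/2) ^ 2 - 1 := by
    rw [← Real.cos_two_mul]; norm_num
  have h5 : (0.9685:ℝ) ≤ Real.cos (1/4) := by norm_num at h2 ⊢; linarith
  have h6 : (0.8759:ℝ) ≤ Real.cos (1/2) := by rw [h3]; nlinarith
  rw [h4]; nlinarith

private lemma StF_half {x : ℝ} (h : |x| ≤ 2) :
    0 < Real.cos (x / 2) ∧ (1 + Real.tan (x / 2) ^ 2) / 2 ≤ 9 / 5 := by
  have h1 : Real.cos 1 ≤ Real.cos (x / 2) := by
    rw [← Real.cos_abs (x/2)]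
    apply Real.cos_le_cos_of_nonneg_of_le_pi (abs_nonneg _) (by linarith [Real.pi_gt_three])
    rw [abs_div, abs_of_pos (by norm_num : (0:ℝ) < 2)]
    linarith
  have h2 := StF_cos1
  have h3 : (0.5346:ℝ) ≤ Real.cos (x/2) := by norm_num at h2 ⊢; linarith
  have h4 : 0 < Real.cos (x/2) := by linarith
  refine ⟨h4, ?_⟩
  have h5 := Real.inv_one_add_tan_sq h4.ne'
  have h6 : 0 < 1 + Real.tan (x/2) ^ 2 := by positivity
  have h7 : 1 + Real.tan (x/2) ^ 2 = (Real.cos (x/2) ^ 2)⁻¹ := by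
    rw [← h5, inv_inv]
  rw [h7]
  have h8 : (5:ℝ)/18 ≤ Real.cos (x/2) ^ 2 := by nlinarith
  have h9 : (Real.cos (x/2) ^ 2)⁻¹ ≤ ((5:ℝ)/18)⁻¹ := inv_anti₀ (by norm_num) h8
  norm_num at h9 ⊢
  linarith

private lemma StF_tan1 : 1 + eps < Real.tan 1 := by
  have h1 := Real.sin_gt_sub_cube (x := 1) (by norm_num)
  have h2 := Real.cos_one_le
  have h3 := Real.cos_one_pos
  rw [Real.tan_eq_sin_div_cos, lt_div_iff₀ h3]
  have : eps ≤ 1/10 := by unfold eps; norm_num
  have h0 : 0 < eps := by unfold eps; norm_num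
  nlinarith

private lemma StF_lt_two {x : ℝ} (h : |x| ≤ 2) (ht : |Real.tan (x / 2)| ≤ 1 + eps) : |x| < 2 := by
  by_contra hcon
  have hx : |x| = 2 := le_antisymm h (not_lt.1 hcon)
  have h1 : |Real.tan (x/2)| = Real.tan 1 := by
    have hp : 0 < Real.tan 1 := by
      have := StF_tan1
      have h0 : 0 < eps := by unfold eps; norm_num
      linarith
    rcases (abs_eq (by norm_num : (0:ℝ) ≤ 2)).1 hx with h2 | h2
    · rw [h2]; norm_num; exact hp.le
    · rw [h2, neg_div, Real.tan_neg, abs_neg]; norm_num; exact hp.le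
  rw [h1] at ht
  linarith [StF_tan1]

private lemma StF_mono (hs : IsSlice R1 p) (hE : p.En R1 ≤ eps ^ 2) {a b : ℝ} (h0 : 0 ≤ a)
    (hab : a ≤ b) (hb : b ≤ R1) : Real.sqrt ((∫ s in a..b, s * p.w s ^ 2) / 6) ≤ (5/9) * eps := by
  have h1 : ∫ s in a..b, s * p.w s ^ 2 ≤ eps ^ 2 := by
    refine le_trans (int_mono_set h0 hab hb ?_ ?_) (En_parts hs hE).2.1
    · exact (continuous_id.mul (hs.cw.pow 2)).continuousOn
    · intro x hx
      exact mul_nonneg hx.1 (sq_nonneg _)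
  have h2 : 0 < eps := by unfold eps; norm_num
  rw [Real.sqrt_le_iff]
  constructor
  · positivity
  · nlinarith

/-- forward step -/
private lemma StF_far_step (hs : IsSlice R1 p) (hE : p.En R1 ≤ eps ^ 2) {lam x : ℝ} (h0 : 0 < lam)
    (hlx : lam ≤ x) (hxR : x ≤ R1) (hf : p.f lam = Real.pi / 2)
    (hle : ∀ s ∈ Icc lam x, |p.f s| ≤ 2) :
    |Real.tan (p.f x / 2)| ≤ (lam / x) ^ 3 + (9 / 5) * (1 / x ^ 3) * ∫ s in lam..x, s ^ 3 * |p.w s| := by
  have hx0 : 0 < x := lt_of_lt_of_le h0 hlx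
  have hcos : ∀ s ∈ Icc lam x, Real.cos (p.f s / 2) ≠ 0 := fun s hs' => (StF_half (hle s hs')).1.ne'
  have htc : ContinuousOn (fun s => Real.tan (p.f s / 2)) (Icc lam x) := by
    refine Real.continuousOn_tan.comp (hs.cf.div_const 2).continuousOn ?_
    intro s hs'
    exact hcos s hs'
  have hsc : ContinuousOn (fun s => s ^ 3 * ((1 + Real.tan (p.f s / 2) ^ 2) / 2 * p.w s)) (Icc lam x) :=
    ((continuous_id.pow 3).continuousOn).mul
      (((continuousOn_const.add (htc.pow 2)).div_const 2).mul hs.cw.continuousOn)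
  have key := damp_fwd (v := fun s => s ^ 3 * Real.tan (p.f s / 2)) (c := fun s => (1 + p.a s) / s)
    (s := fun s => s ^ 3 * ((1 + Real.tan (p.f s / 2) ^ 2) / 2 * p.w s)) hlx ?_ ?_ hsc
  · have hI : ∫ s in lam..x, |s ^ 3 * ((1 + Real.tan (p.f s / 2) ^ 2) / 2 * p.w s)| ≤
        ∫ s in lam..x, (9/5) * (s ^ 3 * |p.w s|) := by
      apply intervalIntegral.integral_mono_on hlx
      · exact (ContinuousOn.intervalIntegrable (by rw [uIcc_of_le hlx]; exact hsc.abs))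
      · exact (((continuous_id.pow 3).mul hs.cw.abs).const_mul _).intervalIntegrable _ _
      · intro s hs'
        have hs0 : 0 < s := lt_of_lt_of_le h0 hs'.1
        rw [abs_mul, abs_mul, abs_of_pos (by positivity : 0 < s ^ 3),
          abs_of_nonneg (by positivity : 0 ≤ (1 + Real.tan (p.f s / 2) ^ 2) / 2)]
        have := (StF_half (hle s hs')).2
        have h3 : 0 ≤ s ^ 3 * |p.w s| := by positivity
        nlinarith
    have h4 : Real.tan (p.f lam / 2) = 1 := by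
      rw [hf, div_div]; norm_num
    simp only [h4, mul_one] at key
    rw [intervalIntegral.integral_const_mul] at hI
    rw [abs_mul, abs_of_pos (by positivity : 0 < x ^ 3), abs_of_pos (by positivity : 0 < lam ^ 3)] at key
    have h5 : x ^ 3 * |Real.tan (p.f x / 2)| ≤ lam ^ 3 + 9 / 5 * ∫ s in lam..x, s ^ 3 * |p.w s| :=
      key.trans (by linarith)
    have h6 : (lam / x) ^ 3 + (9 / 5) * (1 / x ^ 3) * (∫ s in lam..x, s ^ 3 * |p.w s|) =
        (lam ^ 3 + 9 / 5 * ∫ s in lam..x, s ^ 3 * |p.w s|) / x ^ 3 := by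
      field_simp
    rw [h6, le_div_iff₀ (by positivity)]
    linarith
  · intro s hs'
    have hs0 : 0 < s := lt_of_lt_of_le h0 hs'.1
    have hC := hcos s hs'
    have h1 : HasDerivAt (fun s => p.f s / 2) ((p.w s - (4 + p.a s) * Real.sin (p.f s) / s) / 2) s :=
      (hs.df s hs0).div_const 2
    have h2 := (Real.hasDerivAt_tan hC).comp s h1
    have h3 := (hasDerivAt_pow 3 s).mul h2
    refine h3.congr_deriv ?_
    have e1 : Real.sin (p.f s) = 2 * Real.sin (p.f s / 2) * Real.cos (p.f s / 2) := by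
      rw [← Real.sin_two_mul]; congr 1; ring
    have e2 := Real.sin_sq_add_cos_sq (p.f s / 2)
    have e3 : 1 + Real.tan (p.f s / 2) ^ 2 = 1 / Real.cos (p.f s / 2) ^ 2 := by
      rw [one_div, ← Real.inv_one_add_tan_sq hC, inv_inv]
    show ((3:ℕ):ℝ) * s ^ (3 - 1) * Real.tan (p.f s / 2) + s ^ 3 * (1 / Real.cos (p.f s / 2) ^ 2 *
      ((p.w s - (4 + p.a s) * Real.sin (p.f s) / s) / 2)) = -((1 + p.a s) / s) *
      (s ^ 3 * Real.tan (p.f s / 2)) + s ^ 3 * ((1 + Real.tan (p.f s / 2) ^ 2) / 2 * p.w s)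
    rw [e3, e1, Real.tan_eq_sin_div_cos]
    field_simp
    ring
  · intro s hs'
    have hs0 : 0 < s := lt_of_lt_of_le h0 hs'.1
    have := (abs_le.1 (a_abs hs hE s ⟨hs0.le, hs'.2.trans hxR⟩)).1
    apply div_nonneg _ hs0.le
    linarith

private lemma StF_far_eps (hs : IsSlice R1 p) (hE : p.En R1 ≤ eps ^ 2) {lam x : ℝ} (h0 : 0 < lam)
    (hlx : lam ≤ x) (hxR : x ≤ R1) :
    (9 / 5) * (1 / x ^ 3) * (∫ s in lam..x, s ^ 3 * |p.w s|) ≤ eps := by
  have hx0 : 0 < x := lt_of_lt_of_le h0 hlx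
  have h1 := pw3 h0 hlx (G := p.w) hs.cw.continuousOn
  have h2 := StF_mono hs hE h0.le hlx hxR
  have h3 : ∫ s in lam..x, s ^ 3 * |p.w s| ≤ x ^ 3 * ((5/9) * eps) :=
    h1.trans (mul_le_mul_of_nonneg_left h2 (by positivity))
  calc (9 / 5) * (1 / x ^ 3) * (∫ s in lam..x, s ^ 3 * |p.w s|)
      ≤ (9 / 5) * (1 / x ^ 3) * (x ^ 3 * ((5/9) * eps)) :=
        mul_le_mul_of_nonneg_left h3 (by positivity)
    _ = eps := by field_simp

theorem far0 (hs : IsSlice R1 p) (hE : p.En R1 ≤ eps ^ 2) {lam : ℝ} (h0 : 0 < lam)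
    (h1 : lam < R1) (hf : p.f lam = Real.pi / 2) :
    ∀ r ∈ Icc lam R1, |p.f r| < 2 ∧ |Real.tan (p.f r / 2)| ≤ (lam / r) ^ 3
      + (9 / 5) * (1 / r ^ 3) * ∫ s in lam..r, s ^ 3 * |p.w s| := by
  have hind : ∀ x ∈ Icc lam R1, |p.f x| < 2 := by
    refine cont_ind (h := fun x => |p.f x|) hs.cf.abs.continuousOn ?_ ?_
    · show |p.f lam| < 2
      rw [hf, abs_of_pos (by linarith [Real.pi_pos])]
      linarith [Real.pi_lt_d2]
    · intro x hx hle
      have hx0 : 0 < x := lt_of_lt_of_le h0 hx.1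
      have h2 := StF_far_step hs hE h0 hx.1 hx.2 hf hle
      have h3 := StF_far_eps hs hE h0 hx.1 hx.2
      have h4 : (lam / x) ^ 3 ≤ 1 := pow_le_one₀ (by positivity) ((div_le_one hx0).2 hx.1)
      exact StF_lt_two (hle x ⟨hx.1, le_refl _⟩) (by linarith)
  intro r hr
  exact ⟨hind r hr, StF_far_step hs hE h0 hr.1 hr.2 hf
    (fun s hs' => (hind s ⟨hs'.1, hs'.2.trans hr.2⟩).le)⟩

/-- backward step -/
private lemma StF_near_step (hs : IsSlice R1 p) (hE : p.En R1 ≤ eps ^ 2) {lam x : ℝ} (hx0 : 0 < x)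
    (hxl : x ≤ lam) (hlR : lam ≤ R1) (hf : p.f lam = Real.pi / 2)
    (hle : ∀ s ∈ Icc x lam, |Real.pi - p.f s| ≤ 2) :
    |Real.tan ((Real.pi - p.f x) / 2)| ≤ (x / lam) ^ 3
      + (9 / 5) * x ^ 3 * ∫ s in x..lam, |p.w s| / s ^ 3 := by
  have h0 : 0 < lam := lt_of_lt_of_le hx0 hxl
  have hcos : ∀ s ∈ Icc x lam, Real.cos ((Real.pi - p.f s) / 2) ≠ 0 :=
    fun s hs' => (StF_half (hle s hs')).1.ne'
  have htc : ContinuousOn (fun s => Real.tan ((Real.pi - p.f s) / 2)) (Icc x lam) := by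
    refine Real.continuousOn_tan.comp ((continuous_const.sub hs.cf).div_const 2).continuousOn ?_
    intro s hs'
    exact hcos s hs'
  have hs3 : ∀ s ∈ Icc x lam, s ^ 3 ≠ 0 := fun s hs' => by
    have : 0 < s := lt_of_lt_of_le hx0 hs'.1
    positivity
  have hsc : ContinuousOn (fun s => -(((1 + Real.tan ((Real.pi - p.f s) / 2) ^ 2) / 2 * p.w s) / s ^ 3))
      (Icc x lam) :=
    ((((continuousOn_const.add (htc.pow 2)).div_const 2).mul hs.cw.continuousOn).div
      (continuous_id.pow 3).continuousOn hs3).neg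
  have key := damp_bwd (v := fun s => Real.tan ((Real.pi - p.f s) / 2) / s ^ 3)
    (c := fun s => (1 + p.a s) / s)
    (s := fun s => -(((1 + Real.tan ((Real.pi - p.f s) / 2) ^ 2) / 2 * p.w s) / s ^ 3)) hxl ?_ ?_ hsc
  · have hI : ∫ s in x..lam, |-(((1 + Real.tan ((Real.pi - p.f s) / 2) ^ 2) / 2 * p.w s) / s ^ 3)| ≤
        ∫ s in x..lam, (9/5) * (|p.w s| / s ^ 3) := by
      apply intervalIntegral.integral_mono_on hxl
      · exact (ContinuousOn.intervalIntegrable (by rw [uIcc_of_le hxl]; exact hsc.abs))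
      · refine ContinuousOn.intervalIntegrable ?_
        rw [uIcc_of_le hxl]
        exact continuousOn_const.mul (hs.cw.abs.continuousOn.div (continuous_id.pow 3).continuousOn hs3)
      · intro s hs'
        have hs0 : 0 < s := lt_of_lt_of_le hx0 hs'.1
        rw [abs_neg, abs_div, abs_mul, abs_of_pos (by positivity : 0 < s ^ 3),
          abs_of_nonneg (by positivity : 0 ≤ (1 + Real.tan ((Real.pi - p.f s) / 2) ^ 2) / 2),
          mul_div_assoc]
        exact mul_le_mul_of_nonneg_right (StF_half (hle s hs')).2 (by positivity)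
    have h4 : Real.tan ((Real.pi - p.f lam) / 2) = 1 := by
      rw [hf]
      have : (Real.pi - Real.pi / 2) / 2 = Real.pi / 4 := by ring
      rw [this, Real.tan_pi_div_four]
    simp only [h4] at key
    rw [intervalIntegral.integral_const_mul] at hI
    rw [abs_div, abs_of_pos (by positivity : 0 < x ^ 3),
      abs_of_pos (by positivity : 0 < 1 / lam ^ 3)] at key
    have h5 : |Real.tan ((Real.pi - p.f x) / 2)| / x ^ 3 ≤
        1 / lam ^ 3 + 9 / 5 * ∫ s in x..lam, |p.w s| / s ^ 3 :=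
      key.trans (by linarith)
    rw [div_le_iff₀ (by positivity)] at h5
    have h6 : (x / lam) ^ 3 + (9 / 5) * x ^ 3 * (∫ s in x..lam, |p.w s| / s ^ 3) =
        (1 / lam ^ 3 + 9 / 5 * ∫ s in x..lam, |p.w s| / s ^ 3) * x ^ 3 := by
      field_simp
    rw [h6]
    exact h5
  · intro s hs'
    have hs0 : 0 < s := lt_of_lt_of_le hx0 hs'.1
    have hC := hcos s hs'
    have h1 : HasDerivAt (fun s => (Real.pi - p.f s) / 2)
        ((-(p.w s - (4 + p.a s) * Real.sin (p.f s) / s)) / 2) s :=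
      ((hs.df s hs0).const_sub Real.pi).div_const 2
    have h2 := (Real.hasDerivAt_tan hC).comp s h1
    have h3 := h2.div (hasDerivAt_pow 3 s) (hs3 s hs')
    refine h3.congr_deriv ?_
    have e1 : Real.sin (p.f s) = 2 * Real.sin ((Real.pi - p.f s) / 2) *
        Real.cos ((Real.pi - p.f s) / 2) := by
      rw [← Real.sin_two_mul, ← Real.sin_pi_sub (p.f s)]; congr 1; ring
    have e3 : 1 + Real.tan ((Real.pi - p.f s) / 2) ^ 2 = 1 / Real.cos ((Real.pi - p.f s) / 2) ^ 2 := by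
      rw [one_div, ← Real.inv_one_add_tan_sq hC, inv_inv]
    show (1 / Real.cos ((Real.pi - p.f s) / 2) ^ 2 *
      ((-(p.w s - (4 + p.a s) * Real.sin (p.f s) / s)) / 2) * s ^ 3 -
      Real.tan ((Real.pi - p.f s) / 2) * (((3:ℕ):ℝ) * s ^ (3 - 1))) / (s ^ 3) ^ 2 =
      (1 + p.a s) / s * (Real.tan ((Real.pi - p.f s) / 2) / s ^ 3) +
      -(((1 + Real.tan ((Real.pi - p.f s) / 2) ^ 2) / 2 * p.w s) / s ^ 3)
    rw [e3, e1, Real.tan_eq_sin_div_cos]
    field_simp
    ring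
  · intro s hs'
    have hs0 : 0 < s := lt_of_lt_of_le hx0 hs'.1
    have := (abs_le.1 (a_abs hs hE s ⟨hs0.le, hs'.2.trans hlR⟩)).1
    apply div_nonneg _ hs0.le
    linarith

private lemma StF_near_eps (hs : IsSlice R1 p) (hE : p.En R1 ≤ eps ^ 2) {lam x : ℝ} (hx0 : 0 < x)
    (hxl : x ≤ lam) (hlR : lam ≤ R1) :
    (9 / 5) * x ^ 3 * (∫ s in x..lam, |p.w s| / s ^ 3) ≤ eps := by
  have h1 := pwm3 hx0 hxl (G := p.w) hs.cw.continuousOn
  have h2 := StF_mono hs hE hx0.le hxl hlR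
  have h3 : ∫ s in x..lam, |p.w s| / s ^ 3 ≤ 1 / x ^ 3 * ((5/9) * eps) :=
    h1.trans (mul_le_mul_of_nonneg_left h2 (by positivity))
  calc (9 / 5) * x ^ 3 * (∫ s in x..lam, |p.w s| / s ^ 3)
      ≤ (9 / 5) * x ^ 3 * (1 / x ^ 3 * ((5/9) * eps)) :=
        mul_le_mul_of_nonneg_left h3 (by positivity)
    _ = eps := by field_simp

theorem near0 (hs : IsSlice R1 p) (hE : p.En R1 ≤ eps ^ 2) {lam : ℝ} (h0 : 0 < lam)
    (h1 : lam < R1) (hf : p.f lam = Real.pi / 2) :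
    ∀ r ∈ Ioc 0 lam, |Real.pi - p.f r| < 2 ∧ |Real.tan ((Real.pi - p.f r) / 2)| ≤ (r / lam) ^ 3
      + (9 / 5) * r ^ 3 * ∫ s in r..lam, |p.w s| / s ^ 3 := by
  intro r hr
  have hind : ∀ x ∈ Icc r lam, |Real.pi - p.f x| < 2 := by
    refine cont_ind_bwd (h := fun x => |Real.pi - p.f x|)
      (continuous_const.sub hs.cf).abs.continuousOn ?_ ?_
    · show |Real.pi - p.f lam| < 2
      rw [hf, abs_of_pos (by linarith [Real.pi_pos])]
      linarith [Real.pi_lt_d2]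
    · intro x hx hle
      have hx0 : 0 < x := lt_of_lt_of_le hr.1 hx.1
      have h2 := StF_near_step hs hE hx0 hx.2 h1.le hf hle
      have h3 := StF_near_eps hs hE hx0 hx.2 h1.le
      have h4 : (x / lam) ^ 3 ≤ 1 := pow_le_one₀ (by positivity) ((div_le_one h0).2 hx.2)
      exact StF_lt_two (hle x ⟨le_refl _, hx.2⟩) (by linarith)
  exact ⟨hind r ⟨le_refl _, hr.2⟩, StF_near_step hs hE hr.1 hr.2 h1.le hf
    (fun s hs' => (hind s hs').le)⟩

theorem far1 (hs : IsSlice R1 p) (hE : p.En R1 ≤ eps ^ 2) {lam : ℝ} (h0 : 0 < lam)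
    (h1 : lam < R1) (hf : p.f lam = Real.pi / 2) :
    ∀ r ∈ Icc lam R1, |Real.tan (p.f r / 2)| ≤ (lam / r) ^ 3 + eps := by
  intro r hr
  have h2 := (far0 hs hE h0 h1 hf r hr).2
  have h3 := StF_far_eps hs hE h0 hr.1 hr.2
  linarith

theorem near1 (hs : IsSlice R1 p) (hE : p.En R1 ≤ eps ^ 2) {lam : ℝ} (h0 : 0 < lam)
    (h1 : lam < R1) (hf : p.f lam = Real.pi / 2) :
    ∀ r ∈ Ioc 0 lam, |Real.tan ((Real.pi - p.f r) / 2)| ≤ (r / lam) ^ 3 + eps := by
  intro r hr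
  have h2 := (near0 hs hE h0 h1 hf r hr).2
  have h3 := StF_near_eps hs hE hr.1 hr.2 h1.le
  linarith

/-- range of the angle -/
theorem f_range (hs : IsSlice R1 p) (hE : p.En R1 ≤ eps ^ 2) :
    ∀ r ∈ Icc 0 R1, -2 ≤ p.f r ∧ p.f r ≤ Real.pi + 2 := by
  intro r hr
  obtain ⟨lam, h0, h1, hf⟩ := exists_lam hs
  have hpi := Real.pi_gt_three
  rcases le_or_gt lam r with h | h
  · have := abs_lt.1 (far0 hs hE h0 h1 hf r ⟨h, hr.2⟩).1
    constructor <;> linarith
  · rcases eq_or_lt_of_le hr.1 with h2 | h2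
    · rw [← h2, hs.f0]
      constructor <;> linarith
    · have := abs_lt.1 (near0 hs hE h0 h1 hf r ⟨h2, h.le⟩).1
      constructor <;> linarith

/-- elementary: sine and cosine through the half angle tangent -/
theorem sin_le_tan {x : ℝ} (h : |x| < 2) : |Real.sin x| ≤ 2 * |Real.tan (x / 2)| := by
  have hc := (StF_half h.le).1
  have e1 : Real.sin x = 2 * Real.tan (x/2) * Real.cos (x/2) ^ 2 := by
    have : Real.sin x = 2 * Real.sin (x / 2) * Real.cos (x / 2) := by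
      rw [← Real.sin_two_mul]; congr 1; ring
    rw [this, Real.tan_eq_sin_div_cos]
    field_simp
  rw [e1, abs_mul, abs_mul, abs_of_pos (by norm_num : (0:ℝ) < 2),
    abs_of_nonneg (sq_nonneg (Real.cos (x/2)))]
  have h2 : Real.cos (x/2) ^ 2 ≤ 1 := Real.cos_sq_le_one _
  have h3 : 0 ≤ 2 * |Real.tan (x/2)| := by positivity
  nlinarith

theorem cos_ge_tan {x : ℝ} (h : |x| < 2) : 1 - 2 * Real.tan (x / 2) ^ 2 ≤ Real.cos x := by
  have hc := (StF_half h.le).1
  have e1 : Real.cos x = 1 - 2 * Real.sin (x/2) ^ 2 := by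
    have h1 : Real.cos x = 2 * Real.cos (x / 2) ^ 2 - 1 := by
      rw [← Real.cos_two_mul]; congr 1; ring
    have h2 := Real.sin_sq_add_cos_sq (x/2)
    rw [h1]; linarith
  have e2 : Real.sin (x/2) ^ 2 = Real.tan (x/2) ^ 2 * Real.cos (x/2) ^ 2 := by
    rw [Real.tan_eq_sin_div_cos]; field_simp
  have h2 : Real.cos (x/2) ^ 2 ≤ 1 := Real.cos_sq_le_one _
  have h3 : 0 ≤ Real.tan (x/2) ^ 2 := sq_nonneg _
  rw [e1, e2]
  nlinarith

end H72GS

end S_StF

section S_StN1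

/-!
# StN1 (only `N_lo`): two sided bounds for `N`, smallness of `b = om * lam`

On `[lam, 1.1 lam]`: `|f'| ≤ |w| + 4.01 / lam`, `∫_lam^{1.1 lam} |w| ≤ eps` (`pwlog`), so
`|f - π/2| ≤ 0.42`, hence `sin f ≥ 9/10`, `cos f ≤ 0.42 ≤ 1 - 2 qq`; the integrand of `N` is
nonnegative (`Th_mul_sin_nonneg`), so `N ≥ (81/100) · (0.21/2) lam² ≥ lam²/16`.
(`1.1 lam ≤ R1`: otherwise `f(R1) = 0` contradicts `sin f ≥ 9/10` on `[lam, R1]`.)
-/

namespace H72GS

open Set MeasureTheory intervalIntegral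

variable {R1 : ℝ} {p : Pre} {lam : ℝ}

/-- the angle stays close to `π/2` just right of `lam` -/
theorem StN1_close (hs : IsSlice R1 p) (hE : p.En R1 ≤ eps ^ 2) (h0 : 0 < lam)
    (hf : p.f lam = Real.pi / 2) {r : ℝ} (hr1 : lam ≤ r) (hr2 : r ≤ 11 / 10 * lam)
    (hr3 : r ≤ R1) : |p.f r - Real.pi / 2| ≤ 42 / 100 := by
  have hpos : ∀ s ∈ Icc lam r, 0 < s := fun s hs' => lt_of_lt_of_le h0 hs'.1
  have hcont : ContinuousOn (fun s => p.w s - (4 + p.a s) * Real.sin (p.f s) / s) (Icc lam r) := by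
    apply ContinuousOn.sub hs.cw.continuousOn
    apply ContinuousOn.div
    · exact ((continuous_const.add hs.ca).mul (Real.continuous_sin.comp hs.cf)).continuousOn
    · exact continuousOn_id
    · intro s hs'
      exact (hpos s hs').ne'
  have hint : IntervalIntegrable (fun s => p.w s - (4 + p.a s) * Real.sin (p.f s) / s)
      volume lam r := by
    apply ContinuousOn.intervalIntegrable
    rw [uIcc_of_le hr1]
    exact hcont
  have hftc : ∫ s in lam..r, (p.w s - (4 + p.a s) * Real.sin (p.f s) / s) = p.f r - p.f lam := by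
    apply integral_eq_sub_of_hasDerivAt _ hint
    intro s hs'
    rw [uIcc_of_le hr1] at hs'
    exact hs.df s (hpos s hs')
  have hw : ∫ s in lam..r, |p.w s| ≤ eps := by
    have h1 := pwlog h0 hr1 (by linarith) (G := p.w) hs.cw.continuousOn
    have h2 : ∫ s in lam..r, s * p.w s ^ 2 ≤ ∫ s in (0 : ℝ)..R1, s * p.w s ^ 2 := by
      apply int_mono_set (a := 0) (b := R1) h0.le hr1 hr3
      · exact (continuous_id.mul (hs.cw.pow 2)).continuousOn
      · intro x hx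
        exact mul_nonneg hx.1 (sq_nonneg _)
    have h3 := (En_parts hs hE).2.1
    have h4 : Real.sqrt (∫ s in lam..r, s * p.w s ^ 2) ≤ eps := by
      apply Real.sqrt_le_iff.mpr
      exact ⟨by unfold eps; norm_num, h2.trans h3⟩
    exact h1.trans h4
  have hb : |∫ s in lam..r, (p.w s - (4 + p.a s) * Real.sin (p.f s) / s)|
      ≤ ∫ s in lam..r, (|p.w s| + (401 / 100) / lam) := by
    have h1 := norm_integral_le_integral_norm (μ := volume)
      (f := fun s => p.w s - (4 + p.a s) * Real.sin (p.f s) / s) hr1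
    rw [Real.norm_eq_abs] at h1
    refine h1.trans ?_
    apply integral_mono_on hr1
    · exact hint.norm
    · exact (hs.cw.abs.add continuous_const).intervalIntegrable _ _
    · intro s hs'
      have hsp := hpos s hs'
      rw [Real.norm_eq_abs]
      have ha := a_abs hs hE s ⟨hsp.le, hs'.2.trans hr3⟩
      have h2 : |(4 + p.a s) * Real.sin (p.f s) / s| ≤ (401 / 100) / lam := by
        rw [abs_div, abs_mul, abs_of_pos hsp]
        have h3 : |4 + p.a s| ≤ 401 / 100 := by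
          rw [abs_le] at ha ⊢
          constructor <;> linarith [ha.1, ha.2]
        have h4 : |Real.sin (p.f s)| ≤ 1 := Real.abs_sin_le_one _
        have h5 : |4 + p.a s| * |Real.sin (p.f s)| ≤ 401 / 100 := by
          calc |4 + p.a s| * |Real.sin (p.f s)| ≤ (401 / 100) * 1 :=
                mul_le_mul h3 h4 (abs_nonneg _) (by norm_num)
            _ = _ := by ring
        exact div_le_div₀ (by norm_num) h5 h0 hs'.1
      calc |p.w s - (4 + p.a s) * Real.sin (p.f s) / s|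
          ≤ |p.w s| + |(4 + p.a s) * Real.sin (p.f s) / s| := abs_sub _ _
        _ ≤ _ := by linarith
  have hb2 : ∫ s in lam..r, (|p.w s| + (401 / 100) / lam)
      = (∫ s in lam..r, |p.w s|) + (r - lam) * ((401 / 100) / lam) := by
    rw [integral_add (hs.cw.abs.intervalIntegrable _ _) (continuous_const.intervalIntegrable _ _)]
    rw [intervalIntegral.integral_const, smul_eq_mul]
  have hb3 : (r - lam) * ((401 / 100) / lam) ≤ 401 / 1000 := by
    rw [← mul_div_assoc, div_le_iff₀ h0]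
    nlinarith
  rw [hftc, hf] at hb
  have he : eps ≤ 1 / 100 := by unfold eps; norm_num
  linarith

theorem StN1_sin {x : ℝ} (h : |x - Real.pi / 2| ≤ 42 / 100) : 9 / 10 ≤ Real.sin x := by
  have h1 : Real.sin x = Real.cos (x - Real.pi / 2) := by
    rw [Real.cos_sub_pi_div_two]
  rw [h1]
  have h2 := Real.one_sub_sq_div_two_le_cos (x := x - Real.pi / 2)
  have h3 : (x - Real.pi / 2) ^ 2 ≤ (42 / 100) ^ 2 := by
    rw [← sq_abs]
    exact pow_le_pow_left₀ (abs_nonneg _) h 2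
  nlinarith

theorem StN1_cos {x : ℝ} (h : |x - Real.pi / 2| ≤ 42 / 100) : Real.cos x ≤ 42 / 100 := by
  have h1 : Real.cos x = Real.sin (Real.pi / 2 - x) := by
    rw [Real.sin_pi_div_two_sub]
  rw [h1]
  have h2 : |Real.sin (Real.pi / 2 - x)| ≤ |Real.pi / 2 - x| := Real.abs_sin_le_abs
  rw [abs_sub_comm] at h
  exact (le_abs_self _).trans (h2.trans h)

theorem N_lo (hs : IsSlice R1 p) (hE : p.En R1 ≤ eps ^ 2) (h0 : 0 < lam)
    (h1 : lam < R1) (hf : p.f lam = Real.pi / 2) : lam ^ 2 / 16 ≤ p.N R1 := by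
  have hR : 11 / 10 * lam < R1 := by
    by_contra hcon
    push Not at hcon
    have h2 := StN1_close hs hE h0 hf h1.le hcon le_rfl
    have h3 := StN1_sin h2
    rw [hs.fR, Real.sin_zero] at h3
    norm_num at h3
  have hcI : Continuous (fun r => r * Th (p.f r) * Real.sin (p.f r)) :=
    (continuous_id.mul (continuous_Th.comp hs.cf)).mul (Real.continuous_sin.comp hs.cf)
  have h2 : ∫ r in lam..(11 / 10 * lam), r * Th (p.f r) * Real.sin (p.f r) ≤ p.N R1 := by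
    unfold Pre.N
    apply int_mono_set (a := 0) (b := R1) h0.le (by linarith) hR.le hcI.continuousOn
    intro x hx
    rw [mul_assoc]
    exact mul_nonneg hx.1 (Th_mul_sin_nonneg _)
  have h3 : ∫ r in lam..(11 / 10 * lam), (81 / 100) * r
      ≤ ∫ r in lam..(11 / 10 * lam), r * Th (p.f r) * Real.sin (p.f r) := by
    apply integral_mono_on (by linarith)
    · exact (continuous_const.mul continuous_id).intervalIntegrable _ _
    · exact hcI.intervalIntegrable _ _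
    · intro r hr
      have hcl := StN1_close hs hE h0 hf hr.1 hr.2 (hr.2.trans hR.le)
      have hsin := StN1_sin hcl
      have hcos := StN1_cos hcl
      have hhc : hc (Real.cos (p.f r)) = 1 := by
        apply hc_one
        have : qq ≤ 1 / 10 := by unfold qq; norm_num
        linarith
      unfold Th
      rw [hhc]
      have hrp : 0 < r := lt_of_lt_of_le h0 hr.1
      have : (81 / 100 : ℝ) ≤ Real.sin (p.f r) * Real.sin (p.f r) := by nlinarith
      nlinarith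
  have h4 : ∫ r in lam..(11 / 10 * lam), (81 / 100) * r = (81 / 100) * ((21 / 100) / 2) * lam ^ 2 := by
    rw [intervalIntegral.integral_const_mul, integral_id]
    ring
  rw [h4] at h3
  nlinarith [sq_nonneg lam]

end H72GS

end S_StN1

section S_StN

/-!
# StN: two sided bounds for `N`, smallness of `b = om * lam`

`Geo` collects what is known about the point `lam`.
* `N_lo`: on `[lam, 1.1 lam]`: `|u'| ≤ 4.01 |u| / r + (9/5)|w|`, `|u| ≤ 1 + eps`,
  `∫_lam^{1.1 lam} |w| ≤ eps` (`pwlog`), so `u ≥ 1 - 4.02 · 0.1 - 2 eps ≥ 0.59`, hence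
  `sin f = 2u/(1+u²) ≥ 4/5`, `cos f ≤ 1/2 ≤ 1 - 2 qq`; the integrand of `N` is nonnegative
  (`Th_mul_sin_nonneg`), so `N ≥ (16/25) · (0.21/2) lam² ≥ lam²/16`.
  (one needs `1.1 lam ≤ R1`: otherwise `f(R1) = 0` contradicts `sin f ≥ 4/5` on `[lam, R1]`.)
* `b_le`: `P = ∫ r g Th`, `P² ≤ (∫ r g²)(∫ r Th²) ≤ eps² N` (`Th² ≤ Th sin`), `P = -4 om N`, so
  `16 om² N ≤ eps²`, and `lam² ≤ 16 N`.
* `supp`: for `r ≥ 2·10⁶ lam`: `|u| ≤ (1/(2·10⁶))³ + eps`, `cos f ≥ 1 - 2u² ≥ 1 - qq`.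
* `N_hi`, `Th_L1`: `|sin f| ≤ 1` for `r ≤ lam`; `|sin f| ≤ 2((lam/r)³ + eps)` for
  `lam ≤ r ≤ K lam`, `K = 2·10⁶`; `∫_lam^∞ (lam/r)⁶ r = lam²/4`, `∫_lam^∞ (lam/r)³ r = lam²`.
* `b_lo`: `1 ≤ om³ N ≤ 3 om³ lam²`.
-/

namespace H72GS

open Set MeasureTheory intervalIntegral

variable {R1 : ℝ} {p : Pre} {om lam : ℝ}

theorem P_sq_le (hs : IsSlice R1 p) (hE : p.En R1 ≤ eps ^ 2) :
    p.P R1 ^ 2 ≤ eps ^ 2 * p.N R1 := by
  have hR := hs.R1pos
  have cTh : Continuous (fun r => Th (p.f r)) := continuous_Th.comp hs.cf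
  have csin : Continuous (fun r => Real.sin (p.f r)) := Real.continuous_sin.comp hs.cf
  have h1 : |p.P R1| ≤ ∫ r in (0:ℝ)..R1, r * (|p.g r| * |Th (p.f r)|) := by
    unfold Pre.P
    refine (intervalIntegral.abs_integral_le_integral_abs hR.le).trans ?_
    apply le_of_eq
    apply intervalIntegral.integral_congr
    intro r hr
    rw [uIcc_of_le hR.le] at hr
    simp only
    rw [abs_mul, abs_mul, abs_of_nonneg hr.1]
    ring
  have h2 := csr (a := 0) (b := R1) le_rfl hR.le hs.cg.continuousOn cTh.continuousOn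
  have hg0 : 0 ≤ ∫ r in (0:ℝ)..R1, r * p.g r ^ 2 :=
    intervalIntegral.integral_nonneg hR.le (fun r hr => mul_nonneg hr.1 (sq_nonneg _))
  have hT0 : 0 ≤ ∫ r in (0:ℝ)..R1, r * Th (p.f r) ^ 2 :=
    intervalIntegral.integral_nonneg hR.le (fun r hr => mul_nonneg hr.1 (sq_nonneg _))
  have hTN : ∫ r in (0:ℝ)..R1, r * Th (p.f r) ^ 2 ≤ p.N R1 := by
    unfold Pre.N
    apply intervalIntegral.integral_mono_on hR.le
    · exact (continuous_id.mul (cTh.pow 2)).intervalIntegrable _ _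
    · exact ((continuous_id.mul cTh).mul csin).intervalIntegrable _ _
    · intro r hr
      rw [mul_assoc]
      exact mul_le_mul_of_nonneg_left (Th_sq_le _) hr.1
  have hgE := (En_parts hs hE).1
  have h3 : |p.P R1| ≤ Real.sqrt (∫ r in (0:ℝ)..R1, r * p.g r ^ 2)
      * Real.sqrt (∫ r in (0:ℝ)..R1, r * Th (p.f r) ^ 2) := h1.trans h2
  have h4 : p.P R1 ^ 2 ≤ (∫ r in (0:ℝ)..R1, r * p.g r ^ 2)
      * (∫ r in (0:ℝ)..R1, r * Th (p.f r) ^ 2) := by
    have := pow_le_pow_left₀ (abs_nonneg _) h3 2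
    rw [sq_abs, mul_pow, Real.sq_sqrt hg0, Real.sq_sqrt hT0] at this
    exact this
  refine h4.trans ?_
  exact mul_le_mul hgE hTN hT0 (sq_nonneg _)

theorem supp (hs : IsSlice R1 p) (hE : p.En R1 ≤ eps ^ 2) (h0 : 0 < lam)
    (h1 : lam < R1) (hf : p.f lam = Real.pi / 2) :
    ∀ r ∈ Icc 0 R1, 2 * 10 ^ 6 * lam ≤ r → 1 - qq ≤ Real.cos (p.f r) := by
  intro r hr hKr
  have hlr : lam ≤ r := by nlinarith
  have hr0 : 0 < r := lt_of_lt_of_le h0 hlr
  have hmem : r ∈ Icc lam R1 := ⟨hlr, hr.2⟩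
  have ha := (far0 hs hE h0 h1 hf r hmem).1
  have hb := far1 hs hE h0 h1 hf r hmem
  have hc := cos_ge_tan ha
  have hq : lam / r ≤ 1 / (2 * 10 ^ 6) := by
    rw [div_le_div_iff₀ hr0 (by norm_num)]
    linarith
  have hq0 : 0 ≤ lam / r := by positivity
  have hq3 : (lam / r) ^ 3 ≤ (1 / (2 * 10 ^ 6)) ^ 3 := pow_le_pow_left₀ hq0 hq 3
  have ht : |Real.tan (p.f r / 2)| ≤ 2 / 10 ^ 19 := by
    refine hb.trans ?_
    have : (1 / (2 * 10 ^ 6) : ℝ) ^ 3 + eps ≤ 2 / 10 ^ 19 := by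
      unfold eps; norm_num
    linarith
  have ht2 : Real.tan (p.f r / 2) ^ 2 ≤ (2 / 10 ^ 19) ^ 2 := by
    rw [← sq_abs]
    exact pow_le_pow_left₀ (abs_nonneg _) ht 2
  have : (2 : ℝ) * (2 / 10 ^ 19) ^ 2 ≤ qq := by
    unfold qq; norm_num
  linarith

/-- generic bound: a continuous function on `[0, R1]` which is at most `r` on `[0, lam]`, at most
`r * (A (lam/r)^k + B)` on `[lam, K lam]` and vanishes beyond -/
theorem StN_split {F : ℝ → ℝ} {m : ℝ} (hF : Continuous F) (h0 : 0 < lam) (h1 : lam ≤ m)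
    (h2 : m ≤ R1) {G : ℝ → ℝ} {G' : ℝ → ℝ}
    (ha : ∀ r ∈ Icc 0 lam, F r ≤ r)
    (hb : ∀ r ∈ Icc lam m, F r ≤ G' r)
    (hc : ∀ r ∈ Icc m R1, F r ≤ 0)
    (hG' : ContinuousOn G' (Icc lam m))
    (hG : ∀ r ∈ Icc lam m, HasDerivAt G (G' r) r) :
    ∫ r in (0:ℝ)..R1, F r ≤ lam ^ 2 / 2 + (G m - G lam) := by
  have hi : ∀ a b, IntervalIntegrable F volume a b := fun a b => hF.intervalIntegrable a b
  have e1 : ∫ r in (0:ℝ)..R1, F r = (∫ r in (0:ℝ)..lam, F r) + (∫ r in lam..m, F r)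
      + ∫ r in m..R1, F r := by
    rw [intervalIntegral.integral_add_adjacent_intervals (hi _ _) (hi _ _),
      intervalIntegral.integral_add_adjacent_intervals (hi _ _) (hi _ _)]
  have i1 : ∫ r in (0:ℝ)..lam, F r ≤ lam ^ 2 / 2 := by
    have : ∫ r in (0:ℝ)..lam, F r ≤ ∫ r in (0:ℝ)..lam, r :=
      intervalIntegral.integral_mono_on h0.le (hi _ _)
        (continuous_id.intervalIntegrable _ _) ha
    refine this.trans (le_of_eq ?_)
    rw [integral_id]; ring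
  have hG'i : IntervalIntegrable G' volume lam m := by
    apply ContinuousOn.intervalIntegrable
    rw [uIcc_of_le h1]; exact hG'
  have i2 : ∫ r in lam..m, F r ≤ G m - G lam := by
    have : ∫ r in lam..m, F r ≤ ∫ r in lam..m, G' r :=
      intervalIntegral.integral_mono_on h1 (hi _ _) hG'i hb
    refine this.trans (le_of_eq ?_)
    apply intervalIntegral.integral_eq_sub_of_hasDerivAt _ hG'i
    intro r hr
    rw [uIcc_of_le h1] at hr
    exact hG r hr
  have i3 : ∫ r in m..R1, F r ≤ 0 := by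
    have : ∫ r in m..R1, F r ≤ ∫ r in m..R1, (0:ℝ) :=
      intervalIntegral.integral_mono_on h2 (hi _ _)
        (continuous_const.intervalIntegrable _ _) hc
    simpa using this
  rw [e1]; linarith

/-- the sine right of `lam` -/
theorem StN_sin (hs : IsSlice R1 p) (hE : p.En R1 ≤ eps ^ 2) (h0 : 0 < lam)
    (h1 : lam < R1) (hf : p.f lam = Real.pi / 2) :
    ∀ r ∈ Icc lam R1, |Real.sin (p.f r)| ≤ 2 * ((lam / r) ^ 3 + eps) := by
  intro r hr
  have ha := (far0 hs hE h0 h1 hf r hr).1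
  have hb := far1 hs hE h0 h1 hf r hr
  have := sin_le_tan ha
  linarith

theorem N_hi (hs : IsSlice R1 p) (hE : p.En R1 ≤ eps ^ 2) (h0 : 0 < lam)
    (h1 : lam < R1) (hf : p.f lam = Real.pi / 2) : p.N R1 ≤ 3 * lam ^ 2 := by
  have hR := hs.R1pos
  have cTh : Continuous (fun r => Th (p.f r)) := continuous_Th.comp hs.cf
  have csin : Continuous (fun r => Real.sin (p.f r)) := Real.continuous_sin.comp hs.cf
  set m := min (2 * 10 ^ 6 * lam) R1 with hm
  have hlm : lam ≤ m := le_min (by nlinarith) h1.le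
  have hmR : m ≤ R1 := min_le_right _ _
  have hmK : m ≤ 2 * 10 ^ 6 * lam := min_le_left _ _
  have hm0 : 0 < m := lt_of_lt_of_le h0 hlm
  have hThs : ∀ r, Th (p.f r) * Real.sin (p.f r) ≤ Real.sin (p.f r) ^ 2 := by
    intro r
    calc Th (p.f r) * Real.sin (p.f r) ≤ |Th (p.f r) * Real.sin (p.f r)| := le_abs_self _
      _ = |Th (p.f r)| * |Real.sin (p.f r)| := abs_mul _ _
      _ ≤ |Real.sin (p.f r)| * |Real.sin (p.f r)| :=
          mul_le_mul_of_nonneg_right (Th_abs_le _) (abs_nonneg _)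
      _ = Real.sin (p.f r) ^ 2 := by rw [← sq, sq_abs]
  have key := StN_split (R1 := R1) (lam := lam) (m := m)
    (F := fun r => r * Th (p.f r) * Real.sin (p.f r))
    (G := fun r => -2 * lam ^ 6 / r ^ 4 + 4 * eps ^ 2 * r ^ 2)
    (G' := fun r => 8 * lam ^ 6 / r ^ 5 + 8 * eps ^ 2 * r)
    ((continuous_id.mul cTh).mul csin) h0 hlm hmR ?_ ?_ ?_ ?_ ?_
  · refine key.trans ?_
    have e1 : -2 * lam ^ 6 / lam ^ 4 = -2 * lam ^ 2 := by
      field_simp
    have e2 : -2 * lam ^ 6 / m ^ 4 ≤ 0 := by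
      have : 0 ≤ 2 * lam ^ 6 / m ^ 4 := by positivity
      have h' : -2 * lam ^ 6 / m ^ 4 = -(2 * lam ^ 6 / m ^ 4) := by ring
      rw [h']; linarith
    have e3 : m ^ 2 ≤ (2 * 10 ^ 6 * lam) ^ 2 := pow_le_pow_left₀ hm0.le hmK 2
    have e4 : 4 * eps ^ 2 * m ^ 2 ≤ 4 * eps ^ 2 * (2 * 10 ^ 6 * lam) ^ 2 :=
      mul_le_mul_of_nonneg_left e3 (by positivity)
    have e5 : 4 * eps ^ 2 * (2 * 10 ^ 6 * lam) ^ 2 ≤ (1 / 10) * lam ^ 2 := by
      have : 4 * eps ^ 2 * (2 * 10 ^ 6 * lam) ^ 2 = (4 * eps ^ 2 * (2 * 10 ^ 6) ^ 2) * lam ^ 2 := by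
        ring
      rw [this]
      apply mul_le_mul_of_nonneg_right _ (sq_nonneg _)
      unfold eps; norm_num
    have e6 : 0 ≤ 4 * eps ^ 2 * lam ^ 2 := by positivity
    rw [e1]
    nlinarith [sq_nonneg lam]
  · intro r hr
    have h1' : Th (p.f r) * Real.sin (p.f r) ≤ 1 := (hThs r).trans (Real.sin_sq_le_one _)
    calc r * Th (p.f r) * Real.sin (p.f r) = r * (Th (p.f r) * Real.sin (p.f r)) := by ring
      _ ≤ r * 1 := mul_le_mul_of_nonneg_left h1' hr.1
      _ = r := mul_one r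
  · intro r hr
    have hr0 : 0 < r := lt_of_lt_of_le h0 hr.1
    have hrm : r ∈ Icc lam R1 := ⟨hr.1, hr.2.trans hmR⟩
    have hsn := StN_sin hs hE h0 h1 hf r hrm
    have h2' : Real.sin (p.f r) ^ 2 ≤ (2 * ((lam / r) ^ 3 + eps)) ^ 2 := by
      rw [← sq_abs]
      exact pow_le_pow_left₀ (abs_nonneg _) hsn 2
    have h3' : (2 * ((lam / r) ^ 3 + eps)) ^ 2 ≤ 8 * (lam / r) ^ 6 + 8 * eps ^ 2 := by
      nlinarith [sq_nonneg ((lam / r) ^ 3 - eps)]
    calc r * Th (p.f r) * Real.sin (p.f r) = r * (Th (p.f r) * Real.sin (p.f r)) := by ring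
      _ ≤ r * (8 * (lam / r) ^ 6 + 8 * eps ^ 2) :=
          mul_le_mul_of_nonneg_left (((hThs r).trans h2').trans h3') hr0.le
      _ = 8 * lam ^ 6 / r ^ 5 + 8 * eps ^ 2 * r := by field_simp
  · intro r hr
    by_cases hK : 2 * 10 ^ 6 * lam ≤ R1
    · have : m = 2 * 10 ^ 6 * lam := min_eq_left hK
      have hr' : 2 * 10 ^ 6 * lam ≤ r := this ▸ hr.1
      have hc := supp hs hE h0 h1 hf r ⟨hm0.le.trans hr.1, hr.2⟩ hr'
      rw [Th_zero hc]; simp
    · have : m = R1 := min_eq_right (not_le.mp hK).le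
      have : r = R1 := le_antisymm hr.2 (this ▸ hr.1)
      rw [this, hs.fR]; simp
  · intro r hr
    have hr0 : 0 < r := lt_of_lt_of_le h0 hr.1
    apply ContinuousAt.continuousWithinAt
    have : r ^ 5 ≠ 0 := (pow_pos hr0 5).ne'
    fun_prop (disch := assumption)
  · intro r hr
    have hr0 : 0 < r := lt_of_lt_of_le h0 hr.1
    have d1 : HasDerivAt (fun r : ℝ => r ^ 4) (4 * r ^ 3) r := by
      simpa using hasDerivAt_pow 4 r
    have d2 : HasDerivAt (fun r : ℝ => r ^ 2) (2 * r) r := by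
      simpa using hasDerivAt_pow 2 r
    have d3 := ((hasDerivAt_const r (-2 * lam ^ 6)).div d1 (pow_pos hr0 4).ne').add
      (d2.const_mul (4 * eps ^ 2))
    refine d3.congr_deriv ?_
    field_simp
    ring

theorem Th_L1 (hs : IsSlice R1 p) (hE : p.En R1 ≤ eps ^ 2) (h0 : 0 < lam)
    (h1 : lam < R1) (hf : p.f lam = Real.pi / 2) :
    ∫ r in (0 : ℝ)..R1, r * |Th (p.f r)| ≤ 3 * lam ^ 2 := by
  have hR := hs.R1pos
  have cTh : Continuous (fun r => Th (p.f r)) := continuous_Th.comp hs.cf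
  set m := min (2 * 10 ^ 6 * lam) R1 with hm
  have hlm : lam ≤ m := le_min (by nlinarith) h1.le
  have hmR : m ≤ R1 := min_le_right _ _
  have hmK : m ≤ 2 * 10 ^ 6 * lam := min_le_left _ _
  have hm0 : 0 < m := lt_of_lt_of_le h0 hlm
  have key := StN_split (R1 := R1) (lam := lam) (m := m)
    (F := fun r => r * |Th (p.f r)|)
    (G := fun r => -2 * lam ^ 3 / r + eps * r ^ 2)
    (G' := fun r => 2 * lam ^ 3 / r ^ 2 + 2 * eps * r)
    (continuous_id.mul cTh.abs) h0 hlm hmR ?_ ?_ ?_ ?_ ?_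
  · refine key.trans ?_
    have e1 : -2 * lam ^ 3 / lam = -2 * lam ^ 2 := by
      field_simp
    have e2 : -2 * lam ^ 3 / m ≤ 0 := by
      have : 0 ≤ 2 * lam ^ 3 / m := by positivity
      have h' : -2 * lam ^ 3 / m = -(2 * lam ^ 3 / m) := by ring
      rw [h']; linarith
    have e0 : 0 < eps := by unfold eps; norm_num
    have e3 : m ^ 2 ≤ (2 * 10 ^ 6 * lam) ^ 2 := pow_le_pow_left₀ hm0.le hmK 2
    have e4 : eps * m ^ 2 ≤ eps * (2 * 10 ^ 6 * lam) ^ 2 :=
      mul_le_mul_of_nonneg_left e3 e0.le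
    have e5 : eps * (2 * 10 ^ 6 * lam) ^ 2 ≤ (1 / 10) * lam ^ 2 := by
      have : eps * (2 * 10 ^ 6 * lam) ^ 2 = (eps * (2 * 10 ^ 6) ^ 2) * lam ^ 2 := by
        ring
      rw [this]
      apply mul_le_mul_of_nonneg_right _ (sq_nonneg _)
      unfold eps; norm_num
    have e6 : 0 ≤ eps * lam ^ 2 := by positivity
    rw [e1]
    nlinarith [sq_nonneg lam]
  · intro r hr
    have h1' : |Th (p.f r)| ≤ 1 := (Th_abs_le _).trans (Real.abs_sin_le_one _)
    calc r * |Th (p.f r)| ≤ r * 1 := mul_le_mul_of_nonneg_left h1' hr.1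
      _ = r := mul_one r
  · intro r hr
    have hr0 : 0 < r := lt_of_lt_of_le h0 hr.1
    have hrm : r ∈ Icc lam R1 := ⟨hr.1, hr.2.trans hmR⟩
    have hsn := StN_sin hs hE h0 h1 hf r hrm
    calc r * |Th (p.f r)| ≤ r * (2 * ((lam / r) ^ 3 + eps)) :=
          mul_le_mul_of_nonneg_left ((Th_abs_le _).trans hsn) hr0.le
      _ = 2 * lam ^ 3 / r ^ 2 + 2 * eps * r := by field_simp
  · intro r hr
    by_cases hK : 2 * 10 ^ 6 * lam ≤ R1
    · have : m = 2 * 10 ^ 6 * lam := min_eq_left hK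
      have hr' : 2 * 10 ^ 6 * lam ≤ r := this ▸ hr.1
      have hc := supp hs hE h0 h1 hf r ⟨hm0.le.trans hr.1, hr.2⟩ hr'
      rw [Th_zero hc]; simp
    · have : m = R1 := min_eq_right (not_le.mp hK).le
      have : r = R1 := le_antisymm hr.2 (this ▸ hr.1)
      rw [this, hs.fR]
      have hT : Th 0 = 0 := by unfold Th; simp
      rw [hT]; simp
  · intro r hr
    have hr0 : 0 < r := lt_of_lt_of_le h0 hr.1
    apply ContinuousAt.continuousWithinAt
    have : r ^ 2 ≠ 0 := (pow_pos hr0 2).ne'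
    fun_prop (disch := assumption)
  · intro r hr
    have hr0 : 0 < r := lt_of_lt_of_le h0 hr.1
    have d2 : HasDerivAt (fun r : ℝ => r ^ 2) (2 * r) r := by
      simpa using hasDerivAt_pow 2 r
    have d3 := ((hasDerivAt_const r (-2 * lam ^ 3)).div (hasDerivAt_id r) hr0.ne').add
      (d2.const_mul eps)
    refine d3.congr_deriv ?_
    simp only [id]
    field_simp
    ring

/-- the point `lam` and the elementary facts about it -/
structure Geo (R1 : ℝ) (p : Pre) (om lam : ℝ) : Prop where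
  lam_pos : 0 < lam
  lam_lt : lam < R1
  f_lam : p.f lam = Real.pi / 2
  N_lo : lam ^ 2 / 16 ≤ p.N R1
  N_hi : p.N R1 ≤ 3 * lam ^ 2
  b_le : om * lam ≤ eps
  b_lo : 1 ≤ 3 * om ^ 3 * lam ^ 2

theorem exists_geo (hs : IsSlice R1 p) (hy : Hyp R1 p om) : ∃ lam, Geo R1 p om lam := by
  obtain ⟨lam, h0, h1, hf⟩ := exists_lam hs
  have hE := hy.en
  have hlo := N_lo hs hE h0 h1 hf
  have hhi := N_hi hs hE h0 h1 hf
  have hom : 0 < om := lt_of_lt_of_le (by norm_num) hy.hom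
  have hN := hy.Npos
  refine ⟨lam, h0, h1, hf, hlo, hhi, ?_, ?_⟩
  · have hP := P_sq_le hs hE
    rw [hy.hP] at hP
    have h2 : 16 * om ^ 2 * p.N R1 ≤ eps ^ 2 := by
      have : (16 * om ^ 2 * p.N R1) * p.N R1 ≤ eps ^ 2 * p.N R1 := by
        calc (16 * om ^ 2 * p.N R1) * p.N R1 = (-4 * om * p.N R1) ^ 2 := by ring
          _ ≤ _ := hP
      exact le_of_mul_le_mul_right this hN
    have h3 : (om * lam) ^ 2 ≤ eps ^ 2 := by
      have h4 : 16 * om ^ 2 * (lam ^ 2 / 16) ≤ 16 * om ^ 2 * p.N R1 :=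
        mul_le_mul_of_nonneg_left hlo (by positivity)
      nlinarith
    have he : 0 ≤ eps := by unfold eps; positivity
    exact le_of_sq_le_sq h3 he
  · have h3 := hy.h3
    have h4 : om ^ 3 * p.N R1 ≤ om ^ 3 * (3 * lam ^ 2) :=
      mul_le_mul_of_nonneg_left hhi (by positivity)
    linarith

end H72GS

end S_StN
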