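import Mathlib
import Pool.Agent.H72.GM.M3

set_option autoImplicit false

/-! Gauged sigma model, file M4: this file joins several modules to save build time. -/

section S_StG

/-!
# StG: refined shape, using the second order energy

`chi = √X`, `Lam = chi + om² lam`, `L = ep1 / om`, `b = om lam ≤ eps = 10⁻²²`.
* `chi_le`: `X ≤ Gam² om⁴ N ≤ 3 Gam² om⁴ lam²`, `√3 · 1.3·10⁷ ≤ 3·10⁷`.
  Consequences: `chi lam ≤ 3·10⁷ b²`, `chi ≤ 3·10⁷ b om`, `Lam ≤ 4·10⁷ b om ≤ 10⁻¹⁴ om`.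
* `sqrt_om_le`: from `b_lo`: `√om ≤ 2 om² lam` (`1 ≤ 3 om³ lam²`).
* `cos_far`: for `lam ≤ r ≤ 2 lam`: `|u| ≤ (lam/r)³ + (9/5) chi (r - lam) ≤ 1` because
  `1 - (lam/r)³ ≥ (r-lam)/(2 lam)` and `(18/5) chi lam ≤ 1`; for `r ≥ 2 lam`: `|u| ≤ 1/8 + eps`.
  (use `far0` with `|w| ≤ chi`: `r⁻³ ∫ s³ chi ≤ chi (r-lam)` and `≤ chi r / 4`.)
* `far2`: `|tan (f/2)| ≤ (lam/r)³ + chi r / 2`;
  `near2`: `|tan ((π-f)/2)| ≤ (r/lam)³ + chi r` (`r³ ∫_r^lam s⁻³ ≤ r/2`).
* `I_sin2`: `∫_0^L r sin² f ≤ lam²/2 + 8 ∫_lam^L ((lam/r)⁶ + chi² r²/4) r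
  ≤ 2.5 lam² + chi² L⁴/2`, `chi² L⁴ ≤ 9·10¹⁴ om⁴ lam² · 10⁻¹⁶ / om⁴`.
* `I_sin2_far`: `∫_L^{R1} r sin² f ≤ 8 ∫ ((lam/r)⁶ + eps²) r`.
* `sin_far`: `|sin f| ≤ 2((lam/L)³ + eps)`, `lam/L = 10⁴ b`.
* `sin_L`: `4 om |sin f(L)| ≤ 8 om ((lam/L)³ + chi L/2)`, `8 om (10⁴ b)³ ≤ b om`,
  `4 om chi L = 4·10⁻⁴ chi`.
-/

namespace H72GS

open Set MeasureTheory intervalIntegral

variable {R1 : ℝ} {p : Pre} {om lam : ℝ}

/-- square root of the second order energy -/
noncomputable def chi (R1 : ℝ) (p : Pre) : ℝ := Real.sqrt (p.X R1)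

/-- `Lam = chi + om² lam` -/
noncomputable def Lam (R1 : ℝ) (p : Pre) (om lam : ℝ) : ℝ := chi R1 p + om ^ 2 * lam

theorem chi_nonneg : 0 ≤ chi R1 p := Real.sqrt_nonneg _

theorem chi_sq (hs : IsSlice R1 p) (hy : Hyp R1 p om) : chi R1 p ^ 2 = p.X R1 :=
  Real.sq_sqrt (X_nonneg hs hy.en)

private lemma StG_om_pos (hy : Hyp R1 p om) : 0 < om :=
  lt_of_lt_of_le (by positivity) hy.hom

theorem chi_le (hs : IsSlice R1 p) (hy : Hyp R1 p om) (hg : Geo R1 p om lam) :
    chi R1 p ≤ 3 * 10 ^ 7 * om ^ 2 * lam := by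
  have ho := StG_om_pos hy
  have hl := hg.lam_pos
  unfold chi
  rw [Real.sqrt_le_iff]
  refine ⟨by positivity, ?_⟩
  have h1 := hy.hX
  have h2 := hg.N_hi
  have h3 : Gam ^ 2 * om ^ 4 * p.N R1 ≤ Gam ^ 2 * om ^ 4 * (3 * lam ^ 2) :=
    mul_le_mul_of_nonneg_left h2 (by positivity)
  refine h1.trans (h3.trans ?_)
  unfold Gam
  have h4 : 0 ≤ om ^ 4 * lam ^ 2 := by positivity
  nlinarith

theorem Lam_le (hs : IsSlice R1 p) (hy : Hyp R1 p om) (hg : Geo R1 p om lam) :
    Lam R1 p om lam ≤ 4 * 10 ^ 7 * om ^ 2 * lam := by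
  have ho := StG_om_pos hy
  have hl := hg.lam_pos
  have h1 := chi_le hs hy hg
  have h4 : 0 ≤ om ^ 2 * lam := by positivity
  unfold Lam
  linarith

theorem Lam_small (hs : IsSlice R1 p) (hy : Hyp R1 p om) (hg : Geo R1 p om lam) :
    Lam R1 p om lam ≤ om / 10 ^ 14 := by
  have ho := StG_om_pos hy
  have h1 := Lam_le hs hy hg
  have h2 := hg.b_le
  have h3 : om * (om * lam) ≤ om * eps := mul_le_mul_of_nonneg_left h2 ho.le
  unfold eps at h3
  have h4 : om * (1 / 10 ^ 22) = om / 10 ^ 22 := by ring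
  rw [h4] at h3
  have h5 : (4 : ℝ) * 10 ^ 7 * om ^ 2 * lam = 4 * 10 ^ 7 * (om * (om * lam)) := by ring
  rw [h5] at h1
  have h6 : 4 * 10 ^ 7 * (om / 10 ^ 22) ≤ om / 10 ^ 14 := by
    rw [← sub_nonneg]
    have : om / 10 ^ 14 - 4 * 10 ^ 7 * (om / 10 ^ 22) = om * (6 / 10 ^ 15) := by ring
    rw [this]; positivity
  linarith

theorem sqrt_om_le (hy : Hyp R1 p om) (hg : Geo R1 p om lam) :
    Real.sqrt om ≤ 2 * om ^ 2 * lam := by
  have ho := StG_om_pos hy
  have hl := hg.lam_pos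
  rw [Real.sqrt_le_iff]
  refine ⟨by positivity, ?_⟩
  have h1 := hg.b_lo
  have h2 : om * 1 ≤ om * (3 * om ^ 3 * lam ^ 2) := mul_le_mul_of_nonneg_left h1 ho.le
  have h3 : 0 ≤ om ^ 4 * lam ^ 2 := by positivity
  nlinarith

/-- `om² lam` is huge -/
theorem om2lam_ge (hy : Hyp R1 p om) (hg : Geo R1 p om lam) : 10 ^ 29 ≤ om ^ 2 * lam := by
  have ho := StG_om_pos hy
  have hl := hg.lam_pos
  have h1 := hg.b_lo
  have h2 : om * 1 ≤ om * (3 * om ^ 3 * lam ^ 2) := mul_le_mul_of_nonneg_left h1 ho.le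
  have h0 := hy.hom
  have h3 : ((10 : ℝ) ^ 29) ^ 2 ≤ (om ^ 2 * lam) ^ 2 := by
    have e : (om ^ 2 * lam) ^ 2 = om * (3 * om ^ 3 * lam ^ 2) / 3 := by ring
    rw [e, ← pow_mul, le_div_iff₀ (by norm_num)]
    calc (10 : ℝ) ^ (29 * 2) * 3 ≤ 10 ^ 60 := by norm_num
      _ ≤ om * 1 := by linarith
      _ ≤ _ := h2
  exact (le_abs_self _).trans (abs_le_of_sq_le_sq h3 (by positivity))

theorem L_pos (hy : Hyp R1 p om) : 0 < ep1 / om := by
  have ho := StG_om_pos hy
  unfold ep1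
  positivity

theorem L_le (hs : IsSlice R1 p) (hy : Hyp R1 p om) : ep1 / om ≤ R1 / 2 := by
  have ho := StG_om_pos hy
  have h0 := hy.hom
  have h1 := hs.R1ge
  rw [div_le_iff₀ ho]
  have h2 : (1 / 10 ^ 50 : ℝ) / 2 * 10 ^ 60 ≤ R1 / 2 * om :=
    mul_le_mul (by linarith) h0 (by positivity) (by linarith [hs.R1pos])
  refine le_trans ?_ h2
  unfold ep1
  norm_num

theorem lam_le_L (hy : Hyp R1 p om) (hg : Geo R1 p om lam) : 10 ^ 17 * lam ≤ ep1 / om := by
  have ho := StG_om_pos hy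
  have h := hg.b_le
  rw [le_div_iff₀ ho]
  unfold eps at h
  unfold ep1
  have : 10 ^ 17 * lam * om = 10 ^ 17 * (om * lam) := by ring
  rw [this]
  calc (10 : ℝ) ^ 17 * (om * lam) ≤ 10 ^ 17 * (1 / 10 ^ 22) :=
        mul_le_mul_of_nonneg_left h (by positivity)
    _ ≤ 1 / 10 ^ 4 := by norm_num

private lemma StG_chi_lam (hs : IsSlice R1 p) (hy : Hyp R1 p om) (hg : Geo R1 p om lam) :
    (18 / 5) * (chi R1 p * lam) ≤ 1 := by
  have ho := StG_om_pos hy
  have hl := hg.lam_pos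
  have h1 := chi_le hs hy hg
  have h2 := hg.b_le
  have h3 : (om * lam) * (om * lam) ≤ eps * eps :=
    mul_le_mul h2 h2 (by positivity) (by unfold eps; positivity)
  have h4 : chi R1 p * lam ≤ 3 * 10 ^ 7 * om ^ 2 * lam * lam :=
    mul_le_mul_of_nonneg_right h1 hl.le
  have h5 : 3 * 10 ^ 7 * om ^ 2 * lam * lam = 3 * 10 ^ 7 * ((om * lam) * (om * lam)) := by ring
  rw [h5] at h4
  have h6 : 3 * 10 ^ 7 * ((om * lam) * (om * lam)) ≤ 3 * 10 ^ 7 * (eps * eps) :=
    mul_le_mul_of_nonneg_left h3 (by positivity)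
  have h7 : (18 / 5 : ℝ) * (3 * 10 ^ 7 * (eps * eps)) ≤ 1 := by
    unfold eps; norm_num
  linarith

private lemma StG_cos_nonneg {x : ℝ} (hx : |x| < 2) (ht : |Real.tan (x / 2)| ≤ 1) :
    0 ≤ Real.cos x := by
  have h3 : (3 : ℝ) < Real.pi := Real.pi_gt_three
  rw [abs_lt] at hx
  have hc : 0 < Real.cos (x / 2) :=
    Real.cos_pos_of_mem_Ioo ⟨by linarith [hx.1], by linarith [hx.2]⟩
  have e1 : Real.tan (x / 2) * Real.cos (x / 2) = Real.sin (x / 2) := Real.tan_mul_cos hc.ne'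
  have e2 : Real.cos x = Real.cos (x / 2) ^ 2 - Real.sin (x / 2) ^ 2 := by
    have := Real.cos_sq' (x / 2)
    have h4 := Real.cos_two_mul (x / 2)
    rw [show 2 * (x / 2) = x by ring] at h4
    linarith
  rw [e2, ← e1]
  have h5 : Real.tan (x / 2) ^ 2 ≤ 1 := by
    rw [← sq_abs]
    exact pow_le_one₀ (abs_nonneg _) ht
  have h6 : 0 ≤ Real.cos (x / 2) ^ 2 := sq_nonneg _
  nlinarith

private lemma StG_w (hs : IsSlice R1 p) (hy : Hyp R1 p om) {s : ℝ} (h0 : 0 ≤ s) (h1 : s ≤ R1) :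
    |p.w s| ≤ chi R1 p := w_abs hs hy.en s ⟨h0, h1⟩

private lemma StG_int_far (hs : IsSlice R1 p) (hy : Hyp R1 p om) (h0 : 0 < lam) {r : ℝ}
    (hr : r ∈ Icc lam R1) :
    ∫ s in lam..r, s ^ 3 * |p.w s| ≤ r ^ 3 * chi R1 p * (r - lam) := by
  have h1 : ∫ s in lam..r, s ^ 3 * |p.w s| ≤ ∫ _ in lam..r, r ^ 3 * chi R1 p := by
    refine integral_mono_on hr.1 ?_ ?_ ?_
    · exact ((continuous_pow 3).mul hs.cw.abs).intervalIntegrable _ _
    · exact continuous_const.intervalIntegrable _ _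
    · intro s hs'
      have hs0 : 0 ≤ s := h0.le.trans hs'.1
      exact mul_le_mul (pow_le_pow_left₀ hs0 hs'.2 3) (StG_w hs hy hs0 (hs'.2.trans hr.2))
        (abs_nonneg _) (by have := h0.le.trans hr.1; positivity)
  rw [intervalIntegral.integral_const, smul_eq_mul] at h1
  linarith

private lemma StG_int_far2 (hs : IsSlice R1 p) (hy : Hyp R1 p om) (h0 : 0 < lam) {r : ℝ}
    (hr : r ∈ Icc lam R1) :
    ∫ s in lam..r, s ^ 3 * |p.w s| ≤ chi R1 p * r ^ 4 / 4 := by
  have h1 : ∫ s in lam..r, s ^ 3 * |p.w s| ≤ ∫ s in lam..r, s ^ 3 * chi R1 p := by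
    refine integral_mono_on hr.1 ?_ ?_ ?_
    · exact ((continuous_pow 3).mul hs.cw.abs).intervalIntegrable _ _
    · exact ((continuous_pow 3).mul continuous_const).intervalIntegrable _ _
    · intro s hs'
      have hs0 : 0 ≤ s := h0.le.trans hs'.1
      exact mul_le_mul_of_nonneg_left (StG_w hs hy hs0 (hs'.2.trans hr.2)) (by positivity)
  rw [intervalIntegral.integral_mul_const, integral_pow] at h1
  have h2 : 0 ≤ lam ^ 4 * chi R1 p := mul_nonneg (by positivity) chi_nonneg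
  push_cast at h1
  norm_num at h1
  linarith

private lemma StG_int_near (hs : IsSlice R1 p) (hy : Hyp R1 p om) (h1 : lam < R1) {r : ℝ}
    (hr : r ∈ Ioc 0 lam) :
    ∫ s in r..lam, |p.w s| / s ^ 3 ≤ chi R1 p / r ^ 3 * (lam - r) := by
  have hc := chi_nonneg (R1 := R1) (p := p)
  have h1 : ∫ s in r..lam, |p.w s| / s ^ 3 ≤ ∫ _ in r..lam, chi R1 p / r ^ 3 := by
    refine integral_mono_on hr.2 ?_ ?_ ?_
    · apply ContinuousOn.intervalIntegrable
      refine hs.cw.abs.continuousOn.div (continuous_pow 3).continuousOn ?_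
      intro s hs'
      rw [uIcc_of_le hr.2] at hs'
      have : 0 < s := hr.1.trans_le hs'.1
      positivity
    · exact continuous_const.intervalIntegrable _ _
    · intro s hs'
      have hs0 : 0 < s := hr.1.trans_le hs'.1
      have hr0 := hr.1
      refine div_le_div₀ hc (StG_w hs hy hs0.le (hs'.2.trans h1.le)) (by positivity) ?_
      exact pow_le_pow_left₀ hr0.le hs'.1 3
  rw [intervalIntegral.integral_const, smul_eq_mul] at h1
  linarith

private lemma StG_int_near2 (hs : IsSlice R1 p) (hy : Hyp R1 p om) (h1 : lam < R1) {r : ℝ}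
    (hr : r ∈ Ioc 0 lam) :
    ∫ s in r..lam, |p.w s| / s ^ 3 ≤ chi R1 p * (1 / (2 * r ^ 2)) := by
  have hc := chi_nonneg (R1 := R1) (p := p)
  have hr0 := hr.1
  have hl0 : 0 < lam := hr0.trans_le hr.2
  have h0n : (0 : ℝ) ∉ uIcc r lam := by
    rw [uIcc_of_le hr.2]
    intro h
    exact absurd h.1 (not_le.mpr hr0)
  have h1 : ∫ s in r..lam, |p.w s| / s ^ 3 ≤ ∫ s in r..lam, chi R1 p * s ^ (-3 : ℤ) := by
    refine integral_mono_on hr.2 ?_ ?_ ?_
    · apply ContinuousOn.intervalIntegrable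
      refine hs.cw.abs.continuousOn.div (continuous_pow 3).continuousOn ?_
      intro s hs'
      rw [uIcc_of_le hr.2] at hs'
      have : 0 < s := hr.1.trans_le hs'.1
      positivity
    · exact (intervalIntegral.intervalIntegrable_zpow (Or.inr h0n)).const_mul _
    · intro s hs'
      have hs0 : 0 < s := hr.1.trans_le hs'.1
      rw [div_eq_mul_inv]
      have e : (s ^ 3)⁻¹ = s ^ (-3 : ℤ) := by
        rw [zpow_neg]; norm_cast
      rw [e]
      exact mul_le_mul_of_nonneg_right (StG_w hs hy hs0.le (hs'.2.trans h1.le)) (by positivity)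
  rw [intervalIntegral.integral_const_mul, integral_zpow (Or.inr ⟨by norm_num, h0n⟩)] at h1
  refine h1.trans (mul_le_mul_of_nonneg_left ?_ hc)
  have e1 : ((-3 : ℤ) + 1) = -2 := by norm_num
  rw [e1]
  have e2 : ∀ x : ℝ, x ^ (-2 : ℤ) = 1 / x ^ 2 := by
    intro x
    rw [zpow_neg, one_div]; norm_cast
  rw [e2, e2]
  have h3 : 0 < 1 / lam ^ 2 := by positivity
  have h4 : 1 / (2 * r ^ 2) = (1 / r ^ 2) / 2 := by field_simp
  rw [h4]
  have e7 : (((-3 : ℤ) : ℝ) + 1) = -2 := by norm_num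
  rw [e7, div_neg, ← neg_div]
  linarith

theorem cos_far (hs : IsSlice R1 p) (hy : Hyp R1 p om) (hg : Geo R1 p om lam) :
    ∀ r ∈ Icc lam R1, 0 ≤ Real.cos (p.f r) := by
  intro r hr
  have hl := hg.lam_pos
  have hr0 : 0 < r := hl.trans_le hr.1
  obtain ⟨h1, h2⟩ := far0 hs hy.en hl hg.lam_lt hg.f_lam r hr
  apply StG_cos_nonneg h1
  rcases le_total r (2 * lam) with h | h
  · refine h2.trans ?_
    have h3 := StG_int_far hs hy hl hr
    have h4 := StG_chi_lam hs hy hg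
    have hc := chi_nonneg (R1 := R1) (p := p)
    have h5 : (9 / 5) * (1 / r ^ 3) * ∫ s in lam..r, s ^ 3 * |p.w s| ≤
        (9 / 5) * (1 / r ^ 3) * (r ^ 3 * chi R1 p * (r - lam)) :=
      mul_le_mul_of_nonneg_left h3 (by positivity)
    have e5 : (9 / 5) * (1 / r ^ 3) * (r ^ 3 * chi R1 p * (r - lam)) =
        (9 / 5) * (chi R1 p * (r - lam)) := by
      field_simp
    rw [e5] at h5
    set t := lam / r with ht
    have ht0 : 0 < t := by positivity
    have ht1 : t ≤ 1 := by rw [ht, div_le_one hr0]; exact hr.1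
    have ht3 : t ^ 3 ≤ t := by nlinarith [mul_nonneg ht0.le (sub_nonneg.mpr ht1), mul_pos ht0 ht0]
    have htr : t * r = lam := by rw [ht]; field_simp
    have h6 : (9 / 5) * (chi R1 p * (r - lam)) ≤ 1 - t := by
      have e6 : r - lam = (1 - t) * r := by rw [sub_mul, htr, one_mul]
      rw [e6]
      have h7 : (9 / 5) * (chi R1 p * r) ≤ 1 := by
        have : chi R1 p * r ≤ chi R1 p * (2 * lam) := mul_le_mul_of_nonneg_left h hc
        linarith
      have h8 : (1 - t) * ((9 / 5) * (chi R1 p * r)) ≤ (1 - t) * 1 :=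
        mul_le_mul_of_nonneg_left h7 (by linarith)
      linarith
    linarith
  · refine (far1 hs hy.en hl hg.lam_lt hg.f_lam r hr).trans ?_
    have h3 : lam / r ≤ 1 / 2 := by
      rw [div_le_div_iff₀ hr0 (by norm_num)]; linarith
    have h4 : (lam / r) ^ 3 ≤ (1 / 2) ^ 3 := pow_le_pow_left₀ (by positivity) h3 3
    unfold eps
    norm_num at h4 ⊢
    linarith

private lemma StG_sq {u : ℝ} (h : |u| ≤ 1 / 8 + eps) : 7 / 8 ≤ 1 - 2 * u ^ 2 := by
  have h1 : |u| ≤ 1 / 5 := h.trans (by unfold eps; norm_num)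
  have h2 : u ^ 2 ≤ (1 / 5) ^ 2 := by
    rw [← sq_abs]
    exact pow_le_pow_left₀ (abs_nonneg _) h1 2
  norm_num at h2
  linarith

theorem cos_far2 (hs : IsSlice R1 p) (hy : Hyp R1 p om) (hg : Geo R1 p om lam) :
    ∀ r ∈ Icc (2 * lam) R1, 7 / 8 ≤ Real.cos (p.f r) := by
  intro r hr
  have hl := hg.lam_pos
  have hr' : r ∈ Icc lam R1 := ⟨by linarith [hr.1], hr.2⟩
  have hr0 : 0 < r := hl.trans_le hr'.1
  obtain ⟨h1, h2⟩ := far0 hs hy.en hl hg.lam_lt hg.f_lam r hr'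
  refine le_trans ?_ (cos_ge_tan h1)
  apply StG_sq
  refine (far1 hs hy.en hl hg.lam_lt hg.f_lam r hr').trans ?_
  have h3 : lam / r ≤ 1 / 2 := by
    rw [div_le_div_iff₀ hr0 (by norm_num)]; linarith [hr.1]
  have h4 : (lam / r) ^ 3 ≤ (1 / 2) ^ 3 := pow_le_pow_left₀ (by positivity) h3 3
  norm_num at h4
  linarith

theorem cos_near (hs : IsSlice R1 p) (hy : Hyp R1 p om) (hg : Geo R1 p om lam) :
    ∀ r ∈ Ioc 0 lam, Real.cos (p.f r) ≤ 0 := by
  intro r hr
  have hl := hg.lam_pos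
  have hr0 : 0 < r := hr.1
  obtain ⟨h1, h2⟩ := near0 hs hy.en hl hg.lam_lt hg.f_lam r hr
  have key : 0 ≤ Real.cos (Real.pi - p.f r) := by
    apply StG_cos_nonneg h1
    refine h2.trans ?_
    have h3 := StG_int_near hs hy hg.lam_lt hr
    have h4 := StG_chi_lam hs hy hg
    have hc := chi_nonneg (R1 := R1) (p := p)
    have h5 : (9 / 5) * r ^ 3 * ∫ s in r..lam, |p.w s| / s ^ 3 ≤
        (9 / 5) * r ^ 3 * (chi R1 p / r ^ 3 * (lam - r)) :=
      mul_le_mul_of_nonneg_left h3 (by positivity)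
    have e5 : (9 / 5) * r ^ 3 * (chi R1 p / r ^ 3 * (lam - r)) =
        (9 / 5) * (chi R1 p * (lam - r)) := by
      field_simp
    rw [e5] at h5
    set t := r / lam with ht
    have ht0 : 0 < t := by positivity
    have ht1 : t ≤ 1 := by rw [ht, div_le_one hl]; exact hr.2
    have ht3 : t ^ 3 ≤ t := by nlinarith [mul_nonneg ht0.le (sub_nonneg.mpr ht1), mul_pos ht0 ht0]
    have htr : t * lam = r := by rw [ht]; field_simp
    have h6 : (9 / 5) * (chi R1 p * (lam - r)) ≤ 1 - t := by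
      have e6 : lam - r = (1 - t) * lam := by rw [sub_mul, htr, one_mul]
      rw [e6]
      have hcl : 0 ≤ chi R1 p * lam := mul_nonneg hc hl.le
      have h7 : (9 / 5) * (chi R1 p * lam) ≤ 1 := by linarith
      have h8 : (1 - t) * ((9 / 5) * (chi R1 p * lam)) ≤ (1 - t) * 1 :=
        mul_le_mul_of_nonneg_left h7 (by linarith)
      linarith
    linarith
  rw [Real.cos_pi_sub] at key
  linarith

theorem cos_near2 (hs : IsSlice R1 p) (hy : Hyp R1 p om) (hg : Geo R1 p om lam) :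
    ∀ r ∈ Ioc 0 (lam / 2), Real.cos (p.f r) ≤ -(7 / 8) := by
  intro r hr
  have hl := hg.lam_pos
  have hr0 : 0 < r := hr.1
  have hr' : r ∈ Ioc 0 lam := ⟨hr.1, by linarith [hr.2]⟩
  obtain ⟨h1, h2⟩ := near0 hs hy.en hl hg.lam_lt hg.f_lam r hr'
  have key : 7 / 8 ≤ Real.cos (Real.pi - p.f r) := by
    refine le_trans ?_ (cos_ge_tan h1)
    apply StG_sq
    refine (near1 hs hy.en hl hg.lam_lt hg.f_lam r hr').trans ?_
    have h3 : r / lam ≤ 1 / 2 := by
      rw [div_le_div_iff₀ hl (by norm_num)]; linarith [hr.2]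
    have h4 : (r / lam) ^ 3 ≤ (1 / 2) ^ 3 := pow_le_pow_left₀ (by positivity) h3 3
    norm_num at h4
    linarith
  rw [Real.cos_pi_sub] at key
  linarith

theorem far2 (hs : IsSlice R1 p) (hy : Hyp R1 p om) (hg : Geo R1 p om lam) :
    ∀ r ∈ Icc lam R1, |Real.tan (p.f r / 2)| ≤ (lam / r) ^ 3 + chi R1 p * r / 2 := by
  intro r hr
  have hl := hg.lam_pos
  have hr0 : 0 < r := hl.trans_le hr.1
  obtain ⟨h1, h2⟩ := far0 hs hy.en hl hg.lam_lt hg.f_lam r hr
  refine h2.trans ?_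
  have h3 := StG_int_far2 hs hy hl hr
  have h5 : (9 / 5) * (1 / r ^ 3) * ∫ s in lam..r, s ^ 3 * |p.w s| ≤
      (9 / 5) * (1 / r ^ 3) * (chi R1 p * r ^ 4 / 4) :=
    mul_le_mul_of_nonneg_left h3 (by positivity)
  have e5 : (9 / 5) * (1 / r ^ 3) * (chi R1 p * r ^ 4 / 4) = (9 / 20) * (chi R1 p * r) := by
    field_simp
    ring
  rw [e5] at h5
  have hc : 0 ≤ chi R1 p * r := mul_nonneg chi_nonneg hr0.le
  linarith

theorem near2 (hs : IsSlice R1 p) (hy : Hyp R1 p om) (hg : Geo R1 p om lam) :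
    ∀ r ∈ Ioc 0 lam, |Real.tan ((Real.pi - p.f r) / 2)| ≤ (r / lam) ^ 3 + chi R1 p * r := by
  intro r hr
  have hl := hg.lam_pos
  have hr0 : 0 < r := hr.1
  obtain ⟨h1, h2⟩ := near0 hs hy.en hl hg.lam_lt hg.f_lam r hr
  refine h2.trans ?_
  have h3 := StG_int_near2 hs hy hg.lam_lt hr
  have h5 : (9 / 5) * r ^ 3 * ∫ s in r..lam, |p.w s| / s ^ 3 ≤
      (9 / 5) * r ^ 3 * (chi R1 p * (1 / (2 * r ^ 2))) :=
    mul_le_mul_of_nonneg_left h3 (by positivity)
  have e5 : (9 / 5) * r ^ 3 * (chi R1 p * (1 / (2 * r ^ 2))) = (9 / 10) * (chi R1 p * r) := by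
    field_simp
    ring
  rw [e5] at h5
  have hc : 0 ≤ chi R1 p * r := mul_nonneg chi_nonneg hr0.le
  linarith

end H72GS

end S_StG

section S_StH

/-!
# StH (only `I_sin2, I_sin2_all, sin_far, sin_L`)

`chi = √X`, `Lam = chi + om² lam`, `L = ep1 / om`, `b = om lam ≤ eps = 10⁻²²`.
* `chi_le`: `X ≤ Gam² om⁴ N ≤ 3 Gam² om⁴ lam²`, `√3 · 1.3·10⁷ ≤ 3·10⁷`.
  Consequences: `chi lam ≤ 3·10⁷ b²`, `chi ≤ 3·10⁷ b om`, `Lam ≤ 4·10⁷ b om ≤ 10⁻¹⁴ om`.
* `sqrt_om_le`: from `b_lo`: `√om ≤ 2 om² lam` (`1 ≤ 3 om³ lam²`).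
* `cos_far`: for `lam ≤ r ≤ 2 lam`: `|u| ≤ (lam/r)³ + (9/5) chi (r - lam) ≤ 1` because
  `1 - (lam/r)³ ≥ (r-lam)/(2 lam)` and `(18/5) chi lam ≤ 1`; for `r ≥ 2 lam`: `|u| ≤ 1/8 + eps`.
  (use `far0` with `|w| ≤ chi`: `r⁻³ ∫ s³ chi ≤ chi (r-lam)` and `≤ chi r / 4`.)
* `far2`: `|tan (f/2)| ≤ (lam/r)³ + chi r / 2`;
  `near2`: `|tan ((π-f)/2)| ≤ (r/lam)³ + chi r` (`r³ ∫_r^lam s⁻³ ≤ r/2`).
* `I_sin2`: `∫_0^L r sin² f ≤ lam²/2 + 8 ∫_lam^L ((lam/r)⁶ + chi² r²/4) r
  ≤ 2.5 lam² + chi² L⁴/2`, `chi² L⁴ ≤ 9·10¹⁴ om⁴ lam² · 10⁻¹⁶ / om⁴`.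
* `I_sin2_far`: `∫_L^{R1} r sin² f ≤ 8 ∫ ((lam/r)⁶ + eps²) r`.
* `sin_far`: `|sin f| ≤ 2((lam/L)³ + eps)`, `lam/L = 10⁴ b`.
* `sin_L`: `4 om |sin f(L)| ≤ 8 om ((lam/L)³ + chi L/2)`, `8 om (10⁴ b)³ ≤ b om`,
  `4 om chi L = 4·10⁻⁴ chi`.
-/

namespace H72GS

open Set MeasureTheory intervalIntegral

variable {R1 : ℝ} {p : Pre} {om lam : ℝ}

private lemma stH_sin (hs : IsSlice R1 p) (hy : Hyp R1 p om) (hg : Geo R1 p om lam) :
    ∀ r ∈ Icc lam R1, |Real.sin (p.f r)| ≤ 2 * ((lam / r) ^ 3 + chi R1 p * r / 2) := by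
  intro r hr
  have h1 := (far0 hs hy.en hg.lam_pos hg.lam_lt hg.f_lam r hr).1
  have h2 := sin_le_tan h1
  have h3 := far2 hs hy hg r hr
  linarith

private lemma stH_om (hy : Hyp R1 p om) : 0 < om := lt_of_lt_of_le (by norm_num) hy.hom

private lemma stH_pt (hs : IsSlice R1 p) (hy : Hyp R1 p om) (hg : Geo R1 p om lam) :
    ∀ r ∈ Icc lam R1, r * Real.sin (p.f r) ^ 2 ≤
      8 * lam ^ 6 / r ^ 5 + 2 * chi R1 p ^ 2 * r ^ 3 := by
  intro r hr
  have hr0 : 0 < r := lt_of_lt_of_le hg.lam_pos hr.1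
  have h1 := stH_sin hs hy hg r hr
  have h0 : 0 ≤ |Real.sin (p.f r)| := abs_nonneg _
  have h2 : |Real.sin (p.f r)| ^ 2 ≤ (2 * ((lam / r) ^ 3 + chi R1 p * r / 2)) ^ 2 :=
    pow_le_pow_left₀ h0 h1 2
  rw [sq_abs] at h2
  have h3 : (2 * ((lam / r) ^ 3 + chi R1 p * r / 2)) ^ 2 ≤
      8 * (lam / r) ^ 6 + 2 * chi R1 p ^ 2 * r ^ 2 := by
    have e : (lam / r) ^ 6 = ((lam / r) ^ 3) ^ 2 := by ring
    rw [e]
    nlinarith [sq_nonneg ((lam / r) ^ 3 - chi R1 p * r / 2)]
  calc r * Real.sin (p.f r) ^ 2 ≤ r * (8 * (lam / r) ^ 6 + 2 * chi R1 p ^ 2 * r ^ 2) :=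
        mul_le_mul_of_nonneg_left (le_trans h2 h3) hr0.le
    _ = 8 * lam ^ 6 / r ^ 5 + 2 * chi R1 p ^ 2 * r ^ 3 := by
        field_simp

theorem I_sin2 (hs : IsSlice R1 p) (hy : Hyp R1 p om) (hg : Geo R1 p om lam) :
    ∫ r in (0 : ℝ)..(ep1 / om), r * Real.sin (p.f r) ^ 2 ≤ 3 * lam ^ 2 := by
  have hLR := L_le hs hy
  have hlamL := lam_le_L hy hg
  have hlam := hg.lam_pos
  have hom := stH_om hy
  have hchi := chi_le hs hy hg
  have hchi0 : 0 ≤ chi R1 p := chi_nonneg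
  have hR := hs.R1pos
  have hLom : (ep1 / om) * om = 1 / 10 ^ 4 := by
    unfold ep1
    field_simp
  have hLpos : 0 < ep1 / om := L_pos hy
  set L := ep1 / om with hL
  have hlamL' : lam ≤ L := by
    have : lam ≤ 10 ^ 17 * lam := by nlinarith
    linarith
  have hcf := hs.cf
  have hcont : Continuous (fun r => r * Real.sin (p.f r) ^ 2) := by fun_prop
  have hsplit : ∫ r in (0 : ℝ)..L, r * Real.sin (p.f r) ^ 2 =
      (∫ r in (0 : ℝ)..lam, r * Real.sin (p.f r) ^ 2)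
        + ∫ r in lam..L, r * Real.sin (p.f r) ^ 2 :=
    (intervalIntegral.integral_add_adjacent_intervals (hcont.intervalIntegrable _ _)
      (hcont.intervalIntegrable _ _)).symm
  have p1 : ∫ r in (0 : ℝ)..lam, r * Real.sin (p.f r) ^ 2 ≤ lam ^ 2 / 2 := by
    have : ∫ r in (0 : ℝ)..lam, r * Real.sin (p.f r) ^ 2 ≤ ∫ r in (0 : ℝ)..lam, r := by
      apply intervalIntegral.integral_mono_on hlam.le (hcont.intervalIntegrable _ _)
      · exact continuous_id.intervalIntegrable _ _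
      · intro r hr
        have h1 : Real.sin (p.f r) ^ 2 ≤ 1 := Real.sin_sq_le_one _
        nlinarith [hr.1]
    have e : ∫ r in (0 : ℝ)..lam, r = lam ^ 2 / 2 := by
      rw [integral_id]; ring
    linarith
  have p2 : ∫ r in lam..L, r * Real.sin (p.f r) ^ 2 ≤ 2 * lam ^ 2 + chi R1 p ^ 2 * L ^ 4 / 2 := by
    have hne : ∀ r ∈ Icc lam L, r ^ 5 ≠ 0 := fun r hr => by
      have : 0 < r := lt_of_lt_of_le hlam hr.1
      positivity
    have hcb : ContinuousOn (fun r : ℝ => 8 * lam ^ 6 / r ^ 5 + 2 * chi R1 p ^ 2 * r ^ 3)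
        (Icc lam L) := by
      apply ContinuousOn.add
      · exact ContinuousOn.div (by fun_prop) (by fun_prop) hne
      · fun_prop
    have hib : IntervalIntegrable (fun r : ℝ => 8 * lam ^ 6 / r ^ 5 + 2 * chi R1 p ^ 2 * r ^ 3)
        volume lam L := hcb.intervalIntegrable_of_Icc hlamL'
    have h1 : ∫ r in lam..L, r * Real.sin (p.f r) ^ 2 ≤
        ∫ r in lam..L, (8 * lam ^ 6 / r ^ 5 + 2 * chi R1 p ^ 2 * r ^ 3) := by
      apply intervalIntegral.integral_mono_on hlamL' (hcont.intervalIntegrable _ _) hib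
      intro r hr
      exact stH_pt hs hy hg r ⟨hr.1, by linarith [hr.2]⟩
    have h2 : ∫ r in lam..L, (8 * lam ^ 6 / r ^ 5 + 2 * chi R1 p ^ 2 * r ^ 3) =
        (-2 * lam ^ 6 / L ^ 4 + chi R1 p ^ 2 * L ^ 4 / 2)
          - (-2 * lam ^ 6 / lam ^ 4 + chi R1 p ^ 2 * lam ^ 4 / 2) := by
      apply intervalIntegral.integral_eq_sub_of_hasDerivAt (f := fun r =>
        -2 * lam ^ 6 / r ^ 4 + chi R1 p ^ 2 * r ^ 4 / 2) _ hib
      intro r hr
      rw [uIcc_of_le hlamL'] at hr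
      have hr0 : 0 < r := lt_of_lt_of_le hlam hr.1
      have d1 : HasDerivAt (fun x : ℝ => x ^ 4) (4 * r ^ 3) r := by
        simpa using hasDerivAt_pow 4 r
      have d2 := ((hasDerivAt_const r (-2 * lam ^ 6)).div d1 (by positivity))
      have d3 : HasDerivAt (fun x : ℝ => chi R1 p ^ 2 * x ^ 4 / 2)
          (chi R1 p ^ 2 * (4 * r ^ 3) / 2) r := (d1.const_mul _).div_const 2
      refine (d2.add d3).congr_deriv ?_
      field_simp
      ring
    have h3 : -2 * lam ^ 6 / L ^ 4 ≤ 0 := by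
      have : 0 ≤ 2 * lam ^ 6 / L ^ 4 := by positivity
      have e : -2 * lam ^ 6 / L ^ 4 = -(2 * lam ^ 6 / L ^ 4) := by ring
      linarith
    have h4 : -2 * lam ^ 6 / lam ^ 4 = -2 * lam ^ 2 := by
      field_simp
    have h5 : 0 ≤ chi R1 p ^ 2 * lam ^ 4 / 2 := by positivity
    rw [h2, h4] at h1
    linarith
  have p3 : chi R1 p ^ 2 * L ^ 4 ≤ (9 / 100) * lam ^ 2 := by
    have h1 : chi R1 p ^ 2 ≤ (3 * 10 ^ 7 * om ^ 2 * lam) ^ 2 := pow_le_pow_left₀ hchi0 hchi 2
    calc chi R1 p ^ 2 * L ^ 4 ≤ (3 * 10 ^ 7 * om ^ 2 * lam) ^ 2 * L ^ 4 :=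
          mul_le_mul_of_nonneg_right h1 (by positivity)
      _ = 9 * 10 ^ 14 * (L * om) ^ 4 * lam ^ 2 := by ring
      _ = (9 / 100) * lam ^ 2 := by rw [hLom]; norm_num
  rw [hsplit]
  have : 0 ≤ lam ^ 2 := by positivity
  linarith

theorem sin_far (hs : IsSlice R1 p) (hy : Hyp R1 p om) (hg : Geo R1 p om lam) :
    ∀ r ∈ Icc (ep1 / om) R1, |Real.sin (p.f r)| ≤ 3 * eps := by
  intro r hr
  have hlamL := lam_le_L hy hg
  have hlam := hg.lam_pos
  have hLpos : 0 < ep1 / om := L_pos hy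
  have hr0 : 0 < r := lt_of_lt_of_le hLpos hr.1
  have hlr : 10 ^ 17 * lam ≤ r := le_trans hlamL hr.1
  have hlr' : lam ≤ r := by nlinarith
  have hmem : r ∈ Icc lam R1 := ⟨hlr', hr.2⟩
  have h1 := (far0 hs hy.en hg.lam_pos hg.lam_lt hg.f_lam r hmem).1
  have h2 := sin_le_tan h1
  have h3 := far1 hs hy.en hg.lam_pos hg.lam_lt hg.f_lam r hmem
  have h4 : lam / r ≤ 1 / 10 ^ 17 := by
    rw [div_le_div_iff₀ hr0 (by norm_num)]
    linarith
  have h5 : (lam / r) ^ 3 ≤ (1 / 10 ^ 17) ^ 3 := pow_le_pow_left₀ (by positivity) h4 3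
  have h6 : (1 / 10 ^ 17 : ℝ) ^ 3 ≤ eps / 2 := by unfold eps; norm_num
  linarith

theorem I_sin2_all (hs : IsSlice R1 p) (hy : Hyp R1 p om) (hg : Geo R1 p om lam) :
    ∫ r in (0 : ℝ)..R1, r * Real.sin (p.f r) ^ 2 ≤ 1 / 10 ^ 40 := by
  have hLR := L_le hs hy
  have hlam := hg.lam_pos
  have hom := stH_om hy
  have hR := hs.R1pos
  have hR1 := hs.R1le
  have hLpos : 0 < ep1 / om := L_pos hy
  have hI := I_sin2 hs hy hg
  have hfar := sin_far hs hy hg
  set L := ep1 / om with hL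
  have hcf := hs.cf
  have hcont : Continuous (fun r => r * Real.sin (p.f r) ^ 2) := by fun_prop
  have hsplit : ∫ r in (0 : ℝ)..R1, r * Real.sin (p.f r) ^ 2 =
      (∫ r in (0 : ℝ)..L, r * Real.sin (p.f r) ^ 2)
        + ∫ r in L..R1, r * Real.sin (p.f r) ^ 2 :=
    (intervalIntegral.integral_add_adjacent_intervals (hcont.intervalIntegrable _ _)
      (hcont.intervalIntegrable _ _)).symm
  have hLR' : L ≤ R1 := by linarith
  have p2 : ∫ r in L..R1, r * Real.sin (p.f r) ^ 2 ≤ 9 * eps ^ 2 := by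
    have h1 : ∫ r in L..R1, r * Real.sin (p.f r) ^ 2 ≤ ∫ r in L..R1, 9 * eps ^ 2 := by
      apply intervalIntegral.integral_mono_on hLR' (hcont.intervalIntegrable _ _)
      · exact continuous_const.intervalIntegrable _ _
      · intro r hr
        have h2 := hfar r hr
        have h3 : |Real.sin (p.f r)| ^ 2 ≤ (3 * eps) ^ 2 := pow_le_pow_left₀ (abs_nonneg _) h2 2
        rw [sq_abs] at h3
        have hr0 : 0 ≤ r := by linarith [hr.1]
        have hr1 : r ≤ 1 := by linarith [hr.2]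
        have h4 : 0 ≤ Real.sin (p.f r) ^ 2 := sq_nonneg _
        nlinarith
    rw [intervalIntegral.integral_const, smul_eq_mul] at h1
    have h5 : R1 - L ≤ 1 := by linarith
    have h6 : 0 ≤ 9 * eps ^ 2 := by positivity
    nlinarith
  have p3 : lam ≤ eps / 10 ^ 60 := by
    have h1 := hg.b_le
    rw [le_div_iff₀ (by norm_num)]
    have h2 : 10 ^ 60 * lam ≤ om * lam := mul_le_mul_of_nonneg_right hy.hom hlam.le
    linarith
  have p4 : lam ^ 2 ≤ (eps / 10 ^ 60) ^ 2 := pow_le_pow_left₀ hlam.le p3 2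
  have p5 : 3 * (eps / 10 ^ 60) ^ 2 + 9 * eps ^ 2 ≤ 1 / 10 ^ 40 := by
    unfold eps; norm_num
  rw [hsplit]
  linarith

theorem sin_L (hs : IsSlice R1 p) (hy : Hyp R1 p om) (hg : Geo R1 p om lam) :
    4 * om * |Real.sin (p.f (ep1 / om))| ≤ Lam R1 p om lam := by
  have hLR := L_le hs hy
  have hlamL := lam_le_L hy hg
  have hlam := hg.lam_pos
  have hom := stH_om hy
  have hchi0 : 0 ≤ chi R1 p := chi_nonneg
  have hR := hs.R1pos
  have hb := hg.b_le
  have hLom : (ep1 / om) * om = 1 / 10 ^ 4 := by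
    unfold ep1
    field_simp
  have hLpos : 0 < ep1 / om := L_pos hy
  have hquot : lam / (ep1 / om) = 10 ^ 4 * (om * lam) := by
    unfold ep1
    field_simp
  set L := ep1 / om with hL
  have hlamL' : lam ≤ L := by nlinarith
  have h1 := stH_sin hs hy hg L ⟨hlamL', by linarith⟩
  rw [hquot] at h1
  have hb0 : 0 ≤ om * lam := by positivity
  have hb2 : (om * lam) ^ 2 ≤ eps ^ 2 := pow_le_pow_left₀ hb0 hb 2
  have h2 : 4 * om * |Real.sin (p.f L)| ≤
      4 * om * (2 * ((10 ^ 4 * (om * lam)) ^ 3 + chi R1 p * L / 2)) :=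
    mul_le_mul_of_nonneg_left h1 (by positivity)
  have h3 : 4 * om * (2 * ((10 ^ 4 * (om * lam)) ^ 3 + chi R1 p * L / 2)) =
      (8 * 10 ^ 12 * (om * lam) ^ 2) * (om * (om * lam)) + 4 * (L * om) * chi R1 p := by ring
  have h4 : 8 * 10 ^ 12 * (om * lam) ^ 2 ≤ 1 := by
    have : 8 * 10 ^ 12 * eps ^ 2 ≤ 1 := by unfold eps; norm_num
    nlinarith
  have h5 : (8 * 10 ^ 12 * (om * lam) ^ 2) * (om * (om * lam)) ≤ 1 * (om * (om * lam)) :=
    mul_le_mul_of_nonneg_right h4 (by positivity)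
  rw [hLom] at h3
  unfold Lam
  have h6 : om * (om * lam) = om ^ 2 * lam := by ring
  linarith

end H72GS

end S_StH

section S_StE

/-!
# StE: pointwise bounds for the gauge part

* `e_abs`: `r e(r) = ∫_0^r s (yt - g sin f)` (field `de`), Cauchy-Schwarz with `∫_0^r s = r²/2`:
  `|e| ≤ (‖yt‖ + ‖g‖)/√2 ≤ √om + eps`, where `∫ r yt² ≤ 2 Ey ≤ 2 om`; then `sqrt_om_le`.
  (at `r = 0` use continuity.)
* `ry_abs`: `y(r)² = -∫_r^{R1} 2 y yr` (`y(R1) = 0`), so `r y² ≤ 2 ∫ s |y||yr| ≤ 2 eps √(2 om) ≤ √om`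
  and `(r y)² ≤ R1 √om ≤ √om`, `√om ≤ om · 10⁻³⁰`.
* `es_L2`, `es_L2_all`: `‖e sin f‖² ≤ (4 om² lam)² ∫ r sin²`.
-/

namespace H72GS

open Set MeasureTheory intervalIntegral

variable {R1 : ℝ} {p : Pre} {om lam : ℝ}

theorem StE_parts (hs : IsSlice R1 p) (hy : Hyp R1 p om) :
    ∫ r in (0 : ℝ)..R1, r * p.yt r ^ 2 ≤ 2 * om ∧ ∫ r in (0 : ℝ)..R1, r * p.yr r ^ 2 ≤ 2 * om := by
  have hR := hs.R1pos.le
  have c1 := hs.cyt
  have c2 := hs.cyr
  have c3 := hs.cy
  have c4 : Continuous (fun r => Real.sin (p.f r)) := Real.continuous_sin.comp hs.cf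
  have hE : ∫ r in (0 : ℝ)..R1, (1 / 2) * r * (p.yt r ^ 2 + p.yr r ^ 2
      + Real.sin (p.f r) ^ 2 * p.y r ^ 2) ≤ om := hy.hEy
  have hE2 : ∫ r in (0 : ℝ)..R1, 2 * ((1 / 2) * r * (p.yt r ^ 2 + p.yr r ^ 2
      + Real.sin (p.f r) ^ 2 * p.y r ^ 2)) ≤ 2 * om := by
    rw [intervalIntegral.integral_const_mul]; linarith
  have cI : Continuous (fun r => 2 * ((1 / 2) * r * (p.yt r ^ 2 + p.yr r ^ 2
      + Real.sin (p.f r) ^ 2 * p.y r ^ 2))) := by fun_prop
  constructor
  · refine le_trans (integral_mono_on hR (Continuous.intervalIntegrable (by fun_prop) _ _)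
      (cI.intervalIntegrable _ _) ?_) hE2
    intro r hr
    have h1 : 0 ≤ r * p.yr r ^ 2 := mul_nonneg hr.1 (sq_nonneg _)
    have h2 : 0 ≤ r * (Real.sin (p.f r) ^ 2 * p.y r ^ 2) := mul_nonneg hr.1 (by positivity)
    have h3 : 2 * ((1 / 2) * r * (p.yt r ^ 2 + p.yr r ^ 2 + Real.sin (p.f r) ^ 2 * p.y r ^ 2))
      = r * p.yt r ^ 2 + r * p.yr r ^ 2 + r * (Real.sin (p.f r) ^ 2 * p.y r ^ 2) := by ring
    rw [h3]; linarith
  · refine le_trans (integral_mono_on hR (Continuous.intervalIntegrable (by fun_prop) _ _)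
      (cI.intervalIntegrable _ _) ?_) hE2
    intro r hr
    have h1 : 0 ≤ r * p.yt r ^ 2 := mul_nonneg hr.1 (sq_nonneg _)
    have h2 : 0 ≤ r * (Real.sin (p.f r) ^ 2 * p.y r ^ 2) := mul_nonneg hr.1 (by positivity)
    have h3 : 2 * ((1 / 2) * r * (p.yt r ^ 2 + p.yr r ^ 2 + Real.sin (p.f r) ^ 2 * p.y r ^ 2))
      = r * p.yt r ^ 2 + r * p.yr r ^ 2 + r * (Real.sin (p.f r) ^ 2 * p.y r ^ 2) := by ring
    rw [h3]; linarith

theorem yt_L2 (hs : IsSlice R1 p) (hy : Hyp R1 p om) :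
    ∫ r in (0 : ℝ)..R1, r * p.yt r ^ 2 ≤ 2 * om := (StE_parts hs hy).1

theorem StE_om (hy : Hyp R1 p om) : 0 < om := lt_of_lt_of_le (by norm_num) hy.hom

theorem e_abs (hs : IsSlice R1 p) (hy : Hyp R1 p om) (hg : Geo R1 p om lam) :
    ∀ r ∈ Icc 0 R1, |p.e r| ≤ 4 * om ^ 2 * lam := by
  have ho := StE_om hy
  have hR := hs.R1pos
  have c1 := hs.cyt
  have c2 := hs.cg
  have c4 : Continuous (fun r => Real.sin (p.f r)) := Real.continuous_sin.comp hs.cf
  have key : ∀ r ∈ Ioc 0 R1, |p.e r| ≤ 4 * om ^ 2 * lam := by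
    intro r hr
    have hr0 := hr.1
    have hI : ∫ s in (0 : ℝ)..r, s * (p.yt s - p.g s * Real.sin (p.f s)) = r * p.e r := by
      have := intervalIntegral.integral_eq_sub_of_hasDerivAt (a := 0) (b := r)
        (f := fun x => x * p.e x) (f' := fun s => s * (p.yt s - p.g s * Real.sin (p.f s)))
        (fun x _ => hs.de x) (Continuous.intervalIntegrable (by fun_prop) _ _)
      rw [this]; simp
    have hone : ∫ s in (0 : ℝ)..r, s * (1 : ℝ) ^ 2 = r ^ 2 / 2 := by
      simp [integral_id]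
    have hsq : Real.sqrt (∫ s in (0 : ℝ)..r, s * (1 : ℝ) ^ 2) = r / Real.sqrt 2 := by
      rw [hone, Real.sqrt_div (sq_nonneg r), Real.sqrt_sq hr0.le]
    have A1 := csr (a := 0) (b := r) le_rfl hr0.le (u := p.yt) (v := fun _ => (1 : ℝ))
      c1.continuousOn continuousOn_const
    have A2 := csr (a := 0) (b := r) le_rfl hr0.le (u := p.g) (v := fun _ => (1 : ℝ))
      c2.continuousOn continuousOn_const
    have B1 : ∫ s in (0 : ℝ)..r, s * p.yt s ^ 2 ≤ 2 * om := by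
      refine le_trans ?_ (yt_L2 hs hy)
      exact int_mono_set le_rfl hr0.le hr.2 (by fun_prop)
        (fun x hx => mul_nonneg hx.1 (sq_nonneg _))
    have B2 : ∫ s in (0 : ℝ)..r, s * p.g s ^ 2 ≤ eps ^ 2 := by
      refine le_trans ?_ (En_parts hs hy.en).1
      exact int_mono_set le_rfl hr0.le hr.2 (by fun_prop)
        (fun x hx => mul_nonneg hx.1 (sq_nonneg _))
    have epos : 0 < eps := by unfold eps; positivity
    have S1 : Real.sqrt (∫ s in (0 : ℝ)..r, s * p.yt s ^ 2) ≤ Real.sqrt 2 * Real.sqrt om := by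
      rw [← Real.sqrt_mul (by norm_num : (0 : ℝ) ≤ 2)]
      exact Real.sqrt_le_sqrt B1
    have S2 : Real.sqrt (∫ s in (0 : ℝ)..r, s * p.g s ^ 2) ≤ eps := by
      have := Real.sqrt_le_sqrt B2
      rwa [Real.sqrt_sq epos.le] at this
    have habs : |r * p.e r| ≤ (∫ s in (0 : ℝ)..r, s * (|p.yt s| * |(1 : ℝ)|))
        + ∫ s in (0 : ℝ)..r, s * (|p.g s| * |(1 : ℝ)|) := by
      rw [← hI, ← intervalIntegral.integral_add (Continuous.intervalIntegrable (by fun_prop) _ _)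
        (Continuous.intervalIntegrable (by fun_prop) _ _)]
      refine le_trans (intervalIntegral.abs_integral_le_integral_abs hr0.le) ?_
      refine integral_mono_on hr0.le (Continuous.intervalIntegrable (by fun_prop) _ _)
        (Continuous.intervalIntegrable (by fun_prop) _ _) ?_
      intro s hs'
      rw [abs_mul, abs_of_nonneg hs'.1, abs_one, mul_one, mul_one, ← mul_add]
      refine mul_le_mul_of_nonneg_left ?_ hs'.1
      have h1 : |p.g s * Real.sin (p.f s)| ≤ |p.g s| := by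
        rw [abs_mul]
        exact mul_le_of_le_one_right (abs_nonneg _) (Real.abs_sin_le_one _)
      exact le_trans (abs_sub _ _) (by linarith)
    rw [hsq] at A1 A2
    have h2 : 0 < Real.sqrt 2 := Real.sqrt_pos.2 (by norm_num)
    have h22 : 1 ≤ Real.sqrt 2 := by
      rw [show (1 : ℝ) = Real.sqrt 1 by simp]
      exact Real.sqrt_le_sqrt (by norm_num)
    have C1 : ∫ s in (0 : ℝ)..r, s * (|p.yt s| * |(1 : ℝ)|) ≤ Real.sqrt om * r := by
      refine le_trans A1 ?_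
      have : Real.sqrt (∫ s in (0 : ℝ)..r, s * p.yt s ^ 2) * (r / Real.sqrt 2)
          ≤ (Real.sqrt 2 * Real.sqrt om) * (r / Real.sqrt 2) :=
        mul_le_mul_of_nonneg_right S1 (by positivity)
      refine le_trans this (le_of_eq ?_)
      field_simp
    have C2 : ∫ s in (0 : ℝ)..r, s * (|p.g s| * |(1 : ℝ)|) ≤ eps * r := by
      refine le_trans A2 ?_
      have h5 : r / Real.sqrt 2 ≤ r := div_le_self hr0.le h22
      exact mul_le_mul S2 h5 (by positivity) epos.le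
    have hso : eps ≤ Real.sqrt om := by
      have : (1 : ℝ) ≤ Real.sqrt om := by
        rw [show (1 : ℝ) = Real.sqrt 1 by simp]
        exact Real.sqrt_le_sqrt (le_trans (by norm_num) hy.hom)
      have h6 : eps ≤ 1 := by unfold eps; norm_num
      linarith
    have h7 : |r * p.e r| ≤ r * (2 * Real.sqrt om) := by
      have : eps * r ≤ Real.sqrt om * r := mul_le_mul_of_nonneg_right hso hr0.le
      calc |r * p.e r| ≤ Real.sqrt om * r + eps * r := le_trans habs (add_le_add C1 C2)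
        _ ≤ r * (2 * Real.sqrt om) := by linarith
    rw [abs_mul, abs_of_pos hr0] at h7
    have h8 : |p.e r| ≤ 2 * Real.sqrt om := le_of_mul_le_mul_left h7 hr0
    have h9 := sqrt_om_le hy hg
    calc |p.e r| ≤ 2 * Real.sqrt om := h8
      _ ≤ 2 * (2 * om ^ 2 * lam) := by linarith
      _ = 4 * om ^ 2 * lam := by ring
  have hcl : IsClosed {x | |p.e x| ≤ 4 * om ^ 2 * lam} :=
    isClosed_le (continuous_abs.comp hs.ce) continuous_const
  intro r hr
  have h1 : closure (Ioc 0 R1) ⊆ {x | |p.e x| ≤ 4 * om ^ 2 * lam} :=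
    hcl.closure_subset_iff.2 key
  rw [closure_Ioc hR.ne] at h1
  exact h1 hr

theorem ry_abs (hs : IsSlice R1 p) (hy : Hyp R1 p om) :
    ∀ r ∈ Icc 0 R1, |r * p.y r| ≤ om / 10 ^ 12 := by
  intro r hr
  have ho := StE_om hy
  have hR := hs.R1pos
  have c2 := hs.cyr
  have c3 := hs.cy
  have epos : 0 < eps := by unfold eps; positivity
  -- `y(r)² = -∫ 2 y yr`
  have hI : ∫ s in r..R1, 2 * p.y s * p.yr s = 0 - p.y r ^ 2 := by
    have := intervalIntegral.integral_eq_sub_of_hasDerivAt (a := r) (b := R1)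
      (f := fun x => p.y x ^ 2) (f' := fun s => 2 * p.y s * p.yr s)
      (fun x _ => by
        have := (hs.dy x).pow 2
        refine this.congr_deriv ?_
        simp) (Continuous.intervalIntegrable (by fun_prop) _ _)
    rw [this, hs.yR]; ring
  have h1 : r * p.y r ^ 2 ≤ ∫ s in r..R1, 2 * (s * (|p.y s| * |p.yr s|)) := by
    have e1 : r * p.y r ^ 2 = ∫ s in r..R1, r * (-(2 * p.y s * p.yr s)) := by
      rw [intervalIntegral.integral_const_mul, intervalIntegral.integral_neg, hI]; ring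
    rw [e1]
    refine integral_mono_on hr.2 (Continuous.intervalIntegrable (by fun_prop) _ _)
      (Continuous.intervalIntegrable (by fun_prop) _ _) ?_
    intro s hs'
    have h2 : -(2 * p.y s * p.yr s) ≤ 2 * (|p.y s| * |p.yr s|) := by
      have := neg_abs_le (p.y s * p.yr s)
      rw [abs_mul] at this
      linarith
    have h3 : 0 ≤ |p.y s| * |p.yr s| := by positivity
    calc r * (-(2 * p.y s * p.yr s)) ≤ r * (2 * (|p.y s| * |p.yr s|)) :=
          mul_le_mul_of_nonneg_left h2 hr.1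
      _ ≤ s * (2 * (|p.y s| * |p.yr s|)) := mul_le_mul_of_nonneg_right hs'.1 (by positivity)
      _ = 2 * (s * (|p.y s| * |p.yr s|)) := by ring
  have h2 : ∫ s in r..R1, 2 * (s * (|p.y s| * |p.yr s|))
      ≤ ∫ s in (0 : ℝ)..R1, 2 * (s * (|p.y s| * |p.yr s|)) := by
    refine int_mono_set hr.1 hr.2 le_rfl (by fun_prop) (fun x hx => ?_)
    have := hx.1
    positivity
  have h2' : ∫ s in (0 : ℝ)..R1, 2 * (s * (|p.y s| * |p.yr s|))
      = 2 * ∫ s in (0 : ℝ)..R1, s * (|p.y s| * |p.yr s|) :=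
    intervalIntegral.integral_const_mul _ _
  rw [h2'] at h2
  have h3 := csr (a := 0) (b := R1) le_rfl hR.le c3.continuousOn c2.continuousOn
  have S1 : Real.sqrt (∫ s in (0 : ℝ)..R1, s * p.y s ^ 2) ≤ eps := by
    have := Real.sqrt_le_sqrt (En_parts hs hy.en).2.2.1
    rwa [Real.sqrt_sq epos.le] at this
  have S2 : Real.sqrt (∫ s in (0 : ℝ)..R1, s * p.yr s ^ 2) ≤ Real.sqrt (2 * om) :=
    Real.sqrt_le_sqrt (StE_parts hs hy).2
  have S3 : Real.sqrt (2 * om) ≤ 2 * om := by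
    rw [Real.sqrt_le_iff]
    have : (1 : ℝ) ≤ om := le_trans (by norm_num) hy.hom
    constructor
    · linarith
    · nlinarith
  have h4 : r * p.y r ^ 2 ≤ om := by
    have h5 : Real.sqrt (∫ s in (0 : ℝ)..R1, s * p.y s ^ 2)
        * Real.sqrt (∫ s in (0 : ℝ)..R1, s * p.yr s ^ 2) ≤ eps * (2 * om) :=
      mul_le_mul S1 (S2.trans S3) (Real.sqrt_nonneg _) epos.le
    have h6 : 2 * (eps * (2 * om)) ≤ om := by
      have : eps ≤ 1 / 4 := by unfold eps; norm_num
      nlinarith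
    linarith
  have h5 : (r * p.y r) ^ 2 ≤ om := by
    have h6 : r ≤ 1 := by
      have := hs.R1le
      have := hr.2
      linarith
    have h7 : 0 ≤ r * p.y r ^ 2 := mul_nonneg hr.1 (sq_nonneg _)
    calc (r * p.y r) ^ 2 = r * (r * p.y r ^ 2) := by ring
      _ ≤ 1 * (r * p.y r ^ 2) := mul_le_mul_of_nonneg_right h6 h7
      _ ≤ om := by linarith
  have h8 : om ≤ (om / 10 ^ 12) ^ 2 := by
    have h9 : (10 : ℝ) ^ 24 ≤ om := le_trans (by norm_num) hy.hom
    have : (om / 10 ^ 12) ^ 2 = om * om / 10 ^ 24 := by ring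
    rw [this, le_div_iff₀ (by positivity)]
    exact mul_le_mul_of_nonneg_left h9 ho.le
  exact abs_le_of_sq_le_sq (h5.trans h8) (by positivity)

theorem StE_L2 (hs : IsSlice R1 p) (hy : Hyp R1 p om) (hg : Geo R1 p om lam) {L B : ℝ}
    (h0 : 0 ≤ L) (hL : L ≤ R1) (hB : 0 ≤ B)
    (hI : ∫ r in (0 : ℝ)..L, r * Real.sin (p.f r) ^ 2 ≤ B ^ 2) :
    Real.sqrt (∫ r in (0 : ℝ)..L, r * (p.e r * Real.sin (p.f r)) ^ 2)
      ≤ 4 * om ^ 2 * lam * B := by
  have ho := StE_om hy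
  have hl := hg.lam_pos
  have c1 := hs.ce
  have c4 : Continuous (fun r => Real.sin (p.f r)) := Real.continuous_sin.comp hs.cf
  rw [Real.sqrt_le_iff]
  refine ⟨by positivity, ?_⟩
  have h1 : ∫ r in (0 : ℝ)..L, r * (p.e r * Real.sin (p.f r)) ^ 2
      ≤ ∫ r in (0 : ℝ)..L, (4 * om ^ 2 * lam) ^ 2 * (r * Real.sin (p.f r) ^ 2) := by
    refine integral_mono_on h0 (Continuous.intervalIntegrable (by fun_prop) _ _)
      (Continuous.intervalIntegrable (by fun_prop) _ _) ?_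
    intro r hr
    have h2 := e_abs hs hy hg r ⟨hr.1, hr.2.trans hL⟩
    have h3 : p.e r ^ 2 ≤ (4 * om ^ 2 * lam) ^ 2 := by
      rw [← sq_abs (p.e r)]
      exact pow_le_pow_left₀ (abs_nonneg _) h2 2
    have h4 : 0 ≤ r * Real.sin (p.f r) ^ 2 := mul_nonneg hr.1 (sq_nonneg _)
    calc r * (p.e r * Real.sin (p.f r)) ^ 2 = p.e r ^ 2 * (r * Real.sin (p.f r) ^ 2) := by ring
      _ ≤ _ := mul_le_mul_of_nonneg_right h3 h4
  rw [intervalIntegral.integral_const_mul] at h1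
  calc _ ≤ (4 * om ^ 2 * lam) ^ 2 * ∫ r in (0 : ℝ)..L, r * Real.sin (p.f r) ^ 2 := h1
    _ ≤ (4 * om ^ 2 * lam) ^ 2 * B ^ 2 := mul_le_mul_of_nonneg_left hI (by positivity)
    _ = (4 * om ^ 2 * lam * B) ^ 2 := by ring

theorem es_L2 (hs : IsSlice R1 p) (hy : Hyp R1 p om) (hg : Geo R1 p om lam) :
    Real.sqrt (∫ r in (0 : ℝ)..(ep1 / om), r * (p.e r * Real.sin (p.f r)) ^ 2)
      ≤ om ^ 2 * lam / 10 := by
  have ho := StE_om hy
  have hl := hg.lam_pos
  have hLpos : 0 < ep1 / om := L_pos hy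
  have h1 : ∫ r in (0 : ℝ)..(ep1 / om), r * Real.sin (p.f r) ^ 2 ≤ (2 * lam) ^ 2 := by
    have := I_sin2 hs hy hg
    nlinarith [sq_nonneg lam]
  have h2 := StE_L2 hs hy hg hLpos.le ((L_le hs hy).trans (by linarith [hs.R1pos])) (by positivity : (0:ℝ) ≤ 2 * lam) h1
  refine h2.trans ?_
  have h3 : lam ≤ 1 / 80 := by
    have h4 := hg.b_le
    have h5 : eps ≤ 1 := by unfold eps; norm_num
    have h6 : (80 : ℝ) ≤ om := le_trans (by norm_num) hy.hom
    nlinarith
  have h7 : 0 ≤ om ^ 2 * lam := by positivity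
  calc 4 * om ^ 2 * lam * (2 * lam) = om ^ 2 * lam * (8 * lam) := by ring
    _ ≤ om ^ 2 * lam * (1 / 10) := mul_le_mul_of_nonneg_left (by linarith) h7
    _ = om ^ 2 * lam / 10 := by ring

theorem es_L2_all (hs : IsSlice R1 p) (hy : Hyp R1 p om) (hg : Geo R1 p om lam) :
    Real.sqrt (∫ r in (0 : ℝ)..R1, r * (p.e r * Real.sin (p.f r)) ^ 2) ≤ om ^ 2 * lam / 10 := by
  have ho := StE_om hy
  have hl := hg.lam_pos
  have h1 : ∫ r in (0 : ℝ)..R1, r * Real.sin (p.f r) ^ 2 ≤ (1 / 10 ^ 20) ^ 2 := by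
    have := I_sin2_all hs hy hg
    refine this.trans (by norm_num)
  have h2 := StE_L2 hs hy hg hs.R1pos.le le_rfl (by positivity : (0:ℝ) ≤ 1 / 10 ^ 20) h1
  refine h2.trans ?_
  have h7 : 0 ≤ om ^ 2 * lam := by positivity
  calc 4 * om ^ 2 * lam * (1 / 10 ^ 20) = om ^ 2 * lam * (4 / 10 ^ 20) := by ring
    _ ≤ om ^ 2 * lam * (1 / 10) := mul_le_mul_of_nonneg_left (by norm_num) h7
    _ = om ^ 2 * lam / 10 := by ring

end H72GS

end S_StE

section S_StB

/-!
# StB: the linear equation `u' = G - μ cos f u / r`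

For `r ≥ lam` the equation is damped (`cos f ≥ 0`, `damp_fwd`), on `[lam, 2 lam]` use `pwlog`
(`∫ |G| ≤ ‖G‖`); for `r ≥ 2 lam`, `μ cos f ≥ 3`, use `v = r³ u`,
`v' = -((μ cos f - 3)/r) v + r³ G`, `damp_fwd` and `pw3` (`‖G‖/√6 ≤ ‖G‖/2`); similarly for `r ≤ lam`
backwards (`cos f ≤ 0`, `damp_bwd`; `μ cos f ≤ -3` for `r ≤ lam/2`, `v = u / r³`, `pwm3`).
Total `|u| ≤ |u lam| + 2 ‖G‖` with `‖G‖² = ∫_0^rho s G²`.
-/

namespace H72GS

open Set MeasureTheory intervalIntegral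

variable {R1 : ℝ} {p : Pre} {om lam : ℝ}

private theorem StB_sqrt6 {x S : ℝ} (hx : x ≤ S ^ 2) (hS : 0 ≤ S) : Real.sqrt (x / 6) ≤ S / 2 := by
  rw [Real.sqrt_le_left (by positivity)]
  nlinarith [sq_nonneg S]

theorem bode (hs : IsSlice R1 p) (hy : Hyp R1 p om) (hg : Geo R1 p om lam)
    {u G : ℝ → ℝ} {rho : ℝ} (h2 : 2 * lam ≤ rho) (hR : rho ≤ R1) (hG : Continuous G)
    (hu : ∀ r ∈ Ioc 0 rho,
      HasDerivAt u (G r - (4 + p.a r) * Real.cos (p.f r) * u r / r) r) :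
    ∀ r ∈ Ioc 0 rho, |u r| ≤ |u lam| + 2 * Real.sqrt (∫ s in (0 : ℝ)..rho, s * G s ^ 2) := by
  have hlam := hg.lam_pos
  set S := Real.sqrt (∫ s in (0 : ℝ)..rho, s * G s ^ 2) with hS
  have hS0 : 0 ≤ S := Real.sqrt_nonneg _
  have hSsq : S ^ 2 = ∫ s in (0 : ℝ)..rho, s * G s ^ 2 :=
    Real.sq_sqrt (intervalIntegral.integral_nonneg (by linarith)
      (fun s hs => mul_nonneg hs.1 (sq_nonneg _)))
  have hsub : ∀ x0 x1, 0 ≤ x0 → x0 ≤ x1 → x1 ≤ rho → ∫ s in x0..x1, s * G s ^ 2 ≤ S ^ 2 := by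
    intro x0 x1 h0 h01 h1
    rw [hSsq]
    exact int_mono_set h0 h01 h1 (Continuous.continuousOn (by fun_prop))
      (fun x hx => mul_nonneg hx.1 (sq_nonneg _))
  have hmu : ∀ r ∈ Ioc 0 rho, 399 / 100 ≤ 4 + p.a r := by
    intro r hr
    have := abs_le.1 (a_abs hs hy.en r ⟨hr.1.le, hr.2.trans hR⟩)
    linarith
  -- the middle region to the right
  have m1 : ∀ x ∈ Icc lam (2 * lam), |u x| ≤ |u lam| + S := by
    intro x hx
    have d := damp_fwd (v := u) (c := fun r => (4 + p.a r) * Real.cos (p.f r) / r) (s := G)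
      (x0 := lam) (x1 := x) hx.1 (fun r hr => by
        have := hu r ⟨by linarith [hr.1], by linarith [hr.2, hx.2]⟩
        have e : G r - (4 + p.a r) * Real.cos (p.f r) * u r / r =
          -((4 + p.a r) * Real.cos (p.f r) / r) * u r + G r := by ring
        rw [e] at this
        exact this)
      (fun r hr => by
        have hr0 : 0 < r := by linarith [hr.1]
        have h1 := hmu r ⟨hr0, by linarith [hr.2, hx.2]⟩
        have h2 := cos_far hs hy hg r ⟨hr.1, by linarith [hr.2, hx.2]⟩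
        exact div_nonneg (mul_nonneg (by linarith) h2) hr0.le) hG.continuousOn
    have e1 := pwlog hlam hx.1 hx.2 hG.continuousOn (G := G)
    have e2 : Real.sqrt (∫ s in lam..x, s * G s ^ 2) ≤ S := by
      rw [Real.sqrt_le_left hS0]
      exact hsub _ _ hlam.le hx.1 (by linarith [hx.2])
    linarith
  -- the middle region to the left
  have m2 : ∀ x ∈ Icc (lam / 2) lam, |u x| ≤ |u lam| + S := by
    intro x hx
    have hx0 : 0 < x := by linarith [hx.1]
    have d := damp_bwd (v := u) (c := fun r => -((4 + p.a r) * Real.cos (p.f r) / r)) (s := G)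
      (x0 := x) (x1 := lam) hx.2 (fun r hr => by
        have := hu r ⟨by linarith [hr.1], by linarith [hr.2]⟩
        have e : G r - (4 + p.a r) * Real.cos (p.f r) * u r / r =
          -((4 + p.a r) * Real.cos (p.f r) / r) * u r + G r := by ring
        rw [e] at this
        exact this)
      (fun r hr => by
        have hr0 : 0 < r := by linarith [hr.1]
        have h1 := hmu r ⟨hr0, by linarith [hr.2]⟩
        have h2 := cos_near hs hy hg r ⟨hr0, hr.2⟩
        have h3 : (4 + p.a r) * Real.cos (p.f r) ≤ 0 :=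
          mul_nonpos_of_nonneg_of_nonpos (by linarith) h2
        have h4 := div_nonpos_of_nonpos_of_nonneg h3 hr0.le
        linarith) hG.continuousOn
    have e1 := pwlog hx0 hx.2 (by linarith [hx.1]) hG.continuousOn (G := G)
    have e2 : Real.sqrt (∫ s in x..lam, s * G s ^ 2) ≤ S := by
      rw [Real.sqrt_le_left hS0]
      exact hsub _ _ hx0.le hx.2 (by linarith)
    linarith
  -- far to the right
  have m3 : ∀ x ∈ Icc (2 * lam) rho, |u x| ≤ |u (2 * lam)| + S / 2 := by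
    intro x hx
    have hx0 : 0 < x := by linarith [hx.1]
    have d := damp_fwd (v := fun r => r ^ 3 * u r)
      (c := fun r => ((4 + p.a r) * Real.cos (p.f r) - 3) / r) (s := fun r => r ^ 3 * G r)
      (x0 := 2 * lam) (x1 := x) hx.1 (fun r hr => by
        have hr0 : 0 < r := by linarith [hr.1]
        have h1 := hu r ⟨hr0, by linarith [hr.2, hx.2]⟩
        have h3 : HasDerivAt (fun r : ℝ => r ^ 3) (3 * r ^ 2) r := by
          have := hasDerivAt_pow 3 r
          have e : ((3 : ℕ) : ℝ) * r ^ (3 - 1) = 3 * r ^ 2 := by norm_num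
          rw [e] at this
          exact this
        have h4 := h3.mul h1
        have e : 3 * r ^ 2 * u r + r ^ 3 * (G r - (4 + p.a r) * Real.cos (p.f r) * u r / r) =
            -(((4 + p.a r) * Real.cos (p.f r) - 3) / r) * (r ^ 3 * u r) + r ^ 3 * G r := by
          field_simp
          ring
        rw [e] at h4
        exact h4)
      (fun r hr => by
        have hr0 : 0 < r := by linarith [hr.1]
        have h1 := hmu r ⟨hr0, by linarith [hr.2, hx.2]⟩
        have h2 := cos_far2 hs hy hg r ⟨hr.1, by linarith [hr.2, hx.2]⟩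
        exact div_nonneg (by nlinarith) hr0.le) (Continuous.continuousOn (by fun_prop))
    have e0 : ∫ s in (2 * lam)..x, |s ^ 3 * G s| = ∫ s in (2 * lam)..x, s ^ 3 * |G s| := by
      apply intervalIntegral.integral_congr
      intro s hs'
      rw [uIcc_of_le hx.1] at hs'
      have h0 : 0 ≤ s := by linarith [hs'.1]
      simp only
      rw [abs_mul, abs_of_nonneg (pow_nonneg h0 3)]
    rw [e0, abs_mul, abs_mul, abs_of_nonneg (pow_nonneg hx0.le 3),
      abs_of_nonneg (pow_nonneg (by linarith : (0 : ℝ) ≤ 2 * lam) 3)] at d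
    have e1 := pw3 (by linarith : 0 < 2 * lam) hx.1 hG.continuousOn (G := G)
    have e2 := StB_sqrt6 (hsub (2 * lam) x (by linarith) hx.1 hx.2) hS0
    have hx3 : 0 < x ^ 3 := by positivity
    have e3 : (2 * lam) ^ 3 ≤ x ^ 3 := pow_le_pow_left₀ (by linarith) hx.1 3
    have e4 : x ^ 3 * |u x| ≤ x ^ 3 * (|u (2 * lam)| + S / 2) := by
      have e5 := mul_le_mul_of_nonneg_left e2 hx3.le
      have e6 := mul_le_mul_of_nonneg_right e3 (abs_nonneg (u (2 * lam)))
      linarith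
    exact le_of_mul_le_mul_left e4 hx3
  -- close to the origin
  have m4 : ∀ x ∈ Ioc 0 (lam / 2), |u x| ≤ |u (lam / 2)| + S / 2 := by
    intro x hx
    have hx0 : 0 < x := hx.1
    have hl2 : 0 < lam / 2 := by linarith
    have d := damp_bwd (v := fun r => u r / r ^ 3)
      (c := fun r => (-((4 + p.a r) * Real.cos (p.f r)) - 3) / r) (s := fun r => G r / r ^ 3)
      (x0 := x) (x1 := lam / 2) hx.2 (fun r hr => by
        have hr0 : 0 < r := by linarith [hr.1]
        have h1 := hu r ⟨hr0, by linarith [hr.2]⟩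
        have h3 : HasDerivAt (fun r : ℝ => r ^ 3) (3 * r ^ 2) r := by
          have := hasDerivAt_pow 3 r
          have e : ((3 : ℕ) : ℝ) * r ^ (3 - 1) = 3 * r ^ 2 := by norm_num
          rw [e] at this
          exact this
        have h4 := h1.div h3 (by positivity)
        have e : ((G r - (4 + p.a r) * Real.cos (p.f r) * u r / r) * r ^ 3 - u r * (3 * r ^ 2)) /
            (r ^ 3) ^ 2 =
            (-((4 + p.a r) * Real.cos (p.f r)) - 3) / r * (u r / r ^ 3) + G r / r ^ 3 := by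
          field_simp
          ring
        rw [e] at h4
        exact h4)
      (fun r hr => by
        have hr0 : 0 < r := by linarith [hr.1]
        have h1 := hmu r ⟨hr0, by linarith [hr.2]⟩
        have h2 := cos_near2 hs hy hg r ⟨hr0, hr.2⟩
        exact div_nonneg (by nlinarith) hr0.le)
      (hG.continuousOn.div (by fun_prop) (fun r hr => by
        have hr0 : 0 < r := by linarith [hr.1]
        positivity))
    have e0 : ∫ s in x..(lam / 2), |G s / s ^ 3| = ∫ s in x..(lam / 2), |G s| / s ^ 3 := by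
      apply intervalIntegral.integral_congr
      intro s hs'
      rw [uIcc_of_le hx.2] at hs'
      have h0 : 0 ≤ s := by linarith [hs'.1]
      simp only
      rw [abs_div, abs_of_nonneg (pow_nonneg h0 3)]
    rw [e0, abs_div, abs_div, abs_of_nonneg (pow_nonneg hx0.le 3),
      abs_of_nonneg (pow_nonneg hl2.le 3)] at d
    have e1 := pwm3 hx0 hx.2 hG.continuousOn (G := G)
    have e2 := StB_sqrt6 (hsub x (lam / 2) hx0.le hx.2 (by linarith)) hS0
    have hx3 : 0 < x ^ 3 := by positivity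
    have e3 : x ^ 3 ≤ (lam / 2) ^ 3 := pow_le_pow_left₀ hx0.le hx.2 3
    have e4 : |u x| / x ^ 3 ≤ (|u (lam / 2)| + S / 2) / x ^ 3 := by
      have e5 : 1 / x ^ 3 * Real.sqrt ((∫ s in x..(lam / 2), s * G s ^ 2) / 6) ≤ (S / 2) / x ^ 3 := by
        rw [one_div, inv_mul_eq_div]
        exact div_le_div_of_nonneg_right e2 hx3.le
      have e6 : |u (lam / 2)| / (lam / 2) ^ 3 ≤ |u (lam / 2)| / x ^ 3 :=
        div_le_div_of_nonneg_left (abs_nonneg _) hx3 e3
      rw [add_div]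
      linarith
    exact (div_le_div_iff_of_pos_right hx3).1 e4
  intro r hr
  rcases le_or_gt r lam with h | h
  · rcases le_or_gt r (lam / 2) with h' | h'
    · have e1 := m4 r ⟨hr.1, h'⟩
      have e2 := m2 (lam / 2) ⟨le_rfl, by linarith⟩
      linarith
    · have e2 := m2 r ⟨h'.le, h⟩
      linarith
  · rcases le_or_gt r (2 * lam) with h' | h'
    · have e2 := m1 r ⟨h.le, h'⟩
      linarith
    · have e1 := m3 r ⟨h'.le, hr.2⟩
      have e2 := m1 (2 * lam) ⟨by linarith, le_rfl⟩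
      linarith

end H72GS

end S_StB

section S_StEta

/-!
# StEta: `g = -4 om sin f + η` with `|η| ≤ 250 Lam` up to `r = L = ep1/om`

* `bode`: for `r ≥ lam` the equation is damped (`cos f ≥ 0`), on `[lam, 2 lam]` use `pwlog`
  (`∫ |G| ≤ ‖G‖`); for `r ≥ 2 lam`, `μ cos f ≥ 3`, use `v = r³ u` and `pw3`
  (`‖G‖/√6 ≤ ‖G‖/2`); similarly for `r ≤ lam` backwards (`cos f ≤ 0`; `μ cos f ≤ -3` for
  `r ≤ lam/2`, `v = u / r³`, `pwm3`).  Total `|u| ≤ |u lam| + 2 ‖G‖`.
* `eta' = G1 - μ cos f eta / r`, `G1 = wt - e sin f + 4 om cos f w`;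
  `‖G1‖_{L²(0,L)} ≤ chi + om² lam/10 + 4 om L chi/√8 ≤ 2 Lam` (`‖w‖² ≤ L² ∫ r w1²`).
* orthogonality `∫ r Th(f) eta = P + 4 om N = 0`.
* `rho = eta - eta(lam) sin f` solves `rho' = G2 - μ cos f rho/r`, `G2 = G1 - eta(lam) cos f w`,
  `rho(lam) = 0`; on `[0, K lam]`, `K = 2·10⁶` (contains the support of `Th(f)`, `supp`):
  `‖w‖ ≤ K lam chi/√8 ≤ 10⁻²⁰`, so `|rho| ≤ 2 (2 Lam + 10⁻²⁰ |eta(lam)|)`.
  `0 = eta(lam) N + ∫ r Th rho`, `N ≥ lam²/16`, `∫ r|Th| ≤ 3 lam²` give
  `|eta(lam)| ≤ 96 (2 Lam + 10⁻²⁰|eta(lam)|)`, so `≤ 200 Lam`; finally `|eta| ≤ 200 Lam + 4 Lam`.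
-/

namespace H72GS

open Set MeasureTheory intervalIntegral

variable {R1 : ℝ} {p : Pre} {om lam : ℝ}

/-- the remainder -/
noncomputable def eta (p : Pre) (om r : ℝ) : ℝ := p.g r + 4 * om * Real.sin (p.f r)

theorem StEta_cont (hs : IsSlice R1 p) : Continuous (eta p om) := by
  unfold eta
  exact hs.cg.add (continuous_const.mul (Real.continuous_sin.comp hs.cf))

theorem eta_orth (hs : IsSlice R1 p) (hy : Hyp R1 p om) :
    ∫ r in (0 : ℝ)..R1, r * Th (p.f r) * eta p om r = 0 := by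
  have hT : Continuous (fun r => Th (p.f r)) := continuous_Th.comp hs.cf
  have hS : Continuous (fun r => Real.sin (p.f r)) := Real.continuous_sin.comp hs.cf
  have hcg := hs.cg
  have h1 : ∫ r in (0 : ℝ)..R1, r * Th (p.f r) * eta p om r =
      (∫ r in (0 : ℝ)..R1, r * p.g r * Th (p.f r)) +
        4 * om * ∫ r in (0 : ℝ)..R1, r * Th (p.f r) * Real.sin (p.f r) := by
    rw [← intervalIntegral.integral_const_mul, ← intervalIntegral.integral_add]
    · apply intervalIntegral.integral_congr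
      intro r _
      simp only [eta]
      ring
    · exact ((continuous_id.mul hs.cg).mul hT).intervalIntegrable _ _
    · exact (continuous_const.mul ((continuous_id.mul hT).mul hS)).intervalIntegrable _ _
  rw [h1]
  have h2 := hy.hP
  unfold Pre.P Pre.N at h2
  rw [h2]
  ring

theorem StEta_mink {a b : ℝ} (ha : 0 ≤ a) (hab : a ≤ b) {u v : ℝ → ℝ} (hu : Continuous u)
    (hv : Continuous v) :
    Real.sqrt (∫ s in a..b, s * (u s + v s) ^ 2) ≤
      Real.sqrt (∫ s in a..b, s * u s ^ 2) + Real.sqrt (∫ s in a..b, s * v s ^ 2) := by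
  have i1 : IntervalIntegrable (fun s => s * u s ^ 2) volume a b :=
    (continuous_id.mul (hu.pow 2)).intervalIntegrable _ _
  have i2 : IntervalIntegrable (fun s => s * v s ^ 2) volume a b :=
    (continuous_id.mul (hv.pow 2)).intervalIntegrable _ _
  have i3 : IntervalIntegrable (fun s => 2 * (s * (|u s| * |v s|))) volume a b :=
    (continuous_const.mul (continuous_id.mul (hu.abs.mul hv.abs))).intervalIntegrable _ _
  have i4 : IntervalIntegrable (fun s => s * (u s + v s) ^ 2) volume a b :=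
    (continuous_id.mul ((hu.add hv).pow 2)).intervalIntegrable _ _
  have h1 : ∫ s in a..b, s * (u s + v s) ^ 2 ≤
      (∫ s in a..b, s * u s ^ 2) + (∫ s in a..b, s * v s ^ 2)
        + 2 * ∫ s in a..b, s * (|u s| * |v s|) := by
    rw [← intervalIntegral.integral_const_mul, ← intervalIntegral.integral_add i1 i2,
      ← intervalIntegral.integral_add (i1.add i2) i3]
    apply intervalIntegral.integral_mono_on hab i4 ((i1.add i2).add i3)
    intro s hs
    have hs0 : 0 ≤ s := ha.trans hs.1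
    have h2 : u s * v s ≤ |u s| * |v s| := by
      rw [← abs_mul]; exact le_abs_self _
    have h3 : s * (u s + v s) ^ 2 = s * u s ^ 2 + s * v s ^ 2 + 2 * (s * (u s * v s)) := by ring
    rw [h3]
    have h4 := mul_le_mul_of_nonneg_left h2 hs0
    linarith
  have h2 := csr ha hab hu.continuousOn hv.continuousOn
  have n1 : 0 ≤ ∫ s in a..b, s * u s ^ 2 :=
    intervalIntegral.integral_nonneg hab (fun s hs => mul_nonneg (ha.trans hs.1) (sq_nonneg _))
  have n2 : 0 ≤ ∫ s in a..b, s * v s ^ 2 :=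
    intervalIntegral.integral_nonneg hab (fun s hs => mul_nonneg (ha.trans hs.1) (sq_nonneg _))
  rw [Real.sqrt_le_iff]
  refine ⟨by positivity, ?_⟩
  have e1 := Real.sq_sqrt n1
  have e2 := Real.sq_sqrt n2
  nlinarith

theorem StEta_L2_mono {a b c : ℝ} (ha : 0 ≤ a) (hab : a ≤ b) (hc : 0 ≤ c) {u v : ℝ → ℝ}
    (hu : Continuous u) (hv : Continuous v) (h : ∀ s ∈ Icc a b, |u s| ≤ c * |v s|) :
    Real.sqrt (∫ s in a..b, s * u s ^ 2) ≤ c * Real.sqrt (∫ s in a..b, s * v s ^ 2) := by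
  have h1 : ∫ s in a..b, s * u s ^ 2 ≤ c ^ 2 * ∫ s in a..b, s * v s ^ 2 := by
    rw [← intervalIntegral.integral_const_mul]
    apply intervalIntegral.integral_mono_on hab
    · exact (continuous_id.mul (hu.pow 2)).intervalIntegrable _ _
    · exact (continuous_const.mul (continuous_id.mul (hv.pow 2))).intervalIntegrable _ _
    · intro s hs
      have hs0 : 0 ≤ s := ha.trans hs.1
      have h2 : u s ^ 2 ≤ c ^ 2 * v s ^ 2 := by
        have h3 := h s hs
        have h4 := abs_nonneg (u s)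
        have h5 : |u s| ^ 2 ≤ (c * |v s|) ^ 2 := by gcongr
        rwa [mul_pow, sq_abs, sq_abs] at h5
      calc s * u s ^ 2 ≤ s * (c ^ 2 * v s ^ 2) := mul_le_mul_of_nonneg_left h2 hs0
        _ = _ := by ring
  calc Real.sqrt (∫ s in a..b, s * u s ^ 2) ≤ Real.sqrt (c ^ 2 * ∫ s in a..b, s * v s ^ 2) :=
        Real.sqrt_le_sqrt h1
    _ = c * Real.sqrt (∫ s in a..b, s * v s ^ 2) := by
        rw [Real.sqrt_mul (sq_nonneg c), Real.sqrt_sq hc]

theorem StEta_w (hs : IsSlice R1 p) (hy : Hyp R1 p om) {ρ : ℝ} (h0 : 0 ≤ ρ) (h1 : ρ ≤ R1) :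
    Real.sqrt (∫ s in (0:ℝ)..ρ, s * p.w s ^ 2) ≤ ρ * chi R1 p / 2 := by
  have h2 := StEta_L2_mono (u := p.w) (v := p.w1) le_rfl h0 h0 hs.cw hs.cw1 (by
    intro s hs'
    rw [hs.hw1 s, abs_mul, abs_of_nonneg hs'.1]
    exact mul_le_mul_of_nonneg_right hs'.2 (abs_nonneg _))
  have h3 : ∫ s in (0:ℝ)..ρ, s * p.w1 s ^ 2 ≤ p.X R1 / 8 := by
    refine (int_mono_set (a := 0) (b := R1) le_rfl h0 h1 ?_ ?_).trans (X_parts hs hy.en).2.2
    · exact (continuous_id.mul (hs.cw1.pow 2)).continuousOn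
    · intro s hs'
      exact mul_nonneg hs'.1 (sq_nonneg _)
  have h4 : Real.sqrt (∫ s in (0:ℝ)..ρ, s * p.w1 s ^ 2) ≤ chi R1 p / 2 := by
    have hc := chi_nonneg (R1 := R1) (p := p)
    rw [Real.sqrt_le_iff]
    refine ⟨by positivity, ?_⟩
    rw [div_pow, chi_sq hs hy]
    have hX := X_nonneg hs hy.en
    linarith
  calc _ ≤ _ := h2
    _ ≤ ρ * (chi R1 p / 2) := mul_le_mul_of_nonneg_left h4 h0
    _ = _ := by ring

theorem StEta_wt (hs : IsSlice R1 p) (hy : Hyp R1 p om) {ρ : ℝ} (h0 : 0 ≤ ρ) (h1 : ρ ≤ R1) :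
    Real.sqrt (∫ s in (0:ℝ)..ρ, s * p.wt s ^ 2) ≤ chi R1 p := by
  apply Real.sqrt_le_sqrt
  refine (int_mono_set (a := 0) (b := R1) le_rfl h0 h1 ?_ ?_).trans (X_parts hs hy.en).1
  · exact (continuous_id.mul (hs.cwt.pow 2)).continuousOn
  · intro s hs'
    exact mul_nonneg hs'.1 (sq_nonneg _)

/-- the forcing term -/
noncomputable def StEta_G (p : Pre) (om r : ℝ) : ℝ :=
  p.wt r + (-(p.e r * Real.sin (p.f r)) + 4 * om * (Real.cos (p.f r) * p.w r))

theorem StEta_Gc (hs : IsSlice R1 p) : Continuous (StEta_G p om) := by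
  unfold StEta_G
  have hcwt := hs.cwt
  have hce := hs.ce
  have hcf := hs.cf
  have hcw := hs.cw
  fun_prop

theorem StEta_der (hs : IsSlice R1 p) (c : ℝ) {r : ℝ} (hr : 0 < r) :
    HasDerivAt (fun x => eta p om x - c * Real.sin (p.f x))
      ((StEta_G p om r - c * (Real.cos (p.f r) * p.w r))
        - (4 + p.a r) * Real.cos (p.f r) * (eta p om r - c * Real.sin (p.f r)) / r) r := by
  have h1 := hs.dg r hr
  have h2 := (hs.df r hr).sin
  have h3 := (h1.add (h2.const_mul (4 * om))).sub (h2.const_mul c)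
  unfold eta StEta_G
  refine h3.congr_deriv ?_
  field_simp
  ring

theorem StEta_GL2 (hs : IsSlice R1 p) (hy : Hyp R1 p om) (hg : Geo R1 p om lam) :
    Real.sqrt (∫ s in (0:ℝ)..(ep1 / om), s * StEta_G p om s ^ 2) ≤ 2 * Lam R1 p om lam := by
  have hL := L_pos hy
  have hLR := L_le hs hy
  have hR := hs.R1pos
  have hom : 0 < om := lt_of_lt_of_le (by norm_num) hy.hom
  have hcwt := hs.cwt
  have hce := hs.ce
  have hcf := hs.cf
  have hcw := hs.cw
  have c1 : Continuous (fun r => -(p.e r * Real.sin (p.f r))) := by fun_prop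
  have c2 : Continuous (fun r => 4 * om * (Real.cos (p.f r) * p.w r)) := by fun_prop
  have h1 := StEta_mink (a := 0) (b := ep1 / om) le_rfl hL.le hcwt (c1.add c2)
  have h2 := StEta_mink (a := 0) (b := ep1 / om) le_rfl hL.le c1 c2
  have h3 := StEta_wt hs hy hL.le (by linarith)
  have h4 := es_L2 hs hy hg
  have h5 := StEta_L2_mono (a := 0) (b := ep1 / om) (c := 4 * om) le_rfl hL.le (by positivity) c2 hcw
    (by
      intro s _
      rw [abs_mul, abs_of_pos (by positivity : 0 < 4 * om), abs_mul]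
      have := Real.abs_cos_le_one (p.f s)
      have := abs_nonneg (p.w s)
      apply mul_le_mul_of_nonneg_left _ (by positivity)
      nlinarith)
  have h6 := StEta_w hs hy hL.le (by linarith : ep1 / om ≤ R1)
  have h7 : 4 * om * (ep1 / om * chi R1 p / 2) = 2 * ep1 * chi R1 p := by
    field_simp
    ring
  have h8 : Real.sqrt (∫ s in (0:ℝ)..(ep1 / om), s * (-(p.e s * Real.sin (p.f s))) ^ 2) =
      Real.sqrt (∫ s in (0:ℝ)..(ep1 / om), s * (p.e s * Real.sin (p.f s)) ^ 2) := by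
    congr 1
    apply intervalIntegral.integral_congr
    intro s _
    simp only [neg_sq]
  have hc := chi_nonneg (R1 := R1) (p := p)
  have h9 : (2:ℝ) * ep1 ≤ 1 := by unfold ep1; norm_num
  have h10 : 2 * ep1 * chi R1 p ≤ chi R1 p := by nlinarith
  have hlam := hg.lam_pos
  have h11 : 0 ≤ om ^ 2 * lam := by positivity
  simp only [Pi.add_apply] at h1
  unfold StEta_G Lam
  have h12 : 4 * om * Real.sqrt (∫ s in (0:ℝ)..(ep1 / om), s * p.w s ^ 2) ≤
      4 * om * (ep1 / om * chi R1 p / 2) := mul_le_mul_of_nonneg_left h6 (by positivity)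
  rw [h8] at h2
  rw [h7] at h12
  linarith

theorem StEta_lam (hs : IsSlice R1 p) (hy : Hyp R1 p om) (hg : Geo R1 p om lam) :
    |eta p om lam| ≤ 200 * Lam R1 p om lam := by
  have hL := L_pos hy
  have hLR := L_le hs hy
  have hR := hs.R1pos
  have hlam := hg.lam_pos
  have hlL := lam_le_L hy hg
  have hom : 0 < om := lt_of_lt_of_le (by norm_num) hy.hom
  have hc := chi_nonneg (R1 := R1) (p := p)
  have hcwt := hs.cwt
  have hce := hs.ce
  have hcf := hs.cf
  have hcw := hs.cw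
  have hLam : 0 ≤ Lam R1 p om lam := by unfold Lam; positivity
  set K : ℝ := 2 * 10 ^ 6 * lam with hK
  have hK0 : 0 < K := by positivity
  have hKL : K ≤ ep1 / om := by rw [hK]; nlinarith
  have hKR : K ≤ R1 := by linarith
  set c := eta p om lam with hcdef
  -- the forcing
  have cG := StEta_Gc (om := om) hs
  have cW : Continuous (fun r => -(c * (Real.cos (p.f r) * p.w r))) := by fun_prop
  have cG2 : Continuous (fun r => StEta_G p om r - c * (Real.cos (p.f r) * p.w r)) := by fun_prop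
  have h1 := bode hs hy hg (u := fun x => eta p om x - c * Real.sin (p.f x))
    (G := fun r => StEta_G p om r - c * (Real.cos (p.f r) * p.w r)) (rho := K)
    (by rw [hK]; linarith) hKR cG2 (fun r hr => StEta_der hs c hr.1)
  have hz : eta p om lam - c * Real.sin (p.f lam) = 0 := by
    rw [hg.f_lam, Real.sin_pi_div_two]; ring
  have hw : Real.sqrt (∫ s in (0:ℝ)..K, s * p.w s ^ 2) ≤ 1 / 10 ^ 20 := by
    refine (StEta_w hs hy hK0.le hKR).trans ?_
    have h2 := chi_le hs hy hg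
    have h3 := hg.b_le
    have h4 : K * chi R1 p / 2 ≤ 10 ^ 6 * lam * (3 * 10 ^ 7 * om ^ 2 * lam) := by
      rw [hK]
      have : 0 ≤ 10 ^ 6 * lam := by positivity
      nlinarith
    have h5 : (10:ℝ) ^ 6 * lam * (3 * 10 ^ 7 * om ^ 2 * lam) = 3 * 10 ^ 13 * (om * lam) ^ 2 := by ring
    rw [h5] at h4
    have h6 : (om * lam) ^ 2 ≤ eps ^ 2 := by
      have : 0 ≤ om * lam := by positivity
      gcongr
    have h7 : (3:ℝ) * 10 ^ 13 * eps ^ 2 ≤ 1 / 10 ^ 20 := by unfold eps; norm_num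
    linarith
  have hG2 : Real.sqrt (∫ s in (0:ℝ)..K, s * (StEta_G p om s - c * (Real.cos (p.f s) * p.w s)) ^ 2) ≤
      2 * Lam R1 p om lam + |c| * (1 / 10 ^ 20) := by
    have h2 := StEta_mink (a := 0) (b := K) le_rfl hK0.le cG cW
    have h3 := StEta_L2_mono (a := 0) (b := K) (c := |c|) le_rfl hK0.le (abs_nonneg _) cW hcw
      (by
        intro s _
        rw [abs_neg, abs_mul, abs_mul]
        have := Real.abs_cos_le_one (p.f s)
        have := abs_nonneg (p.w s)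
        apply mul_le_mul_of_nonneg_left _ (abs_nonneg _)
        nlinarith)
    have h4 : Real.sqrt (∫ s in (0:ℝ)..K, s * StEta_G p om s ^ 2) ≤ 2 * Lam R1 p om lam := by
      refine le_trans (Real.sqrt_le_sqrt ?_) (StEta_GL2 hs hy hg)
      apply int_mono_set le_rfl hK0.le hKL
      · exact (continuous_id.mul (cG.pow 2)).continuousOn
      · intro s hs'
        exact mul_nonneg hs'.1 (sq_nonneg _)
    have h5 := mul_le_mul_of_nonneg_left hw (abs_nonneg c)
    have h6 : ∀ s, StEta_G p om s - c * (Real.cos (p.f s) * p.w s) =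
        StEta_G p om s + -(c * (Real.cos (p.f s) * p.w s)) := fun s => by ring
    simp only [h6]
    linarith
  set B : ℝ := 2 * (2 * Lam R1 p om lam + |c| * (1 / 10 ^ 20)) with hB
  have hrho : ∀ r ∈ Ioc 0 K, |eta p om r - c * Real.sin (p.f r)| ≤ B := by
    intro r hr
    have h2 := h1 r hr
    simp only [hz, abs_zero, zero_add] at h2
    linarith
  -- orthogonality
  have horth := eta_orth hs hy
  have hT : Continuous (fun r => Th (p.f r)) := continuous_Th.comp hs.cf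
  have hS : Continuous (fun r => Real.sin (p.f r)) := Real.continuous_sin.comp hs.cf
  have hE := StEta_cont (om := om) hs
  have i1 : IntervalIntegrable (fun r => r * Th (p.f r) * (eta p om r - c * Real.sin (p.f r)))
      volume 0 R1 :=
    ((continuous_id.mul hT).mul (hE.sub (continuous_const.mul hS))).intervalIntegrable _ _
  have i2 : IntervalIntegrable (fun r => c * (r * Th (p.f r) * Real.sin (p.f r))) volume 0 R1 :=
    (continuous_const.mul ((continuous_id.mul hT).mul hS)).intervalIntegrable _ _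
  have h2 : ∫ r in (0 : ℝ)..R1, r * Th (p.f r) * eta p om r =
      (∫ r in (0 : ℝ)..R1, r * Th (p.f r) * (eta p om r - c * Real.sin (p.f r))) + c * p.N R1 := by
    unfold Pre.N
    rw [← intervalIntegral.integral_const_mul, ← intervalIntegral.integral_add i1 i2]
    apply intervalIntegral.integral_congr
    intro r _
    ring
  have hB0 : 0 ≤ B := by rw [hB]; positivity
  have h3 : |∫ r in (0 : ℝ)..R1, r * Th (p.f r) * (eta p om r - c * Real.sin (p.f r))| ≤
      B * (3 * lam ^ 2) := by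
    have h4 : |∫ r in (0 : ℝ)..R1, r * Th (p.f r) * (eta p om r - c * Real.sin (p.f r))| ≤
        ∫ r in (0 : ℝ)..R1, |r * Th (p.f r) * (eta p om r - c * Real.sin (p.f r))| :=
      intervalIntegral.abs_integral_le_integral_abs hR.le
    refine h4.trans ?_
    have h5 : ∫ r in (0 : ℝ)..R1, |r * Th (p.f r) * (eta p om r - c * Real.sin (p.f r))| ≤
        ∫ r in (0 : ℝ)..R1, B * (r * |Th (p.f r)|) := by
      apply intervalIntegral.integral_mono_on hR.le i1.abs
      · exact (continuous_const.mul (continuous_id.mul hT.abs)).intervalIntegrable _ _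
      · intro r hr
        rcases eq_or_lt_of_le hr.1 with h0 | h0
        · rw [← h0]; simp
        · rcases le_or_gt r K with hrK | hrK
          · rw [abs_mul, abs_mul, abs_of_pos h0]
            have h6 := hrho r ⟨h0, hrK⟩
            have h7 : 0 ≤ r * |Th (p.f r)| := mul_nonneg h0.le (abs_nonneg _)
            nlinarith
          · have h6 : Th (p.f r) = 0 :=
              Th_zero (supp hs hy.en hg.lam_pos hg.lam_lt hg.f_lam r hr hrK.le)
            rw [h6]; simp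
    refine h5.trans ?_
    rw [intervalIntegral.integral_const_mul]
    exact mul_le_mul_of_nonneg_left (Th_L1 hs hy.en hg.lam_pos hg.lam_lt hg.f_lam) hB0
  have h4 : |c * p.N R1| ≤ B * (3 * lam ^ 2) := by
    have h5 : c * p.N R1 =
        -(∫ r in (0 : ℝ)..R1, r * Th (p.f r) * (eta p om r - c * Real.sin (p.f r))) := by
      rw [h2] at horth
      linarith
    rw [h5, abs_neg]
    exact h3
  rw [abs_mul, abs_of_pos hy.Npos] at h4
  have h5 := hg.N_lo
  have h6 : |c| * (lam ^ 2 / 16) ≤ B * (3 * lam ^ 2) :=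
    (mul_le_mul_of_nonneg_left h5 (abs_nonneg _)).trans h4
  have h7 : |c| ≤ 48 * B := by
    have h8 : 0 < lam ^ 2 := by positivity
    have h9 : |c| * lam ^ 2 ≤ 48 * B * lam ^ 2 := by nlinarith
    exact le_of_mul_le_mul_right h9 h8
  rw [hB] at h7
  have h8 := abs_nonneg c
  linarith

theorem eta_abs (hs : IsSlice R1 p) (hy : Hyp R1 p om) (hg : Geo R1 p om lam) :
    ∀ r ∈ Icc 0 (ep1 / om), |eta p om r| ≤ 250 * Lam R1 p om lam := by
  intro r hr
  have hL := L_pos hy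
  have hLR := L_le hs hy
  have hR := hs.R1pos
  have hlam := hg.lam_pos
  have hlL := lam_le_L hy hg
  have hom : 0 < om := lt_of_lt_of_le (by norm_num) hy.hom
  have hc := chi_nonneg (R1 := R1) (p := p)
  have hLam : 0 ≤ Lam R1 p om lam := by unfold Lam; positivity
  rcases eq_or_lt_of_le hr.1 with h0 | h0
  · rw [← h0]
    have h1 : eta p om 0 = 0 := by
      unfold eta
      rw [hs.hg1 0, hs.f0, Real.sin_pi]; ring
    rw [h1, abs_zero]
    positivity
  · have h1 := bode hs hy hg (u := fun x => eta p om x - 0 * Real.sin (p.f x))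
      (G := fun r => StEta_G p om r - 0 * (Real.cos (p.f r) * p.w r)) (rho := ep1 / om)
      (by nlinarith) (by linarith) (by
        simp only [zero_mul, sub_zero]
        exact StEta_Gc hs) (fun r hr => StEta_der hs 0 hr.1) r ⟨h0, hr.2⟩
    simp only [zero_mul, sub_zero] at h1
    have h2 := StEta_GL2 hs hy hg
    have h3 := StEta_lam hs hy hg
    linarith

end H72GS

end S_StEta

section S_StFar

/-!
# StFar: bounds for `g`

* near (`r ≤ L`): `|g| ≤ 4 om |sin f| + 250 Lam`, `250 Lam ≤ om/10¹¹`.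
* far (`r ≥ L`): `|g(L)| ≤ 4 om |sin f(L)| + 250 Lam ≤ 251 Lam` (`sin_L`); `v = r³ g`,
  `μ cos f ≥ 3` (`cos_far2`): `|g(r)| ≤ |g(L)| + ‖G0‖/√6`, `G0 = wt - e sin f`,
  `‖G0‖ ≤ chi + om² lam/10 ≤ 2 Lam`.
* `g_L2`: integrate `(g²)' = 2 g G0 - 2 μ cos f g²/r` over `[L, R1]`, `g(R1) = 0`:
  `6 Z² ≤ g(L)² + 2 Z ‖G0‖`, `Z² = ∫_L^{R1} g²/r` (written `r * (g/r)²`).
-/

namespace H72GS

open Set MeasureTheory intervalIntegral

variable {R1 : ℝ} {p : Pre} {om lam : ℝ}

theorem g_near (hs : IsSlice R1 p) (hy : Hyp R1 p om) (hg : Geo R1 p om lam) :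
    ∀ r ∈ Icc 0 (ep1 / om), |p.g r| ≤ 4 * om * |Real.sin (p.f r)| + 250 * Lam R1 p om lam := by
  intro r hr
  have h1 := eta_abs hs hy hg r hr
  have hom : (0:ℝ) < om := lt_of_lt_of_le (by positivity) hy.hom
  have h2 : p.g r = eta p om r - 4 * om * Real.sin (p.f r) := by unfold eta; ring
  rw [h2]
  have h3 := abs_sub (eta p om r) (4 * om * Real.sin (p.f r))
  rw [abs_mul, abs_of_pos (by positivity : 0 < 4 * om)] at h3
  linarith

private lemma StFar_om (hy : Hyp R1 p om) : (0:ℝ) < om := lt_of_lt_of_le (by positivity) hy.hom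

private lemma StFar_Lam (hg : Geo R1 p om lam) :
    0 ≤ Lam R1 p om lam := by
  unfold Lam
  have h1 := chi_nonneg (R1 := R1) (p := p)
  have h2 := hg.lam_pos
  positivity

/-- the source in the far region -/
private lemma StFar_G0 (hs : IsSlice R1 p) (hy : Hyp R1 p om) (hg : Geo R1 p om lam) :
    ∫ s in (ep1 / om)..R1, s * (p.wt s - p.e s * Real.sin (p.f s)) ^ 2
      ≤ 2 * (Lam R1 p om lam) ^ 2 := by
  have hom := StFar_om hy
  have hL0 := L_pos hy
  have hLR := L_le hs hy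
  have hR := hs.R1pos
  have hcs : Continuous fun s => Real.sin (p.f s) := Real.continuous_sin.comp hs.cf
  have hc1 : Continuous fun s => s * (p.wt s - p.e s * Real.sin (p.f s)) ^ 2 :=
    continuous_id.mul ((hs.cwt.sub (hs.ce.mul hcs)).pow 2)
  have h1 : ∫ s in (ep1 / om)..R1, s * (p.wt s - p.e s * Real.sin (p.f s)) ^ 2 ≤
      ∫ s in (0:ℝ)..R1, s * (p.wt s - p.e s * Real.sin (p.f s)) ^ 2 :=
    int_mono_set hL0.le (by linarith) le_rfl hc1.continuousOn
      (fun x hx => mul_nonneg hx.1 (sq_nonneg _))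
  have hc2 : Continuous fun s => 2 * (s * p.wt s ^ 2) :=
    continuous_const.mul (continuous_id.mul (hs.cwt.pow 2))
  have hc3 : Continuous fun s => 2 * (s * (p.e s * Real.sin (p.f s)) ^ 2) :=
    continuous_const.mul (continuous_id.mul ((hs.ce.mul hcs).pow 2))
  have h2 : ∫ s in (0:ℝ)..R1, s * (p.wt s - p.e s * Real.sin (p.f s)) ^ 2 ≤
      ∫ s in (0:ℝ)..R1, (2 * (s * p.wt s ^ 2) + 2 * (s * (p.e s * Real.sin (p.f s)) ^ 2)) := by
    apply intervalIntegral.integral_mono_on hR.le (hc1.intervalIntegrable _ _)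
      ((hc2.add hc3).intervalIntegrable _ _)
    intro s hs'
    have h3 : 0 ≤ s * (p.wt s + p.e s * Real.sin (p.f s)) ^ 2 := mul_nonneg hs'.1 (sq_nonneg _)
    show s * (p.wt s - p.e s * Real.sin (p.f s)) ^ 2 ≤
      2 * (s * p.wt s ^ 2) + 2 * (s * (p.e s * Real.sin (p.f s)) ^ 2)
    linarith [show 2 * (s * p.wt s ^ 2) + 2 * (s * (p.e s * Real.sin (p.f s)) ^ 2) =
      s * (p.wt s - p.e s * Real.sin (p.f s)) ^ 2 + s * (p.wt s + p.e s * Real.sin (p.f s)) ^ 2 by ring]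
  rw [intervalIntegral.integral_add (hc2.intervalIntegrable _ _) (hc3.intervalIntegrable _ _),
    intervalIntegral.integral_const_mul, intervalIntegral.integral_const_mul] at h2
  have h3 := (X_parts hs hy.en).1
  rw [← chi_sq hs hy] at h3
  have h4 := es_L2_all hs hy hg
  have h5 : 0 ≤ om ^ 2 * lam / 10 := by have := hg.lam_pos; positivity
  have h6 : ∫ r in (0 : ℝ)..R1, r * (p.e r * Real.sin (p.f r)) ^ 2 ≤ (om ^ 2 * lam / 10) ^ 2 :=
    (Real.sqrt_le_left h5).1 h4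
  have h7 := chi_nonneg (R1 := R1) (p := p)
  unfold Lam
  nlinarith [mul_nonneg h7 h5, mul_nonneg h5 h5]

private lemma StFar_gL (hs : IsSlice R1 p) (hy : Hyp R1 p om) (hg : Geo R1 p om lam) :
    |p.g (ep1 / om)| ≤ 251 * Lam R1 p om lam := by
  have h1 := g_near hs hy hg (ep1 / om) ⟨(L_pos hy).le, le_rfl⟩
  have h2 := sin_L hs hy hg
  linarith

private lemma StFar_mc (hs : IsSlice R1 p) (hy : Hyp R1 p om) (hg : Geo R1 p om lam) :
    ∀ s ∈ Icc (ep1 / om) R1, 3 ≤ (4 + p.a s) * Real.cos (p.f s) := by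
  intro s hs'
  have h1 := lam_le_L hy hg
  have h2 := hg.lam_pos
  have hL0 := L_pos hy
  have h3 := cos_far2 hs hy hg s ⟨by nlinarith [hs'.1], hs'.2⟩
  have h4 := (abs_le.1 (a_abs hs hy.en s ⟨by linarith [hs'.1], hs'.2⟩)).1
  nlinarith

theorem g_far (hs : IsSlice R1 p) (hy : Hyp R1 p om) (hg : Geo R1 p om lam) :
    ∀ r ∈ Icc (ep1 / om) R1, |p.g r| ≤ 300 * Lam R1 p om lam := by
  intro r hr
  have hL0 := L_pos hy
  have hr0 : 0 < r := lt_of_lt_of_le hL0 hr.1
  have hcs : Continuous fun s => Real.sin (p.f s) := Real.continuous_sin.comp hs.cf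
  have hcG : Continuous fun s => p.wt s - p.e s * Real.sin (p.f s) := hs.cwt.sub (hs.ce.mul hcs)
  have key := damp_fwd (v := fun s => s ^ 3 * p.g s)
    (c := fun s => ((4 + p.a s) * Real.cos (p.f s) - 3) / s)
    (s := fun s => s ^ 3 * (p.wt s - p.e s * Real.sin (p.f s))) hr.1 ?_ ?_
    (((continuous_id.pow 3).mul hcG).continuousOn)
  · have h1 : ∫ s in (ep1 / om)..r, |s ^ 3 * (p.wt s - p.e s * Real.sin (p.f s))| =
        ∫ s in (ep1 / om)..r, s ^ 3 * |p.wt s - p.e s * Real.sin (p.f s)| := by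
      apply intervalIntegral.integral_congr
      intro s hs'
      rw [uIcc_of_le hr.1] at hs'
      have : 0 < s := lt_of_lt_of_le hL0 hs'.1
      show |s ^ 3 * (p.wt s - p.e s * Real.sin (p.f s))| = _
      rw [abs_mul, abs_of_pos (by positivity : 0 < s ^ 3)]
    have h2 := pw3 hL0 hr.1 (G := fun s => p.wt s - p.e s * Real.sin (p.f s)) hcG.continuousOn
    have h3 : ∫ s in (ep1 / om)..r, s * (p.wt s - p.e s * Real.sin (p.f s)) ^ 2 ≤
        2 * (Lam R1 p om lam) ^ 2 := by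
      refine le_trans (int_mono_set le_rfl hr.1 hr.2 ?_ ?_) (StFar_G0 hs hy hg)
      · exact (continuous_id.mul (hcG.pow 2)).continuousOn
      · intro x hx
        exact mul_nonneg (hL0.le.trans hx.1) (sq_nonneg _)
    have hLam := StFar_Lam hg
    have h4 : Real.sqrt ((∫ s in (ep1 / om)..r, s * (p.wt s - p.e s * Real.sin (p.f s)) ^ 2) / 6) ≤
        Lam R1 p om lam := by
      rw [Real.sqrt_le_iff]
      exact ⟨hLam, by nlinarith [mul_nonneg hLam hLam]⟩
    rw [h1] at key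
    rw [abs_mul, abs_mul, abs_of_pos (by positivity : 0 < r ^ 3),
      abs_of_pos (by positivity : 0 < (ep1 / om) ^ 3)] at key
    have h5 := StFar_gL hs hy hg
    have h6 : (ep1 / om) ^ 3 * |p.g (ep1 / om)| ≤ r ^ 3 * (251 * Lam R1 p om lam) := by
      apply mul_le_mul (pow_le_pow_left₀ hL0.le hr.1 3) h5 (abs_nonneg _) (by positivity)
    have h7 : r ^ 3 * |p.g r| ≤ r ^ 3 * (252 * Lam R1 p om lam) := by
      have h8 : r ^ 3 * Real.sqrt ((∫ s in (ep1 / om)..r,
          s * (p.wt s - p.e s * Real.sin (p.f s)) ^ 2) / 6) ≤ r ^ 3 * Lam R1 p om lam :=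
        mul_le_mul_of_nonneg_left h4 (by positivity)
      linarith
    have h9 : |p.g r| ≤ 252 * Lam R1 p om lam := le_of_mul_le_mul_left h7 (by positivity)
    linarith
  · intro s hs'
    have hs0 : 0 < s := lt_of_lt_of_le hL0 hs'.1
    have h1 := (hasDerivAt_pow 3 s).mul (hs.dg s hs0)
    refine h1.congr_deriv ?_
    simp only [Nat.cast_ofNat]
    field_simp
    ring
  · intro s hs'
    have hs0 : 0 < s := lt_of_lt_of_le hL0 hs'.1
    have h1 := StFar_mc hs hy hg s ⟨hs'.1, hs'.2.trans hr.2⟩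
    apply div_nonneg _ hs0.le
    linarith

theorem g_all (hs : IsSlice R1 p) (hy : Hyp R1 p om) (hg : Geo R1 p om lam) :
    ∀ r ∈ Icc 0 R1, |p.g r| ≤ 5 * om := by
  intro r hr
  have hom := StFar_om hy
  have hLam := StFar_Lam hg
  have h1 := Lam_small hs hy hg
  have h2 : om / 10 ^ 14 ≤ om / 1000 := by
    apply div_le_div_of_nonneg_left hom.le (by norm_num) (by norm_num)
  rcases le_total r (ep1 / om) with h | h
  · have h3 := g_near hs hy hg r ⟨hr.1, h⟩
    have h4 := Real.abs_sin_le_one (p.f r)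
    nlinarith
  · have h3 := g_far hs hy hg r ⟨h, hr.2⟩
    nlinarith

theorem sg_near (hs : IsSlice R1 p) (hy : Hyp R1 p om) (hg : Geo R1 p om lam) :
    ∀ r ∈ Icc 0 (ep1 / om), |Real.sin (p.f r)| * |p.g r| ≤ (401 / 100) * om := by
  intro r hr
  have hom := StFar_om hy
  have hLam := StFar_Lam hg
  have h1 := Lam_small hs hy hg
  have h2 : om / 10 ^ 14 ≤ om / 1000000 := by
    apply div_le_div_of_nonneg_left hom.le (by norm_num) (by norm_num)
  have h3 := g_near hs hy hg r hr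
  have h4 := Real.abs_sin_le_one (p.f r)
  have h5 := abs_nonneg (Real.sin (p.f r))
  have h6 : |p.g r| ≤ (401 / 100) * om := by nlinarith
  calc |Real.sin (p.f r)| * |p.g r| ≤ 1 * |p.g r| :=
        mul_le_mul_of_nonneg_right h4 (abs_nonneg _)
    _ ≤ (401 / 100) * om := by rw [one_mul]; exact h6

theorem sg_far (hs : IsSlice R1 p) (hy : Hyp R1 p om) (hg : Geo R1 p om lam) :
    ∀ r ∈ Icc (ep1 / om) R1, |Real.sin (p.f r)| * |p.g r| ≤ 900 * eps * Lam R1 p om lam := by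
  intro r hr
  have h1 := sin_far hs hy hg r hr
  have h2 := g_far hs hy hg r hr
  have h0 : 0 < eps := by unfold eps; norm_num
  calc |Real.sin (p.f r)| * |p.g r| ≤ (3 * eps) * (300 * Lam R1 p om lam) :=
        mul_le_mul h1 h2 (abs_nonneg _) (by positivity)
    _ = 900 * eps * Lam R1 p om lam := by ring

theorem g_L2 (hs : IsSlice R1 p) (hy : Hyp R1 p om) (hg : Geo R1 p om lam) :
    ∫ r in (ep1 / om)..R1, r * (p.g r / r) ^ 2 ≤ (150 * Lam R1 p om lam) ^ 2 := by
  have hL0 := L_pos hy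
  have hLR : ep1 / om ≤ R1 := by linarith [L_le hs hy, hs.R1pos]
  have hcs : Continuous fun s => Real.sin (p.f s) := Real.continuous_sin.comp hs.cf
  have hcc : Continuous fun s => Real.cos (p.f s) := Real.continuous_cos.comp hs.cf
  have hcG : Continuous fun s => p.wt s - p.e s * Real.sin (p.f s) := hs.cwt.sub (hs.ce.mul hcs)
  have hne : ∀ s ∈ Icc (ep1 / om) R1, s ≠ 0 := fun s hs' => (lt_of_lt_of_le hL0 hs'.1).ne'
  have hcd : ContinuousOn (fun s => 2 * p.g s * (p.wt s - p.e s * Real.sin (p.f s)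
      - (4 + p.a s) * Real.cos (p.f s) * p.g s / s)) (Icc (ep1 / om) R1) := by
    apply ContinuousOn.mul (continuous_const.mul hs.cg).continuousOn
    apply ContinuousOn.sub hcG.continuousOn
    exact ((((continuous_const.add hs.ca).mul hcc).mul hs.cg).continuousOn).div
      continuous_id.continuousOn hne
  have hint : IntervalIntegrable (fun s => 2 * p.g s * (p.wt s - p.e s * Real.sin (p.f s)
      - (4 + p.a s) * Real.cos (p.f s) * p.g s / s)) volume (ep1 / om) R1 :=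
    ContinuousOn.intervalIntegrable (by rw [uIcc_of_le hLR]; exact hcd)
  have h1 : ∫ s in (ep1 / om)..R1, 2 * p.g s * (p.wt s - p.e s * Real.sin (p.f s)
      - (4 + p.a s) * Real.cos (p.f s) * p.g s / s) = p.g R1 ^ 2 - p.g (ep1 / om) ^ 2 := by
    apply intervalIntegral.integral_eq_sub_of_hasDerivAt
    · intro s hs'
      rw [uIcc_of_le hLR] at hs'
      have hs0 : 0 < s := lt_of_lt_of_le hL0 hs'.1
      have h2 := (hs.dg s hs0).pow 2
      refine h2.congr_deriv ?_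
      simp only [Nat.cast_ofNat]
      ring
    · exact hint
  have hcz : ContinuousOn (fun s => s * (p.g s / s) ^ 2) (Icc (ep1 / om) R1) :=
    continuous_id.continuousOn.mul
      ((hs.cg.continuousOn.div continuous_id.continuousOn hne).pow 2)
  have hiz : IntervalIntegrable (fun s => 5 * (s * (p.g s / s) ^ 2)) volume (ep1 / om) R1 :=
    ContinuousOn.intervalIntegrable (by rw [uIcc_of_le hLR]; exact continuousOn_const.mul hcz)
  have hcg0 : Continuous (fun s => s * (p.wt s - p.e s * Real.sin (p.f s)) ^ 2) :=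
    continuous_id.mul (hcG.pow 2)
  have h2 : ∫ s in (ep1 / om)..R1, 2 * p.g s * (p.wt s - p.e s * Real.sin (p.f s)
      - (4 + p.a s) * Real.cos (p.f s) * p.g s / s) ≤
      ∫ s in (ep1 / om)..R1, (s * (p.wt s - p.e s * Real.sin (p.f s)) ^ 2
        - 5 * (s * (p.g s / s) ^ 2)) := by
    apply intervalIntegral.integral_mono_on hLR hint
      ((hcg0.intervalIntegrable _ _).sub hiz)
    intro s hs'
    have hs0 : 0 < s := lt_of_lt_of_le hL0 hs'.1
    have h3 := StFar_mc hs hy hg s hs'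
    set G := p.wt s - p.e s * Real.sin (p.f s) with hG
    set m := (4 + p.a s) * Real.cos (p.f s) with hm
    have h4 : 0 ≤ (s * G - p.g s) ^ 2 / s := by positivity
    have h5 : (s * G - p.g s) ^ 2 / s = s * G ^ 2 - 2 * p.g s * G + p.g s ^ 2 / s := by
      field_simp
      ring
    have h6 : s * (p.g s / s) ^ 2 = p.g s ^ 2 / s := by
      field_simp
    have h7 : 2 * p.g s * (G - m * p.g s / s) = 2 * p.g s * G - 2 * m * (p.g s ^ 2 / s) := by
      ring
    rw [h6, h7]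
    have h8 : 0 ≤ p.g s ^ 2 / s := by positivity
    rw [h5] at h4
    nlinarith [mul_nonneg (sub_nonneg.2 h3) h8]
  rw [intervalIntegral.integral_sub (hcg0.intervalIntegrable _ _) hiz,
    intervalIntegral.integral_const_mul, h1, hs.gR] at h2
  have h3 := StFar_G0 hs hy hg
  have h4 := StFar_gL hs hy hg
  have hLam := StFar_Lam hg
  have h5 : p.g (ep1 / om) ^ 2 ≤ (251 * Lam R1 p om lam) ^ 2 := by
    rw [← sq_abs]
    exact pow_le_pow_left₀ (abs_nonneg _) h4 2
  nlinarith [mul_nonneg hLam hLam]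

end H72GS

end S_StFar

section S_StC0

/-!
# StC0 (only `C0_rel, C0_est`): the law `om' = om² (1 + small)`

With `c = cos f, s = sin f`, `eta = g + 4 om s`, `C0 = ∫ r Th s c`, `Th c - Thd s = Xi`:
* `dN = ∫ r g (2 Th c - Xi) = -8 om C0 + 4 om ∫ r s Xi + ∫ r eta (2 Th c - Xi)`;
* `dP + 4 om dN = -16 om² C0 + 4 om ∫ r Xi eta + ∫ r Thd (eta² - w²) - ∫ μ w Xi - ∫ r y s Th`
  (insert `g = -4 om s + eta`: the coefficient of `om eta` is
  `-8 s Thd + 4 (2 Th c - Xi) = 4 Xi`, the coefficient of `om²` is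
  `16 s² Thd - 16 s (2 Th c - Xi) = -16 Th s c`).
* `C0_rel`: `∫ r μ s Th c = N - ∫ r JJ(f) + ∫ r² w Th c` (FTC for `r² (Th s - JJ)(f)`, whose
  `r`-derivative is `2 r (Th s - JJ) + 2 r² Th c f'`, `r f' = r w - μ s`).
* sizes, on the support `r ≤ 2·10⁶ lam` (`supp`; all of `Th, Thd, Xi, JJ` vanish beyond):
  `∫ r |JJ| ≤ 100 qq (2·10⁶ lam)²/2`, `∫ r² |w||Th| ≤ chi (2·10⁶ lam)³/3`,
  `|∫ r a s Th c| ≤ N/10⁵`, `|Xi| ≤ 16·10⁻¹⁸`, `∫ μ |w||Xi| ≤ 4.01·16·10⁻¹⁸·2·10⁶ lam chi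
  ≤ 1.3·10⁻¹⁰ lam chi`, `lam chi ≤ 4 Gam om² N`; `∫ r |Thd|(eta² + w²) ≤ 9·(250² + 1) Lam²·2·10¹² lam²`;
  `∫ r |y||s||Th| ≤ eps (3 lam²)^{1/2}`; `lam² ≤ 16 N`.
* `om' = -(dP + 4 om dN)/(4 N)`.
-/

namespace H72GS

open Set MeasureTheory intervalIntegral

variable {R1 : ℝ} {p : Pre} {om lam : ℝ}

private lemma StC0_loc {u : ℝ → ℝ} {R B C : ℝ} (k : ℕ) (hR : 0 ≤ R) (hB : 0 ≤ B) (hC : 0 ≤ C)
    (hu : Continuous u) (h : ∀ r ∈ Icc 0 R, |u r| ≤ C * r ^ k)
    (h0 : ∀ r ∈ Icc 0 R, B ≤ r → u r = 0) :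
    |∫ r in (0 : ℝ)..R, u r| ≤ C * (B ^ (k + 1) / (k + 1)) := by
  have main : ∀ b, 0 ≤ b → b ≤ R → |∫ r in (0 : ℝ)..b, u r| ≤ C * (b ^ (k + 1) / (k + 1)) := by
    intro b hb hbR
    have h1 : |∫ r in (0 : ℝ)..b, u r| ≤ ∫ r in (0 : ℝ)..b, |u r| :=
      intervalIntegral.abs_integral_le_integral_abs hb
    have h2 : ∫ r in (0 : ℝ)..b, |u r| ≤ ∫ r in (0 : ℝ)..b, C * r ^ k := by
      apply intervalIntegral.integral_mono_on hb
      · exact hu.abs.intervalIntegrable _ _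
      · exact (continuous_const.mul (continuous_pow k)).intervalIntegrable _ _
      · intro x hx
        exact h x ⟨hx.1, hx.2.trans hbR⟩
    have h3 : ∫ r in (0 : ℝ)..b, C * r ^ k = C * (b ^ (k + 1) / (k + 1)) := by
      rw [intervalIntegral.integral_const_mul, integral_pow]
      simp
    linarith
  rcases le_total B R with hBR | hBR
  · have e1 : ∫ r in (0 : ℝ)..R, u r = (∫ r in (0 : ℝ)..B, u r) + ∫ r in B..R, u r :=
      (intervalIntegral.integral_add_adjacent_intervals (hu.intervalIntegrable _ _)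
        (hu.intervalIntegrable _ _)).symm
    have e2 : ∫ r in B..R, u r = ∫ r in B..R, (0 : ℝ) := by
      apply intervalIntegral.integral_congr
      intro x hx
      rw [uIcc_of_le hBR] at hx
      exact h0 x ⟨hB.trans hx.1, hx.2⟩ hx.1
    rw [e1, e2, intervalIntegral.integral_zero, add_zero]
    exact main B hB hBR
  · refine (main R hR (le_refl _)).trans ?_
    apply mul_le_mul_of_nonneg_left _ hC
    apply div_le_div_of_nonneg_right _ (by positivity)
    exact pow_le_pow_left₀ hR hBR _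

private lemma StC0_f0 : Th 0 = 0 := by
  apply Th_zero
  rw [Real.cos_zero]
  unfold qq; norm_num

private lemma StC0_J0 : JJ 0 = 0 := by
  unfold JJ
  simp

theorem C0_rel (hs : IsSlice R1 p) :
    ∫ r in (0 : ℝ)..R1, r * (4 + p.a r) * Real.sin (p.f r) * Th (p.f r) * Real.cos (p.f r)
      = p.N R1 - (∫ r in (0 : ℝ)..R1, r * JJ (p.f r))
        + ∫ r in (0 : ℝ)..R1, r ^ 2 * p.w r * Th (p.f r) * Real.cos (p.f r) := by
  have cf := hs.cf
  have cTh : Continuous fun r => Th (p.f r) := continuous_Th.comp cf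
  have cJ : Continuous fun r => JJ (p.f r) := continuous_JJ.comp cf
  have cS : Continuous fun r => Real.sin (p.f r) := Real.continuous_sin.comp cf
  have cC : Continuous fun r => Real.cos (p.f r) := Real.continuous_cos.comp cf
  have ca := hs.ca
  have cw := hs.cw
  have cid : Continuous fun r : ℝ => r := continuous_id
  have i1 : Continuous fun r => r * (4 + p.a r) * Real.sin (p.f r) * Th (p.f r) * Real.cos (p.f r) :=
    (((cid.mul (continuous_const.add ca)).mul cS).mul cTh).mul cC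
  have i2 : Continuous fun r => r * Th (p.f r) * Real.sin (p.f r) := (cid.mul cTh).mul cS
  have i3 : Continuous fun r => r * JJ (p.f r) := cid.mul cJ
  have i4 : Continuous fun r => r ^ 2 * p.w r * Th (p.f r) * Real.cos (p.f r) :=
    (((cid.pow 2).mul cw).mul cTh).mul cC
  have key : ∫ r in (0 : ℝ)..R1, (2 * (r * Th (p.f r) * Real.sin (p.f r) - r * JJ (p.f r)
      + r ^ 2 * p.w r * Th (p.f r) * Real.cos (p.f r)
      - r * (4 + p.a r) * Real.sin (p.f r) * Th (p.f r) * Real.cos (p.f r))) =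
      R1 ^ 2 * (Th (p.f R1) * Real.sin (p.f R1) - JJ (p.f R1))
        - 0 ^ 2 * (Th (p.f 0) * Real.sin (p.f 0) - JJ (p.f 0)) := by
    refine intervalIntegral.integral_eq_sub_of_hasDerivAt_of_le
      (f := fun r => r ^ 2 * (Th (p.f r) * Real.sin (p.f r) - JJ (p.f r))) hs.R1pos.le ?_ ?_ ?_
    · exact ((cid.pow 2).mul ((cTh.mul cS).sub cJ)).continuousOn
    · intro r hr
      have hr0 : 0 < r := hr.1
      have d1 := hs.df r hr0
      have d2 : HasDerivAt (fun r => Th (p.f r)) (Thd (p.f r) *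
        (p.w r - (4 + p.a r) * Real.sin (p.f r) / r)) r := (hasDerivAt_Th (p.f r)).comp r d1
      have d3 : HasDerivAt (fun r => Real.sin (p.f r)) (Real.cos (p.f r) *
        (p.w r - (4 + p.a r) * Real.sin (p.f r) / r)) r := (Real.hasDerivAt_sin (p.f r)).comp r d1
      have d4 : HasDerivAt (fun r => JJ (p.f r)) (-Xi (p.f r) *
        (p.w r - (4 + p.a r) * Real.sin (p.f r) / r)) r := (hasDerivAt_JJ (p.f r)).comp r d1
      have d5 := (hasDerivAt_pow 2 r).mul ((d2.mul d3).sub d4)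
      refine d5.congr_deriv ?_
      have hX := Th_cos_sub (p.f r)
      rw [← hX]
      simp only [Pi.mul_apply, Pi.sub_apply]
      push_cast
      field_simp
      ring
    · refine Continuous.intervalIntegrable ?_ _ _
      exact continuous_const.mul (((i2.sub i3).add i4).sub i1)
  rw [hs.fR, StC0_f0, StC0_J0] at key
  have e0 : R1 ^ 2 * (0 * Real.sin 0 - 0) - 0 ^ 2 * (Th (p.f 0) * Real.sin (p.f 0) - JJ (p.f 0)) = 0 := by
    ring
  rw [e0, intervalIntegral.integral_const_mul] at key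
  have e1 : ∫ r in (0 : ℝ)..R1, (r * Th (p.f r) * Real.sin (p.f r) - r * JJ (p.f r)
      + r ^ 2 * p.w r * Th (p.f r) * Real.cos (p.f r)
      - r * (4 + p.a r) * Real.sin (p.f r) * Th (p.f r) * Real.cos (p.f r)) =
      (∫ r in (0 : ℝ)..R1, r * Th (p.f r) * Real.sin (p.f r)) - (∫ r in (0 : ℝ)..R1, r * JJ (p.f r))
      + (∫ r in (0 : ℝ)..R1, r ^ 2 * p.w r * Th (p.f r) * Real.cos (p.f r))
      - ∫ r in (0 : ℝ)..R1, r * (4 + p.a r) * Real.sin (p.f r) * Th (p.f r) * Real.cos (p.f r) := by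
    have i23 : Continuous fun r => r * Th (p.f r) * Real.sin (p.f r) - r * JJ (p.f r) := i2.sub i3
    have i234 : Continuous fun r => r * Th (p.f r) * Real.sin (p.f r) - r * JJ (p.f r)
      + r ^ 2 * p.w r * Th (p.f r) * Real.cos (p.f r) := i23.add i4
    rw [intervalIntegral.integral_sub (i234.intervalIntegrable _ _)
      (i1.intervalIntegrable _ _), intervalIntegral.integral_add (i23.intervalIntegrable _ _)
      (i4.intervalIntegrable _ _), intervalIntegral.integral_sub (i2.intervalIntegrable _ _)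
      (i3.intervalIntegrable _ _)]
  rw [e1] at key
  have eN : p.N R1 = ∫ r in (0 : ℝ)..R1, r * Th (p.f r) * Real.sin (p.f r) := rfl
  rw [eN]
  linarith

theorem C0_est (hs : IsSlice R1 p) (hy : Hyp R1 p om) (hg : Geo R1 p om lam) :
    |4 * (∫ r in (0 : ℝ)..R1, r * Real.sin (p.f r) * Th (p.f r) * Real.cos (p.f r)) - p.N R1|
      ≤ p.N R1 / 1000 := by
  have cf := hs.cf
  have cTh : Continuous fun r => Th (p.f r) := continuous_Th.comp cf
  have cJ : Continuous fun r => JJ (p.f r) := continuous_JJ.comp cf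
  have cS : Continuous fun r => Real.sin (p.f r) := Real.continuous_sin.comp cf
  have cC : Continuous fun r => Real.cos (p.f r) := Real.continuous_cos.comp cf
  have ca := hs.ca
  have cw := hs.cw
  have cid : Continuous fun r : ℝ => r := continuous_id
  have hR := hs.R1pos
  have hl := hg.lam_pos
  have hN := hg.N_lo
  have i0 : Continuous fun r => r * Real.sin (p.f r) * Th (p.f r) * Real.cos (p.f r) :=
    ((cid.mul cS).mul cTh).mul cC
  have i2 : Continuous fun r => r * Th (p.f r) * Real.sin (p.f r) := (cid.mul cTh).mul cS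
  have i5 : Continuous fun r => r * p.a r * Real.sin (p.f r) * Th (p.f r) * Real.cos (p.f r) :=
    (((cid.mul ca).mul cS).mul cTh).mul cC
  have rel := C0_rel hs
  have e1 : ∫ r in (0 : ℝ)..R1, r * (4 + p.a r) * Real.sin (p.f r) * Th (p.f r) * Real.cos (p.f r) =
      4 * (∫ r in (0 : ℝ)..R1, r * Real.sin (p.f r) * Th (p.f r) * Real.cos (p.f r)) +
      ∫ r in (0 : ℝ)..R1, r * p.a r * Real.sin (p.f r) * Th (p.f r) * Real.cos (p.f r) := by
    have i00 : Continuous fun r =>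
      4 * (r * Real.sin (p.f r) * Th (p.f r) * Real.cos (p.f r)) := continuous_const.mul i0
    rw [← intervalIntegral.integral_const_mul, ← intervalIntegral.integral_add
      (i00.intervalIntegrable _ _) (i5.intervalIntegrable _ _)]
    apply intervalIntegral.integral_congr
    intro r _
    show r * (4 + p.a r) * Real.sin (p.f r) * Th (p.f r) * Real.cos (p.f r) =
      4 * (r * Real.sin (p.f r) * Th (p.f r) * Real.cos (p.f r)) +
      r * p.a r * Real.sin (p.f r) * Th (p.f r) * Real.cos (p.f r)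
    ring
  have hB : 0 ≤ 2 * 10 ^ 6 * lam := by positivity
  -- a term
  have b1 : |∫ r in (0 : ℝ)..R1, r * p.a r * Real.sin (p.f r) * Th (p.f r) * Real.cos (p.f r)| ≤
      1 / 100000 * p.N R1 := by
    have h1 : |∫ r in (0 : ℝ)..R1, r * p.a r * Real.sin (p.f r) * Th (p.f r) * Real.cos (p.f r)| ≤
        ∫ r in (0 : ℝ)..R1, |r * p.a r * Real.sin (p.f r) * Th (p.f r) * Real.cos (p.f r)| :=
      intervalIntegral.abs_integral_le_integral_abs hR.le
    refine h1.trans ?_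
    have eN : p.N R1 = ∫ r in (0 : ℝ)..R1, r * Th (p.f r) * Real.sin (p.f r) := rfl
    rw [eN, ← intervalIntegral.integral_const_mul]
    apply intervalIntegral.integral_mono_on hR.le
    · exact i5.abs.intervalIntegrable _ _
    · exact (continuous_const.mul i2).intervalIntegrable _ _
    · intro r hr
      have ha := a_abs hs hy.en r hr
      have hT := Th_mul_sin_nonneg (p.f r)
      have hc := Real.abs_cos_le_one (p.f r)
      have e : r * p.a r * Real.sin (p.f r) * Th (p.f r) * Real.cos (p.f r) =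
        (r * (Th (p.f r) * Real.sin (p.f r))) * (p.a r * Real.cos (p.f r)) := by ring
      rw [e, abs_mul, abs_mul (p.a r), abs_of_nonneg (mul_nonneg hr.1 hT)]
      have h2 : |p.a r| * |Real.cos (p.f r)| ≤ 1 / 100000 * 1 :=
        mul_le_mul ha hc (abs_nonneg _) (by norm_num)
      have h3 : 0 ≤ r * (Th (p.f r) * Real.sin (p.f r)) := mul_nonneg hr.1 hT
      calc (r * (Th (p.f r) * Real.sin (p.f r))) * (|p.a r| * |Real.cos (p.f r)|)
          ≤ (r * (Th (p.f r) * Real.sin (p.f r))) * (1 / 100000 * 1) :=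
            mul_le_mul_of_nonneg_left h2 h3
        _ = 1 / 100000 * (r * Th (p.f r) * Real.sin (p.f r)) := by ring
  -- support
  have hsupp := supp hs hy.en hl hg.lam_lt hg.f_lam
  have b2 : |∫ r in (0 : ℝ)..R1, r * JJ (p.f r)| ≤ 100 * qq * ((2 * 10 ^ 6 * lam) ^ 2 / 2) := by
    have := StC0_loc (u := fun r => r * JJ (p.f r)) (R := R1) (B := 2 * 10 ^ 6 * lam)
      (C := 100 * qq) 1 hR.le hB (by unfold qq; norm_num) (cid.mul cJ) ?_ ?_
    · norm_num at this ⊢
      exact this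
    · intro r hr
      have h1 := f_range hs hy.en r hr
      have h2 := JJ_abs h1.1 h1.2
      rw [abs_mul, abs_of_nonneg hr.1, pow_one]
      nlinarith [hr.1]
    · intro r hr h1
      have h2 := hsupp r hr h1
      have h3 : lam ≤ r := by
        refine le_trans ?_ h1
        nlinarith
      have h4 := (far0 hs hy.en hl hg.lam_lt hg.f_lam r ⟨h3, hr.2⟩).1
      show r * JJ (p.f r) = 0
      rw [JJ_zero h4.le h2, mul_zero]
  have b3 : |∫ r in (0 : ℝ)..R1, r ^ 2 * p.w r * Th (p.f r) * Real.cos (p.f r)| ≤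
      chi R1 p * ((2 * 10 ^ 6 * lam) ^ 3 / 3) := by
    have := StC0_loc (u := fun r => r ^ 2 * p.w r * Th (p.f r) * Real.cos (p.f r)) (R := R1)
      (B := 2 * 10 ^ 6 * lam) (C := chi R1 p) 2 hR.le hB chi_nonneg
      ((((cid.pow 2).mul cw).mul cTh).mul cC) ?_ ?_
    · norm_num at this ⊢
      exact this
    · intro r hr
      have h1 := w_abs hs hy.en r hr
      have h2 : |Th (p.f r)| ≤ 1 := (Th_abs_le _).trans (Real.abs_sin_le_one _)
      have h3 := Real.abs_cos_le_one (p.f r)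
      rw [abs_mul, abs_mul, abs_mul, abs_of_nonneg (sq_nonneg r)]
      have h4 : |p.w r| * |Th (p.f r)| ≤ chi R1 p * 1 :=
        mul_le_mul h1 h2 (abs_nonneg _) chi_nonneg
      have h5 : |p.w r| * |Th (p.f r)| * |Real.cos (p.f r)| ≤ chi R1 p * 1 * 1 :=
        mul_le_mul h4 h3 (abs_nonneg _) (by simpa using chi_nonneg)
      calc r ^ 2 * |p.w r| * |Th (p.f r)| * |Real.cos (p.f r)|
          = r ^ 2 * (|p.w r| * |Th (p.f r)| * |Real.cos (p.f r)|) := by ring
        _ ≤ r ^ 2 * (chi R1 p * 1 * 1) := mul_le_mul_of_nonneg_left h5 (sq_nonneg r)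
        _ = chi R1 p * r ^ 2 := by ring
    · intro r hr h1
      have h2 := hsupp r hr h1
      show r ^ 2 * p.w r * Th (p.f r) * Real.cos (p.f r) = 0
      rw [Th_zero h2]
      ring
  -- numerical part
  have hchi := chi_le hs hy hg
  have hb := hg.b_le
  have hom : 0 < om := lt_of_lt_of_le (by norm_num) hy.hom
  have hx : chi R1 p * lam ≤ 3 / 10 ^ 37 := by
    have h1 : chi R1 p * lam ≤ 3 * 10 ^ 7 * om ^ 2 * lam * lam :=
      mul_le_mul_of_nonneg_right hchi hl.le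
    have h2 : (om * lam) ^ 2 ≤ eps ^ 2 := pow_le_pow_left₀ (by positivity) hb 2
    have h3 : eps ^ 2 = 1 / 10 ^ 44 := by unfold eps; norm_num
    rw [h3] at h2
    calc chi R1 p * lam ≤ 3 * 10 ^ 7 * om ^ 2 * lam * lam := h1
      _ = 3 * 10 ^ 7 * (om * lam) ^ 2 := by ring
      _ ≤ 3 * 10 ^ 7 * (1 / 10 ^ 44) := by
          apply mul_le_mul_of_nonneg_left h2 (by norm_num)
      _ = 3 / 10 ^ 37 := by norm_num
  have c3 : chi R1 p * ((2 * 10 ^ 6 * lam) ^ 3 / 3) ≤ 1 / 10 ^ 18 * lam ^ 2 := by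
    have e : chi R1 p * ((2 * 10 ^ 6 * lam) ^ 3 / 3) = (chi R1 p * lam) * ((8 * 10 ^ 18 / 3) * lam ^ 2) := by
      ring
    rw [e]
    have h1 : (chi R1 p * lam) * ((8 * 10 ^ 18 / 3) * lam ^ 2) ≤
        (3 / 10 ^ 37) * ((8 * 10 ^ 18 / 3) * lam ^ 2) :=
      mul_le_mul_of_nonneg_right hx (by positivity)
    refine h1.trans ?_
    have h2 : (3 / 10 ^ 37) * ((8 * 10 ^ 18 / 3) * lam ^ 2) = (8 / 10 ^ 19) * lam ^ 2 := by ring
    rw [h2]
    apply mul_le_mul_of_nonneg_right _ (sq_nonneg _)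
    norm_num
  have c2 : 100 * qq * ((2 * 10 ^ 6 * lam) ^ 2 / 2) ≤ 1 / 10 ^ 18 * lam ^ 2 := by
    have e : 100 * qq * ((2 * 10 ^ 6 * lam) ^ 2 / 2) = (200 * 10 ^ 12 * qq) * lam ^ 2 := by ring
    rw [e]
    apply mul_le_mul_of_nonneg_right _ (sq_nonneg _)
    unfold qq
    norm_num
  have hN0 := hy.Npos
  have hlN : lam ^ 2 ≤ 16 * p.N R1 := by linarith
  have d2 : 1 / 10 ^ 18 * lam ^ 2 ≤ 1 / 10 ^ 16 * p.N R1 := by
    have : (1 : ℝ) / 10 ^ 18 * lam ^ 2 ≤ 1 / 10 ^ 18 * (16 * p.N R1) :=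
      mul_le_mul_of_nonneg_left hlN (by norm_num)
    have h2 : (1 : ℝ) / 10 ^ 18 * (16 * p.N R1) ≤ 1 / 10 ^ 16 * p.N R1 := by
      have : (1 : ℝ) / 10 ^ 18 * (16 * p.N R1) = (16 / 10 ^ 18) * p.N R1 := by ring
      rw [this]
      apply mul_le_mul_of_nonneg_right _ hN0.le
      norm_num
    linarith
  rw [e1] at rel
  have a1 := abs_le.1 b1
  have a2 := abs_le.1 (b2.trans c2)
  have a3 := abs_le.1 (b3.trans c3)
  rw [abs_le]
  constructor
  · have : (1 : ℝ) / 100000 * p.N R1 + 1 / 10 ^ 16 * p.N R1 + 1 / 10 ^ 16 * p.N R1 ≤ p.N R1 / 1000 := by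
      have h : (1 : ℝ) / 100000 * p.N R1 + 1 / 10 ^ 16 * p.N R1 + 1 / 10 ^ 16 * p.N R1 =
        (1 / 100000 + 1 / 10 ^ 16 + 1 / 10 ^ 16) * p.N R1 := by ring
      rw [h]
      have h9 : p.N R1 / 1000 = (1 / 1000) * p.N R1 := by ring
      rw [h9]
      apply mul_le_mul_of_nonneg_right _ hN0.le
      norm_num
    linarith [a1.1, a1.2, a2.1, a2.2, a3.1, a3.2]
  · have : (1 : ℝ) / 100000 * p.N R1 + 1 / 10 ^ 16 * p.N R1 + 1 / 10 ^ 16 * p.N R1 ≤ p.N R1 / 1000 := by
      have h : (1 : ℝ) / 100000 * p.N R1 + 1 / 10 ^ 16 * p.N R1 + 1 / 10 ^ 16 * p.N R1 =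
        (1 / 100000 + 1 / 10 ^ 16 + 1 / 10 ^ 16) * p.N R1 := by ring
      rw [h]
      have h9 : p.N R1 / 1000 = (1 / 1000) * p.N R1 := by ring
      rw [h9]
      apply mul_le_mul_of_nonneg_right _ hN0.le
      norm_num
    linarith [a1.1, a1.2, a2.1, a2.2, a3.1, a3.2]

end H72GS

end S_StC0
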