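import Mathlib
import Pool.Agent.H72.GM.M4

set_option autoImplicit false

/-! Gauged sigma model, file M5: this file joins several modules to save build time. -/

section S_StY1

/-!
# StY1: the easy terms of `dX`

All integrals over `0..R1`.  `L = ep1/om`, `Xl = ∫_0^L r (wt² + wr² + w1²)`.
* `I1 = ∫ 2 μ s g r w1²`: on `[0,L]`, `2 μ |s g| ≤ 2·4.0001·4.01 om ≤ 33 om`; on `[L,R1]`,
  `2 μ |s g| ≤ 8.1·900 eps Lam ≤ om/10²⁰`, and `∫ r w1² ≤ X/8`.
* `I2 = ∫ 2 (μ - c) e w²`: `w² = r · r w1²`, `r |e| ≤ R1 · 4 om² lam`: `om² lam ≤ eps om`.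
* `I3 = ∫ r s g w²`: `w² = r² w1²`, `|s g| ≤ 5 om`, `r² ≤ 10⁻⁶`.
* `I4 = ∫ 2 wt μ s w²`: `|w| ≤ chi ≤ Lam ≤ om/10¹⁴`, `∫ |wt||w| = ∫ r |wt||w1| ≤ X/5`.
* `I5 = ∫ 4 r wt c (e g - w y)`: `|e| ≤ 4 om² lam`, `∫ r |wt||g| ≤ chi eps`;
  `r |wt||w||y| = r |wt||w1| |r y|`, `|r y| ≤ om/10¹²`.
-/

namespace H72GS

open Set MeasureTheory intervalIntegral

variable {R1 : ℝ} {p : Pre} {om lam : ℝ}

/-- the coefficient `4 + a` -/
theorem StY1_mu (hs : IsSlice R1 p) (hy : Hyp R1 p om) :
    ∀ r ∈ Icc 0 R1, |4 + p.a r| ≤ 401 / 100 := by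
  intro r hr
  have h := abs_le.1 (a_abs hs hy.en r hr)
  rw [abs_le]
  constructor <;> linarith [h.1, h.2]

theorem StY1_prod {x y K : ℝ} (hx : |x| ≤ K) (hy : 0 ≤ y) : x * y ≤ K * y :=
  mul_le_mul_of_nonneg_right ((le_abs_self x).trans hx) hy

theorem StY1_om (hy : Hyp R1 p om) : 0 < om := lt_of_lt_of_le (by positivity) hy.hom

/-- integral monotonicity for continuous integrands on `[a, b]` -/
theorem StY1_mono {a b : ℝ} (hab : a ≤ b) {F G : ℝ → ℝ} (hF : Continuous F) (hG : Continuous G)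
    (h : ∀ r ∈ Icc a b, F r ≤ G r) : ∫ r in a..b, F r ≤ ∫ r in a..b, G r :=
  integral_mono_on hab (hF.intervalIntegrable _ _) (hG.intervalIntegrable _ _) h

theorem StY1_om2lam (hy : Hyp R1 p om) (hg : Geo R1 p om lam) : om ^ 2 * lam ≤ eps * om := by
  have h := hg.b_le
  have h0 := StY1_om hy
  nlinarith

theorem I1_le (hs : IsSlice R1 p) (hy : Hyp R1 p om) (hg : Geo R1 p om lam) :
    ∫ r in (0 : ℝ)..R1, 2 * (4 + p.a r) * Real.sin (p.f r) * p.g r * r * p.w1 r ^ 2
      ≤ 33 * om * p.Xl (ep1 / om) + om * p.X R1 / 10 ^ 5 := by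
  have cf := hs.cf
  have ca := hs.ca
  have cg := hs.cg
  have cw1 := hs.cw1
  have cwt := hs.cwt
  have cwr := hs.cwr
  have hL := L_pos hy
  have hLR := L_le hs hy
  have hR := hs.R1pos
  have hLR' : ep1 / om ≤ R1 := by linarith
  have hom := StY1_om hy
  have cF : Continuous fun r => 2 * (4 + p.a r) * Real.sin (p.f r) * p.g r * r * p.w1 r ^ 2 := by
    fun_prop
  rw [← integral_add_adjacent_intervals (cF.intervalIntegrable 0 (ep1 / om))
    (cF.intervalIntegrable (ep1 / om) R1)]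
  have h1 : ∫ r in (0 : ℝ)..(ep1 / om), 2 * (4 + p.a r) * Real.sin (p.f r) * p.g r * r * p.w1 r ^ 2
      ≤ 33 * om * p.Xl (ep1 / om) := by
    unfold Pre.Xl
    rw [← intervalIntegral.integral_const_mul]
    refine StY1_mono hL.le cF (by fun_prop) fun r hr => ?_
    have hr' : r ∈ Icc 0 R1 := ⟨hr.1, hr.2.trans hLR'⟩
    have h2 := StY1_mu hs hy r hr'
    have h3 := sg_near hs hy hg r hr
    have h4 : |2 * (4 + p.a r) * (Real.sin (p.f r) * p.g r)| ≤ 33 * om := by
      rw [abs_mul, abs_mul, abs_mul, abs_of_pos (by norm_num : (0:ℝ) < 2)]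
      have h5 : |4 + p.a r| * (|Real.sin (p.f r)| * |p.g r|) ≤ 401 / 100 * (401 / 100 * om) :=
        mul_le_mul h2 h3 (by positivity) (by norm_num)
      nlinarith
    have h6 : 0 ≤ r * p.w1 r ^ 2 := mul_nonneg hr.1 (sq_nonneg _)
    have h7 := StY1_prod h4 h6
    have h8 : 0 ≤ r * (p.wt r ^ 2 + p.wr r ^ 2) := mul_nonneg hr.1 (by positivity)
    have h9 : 0 ≤ om * (r * (p.wt r ^ 2 + p.wr r ^ 2)) := mul_nonneg hom.le h8
    nlinarith
  have h2 : ∫ r in (ep1 / om)..R1, 2 * (4 + p.a r) * Real.sin (p.f r) * p.g r * r * p.w1 r ^ 2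
      ≤ om * p.X R1 / 10 ^ 5 := by
    have h3 : ∫ r in (ep1 / om)..R1, 2 * (4 + p.a r) * Real.sin (p.f r) * p.g r * r * p.w1 r ^ 2
        ≤ ∫ r in (ep1 / om)..R1, (om / 10 ^ 5) * (r * p.w1 r ^ 2) := by
      refine StY1_mono hLR' cF (by fun_prop) fun r hr => ?_
      have hr' : r ∈ Icc 0 R1 := ⟨hL.le.trans hr.1, hr.2⟩
      have h2 := StY1_mu hs hy r hr'
      have h3 := sg_far hs hy hg r hr
      have hLam := Lam_small hs hy hg
      have h4 : |2 * (4 + p.a r) * (Real.sin (p.f r) * p.g r)| ≤ om / 10 ^ 5 := by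
        rw [abs_mul, abs_mul, abs_mul, abs_of_pos (by norm_num : (0:ℝ) < 2)]
        have h5 : |4 + p.a r| * (|Real.sin (p.f r)| * |p.g r|) ≤
            401 / 100 * (900 * eps * Lam R1 p om lam) :=
          mul_le_mul h2 h3 (by positivity) (by norm_num)
        have h6 : (900 * eps) * Lam R1 p om lam ≤ (900 * eps) * (om / 10 ^ 14) :=
          mul_le_mul_of_nonneg_left hLam (by unfold eps; norm_num)
        have h7 : (900 * eps) * (om / 10 ^ 14) ≤ om / 10 ^ 10 := by
          unfold eps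
          nlinarith
        nlinarith
      have h6 : 0 ≤ r * p.w1 r ^ 2 := mul_nonneg hr'.1 (sq_nonneg _)
      have h7 := StY1_prod h4 h6
      nlinarith
    have h4 : ∫ r in (ep1 / om)..R1, r * p.w1 r ^ 2 ≤ ∫ r in (0:ℝ)..R1, r * p.w1 r ^ 2 :=
      int_mono_set hL.le hLR' le_rfl (Continuous.continuousOn (by fun_prop))
        fun x hx => mul_nonneg hx.1 (sq_nonneg _)
    have h5 := (X_parts hs hy.en).2.2
    have h6 := X_nonneg hs hy.en
    rw [intervalIntegral.integral_const_mul] at h3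
    have h7 : (om / 10 ^ 5) * (∫ r in (ep1 / om)..R1, r * p.w1 r ^ 2) ≤
        (om / 10 ^ 5) * (p.X R1 / 8) :=
      mul_le_mul_of_nonneg_left (h4.trans h5) (by positivity)
    have h8 : 0 ≤ om * p.X R1 := mul_nonneg hom.le h6
    nlinarith
  linarith

theorem I2_le (hs : IsSlice R1 p) (hy : Hyp R1 p om) (hg : Geo R1 p om lam) :
    ∫ r in (0 : ℝ)..R1, 2 * ((4 + p.a r) - Real.cos (p.f r)) * p.e r * p.w r ^ 2
      ≤ om * p.X R1 / 10 ^ 5 := by
  have cf := hs.cf
  have ca := hs.ca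
  have ce := hs.ce
  have cw := hs.cw
  have cw1 := hs.cw1
  have hR := hs.R1pos
  have hR1 := hs.R1le
  have hom := StY1_om hy
  have h3 : ∫ r in (0:ℝ)..R1, 2 * ((4 + p.a r) - Real.cos (p.f r)) * p.e r * p.w r ^ 2
      ≤ ∫ r in (0:ℝ)..R1, (om / 10 ^ 5) * (r * p.w1 r ^ 2) := by
    refine StY1_mono hR.le (by fun_prop) (by fun_prop) fun r hr => ?_
    have h2 := StY1_mu hs hy r hr
    have he := e_abs hs hy hg r hr
    have h2' : |(4 + p.a r) - Real.cos (p.f r)| ≤ 6 := by
      have := Real.abs_cos_le_one (p.f r)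
      calc |(4 + p.a r) - Real.cos (p.f r)| ≤ |4 + p.a r| + |Real.cos (p.f r)| := abs_sub _ _
        _ ≤ 6 := by linarith
    have h4 : |2 * ((4 + p.a r) - Real.cos (p.f r)) * p.e r * r| ≤ om / 10 ^ 5 := by
      rw [abs_mul, abs_mul, abs_mul, abs_of_pos (by norm_num : (0:ℝ) < 2), abs_of_nonneg hr.1]
      have h5 : |(4 + p.a r) - Real.cos (p.f r)| * |p.e r| ≤ 6 * (4 * om ^ 2 * lam) :=
        mul_le_mul h2' he (abs_nonneg _) (by norm_num)
      have h6 := StY1_om2lam hy hg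
      have h7 : 6 * (4 * om ^ 2 * lam) ≤ om / 10 ^ 10 := by
        have : eps * om ≤ om / 10 ^ 20 := by
          unfold eps
          nlinarith
        nlinarith
      have h8 : r ≤ 1 := by linarith [hr.2]
      have h9 : 0 ≤ |(4 + p.a r) - Real.cos (p.f r)| * |p.e r| := by positivity
      calc 2 * |(4 + p.a r) - Real.cos (p.f r)| * |p.e r| * r
          = 2 * (|(4 + p.a r) - Real.cos (p.f r)| * |p.e r|) * r := by ring
        _ ≤ 2 * (|(4 + p.a r) - Real.cos (p.f r)| * |p.e r|) * 1 :=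
            mul_le_mul_of_nonneg_left h8 (by positivity)
        _ ≤ om / 10 ^ 5 := by nlinarith
    have h6 : 0 ≤ r * p.w1 r ^ 2 := mul_nonneg hr.1 (sq_nonneg _)
    have h7 := StY1_prod h4 h6
    calc 2 * ((4 + p.a r) - Real.cos (p.f r)) * p.e r * p.w r ^ 2
        = (2 * ((4 + p.a r) - Real.cos (p.f r)) * p.e r * r) * (r * p.w1 r ^ 2) := by
          rw [hs.hw1 r]; ring
      _ ≤ _ := h7
  have h5 := (X_parts hs hy.en).2.2
  have h6 := X_nonneg hs hy.en
  rw [intervalIntegral.integral_const_mul] at h3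
  have h7 : (om / 10 ^ 5) * (∫ r in (0:ℝ)..R1, r * p.w1 r ^ 2) ≤
      (om / 10 ^ 5) * (p.X R1 / 8) :=
    mul_le_mul_of_nonneg_left h5 (by positivity)
  have h8 : 0 ≤ om * p.X R1 := mul_nonneg hom.le h6
  nlinarith

theorem I3_le (hs : IsSlice R1 p) (hy : Hyp R1 p om) (hg : Geo R1 p om lam) :
    ∫ r in (0 : ℝ)..R1, r * Real.sin (p.f r) * p.g r * p.w r ^ 2 ≤ om * p.X R1 / 10 ^ 5 := by
  have cf := hs.cf
  have cg := hs.cg
  have cw := hs.cw
  have cw1 := hs.cw1
  have hR := hs.R1pos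
  have hR1 := hs.R1le
  have hom := StY1_om hy
  have h3 : ∫ r in (0:ℝ)..R1, r * Real.sin (p.f r) * p.g r * p.w r ^ 2
      ≤ ∫ r in (0:ℝ)..R1, (5 * om / 10 ^ 6) * (r * p.w1 r ^ 2) := by
    refine StY1_mono hR.le (by fun_prop) (by fun_prop) fun r hr => ?_
    have hgr := g_all hs hy hg r hr
    have h4 : |Real.sin (p.f r) * p.g r * r ^ 2| ≤ 5 * om / 10 ^ 6 := by
      rw [abs_mul, abs_mul, abs_of_nonneg (sq_nonneg r)]
      have h5 : |Real.sin (p.f r)| * |p.g r| ≤ 1 * (5 * om) :=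
        mul_le_mul (Real.abs_sin_le_one _) hgr (abs_nonneg _) (by norm_num)
      have h6 : r ^ 2 ≤ (1 / 1000) ^ 2 := pow_le_pow_left₀ hr.1 (hr.2.trans hR1) 2
      calc |Real.sin (p.f r)| * |p.g r| * r ^ 2 ≤ (1 * (5 * om)) * (1 / 1000) ^ 2 :=
            mul_le_mul h5 h6 (sq_nonneg _) (by positivity)
        _ = 5 * om / 10 ^ 6 := by ring
    have h6 : 0 ≤ r * p.w1 r ^ 2 := mul_nonneg hr.1 (sq_nonneg _)
    have h7 := StY1_prod h4 h6
    calc r * Real.sin (p.f r) * p.g r * p.w r ^ 2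
        = (Real.sin (p.f r) * p.g r * r ^ 2) * (r * p.w1 r ^ 2) := by
          rw [hs.hw1 r]; ring
      _ ≤ _ := h7
  have h5 := (X_parts hs hy.en).2.2
  have h6 := X_nonneg hs hy.en
  rw [intervalIntegral.integral_const_mul] at h3
  have h7 : (5 * om / 10 ^ 6) * (∫ r in (0:ℝ)..R1, r * p.w1 r ^ 2) ≤
      (5 * om / 10 ^ 6) * (p.X R1 / 8) :=
    mul_le_mul_of_nonneg_left h5 (by positivity)
  have h8 : 0 ≤ om * p.X R1 := mul_nonneg hom.le h6
  nlinarith

theorem StY1_chi (hs : IsSlice R1 p) (hy : Hyp R1 p om) (hg : Geo R1 p om lam) :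
    chi R1 p ≤ om / 10 ^ 14 := by
  have h1 := Lam_small hs hy hg
  have h2 : 0 ≤ om ^ 2 * lam := mul_nonneg (sq_nonneg _) hg.lam_pos.le
  unfold Lam at h1
  linarith

theorem I4_le (hs : IsSlice R1 p) (hy : Hyp R1 p om) (hg : Geo R1 p om lam) :
    ∫ r in (0 : ℝ)..R1, 2 * p.wt r * ((4 + p.a r) * Real.sin (p.f r) * p.w r ^ 2)
      ≤ om * p.X R1 / 10 ^ 5 := by
  have cf := hs.cf
  have ca := hs.ca
  have cw := hs.cw
  have cw1 := hs.cw1
  have cwt := hs.cwt
  have hR := hs.R1pos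
  have hom := StY1_om hy
  have h3 : ∫ r in (0:ℝ)..R1, 2 * p.wt r * ((4 + p.a r) * Real.sin (p.f r) * p.w r ^ 2)
      ≤ ∫ r in (0:ℝ)..R1, (om / 10 ^ 5) * (r * (|p.wt r| * |p.w1 r|)) := by
    refine StY1_mono hR.le (by fun_prop) (by fun_prop) fun r hr => ?_
    have h2 := StY1_mu hs hy r hr
    have hw := w_abs hs hy.en r hr
    have hchi := StY1_chi hs hy hg
    have hw' : |p.w r| ≤ om / 10 ^ 14 := hw.trans hchi
    have hww : |p.w r| = r * |p.w1 r| := by
      rw [hs.hw1 r, abs_mul, abs_of_nonneg hr.1]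
    have h4 : |4 + p.a r| * |Real.sin (p.f r)| * |p.w r| ≤ 401 / 100 * 1 * (om / 10 ^ 14) :=
      mul_le_mul (mul_le_mul h2 (Real.abs_sin_le_one _) (abs_nonneg _) (by norm_num)) hw'
        (abs_nonneg _) (by norm_num)
    have h5 : 0 ≤ r * (|p.wt r| * |p.w1 r|) := mul_nonneg hr.1 (by positivity)
    calc 2 * p.wt r * ((4 + p.a r) * Real.sin (p.f r) * p.w r ^ 2)
        ≤ |2 * p.wt r * ((4 + p.a r) * Real.sin (p.f r) * p.w r ^ 2)| := le_abs_self _
      _ = 2 * (|4 + p.a r| * |Real.sin (p.f r)| * |p.w r|) * (|p.wt r| * |p.w r|) := by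
          rw [abs_mul, abs_mul, abs_mul, abs_mul, abs_pow, abs_of_pos (by norm_num : (0:ℝ) < 2)]
          ring
      _ = 2 * (|4 + p.a r| * |Real.sin (p.f r)| * |p.w r|) * (r * (|p.wt r| * |p.w1 r|)) := by
          congr 1
          rw [hww]
          ring
      _ ≤ (om / 10 ^ 5) * (r * (|p.wt r| * |p.w1 r|)) := by
          apply mul_le_mul_of_nonneg_right _ h5
          nlinarith
  have h5 := (X_prods hs hy.en).1
  have h6 := X_nonneg hs hy.en
  rw [intervalIntegral.integral_const_mul] at h3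
  have h7 : (om / 10 ^ 5) * (∫ r in (0:ℝ)..R1, r * (|p.wt r| * |p.w1 r|)) ≤
      (om / 10 ^ 5) * (p.X R1 / 5) :=
    mul_le_mul_of_nonneg_left h5 (by positivity)
  have h8 : 0 ≤ om * p.X R1 := mul_nonneg hom.le h6
  nlinarith

theorem I5_le (hs : IsSlice R1 p) (hy : Hyp R1 p om) (hg : Geo R1 p om lam) :
    ∫ r in (0 : ℝ)..R1, 2 * p.wt r * (2 * r * Real.cos (p.f r) * (p.e r * p.g r - p.w r * p.y r))
      ≤ om ^ 3 * lam * chi R1 p / 10 ^ 5 + om * p.X R1 / 10 ^ 5 := by
  have cf := hs.cf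
  have ca := hs.ca
  have cw := hs.cw
  have ce := hs.ce
  have cg := hs.cg
  have cy := hs.cy
  have cw1 := hs.cw1
  have cwt := hs.cwt
  have hR := hs.R1pos
  have hom := StY1_om hy
  have hlam := hg.lam_pos
  have h3 : ∫ r in (0:ℝ)..R1, 2 * p.wt r *
        (2 * r * Real.cos (p.f r) * (p.e r * p.g r - p.w r * p.y r))
      ≤ ∫ r in (0:ℝ)..R1, ((16 * om ^ 2 * lam) * (r * (|p.wt r| * |p.g r|)) +
          (4 * (om / 10 ^ 12)) * (r * (|p.wt r| * |p.w1 r|))) := by
    refine StY1_mono hR.le (by fun_prop) (by fun_prop) fun r hr => ?_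
    have he := e_abs hs hy hg r hr
    have hry := ry_abs hs hy r hr
    have hc := Real.abs_cos_le_one (p.f r)
    have h5 : 0 ≤ r * (|p.wt r| * |p.w1 r|) := mul_nonneg hr.1 (by positivity)
    have h5' : 0 ≤ r * (|p.wt r| * |p.g r|) := mul_nonneg hr.1 (by positivity)
    have e1 : 2 * p.wt r * (2 * r * Real.cos (p.f r) * (p.e r * p.g r - p.w r * p.y r)) =
        4 * r * p.wt r * Real.cos (p.f r) * p.e r * p.g r +
          (-(4 * r * p.wt r * Real.cos (p.f r) * p.w r * p.y r)) := by ring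
    rw [e1]
    refine add_le_add ?_ ?_
    · calc 4 * r * p.wt r * Real.cos (p.f r) * p.e r * p.g r
          ≤ |4 * r * p.wt r * Real.cos (p.f r) * p.e r * p.g r| := le_abs_self _
        _ = 4 * (|Real.cos (p.f r)| * |p.e r|) * (r * (|p.wt r| * |p.g r|)) := by
            rw [abs_mul, abs_mul, abs_mul, abs_mul, abs_mul, abs_of_nonneg hr.1,
              abs_of_pos (by norm_num : (0:ℝ) < 4)]
            ring
        _ ≤ (16 * om ^ 2 * lam) * (r * (|p.wt r| * |p.g r|)) := by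
            apply mul_le_mul_of_nonneg_right _ h5'
            have : |Real.cos (p.f r)| * |p.e r| ≤ 1 * (4 * om ^ 2 * lam) :=
              mul_le_mul hc he (abs_nonneg _) (by norm_num)
            linarith
    · calc -(4 * r * p.wt r * Real.cos (p.f r) * p.w r * p.y r)
          ≤ |-(4 * r * p.wt r * Real.cos (p.f r) * p.w r * p.y r)| := le_abs_self _
        _ = 4 * (|Real.cos (p.f r)| * |r * p.y r|) * (r * (|p.wt r| * |p.w1 r|)) := by
            rw [abs_neg, hs.hw1 r, abs_mul, abs_mul, abs_mul, abs_mul, abs_mul, abs_mul, abs_mul,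
              abs_of_nonneg hr.1, abs_of_pos (by norm_num : (0:ℝ) < 4)]
            ring
        _ ≤ (4 * (om / 10 ^ 12)) * (r * (|p.wt r| * |p.w1 r|)) := by
            apply mul_le_mul_of_nonneg_right _ h5
            have : |Real.cos (p.f r)| * |r * p.y r| ≤ 1 * (om / 10 ^ 12) :=
              mul_le_mul hc hry (abs_nonneg _) (by norm_num)
            linarith
  rw [intervalIntegral.integral_add (Continuous.intervalIntegrable (by fun_prop) _ _)
    (Continuous.intervalIntegrable (by fun_prop) _ _), intervalIntegral.integral_const_mul,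
    intervalIntegral.integral_const_mul] at h3
  have h5 := (X_prods hs hy.en).1
  have h6 := X_nonneg hs hy.en
  have h8 : 0 ≤ om * p.X R1 := mul_nonneg hom.le h6
  have h9 : ∫ r in (0:ℝ)..R1, r * (|p.wt r| * |p.g r|) ≤ chi R1 p * eps := by
    refine (csr le_rfl hR.le cwt.continuousOn cg.continuousOn).trans ?_
    refine mul_le_mul ?_ ?_ (Real.sqrt_nonneg _) chi_nonneg
    · exact Real.sqrt_le_sqrt (X_parts hs hy.en).1
    · rw [Real.sqrt_le_left (by unfold eps; norm_num)]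
      exact (En_parts hs hy.en).1
  have h10 : (16 * om ^ 2 * lam) * (∫ r in (0:ℝ)..R1, r * (|p.wt r| * |p.g r|)) ≤
      (16 * om ^ 2 * lam) * (chi R1 p * eps) :=
    mul_le_mul_of_nonneg_left h9 (by positivity)
  have h11 : (4 * (om / 10 ^ 12)) * (∫ r in (0:ℝ)..R1, r * (|p.wt r| * |p.w1 r|)) ≤
      (4 * (om / 10 ^ 12)) * (p.X R1 / 5) :=
    mul_le_mul_of_nonneg_left h5 (by positivity)
  have h12 : (16 * om ^ 2 * lam) * (chi R1 p * eps) ≤ om ^ 3 * lam * chi R1 p / 10 ^ 5 := by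
    have h13 : 16 * eps ≤ om / 10 ^ 5 := by
      have := hy.hom
      unfold eps
      norm_num at this ⊢
      linarith
    have h14 : 0 ≤ om ^ 2 * lam * chi R1 p := mul_nonneg (by positivity) chi_nonneg
    have h15 := mul_le_mul_of_nonneg_left h13 h14
    calc (16 * om ^ 2 * lam) * (chi R1 p * eps) = om ^ 2 * lam * chi R1 p * (16 * eps) := by ring
      _ ≤ om ^ 2 * lam * chi R1 p * (om / 10 ^ 5) := h15
      _ = _ := by ring
  have h16 : (4 * (om / 10 ^ 12)) * (p.X R1 / 5) ≤ om * p.X R1 / 10 ^ 5 := by nlinarith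
  linarith

end H72GS

end S_StY1

section S_StY2

/-!
# StY2: the terms of `dD`

Integrals over `0..R1`; `Lam³ ≤ (4·10⁷ om² lam)³`, `om lam ≤ eps = 10⁻²²`.
* `I6 = 2 ∫ w r e s g²`: `|e| ≤ 4 om² lam`, `|s g| ≤ 5 om`, `∫ r |w||g| ≤ eps²`... one may use
  `∫ r |w||g| ≤ R1 ∫ r |w1||g| ≤ R1 (chi/√8) eps`.
* `I7 = 2 ∫ w μ c g³`: on `[0,L]`: `|g|³ ≤ 4 (64 om³ |s|³ + (250 Lam)³)`,
  `8.01·256 om³ ∫ r |w1||s|³ ≤ 2051 om³ (chi/√8)(∫_0^L r s²)^{1/2}`, `(3 lam²)^{1/2} ≤ 1.7321 lam`:
  `≤ 1257 om³ lam chi`; second part `8.01·6.25·10⁷ Lam³ ∫_0^L |w|`,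
  `∫_0^L |w| = ∫ r |w1| ≤ (chi/√8) L`.
  On `[L,R1]`: `8.01 (300 Lam)² ∫ r |w1||g| ≤ 7.3·10⁵ Lam² chi eps`.
-/

namespace H72GS

open Set MeasureTheory intervalIntegral

variable {R1 : ℝ} {p : Pre} {om lam : ℝ}

private theorem StY2_X (hs : IsSlice R1 p) (hy : Hyp R1 p om) : 0 ≤ p.X R1 :=
  X_nonneg hs hy.en

private theorem StY2_sq {x : ℝ} (h : 0 ≤ x) : Real.sqrt (x ^ 2) = x := Real.sqrt_sq h

/-- `∫ r |w1||g| ≤ chi eps` -/
private theorem StY2_wg (hs : IsSlice R1 p) (hy : Hyp R1 p om) :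
    ∫ r in (0 : ℝ)..R1, r * (|p.w1 r| * |p.g r|) ≤ chi R1 p * eps := by
  have h1 := csr (a := 0) (b := R1) le_rfl hs.R1pos.le hs.cw1.continuousOn hs.cg.continuousOn
  have h2 := (X_parts hs hy.en).2.2
  have h3 := (En_parts hs hy.en).1
  have hX := StY2_X hs hy
  have he : (0 : ℝ) ≤ eps := by unfold eps; positivity
  refine h1.trans ?_
  have h4 : Real.sqrt (∫ r in (0 : ℝ)..R1, r * p.w1 r ^ 2) ≤ chi R1 p := by
    unfold chi
    exact Real.sqrt_le_sqrt (h2.trans (by linarith))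
  have h5 : Real.sqrt (∫ r in (0 : ℝ)..R1, r * p.g r ^ 2) ≤ eps := by
    rw [← StY2_sq he]
    exact Real.sqrt_le_sqrt h3
  exact mul_le_mul h4 h5 (Real.sqrt_nonneg _) chi_nonneg

private theorem StY2_om (hy : Hyp R1 p om) : 0 < om := lt_of_lt_of_le (by positivity) hy.hom

private theorem StY2_mu (hs : IsSlice R1 p) (hy : Hyp R1 p om) {r : ℝ} (hr : r ∈ Icc 0 R1) :
    |4 + p.a r| ≤ 4005 / 1000 := by
  have := abs_le.mp (a_abs hs hy.en r hr)
  rw [abs_le]
  constructor <;> linarith [this.1, this.2]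

theorem I6_le (hs : IsSlice R1 p) (hy : Hyp R1 p om) (hg : Geo R1 p om lam) :
    ∫ r in (0 : ℝ)..R1, 2 * (p.w r * (r * p.e r * Real.sin (p.f r) * p.g r ^ 2))
      ≤ om ^ 3 * lam * chi R1 p / 10 ^ 5 := by
  have hom := StY2_om hy
  have hlam := hg.lam_pos
  have hR := hs.R1pos
  have hc := chi_nonneg (R1 := R1) (p := p)
  have hint := StY2_wg hs hy
  have h1 : ∫ r in (0 : ℝ)..R1, 2 * (p.w r * (r * p.e r * Real.sin (p.f r) * p.g r ^ 2))
      ≤ ∫ r in (0 : ℝ)..R1, (40 * om ^ 3 * lam * R1) * (r * (|p.w1 r| * |p.g r|)) := by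
    have := hs.cf
    have := hs.ce
    have := hs.cg
    have := hs.cw
    have := hs.cw1
    apply intervalIntegral.integral_mono_on hR.le
    · exact (by fun_prop : Continuous fun r => 2 * (p.w r * (r * p.e r * Real.sin (p.f r)
        * p.g r ^ 2))).intervalIntegrable _ _
    · exact (by fun_prop : Continuous fun r => (40 * om ^ 3 * lam * R1)
        * (r * (|p.w1 r| * |p.g r|))).intervalIntegrable _ _
    · intro r hr
      have he := e_abs hs hy hg r hr
      have hgg := g_all hs hy hg r hr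
      have hsin := Real.abs_sin_le_one (p.f r)
      have hr0 : 0 ≤ r := hr.1
      calc 2 * (p.w r * (r * p.e r * Real.sin (p.f r) * p.g r ^ 2))
          ≤ |2 * (p.w r * (r * p.e r * Real.sin (p.f r) * p.g r ^ 2))| := le_abs_self _
        _ = 2 * (r * (|p.w1 r| * |p.g r|)) * (r * (|p.e r| * (|Real.sin (p.f r)| * |p.g r|))) := by
            rw [hs.hw1 r]
            simp only [abs_mul, abs_pow, abs_two, abs_of_nonneg hr0]
            ring
        _ ≤ 2 * (r * (|p.w1 r| * |p.g r|)) * (R1 * (4 * om ^ 2 * lam * (1 * (5 * om)))) := by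
            gcongr
            exact hr.2
        _ = (40 * om ^ 3 * lam * R1) * (r * (|p.w1 r| * |p.g r|)) := by ring
  refine h1.trans ?_
  rw [intervalIntegral.integral_const_mul]
  calc (40 * om ^ 3 * lam * R1) * ∫ r in (0 : ℝ)..R1, r * (|p.w1 r| * |p.g r|)
      ≤ (40 * om ^ 3 * lam * (1 / 1000)) * (chi R1 p * eps) := by
        have h2 : 0 ≤ ∫ r in (0 : ℝ)..R1, r * (|p.w1 r| * |p.g r|) := by
          apply intervalIntegral.integral_nonneg hR.le
          intro r hr
          have := hr.1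
          positivity
        have h3 := hs.R1le
        gcongr
    _ = (om ^ 3 * lam * chi R1 p) * (40 / 1000 * eps) := by ring
    _ ≤ (om ^ 3 * lam * chi R1 p) * (1 / 10 ^ 5) := by
        apply mul_le_mul_of_nonneg_left _ (by positivity)
        unfold eps
        norm_num
    _ = om ^ 3 * lam * chi R1 p / 10 ^ 5 := by ring

private theorem StY2_cube {A B x : ℝ} (hA : 0 ≤ A) (hB : 0 ≤ B) (hx : 0 ≤ x) (h : x ≤ A + B) :
    x ^ 3 ≤ 4 * A ^ 3 + 4 * B ^ 3 := by
  have h1 : x ^ 3 ≤ (A + B) ^ 3 := by gcongr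
  have h2 : (A + B) ^ 3 ≤ 4 * A ^ 3 + 4 * B ^ 3 := by
    nlinarith [mul_nonneg (add_nonneg hA hB) (sq_nonneg (A - B))]
  exact h1.trans h2

/-- `∫_0^L r |w1||s|³` -/
private theorem StY2_ws (hs : IsSlice R1 p) (hy : Hyp R1 p om) (hg : Geo R1 p om lam) :
    ∫ r in (0 : ℝ)..(ep1 / om), r * (|p.w1 r| * |Real.sin (p.f r) ^ 3|)
      ≤ (6124 / 10000) * (chi R1 p * lam) := by
  have hL := L_pos hy
  have hLR := L_le hs hy
  have hR := hs.R1pos
  have hlam := hg.lam_pos
  have hX := StY2_X hs hy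
  have hcs : Continuous fun r => Real.sin (p.f r) ^ 3 := by
    have := hs.cf
    fun_prop
  have h1 := csr (a := 0) (b := ep1 / om) le_rfl hL.le hs.cw1.continuousOn hcs.continuousOn
  refine h1.trans ?_
  have h2 : ∫ r in (0 : ℝ)..(ep1 / om), r * p.w1 r ^ 2 ≤ p.X R1 / 8 := by
    refine le_trans ?_ (X_parts hs hy.en).2.2
    apply int_mono_set le_rfl hL.le (by linarith)
    · have := hs.cw1
      exact (by fun_prop : Continuous fun r => r * p.w1 r ^ 2).continuousOn
    · intro r hr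
      have := hr.1
      positivity
  have h3 : ∫ r in (0 : ℝ)..(ep1 / om), r * (Real.sin (p.f r) ^ 3) ^ 2 ≤ 3 * lam ^ 2 := by
    refine le_trans ?_ (I_sin2 hs hy hg)
    have := hs.cf
    apply intervalIntegral.integral_mono_on hL.le
    · exact (by fun_prop : Continuous fun r => r * (Real.sin (p.f r) ^ 3) ^ 2).intervalIntegrable _ _
    · exact (by fun_prop : Continuous fun r => r * Real.sin (p.f r) ^ 2).intervalIntegrable _ _
    · intro r hr
      have hr0 := hr.1
      have hs2 : Real.sin (p.f r) ^ 2 ≤ 1 := Real.sin_sq_le_one _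
      have hs0 : 0 ≤ Real.sin (p.f r) ^ 2 := sq_nonneg _
      have : (Real.sin (p.f r) ^ 3) ^ 2 ≤ Real.sin (p.f r) ^ 2 := by
        have e : (Real.sin (p.f r) ^ 3) ^ 2 = (Real.sin (p.f r) ^ 2) ^ 3 := by ring
        rw [e]
        calc (Real.sin (p.f r) ^ 2) ^ 3 = Real.sin (p.f r) ^ 2 * (Real.sin (p.f r) ^ 2) ^ 2 := by ring
          _ ≤ Real.sin (p.f r) ^ 2 * 1 := by
              apply mul_le_mul_of_nonneg_left _ hs0
              exact pow_le_one₀ hs0 hs2
          _ = Real.sin (p.f r) ^ 2 := mul_one _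
      exact mul_le_mul_of_nonneg_left this hr0
  have h4 : Real.sqrt (∫ r in (0 : ℝ)..(ep1 / om), r * p.w1 r ^ 2)
      * Real.sqrt (∫ r in (0 : ℝ)..(ep1 / om), r * (Real.sin (p.f r) ^ 3) ^ 2)
      ≤ Real.sqrt (p.X R1 / 8) * Real.sqrt (3 * lam ^ 2) :=
    mul_le_mul (Real.sqrt_le_sqrt h2) (Real.sqrt_le_sqrt h3) (Real.sqrt_nonneg _)
      (Real.sqrt_nonneg _)
  refine h4.trans ?_
  rw [← Real.sqrt_mul (by positivity)]
  apply Real.sqrt_le_iff.mpr
  have hc := chi_nonneg (R1 := R1) (p := p)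
  refine ⟨by positivity, ?_⟩
  have hcs' := chi_sq hs hy
  have e : ((6124 / 10000) * (chi R1 p * lam)) ^ 2 = (6124 / 10000) ^ 2 * (p.X R1 * lam ^ 2) := by
    rw [← hcs']
    ring
  rw [e]
  have h6 : 0 ≤ p.X R1 * lam ^ 2 := by positivity
  nlinarith

theorem I7_le (hs : IsSlice R1 p) (hy : Hyp R1 p om) (hg : Geo R1 p om lam) :
    ∫ r in (0 : ℝ)..R1, 2 * (p.w r * ((4 + p.a r) * Real.cos (p.f r) * p.g r ^ 3))
      ≤ 1270 * om ^ 3 * lam * chi R1 p := by
  have hom := StY2_om hy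
  have hlam := hg.lam_pos
  have hR := hs.R1pos
  have hL := L_pos hy
  have hLR := L_le hs hy
  have hc := chi_nonneg (R1 := R1) (p := p)
  have hLam0 : 0 ≤ Lam R1 p om lam := by unfold Lam; positivity
  have hcf := hs.cf
  have hca := hs.ca
  have hcg := hs.cg
  have hcw := hs.cw
  have hcw1 := hs.cw1
  set La := Lam R1 p om lam with hLa
  set ch := chi R1 p with hch
  have hcont : Continuous fun r => 2 * (p.w r * ((4 + p.a r) * Real.cos (p.f r) * p.g r ^ 3)) := by
    fun_prop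
  have hpt : ∀ r ∈ Icc 0 R1, 2 * (p.w r * ((4 + p.a r) * Real.cos (p.f r) * p.g r ^ 3))
      ≤ (801 / 100) * (r * |p.w1 r|) * |p.g r| ^ 3 := by
    intro r hr
    have hmu := StY2_mu hs hy hr
    have hcos := Real.abs_cos_le_one (p.f r)
    have hr0 : 0 ≤ r := hr.1
    calc 2 * (p.w r * ((4 + p.a r) * Real.cos (p.f r) * p.g r ^ 3))
        ≤ |2 * (p.w r * ((4 + p.a r) * Real.cos (p.f r) * p.g r ^ 3))| := le_abs_self _
      _ = 2 * (r * |p.w1 r|) * (|4 + p.a r| * |Real.cos (p.f r)|) * |p.g r| ^ 3 := by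
          rw [hs.hw1 r]
          simp only [abs_mul, abs_pow, abs_two, abs_of_nonneg hr0]
          ring
      _ ≤ 2 * (r * |p.w1 r|) * (4005 / 1000 * 1) * |p.g r| ^ 3 := by gcongr
      _ = (801 / 100) * (r * |p.w1 r|) * |p.g r| ^ 3 := by ring
  -- the near part
  have hnear : ∫ r in (0 : ℝ)..(ep1 / om),
      2 * (p.w r * ((4 + p.a r) * Real.cos (p.f r) * p.g r ^ 3))
      ≤ (801 / 100) * (256 * om ^ 3) * ((6124 / 10000) * (ch * lam))
        + (801 / 100) * (4 * (250 * La) ^ 3) * ch * (ep1 / om) := by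
    have h1 : ∫ r in (0 : ℝ)..(ep1 / om),
        2 * (p.w r * ((4 + p.a r) * Real.cos (p.f r) * p.g r ^ 3))
        ≤ ∫ r in (0 : ℝ)..(ep1 / om),
          ((801 / 100) * (256 * om ^ 3) * (r * (|p.w1 r| * |Real.sin (p.f r) ^ 3|))
            + (801 / 100) * (4 * (250 * La) ^ 3) * ch) := by
      apply intervalIntegral.integral_mono_on hL.le
      · exact hcont.intervalIntegrable _ _
      · exact (by fun_prop : Continuous fun r =>
          ((801 / 100) * (256 * om ^ 3) * (r * (|p.w1 r| * |Real.sin (p.f r) ^ 3|))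
            + (801 / 100) * (4 * (250 * La) ^ 3) * ch)).intervalIntegrable _ _
      · intro r hr
        have hr' : r ∈ Icc 0 R1 := ⟨hr.1, hr.2.trans (by linarith)⟩
        have hr0 : 0 ≤ r := hr.1
        refine (hpt r hr').trans ?_
        have hgn := g_near hs hy hg r hr
        have hcube := StY2_cube (A := 4 * om * |Real.sin (p.f r)|) (B := 250 * La)
          (by positivity) (by positivity) (abs_nonneg (p.g r)) hgn
        have hw : r * |p.w1 r| ≤ ch := by
          have := w_abs hs hy.en r hr'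
          rw [hs.hw1 r, abs_mul, abs_of_nonneg hr0] at this
          exact this
        calc (801 / 100) * (r * |p.w1 r|) * |p.g r| ^ 3
            ≤ (801 / 100) * (r * |p.w1 r|)
              * (4 * (4 * om * |Real.sin (p.f r)|) ^ 3 + 4 * (250 * La) ^ 3) := by gcongr
          _ = (801 / 100) * (256 * om ^ 3) * (r * (|p.w1 r| * |Real.sin (p.f r) ^ 3|))
              + (801 / 100) * (4 * (250 * La) ^ 3) * (r * |p.w1 r|) := by
              rw [abs_pow]
              ring
          _ ≤ (801 / 100) * (256 * om ^ 3) * (r * (|p.w1 r| * |Real.sin (p.f r) ^ 3|))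
              + (801 / 100) * (4 * (250 * La) ^ 3) * ch := by gcongr
    refine h1.trans ?_
    rw [intervalIntegral.integral_add, intervalIntegral.integral_const_mul,
      intervalIntegral.integral_const, sub_zero, smul_eq_mul, mul_comm (ep1 / om)]
    · have := StY2_ws hs hy hg
      gcongr
    · exact (by fun_prop : Continuous fun r => (801 / 100) * (256 * om ^ 3)
        * (r * (|p.w1 r| * |Real.sin (p.f r) ^ 3|))).intervalIntegrable _ _
    · exact (continuous_const).intervalIntegrable _ _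
  -- the far part
  have hfar : ∫ r in (ep1 / om)..R1,
      2 * (p.w r * ((4 + p.a r) * Real.cos (p.f r) * p.g r ^ 3))
      ≤ (801 / 100) * (300 * La) ^ 2 * (ch * eps) := by
    have h1 : ∫ r in (ep1 / om)..R1,
        2 * (p.w r * ((4 + p.a r) * Real.cos (p.f r) * p.g r ^ 3))
        ≤ ∫ r in (ep1 / om)..R1, (801 / 100) * (300 * La) ^ 2 * (r * (|p.w1 r| * |p.g r|)) := by
      apply intervalIntegral.integral_mono_on (by linarith)
      · exact hcont.intervalIntegrable _ _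
      · exact (by fun_prop : Continuous fun r =>
          (801 / 100) * (300 * La) ^ 2 * (r * (|p.w1 r| * |p.g r|))).intervalIntegrable _ _
      · intro r hr
        have hr' : r ∈ Icc 0 R1 := ⟨hL.le.trans hr.1, hr.2⟩
        have hr0 : 0 ≤ r := hr'.1
        refine (hpt r hr').trans ?_
        have hgf := g_far hs hy hg r hr
        calc (801 / 100) * (r * |p.w1 r|) * |p.g r| ^ 3
            = (801 / 100) * (r * |p.w1 r|) * |p.g r| * |p.g r| ^ 2 := by ring
          _ ≤ (801 / 100) * (r * |p.w1 r|) * |p.g r| * (300 * La) ^ 2 := by gcongr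
          _ = (801 / 100) * (300 * La) ^ 2 * (r * (|p.w1 r| * |p.g r|)) := by ring
    refine h1.trans ?_
    rw [intervalIntegral.integral_const_mul]
    have h2 : ∫ r in (ep1 / om)..R1, r * (|p.w1 r| * |p.g r|)
        ≤ ∫ r in (0 : ℝ)..R1, r * (|p.w1 r| * |p.g r|) := by
      apply int_mono_set hL.le (by linarith) le_rfl
      · exact (by fun_prop : Continuous fun r => r * (|p.w1 r| * |p.g r|)).continuousOn
      · intro r hr
        have := hr.1
        positivity
    have h3 := h2.trans (StY2_wg hs hy)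
    gcongr
  have hsplit := intervalIntegral.integral_add_adjacent_intervals
    (hcont.intervalIntegrable (μ := volume) 0 (ep1 / om))
    (hcont.intervalIntegrable (μ := volume) (ep1 / om) R1)
  rw [← hsplit]
  refine (add_le_add hnear hfar).trans ?_
  -- final numerics
  have hLs : La ≤ om / 10 ^ 14 := Lam_small hs hy hg
  have hLl : La ≤ 4 * 10 ^ 7 * om ^ 2 * lam := Lam_le hs hy hg
  have hK : 0 ≤ om ^ 3 * lam := by positivity
  have hL2 : La ^ 2 ≤ 4 / 10 ^ 7 * (om ^ 3 * lam) := by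
    calc La ^ 2 = La * La := by ring
      _ ≤ (om / 10 ^ 14) * (4 * 10 ^ 7 * om ^ 2 * lam) := by gcongr
      _ = 4 / 10 ^ 7 * (om ^ 3 * lam) := by ring
  have hL3 : La ^ 3 * (ep1 / om) ≤ 1 / 10 ^ 20 * (om ^ 3 * lam) := by
    calc La ^ 3 * (ep1 / om) = La ^ 2 * (La * (ep1 / om)) := by ring
      _ ≤ (4 / 10 ^ 7 * (om ^ 3 * lam)) * (om / 10 ^ 14 * (ep1 / om)) := by gcongr
      _ = (om ^ 3 * lam) * (4 / 10 ^ 25) := by
          unfold ep1
          field_simp
      _ ≤ (om ^ 3 * lam) * (1 / 10 ^ 20) := by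
          apply mul_le_mul_of_nonneg_left _ hK
          norm_num
      _ = 1 / 10 ^ 20 * (om ^ 3 * lam) := by ring
  calc (801 / 100) * (256 * om ^ 3) * ((6124 / 10000) * (ch * lam))
        + (801 / 100) * (4 * (250 * La) ^ 3) * ch * (ep1 / om)
        + (801 / 100) * (300 * La) ^ 2 * (ch * eps)
      = ch * (801 / 100 * 256 * (6124 / 10000) * (om ^ 3 * lam)
        + 801 / 100 * 4 * 250 ^ 3 * (La ^ 3 * (ep1 / om)) + 801 / 100 * 300 ^ 2 * eps * La ^ 2) := by
        ring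
    _ ≤ ch * (801 / 100 * 256 * (6124 / 10000) * (om ^ 3 * lam)
        + 801 / 100 * 4 * 250 ^ 3 * (1 / 10 ^ 20 * (om ^ 3 * lam))
        + 801 / 100 * 300 ^ 2 * eps * (4 / 10 ^ 7 * (om ^ 3 * lam))) := by
        have he : (0 : ℝ) ≤ eps := by unfold eps; positivity
        gcongr
    _ = ch * (om ^ 3 * lam) * (801 / 100 * 256 * (6124 / 10000)
        + 801 / 100 * 4 * 250 ^ 3 * (1 / 10 ^ 20) + 801 / 100 * 300 ^ 2 * eps * (4 / 10 ^ 7)) := by
        ring
    _ ≤ ch * (om ^ 3 * lam) * 1270 := by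
        apply mul_le_mul_of_nonneg_left _ (by positivity)
        unfold eps
        norm_num
    _ = 1270 * om ^ 3 * lam * ch := by ring

end H72GS

end S_StY2

section S_StY3

/-!
# StY3: the term with `gt`

`I8 = 4 ∫ w μ s g gt`, `gt = wr + (1 - μ c) w1 - y s`, `|w| = r |w1|`.
* `[0,L]`: `4·4.0001·4.01 om ≤ 64.2 om`; `|gt| ≤ |wr| + 5.01 |w1| + |y|`;
  `∫ r |w1|(|wr| + 5.01 |w1|) ≤ 5.51 Xl` (`|w1||wr| ≤ (w1² + wr²)/2`), `64.2·5.51 ≤ 354`;
  `64.2 om ∫ r |w1||y| ≤ 64.2 om (chi/√8) eps`, `eps ≤ 10⁻⁵⁰ om² lam`.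
* `[L,R1]`: `16.1·900 eps Lam ∫ r |w1||gt|`,
  `∫ r|w1||gt| ≤ X/5 + 5.01 X/8 + chi eps`.
-/

namespace H72GS

open Set MeasureTheory intervalIntegral

variable {R1 : ℝ} {p : Pre} {om lam : ℝ}

private theorem StY3_om (hy : Hyp R1 p om) : 0 < om := lt_of_lt_of_le (by positivity) hy.hom

private theorem StY3_mu (hs : IsSlice R1 p) (hy : Hyp R1 p om) {r : ℝ} (hr : r ∈ Icc 0 R1) :
    |4 + p.a r| ≤ 400001 / 100000 := by
  have := abs_le.mp (a_abs hs hy.en r hr)
  rw [abs_le]
  constructor <;> linarith [this.1, this.2]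

private theorem StY3_gt (hs : IsSlice R1 p) (hy : Hyp R1 p om) {r : ℝ} (hr : r ∈ Icc 0 R1) :
    |p.gt r| ≤ |p.wr r| + (500001 / 100000) * |p.w1 r| + |p.y r| := by
  rw [hs.hgt r hr.1]
  have hmu := StY3_mu hs hy hr
  have hcos := Real.abs_cos_le_one (p.f r)
  have hsin := Real.abs_sin_le_one (p.f r)
  have h1 : |1 - (4 + p.a r) * Real.cos (p.f r)| ≤ 500001 / 100000 := by
    have h2 : |(4 + p.a r) * Real.cos (p.f r)| ≤ 400001 / 100000 := by
      rw [abs_mul]
      calc |4 + p.a r| * |Real.cos (p.f r)| ≤ (400001 / 100000) * 1 :=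
            mul_le_mul hmu hcos (abs_nonneg _) (by norm_num)
        _ = _ := by ring
    have h3 := abs_sub (1 : ℝ) ((4 + p.a r) * Real.cos (p.f r))
    rw [abs_one] at h3
    linarith
  have h4 : |(1 - (4 + p.a r) * Real.cos (p.f r)) * p.w1 r| ≤ (500001 / 100000) * |p.w1 r| := by
    rw [abs_mul]
    exact mul_le_mul_of_nonneg_right h1 (abs_nonneg _)
  have h5 : |p.y r * Real.sin (p.f r)| ≤ |p.y r| := by
    rw [abs_mul]
    exact mul_le_of_le_one_right (abs_nonneg _) hsin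
  have h6 := abs_sub (p.wr r + (1 - (4 + p.a r) * Real.cos (p.f r)) * p.w1 r)
    (p.y r * Real.sin (p.f r))
  have h7 := abs_add_le (p.wr r) ((1 - (4 + p.a r) * Real.cos (p.f r)) * p.w1 r)
  linarith

/-- `∫ r |w1||y| ≤ chi eps` -/
private theorem StY3_wy (hs : IsSlice R1 p) (hy : Hyp R1 p om) :
    ∫ r in (0 : ℝ)..R1, r * (|p.w1 r| * |p.y r|) ≤ chi R1 p * eps := by
  have h1 := csr (a := 0) (b := R1) le_rfl hs.R1pos.le hs.cw1.continuousOn hs.cy.continuousOn
  have h2 := (X_parts hs hy.en).2.2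
  have h3 := (En_parts hs hy.en).2.2.1
  have hX := X_nonneg hs hy.en
  have he : (0 : ℝ) ≤ eps := by unfold eps; positivity
  refine h1.trans ?_
  have h4 : Real.sqrt (∫ r in (0 : ℝ)..R1, r * p.w1 r ^ 2) ≤ chi R1 p := by
    unfold chi
    exact Real.sqrt_le_sqrt (h2.trans (by linarith))
  have h5 : Real.sqrt (∫ r in (0 : ℝ)..R1, r * p.y r ^ 2) ≤ eps := by
    rw [← Real.sqrt_sq he]
    exact Real.sqrt_le_sqrt h3
  exact mul_le_mul h4 h5 (Real.sqrt_nonneg _) chi_nonneg

/-- pointwise bound -/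
private theorem StY3_pt (hs : IsSlice R1 p) (hy : Hyp R1 p om) {r K : ℝ} (hr : r ∈ Icc 0 R1)
    (hK : |Real.sin (p.f r)| * |p.g r| ≤ K) :
    2 * (p.w r * (2 * (4 + p.a r) * Real.sin (p.f r) * p.g r * p.gt r))
      ≤ (4 * (400001 / 100000) * K) * (r * (|p.w1 r| * |p.wr r|)
        + (500001 / 100000) * (r * p.w1 r ^ 2) + r * (|p.w1 r| * |p.y r|)) := by
  have hmu := StY3_mu hs hy hr
  have hgt := StY3_gt hs hy hr
  have hr0 : 0 ≤ r := hr.1
  have hK0 : 0 ≤ K := (mul_nonneg (abs_nonneg _) (abs_nonneg _)).trans hK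
  calc 2 * (p.w r * (2 * (4 + p.a r) * Real.sin (p.f r) * p.g r * p.gt r))
      ≤ |2 * (p.w r * (2 * (4 + p.a r) * Real.sin (p.f r) * p.g r * p.gt r))| := le_abs_self _
    _ = 4 * |4 + p.a r| * (|Real.sin (p.f r)| * |p.g r|) * (r * |p.w1 r| * |p.gt r|) := by
        rw [hs.hw1 r]
        simp only [abs_mul, abs_two, abs_of_nonneg hr0]
        ring
    _ ≤ 4 * (400001 / 100000) * K * (r * |p.w1 r|
          * (|p.wr r| + (500001 / 100000) * |p.w1 r| + |p.y r|)) := by
        gcongr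
    _ = (4 * (400001 / 100000) * K) * (r * (|p.w1 r| * |p.wr r|)
        + (500001 / 100000) * (r * p.w1 r ^ 2) + r * (|p.w1 r| * |p.y r|)) := by
        rw [← sq_abs (p.w1 r)]
        ring

theorem I8_le (hs : IsSlice R1 p) (hy : Hyp R1 p om) (hg : Geo R1 p om lam) :
    ∫ r in (0 : ℝ)..R1, 2 * (p.w r * (2 * (4 + p.a r) * Real.sin (p.f r) * p.g r * p.gt r))
      ≤ 354 * om * p.Xl (ep1 / om) + om ^ 3 * lam * chi R1 p / 10 ^ 5 + om * p.X R1 / 10 ^ 5 := by
  have hom := StY3_om hy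
  have hlam := hg.lam_pos
  have hR := hs.R1pos
  have hL := L_pos hy
  have hLR := L_le hs hy
  have hLR' : ep1 / om ≤ R1 := by linarith
  have hc := chi_nonneg (R1 := R1) (p := p)
  have hX := X_nonneg hs hy.en
  have he : (0 : ℝ) < eps := by unfold eps; positivity
  have hLam0 : 0 ≤ Lam R1 p om lam := by unfold Lam; positivity
  have hcf := hs.cf
  have hca := hs.ca
  have hcg := hs.cg
  have hcw := hs.cw
  have hcw1 := hs.cw1
  have hcgt := hs.cgt
  have hcwr := hs.cwr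
  have hcwt := hs.cwt
  have hcy := hs.cy
  have hwy := StY3_wy hs hy
  set La := Lam R1 p om lam with hLa
  set ch := chi R1 p with hch
  have hcont : Continuous fun r =>
      2 * (p.w r * (2 * (4 + p.a r) * Real.sin (p.f r) * p.g r * p.gt r)) := by
    fun_prop
  have hiy : Continuous fun r => r * (|p.w1 r| * |p.y r|) := by fun_prop
  have hiwr : Continuous fun r => r * (|p.w1 r| * |p.wr r|) := by fun_prop
  have hiw : Continuous fun r => r * p.w1 r ^ 2 := by fun_prop
  -- the near part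
  have hnear : ∫ r in (0 : ℝ)..(ep1 / om),
      2 * (p.w r * (2 * (4 + p.a r) * Real.sin (p.f r) * p.g r * p.gt r))
      ≤ (4 * (400001 / 100000) * (401 / 100 * om)) * ((550001 / 100000) * p.Xl (ep1 / om)
        + ch * eps) := by
    have h1 : ∫ r in (0 : ℝ)..(ep1 / om),
        2 * (p.w r * (2 * (4 + p.a r) * Real.sin (p.f r) * p.g r * p.gt r))
        ≤ ∫ r in (0 : ℝ)..(ep1 / om), (4 * (400001 / 100000) * (401 / 100 * om))
          * ((550001 / 100000) * (r * (p.wt r ^ 2 + p.wr r ^ 2 + p.w1 r ^ 2))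
            + r * (|p.w1 r| * |p.y r|)) := by
      apply intervalIntegral.integral_mono_on hL.le
      · exact hcont.intervalIntegrable _ _
      · exact (by fun_prop : Continuous fun r => (4 * (400001 / 100000) * (401 / 100 * om))
          * ((550001 / 100000) * (r * (p.wt r ^ 2 + p.wr r ^ 2 + p.w1 r ^ 2))
            + r * (|p.w1 r| * |p.y r|))).intervalIntegrable _ _
      · intro r hr
        have hr' : r ∈ Icc 0 R1 := ⟨hr.1, hr.2.trans hLR'⟩
        have hr0 : 0 ≤ r := hr.1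
        refine (StY3_pt hs hy hr' (sg_near hs hy hg r hr)).trans ?_
        apply mul_le_mul_of_nonneg_left _ (by positivity)
        have h2 : |p.w1 r| * |p.wr r| ≤ (p.w1 r ^ 2 + p.wr r ^ 2) / 2 := by
          rw [← sq_abs (p.w1 r), ← sq_abs (p.wr r)]
          nlinarith [sq_nonneg (|p.w1 r| - |p.wr r|)]
        have h3 : |p.w1 r| * |p.wr r| + (500001 / 100000) * p.w1 r ^ 2
            ≤ (550001 / 100000) * (p.wt r ^ 2 + p.wr r ^ 2 + p.w1 r ^ 2) := by
          nlinarith [sq_nonneg (p.wt r), sq_nonneg (p.wr r), sq_nonneg (p.w1 r)]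
        have h4 := mul_le_mul_of_nonneg_left h3 hr0
        nlinarith
    refine h1.trans ?_
    rw [intervalIntegral.integral_const_mul, intervalIntegral.integral_add,
      intervalIntegral.integral_const_mul]
    · have h5 : ∫ r in (0 : ℝ)..(ep1 / om), r * (|p.w1 r| * |p.y r|)
          ≤ ∫ r in (0 : ℝ)..R1, r * (|p.w1 r| * |p.y r|) := by
        apply int_mono_set le_rfl hL.le hLR'
        · exact hiy.continuousOn
        · intro r hr
          have := hr.1
          positivity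
      have h6 := h5.trans hwy
      apply mul_le_mul_of_nonneg_left _ (by positivity)
      unfold Pre.Xl
      linarith
    · exact (by fun_prop : Continuous fun r => (550001 / 100000 : ℝ)
        * (r * (p.wt r ^ 2 + p.wr r ^ 2 + p.w1 r ^ 2))).intervalIntegrable _ _
    · exact hiy.intervalIntegrable _ _
  -- the far part
  have hfar : ∫ r in (ep1 / om)..R1,
      2 * (p.w r * (2 * (4 + p.a r) * Real.sin (p.f r) * p.g r * p.gt r))
      ≤ (4 * (400001 / 100000) * (900 * eps * La)) * (p.X R1 + ch * eps) := by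
    have h1 : ∫ r in (ep1 / om)..R1,
        2 * (p.w r * (2 * (4 + p.a r) * Real.sin (p.f r) * p.g r * p.gt r))
        ≤ ∫ r in (ep1 / om)..R1, (4 * (400001 / 100000) * (900 * eps * La))
          * (r * (|p.w1 r| * |p.wr r|)
            + (500001 / 100000) * (r * p.w1 r ^ 2) + r * (|p.w1 r| * |p.y r|)) := by
      apply intervalIntegral.integral_mono_on hLR'
      · exact hcont.intervalIntegrable _ _
      · exact (by fun_prop : Continuous fun r => (4 * (400001 / 100000) * (900 * eps * La))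
          * (r * (|p.w1 r| * |p.wr r|)
            + (500001 / 100000) * (r * p.w1 r ^ 2)
            + r * (|p.w1 r| * |p.y r|))).intervalIntegrable _ _
      · intro r hr
        have hr' : r ∈ Icc 0 R1 := ⟨hL.le.trans hr.1, hr.2⟩
        exact StY3_pt hs hy hr' (sg_far hs hy hg r hr)
    refine h1.trans ?_
    rw [intervalIntegral.integral_const_mul]
    apply mul_le_mul_of_nonneg_left _ (by positivity)
    have h2 : ∫ r in (ep1 / om)..R1, (r * (|p.w1 r| * |p.wr r|)
            + (500001 / 100000) * (r * p.w1 r ^ 2) + r * (|p.w1 r| * |p.y r|))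
        ≤ ∫ r in (0 : ℝ)..R1, (r * (|p.w1 r| * |p.wr r|)
            + (500001 / 100000) * (r * p.w1 r ^ 2) + r * (|p.w1 r| * |p.y r|)) := by
      apply int_mono_set hL.le hLR' le_rfl
      · exact ((hiwr.add (continuous_const.mul hiw)).add hiy).continuousOn
      · intro r hr
        have := hr.1
        positivity
    refine h2.trans ?_
    rw [intervalIntegral.integral_add, intervalIntegral.integral_add,
      intervalIntegral.integral_const_mul]
    · have h3 : ∫ r in (0 : ℝ)..R1, r * (|p.w1 r| * |p.wr r|) ≤ p.X R1 / 5 := by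
        have h4 := (X_prods hs hy.en).2.1
        have h5 : (fun r => r * (|p.w1 r| * |p.wr r|)) = fun r => r * (|p.wr r| * |p.w1 r|) := by
          funext r
          ring
        rw [h5]
        exact h4
      have h6 := (X_parts hs hy.en).2.2
      linarith
    · exact hiwr.intervalIntegrable _ _
    · exact (continuous_const.mul hiw).intervalIntegrable _ _
    · exact (hiwr.add (continuous_const.mul hiw)).intervalIntegrable _ _
    · exact hiy.intervalIntegrable _ _
  have hsplit := intervalIntegral.integral_add_adjacent_intervals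
    (hcont.intervalIntegrable (μ := volume) 0 (ep1 / om))
    (hcont.intervalIntegrable (μ := volume) (ep1 / om) R1)
  rw [← hsplit]
  refine (add_le_add hnear hfar).trans ?_
  -- final numerics
  have hLs : La ≤ om / 10 ^ 14 := Lam_small hs hy hg
  have ho2 := om2lam_ge hy hg
  have hXl : 0 ≤ p.Xl (ep1 / om) := by
    unfold Pre.Xl
    apply intervalIntegral.integral_nonneg hL.le
    intro r hr
    have := hr.1
    positivity
  have hA : (4 * (400001 / 100000) * (900 * eps * La)) ≤ om / 10 ^ 6 := by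
    calc (4 * (400001 / 100000) * (900 * eps * La))
        ≤ (4 * (400001 / 100000) * (900 * eps * (om / 10 ^ 14))) := by gcongr
      _ = om * (4 * (400001 / 100000) * 900 * eps / 10 ^ 14) := by ring
      _ ≤ om * (1 / 10 ^ 6) := by
          apply mul_le_mul_of_nonneg_left _ hom.le
          unfold eps
          norm_num
      _ = om / 10 ^ 6 := by ring
  have hB : (4 * (400001 / 100000) * (900 * eps * La)) * (p.X R1 + ch * eps)
      ≤ om / 10 ^ 6 * (p.X R1 + ch * eps) := by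
    apply mul_le_mul_of_nonneg_right hA
    positivity
  have hC : om * (ch * eps) ≤ om ^ 3 * lam * ch / 10 ^ 40 := by
    have h1 : om * (ch * eps) = (om * ch) * eps := by ring
    have h2 : om ^ 3 * lam * ch / 10 ^ 40 = (om * ch) * (om ^ 2 * lam / 10 ^ 40) := by ring
    rw [h1, h2]
    apply mul_le_mul_of_nonneg_left _ (by positivity)
    rw [le_div_iff₀ (by positivity)]
    unfold eps
    linarith
  have hD : 0 ≤ om ^ 3 * lam * ch := by positivity
  have hE : 0 ≤ om * p.Xl (ep1 / om) := by positivity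
  have hF : 0 ≤ om * p.X R1 := by positivity
  nlinarith

end H72GS

end S_StY3
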