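import Mathlib
import Pool.Agent.H72.GM.M1
import Pool.Agent.H72.GM.M2
import Pool.Agent.H72.GM.M3
import Pool.Agent.H72.GM.M4
import Pool.Agent.H72.GM.M5

set_option autoImplicit false

/-! Gauged sigma model, file M6: this file joins several modules to save build time. -/

section S_StM1

/-!
# StM1: main terms of `dM`, `L = ep1 / om`

* `M1`: `r L/(r+L)² ≥ r/(4L)` on `[0,L]`, `≥ 0` elsewhere; `1/(8L) = om/(8 ep1)`.
* `M2`: with `A ≥ 8.9`, `c = cos f`, `s = sin f`, `μ = 4 + a`: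
  `m3 ≤ -4 (r/(r+L)) + err`, `err = 6 r² (|y| + 2) + 5 r |w| + 2 r²`:
  the first summand is `≤ (1/4) r/(r+L)`; `(r A) L/(r+L)² ≤ A r/(r+L)`;
  `r³ (1-c) L/(r+L)² ≤ 2 r²`; the terms `-2 μ² s²`, `-r² μ s²` are `≤ 0`.
  `∫ err w1² ≤ (6 (|r y| + 2 R1) + 5 chi + 2 R1) ∫ r w1²`, all `≤ om/10⁵`.
  `∫ r/(r+L) w1² ≥ (1/(2L)) ∫_0^L r w1²`.
* `M6`: `r/(r+L)² ≤ 1/(4L)`, `|L'| ≤ (102/100) ep1`, so the factor is `≤ 0.255 om`;
  `X_wtprod`: `0.255·0.59 ≤ 0.151`.
-/

namespace H72GS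

open Set MeasureTheory intervalIntegral

variable {R1 : ℝ} {p : Pre} {om lam : ℝ}

private lemma stM1_inv (h : (10 : ℝ) ^ 60 ≤ om) : om / ep1 = 1 / (ep1 / om) := by
  have : om ≠ 0 := by
    have : (0 : ℝ) < om := lt_of_lt_of_le (by norm_num) h
    exact this.ne'
  rw [one_div_div]

private lemma stM1_ep1 : (0 : ℝ) < ep1 := by unfold ep1; norm_num

private lemma stM1_L (h : (10 : ℝ) ^ 60 ≤ om) : 0 < ep1 / om :=
  div_pos stM1_ep1 (lt_of_lt_of_le (by norm_num) h)

private lemma stM1_q {L r : ℝ} (hL : 0 < L) (hr : 0 ≤ r) (hrL : r ≤ L) :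
    r / (4 * L) ≤ r * L / (r + L) ^ 2 := by
  have h1 : 0 < (r + L) ^ 2 := by positivity
  rw [div_le_div_iff₀ (by positivity) h1]
  have h2 : (r + L) ^ 2 ≤ (2 * L) ^ 2 := by
    apply pow_le_pow_left₀ (by linarith)
    linarith
  nlinarith [mul_le_mul_of_nonneg_left h2 hr]

private lemma stM1_q2 {L r : ℝ} (hL : 0 < L) (hr : 0 ≤ r) :
    r / (r + L) ^ 2 ≤ 1 / (4 * L) := by
  have h1 : 0 < (r + L) ^ 2 := by positivity
  rw [div_le_div_iff₀ h1 (by positivity)]
  nlinarith [sq_nonneg (r - L)]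

theorem M1_le (hs : IsSlice R1 p) (hy : Hyp R1 p om) :
    ∫ r in (0 : ℝ)..R1, -(1 / 2) * (r * (ep1 / om) / (r + ep1 / om) ^ 2)
        * (p.wt r ^ 2 + p.wr r ^ 2)
      ≤ -(om / (8 * ep1)) * ∫ r in (0 : ℝ)..(ep1 / om), r * (p.wt r ^ 2 + p.wr r ^ 2) := by
  have hLpos : 0 < ep1 / om := stM1_L hy.hom
  have hLR : ep1 / om ≤ R1 / 2 := L_le hs hy
  have hR := hs.R1pos
  have hom0 : (0 : ℝ) < om := lt_of_lt_of_le (by norm_num) hy.hom
  have hcoef : om / (8 * ep1) = 1 / (8 * (ep1 / om)) := by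
    have := stM1_ep1
    field_simp
  rw [hcoef]
  set L := ep1 / om with hL
  have hcwt := hs.cwt
  have hcwr := hs.cwr
  have h2 : ∀ r ∈ Icc (0 : ℝ) R1, (r + L) ^ 2 ≠ 0 := fun r hr => by
    have := hr.1; positivity
  have hc : ContinuousOn (fun r => (1 / 2) * (r * L / (r + L) ^ 2)
      * (p.wt r ^ 2 + p.wr r ^ 2)) (Icc 0 R1) := by
    apply ContinuousOn.mul _ (by fun_prop)
    apply ContinuousOn.mul (by fun_prop)
    exact ContinuousOn.div (by fun_prop) (by fun_prop) h2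
  have e1 : ∫ r in (0 : ℝ)..R1, -(1 / 2) * (r * L / (r + L) ^ 2) * (p.wt r ^ 2 + p.wr r ^ 2)
      = -∫ r in (0 : ℝ)..R1, (1 / 2) * (r * L / (r + L) ^ 2) * (p.wt r ^ 2 + p.wr r ^ 2) := by
    rw [← intervalIntegral.integral_neg]
    congr 1
    funext r
    ring
  rw [e1, neg_mul, neg_le_neg_iff]
  have step1 : ∫ r in (0 : ℝ)..L, (1 / 2) * (r * L / (r + L) ^ 2) * (p.wt r ^ 2 + p.wr r ^ 2)
      ≤ ∫ r in (0 : ℝ)..R1, (1 / 2) * (r * L / (r + L) ^ 2) * (p.wt r ^ 2 + p.wr r ^ 2) := by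
    apply int_mono_set le_rfl hLpos.le (by linarith) hc
    intro r hr
    have := hr.1
    positivity
  refine le_trans ?_ step1
  rw [← intervalIntegral.integral_const_mul]
  apply intervalIntegral.integral_mono_on hLpos.le
  · apply Continuous.intervalIntegrable
    fun_prop
  · apply ContinuousOn.intervalIntegrable_of_Icc hLpos.le
    exact hc.mono (Icc_subset_Icc le_rfl (by linarith))
  · intro r hr
    have h3 := stM1_q hLpos hr.1 hr.2
    have h4 : 0 ≤ p.wt r ^ 2 + p.wr r ^ 2 := by positivity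
    calc 1 / (8 * L) * (r * (p.wt r ^ 2 + p.wr r ^ 2))
        = (1 / 2) * (r / (4 * L)) * (p.wt r ^ 2 + p.wr r ^ 2) := by
          field_simp
          ring
      _ ≤ (1 / 2) * (r * L / (r + L) ^ 2) * (p.wt r ^ 2 + p.wr r ^ 2) := by
          apply mul_le_mul_of_nonneg_right _ h4
          linarith

/-- pointwise bound for `m3` -/
private lemma stM1_m3 {L r a c s y w A : ℝ} (hL : 0 < L) (hr : 0 ≤ r) (hr1 : r ≤ 1 / 1000)
    (ha : |a| ≤ 1 / 100000) (hc1 : -1 ≤ c) (hc2 : c ≤ 1) (hs1 : |s| ≤ 1) (hA : 89 / 10 ≤ A) :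
    (1 / 4) * r ^ 2 * (r - L) / (r + L) ^ 3
    + (1 / 2) * ((2 * ((4 + a) - c) * r ^ 2 * (y - 1 + c)
        + 2 * (4 + a) * s * (r * w - (4 + a) * s)
        - 2 * A
        + r ^ 2 * s * (r * w - (4 + a) * s)) * (r / (r + L))
      + (r * A + r ^ 3 * (1 - c)) * (L / (r + L) ^ 2))
      ≤ -4 * (r / (r + L)) + (6 * (r * |r * y|) + 5 * (r * |w|) + r ^ 2) := by
  have hrL : 0 < r + L := by linarith
  obtain ⟨q, hq⟩ : ∃ q, q = r / (r + L) := ⟨_, rfl⟩
  have hq0 : 0 ≤ q := by rw [hq]; positivity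
  have hq1 : q ≤ 1 := by rw [hq, div_le_one hrL]; linarith
  have hrq : r = q * (r + L) := by rw [hq]; field_simp
  have ha' := abs_le.mp ha
  -- first summand
  have t1 : (1 / 4) * r ^ 2 * (r - L) / (r + L) ^ 3 ≤ (1 / 4) * q := by
    have : (1 / 4) * r ^ 2 * (r - L) / (r + L) ^ 3 = (1 / 4) * q * (r * (r - L) / (r + L) ^ 2) := by
      rw [hq]; field_simp
    rw [this]
    have h1 : r * (r - L) / (r + L) ^ 2 ≤ 1 := by
      rw [div_le_one (by positivity)]
      nlinarith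
    nlinarith [mul_nonneg hq0 (sub_nonneg.mpr h1)]
  -- A terms
  have t2 : r * A * (L / (r + L) ^ 2) ≤ A * q := by
    have e : r * A * (L / (r + L) ^ 2) = A * q * (L / (r + L)) := by
      rw [hq]; field_simp
    rw [e]
    have h1 : L / (r + L) ≤ 1 := by rw [div_le_one hrL]; linarith
    have h2 : 0 ≤ A * q := by positivity
    nlinarith [mul_nonneg h2 (sub_nonneg.mpr h1)]
  have t3 : r ^ 3 * (1 - c) * (L / (r + L) ^ 2) ≤ 2 * r ^ 2 := by
    have e : r ^ 3 * (1 - c) * (L / (r + L) ^ 2) = r ^ 2 * (1 - c) * (q * (L / (r + L))) := by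
      rw [hq]; field_simp
    rw [e]
    have h1 : L / (r + L) ≤ 1 := by rw [div_le_one hrL]; linarith
    have h1' : 0 ≤ L / (r + L) := by positivity
    have h2 : q * (L / (r + L)) ≤ 1 := by nlinarith
    have h3 : 0 ≤ r ^ 2 * (1 - c) := mul_nonneg (by positivity) (by linarith)
    have h4 : r ^ 2 * (1 - c) ≤ 2 * r ^ 2 := by nlinarith [sq_nonneg r]
    calc r ^ 2 * (1 - c) * (q * (L / (r + L))) ≤ r ^ 2 * (1 - c) * 1 :=
          mul_le_mul_of_nonneg_left h2 h3
      _ ≤ 2 * r ^ 2 := by linarith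
  -- the bracket
  have hy1 : r ^ 2 * y ≤ r * |r * y| := by
    calc r ^ 2 * y = r * (r * y) := by ring
      _ ≤ r * |r * y| := mul_le_mul_of_nonneg_left (le_abs_self _) hr
  have hyn : 0 ≤ r * |r * y| := by positivity
  have b1 : ((4 + a) - c) * r ^ 2 * (y - 1 + c) ≤ 6 * (r * |r * y|) := by
    have hm : 0 ≤ (4 + a) - c := by linarith
    have hm2 : (4 + a) - c ≤ 6 := by linarith
    calc ((4 + a) - c) * r ^ 2 * (y - 1 + c)
        = ((4 + a) - c) * (r ^ 2 * y) - ((4 + a) - c) * r ^ 2 * (1 - c) := by ring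
      _ ≤ ((4 + a) - c) * (r ^ 2 * y) := by
          have : 0 ≤ ((4 + a) - c) * r ^ 2 * (1 - c) :=
            mul_nonneg (mul_nonneg hm (by positivity)) (by linarith)
          linarith
      _ ≤ ((4 + a) - c) * (r * |r * y|) := mul_le_mul_of_nonneg_left hy1 hm
      _ ≤ 6 * (r * |r * y|) := mul_le_mul_of_nonneg_right hm2 hyn
  have hwn : 0 ≤ r * |w| := by positivity
  have hsw : s * w ≤ |w| := by
    calc s * w ≤ |s * w| := le_abs_self _
      _ = |s| * |w| := abs_mul _ _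
      _ ≤ 1 * |w| := mul_le_mul_of_nonneg_right hs1 (abs_nonneg _)
      _ = |w| := one_mul _
  have b2 : (4 + a) * s * (r * w - (4 + a) * s) ≤ (41 / 10) * (r * |w|) := by
    calc (4 + a) * s * (r * w - (4 + a) * s)
        = (4 + a) * (r * (s * w)) - ((4 + a) * s) ^ 2 := by ring
      _ ≤ (4 + a) * (r * (s * w)) := by nlinarith [sq_nonneg ((4 + a) * s)]
      _ ≤ (4 + a) * (r * |w|) := by
          apply mul_le_mul_of_nonneg_left _ (by linarith)
          exact mul_le_mul_of_nonneg_left hsw hr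
      _ ≤ (41 / 10) * (r * |w|) := mul_le_mul_of_nonneg_right (by linarith) hwn
  have b3 : r ^ 2 * s * (r * w - (4 + a) * s) ≤ r * |w| := by
    calc r ^ 2 * s * (r * w - (4 + a) * s)
        = r ^ 2 * (r * (s * w)) - (4 + a) * (r * s) ^ 2 := by ring
      _ ≤ r ^ 2 * (r * (s * w)) := by
          have : 0 ≤ (4 + a) * (r * s) ^ 2 := mul_nonneg (by linarith) (sq_nonneg _)
          linarith
      _ ≤ r ^ 2 * (r * |w|) := by
          apply mul_le_mul_of_nonneg_left _ (by positivity)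
          exact mul_le_mul_of_nonneg_left hsw hr
      _ ≤ 1 * (r * |w|) := by
          apply mul_le_mul_of_nonneg_right _ hwn
          nlinarith
      _ = r * |w| := one_mul _
  have br : (2 * ((4 + a) - c) * r ^ 2 * (y - 1 + c)
        + 2 * (4 + a) * s * (r * w - (4 + a) * s)
        - 2 * A
        + r ^ 2 * s * (r * w - (4 + a) * s)) * q
      ≤ (12 * (r * |r * y|) + (92 / 10) * (r * |w|)) - 2 * A * q := by
    have h1 : (2 * ((4 + a) - c) * r ^ 2 * (y - 1 + c)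
        + 2 * (4 + a) * s * (r * w - (4 + a) * s)
        + r ^ 2 * s * (r * w - (4 + a) * s)) ≤ 12 * (r * |r * y|) + (92 / 10) * (r * |w|) := by
      nlinarith [b1, b2, b3]
    have h2 : 0 ≤ 12 * (r * |r * y|) + (92 / 10) * (r * |w|) := by positivity
    calc _ = (2 * ((4 + a) - c) * r ^ 2 * (y - 1 + c)
        + 2 * (4 + a) * s * (r * w - (4 + a) * s)
        + r ^ 2 * s * (r * w - (4 + a) * s)) * q - 2 * A * q := by ring
      _ ≤ (12 * (r * |r * y|) + (92 / 10) * (r * |w|)) * q - 2 * A * q := by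
          have := mul_le_mul_of_nonneg_right h1 hq0
          linarith
      _ ≤ (12 * (r * |r * y|) + (92 / 10) * (r * |w|)) * 1 - 2 * A * q := by
          have := mul_le_mul_of_nonneg_left hq1 h2
          linarith
      _ = _ := by ring
  rw [← hq]
  have hAq : (89 / 10) * q ≤ A * q := mul_le_mul_of_nonneg_right hA hq0
  have e5 : (r * A + r ^ 3 * (1 - c)) * (L / (r + L) ^ 2)
      = r * A * (L / (r + L) ^ 2) + r ^ 3 * (1 - c) * (L / (r + L) ^ 2) := by ring
  rw [e5]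
  linarith

private lemma stM1_w1c (hs : IsSlice R1 p) {r : ℝ} : |p.w r| = |r| * |p.w1 r| := by
  rw [hs.hw1 r, abs_mul]

theorem M2_le (hs : IsSlice R1 p) (hy : Hyp R1 p om) (hg : Geo R1 p om lam) :
    ∫ r in (0 : ℝ)..R1, p.m3 (ep1 / om) r * p.w1 r ^ 2
      ≤ -(om / (8 * ep1)) * (∫ r in (0 : ℝ)..(ep1 / om), r * p.w1 r ^ 2)
        + om * p.X R1 / 10 ^ 4 := by
  have hE := hy.en
  have hLpos : 0 < ep1 / om := stM1_L hy.hom
  have hLR : ep1 / om ≤ R1 / 2 := L_le hs hy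
  have hR := hs.R1pos
  have hR1 := hs.R1le
  have hom0 : (0 : ℝ) < om := lt_of_lt_of_le (by norm_num) hy.hom
  have hcoef : om / (8 * ep1) = 1 / (8 * (ep1 / om)) := by
    have := stM1_ep1
    field_simp
  rw [hcoef]
  have hX := X_nonneg hs hE
  have hXw1 := (X_parts hs hE).2.2
  have hry := ry_abs hs hy
  have hLam := Lam_small hs hy hg
  have hchi : Real.sqrt (p.X R1) ≤ om / 10 ^ 14 := by
    have h1 : chi R1 p ≤ Lam R1 p om lam := by
      unfold Lam
      have := hg.lam_pos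
      have : 0 ≤ om ^ 2 * lam := by positivity
      linarith
    exact le_trans h1 hLam
  have hw := w_abs hs hE
  have ha := a_abs hs hE
  have hA := A_ge hs hE
  set L := ep1 / om with hL
  have hcw1 := hs.cw1
  have hcf := hs.cf
  have hca := hs.ca
  have hcy := hs.cy
  have hcw := hs.cw
  have h1 : ∀ r ∈ Icc (0 : ℝ) R1, (r + L) ≠ 0 := fun r hr => by
    have := hr.1; positivity
  have h2 : ∀ r ∈ Icc (0 : ℝ) R1, (r + L) ^ 2 ≠ 0 := fun r hr => by
    have := hr.1; positivity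
  have h3 : ∀ r ∈ Icc (0 : ℝ) R1, (r + L) ^ 3 ≠ 0 := fun r hr => by
    have := hr.1; positivity
  have hcq : ContinuousOn (fun r : ℝ => r / (r + L)) (Icc 0 R1) :=
    ContinuousOn.div (by fun_prop) (by fun_prop) h1
  have hcL2 : ContinuousOn (fun r : ℝ => L / (r + L) ^ 2) (Icc 0 R1) :=
    ContinuousOn.div (by fun_prop) (by fun_prop) h2
  have hc3 : ContinuousOn (fun r : ℝ => (1 / 4) * r ^ 2 * (r - L) / (r + L) ^ 3) (Icc 0 R1) :=
    ContinuousOn.div (by fun_prop) (by fun_prop) h3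
  have hcont : ContinuousOn (fun r => p.m3 L r * p.w1 r ^ 2) (Icc 0 R1) := by
    unfold Pre.m3 Pre.A
    apply ContinuousOn.mul _ (by fun_prop)
    apply ContinuousOn.add hc3
    apply ContinuousOn.mul (by fun_prop)
    apply ContinuousOn.add
    · apply ContinuousOn.mul (by fun_prop) hcq
    · apply ContinuousOn.mul (by fun_prop) hcL2
  -- pointwise
  have hpt : ∀ r ∈ Icc (0 : ℝ) R1, p.m3 L r * p.w1 r ^ 2 ≤
      -4 * (r / (r + L) * p.w1 r ^ 2) + (om / 10 ^ 11) * (r * p.w1 r ^ 2) := by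
    intro r hr
    have hr1 : r ≤ 1 / 1000 := le_trans hr.2 hR1
    have key := stM1_m3 (L := L) (r := r) (a := p.a r) (c := Real.cos (p.f r))
      (s := Real.sin (p.f r)) (y := p.y r) (w := p.w r) (A := p.A r) hLpos hr.1 hr1 (ha r hr)
      (Real.neg_one_le_cos _) (Real.cos_le_one _) (Real.abs_sin_le_one _) (hA r hr).1
    have hm3 : p.m3 L r ≤ -4 * (r / (r + L)) + (6 * (r * |r * p.y r|) + 5 * (r * |p.w r|) + r ^ 2) := by
      unfold Pre.m3
      exact key
    have e1 : r * |r * p.y r| ≤ r * (om / 10 ^ 12) := mul_le_mul_of_nonneg_left (hry r hr) hr.1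
    have e2 : r * |p.w r| ≤ r * (om / 10 ^ 14) :=
      mul_le_mul_of_nonneg_left (le_trans (hw r hr) hchi) hr.1
    have e3 : r ^ 2 ≤ r * (om / 10 ^ 14) := by
      rw [sq]
      apply mul_le_mul_of_nonneg_left _ hr.1
      have : (1 : ℝ) ≤ om / 10 ^ 14 := by
        rw [le_div_iff₀ (by norm_num)]
        exact le_trans (by norm_num) hy.hom
      linarith
    have hm3' : p.m3 L r ≤ -4 * (r / (r + L)) + (om / 10 ^ 11) * r := by
      have hro : 0 ≤ r * om := mul_nonneg hr.1 hom0.le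
      have : 6 * (r * (om / 10 ^ 12)) + 5 * (r * (om / 10 ^ 14)) + r * (om / 10 ^ 14)
          ≤ (om / 10 ^ 11) * r := by
        have : 6 * (r * (om / 10 ^ 12)) + 5 * (r * (om / 10 ^ 14)) + r * (om / 10 ^ 14)
          = (r * om) * (6 / 10 ^ 12 + 6 / 10 ^ 14) := by ring
        rw [this]
        have e : (om / 10 ^ 11) * r = (r * om) * (1 / 10 ^ 11) := by ring
        rw [e]
        apply mul_le_mul_of_nonneg_left _ hro
        norm_num
      linarith
    have := mul_le_mul_of_nonneg_right hm3' (sq_nonneg (p.w1 r))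
    calc p.m3 L r * p.w1 r ^ 2 ≤ (-4 * (r / (r + L)) + (om / 10 ^ 11) * r) * p.w1 r ^ 2 := this
      _ = _ := by ring
  have hcqw : ContinuousOn (fun r => r / (r + L) * p.w1 r ^ 2) (Icc 0 R1) :=
    hcq.mul (by fun_prop)
  have hi1 : IntervalIntegrable (fun r => -4 * (r / (r + L) * p.w1 r ^ 2)) volume 0 R1 := by
    apply ContinuousOn.intervalIntegrable_of_Icc hR.le
    exact ContinuousOn.mul (by fun_prop) hcqw
  have hi2 : IntervalIntegrable (fun r => (om / 10 ^ 11) * (r * p.w1 r ^ 2)) volume 0 R1 := by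
    apply Continuous.intervalIntegrable
    fun_prop
  have step1 : ∫ r in (0 : ℝ)..R1, p.m3 L r * p.w1 r ^ 2 ≤
      ∫ r in (0 : ℝ)..R1, (-4 * (r / (r + L) * p.w1 r ^ 2)
        + (om / 10 ^ 11) * (r * p.w1 r ^ 2)) := by
    apply intervalIntegral.integral_mono_on hR.le
    · exact hcont.intervalIntegrable_of_Icc hR.le
    · exact hi1.add hi2
    · exact hpt
  rw [intervalIntegral.integral_add hi1 hi2, intervalIntegral.integral_const_mul,
    intervalIntegral.integral_const_mul] at step1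
  have step2 : 1 / (2 * L) * ∫ r in (0 : ℝ)..L, r * p.w1 r ^ 2 ≤
      ∫ r in (0 : ℝ)..R1, r / (r + L) * p.w1 r ^ 2 := by
    have s1 : ∫ r in (0 : ℝ)..L, r / (r + L) * p.w1 r ^ 2 ≤
        ∫ r in (0 : ℝ)..R1, r / (r + L) * p.w1 r ^ 2 := by
      apply int_mono_set le_rfl hLpos.le (by linarith) hcqw
      intro r hr
      have := hr.1
      positivity
    refine le_trans ?_ s1
    rw [← intervalIntegral.integral_const_mul]
    apply intervalIntegral.integral_mono_on hLpos.le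
    · apply Continuous.intervalIntegrable
      fun_prop
    · apply ContinuousOn.intervalIntegrable_of_Icc hLpos.le
      exact hcqw.mono (Icc_subset_Icc le_rfl (by linarith))
    · intro r hr
      have hrL : 0 < r + L := by linarith [hr.1]
      have : r / (2 * L) ≤ r / (r + L) := by
        apply div_le_div_of_nonneg_left hr.1 hrL
        linarith [hr.2]
      calc 1 / (2 * L) * (r * p.w1 r ^ 2) = r / (2 * L) * p.w1 r ^ 2 := by ring
        _ ≤ r / (r + L) * p.w1 r ^ 2 := mul_le_mul_of_nonneg_right this (sq_nonneg _)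
  have hI0 : 0 ≤ ∫ r in (0 : ℝ)..L, r * p.w1 r ^ 2 := by
    apply intervalIntegral.integral_nonneg hLpos.le
    intro r hr
    have := hr.1
    positivity
  have hom1 : (om / 10 ^ 11) * ∫ r in (0 : ℝ)..R1, r * p.w1 r ^ 2 ≤ om * p.X R1 / 10 ^ 4 := by
    calc (om / 10 ^ 11) * ∫ r in (0 : ℝ)..R1, r * p.w1 r ^ 2
        ≤ (om / 10 ^ 11) * (p.X R1 / 8) := mul_le_mul_of_nonneg_left hXw1 (by positivity)
      _ = om * p.X R1 * (1 / (8 * 10 ^ 11)) := by ring
      _ ≤ om * p.X R1 * (1 / 10 ^ 4) := by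
          apply mul_le_mul_of_nonneg_left _ (mul_nonneg hom0.le hX)
          norm_num
      _ = om * p.X R1 / 10 ^ 4 := by ring
  have e8 : 1 / (8 * L) * ∫ r in (0 : ℝ)..L, r * p.w1 r ^ 2 ≤
      4 * (1 / (2 * L) * ∫ r in (0 : ℝ)..L, r * p.w1 r ^ 2) := by
    have : 4 * (1 / (2 * L) * ∫ r in (0 : ℝ)..L, r * p.w1 r ^ 2)
        = 16 * (1 / (8 * L) * ∫ r in (0 : ℝ)..L, r * p.w1 r ^ 2) := by ring
    rw [this]
    have h0 : 0 ≤ 1 / (8 * L) * ∫ r in (0 : ℝ)..L, r * p.w1 r ^ 2 :=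
      mul_nonneg (by positivity) hI0
    linarith
  linarith

theorem M6_le (hs : IsSlice R1 p) (hy : Hyp R1 p om) {L' : ℝ} (hL' : |L'| ≤ (102 / 100) * ep1) :
    ∫ r in (0 : ℝ)..R1, -(L' * (r / (r + ep1 / om) ^ 2)
        * (r * p.wt r * p.wr r + (1 / 2) * p.wt r * p.w r)) ≤ (151 / 1000) * om * p.X R1 := by
  have hE := hy.en
  have hLpos : 0 < ep1 / om := stM1_L hy.hom
  have hR := hs.R1pos
  have hom0 : (0 : ℝ) < om := lt_of_lt_of_le (by norm_num) hy.hom
  have hX := X_nonneg hs hE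
  have hprod := X_wtprod hs hE
  have hep : ep1 = (ep1 / om) * om := by field_simp
  have hL2 : |L'| ≤ (102 / 100) * (ep1 / om) * om := by
    rw [mul_assoc, ← hep]; exact hL'
  set L := ep1 / om with hL
  have hcwt := hs.cwt
  have hcwr := hs.cwr
  have hcw := hs.cw
  have hcw1 := hs.cw1
  have h2 : ∀ r ∈ Icc (0 : ℝ) R1, (r + L) ^ 2 ≠ 0 := fun r hr => by
    have := hr.1; positivity
  have hcq : ContinuousOn (fun r : ℝ => r / (r + L) ^ 2) (Icc 0 R1) :=
    ContinuousOn.div (by fun_prop) (by fun_prop) h2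
  have step : ∫ r in (0 : ℝ)..R1, -(L' * (r / (r + L) ^ 2)
        * (r * p.wt r * p.wr r + (1 / 2) * p.wt r * p.w r)) ≤
      ∫ r in (0 : ℝ)..R1, (255 / 1000 * om) * (r * (|p.wt r| * (|p.wr r| + (1 / 2) * |p.w1 r|))) := by
    apply intervalIntegral.integral_mono_on hR.le
    · apply ContinuousOn.intervalIntegrable_of_Icc hR.le
      apply ContinuousOn.neg
      apply ContinuousOn.mul _ (by fun_prop)
      exact ContinuousOn.mul (by fun_prop) hcq
    · apply Continuous.intervalIntegrable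
      fun_prop
    · intro r hr
      have hr0 := hr.1
      have hq := stM1_q2 hLpos hr0
      have hq0 : 0 ≤ r / (r + L) ^ 2 := by positivity
      have hin : |r * p.wt r * p.wr r + (1 / 2) * p.wt r * p.w r| ≤
          r * (|p.wt r| * (|p.wr r| + (1 / 2) * |p.w1 r|)) := by
        have e : r * p.wt r * p.wr r + (1 / 2) * p.wt r * p.w r
            = r * (p.wt r * (p.wr r + (1 / 2) * p.w1 r)) := by
          rw [hs.hw1 r]; ring
        rw [e, abs_mul, abs_mul, abs_of_nonneg hr0]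
        apply mul_le_mul_of_nonneg_left _ hr0
        apply mul_le_mul_of_nonneg_left _ (abs_nonneg _)
        calc |p.wr r + (1 / 2) * p.w1 r| ≤ |p.wr r| + |(1 / 2) * p.w1 r| := abs_add_le _ _
          _ = |p.wr r| + (1 / 2) * |p.w1 r| := by
            rw [abs_mul, abs_of_nonneg (by norm_num : (0 : ℝ) ≤ 1 / 2)]
      have hcoef : |L'| * (r / (r + L) ^ 2) ≤ 255 / 1000 * om := by
        calc |L'| * (r / (r + L) ^ 2) ≤ ((102 / 100) * L * om) * (1 / (4 * L)) :=
              mul_le_mul hL2 hq hq0 (by positivity)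
          _ = 255 / 1000 * om := by
              field_simp
              ring
      calc -(L' * (r / (r + L) ^ 2) * (r * p.wt r * p.wr r + (1 / 2) * p.wt r * p.w r))
          ≤ |L' * (r / (r + L) ^ 2) * (r * p.wt r * p.wr r + (1 / 2) * p.wt r * p.w r)| :=
            neg_le_abs _
        _ = |L'| * (r / (r + L) ^ 2) * |r * p.wt r * p.wr r + (1 / 2) * p.wt r * p.w r| := by
            rw [abs_mul, abs_mul, abs_of_nonneg hq0]
        _ ≤ (255 / 1000 * om) * (r * (|p.wt r| * (|p.wr r| + (1 / 2) * |p.w1 r|))) :=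
            mul_le_mul hcoef hin (abs_nonneg _) (by positivity)
  refine le_trans step ?_
  rw [intervalIntegral.integral_const_mul]
  calc (255 / 1000 * om) * ∫ r in (0 : ℝ)..R1, r * (|p.wt r| * (|p.wr r| + (1 / 2) * |p.w1 r|))
      ≤ (255 / 1000 * om) * ((59 / 100) * p.X R1) :=
        mul_le_mul_of_nonneg_left hprod (by positivity)
    _ = (255 / 1000 * (59 / 100)) * (om * p.X R1) := by ring
    _ ≤ (151 / 1000) * (om * p.X R1) := by
        apply mul_le_mul_of_nonneg_right _ (mul_nonneg hom0.le hX)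
        norm_num
    _ = (151 / 1000) * om * p.X R1 := by ring

end H72GS

end S_StM1

section S_StM2

/-!
# StM2: source terms of `dM`, `L = ep1 / om`; multiplier `m = (r/(r+L)) wr + w/(2(r+L))`

`|m| ≤ (r/L)(|wr| + |w1|/2)` and `|m| ≤ |wr| + |w1|/2` (`w = r w1`).
* `M3 = ∫ μ s w² m`: `|w| ≤ chi`, `|w| (|wr| + |w1|/2) = r |w1| (...)`, `X_prods`.
* `M4 = -∫ μ s g² m`: `[0,L]`: `g² ≤ 32 om² s² + 2 (250 Lam)²`,
  `(om/ep1)·4.0001·(32 om² + tiny)·(∫_0^L r s²)^{1/2}·(‖wr‖ + ‖w1‖/2)`,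
  `‖wr‖ ≤ chi`, `‖w1‖ ≤ chi/√8 ≤ 0.3536 chi`, `√3 ≤ 1.7321`: `≤ 262 (om/ep1) om² lam chi`.
  `[L,R1]`: `4.0001·3 eps·300 Lam ∫ |g|(|wr| + |w1|/2)`, `∫ |g||v| = ∫ r |g/r||v| ≤ 150 Lam ‖v‖`.
* `M5 = ∫ 2 r c (e g - w y) m`: `|e| ≤ 4 om² lam`, `∫ r |g||m| ≤ 1.2 eps chi`;
  `r |w||y||m| = |r y| r |w1||m|`.
-/

namespace H72GS

open Set MeasureTheory intervalIntegral

variable {R1 : ℝ} {p : Pre} {om lam : ℝ}

/-- the multiplier -/
private noncomputable def StM2_m (p : Pre) (L r : ℝ) : ℝ :=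
  r / (r + L) * p.wr r + p.w r / (2 * (r + L))

private noncomputable def StM2_V (p : Pre) (r : ℝ) : ℝ := |p.wr r| + (1 / 2) * |p.w1 r|

private theorem StM2_V_nonneg (r : ℝ) : 0 ≤ StM2_V p r := by
  unfold StM2_V
  positivity

private theorem StM2_V_cont (hs : IsSlice R1 p) : Continuous (StM2_V p) := by
  unfold StM2_V
  exact hs.cwr.abs.add (continuous_const.mul hs.cw1.abs)

private theorem StM2_m_cont (hs : IsSlice R1 p) {L : ℝ} (hL : 0 < L) :
    ContinuousOn (StM2_m p L) (Icc 0 R1) := by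
  unfold StM2_m
  have h1 : ∀ r ∈ Icc 0 R1, r + L ≠ 0 := fun r hr => by linarith [hr.1]
  have h2 : ∀ r ∈ Icc 0 R1, 2 * (r + L) ≠ 0 := fun r hr => by linarith [hr.1]
  exact ((continuousOn_id.div (by fun_prop) h1).mul hs.cwr.continuousOn).add
    (hs.cw.continuousOn.div (by fun_prop) h2)

private theorem StM2_m_abs (hs : IsSlice R1 p) {L r : ℝ} (hL : 0 < L) (hr : 0 ≤ r) :
    |StM2_m p L r| ≤ r / (r + L) * StM2_V p r := by
  have h0 : 0 < r + L := by linarith
  have h1 : StM2_m p L r = r / (r + L) * (p.wr r + (1 / 2) * p.w1 r) := by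
    unfold StM2_m
    rw [hs.hw1 r]
    field_simp
  rw [h1, abs_mul, abs_of_nonneg (div_nonneg hr h0.le)]
  refine mul_le_mul_of_nonneg_left ?_ (div_nonneg hr h0.le)
  refine (abs_add_le _ _).trans ?_
  unfold StM2_V
  rw [abs_mul, abs_of_pos (by norm_num : (0 : ℝ) < 1 / 2)]

private theorem StM2_m_le (hs : IsSlice R1 p) {L r : ℝ} (hL : 0 < L) (hr : 0 ≤ r) :
    |StM2_m p L r| ≤ StM2_V p r := by
  have h0 : 0 < r + L := by linarith
  refine (StM2_m_abs hs hL hr).trans ?_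
  have h1 : r / (r + L) ≤ 1 := (div_le_one h0).2 (by linarith)
  have h2 := StM2_V_nonneg (p := p) r
  nlinarith

private theorem StM2_m_le' (hs : IsSlice R1 p) {L r : ℝ} (hL : 0 < L) (hr : 0 ≤ r) :
    |StM2_m p L r| ≤ r / L * StM2_V p r := by
  have h0 : 0 < r + L := by linarith
  refine (StM2_m_abs hs hL hr).trans ?_
  have h1 : r / (r + L) ≤ r / L := div_le_div_of_nonneg_left hr hL (by linarith)
  exact mul_le_mul_of_nonneg_right h1 (StM2_V_nonneg r)

private theorem StM2_mu (hs : IsSlice R1 p) (hE : p.En R1 ≤ eps ^ 2) {r : ℝ} (hr : r ∈ Icc 0 R1) :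
    0 ≤ 4 + p.a r ∧ 4 + p.a r ≤ 40001 / 10000 := by
  have h := abs_le.1 (a_abs hs hE r hr)
  constructor <;> linarith [h.1, h.2]

private theorem StM2_w1V (hs : IsSlice R1 p) (hE : p.En R1 ≤ eps ^ 2) :
    ∫ r in (0 : ℝ)..R1, r * (|p.w1 r| * StM2_V p r) ≤ (21 / 80) * p.X R1 := by
  have h1 := (X_prods hs hE).2.1
  have h2 := (X_parts hs hE).2.2
  have h3 : ∀ r : ℝ, r * (|p.w1 r| * StM2_V p r) =
      r * (|p.wr r| * |p.w1 r|) + (1 / 2) * (r * p.w1 r ^ 2) := by
    intro r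
    unfold StM2_V
    rw [← sq_abs (p.w1 r)]
    ring
  simp only [h3]
  have c1 : Continuous fun r => r * (|p.wr r| * |p.w1 r|) :=
    continuous_id.mul (hs.cwr.abs.mul hs.cw1.abs)
  have c2 : Continuous fun r => (1 / 2) * (r * p.w1 r ^ 2) :=
    continuous_const.mul (continuous_id.mul (hs.cw1.pow 2))
  rw [intervalIntegral.integral_add (c1.intervalIntegrable _ _) (c2.intervalIntegrable _ _),
    intervalIntegral.integral_const_mul]
  linarith

private theorem StM2_uV (hs : IsSlice R1 p) (hy : Hyp R1 p om) {a b : ℝ} (ha : 0 ≤ a) (hab : a ≤ b)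
    (hb : b ≤ R1) {u : ℝ → ℝ} (hu : ContinuousOn u (Icc a b)) :
    ∫ r in a..b, r * (|u r| * StM2_V p r) ≤
      Real.sqrt (∫ r in a..b, r * u r ^ 2) * ((118 / 100) * chi R1 p) := by
  have hE := hy.en
  have hX := chi_sq hs hy
  have hc : 0 ≤ chi R1 p := chi_nonneg
  set S := Real.sqrt (∫ r in a..b, r * u r ^ 2) with hS
  have hS0 : 0 ≤ S := Real.sqrt_nonneg _
  have h1 := csr ha hab hu hs.cwr.continuousOn
  have h2 := csr ha hab hu hs.cw1.continuousOn
  have h3 : Real.sqrt (∫ r in a..b, r * p.wr r ^ 2) ≤ chi R1 p := by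
    refine Real.sqrt_le_sqrt ?_
    refine le_trans ?_ (X_parts hs hE).2.1
    exact int_mono_set ha hab hb (by have := hs.cwr; fun_prop) fun x hx =>
      mul_nonneg hx.1 (sq_nonneg _)
  have h4 : Real.sqrt (∫ r in a..b, r * p.w1 r ^ 2) ≤ (36 / 100) * chi R1 p := by
    rw [← Real.sqrt_sq (by positivity : (0 : ℝ) ≤ (36 / 100) * chi R1 p)]
    refine Real.sqrt_le_sqrt ?_
    have h5 : ∫ r in a..b, r * p.w1 r ^ 2 ≤ ∫ r in (0 : ℝ)..R1, r * p.w1 r ^ 2 :=
      int_mono_set ha hab hb (by have := hs.cw1; fun_prop) fun x hx =>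
      mul_nonneg hx.1 (sq_nonneg _)
    have h6 := (X_parts hs hE).2.2
    rw [mul_pow, hX]
    have h7 := X_nonneg hs hE
    linarith
  have h5 : ∀ r : ℝ, r * (|u r| * StM2_V p r) =
      r * (|u r| * |p.wr r|) + (1 / 2) * (r * (|u r| * |p.w1 r|)) := by
    intro r
    unfold StM2_V
    ring
  simp only [h5]
  have c1 : ContinuousOn (fun r => r * (|u r| * |p.wr r|)) (Icc a b) :=
    continuousOn_id.mul (hu.abs.mul hs.cwr.abs.continuousOn)
  have c2 : ContinuousOn (fun r => (1 / 2) * (r * (|u r| * |p.w1 r|))) (Icc a b) :=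
    continuousOn_const.mul (continuousOn_id.mul (hu.abs.mul hs.cw1.abs.continuousOn))
  rw [← uIcc_of_le hab] at c1 c2
  rw [intervalIntegral.integral_add c1.intervalIntegrable c2.intervalIntegrable,
    intervalIntegral.integral_const_mul]
  have h6 : S * Real.sqrt (∫ r in a..b, r * p.wr r ^ 2) ≤ S * chi R1 p :=
    mul_le_mul_of_nonneg_left h3 hS0
  have h7 : S * Real.sqrt (∫ r in a..b, r * p.w1 r ^ 2) ≤ S * ((36 / 100) * chi R1 p) :=
    mul_le_mul_of_nonneg_left h4 hS0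
  linarith

private theorem StM2_chi_le_Lam (hs : IsSlice R1 p) (hy : Hyp R1 p om) (hg : Geo R1 p om lam) :
    chi R1 p ≤ om / 10 ^ 14 := by
  have h1 := Lam_small hs hy hg
  have h2 : 0 ≤ om ^ 2 * lam := mul_nonneg (sq_nonneg _) hg.lam_pos.le
  unfold Lam at h1
  linarith

theorem M3_le (hs : IsSlice R1 p) (hy : Hyp R1 p om) (hg : Geo R1 p om lam) :
    ∫ r in (0 : ℝ)..R1, ((4 + p.a r) * Real.sin (p.f r) * p.w r ^ 2)
      * (r / (r + ep1 / om) * p.wr r + p.w r / (2 * (r + ep1 / om))) ≤ om * p.X R1 / 10 ^ 4 := by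
  have hE := hy.en
  have hL := L_pos hy (p := p) (R1 := R1)
  have hR := hs.R1pos.le
  have hX := X_nonneg hs hE
  have hchi : 0 ≤ chi R1 p := chi_nonneg
  have hchi2 := StM2_chi_le_Lam hs hy hg
  have hom : 0 < om := lt_of_lt_of_le (by positivity) hy.hom
  change ∫ r in (0 : ℝ)..R1, ((4 + p.a r) * Real.sin (p.f r) * p.w r ^ 2) * StM2_m p (ep1 / om) r
    ≤ om * p.X R1 / 10 ^ 4
  have c1 : ContinuousOn (fun r => ((4 + p.a r) * Real.sin (p.f r) * p.w r ^ 2) *
      StM2_m p (ep1 / om) r) (Icc 0 R1) := by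
    refine ContinuousOn.mul ?_ (StM2_m_cont hs hL)
    exact (((continuous_const.add hs.ca).mul (Real.continuous_sin.comp hs.cf)).mul
      (hs.cw.pow 2)).continuousOn
  have c2 : Continuous fun r => (40001 / 10000) * chi R1 p * (r * (|p.w1 r| * StM2_V p r)) :=
    continuous_const.mul (continuous_id.mul (hs.cw1.abs.mul (StM2_V_cont hs)))
  have h1 : ∫ r in (0 : ℝ)..R1, ((4 + p.a r) * Real.sin (p.f r) * p.w r ^ 2) *
      StM2_m p (ep1 / om) r ≤
      ∫ r in (0 : ℝ)..R1, (40001 / 10000) * chi R1 p * (r * (|p.w1 r| * StM2_V p r)) := by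
    refine intervalIntegral.integral_mono_on hR (by
      rw [← uIcc_of_le hR] at c1; exact c1.intervalIntegrable) (c2.intervalIntegrable _ _) ?_
    intro r hr
    refine (le_abs_self _).trans ?_
    obtain ⟨m1, m2⟩ := StM2_mu hs hE hr
    have hw : |p.w r| ≤ chi R1 p := w_abs hs hE r hr
    have hw' : |p.w r| = r * |p.w1 r| := by rw [hs.hw1 r, abs_mul, abs_of_nonneg hr.1]
    have hm := StM2_m_le hs hL hr.1
    have hsin := Real.abs_sin_le_one (p.f r)
    have hV := StM2_V_nonneg (p := p) r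
    rw [abs_mul, abs_mul, abs_mul, abs_of_nonneg m1, abs_pow, sq]
    have e1 : (4 + p.a r) * |Real.sin (p.f r)| ≤ 40001 / 10000 * 1 :=
      mul_le_mul m2 hsin (abs_nonneg _) (by norm_num)
    have e2 : |p.w r| * |p.w r| ≤ chi R1 p * (r * |p.w1 r|) := by
      rw [← hw']
      exact mul_le_mul_of_nonneg_right hw (abs_nonneg _)
    have e3 : (4 + p.a r) * |Real.sin (p.f r)| * (|p.w r| * |p.w r|) * |StM2_m p (ep1 / om) r| ≤
        40001 / 10000 * 1 * (chi R1 p * (r * |p.w1 r|)) * StM2_V p r := by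
      refine mul_le_mul (mul_le_mul e1 e2 (by positivity) (by norm_num)) hm (abs_nonneg _) ?_
      have := hr.1
      positivity
    refine e3.trans (le_of_eq ?_)
    ring
  rw [intervalIntegral.integral_const_mul] at h1
  have h2 := StM2_w1V hs hE
  have h3 : 40001 / 10000 * chi R1 p * ∫ r in (0 : ℝ)..R1, r * (|p.w1 r| * StM2_V p r) ≤
      40001 / 10000 * chi R1 p * (21 / 80 * p.X R1) :=
    mul_le_mul_of_nonneg_left h2 (by positivity)
  have h4 : chi R1 p * p.X R1 ≤ om / 10 ^ 14 * p.X R1 := mul_le_mul_of_nonneg_right hchi2 hX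
  have h5 : 0 ≤ om * p.X R1 := mul_nonneg hom.le hX
  nlinarith

private theorem StM2_om_pos (hy : Hyp R1 p om) : 0 < om := lt_of_lt_of_le (by positivity) hy.hom

private theorem StM2_M4_near (hs : IsSlice R1 p) (hy : Hyp R1 p om) (hg : Geo R1 p om lam) :
    ∫ r in (0 : ℝ)..(ep1 / om), -((4 + p.a r) * Real.sin (p.f r) * p.g r ^ 2) *
      StM2_m p (ep1 / om) r ≤ 265 * 10 ^ 4 * om ^ 3 * lam * chi R1 p := by
  have hE := hy.en
  have hL := L_pos hy (p := p) (R1 := R1)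
  have hLR := L_le hs hy
  have hR := hs.R1pos
  have hchi : 0 ≤ chi R1 p := chi_nonneg
  have hom := StM2_om_pos hy
  have hLam := Lam_small hs hy hg
  have hLam0 : 0 ≤ Lam R1 p om lam := by
    unfold Lam
    have := hg.lam_pos
    positivity
  have hsub : Icc 0 (ep1 / om) ⊆ Icc 0 R1 := Icc_subset_Icc le_rfl (by linarith)
  have c1 : ContinuousOn (fun r => -((4 + p.a r) * Real.sin (p.f r) * p.g r ^ 2) *
      StM2_m p (ep1 / om) r) (Icc 0 (ep1 / om)) := by
    refine ContinuousOn.mul ?_ ((StM2_m_cont hs hL).mono hsub)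
    exact (((continuous_const.add hs.ca).mul (Real.continuous_sin.comp hs.cf)).mul
      (hs.cg.pow 2)).neg.continuousOn
  have cs : Continuous fun r => Real.sin (p.f r) := Real.continuous_sin.comp hs.cf
  have c2 : Continuous fun r => (129 * om ^ 2 / (ep1 / om)) *
      (r * (|Real.sin (p.f r)| * StM2_V p r)) :=
    continuous_const.mul (continuous_id.mul (cs.abs.mul (StM2_V_cont hs)))
  have h1 : ∫ r in (0 : ℝ)..(ep1 / om), -((4 + p.a r) * Real.sin (p.f r) * p.g r ^ 2) *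
      StM2_m p (ep1 / om) r ≤
      ∫ r in (0 : ℝ)..(ep1 / om), (129 * om ^ 2 / (ep1 / om)) *
        (r * (|Real.sin (p.f r)| * StM2_V p r)) := by
    refine intervalIntegral.integral_mono_on hL.le (by
      rw [← uIcc_of_le hL.le] at c1; exact c1.intervalIntegrable) (c2.intervalIntegrable _ _) ?_
    intro r hr
    refine (le_abs_self _).trans ?_
    obtain ⟨m1, m2⟩ := StM2_mu hs hE (hsub hr)
    have hm := StM2_m_le' hs hL hr.1
    have hsin := Real.abs_sin_le_one (p.f r)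
    have hV := StM2_V_nonneg (p := p) r
    have hgn := g_near hs hy hg r hr
    rw [abs_mul, abs_neg, abs_mul, abs_mul, abs_of_nonneg m1, abs_pow]
    have e0 : |p.g r| ≤ 4 * om * |Real.sin (p.f r)| + om / 10 ^ 11 := by linarith
    have e1 : |p.g r| ^ 2 ≤ 322 / 10 * om ^ 2 := by
      have h2 : |p.g r| ≤ 4 * om * |Real.sin (p.f r)| + om / 10 ^ 11 := e0
      have h3 : |p.g r| ≤ (4 + 1 / 10 ^ 11) * om := by nlinarith
      calc |p.g r| ^ 2 ≤ ((4 + 1 / 10 ^ 11) * om) ^ 2 := pow_le_pow_left₀ (abs_nonneg _) h3 2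
        _ ≤ 322 / 10 * om ^ 2 := by nlinarith [sq_nonneg om]
    have e2 : (4 + p.a r) * |Real.sin (p.f r)| * |p.g r| ^ 2 ≤
        40001 / 10000 * |Real.sin (p.f r)| * (322 / 10 * om ^ 2) :=
      mul_le_mul (mul_le_mul_of_nonneg_right m2 (abs_nonneg _)) e1 (by positivity)
        (by positivity)
    have e3 : (4 + p.a r) * |Real.sin (p.f r)| * |p.g r| ^ 2 * |StM2_m p (ep1 / om) r| ≤
        40001 / 10000 * |Real.sin (p.f r)| * (322 / 10 * om ^ 2) *
          (r / (ep1 / om) * StM2_V p r) :=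
      mul_le_mul e2 hm (abs_nonneg _) (by positivity)
    refine e3.trans ?_
    have e4 : 40001 / 10000 * |Real.sin (p.f r)| * (322 / 10 * om ^ 2) *
          (r / (ep1 / om) * StM2_V p r) =
        (40001 / 10000 * (322 / 10)) * (om ^ 2 / (ep1 / om) * (r * (|Real.sin (p.f r)| *
          StM2_V p r))) := by ring
    have e5 : 129 * om ^ 2 / (ep1 / om) * (r * (|Real.sin (p.f r)| * StM2_V p r)) =
        129 * (om ^ 2 / (ep1 / om) * (r * (|Real.sin (p.f r)| * StM2_V p r))) := by ring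
    rw [e4, e5]
    have e6 : 0 ≤ om ^ 2 / (ep1 / om) * (r * (|Real.sin (p.f r)| * StM2_V p r)) := by
      have := hr.1
      positivity
    refine mul_le_mul_of_nonneg_right ?_ e6
    norm_num
  rw [intervalIntegral.integral_const_mul] at h1
  have h2 := StM2_uV hs hy le_rfl hL.le (by linarith : ep1 / om ≤ R1)
    (u := fun r => Real.sin (p.f r)) cs.continuousOn
  have h3 : Real.sqrt (∫ r in (0 : ℝ)..(ep1 / om), r * Real.sin (p.f r) ^ 2) ≤
      (1733 / 1000) * lam := by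
    have hl := hg.lam_pos
    rw [← Real.sqrt_sq (by positivity : (0 : ℝ) ≤ (1733 / 1000) * lam)]
    refine Real.sqrt_le_sqrt ((I_sin2 hs hy hg).trans ?_)
    nlinarith [sq_nonneg lam]
  have h4 : Real.sqrt (∫ r in (0 : ℝ)..(ep1 / om), r * Real.sin (p.f r) ^ 2) *
      ((118 / 100) * chi R1 p) ≤ (1733 / 1000) * lam * ((118 / 100) * chi R1 p) :=
    mul_le_mul_of_nonneg_right h3 (by positivity)
  have h5 : 129 * om ^ 2 / (ep1 / om) = 129 * 10 ^ 4 * om ^ 3 := by
    unfold ep1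
    field_simp
  rw [h5] at h1
  have h6 : 129 * 10 ^ 4 * om ^ 3 * (∫ r in (0 : ℝ)..(ep1 / om),
      r * (|Real.sin (p.f r)| * StM2_V p r)) ≤
      129 * 10 ^ 4 * om ^ 3 * ((1733 / 1000) * lam * ((118 / 100) * chi R1 p)) :=
    mul_le_mul_of_nonneg_left (h2.trans h4) (by positivity)
  refine (h1.trans h6).trans ?_
  have h7 : 0 ≤ om ^ 3 * lam * chi R1 p := by
    have := hg.lam_pos
    positivity
  nlinarith

private theorem StM2_M4_far (hs : IsSlice R1 p) (hy : Hyp R1 p om) (hg : Geo R1 p om lam) :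
    ∫ r in (ep1 / om)..R1, -((4 + p.a r) * Real.sin (p.f r) * p.g r ^ 2) *
      StM2_m p (ep1 / om) r ≤ om ^ 3 * lam * chi R1 p := by
  have hE := hy.en
  have hL := L_pos hy (p := p) (R1 := R1)
  have hLR := L_le hs hy
  have hR := hs.R1pos
  have hchi : 0 ≤ chi R1 p := chi_nonneg
  have hom := StM2_om_pos hy
  have hLam := Lam_small hs hy hg
  have hLam2 := Lam_le hs hy hg
  have hLam0 : 0 ≤ Lam R1 p om lam := by
    unfold Lam
    have := hg.lam_pos
    positivity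
  have hLR' : ep1 / om ≤ R1 := by linarith
  have hsub : Icc (ep1 / om) R1 ⊆ Icc 0 R1 := Icc_subset_Icc hL.le le_rfl
  have c1 : ContinuousOn (fun r => -((4 + p.a r) * Real.sin (p.f r) * p.g r ^ 2) *
      StM2_m p (ep1 / om) r) (Icc (ep1 / om) R1) := by
    refine ContinuousOn.mul ?_ ((StM2_m_cont hs hL).mono hsub)
    exact (((continuous_const.add hs.ca).mul (Real.continuous_sin.comp hs.cf)).mul
      (hs.cg.pow 2)).neg.continuousOn
  have c0 : ContinuousOn (fun r => p.g r / r) (Icc (ep1 / om) R1) :=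
    hs.cg.continuousOn.div continuousOn_id fun r hr => (lt_of_lt_of_le hL hr.1).ne'
  have c2 : ContinuousOn (fun r => (40001 / 10000 * (900 * eps * Lam R1 p om lam)) *
      (r * (|p.g r / r| * StM2_V p r))) (Icc (ep1 / om) R1) :=
    continuousOn_const.mul (continuousOn_id.mul (c0.abs.mul (StM2_V_cont hs).continuousOn))
  have heps : 0 < eps := by unfold eps; positivity
  have h1 : ∫ r in (ep1 / om)..R1, -((4 + p.a r) * Real.sin (p.f r) * p.g r ^ 2) *
      StM2_m p (ep1 / om) r ≤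
      ∫ r in (ep1 / om)..R1, (40001 / 10000 * (900 * eps * Lam R1 p om lam)) *
      (r * (|p.g r / r| * StM2_V p r)) := by
    refine intervalIntegral.integral_mono_on hLR' (by
      rw [← uIcc_of_le hLR'] at c1; exact c1.intervalIntegrable)
      (by rw [← uIcc_of_le hLR'] at c2; exact c2.intervalIntegrable) ?_
    intro r hr
    refine (le_abs_self _).trans ?_
    have hr0 : 0 < r := lt_of_lt_of_le hL hr.1
    obtain ⟨m1, m2⟩ := StM2_mu hs hE (hsub hr)
    have hm := StM2_m_le hs hL hr0.le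
    have hV := StM2_V_nonneg (p := p) r
    have hsg := sg_far hs hy hg r hr
    have hgr : r * |p.g r / r| = |p.g r| := by
      rw [abs_div, abs_of_pos hr0]
      field_simp
    rw [abs_mul, abs_neg, abs_mul, abs_mul, abs_of_nonneg m1, abs_pow]
    have e2 : (4 + p.a r) * |Real.sin (p.f r)| * |p.g r| ^ 2 =
        (4 + p.a r) * (|Real.sin (p.f r)| * |p.g r|) * |p.g r| := by ring
    have e3 : (4 + p.a r) * (|Real.sin (p.f r)| * |p.g r|) * |p.g r| *
        |StM2_m p (ep1 / om) r| ≤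
        40001 / 10000 * (900 * eps * Lam R1 p om lam) * |p.g r| * StM2_V p r :=
      mul_le_mul (mul_le_mul_of_nonneg_right (mul_le_mul m2 hsg (by positivity) (by norm_num))
        (abs_nonneg _)) hm (abs_nonneg _) (by positivity)
    rw [e2]
    refine e3.trans (le_of_eq ?_)
    rw [← hgr]
    ring
  rw [intervalIntegral.integral_const_mul] at h1
  have h2 := StM2_uV hs hy hL.le hLR' le_rfl (u := fun r => p.g r / r) c0
  have h3 : Real.sqrt (∫ r in (ep1 / om)..R1, r * (p.g r / r) ^ 2) ≤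
      150 * Lam R1 p om lam := by
    rw [← Real.sqrt_sq (by positivity : (0 : ℝ) ≤ 150 * Lam R1 p om lam)]
    exact Real.sqrt_le_sqrt (g_L2 hs hy hg)
  have h4 : Real.sqrt (∫ r in (ep1 / om)..R1, r * (p.g r / r) ^ 2) *
      ((118 / 100) * chi R1 p) ≤ 150 * Lam R1 p om lam * ((118 / 100) * chi R1 p) :=
    mul_le_mul_of_nonneg_right h3 (by positivity)
  have h6 := mul_le_mul_of_nonneg_left (h2.trans h4)
    (by positivity : (0 : ℝ) ≤ 40001 / 10000 * (900 * eps * Lam R1 p om lam))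
  refine (h1.trans h6).trans ?_
  have h8 : Lam R1 p om lam * Lam R1 p om lam ≤ om / 10 ^ 14 * (4 * 10 ^ 7 * om ^ 2 * lam) :=
    mul_le_mul hLam hLam2 hLam0 (by positivity)
  have h9 : Lam R1 p om lam * Lam R1 p om lam * chi R1 p ≤
      om / 10 ^ 14 * (4 * 10 ^ 7 * om ^ 2 * lam) * chi R1 p := mul_le_mul_of_nonneg_right h8 hchi
  have h7 : 0 ≤ om ^ 3 * lam * chi R1 p := by
    have := hg.lam_pos
    positivity
  have h10 : 40001 / 10000 * (900 * eps * Lam R1 p om lam) *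
      (150 * Lam R1 p om lam * (118 / 100 * chi R1 p)) =
      (40001 / 10000 * 900 * 150 * (118 / 100) * eps) *
        (Lam R1 p om lam * Lam R1 p om lam * chi R1 p) := by ring
  rw [h10]
  have h11 := mul_le_mul_of_nonneg_left h9
    (by positivity : (0 : ℝ) ≤ (40001 / 10000 * 900 * 150 * (118 / 100) * eps))
  refine h11.trans ?_
  unfold eps
  have h12 : (40001 / 10000 * 900 * 150 * (118 / 100) * (1 / 10 ^ 22)) *
      (om / 10 ^ 14 * (4 * 10 ^ 7 * om ^ 2 * lam) * chi R1 p) =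
      ((40001 / 10000 * 900 * 150 * (118 / 100) * (1 / 10 ^ 22)) * (4 / 10 ^ 7)) *
        (om ^ 3 * lam * chi R1 p) := by ring
  rw [h12]
  nlinarith

theorem M4_le (hs : IsSlice R1 p) (hy : Hyp R1 p om) (hg : Geo R1 p om lam) :
    ∫ r in (0 : ℝ)..R1, -((4 + p.a r) * Real.sin (p.f r) * p.g r ^ 2)
      * (r / (r + ep1 / om) * p.wr r + p.w r / (2 * (r + ep1 / om)))
      ≤ 27 * 10 ^ 5 * om ^ 3 * lam * chi R1 p := by
  have hL := L_pos hy (p := p) (R1 := R1)
  have hLR := L_le hs hy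
  have hR := hs.R1pos
  have hLR' : ep1 / om ≤ R1 := by linarith
  change ∫ r in (0 : ℝ)..R1, -((4 + p.a r) * Real.sin (p.f r) * p.g r ^ 2) *
    StM2_m p (ep1 / om) r ≤ 27 * 10 ^ 5 * om ^ 3 * lam * chi R1 p
  have c1 : ContinuousOn (fun r => -((4 + p.a r) * Real.sin (p.f r) * p.g r ^ 2) *
      StM2_m p (ep1 / om) r) (Icc 0 R1) := by
    refine ContinuousOn.mul ?_ (StM2_m_cont hs hL)
    exact (((continuous_const.add hs.ca).mul (Real.continuous_sin.comp hs.cf)).mul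
      (hs.cg.pow 2)).neg.continuousOn
  have i1 : IntervalIntegrable (fun r => -((4 + p.a r) * Real.sin (p.f r) * p.g r ^ 2) *
      StM2_m p (ep1 / om) r) volume 0 (ep1 / om) := by
    refine ContinuousOn.intervalIntegrable ?_
    rw [uIcc_of_le hL.le]
    exact c1.mono (Icc_subset_Icc le_rfl hLR')
  have i2 : IntervalIntegrable (fun r => -((4 + p.a r) * Real.sin (p.f r) * p.g r ^ 2) *
      StM2_m p (ep1 / om) r) volume (ep1 / om) R1 := by
    refine ContinuousOn.intervalIntegrable ?_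
    rw [uIcc_of_le hLR']
    exact c1.mono (Icc_subset_Icc hL.le le_rfl)
  rw [← intervalIntegral.integral_add_adjacent_intervals i1 i2]
  have h1 := StM2_M4_near hs hy hg
  have h2 := StM2_M4_far hs hy hg
  have h7 : 0 ≤ om ^ 3 * lam * chi R1 p := by
    have := hg.lam_pos
    have := StM2_om_pos hy
    have : 0 ≤ chi R1 p := chi_nonneg
    positivity
  linarith

theorem M5_le (hs : IsSlice R1 p) (hy : Hyp R1 p om) (hg : Geo R1 p om lam) :
    ∫ r in (0 : ℝ)..R1, (2 * r * Real.cos (p.f r) * (p.e r * p.g r - p.w r * p.y r))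
      * (r / (r + ep1 / om) * p.wr r + p.w r / (2 * (r + ep1 / om)))
      ≤ om ^ 3 * lam * chi R1 p + om * p.X R1 / 10 ^ 4 := by
  have hE := hy.en
  have hL := L_pos hy (p := p) (R1 := R1)
  have hR := hs.R1pos.le
  have hX := X_nonneg hs hE
  have hchi : 0 ≤ chi R1 p := chi_nonneg
  have hom := StM2_om_pos hy
  have hlam := hg.lam_pos
  have heps : 0 < eps := by unfold eps; positivity
  change ∫ r in (0 : ℝ)..R1, (2 * r * Real.cos (p.f r) * (p.e r * p.g r - p.w r * p.y r)) *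
    StM2_m p (ep1 / om) r ≤ om ^ 3 * lam * chi R1 p + om * p.X R1 / 10 ^ 4
  have c1 : ContinuousOn (fun r => (2 * r * Real.cos (p.f r) *
      (p.e r * p.g r - p.w r * p.y r)) * StM2_m p (ep1 / om) r) (Icc 0 R1) := by
    refine ContinuousOn.mul ?_ (StM2_m_cont hs hL)
    exact (((continuous_const.mul continuous_id).mul (Real.continuous_cos.comp hs.cf)).mul
      ((hs.ce.mul hs.cg).sub (hs.cw.mul hs.cy))).continuousOn
  have c2 : Continuous fun r => (8 * om ^ 2 * lam) * (r * (|p.g r| * StM2_V p r)) :=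
    continuous_const.mul (continuous_id.mul (hs.cg.abs.mul (StM2_V_cont hs)))
  have c3 : Continuous fun r => (2 * (om / 10 ^ 12)) * (r * (|p.w1 r| * StM2_V p r)) :=
    continuous_const.mul (continuous_id.mul (hs.cw1.abs.mul (StM2_V_cont hs)))
  have h1 : ∫ r in (0 : ℝ)..R1, (2 * r * Real.cos (p.f r) *
      (p.e r * p.g r - p.w r * p.y r)) * StM2_m p (ep1 / om) r ≤
      ∫ r in (0 : ℝ)..R1, ((8 * om ^ 2 * lam) * (r * (|p.g r| * StM2_V p r)) +
        (2 * (om / 10 ^ 12)) * (r * (|p.w1 r| * StM2_V p r))) := by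
    refine intervalIntegral.integral_mono_on hR (by
      rw [← uIcc_of_le hR] at c1; exact c1.intervalIntegrable)
      ((c2.add c3).intervalIntegrable _ _) ?_
    intro r hr
    refine (le_abs_self _).trans ?_
    have hr0 := hr.1
    have he := e_abs hs hy hg r hr
    have hry := ry_abs hs hy r hr
    have hm := StM2_m_le hs hL hr.1
    have hcos := Real.abs_cos_le_one (p.f r)
    have hV := StM2_V_nonneg (p := p) r
    rw [abs_mul, abs_mul, abs_mul, abs_mul, abs_of_nonneg hr0, abs_of_pos (by norm_num : (0 : ℝ) < 2)]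
    rw [abs_mul, abs_of_nonneg hr0] at hry
    have e1 : |p.e r * p.g r - p.w r * p.y r| ≤ |p.e r| * |p.g r| + |p.w r| * |p.y r| := by
      rw [← abs_mul, ← abs_mul]
      exact abs_sub _ _
    have hw' : |p.w r| = r * |p.w1 r| := by rw [hs.hw1 r, abs_mul, abs_of_nonneg hr.1]
    have e2 : 2 * r * |Real.cos (p.f r)| * |p.e r * p.g r - p.w r * p.y r| *
        |StM2_m p (ep1 / om) r| ≤
        2 * r * 1 * (|p.e r| * |p.g r| + |p.w r| * |p.y r|) * StM2_V p r :=
      mul_le_mul (mul_le_mul (mul_le_mul_of_nonneg_left hcos (by positivity)) e1 (abs_nonneg _)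
        (by positivity)) hm (abs_nonneg _) (by positivity)
    refine e2.trans ?_
    have e3 : 2 * r * 1 * (|p.e r| * |p.g r| + |p.w r| * |p.y r|) * StM2_V p r =
        |p.e r| * (2 * (r * (|p.g r| * StM2_V p r))) +
        (r * |p.y r|) * (2 * (r * (|p.w1 r| * StM2_V p r))) := by
      rw [hw']
      ring
    rw [e3]
    have e4 : |p.e r| * (2 * (r * (|p.g r| * StM2_V p r))) ≤
        (4 * om ^ 2 * lam) * (2 * (r * (|p.g r| * StM2_V p r))) :=
      mul_le_mul_of_nonneg_right he (by positivity)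
    have e5 : (r * |p.y r|) * (2 * (r * (|p.w1 r| * StM2_V p r))) ≤
        (om / 10 ^ 12) * (2 * (r * (|p.w1 r| * StM2_V p r))) :=
      mul_le_mul_of_nonneg_right hry (by positivity)
    linarith
  rw [intervalIntegral.integral_add (c2.intervalIntegrable _ _) (c3.intervalIntegrable _ _),
    intervalIntegral.integral_const_mul, intervalIntegral.integral_const_mul] at h1
  have h2 := StM2_w1V hs hE
  have h3 := StM2_uV hs hy le_rfl hR le_rfl (u := p.g) hs.cg.continuousOn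
  have h4 : Real.sqrt (∫ r in (0 : ℝ)..R1, r * p.g r ^ 2) ≤ eps := by
    rw [← Real.sqrt_sq heps.le]
    exact Real.sqrt_le_sqrt (En_parts hs hE).1
  have h5 : Real.sqrt (∫ r in (0 : ℝ)..R1, r * p.g r ^ 2) * (118 / 100 * chi R1 p) ≤
      eps * (118 / 100 * chi R1 p) := mul_le_mul_of_nonneg_right h4 (by positivity)
  have h6 := mul_le_mul_of_nonneg_left (h3.trans h5) (by positivity : (0 : ℝ) ≤ 8 * om ^ 2 * lam)
  have h7 := mul_le_mul_of_nonneg_left h2 (by positivity : (0 : ℝ) ≤ 2 * (om / 10 ^ 12))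
  have h8 : (8 * om ^ 2 * lam) * (eps * (118 / 100 * chi R1 p)) ≤ om ^ 3 * lam * chi R1 p := by
    have h9 : (8 * om ^ 2 * lam) * (eps * (118 / 100 * chi R1 p)) =
        (8 * eps * (118 / 100)) * (om ^ 2 * lam * chi R1 p) := by ring
    have h10 : om ^ 3 * lam * chi R1 p = om * (om ^ 2 * lam * chi R1 p) := by ring
    rw [h9, h10]
    refine mul_le_mul_of_nonneg_right ?_ (by positivity)
    have h11 := hy.hom
    have h12 : 8 * eps * (118 / 100) ≤ 1 := by unfold eps; norm_num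
    have h13 : (1 : ℝ) ≤ 10 ^ 60 := by norm_num
    linarith
  have h9 : 0 ≤ om * p.X R1 := by positivity
  have h10 : 2 * (om / 10 ^ 12) * (21 / 80 * p.X R1) ≤ om * p.X R1 / 10 ^ 4 := by
    nlinarith
  linarith

end H72GS

end S_StM2

section S_StY

/-!
# StY: the main differential inequality at a fixed time

`dX + 2 dD` is the sum of `I1,...,I8` (the terms `∓ 2 wt μ s g²` cancel), `dM` the sum of
`M1,...,M6` (`Xl` is the sum of the two local integrals in `M1`, `M2`).  With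
`1/(16 ep1) = 625 ≥ 387` the local terms drop.  Finally `om³ lam chi ≤ 4 Gam om⁵ N`
(`lam ≤ 4 √N`, `chi ≤ Gam om² √N`), `X ≤ Gam² om⁴ N`:
`(1300 + 1.36·10⁶)·4·Gam + 0.09·Gam² ≤ 8.7·10¹³`.
-/

namespace H72GS

open Set MeasureTheory intervalIntegral

variable {R1 : ℝ} {p : Pre} {om lam : ℝ}

theorem StY_om_pos (hy : Hyp R1 p om) : 0 < om := lt_of_lt_of_le (by norm_num) hy.hom

/-- the sum of eight integrals of continuous functions -/
theorem StY_sum8 {F1 F2 F3 F4 F5 F6 F7 F8 : ℝ → ℝ} {a b : ℝ}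
    (h1 : Continuous F1) (h2 : Continuous F2) (h3 : Continuous F3) (h4 : Continuous F4)
    (h5 : Continuous F5) (h6 : Continuous F6) (h7 : Continuous F7) (h8 : Continuous F8) :
    ∫ r in a..b, (F1 r + F2 r + F3 r + F4 r + F5 r + F6 r + F7 r + F8 r)
      = (∫ r in a..b, F1 r) + (∫ r in a..b, F2 r) + (∫ r in a..b, F3 r) + (∫ r in a..b, F4 r)
        + (∫ r in a..b, F5 r) + (∫ r in a..b, F6 r) + (∫ r in a..b, F7 r)
        + (∫ r in a..b, F8 r) := by
  have c2 : Continuous (fun r => F1 r + F2 r) := h1.add h2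
  have c3 : Continuous (fun r => F1 r + F2 r + F3 r) := c2.add h3
  have c4 : Continuous (fun r => F1 r + F2 r + F3 r + F4 r) := c3.add h4
  have c5 : Continuous (fun r => F1 r + F2 r + F3 r + F4 r + F5 r) := c4.add h5
  have c6 : Continuous (fun r => F1 r + F2 r + F3 r + F4 r + F5 r + F6 r) := c5.add h6
  have c7 : Continuous (fun r => F1 r + F2 r + F3 r + F4 r + F5 r + F6 r + F7 r) := c6.add h7
  rw [← intervalIntegral.integral_add (h1.intervalIntegrable a b) (h2.intervalIntegrable a b),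
    ← intervalIntegral.integral_add (c2.intervalIntegrable a b) (h3.intervalIntegrable a b),
    ← intervalIntegral.integral_add (c3.intervalIntegrable a b) (h4.intervalIntegrable a b),
    ← intervalIntegral.integral_add (c4.intervalIntegrable a b) (h5.intervalIntegrable a b),
    ← intervalIntegral.integral_add (c5.intervalIntegrable a b) (h6.intervalIntegrable a b),
    ← intervalIntegral.integral_add (c6.intervalIntegrable a b) (h7.intervalIntegrable a b),
    ← intervalIntegral.integral_add (c7.intervalIntegrable a b) (h8.intervalIntegrable a b)]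

/-- the sum of six integrals -/
theorem StY_sum6 {F1 F2 F3 F4 F5 F6 : ℝ → ℝ} {a b : ℝ}
    (h1 : IntervalIntegrable F1 volume a b) (h2 : IntervalIntegrable F2 volume a b)
    (h3 : IntervalIntegrable F3 volume a b) (h4 : IntervalIntegrable F4 volume a b)
    (h5 : IntervalIntegrable F5 volume a b) (h6 : IntervalIntegrable F6 volume a b) :
    ∫ r in a..b, (F1 r + F2 r + F3 r + F4 r + F5 r + F6 r)
      = (∫ r in a..b, F1 r) + (∫ r in a..b, F2 r) + (∫ r in a..b, F3 r) + (∫ r in a..b, F4 r)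
        + (∫ r in a..b, F5 r) + (∫ r in a..b, F6 r) := by
  have c2 := h1.add h2
  have c3 := c2.add h3
  have c4 := c3.add h4
  have c5 := c4.add h5
  rw [← intervalIntegral.integral_add h1 h2,
    ← intervalIntegral.integral_add c2 h3,
    ← intervalIntegral.integral_add c3 h4,
    ← intervalIntegral.integral_add c4 h5,
    ← intervalIntegral.integral_add c5 h6]

theorem XD_le (hs : IsSlice R1 p) (hy : Hyp R1 p om) (hg : Geo R1 p om lam) :
    p.dX R1 + 2 * p.dD R1 ≤ 387 * om * p.Xl (ep1 / om) + 1300 * om ^ 3 * lam * chi R1 p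
      + om * p.X R1 / 100 := by
  have hom := StY_om_pos hy
  have cf := hs.cf
  have ca := hs.ca
  have cg := hs.cg
  have ce := hs.ce
  have cw := hs.cw
  have cy := hs.cy
  have cwt := hs.cwt
  have cwr := hs.cwr
  have cgt := hs.cgt
  have cw1 := hs.cw1
  have cS : Continuous (fun r => Real.sin (p.f r)) := Real.continuous_sin.comp hs.cf
  have cC : Continuous (fun r => Real.cos (p.f r)) := Real.continuous_cos.comp hs.cf
  have i1 := I1_le hs hy hg
  have i2 := I2_le hs hy hg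
  have i3 := I3_le hs hy hg
  have i4 := I4_le hs hy hg
  have i5 := I5_le hs hy hg
  have i6 := I6_le hs hy hg
  have i7 := I7_le hs hy hg
  have i8 := I8_le hs hy hg
  have hsum : p.dX R1 + 2 * p.dD R1 =
      (∫ r in (0 : ℝ)..R1, 2 * (4 + p.a r) * Real.sin (p.f r) * p.g r * r * p.w1 r ^ 2)
      + (∫ r in (0 : ℝ)..R1, 2 * ((4 + p.a r) - Real.cos (p.f r)) * p.e r * p.w r ^ 2)
      + (∫ r in (0 : ℝ)..R1, r * Real.sin (p.f r) * p.g r * p.w r ^ 2)
      + (∫ r in (0 : ℝ)..R1, 2 * p.wt r * ((4 + p.a r) * Real.sin (p.f r) * p.w r ^ 2))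
      + (∫ r in (0 : ℝ)..R1, 2 * p.wt r * (2 * r * Real.cos (p.f r)
          * (p.e r * p.g r - p.w r * p.y r)))
      + (∫ r in (0 : ℝ)..R1, 2 * (p.w r * (r * p.e r * Real.sin (p.f r) * p.g r ^ 2)))
      + (∫ r in (0 : ℝ)..R1, 2 * (p.w r * ((4 + p.a r) * Real.cos (p.f r) * p.g r ^ 3)))
      + (∫ r in (0 : ℝ)..R1, 2 * (p.w r * (2 * (4 + p.a r) * Real.sin (p.f r) * p.g r
          * p.gt r))) := by
    rw [← StY_sum8 (by fun_prop) (by fun_prop) (by fun_prop) (by fun_prop) (by fun_prop)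
      (by fun_prop) (by fun_prop) (by fun_prop)]
    unfold Pre.dX Pre.dD
    rw [← intervalIntegral.integral_const_mul, ← intervalIntegral.integral_add
      (Continuous.intervalIntegrable (by fun_prop) _ _)
      (Continuous.intervalIntegrable (by fun_prop) _ _)]
    congr 1
    ext r
    ring
  rw [hsum]
  have hc : 0 ≤ om ^ 3 * lam * chi R1 p :=
    mul_nonneg (mul_nonneg (by positivity) hg.lam_pos.le) chi_nonneg
  have hX : 0 ≤ om * p.X R1 := mul_nonneg hom.le (X_nonneg hs hy.en)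
  nlinarith

theorem M_le (hs : IsSlice R1 p) (hy : Hyp R1 p om) (hg : Geo R1 p om lam) {L' : ℝ}
    (hL' : |L'| ≤ (102 / 100) * ep1) :
    p.dM R1 (ep1 / om) L' ≤ -(om / (8 * ep1)) * p.Xl (ep1 / om)
      + 271 * 10 ^ 4 * om ^ 3 * lam * chi R1 p + (153 / 1000) * om * p.X R1 := by
  have hom := StY_om_pos hy
  have hLp := L_pos hy
  have cf := hs.cf
  have ca := hs.ca
  have cg := hs.cg
  have ce := hs.ce
  have cw := hs.cw
  have cy := hs.cy
  have cwt := hs.cwt
  have cwr := hs.cwr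
  have cgt := hs.cgt
  have cw1 := hs.cw1
  have cS : Continuous (fun r => Real.sin (p.f r)) := Real.continuous_sin.comp hs.cf
  have cC : Continuous (fun r => Real.cos (p.f r)) := Real.continuous_cos.comp hs.cf
  have m1 := M1_le hs hy
  have m2 := M2_le hs hy hg
  have m3 := M3_le hs hy hg
  have m4 := M4_le hs hy hg
  have m5 := M5_le hs hy hg
  have m6 := M6_le hs hy hL'
  set L := ep1 / om with hL
  have hR := hs.R1pos
  -- continuity helpers
  have hne : ∀ r ∈ Icc 0 R1, r + L ≠ 0 := by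
    intro r hr
    have : 0 < r + L := by linarith [hr.1]
    exact this.ne'
  have hint : ∀ {F : ℝ → ℝ}, ContinuousOn F (Icc 0 R1) → IntervalIntegrable F volume 0 R1 := by
    intro F hF
    apply ContinuousOn.intervalIntegrable
    rw [uIcc_of_le hR.le]
    exact hF
  have q1 : ContinuousOn (fun r => (r + L)⁻¹) (Icc 0 R1) := by
    apply ContinuousOn.inv₀ (by fun_prop) hne
  have cA : Continuous (fun r => p.A r) := by
    unfold Pre.A
    fun_prop
  have n1 : ContinuousOn (fun r => -(1 / 2) * (r * L / (r + L) ^ 2)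
        * (p.wt r ^ 2 + p.wr r ^ 2)) (Icc 0 R1) := by
    have : (fun r => -(1 / 2) * (r * L / (r + L) ^ 2)
        * (p.wt r ^ 2 + p.wr r ^ 2)) = (fun r => -(1 / 2) * (r * L * ((r + L)⁻¹) ^ 2)
        * (p.wt r ^ 2 + p.wr r ^ 2)) := by
      ext r
      have h : r * L / (r + L) ^ 2 = r * L * ((r + L)⁻¹) ^ 2 := by
        rw [inv_pow, div_eq_mul_inv]
      rw [h]
    rw [this]
    fun_prop
  have n2 : ContinuousOn (fun r => p.m3 L r * p.w1 r ^ 2) (Icc 0 R1) := by
    have : (fun r => p.m3 L r * p.w1 r ^ 2) = (fun r => ((1 / 4) * r ^ 2 * (r - L) *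
      ((r + L)⁻¹) ^ 3
    + (1 / 2) * ((2 * ((4 + p.a r) - Real.cos (p.f r)) * r ^ 2 * (p.y r - 1 + Real.cos (p.f r))
        + 2 * (4 + p.a r) * Real.sin (p.f r) * (r * p.w r - (4 + p.a r) * Real.sin (p.f r))
        - 2 * p.A r
        + r ^ 2 * Real.sin (p.f r) * (r * p.w r - (4 + p.a r) * Real.sin (p.f r)))
          * (r * (r + L)⁻¹)
      + (r * p.A r + r ^ 3 * (1 - Real.cos (p.f r))) * (L * ((r + L)⁻¹) ^ 2))) * p.w1 r ^ 2) := by
      ext r
      unfold Pre.m3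
      simp only [div_eq_mul_inv, inv_pow]
    rw [this]
    fun_prop
  have n3 : ContinuousOn (fun r => ((4 + p.a r) * Real.sin (p.f r) * p.w r ^ 2)
      * (r / (r + L) * p.wr r + p.w r / (2 * (r + L)))) (Icc 0 R1) := by
    have : (fun r => ((4 + p.a r) * Real.sin (p.f r) * p.w r ^ 2)
      * (r / (r + L) * p.wr r + p.w r / (2 * (r + L)))) = (fun r =>
        ((4 + p.a r) * Real.sin (p.f r) * p.w r ^ 2)
      * (r * (r + L)⁻¹ * p.wr r + p.w r * (2⁻¹ * (r + L)⁻¹))) := by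
      ext r
      simp only [div_eq_mul_inv, mul_inv]
    rw [this]
    fun_prop
  have n4 : ContinuousOn (fun r => -((4 + p.a r) * Real.sin (p.f r) * p.g r ^ 2)
      * (r / (r + L) * p.wr r + p.w r / (2 * (r + L)))) (Icc 0 R1) := by
    have : (fun r => -((4 + p.a r) * Real.sin (p.f r) * p.g r ^ 2)
      * (r / (r + L) * p.wr r + p.w r / (2 * (r + L)))) = (fun r =>
        -((4 + p.a r) * Real.sin (p.f r) * p.g r ^ 2)
      * (r * (r + L)⁻¹ * p.wr r + p.w r * (2⁻¹ * (r + L)⁻¹))) := by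
      ext r
      simp only [div_eq_mul_inv, mul_inv]
    rw [this]
    fun_prop
  have n5 : ContinuousOn (fun r => (2 * r * Real.cos (p.f r) * (p.e r * p.g r - p.w r * p.y r))
      * (r / (r + L) * p.wr r + p.w r / (2 * (r + L)))) (Icc 0 R1) := by
    have : (fun r => (2 * r * Real.cos (p.f r) * (p.e r * p.g r - p.w r * p.y r))
      * (r / (r + L) * p.wr r + p.w r / (2 * (r + L)))) = (fun r =>
        (2 * r * Real.cos (p.f r) * (p.e r * p.g r - p.w r * p.y r))
      * (r * (r + L)⁻¹ * p.wr r + p.w r * (2⁻¹ * (r + L)⁻¹))) := by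
      ext r
      simp only [div_eq_mul_inv, mul_inv]
    rw [this]
    fun_prop
  have n6 : ContinuousOn (fun r => -(L' * (r / (r + L) ^ 2)
        * (r * p.wt r * p.wr r + (1 / 2) * p.wt r * p.w r))) (Icc 0 R1) := by
    have : (fun r => -(L' * (r / (r + L) ^ 2)
        * (r * p.wt r * p.wr r + (1 / 2) * p.wt r * p.w r))) = (fun r =>
        -(L' * (r * ((r + L)⁻¹) ^ 2)
        * (r * p.wt r * p.wr r + (1 / 2) * p.wt r * p.w r))) := by
      ext r
      simp only [div_eq_mul_inv, inv_pow]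
    rw [this]
    fun_prop
  have hsum : p.dM R1 L L' =
      (∫ r in (0 : ℝ)..R1, -(1 / 2) * (r * L / (r + L) ^ 2) * (p.wt r ^ 2 + p.wr r ^ 2))
      + (∫ r in (0 : ℝ)..R1, p.m3 L r * p.w1 r ^ 2)
      + (∫ r in (0 : ℝ)..R1, ((4 + p.a r) * Real.sin (p.f r) * p.w r ^ 2)
      * (r / (r + L) * p.wr r + p.w r / (2 * (r + L))))
      + (∫ r in (0 : ℝ)..R1, -((4 + p.a r) * Real.sin (p.f r) * p.g r ^ 2)
      * (r / (r + L) * p.wr r + p.w r / (2 * (r + L))))
      + (∫ r in (0 : ℝ)..R1, (2 * r * Real.cos (p.f r) * (p.e r * p.g r - p.w r * p.y r))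
      * (r / (r + L) * p.wr r + p.w r / (2 * (r + L))))
      + (∫ r in (0 : ℝ)..R1, -(L' * (r / (r + L) ^ 2)
        * (r * p.wt r * p.wr r + (1 / 2) * p.wt r * p.w r))) := by
    rw [← StY_sum6 (hint n1) (hint n2) (hint n3) (hint n4) (hint n5) (hint n6)]
    unfold Pre.dM
    congr 1
    ext r
    ring
  rw [hsum]
  have hXl : p.Xl L = (∫ r in (0 : ℝ)..L, r * (p.wt r ^ 2 + p.wr r ^ 2))
      + (∫ r in (0 : ℝ)..L, r * p.w1 r ^ 2) := by
    unfold Pre.Xl
    rw [← intervalIntegral.integral_add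
      (Continuous.intervalIntegrable (by fun_prop) _ _)
      (Continuous.intervalIntegrable (by fun_prop) _ _)]
    congr 1
    ext r
    ring
  rw [hXl]
  have hc : 0 ≤ om ^ 3 * lam * chi R1 p :=
    mul_nonneg (mul_nonneg (by positivity) hg.lam_pos.le) chi_nonneg
  have hX : 0 ≤ om * p.X R1 := mul_nonneg hom.le (X_nonneg hs hy.en)
  rw [mul_add]
  nlinarith

theorem StY_Xl_nonneg {L : ℝ} (hL : 0 ≤ L) : 0 ≤ p.Xl L := by
  unfold Pre.Xl
  apply intervalIntegral.integral_nonneg hL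
  intro r hr
  exact mul_nonneg hr.1 (by positivity)

theorem st_Y (hs : IsSlice R1 p) (hy : Hyp R1 p om) {L' : ℝ} (hL' : |L'| ≤ (102 / 100) * ep1) :
    p.dX R1 + 2 * p.dD R1 + (1 / 2) * p.dM R1 (ep1 / om) L' ≤
      9 * 10 ^ 13 * om ^ 5 * p.N R1 := by
  obtain ⟨lam, hg⟩ := exists_geo hs hy
  have hom := StY_om_pos hy
  have h1 := XD_le hs hy hg
  have h2 := M_le hs hy hg hL'
  have hXl : 0 ≤ p.Xl (ep1 / om) := StY_Xl_nonneg (L_pos hy).le
  have hep : om / (8 * ep1) = 1250 * om := by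
    unfold ep1
    field_simp
    ring
  rw [hep] at h2
  have hX := X_nonneg hs hy.en
  have hN := hy.Npos
  have hlc : lam * chi R1 p ≤ 4 * Gam * om ^ 2 * p.N R1 := by
    have hG : 0 ≤ Gam := by unfold Gam; positivity
    have hr : 0 ≤ 4 * Gam * om ^ 2 * p.N R1 := by positivity
    apply le_of_sq_le_sq _ hr
    have e1 : (lam * chi R1 p) ^ 2 = lam ^ 2 * p.X R1 := by
      rw [mul_pow, chi_sq hs hy]
    rw [e1]
    have e2 : lam ^ 2 ≤ 16 * p.N R1 := by linarith [hg.N_lo]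
    calc lam ^ 2 * p.X R1 ≤ (16 * p.N R1) * (Gam ^ 2 * om ^ 4 * p.N R1) :=
          mul_le_mul e2 hy.hX hX (by positivity)
      _ = (4 * Gam * om ^ 2 * p.N R1) ^ 2 := by ring
  have h3 : om ^ 3 * lam * chi R1 p ≤ 4 * Gam * (om ^ 5 * p.N R1) := by
    calc om ^ 3 * lam * chi R1 p = om ^ 3 * (lam * chi R1 p) := by ring
      _ ≤ om ^ 3 * (4 * Gam * om ^ 2 * p.N R1) := mul_le_mul_of_nonneg_left hlc (by positivity)
      _ = 4 * Gam * (om ^ 5 * p.N R1) := by ring
  have h4 : om * p.X R1 ≤ Gam ^ 2 * (om ^ 5 * p.N R1) := by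
    calc om * p.X R1 ≤ om * (Gam ^ 2 * om ^ 4 * p.N R1) := mul_le_mul_of_nonneg_left hy.hX hom.le
      _ = _ := by ring
  have h5 : 0 ≤ om * p.Xl (ep1 / om) := mul_nonneg hom.le hXl
  have h6 : 0 ≤ om ^ 5 * p.N R1 := by positivity
  have hGam : Gam = 13 * 10 ^ 6 := rfl
  rw [hGam] at h3 h4
  nlinarith

end H72GS

end S_StY

section S_StDM

/-!
# StDM: size of the correction terms, and the derivative of `Ey`

* `2 |D| ≤ 2 ∫ |w| μ |s| g²`: `[0,L]`: `8.01 ∫ r |w1||s| (32 om² s² + 2(250 Lam)²)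
  ≤ 160 om² lam chi`; `[L,R1]`: `8.01·900 eps Lam ∫ r |w1||g| ≤ tiny`.
  `(1/2)|M| ≤ (1/2) ∫ r |wt|(|wr| + |w1|/2) ≤ 0.295 X`.  Then `om² lam chi ≤ 4 Gam om⁴ N`.
* `dEy`: `|s g| ≤ 5 om`, `∫ r y² ≤ eps²`; `∫ r |yt| g² ≤ 5 om ‖yt‖ ‖g‖ ≤ 5 om √(2 om) eps`,
  `∫ r |yt| w² ≤ chi ‖yt‖ ‖w‖`; `√om ≤ om/10³⁰`.
-/

namespace H72GS

open Set MeasureTheory intervalIntegral

variable {R1 : ℝ} {p : Pre} {om lam : ℝ}

/-- bound for an integral by the integral of a continuous majorant -/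
private lemma StDM_abs {f g : ℝ → ℝ} {a b : ℝ} (hab : a ≤ b) (hg : Continuous g)
    (h : ∀ r ∈ Ioc a b, |f r| ≤ g r) : |∫ r in a..b, f r| ≤ ∫ r in a..b, g r := by
  have := intervalIntegral.norm_integral_le_of_norm_le (f := f) (g := g) (μ := volume) hab
    (Filter.Eventually.of_forall (fun r hr => by rw [Real.norm_eq_abs]; exact h r hr))
    (hg.intervalIntegrable _ _)
  rwa [Real.norm_eq_abs] at this

private lemma StDM_L (hs : IsSlice R1 p) (hy : Hyp R1 p om) :
    0 < ep1 / om ∧ ep1 / om ≤ R1 := by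
  have h1 := L_pos hy
  have h2 := L_le hs hy
  have := hs.R1pos
  exact ⟨h1, by linarith⟩

private lemma StDM_M (hs : IsSlice R1 p) (hy : Hyp R1 p om) :
    |p.M R1 (ep1 / om)| ≤ (59 / 100) * p.X R1 := by
  obtain ⟨hL, hLR⟩ := StDM_L hs hy
  refine le_trans ?_ (X_wtprod hs hy.en)
  unfold Pre.M
  refine StDM_abs hs.R1pos.le ?_ ?_
  · have := hs.cwt; have := hs.cwr; have := hs.cw1
    fun_prop
  · intro r hr
    have hr0 : 0 < r := hr.1
    have hD : 0 < r + ep1 / om := by linarith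
    have hz0 : 0 ≤ r / (r + ep1 / om) := by positivity
    have hz1 : r / (r + ep1 / om) ≤ 1 := by
      rw [div_le_one hD]; linarith
    have e : p.wt r * (r ^ 2 / (r + ep1 / om) * p.wr r + r / (2 * (r + ep1 / om)) * p.w r) =
        (r / (r + ep1 / om)) * (r * (p.wt r * (p.wr r + (1 / 2) * p.w1 r))) := by
      rw [hs.hw1 r]
      field_simp
    rw [e, abs_mul, abs_mul, abs_mul, abs_of_nonneg hz0, abs_of_pos hr0]
    have h1 : |p.wr r + 1 / 2 * p.w1 r| ≤ |p.wr r| + (1 / 2) * |p.w1 r| := by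
      refine (abs_add_le _ _).trans ?_
      rw [abs_mul, abs_of_pos (by norm_num : (0 : ℝ) < 1 / 2)]
    have h2 : r * (|p.wt r| * |p.wr r + 1 / 2 * p.w1 r|) ≤
        r * (|p.wt r| * (|p.wr r| + 1 / 2 * |p.w1 r|)) := by gcongr
    have h3 : 0 ≤ r * (|p.wt r| * |p.wr r + 1 / 2 * p.w1 r|) := by positivity
    calc r / (r + ep1 / om) * (r * (|p.wt r| * |p.wr r + 1 / 2 * p.w1 r|))
        ≤ 1 * (r * (|p.wt r| * |p.wr r + 1 / 2 * p.w1 r|)) := by gcongr
      _ ≤ _ := by rw [one_mul]; exact h2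

private lemma StDM_mu (hs : IsSlice R1 p) (hy : Hyp R1 p om) {r : ℝ} (hr : r ∈ Icc 0 R1) :
    |4 + p.a r| ≤ 4001 / 1000 := by
  have h := a_abs hs hy.en r hr
  rw [abs_le] at h ⊢
  constructor <;> linarith [h.1, h.2]

private lemma StDM_D (hs : IsSlice R1 p) (hy : Hyp R1 p om) (hg : Geo R1 p om lam) :
    |p.D R1| ≤ 83 * (om ^ 2 * lam * chi R1 p) := by
  obtain ⟨hL, hLR⟩ := StDM_L hs hy
  set L : ℝ := ep1 / om with hLdef
  have hom := hy.hom
  have hom0 : 0 < om := lt_of_lt_of_le (by norm_num) hom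
  have hlam := hg.lam_pos
  have hchi : 0 ≤ chi R1 p := chi_nonneg
  have hLam0 : 0 ≤ Lam R1 p om lam := by unfold Lam; positivity
  have hLs := Lam_small hs hy hg
  have hLl := Lam_le hs hy hg
  have cF : Continuous (fun r => p.w r * (4 + p.a r) * Real.sin (p.f r) * p.g r ^ 2) := by
    have := hs.cw; have := hs.ca; have := hs.cf; have := hs.cg
    fun_prop
  have cw1 := hs.cw1
  have cg := hs.cg
  have csf : Continuous (fun r => Real.sin (p.f r)) := Real.continuous_sin.comp hs.cf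
  obtain ⟨-, -, hX3⟩ := X_parts hs hy.en
  obtain ⟨hgE, -, -, -⟩ := En_parts hs hy.en
  have hXsq := chi_sq hs hy
  have hw1L : ∫ r in (0 : ℝ)..L, r * p.w1 r ^ 2 ≤ p.X R1 / 8 := by
    refine le_trans (int_mono_set (a := 0) (b := R1) le_rfl hL.le hLR ?_ ?_) hX3
    · exact Continuous.continuousOn (by fun_prop)
    · intro x hx; have := hx.1; positivity
  have hw1R : ∫ r in L..R1, r * p.w1 r ^ 2 ≤ p.X R1 / 8 := by
    refine le_trans (int_mono_set (a := 0) (b := R1) hL.le hLR le_rfl ?_ ?_) hX3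
    · exact Continuous.continuousOn (by fun_prop)
    · intro x hx; have := hx.1; positivity
  have hgR : ∫ r in L..R1, r * p.g r ^ 2 ≤ eps ^ 2 := by
    refine le_trans (int_mono_set (a := 0) (b := R1) hL.le hLR le_rfl ?_ ?_) hgE
    · exact Continuous.continuousOn (by fun_prop)
    · intro x hx; have := hx.1; positivity
  -- near part
  have near : |∫ r in (0 : ℝ)..L, p.w r * (4 + p.a r) * Real.sin (p.f r) * p.g r ^ 2| ≤
      82 * (om ^ 2 * lam * chi R1 p) := by
    have h1 : |∫ r in (0 : ℝ)..L, p.w r * (4 + p.a r) * Real.sin (p.f r) * p.g r ^ 2| ≤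
        ∫ r in (0 : ℝ)..L, (4001 / 1000 * (33 * om ^ 2)) * (r * (|p.w1 r| * |Real.sin (p.f r)|)) := by
      refine StDM_abs hL.le (by fun_prop) ?_
      intro r hr
      have hr0 : 0 < r := hr.1
      have hmu := StDM_mu hs hy (r := r) ⟨hr0.le, hr.2.trans hLR⟩
      have hgn := g_near hs hy hg r ⟨hr0.le, hr.2⟩
      have hs1 : |Real.sin (p.f r)| ≤ 1 := Real.abs_sin_le_one _
      have hs0 := abs_nonneg (Real.sin (p.f r))
      have hg2 : p.g r ^ 2 ≤ 33 * om ^ 2 := by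
        have h3 : |p.g r| ≤ 4 * om + 250 * (om / 10 ^ 14) := by
          refine hgn.trans ?_
          have : 4 * om * |Real.sin (p.f r)| ≤ 4 * om * 1 := by gcongr
          linarith
        have h4 : |p.g r| ≤ (41 / 10) * om := by
          refine h3.trans ?_
          linarith
        have h5 := pow_le_pow_left₀ (abs_nonneg _) h4 2
        rw [sq_abs] at h5
        nlinarith [sq_nonneg om]
      rw [hs.hw1 r, abs_mul, abs_mul, abs_mul, abs_mul, abs_of_pos hr0,
        abs_of_nonneg (sq_nonneg (p.g r))]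
      calc r * |p.w1 r| * |4 + p.a r| * |Real.sin (p.f r)| * p.g r ^ 2
          ≤ r * |p.w1 r| * (4001 / 1000) * |Real.sin (p.f r)| * (33 * om ^ 2) := by gcongr
        _ = _ := by ring
    refine h1.trans ?_
    rw [intervalIntegral.integral_const_mul]
    have h2 := csr (a := 0) (b := L) le_rfl hL.le (u := p.w1) (v := fun r => Real.sin (p.f r))
      cw1.continuousOn csf.continuousOn
    have h3 := I_sin2 hs hy hg
    have h4 : Real.sqrt (∫ r in (0 : ℝ)..L, r * p.w1 r ^ 2) *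
        Real.sqrt (∫ r in (0 : ℝ)..L, r * Real.sin (p.f r) ^ 2) ≤ (31 / 50) * (lam * chi R1 p) := by
      have hX0 : 0 ≤ p.X R1 := X_nonneg hs hy.en
      calc _ ≤ Real.sqrt (p.X R1 / 8) * Real.sqrt (3 * lam ^ 2) :=
            mul_le_mul (Real.sqrt_le_sqrt hw1L) (Real.sqrt_le_sqrt h3) (Real.sqrt_nonneg _)
              (Real.sqrt_nonneg _)
        _ = Real.sqrt (p.X R1 / 8 * (3 * lam ^ 2)) := (Real.sqrt_mul (by positivity) _).symm
        _ ≤ Real.sqrt (((31 / 50) * (lam * chi R1 p)) ^ 2) := by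
            apply Real.sqrt_le_sqrt
            rw [mul_pow, mul_pow, hXsq]
            nlinarith [mul_nonneg hX0 (sq_nonneg lam)]
        _ = _ := Real.sqrt_sq (by positivity)
    have h5 : ∫ r in (0 : ℝ)..L, r * (|p.w1 r| * |Real.sin (p.f r)|) ≤
        (31 / 50) * (lam * chi R1 p) := h2.trans h4
    calc 4001 / 1000 * (33 * om ^ 2) * ∫ r in (0 : ℝ)..L, r * (|p.w1 r| * |Real.sin (p.f r)|)
        ≤ 4001 / 1000 * (33 * om ^ 2) * ((31 / 50) * (lam * chi R1 p)) := by gcongr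
      _ = (4001 / 1000 * 33 * (31 / 50)) * (om ^ 2 * lam * chi R1 p) := by ring
      _ ≤ 82 * (om ^ 2 * lam * chi R1 p) :=
          mul_le_mul_of_nonneg_right (by norm_num) (by positivity)
  -- far part
  have far : |∫ r in L..R1, p.w r * (4 + p.a r) * Real.sin (p.f r) * p.g r ^ 2| ≤
      1 * (om ^ 2 * lam * chi R1 p) := by
    have heps : (0 : ℝ) < eps := by unfold eps; norm_num
    have h1 : |∫ r in L..R1, p.w r * (4 + p.a r) * Real.sin (p.f r) * p.g r ^ 2| ≤
        ∫ r in L..R1, (4001 / 1000 * (900 * eps * Lam R1 p om lam)) *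
          (r * (|p.w1 r| * |p.g r|)) := by
      refine StDM_abs hLR (by fun_prop) ?_
      intro r hr
      have hr0 : 0 < r := hL.trans hr.1
      have hmu := StDM_mu hs hy (r := r) ⟨hr0.le, hr.2⟩
      have hsg := sg_far hs hy hg r ⟨hr.1.le, hr.2⟩
      have e : p.w r * (4 + p.a r) * Real.sin (p.f r) * p.g r ^ 2 =
          r * p.w1 r * (4 + p.a r) * (Real.sin (p.f r) * p.g r) * p.g r := by
        rw [hs.hw1 r]; ring
      rw [e, abs_mul, abs_mul, abs_mul, abs_mul, abs_mul, abs_of_pos hr0]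
      calc r * |p.w1 r| * |4 + p.a r| * (|Real.sin (p.f r)| * |p.g r|) * |p.g r|
          ≤ r * |p.w1 r| * (4001 / 1000) * (900 * eps * Lam R1 p om lam) * |p.g r| := by gcongr
        _ = _ := by ring
    refine h1.trans ?_
    rw [intervalIntegral.integral_const_mul]
    have h2 := csr (a := L) (b := R1) hL.le hLR (u := p.w1) (v := p.g)
      cw1.continuousOn cg.continuousOn
    have h4 : Real.sqrt (∫ r in L..R1, r * p.w1 r ^ 2) * Real.sqrt (∫ r in L..R1, r * p.g r ^ 2)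
        ≤ chi R1 p * eps := by
      have hX0 : 0 ≤ p.X R1 := X_nonneg hs hy.en
      calc _ ≤ Real.sqrt (p.X R1) * Real.sqrt (eps ^ 2) :=
            mul_le_mul (Real.sqrt_le_sqrt (by linarith)) (Real.sqrt_le_sqrt hgR)
              (Real.sqrt_nonneg _) (Real.sqrt_nonneg _)
        _ = chi R1 p * eps := by rw [Real.sqrt_sq heps.le]; rfl
    have h5 := h2.trans h4
    calc 4001 / 1000 * (900 * eps * Lam R1 p om lam) * ∫ r in L..R1, r * (|p.w1 r| * |p.g r|)
        ≤ 4001 / 1000 * (900 * eps * (4 * 10 ^ 7 * om ^ 2 * lam)) * (chi R1 p * eps) := by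
          refine mul_le_mul (by gcongr) h5 ?_ (by positivity)
          refine intervalIntegral.integral_nonneg hLR (fun r hr => ?_)
          have : 0 ≤ r := hL.le.trans hr.1
          positivity
      _ = (4001 / 1000 * 900 * (4 * 10 ^ 7) * eps ^ 2) * (om ^ 2 * lam * chi R1 p) := by ring
      _ ≤ 1 * (om ^ 2 * lam * chi R1 p) :=
          mul_le_mul_of_nonneg_right (by unfold eps; norm_num) (by positivity)
  unfold Pre.D
  rw [← intervalIntegral.integral_add_adjacent_intervals (cF.intervalIntegrable 0 L)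
    (cF.intervalIntegrable L R1)]
  refine (abs_add_le _ _).trans ?_
  linarith

private lemma StDM_lamchi (hs : IsSlice R1 p) (hy : Hyp R1 p om) (hg : Geo R1 p om lam) :
    lam * chi R1 p ≤ 4 * Gam * om ^ 2 * p.N R1 := by
  have hX := hy.hX
  have hXsq := chi_sq hs hy
  have hN := hy.Npos
  have hlam := hg.lam_pos
  have hG : (0 : ℝ) < Gam := by unfold Gam; norm_num
  have hom0 : 0 < om := lt_of_lt_of_le (by norm_num) hy.hom
  have hNlo := hg.N_lo
  have h0 : 0 ≤ 4 * Gam * om ^ 2 * p.N R1 := by positivity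
  refine abs_le_of_sq_le_sq' ?_ h0 |>.2
  have h1 : lam ^ 2 ≤ 16 * p.N R1 := by linarith
  calc (lam * chi R1 p) ^ 2 = lam ^ 2 * p.X R1 := by rw [mul_pow, hXsq]
    _ ≤ (16 * p.N R1) * (Gam ^ 2 * om ^ 4 * p.N R1) := by
        apply mul_le_mul h1 hX (X_nonneg hs hy.en) (by positivity)
    _ = (4 * Gam * om ^ 2 * p.N R1) ^ 2 := by ring

theorem st_DM (hs : IsSlice R1 p) (hy : Hyp R1 p om) :
    |2 * p.D R1 + (1 / 2) * p.M R1 (ep1 / om)| ≤
      (3 / 10) * p.X R1 + 10 ^ 10 * om ^ 4 * p.N R1 := by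
  obtain ⟨lam, hg⟩ := exists_geo hs hy
  have h1 := StDM_M hs hy
  have h2 := StDM_D hs hy hg
  have h3 := StDM_lamchi hs hy hg
  have hN := hy.Npos
  have hX0 : 0 ≤ p.X R1 := X_nonneg hs hy.en
  have hom0 : 0 < om := lt_of_lt_of_le (by norm_num) hy.hom
  have h4 : om ^ 2 * lam * chi R1 p ≤ 4 * Gam * (om ^ 4 * p.N R1) := by
    calc om ^ 2 * lam * chi R1 p = om ^ 2 * (lam * chi R1 p) := by ring
      _ ≤ om ^ 2 * (4 * Gam * om ^ 2 * p.N R1) := by gcongr
      _ = _ := by ring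
  have h5 : 0 ≤ om ^ 4 * p.N R1 := by positivity
  have h6 : 166 * (4 * Gam * (om ^ 4 * p.N R1)) ≤ 10 ^ 10 * (om ^ 4 * p.N R1) := by
    unfold Gam
    nlinarith
  calc |2 * p.D R1 + (1 / 2) * p.M R1 (ep1 / om)|
      ≤ |2 * p.D R1| + |(1 / 2) * p.M R1 (ep1 / om)| := abs_add_le _ _
    _ = 2 * |p.D R1| + (1 / 2) * |p.M R1 (ep1 / om)| := by
        rw [abs_mul, abs_mul, abs_of_pos (by norm_num : (0 : ℝ) < 2),
          abs_of_pos (by norm_num : (0 : ℝ) < 1 / 2)]
    _ ≤ _ := by linarith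

theorem st_Ey (hs : IsSlice R1 p) (hy : Hyp R1 p om) : p.dEy R1 ≤ om ^ 2 / 100 := by
  obtain ⟨lam, hg⟩ := exists_geo hs hy
  have hom := hy.hom
  have hom0 : 0 < om := lt_of_lt_of_le (by norm_num) hom
  have hlam := hg.lam_pos
  have heps : (0 : ℝ) < eps := by unfold eps; norm_num
  have cg := hs.cg
  have cyt := hs.cyt
  have cw := hs.cw
  have cy := hs.cy
  have cf := hs.cf
  obtain ⟨hgE, hwE, hyE, -⟩ := En_parts hs hy.en
  have hyt := yt_L2 hs hy
  have hR := hs.R1pos.le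
  have hsq : Real.sqrt (2 * om) ≤ om := by
    rw [Real.sqrt_le_left hom0.le]
    nlinarith
  have hchi : chi R1 p ≤ om := by
    refine (chi_le hs hy hg).trans ?_
    have hb := hg.b_le
    have : 3 * 10 ^ 7 * om ^ 2 * lam = 3 * 10 ^ 7 * om * (om * lam) := by ring
    rw [this]
    calc 3 * 10 ^ 7 * om * (om * lam) ≤ 3 * 10 ^ 7 * om * eps := by gcongr
      _ = (3 * 10 ^ 7 * eps) * om := by ring
      _ ≤ 1 * om := mul_le_mul_of_nonneg_right (by unfold eps; norm_num) hom0.le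
      _ = om := one_mul _
  have h1 : ∫ r in (0 : ℝ)..R1, r * (|p.yt r| * |p.g r|) ≤ om * eps := by
    refine (csr (a := 0) (b := R1) le_rfl hR cyt.continuousOn cg.continuousOn).trans ?_
    calc _ ≤ Real.sqrt (2 * om) * Real.sqrt (eps ^ 2) :=
          mul_le_mul (Real.sqrt_le_sqrt hyt) (Real.sqrt_le_sqrt hgE) (Real.sqrt_nonneg _)
            (Real.sqrt_nonneg _)
      _ ≤ om * eps := by rw [Real.sqrt_sq heps.le]; gcongr
  have h2 : ∫ r in (0 : ℝ)..R1, r * (|p.yt r| * |p.w r|) ≤ om * eps := by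
    refine (csr (a := 0) (b := R1) le_rfl hR cyt.continuousOn cw.continuousOn).trans ?_
    calc _ ≤ Real.sqrt (2 * om) * Real.sqrt (eps ^ 2) :=
          mul_le_mul (Real.sqrt_le_sqrt hyt) (Real.sqrt_le_sqrt hwE) (Real.sqrt_nonneg _)
            (Real.sqrt_nonneg _)
      _ ≤ om * eps := by rw [Real.sqrt_sq heps.le]; gcongr
  have hmain : |p.dEy R1| ≤ ∫ r in (0 : ℝ)..R1, (5 * om * (r * p.y r ^ 2) +
      5 * om * (r * (|p.yt r| * |p.g r|)) + om * (r * (|p.yt r| * |p.w r|))) := by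
    unfold Pre.dEy
    refine StDM_abs hR (by fun_prop) ?_
    intro r hr
    have hr0 : 0 < r := hr.1
    have hrI : r ∈ Icc 0 R1 := ⟨hr0.le, hr.2⟩
    have hga := g_all hs hy hg r hrI
    have hwa : |p.w r| ≤ om := (w_abs hs hy.en r hrI).trans hchi
    have hs1 : |Real.sin (p.f r)| ≤ 1 := Real.abs_sin_le_one _
    have hc1 : |Real.cos (p.f r)| ≤ 1 := Real.abs_cos_le_one _
    have t1 : |r * Real.sin (p.f r) * Real.cos (p.f r) * p.g r * p.y r ^ 2| ≤
        5 * om * (r * p.y r ^ 2) := by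
      rw [abs_mul, abs_mul, abs_mul, abs_mul, abs_of_pos hr0, abs_of_nonneg (sq_nonneg (p.y r))]
      calc r * |Real.sin (p.f r)| * |Real.cos (p.f r)| * |p.g r| * p.y r ^ 2
          ≤ r * 1 * 1 * (5 * om) * p.y r ^ 2 := by gcongr
        _ = _ := by ring
    have t2 : |r * p.yt r * Real.cos (p.f r) * (p.g r ^ 2 - p.w r ^ 2)| ≤
        5 * om * (r * (|p.yt r| * |p.g r|)) + om * (r * (|p.yt r| * |p.w r|)) := by
      rw [abs_mul, abs_mul, abs_mul, abs_of_pos hr0]
      have e3 : |p.g r ^ 2 - p.w r ^ 2| ≤ 5 * om * |p.g r| + om * |p.w r| := by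
        refine (abs_sub _ _).trans ?_
        rw [abs_of_nonneg (sq_nonneg (p.g r)), abs_of_nonneg (sq_nonneg (p.w r)),
          ← sq_abs (p.g r), ← sq_abs (p.w r), sq, sq]
        gcongr
      calc r * |p.yt r| * |Real.cos (p.f r)| * |p.g r ^ 2 - p.w r ^ 2|
          ≤ r * |p.yt r| * 1 * (5 * om * |p.g r| + om * |p.w r|) := by gcongr
        _ = _ := by ring
    refine (abs_add_le _ _).trans ?_
    linarith
  have hsplit : ∫ r in (0 : ℝ)..R1, (5 * om * (r * p.y r ^ 2) +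
      5 * om * (r * (|p.yt r| * |p.g r|)) + om * (r * (|p.yt r| * |p.w r|))) =
      5 * om * (∫ r in (0 : ℝ)..R1, r * p.y r ^ 2) +
      5 * om * (∫ r in (0 : ℝ)..R1, r * (|p.yt r| * |p.g r|)) +
      om * (∫ r in (0 : ℝ)..R1, r * (|p.yt r| * |p.w r|)) := by
    rw [intervalIntegral.integral_add, intervalIntegral.integral_add,
      intervalIntegral.integral_const_mul, intervalIntegral.integral_const_mul,
      intervalIntegral.integral_const_mul]
    · exact Continuous.intervalIntegrable (by fun_prop) _ _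
    · exact Continuous.intervalIntegrable (by fun_prop) _ _
    · exact Continuous.intervalIntegrable (by fun_prop) _ _
    · exact Continuous.intervalIntegrable (by fun_prop) _ _
  rw [hsplit] at hmain
  have hfin : 5 * om * (∫ r in (0 : ℝ)..R1, r * p.y r ^ 2) +
      5 * om * (∫ r in (0 : ℝ)..R1, r * (|p.yt r| * |p.g r|)) +
      om * (∫ r in (0 : ℝ)..R1, r * (|p.yt r| * |p.w r|)) ≤
      5 * om * eps ^ 2 + 5 * om * (om * eps) + om * (om * eps) := by gcongr
  refine (le_abs_self _).trans (hmain.trans (hfin.trans ?_))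
  have hom1 : 1 ≤ om := le_trans (by norm_num) hom
  have h7 : 5 * om * eps ^ 2 ≤ om ^ 2 / 1000 := by
    unfold eps
    nlinarith
  have h8 : 5 * om * (om * eps) + om * (om * eps) = (6 * eps) * om ^ 2 := by ring
  have h9 : (6 * eps) * om ^ 2 ≤ (1 / 1000) * om ^ 2 :=
    mul_le_mul_of_nonneg_right (by unfold eps; norm_num) (sq_nonneg om)
  nlinarith [sq_nonneg om]

end H72GS

end S_StDM

section S_StOde

/-!
# StOde: the law `om' = om² (1 + small)`

With `c = cos f, s = sin f`, `eta = g + 4 om s`, `C0 = ∫ r Th s c`, `Th c - Thd s = Xi`: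
* `dN = ∫ r g (2 Th c - Xi) = -8 om C0 + 4 om ∫ r s Xi + ∫ r eta (2 Th c - Xi)`;
* `dP + 4 om dN = -16 om² C0 + 4 om ∫ r Xi eta + ∫ r Thd (eta² - w²) - ∫ μ w Xi - ∫ r y s Th`
  (insert `g = -4 om s + eta`: the coefficient of `om eta` is
  `-8 s Thd + 4 (2 Th c - Xi) = 4 Xi`, the coefficient of `om²` is
  `16 s² Thd - 16 s (2 Th c - Xi) = -16 Th s c`).
* `C0_rel`: `∫ r μ s Th c = N - ∫ r JJ(f) + ∫ r² w Th c` (FTC for `r² (Th s - JJ)(f)`, whose
  `r`-derivative is `2 r (Th s - JJ) + 2 r² Th c f'`, `r f' = r w - μ s`).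
* sizes, on the support `r ≤ 2·10⁶ lam` (`supp`; all of `Th, Thd, Xi, JJ` vanish beyond):
  `∫ r |JJ| ≤ 100 qq (2·10⁶ lam)²/2`, `∫ r² |w||Th| ≤ chi (2·10⁶ lam)³/3`,
  `|∫ r a s Th c| ≤ N/10⁵`, `|Xi| ≤ 16·10⁻¹⁸`, `∫ μ |w||Xi| ≤ 4.01·16·10⁻¹⁸·2·10⁶ lam chi
  ≤ 1.3·10⁻¹⁰ lam chi`, `lam chi ≤ 4 Gam om² N`; `∫ r |Thd|(eta² + w²) ≤ 9·(250² + 1) Lam²·2·10¹² lam²`;
  `∫ r |y||s||Th| ≤ eps (3 lam²)^{1/2}`; `lam² ≤ 16 N`.
* `om' = -(dP + 4 om dN)/(4 N)`.
-/

namespace H72GS

open Set MeasureTheory intervalIntegral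

variable {R1 : ℝ} {p : Pre} {om lam : ℝ}

theorem StOde_id1 (R1 om : ℝ) {g s c T X : ℝ → ℝ} (hg : Continuous g) (hs : Continuous s)
    (hc : Continuous c) (hT : Continuous T) (hX : Continuous X) :
    ∫ r in (0 : ℝ)..R1, r * g r * (2 * T r * c r - X r) =
      -8 * om * (∫ r in (0 : ℝ)..R1, r * s r * T r * c r)
      + 4 * om * (∫ r in (0 : ℝ)..R1, r * (X r * s r))
      + (∫ r in (0 : ℝ)..R1, r * (g r + 4 * om * s r) * (2 * T r * c r))
      - ∫ r in (0 : ℝ)..R1, r * X r * (g r + 4 * om * s r) := by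
  have h : (fun r => r * g r * (2 * T r * c r - X r)) = fun r =>
      ((-8 * om) * (r * s r * T r * c r) + (4 * om) * (r * (X r * s r))
      + r * (g r + 4 * om * s r) * (2 * T r * c r)) - r * X r * (g r + 4 * om * s r) := by
    funext r
    ring
  rw [h, intervalIntegral.integral_sub, intervalIntegral.integral_add,
    intervalIntegral.integral_add, intervalIntegral.integral_const_mul,
    intervalIntegral.integral_const_mul]
  all_goals exact Continuous.intervalIntegrable (by fun_prop) _ _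

theorem StOde_id2 (R1 om : ℝ) {g s c T Td X w y a : ℝ → ℝ} (hg : Continuous g)
    (hs : Continuous s) (hc : Continuous c) (hT : Continuous T) (hTd : Continuous Td)
    (hX : Continuous X) (hw : Continuous w) (hy : Continuous y) (ha : Continuous a)
    (h : ∀ r, T r * c r - Td r * s r = X r) :
    (∫ r in (0 : ℝ)..R1, (r * Td r * (g r ^ 2 - w r ^ 2) - (4 + a r) * w r * X r
        - r * y r * s r * T r))
      + 4 * om * (∫ r in (0 : ℝ)..R1, r * g r * (2 * T r * c r - X r)) =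
      -16 * om ^ 2 * (∫ r in (0 : ℝ)..R1, r * s r * T r * c r)
      + 4 * om * (∫ r in (0 : ℝ)..R1, r * X r * (g r + 4 * om * s r))
      + (∫ r in (0 : ℝ)..R1, r * Td r * ((g r + 4 * om * s r) ^ 2 - w r ^ 2))
      - (∫ r in (0 : ℝ)..R1, (4 + a r) * w r * X r)
      - ∫ r in (0 : ℝ)..R1, r * y r * s r * T r := by
  rw [← intervalIntegral.integral_const_mul, ← intervalIntegral.integral_const_mul,
    ← intervalIntegral.integral_const_mul, ← intervalIntegral.integral_add,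
    ← intervalIntegral.integral_add, ← intervalIntegral.integral_add,
    ← intervalIntegral.integral_sub, ← intervalIntegral.integral_sub]
  · congr 1
    funext r
    rw [← h r]
    ring
  all_goals exact Continuous.intervalIntegrable (by fun_prop) _ _

theorem StOde_mono {F G : ℝ → ℝ} {a b : ℝ} (hab : a ≤ b) (hF : Continuous F)
    (hG : Continuous G) (h : ∀ r ∈ Icc a b, |F r| ≤ G r) :
    |∫ r in a..b, F r| ≤ ∫ r in a..b, G r := by
  refine (abs_integral_le_integral_abs hab).trans ?_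
  exact integral_mono_on hab (hF.abs.intervalIntegrable _ _) (hG.intervalIntegrable _ _) h

theorem StOde_supp0 {F : ℝ → ℝ} {rho R1 : ℝ} (hF : Continuous F)
    (hR : rho ≤ R1) (h2 : ∀ r ∈ Icc rho R1, F r = 0) :
    ∫ r in (0 : ℝ)..R1, F r = ∫ r in (0 : ℝ)..rho, F r := by
  rw [← integral_add_adjacent_intervals (hF.intervalIntegrable 0 rho)
    (hF.intervalIntegrable rho R1)]
  have : ∫ r in rho..R1, F r = ∫ _ in rho..R1, (0 : ℝ) :=
    integral_congr fun r hr => h2 r (by rwa [uIcc_of_le hR] at hr)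
  rw [this]
  simp

theorem StOde_supp1 {F : ℝ → ℝ} {rho R1 B : ℝ} (hF : Continuous F) (h0 : 0 ≤ rho)
    (hR : rho ≤ R1) (h1 : ∀ r ∈ Icc 0 rho, |F r| ≤ B * r)
    (h2 : ∀ r ∈ Icc rho R1, F r = 0) :
    |∫ r in (0 : ℝ)..R1, F r| ≤ B * (rho ^ 2 / 2) := by
  rw [StOde_supp0 hF hR h2]
  refine (StOde_mono h0 hF (by fun_prop) h1).trans (le_of_eq ?_)
  rw [intervalIntegral.integral_const_mul, integral_id]
  ring

theorem StOde_supp2 {F : ℝ → ℝ} {rho R1 B : ℝ} (hF : Continuous F) (h0 : 0 ≤ rho)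
    (hR : rho ≤ R1) (h1 : ∀ r ∈ Icc 0 rho, |F r| ≤ B)
    (h2 : ∀ r ∈ Icc rho R1, F r = 0) :
    |∫ r in (0 : ℝ)..R1, F r| ≤ B * rho := by
  rw [StOde_supp0 hF hR h2]
  refine (StOde_mono h0 hF continuous_const h1).trans (le_of_eq ?_)
  rw [intervalIntegral.integral_const, smul_eq_mul]
  ring

/-- everything needed on the support -/
theorem StOde_data (hs : IsSlice R1 p) (hy : Hyp R1 p om) (hg : Geo R1 p om lam) :
    0 ≤ 2 * 10 ^ 6 * lam ∧ 2 * 10 ^ 6 * lam ≤ R1 ∧ 0 < om ∧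
    (∀ r ∈ Icc (2 * 10 ^ 6 * lam) R1, 1 - qq ≤ Real.cos (p.f r)) ∧
    (∀ r ∈ Icc 0 (2 * 10 ^ 6 * lam), |eta p om r| ≤ om / 10 ^ 12) ∧
    (∀ r ∈ Icc 0 R1, |p.w r| ≤ om / 10 ^ 12) := by
  have hl := hg.lam_pos
  have hom : 0 < om := lt_of_lt_of_le (by positivity) hy.hom
  have h1 := lam_le_L hy hg
  have h2 := L_le hs hy
  have h3 := L_pos hy
  have hR := hs.R1pos
  have hρL : 2 * 10 ^ 6 * lam ≤ ep1 / om := by
    refine le_trans ?_ h1
    nlinarith
  have hρR : 2 * 10 ^ 6 * lam ≤ R1 := by linarith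
  have hb := hg.b_le
  have hb' : om ^ 2 * lam ≤ om * (1 / 10 ^ 22) := by
    have : om ^ 2 * lam = om * (om * lam) := by ring
    rw [this]
    exact mul_le_mul_of_nonneg_left hb hom.le
  refine ⟨by positivity, hρR, hom, fun r hr => ?_, fun r hr => ?_, fun r hr => ?_⟩
  · exact supp hs hy.en hl hg.lam_lt hg.f_lam r
      ⟨le_trans (by positivity) hr.1, hr.2⟩ hr.1
  · refine (eta_abs hs hy hg r ⟨hr.1, hr.2.trans hρL⟩).trans ?_
    have h4 := Lam_le hs hy hg
    calc 250 * Lam R1 p om lam ≤ 250 * (4 * 10 ^ 7 * (om ^ 2 * lam)) := by linarith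
      _ ≤ 250 * (4 * 10 ^ 7 * (om * (1 / 10 ^ 22))) := by gcongr
      _ = om / 10 ^ 12 := by ring
  · have h4 : |p.w r| ≤ chi R1 p := w_abs hs hy.en r hr
    have h5 := chi_le hs hy hg
    calc |p.w r| ≤ 3 * 10 ^ 7 * (om ^ 2 * lam) := by linarith
      _ ≤ 3 * 10 ^ 7 * (om * (1 / 10 ^ 22)) := by gcongr
      _ ≤ om / 10 ^ 12 := by
        have : 3 * 10 ^ 7 * (om * (1 / 10 ^ 22)) = om * (3 / 10 ^ 15) := by ring
        rw [this]
        have h6 : om / 10 ^ 12 = om * (1 / 10 ^ 12) := by ring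
        rw [h6]
        apply mul_le_mul_of_nonneg_left _ hom.le
        norm_num

theorem StOde_ceta (hs : IsSlice R1 p) : Continuous (fun r => eta p om r) :=
  hs.cg.add (continuous_const.mul (Real.continuous_sin.comp hs.cf))

/-- the term with `Xi η` -/
theorem StOde_t1 (hs : IsSlice R1 p) (hy : Hyp R1 p om) (hg : Geo R1 p om lam) :
    |∫ r in (0 : ℝ)..R1, r * Xi (p.f r) * eta p om r| ≤ om * lam ^ 2 / 10 ^ 10 := by
  obtain ⟨h0, hR, hom, h1, h2, h3⟩ := StOde_data hs hy hg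
  have hc : Continuous (fun r => r * Xi (p.f r) * eta p om r) :=
    (continuous_id.mul (continuous_Xi.comp hs.cf)).mul (StOde_ceta hs)
  refine (StOde_supp1 (B := 16 / 10 ^ 18 * (om / 10 ^ 12)) hc h0 hR (fun r hr => ?_)
    (fun r hr => ?_)).trans ?_
  · rw [abs_mul, abs_mul, abs_of_nonneg hr.1]
    have h4 := Xi_abs (p.f r)
    have h5 := h2 r hr
    calc r * |Xi (p.f r)| * |eta p om r| = r * (|Xi (p.f r)| * |eta p om r|) := by ring
      _ ≤ r * (16 / 10 ^ 18 * (om / 10 ^ 12)) := by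
        apply mul_le_mul_of_nonneg_left _ hr.1
        exact mul_le_mul h4 h5 (abs_nonneg _) (by positivity)
      _ = _ := by ring
  · rw [Xi_zero (h1 r hr)]
    ring
  · have : 16 / 10 ^ 18 * (om / 10 ^ 12) * ((2 * 10 ^ 6 * lam) ^ 2 / 2) =
        (om * lam ^ 2) * (32 / 10 ^ 18) := by ring
    rw [this]
    have h6 : om * lam ^ 2 / 10 ^ 10 = (om * lam ^ 2) * (1 / 10 ^ 10) := by ring
    rw [h6]
    apply mul_le_mul_of_nonneg_left _ (by positivity)
    norm_num

/-- the term with `s Xi` -/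
theorem StOde_t2 (hs : IsSlice R1 p) (hy : Hyp R1 p om) (hg : Geo R1 p om lam) :
    |∫ r in (0 : ℝ)..R1, r * (Xi (p.f r) * Real.sin (p.f r))| ≤ lam ^ 2 / 10 ^ 10 := by
  obtain ⟨h0, hR, hom, h1, h2, h3⟩ := StOde_data hs hy hg
  have hc : Continuous (fun r => r * (Xi (p.f r) * Real.sin (p.f r))) :=
    continuous_id.mul ((continuous_Xi.comp hs.cf).mul (Real.continuous_sin.comp hs.cf))
  refine (StOde_supp1 (B := 32 * qq) hc h0 hR (fun r hr => ?_) (fun r hr => ?_)).trans ?_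
  · rw [abs_mul, abs_of_nonneg hr.1, mul_comm]
    exact mul_le_mul_of_nonneg_right (Xi_sin_abs (p.f r)) hr.1
  · rw [Xi_zero (h1 r hr)]
    ring
  · have : 32 * qq * ((2 * 10 ^ 6 * lam) ^ 2 / 2) = lam ^ 2 * (64 / 10 ^ 24) := by
      rw [qq]
      ring
    rw [this]
    have h6 : lam ^ 2 / 10 ^ 10 = lam ^ 2 * (1 / 10 ^ 10) := by ring
    rw [h6]
    apply mul_le_mul_of_nonneg_left _ (by positivity)
    norm_num

/-- the term with `η Th cos` -/
theorem StOde_t3 (hs : IsSlice R1 p) (hy : Hyp R1 p om) (hg : Geo R1 p om lam) :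
    |∫ r in (0 : ℝ)..R1, r * eta p om r * (2 * Th (p.f r) * Real.cos (p.f r))| ≤
      om * lam ^ 2 / 10 ^ 10 := by
  obtain ⟨h0, hR, hom, h1, h2, h3⟩ := StOde_data hs hy hg
  have hc : Continuous (fun r => r * eta p om r * (2 * Th (p.f r) * Real.cos (p.f r))) :=
    (continuous_id.mul (StOde_ceta hs)).mul
      ((continuous_const.mul (continuous_Th.comp hs.cf)).mul (Real.continuous_cos.comp hs.cf))
  have hc2 : Continuous (fun r => (2 * (om / 10 ^ 12)) * (r * |Th (p.f r)|)) :=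
    continuous_const.mul (continuous_id.mul (continuous_Th.comp hs.cf).abs)
  have h4 := StOde_mono hs.R1pos.le hc hc2 (fun r hr => by
    by_cases h5 : r ≤ 2 * 10 ^ 6 * lam
    · have h6 := h2 r ⟨hr.1, h5⟩
      have h7 := Real.abs_cos_le_one (p.f r)
      rw [abs_mul, abs_mul, abs_mul, abs_mul, abs_of_nonneg hr.1, abs_two]
      have h8 : |eta p om r| * |Real.cos (p.f r)| ≤ (om / 10 ^ 12) * 1 :=
        mul_le_mul h6 h7 (abs_nonneg _) (by positivity)
      calc r * |eta p om r| * (2 * |Th (p.f r)| * |Real.cos (p.f r)|)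
          = (2 * (r * |Th (p.f r)|)) * (|eta p om r| * |Real.cos (p.f r)|) := by ring
        _ ≤ (2 * (r * |Th (p.f r)|)) * ((om / 10 ^ 12) * 1) := by
          apply mul_le_mul_of_nonneg_left h8
          have := hr.1
          positivity
        _ = _ := by ring
    · rw [Th_zero (h1 r ⟨(not_le.mp h5).le, hr.2⟩)]
      simp)
  refine h4.trans ?_
  rw [intervalIntegral.integral_const_mul]
  have h5 := Th_L1 hs hy.en hg.lam_pos hg.lam_lt hg.f_lam
  calc 2 * (om / 10 ^ 12) * (∫ r in (0 : ℝ)..R1, r * |Th (p.f r)|)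
      ≤ 2 * (om / 10 ^ 12) * (3 * lam ^ 2) := by
        apply mul_le_mul_of_nonneg_left h5
        positivity
    _ = (om * lam ^ 2) * (6 / 10 ^ 12) := by ring
    _ ≤ (om * lam ^ 2) * (1 / 10 ^ 10) := by
        apply mul_le_mul_of_nonneg_left _ (by positivity)
        norm_num
    _ = om * lam ^ 2 / 10 ^ 10 := by ring

/-- the term with `Thd` -/
theorem StOde_t4 (hs : IsSlice R1 p) (hy : Hyp R1 p om) (hg : Geo R1 p om lam) :
    |∫ r in (0 : ℝ)..R1, r * Thd (p.f r) * (eta p om r ^ 2 - p.w r ^ 2)| ≤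
      om ^ 2 * lam ^ 2 / 10 ^ 6 := by
  obtain ⟨h0, hR, hom, h1, h2, h3⟩ := StOde_data hs hy hg
  have hc : Continuous (fun r => r * Thd (p.f r) * (eta p om r ^ 2 - p.w r ^ 2)) :=
    (continuous_id.mul (continuous_Thd.comp hs.cf)).mul
      (((StOde_ceta hs).pow 2).sub (hs.cw.pow 2))
  refine (StOde_supp1 (B := 9 * (om / 10 ^ 12) ^ 2) hc h0 hR (fun r hr => ?_)
    (fun r hr => ?_)).trans ?_
  · rw [abs_mul, abs_mul, abs_of_nonneg hr.1]
    have h4 := Thd_abs (p.f r)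
    have h5 := h2 r hr
    have h6 := h3 r ⟨hr.1, hr.2.trans hR⟩
    have h7 : |eta p om r ^ 2 - p.w r ^ 2| ≤ (om / 10 ^ 12) ^ 2 := by
      have h8 : eta p om r ^ 2 ≤ (om / 10 ^ 12) ^ 2 := by
        rw [← sq_abs]
        exact pow_le_pow_left₀ (abs_nonneg _) h5 2
      have h9 : p.w r ^ 2 ≤ (om / 10 ^ 12) ^ 2 := by
        rw [← sq_abs]
        exact pow_le_pow_left₀ (abs_nonneg _) h6 2
      rw [abs_le]
      constructor <;> nlinarith [sq_nonneg (eta p om r), sq_nonneg (p.w r)]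
    calc r * |Thd (p.f r)| * |eta p om r ^ 2 - p.w r ^ 2|
        = r * (|Thd (p.f r)| * |eta p om r ^ 2 - p.w r ^ 2|) := by ring
      _ ≤ r * (9 * (om / 10 ^ 12) ^ 2) := by
        apply mul_le_mul_of_nonneg_left _ hr.1
        exact mul_le_mul h4 h7 (abs_nonneg _) (by norm_num)
      _ = _ := by ring
  · rw [Thd_zero (h1 r hr)]
    ring
  · have : 9 * (om / 10 ^ 12) ^ 2 * ((2 * 10 ^ 6 * lam) ^ 2 / 2) =
        (om ^ 2 * lam ^ 2) * (18 / 10 ^ 12) := by ring
    rw [this]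
    have h6 : om ^ 2 * lam ^ 2 / 10 ^ 6 = (om ^ 2 * lam ^ 2) * (1 / 10 ^ 6) := by ring
    rw [h6]
    apply mul_le_mul_of_nonneg_left _ (by positivity)
    norm_num

/-- `lam chi ≤ 4 Gam om² N` -/
theorem StOde_lamchi (hs : IsSlice R1 p) (hy : Hyp R1 p om) (hg : Geo R1 p om lam) :
    lam * chi R1 p ≤ 4 * Gam * om ^ 2 * p.N R1 := by
  have hom : 0 < om := lt_of_lt_of_le (by positivity) hy.hom
  have hN := hy.Npos
  have hG : (0 : ℝ) < Gam := by rw [Gam]; norm_num
  refine le_of_pow_le_pow_left₀ two_ne_zero (by positivity) ?_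
  have h1 := chi_sq hs hy
  have h2 := hy.hX
  have h3 := hg.N_lo
  have h4 : lam ^ 2 ≤ 16 * p.N R1 := by linarith
  have h5 : 0 ≤ p.X R1 := X_nonneg hs hy.en
  calc (lam * chi R1 p) ^ 2 = lam ^ 2 * p.X R1 := by rw [mul_pow, h1]
    _ ≤ (16 * p.N R1) * (Gam ^ 2 * om ^ 4 * p.N R1) :=
      mul_le_mul h4 h2 h5 (by positivity)
    _ = (4 * Gam * om ^ 2 * p.N R1) ^ 2 := by ring

/-- the term with `μ w Xi` -/
theorem StOde_t5 (hs : IsSlice R1 p) (hy : Hyp R1 p om) (hg : Geo R1 p om lam) :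
    |∫ r in (0 : ℝ)..R1, (4 + p.a r) * p.w r * Xi (p.f r)| ≤ om ^ 2 * p.N R1 / 100 := by
  obtain ⟨h0, hR, hom, h1, h2, h3⟩ := StOde_data hs hy hg
  have hc : Continuous (fun r => (4 + p.a r) * p.w r * Xi (p.f r)) :=
    ((continuous_const.add hs.ca).mul hs.cw).mul (continuous_Xi.comp hs.cf)
  have hchi : 0 ≤ chi R1 p := chi_nonneg
  refine (StOde_supp2 (B := 401 / 100 * chi R1 p * (16 / 10 ^ 18)) hc h0 hR (fun r hr => ?_)
    (fun r hr => ?_)).trans ?_
  · rw [abs_mul, abs_mul]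
    have hr' : r ∈ Icc 0 R1 := ⟨hr.1, hr.2.trans hR⟩
    have h4 := a_abs hs hy.en r hr'
    have h5 : |4 + p.a r| ≤ 401 / 100 := by
      rw [abs_le] at h4 ⊢
      constructor <;> linarith [h4.1, h4.2]
    have h6 : |p.w r| ≤ chi R1 p := w_abs hs hy.en r hr'
    exact mul_le_mul (mul_le_mul h5 h6 (abs_nonneg _) (by norm_num)) (Xi_abs _) (abs_nonneg _)
      (by positivity)
  · rw [Xi_zero (h1 r hr)]
    ring
  · have h7 := StOde_lamchi hs hy hg
    have hN := hy.Npos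
    calc 401 / 100 * chi R1 p * (16 / 10 ^ 18) * (2 * 10 ^ 6 * lam)
        = (12832 / 10 ^ 14) * (lam * chi R1 p) := by ring
      _ ≤ (12832 / 10 ^ 14) * (4 * Gam * om ^ 2 * p.N R1) := by
        apply mul_le_mul_of_nonneg_left h7 (by norm_num)
      _ = (om ^ 2 * p.N R1) * (4 * 13 * 12832 / 10 ^ 8) := by
        rw [Gam]
        ring
      _ ≤ (om ^ 2 * p.N R1) * (1 / 100) := by
        apply mul_le_mul_of_nonneg_left _ (by positivity)
        norm_num
      _ = om ^ 2 * p.N R1 / 100 := by ring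

/-- the term with `y s Th` -/
theorem StOde_t6 (hs : IsSlice R1 p) (hy : Hyp R1 p om) (hg : Geo R1 p om lam) :
    |∫ r in (0 : ℝ)..R1, r * p.y r * Real.sin (p.f r) * Th (p.f r)| ≤ 2 * eps * lam := by
  obtain ⟨h0, hR, hom, h1, h2, h3⟩ := StOde_data hs hy hg
  have cT : Continuous (fun r => Th (p.f r)) := continuous_Th.comp hs.cf
  have cs' : Continuous (fun r => Real.sin (p.f r)) := Real.continuous_sin.comp hs.cf
  have hc : Continuous (fun r => r * p.y r * Real.sin (p.f r) * Th (p.f r)) :=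
    ((continuous_id.mul hs.cy).mul cs').mul cT
  have hc2 : Continuous (fun r => r * (|p.y r| * |Th (p.f r)|)) :=
    continuous_id.mul (hs.cy.abs.mul cT.abs)
  have h4 := StOde_mono hs.R1pos.le hc hc2 (fun r hr => by
    rw [abs_mul, abs_mul, abs_mul, abs_of_nonneg hr.1]
    have h7 := Real.abs_sin_le_one (p.f r)
    calc r * |p.y r| * |Real.sin (p.f r)| * |Th (p.f r)|
        = (r * (|p.y r| * |Th (p.f r)|)) * |Real.sin (p.f r)| := by ring
      _ ≤ (r * (|p.y r| * |Th (p.f r)|)) * 1 := by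
        apply mul_le_mul_of_nonneg_left h7
        have := hr.1
        positivity
      _ = _ := by ring)
  refine h4.trans ((csr le_rfl hs.R1pos.le hs.cy.continuousOn cT.continuousOn).trans ?_)
  have h5 : Real.sqrt (∫ r in (0 : ℝ)..R1, r * p.y r ^ 2) ≤ eps := by
    have he : (0 : ℝ) ≤ eps := by rw [eps]; positivity
    rw [Real.sqrt_le_left he]
    exact (En_parts hs hy.en).2.2.1
  have h6 : Real.sqrt (∫ r in (0 : ℝ)..R1, r * Th (p.f r) ^ 2) ≤ 2 * lam := by
    have hl := hg.lam_pos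
    rw [Real.sqrt_le_left (by positivity)]
    have h7 : ∫ r in (0 : ℝ)..R1, r * Th (p.f r) ^ 2 ≤ ∫ r in (0 : ℝ)..R1, r * |Th (p.f r)| := by
      refine integral_mono_on hs.R1pos.le ?_ ?_ (fun r hr => ?_)
      · exact (continuous_id.mul (cT.pow 2)).intervalIntegrable _ _
      · exact (continuous_id.mul cT.abs).intervalIntegrable _ _
      · have h8 : |Th (p.f r)| ≤ 1 := (Th_abs_le _).trans (Real.abs_sin_le_one _)
        apply mul_le_mul_of_nonneg_left _ hr.1
        rw [← sq_abs]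
        nlinarith [abs_nonneg (Th (p.f r))]
    have h8 := Th_L1 hs hy.en hg.lam_pos hg.lam_lt hg.f_lam
    nlinarith
  calc Real.sqrt (∫ r in (0 : ℝ)..R1, r * p.y r ^ 2) *
        Real.sqrt (∫ r in (0 : ℝ)..R1, r * Th (p.f r) ^ 2)
      ≤ eps * (2 * lam) := mul_le_mul h5 h6 (Real.sqrt_nonneg _) (by rw [eps]; positivity)
    _ = 2 * eps * lam := by ring

theorem st_N (hs : IsSlice R1 p) (hy : Hyp R1 p om) :
    |p.dN R1 + 2 * om * p.N R1| ≤ om * p.N R1 / 100 := by
  obtain ⟨lam, hg⟩ := exists_geo hs hy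
  obtain ⟨h0, hR, hom, h1, h2, h3⟩ := StOde_data hs hy hg
  have hN := hy.Npos
  have hl := hg.lam_pos
  have hlN : lam ^ 2 ≤ 16 * p.N R1 := by linarith [hg.N_lo]
  have hC := C0_est hs hy hg
  have t1 := StOde_t1 hs hy hg
  have t2 := StOde_t2 hs hy hg
  have t3 := StOde_t3 hs hy hg
  have hid := StOde_id1 R1 om (g := p.g) (s := fun r => Real.sin (p.f r))
    (c := fun r => Real.cos (p.f r)) (T := fun r => Th (p.f r)) (X := fun r => Xi (p.f r))
    hs.cg (Real.continuous_sin.comp hs.cf) (Real.continuous_cos.comp hs.cf)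
    (continuous_Th.comp hs.cf) (continuous_Xi.comp hs.cf)
  have hdN : p.dN R1 = ∫ r in (0 : ℝ)..R1, r * p.g r *
    (2 * Th (p.f r) * Real.cos (p.f r) - Xi (p.f r)) := rfl
  simp only [eta] at t1 t3
  rw [hdN, hid]
  rw [abs_le] at hC t1 t2 t3
  obtain ⟨c1, c2⟩ := hC
  obtain ⟨a1, a2⟩ := t1
  obtain ⟨b1, b2⟩ := t2
  obtain ⟨d1, d2⟩ := t3
  set C0 := ∫ r in (0 : ℝ)..R1, r * Real.sin (p.f r) * Th (p.f r) * Real.cos (p.f r)
  set I1 := ∫ r in (0 : ℝ)..R1, r * (Xi (p.f r) * Real.sin (p.f r))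
  set I2 := ∫ r in (0 : ℝ)..R1, r * (p.g r + 4 * om * Real.sin (p.f r)) *
    (2 * Th (p.f r) * Real.cos (p.f r))
  set I3 := ∫ r in (0 : ℝ)..R1, r * Xi (p.f r) * (p.g r + 4 * om * Real.sin (p.f r))
  have e1 : om * lam ^ 2 ≤ 16 * (om * p.N R1) := by
    have := mul_le_mul_of_nonneg_left hlN hom.le
    linarith
  have e2 : om * (4 * C0 - p.N R1) ≤ om * (p.N R1 / 1000) := mul_le_mul_of_nonneg_left c2 hom.le
  have e3 : om * (-(p.N R1 / 1000)) ≤ om * (4 * C0 - p.N R1) :=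
    mul_le_mul_of_nonneg_left c1 hom.le
  have e4 : om * I1 ≤ om * (lam ^ 2 / 10 ^ 10) := mul_le_mul_of_nonneg_left b2 hom.le
  have e5 : om * (-(lam ^ 2 / 10 ^ 10)) ≤ om * I1 := mul_le_mul_of_nonneg_left b1 hom.le
  have hON : 0 < om * p.N R1 := by positivity
  rw [abs_le]
  constructor <;> nlinarith

theorem st_om (hs : IsSlice R1 p) (hy : Hyp R1 p om) :
    |-(p.dP R1 + 4 * om * p.dN R1) / (4 * p.N R1) - om ^ 2| ≤ om ^ 2 / 100 := by
  obtain ⟨lam, hg⟩ := exists_geo hs hy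
  obtain ⟨h0, hR, hom, h1, h2, h3⟩ := StOde_data hs hy hg
  have hN := hy.Npos
  have hl := hg.lam_pos
  have hlN : lam ^ 2 ≤ 16 * p.N R1 := by linarith [hg.N_lo]
  have hC := C0_est hs hy hg
  have t1 := StOde_t1 hs hy hg
  have t4 := StOde_t4 hs hy hg
  have t5 := StOde_t5 hs hy hg
  have t6 := StOde_t6 hs hy hg
  have hid := StOde_id2 R1 om (g := p.g) (s := fun r => Real.sin (p.f r))
    (c := fun r => Real.cos (p.f r)) (T := fun r => Th (p.f r)) (Td := fun r => Thd (p.f r))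
    (X := fun r => Xi (p.f r)) (w := p.w) (y := p.y) (a := p.a)
    hs.cg (Real.continuous_sin.comp hs.cf) (Real.continuous_cos.comp hs.cf)
    (continuous_Th.comp hs.cf) (continuous_Thd.comp hs.cf) (continuous_Xi.comp hs.cf)
    hs.cw hs.cy hs.ca (fun r => Th_cos_sub (p.f r))
  have hdN : p.dP R1 + 4 * om * p.dN R1 =
    (∫ r in (0 : ℝ)..R1, (r * Thd (p.f r) * (p.g r ^ 2 - p.w r ^ 2)
      - (4 + p.a r) * p.w r * Xi (p.f r) - r * p.y r * Real.sin (p.f r) * Th (p.f r)))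
    + 4 * om * ∫ r in (0 : ℝ)..R1, r * p.g r *
    (2 * Th (p.f r) * Real.cos (p.f r) - Xi (p.f r)) := rfl
  simp only [eta] at t1 t4
  have hsm : 2 * eps * lam ≤ om ^ 2 * p.N R1 / 1000 := by
    have h4 := om2lam_ge hy hg
    have h5 : eps ≤ 1 := by
      rw [eps]
      norm_num
    have h6 := hg.N_lo
    have h7 : om ^ 2 * (lam ^ 2 / 16) ≤ om ^ 2 * p.N R1 := mul_le_mul_of_nonneg_left h6 (by positivity)
    have h8 : (10 : ℝ) ^ 29 * lam ≤ (om ^ 2 * lam) * lam := mul_le_mul_of_nonneg_right h4 hl.le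
    have h9 : 2 * eps * lam ≤ 2 * lam := by nlinarith
    have h10 : 2 * lam ≤ 10 ^ 29 * lam / 16 / 1000 := by
      have : (10 : ℝ) ^ 29 * lam / 16 / 1000 = (10 ^ 29 / 16 / 1000) * lam := by ring
      rw [this]
      apply mul_le_mul_of_nonneg_right _ hl.le
      norm_num
    have h11 : (om ^ 2 * lam) * lam = 16 * (om ^ 2 * (lam ^ 2 / 16)) := by ring
    rw [h11] at h8
    linarith
  have hkey : |(p.dP R1 + 4 * om * p.dN R1) + 4 * (om ^ 2 * p.N R1)| ≤
      (4 * (om ^ 2 * p.N R1)) / 100 := by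
    rw [hdN, hid]
    rw [abs_le] at hC t1 t4 t5 t6
    obtain ⟨c1, c2⟩ := hC
    obtain ⟨a1, a2⟩ := t1
    obtain ⟨b1, b2⟩ := t4
    obtain ⟨d1, d2⟩ := t5
    obtain ⟨g1, g2⟩ := t6
    set C0 := ∫ r in (0 : ℝ)..R1, r * Real.sin (p.f r) * Th (p.f r) * Real.cos (p.f r)
    set I1 := ∫ r in (0 : ℝ)..R1, r * Xi (p.f r) * (p.g r + 4 * om * Real.sin (p.f r))
    set I2 := ∫ r in (0 : ℝ)..R1, r * Thd (p.f r) * ((p.g r + 4 * om * Real.sin (p.f r)) ^ 2
      - p.w r ^ 2)
    set I3 := ∫ r in (0 : ℝ)..R1, (4 + p.a r) * p.w r * Xi (p.f r)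
    set I4 := ∫ r in (0 : ℝ)..R1, r * p.y r * Real.sin (p.f r) * Th (p.f r)
    have hO2 : 0 ≤ om ^ 2 := by positivity
    have hON : 0 < om ^ 2 * p.N R1 := by positivity
    have e1 : om ^ 2 * lam ^ 2 ≤ 16 * (om ^ 2 * p.N R1) := by
      have := mul_le_mul_of_nonneg_left hlN hO2
      linarith
    have e2 : om ^ 2 * (4 * C0 - p.N R1) ≤ om ^ 2 * (p.N R1 / 1000) :=
      mul_le_mul_of_nonneg_left c2 hO2
    have e3 : om ^ 2 * (-(p.N R1 / 1000)) ≤ om ^ 2 * (4 * C0 - p.N R1) :=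
      mul_le_mul_of_nonneg_left c1 hO2
    have e4 : om * I1 ≤ om * (om * lam ^ 2 / 10 ^ 10) := mul_le_mul_of_nonneg_left a2 hom.le
    have e5 : om * (-(om * lam ^ 2 / 10 ^ 10)) ≤ om * I1 := mul_le_mul_of_nonneg_left a1 hom.le
    have e6 : om * (om * lam ^ 2 / 10 ^ 10) = om ^ 2 * lam ^ 2 / 10 ^ 10 := by ring
    have e7 : om * (-(om * lam ^ 2 / 10 ^ 10)) = -(om ^ 2 * lam ^ 2 / 10 ^ 10) := by ring
    rw [e6] at e4
    rw [e7] at e5
    have hx : -16 * om ^ 2 * C0 + 4 * om * I1 + I2 - I3 - I4 + 4 * (om ^ 2 * p.N R1) =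
      -4 * (om ^ 2 * (4 * C0 - p.N R1)) + 4 * (om * I1) + I2 - I3 - I4 := by ring
    rw [hx, abs_le]
    constructor <;> linarith
  have h4N : 0 < 4 * p.N R1 := by positivity
  have hx : -(p.dP R1 + 4 * om * p.dN R1) / (4 * p.N R1) - om ^ 2 =
      -(((p.dP R1 + 4 * om * p.dN R1) + 4 * (om ^ 2 * p.N R1)) / (4 * p.N R1)) := by
    field_simp
    ring
  rw [hx, abs_neg, abs_div, abs_of_pos h4N, div_le_iff₀ h4N]
  refine hkey.trans (le_of_eq ?_)
  ring

end H72GS

end S_StOde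

section S_Core

/-!
# Core: no equivariant solution with concentrated collapsing data lives until `1.1/om0`

`om t = -P/(4N)` (`N > 0` by `exists_lam`, `N_lo`), `Y = X + 2 D + (1/2) M(ep1/om)`.
Apply `boot`; `hst` from `hasDerivAt_*`, `st_N, st_om, st_Ey, st_Y, st_DM`;
`om' = -(dP N - P dN)/(4 N²) = -(dP + 4 om dN)/(4N)`, `L' = -ep1 om'/om²`.
-/

namespace H72GS

open Set MeasureTheory intervalIntegral

theorem core {T R0 : ℝ} (R : Rad T R0) {om0 : ℝ} (h1 : R0 + T ≤ 1 / 1000)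
    (h2 : 1 / 10 ^ 50 ≤ R0 + T) (hE : (R.pre 0).En (R0 + T) ≤ eps ^ 2)
    (hP : (R.pre 0).P (R0 + T) = -4 * om0 * (R.pre 0).N (R0 + T))
    (i1 : 10 ^ 60 < om0) (i2 : 1 < om0 ^ 3 * (R.pre 0).N (R0 + T))
    (i3 : (R.pre 0).Ey (R0 + T) < om0)
    (i4 : (R.pre 0).X (R0 + T) < Gam ^ 2 * om0 ^ 4 * (R.pre 0).N (R0 + T))
    (i5 : (R.pre 0).X (R0 + T) + 2 * (R.pre 0).D (R0 + T)
      + (1 / 2) * (R.pre 0).M (R0 + T) (ep1 / om0) < Gam1 ^ 2 * om0 ^ 4 * (R.pre 0).N (R0 + T))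
    (hlong : 11 / 10 ≤ T * om0) : False := by
  have hT := R.hT
  have h00 : (0 : ℝ) ∈ Icc 0 T := ⟨le_refl _, hT.le⟩
  set R1 := R0 + T with hR1
  -- slices
  have hs : ∀ t ∈ Icc 0 T, IsSlice R1 (R.pre t) := fun t ht => R.isSlice h1 h2 ht
  have hEt : ∀ t ∈ Icc 0 T, (R.pre t).En R1 ≤ eps ^ 2 := fun t ht => by
    rw [hR1, R.En_const ht]; exact hE
  have hNpos : ∀ t ∈ Icc 0 T, 0 < (R.pre t).N R1 := by
    intro t ht
    obtain ⟨lam, l0, l1, lf⟩ := exists_lam (hs t ht)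
    have := N_lo (hs t ht) (hEt t ht) l0 l1 lf
    have h3 : 0 < lam ^ 2 / 16 := by positivity
    linarith
  set N : ℝ → ℝ := fun t => (R.pre t).N R1 with hN
  set P : ℝ → ℝ := fun t => (R.pre t).P R1 with hPdef
  set om : ℝ → ℝ := fun t => -P t / (4 * N t) with hom
  have hPN : ∀ t ∈ Icc 0 T, P t = -4 * om t * N t := by
    intro t ht
    have := (hNpos t ht).ne'
    have h3 : N t ≠ 0 := this
    simp only [hom]
    field_simp
  have dN : ∀ t ∈ Icc 0 T, HasDerivAt N ((R.pre t).dN R1) t := fun t ht => R.hasDerivAt_N ht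
  have dP : ∀ t ∈ Icc 0 T, HasDerivAt P ((R.pre t).dP R1) t := fun t ht => R.hasDerivAt_P ht
  have dom : ∀ t ∈ Icc 0 T, HasDerivAt om
      (-((R.pre t).dP R1 + 4 * om t * (R.pre t).dN R1) / (4 * N t)) t := by
    intro t ht
    have h3 : N t ≠ 0 := (hNpos t ht).ne'
    have h4 : (4 * N t) ≠ 0 := by positivity
    have h5 := (dP t ht).neg.div ((dN t ht).const_mul 4) h4
    refine h5.congr_deriv ?_
    have h6 := hPN t ht
    rw [Pi.neg_apply, h6]
    field_simp
    ring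
  have hom0 : om 0 = om0 := by
    have h3 : N 0 ≠ 0 := (hNpos 0 h00).ne'
    have h4 : P 0 = -4 * om0 * N 0 := hP
    simp only [hom]
    rw [h4]
    field_simp
  set X : ℝ → ℝ := fun t => (R.pre t).X R1 with hX
  set Ey : ℝ → ℝ := fun t => (R.pre t).Ey R1 with hEy
  set Y : ℝ → ℝ := fun t => (R.pre t).X R1 + 2 * (R.pre t).D R1
      + (1 / 2) * (R.pre t).M R1 (ep1 / om t) with hY
  have dX : ∀ t ∈ Icc 0 T, HasDerivAt X ((R.pre t).dX R1) t := fun t ht => R.hasDerivAt_X ht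
  have dEy : ∀ t ∈ Icc 0 T, HasDerivAt Ey ((R.pre t).dEy R1) t := fun t ht => R.hasDerivAt_Ey ht
  have ep1pos : (0 : ℝ) < ep1 := by unfold ep1; norm_num
  refine boot (T := T) hT (N := N) (om := om) (X := X) (Y := Y) (Ey := Ey)
    (fun t ht => (dN t ht).continuousAt.continuousWithinAt)
    (fun t ht => (dom t ht).continuousAt.continuousWithinAt)
    (fun t ht => (dX t ht).continuousAt.continuousWithinAt)
    (fun t ht => (dEy t ht).continuousAt.continuousWithinAt)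
    hNpos ?_ (by rw [hom0]; exact i1) (by rw [hom0]; exact i2) (by rw [hom0]; exact i3)
    (by rw [hom0]; exact i4) (by rw [hom0]; simp only [hY, hom0]; exact i5)
    (by rw [hom0]; exact hlong)
  intro t ht a1 a2 a3 a4
  have hy : Hyp R1 (R.pre t) (om t) :=
    ⟨hEt t ht, hNpos t ht, hPN t ht, a1, a2, a3, a4⟩
  have hs' := hs t ht
  have hompos : 0 < om t := lt_of_lt_of_le (by norm_num) a1
  have q1 := st_om hs' hy
  refine ⟨⟨_, dN t ht, st_N hs' hy⟩, ⟨_, dom t ht, q1⟩, ⟨_, dEy t ht, st_Ey hs' hy⟩, ?_, ?_⟩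
  · set om' := -((R.pre t).dP R1 + 4 * om t * (R.pre t).dN R1) / (4 * N t) with hom'
    have dL : HasDerivAt (fun τ => ep1 / om τ) (-(ep1 * om') / om t ^ 2) t := by
      have h5 := (hasDerivAt_const t ep1).div (dom t ht) hompos.ne'
      refine h5.congr_deriv ?_
      ring
    have hL0 : 0 < ep1 / om t := div_pos ep1pos hompos
    have hL' : |-(ep1 * om') / om t ^ 2| ≤ (102 / 100) * ep1 := by
      have h6 : |om' - om t ^ 2| ≤ om t ^ 2 / 100 := q1
      have h7 := abs_le.1 h6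
      have h8 : 0 < om t ^ 2 := by positivity
      rw [abs_div, abs_of_pos h8, div_le_iff₀ h8, abs_neg, abs_mul, abs_of_pos ep1pos]
      have h9 : |om'| ≤ (102 / 100) * om t ^ 2 := by
        rw [abs_le]; constructor <;> linarith
      calc ep1 * |om'| ≤ ep1 * ((102 / 100) * om t ^ 2) :=
            mul_le_mul_of_nonneg_left h9 ep1pos.le
        _ = 102 / 100 * ep1 * om t ^ 2 := by ring
    refine ⟨(R.pre t).dX R1 + 2 * (R.pre t).dD R1
      + (1 / 2) * (R.pre t).dM R1 (ep1 / om t) (-(ep1 * om') / om t ^ 2), ?_, st_Y hs' hy hL'⟩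
    exact ((dX t ht).add ((R.hasDerivAt_D ht).const_mul 2)).add
      ((R.hasDerivAt_M ht dL hL0).const_mul (1 / 2))
  · have q2 := abs_le.1 (st_DM hs' hy)
    simp only [hX, hY, hN]
    linarith [q2.1]

end H72GS

end S_Core
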