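import Mathlib
import Pool.Agent.H72.GS.Defs
import Pool.Agent.H72.GM.M1

set_option autoImplicit false

/-! Gauged sigma model, file M7: this file joins several modules to save build time. -/

section S_Comp

/-!
# Comp: component formulas, temporal gauge

`nn × V = (-V₁, V₀, 0)`, `nn · V = V₂`, `nn · (φ × W) = φ₀ W₁ - φ₁ W₀` (components 0,1,2).
-/

namespace H72GS

open Set
open scoped ContDiff Matrix

noncomputable section

theorem cross_nn (V : Fin 3 → ℝ) : crossProduct nn V = ![-V 1, V 0, 0] := by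
  rw [cross_apply]
  simp [nn]

theorem nn_dot (V : Fin 3 → ℝ) : nn ⬝ᵥ V = V 2 := by
  simp [nn, dotProduct, Fin.sum_univ_three]

theorem nn_dot_cross (V W : Fin 3 → ℝ) : nn ⬝ᵥ crossProduct V W = V 0 * W 1 - V 1 * W 0 := by
  rw [nn_dot, cross_apply]
  simp

theorem D_zero (c : Config) (μ : Fin 3) (V : Pt → Fin 3 → ℝ) (p : Pt) :
    c.D μ V p 0 = pd μ (fun q => V q 0) p - c.A μ p * V p 1 := by
  unfold Config.D
  rw [cross_nn]
  simp only [Matrix.cons_val_zero]
  ring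

theorem D_one (c : Config) (μ : Fin 3) (V : Pt → Fin 3 → ℝ) (p : Pt) :
    c.D μ V p 1 = pd μ (fun q => V q 1) p + c.A μ p * V p 0 := by
  unfold Config.D
  rw [cross_nn]
  simp

theorem D_two (c : Config) (μ : Fin 3) (V : Pt → Fin 3 → ℝ) (p : Pt) :
    c.D μ V p 2 = pd μ (fun q => V q 2) p := by
  unfold Config.D
  rw [cross_nn]
  simp

/-- the coordinate derivative of a smooth function is smooth -/
theorem pd_smooth {u : Pt → ℝ} (hu : ContDiff ℝ ∞ u) (μ : Fin 3) : ContDiff ℝ ∞ (pd μ u) := by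
  have h1 : ContDiff ℝ ∞ (fderiv ℝ u) := hu.fderiv_right (m := ∞) (by simp)
  exact h1.clm_apply contDiff_const

theorem pd_comm {u : Pt → ℝ} (hu : ContDiff ℝ ∞ u) (μ ν : Fin 3) (p : Pt) :
    pd μ (pd ν u) p = pd ν (pd μ u) p := by
  have h1 : ContDiff ℝ ∞ (fderiv ℝ u) := hu.fderiv_right (m := ∞) (by simp)
  have hd : DifferentiableAt ℝ (fderiv ℝ u) p := (h1.differentiable (by simp)).differentiableAt
  have key : ∀ α β : Fin 3, pd α (pd β u) p =
      fderiv ℝ (fderiv ℝ u) p (Pi.single α 1) (Pi.single β 1) := by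
    intro α β
    unfold pd
    rw [fderiv_clm_apply hd (differentiableAt_const _)]
    simp
  rw [key, key]
  have h2 : (2 : WithTop ℕ∞) ≤ ∞ := ENat.LEInfty.out
  have hs : IsSymmSndFDerivAt ℝ u p := hu.contDiffAt.isSymmSndFDerivAt (by simpa using h2)
  exact hs.eq _ _

theorem pd_add {u v : Pt → ℝ} (hu : ContDiff ℝ ∞ u) (hv : ContDiff ℝ ∞ v) (μ : Fin 3) (p : Pt) :
    pd μ (fun q => u q + v q) p = pd μ u p + pd μ v p := by
  unfold pd
  rw [fderiv_fun_add (hu.differentiable (by simp)).differentiableAt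
    (hv.differentiable (by simp)).differentiableAt]
  rfl

theorem pd_sub {u v : Pt → ℝ} (hu : ContDiff ℝ ∞ u) (hv : ContDiff ℝ ∞ v) (μ : Fin 3) (p : Pt) :
    pd μ (fun q => u q - v q) p = pd μ u p - pd μ v p := by
  unfold pd
  rw [fderiv_fun_sub (hu.differentiable (by simp)).differentiableAt
    (hv.differentiable (by simp)).differentiableAt]
  rfl

theorem pd_mul {u v : Pt → ℝ} (hu : ContDiff ℝ ∞ u) (hv : ContDiff ℝ ∞ v) (μ : Fin 3) (p : Pt) :
    pd μ (fun q => u q * v q) p = pd μ u p * v p + u p * pd μ v p := by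
  unfold pd
  rw [fderiv_fun_mul (hu.differentiable (by simp)).differentiableAt
    (hv.differentiable (by simp)).differentiableAt]
  simp only [add_apply, smul_apply, smul_eq_mul]
  ring

/-- derivative along a coordinate line -/
theorem hasDerivAt_pd {u : Pt → ℝ} (hu : ContDiff ℝ ∞ u) (μ : Fin 3) (p : Pt) (s : ℝ) :
    HasDerivAt (fun x => u (Function.update p μ x)) (pd μ u (Function.update p μ s)) s := by
  have h1 : HasFDerivAt u (fderiv ℝ u (Function.update p μ s)) (Function.update p μ s) :=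
    (hu.differentiable (by simp)).differentiableAt.hasFDerivAt
  exact h1.comp_hasDerivAt s (hasDerivAt_update p μ s)

/-- chain rule for a linear change of coordinates `q = M p` -/
theorem pd_comp_linear {u : Pt → ℝ} (hu : ContDiff ℝ ∞ u) (M : Matrix (Fin 3) (Fin 3) ℝ)
    (μ : Fin 3) (p : Pt) :
    pd μ (fun q => u (M.mulVec q)) p = ∑ ν, M ν μ * pd ν u (M.mulVec p) := by
  have h1 : HasFDerivAt u (fderiv ℝ u (M.mulVec p)) (M.mulVec p) :=
    (hu.differentiable (by simp)).differentiableAt.hasFDerivAt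
  have h2 : HasFDerivAt (fun q : Pt => M.mulVec q)
      (LinearMap.toContinuousLinearMap (Matrix.mulVecLin M)) p :=
    (LinearMap.toContinuousLinearMap (Matrix.mulVecLin M)).hasFDerivAt
  have h3 := (h1.comp p h2).fderiv
  have h4 : fderiv ℝ (fun q => u (M.mulVec q)) p = (fderiv ℝ u (M.mulVec p)).comp
      (LinearMap.toContinuousLinearMap (Matrix.mulVecLin M)) := h3
  unfold pd
  rw [h4]
  have h5 : (LinearMap.toContinuousLinearMap (Matrix.mulVecLin M)) (Pi.single μ (1 : ℝ))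
      = ∑ ν, M ν μ • (Pi.single ν (1 : ℝ) : Pt) := by
    ext i
    simp only [LinearMap.coe_toContinuousLinearMap', Matrix.mulVecLin_apply,
      Matrix.mulVec_single_one, Matrix.col_apply, Finset.sum_apply, Pi.smul_apply, smul_eq_mul]
    rw [Finset.sum_eq_single i]
    · simp
    · intro j _ hj
      rw [Pi.single_eq_of_ne hj.symm, mul_zero]
    · intro h; exact absurd (Finset.mem_univ _) h
  rw [ContinuousLinearMap.comp_apply, h5, map_sum]
  simp

/-- equality on the open slab `0 < t < b` extends to `0 ≤ t < b` -/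
theorem eq_hslab {F G : Pt → ℝ} (hF : Continuous F) (hG : Continuous G) {b : ℝ}
    (h : ∀ p ∈ slab 0 b, F p = G p) : ∀ p ∈ hslab b, F p = G p := by
  intro p hp
  obtain ⟨h0, h1⟩ := hp
  have hcl : p ∈ closure (slab 0 b) := by
    have hlim : Filter.Tendsto (fun s : ℝ => p + s • (Pi.single 0 1 : Pt))
        (nhdsWithin 0 (Ioi 0)) (nhds p) := by
      have hc : Continuous (fun s : ℝ => p + s • (Pi.single 0 1 : Pt)) := by fun_prop
      have h2 := (hc.tendsto 0).mono_left (nhdsWithin_le_nhds (s := Ioi (0 : ℝ)))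
      simpa using h2
    refine mem_closure_of_tendsto hlim ?_
    have h3 : ∀ᶠ s : ℝ in nhdsWithin 0 (Ioi 0), s < b - p 0 :=
      nhdsWithin_le_nhds (Iio_mem_nhds (by linarith))
    filter_upwards [h3, self_mem_nhdsWithin] with s hs hs0
    have hs0' : (0 : ℝ) < s := hs0
    constructor
    · simp only [Pi.add_apply, Pi.smul_apply, Pi.single_eq_same, smul_eq_mul, mul_one]
      linarith
    · simp only [Pi.add_apply, Pi.smul_apply, Pi.single_eq_same, smul_eq_mul, mul_one]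
      linarith
  exact (Set.EqOn.closure (s := slab 0 b) (fun q hq => h q hq) hF hG) hcl

/-- globally smooth configuration in temporal gauge which solves the equations for `0 < t < b` -/
structure Config.Temporal (c : Config) (b : ℝ) : Prop where
  hφ : ∀ i, ContDiff ℝ ∞ (fun p => c.φ p i)
  hA : ∀ μ, ContDiff ℝ ∞ (c.A μ)
  A0 : ∀ p, c.A 0 p = 0
  sol : ∀ p ∈ slab 0 b, c.SolvesAt p

/-- `W = D^μ D_μ φ - (1 - φ₂) n`, componentwise -/
def Wf (c : Config) (p : Pt) (i : Fin 3) : ℝ :=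
  c.D 0 (c.D 0 c.φ) p i - c.D 1 (c.D 1 c.φ) p i - c.D 2 (c.D 2 c.φ) p i
    - (if i = 2 then 1 - c.φ p 2 else 0)

/-- the equations at a point, componentwise (any configuration) -/
theorem solvesAt_iff (c : Config) (p : Pt) : c.SolvesAt p ↔
    (c.φ p 0 ^ 2 + c.φ p 1 ^ 2 + c.φ p 2 ^ 2 = 1) ∧
    (c.φ p 1 * Wf c p 2 - c.φ p 2 * Wf c p 1 = 0 ∧ c.φ p 2 * Wf c p 0 - c.φ p 0 * Wf c p 2 = 0 ∧
      c.φ p 0 * Wf c p 1 - c.φ p 1 * Wf c p 0 = 0) ∧
    (∀ μ, pd 0 (c.F μ 0) p - pd 1 (c.F μ 1) p - pd 2 (c.F μ 2) p =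
      c.φ p 0 * c.D μ c.φ p 1 - c.φ p 1 * c.D μ c.φ p 0) := by
  have hW : ∀ i, ((∑ μ, sg μ • c.D μ (c.D μ c.φ) p) - (1 - nn ⬝ᵥ c.φ p) • nn) i = Wf c p i := by
    intro i
    unfold Wf
    rw [Fin.sum_univ_three, nn_dot]
    fin_cases i
    · simp [sg, nn]
      ring
    · simp [sg, nn]
      ring
    · simp [sg, nn]
      ring
  have h1 : c.φ p ⬝ᵥ c.φ p = c.φ p 0 ^ 2 + c.φ p 1 ^ 2 + c.φ p 2 ^ 2 := by
    simp [dotProduct, Fin.sum_univ_three, sq]
  have h2 : crossProduct (c.φ p)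
      ((∑ μ, sg μ • c.D μ (c.D μ c.φ) p) - (1 - nn ⬝ᵥ c.φ p) • nn) = 0 ↔
      (c.φ p 1 * Wf c p 2 - c.φ p 2 * Wf c p 1 = 0 ∧ c.φ p 2 * Wf c p 0 - c.φ p 0 * Wf c p 2 = 0 ∧
      c.φ p 0 * Wf c p 1 - c.φ p 1 * Wf c p 0 = 0) := by
    rw [cross_apply, hW 0, hW 1, hW 2]
    constructor
    · intro h
      refine ⟨?_, ?_, ?_⟩
      · simpa using congrFun h 0
      · simpa using congrFun h 1
      · simpa using congrFun h 2
    · rintro ⟨ha, hb, hc⟩
      rw [ha, hb, hc]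
      ext i
      fin_cases i <;> rfl
  have h3 : ∀ μ, (∑ ν, sg ν * pd ν (c.F μ ν) p = nn ⬝ᵥ crossProduct (c.φ p) (c.D μ c.φ p)) ↔
      (pd 0 (c.F μ 0) p - pd 1 (c.F μ 1) p - pd 2 (c.F μ 2) p =
      c.φ p 0 * c.D μ c.φ p 1 - c.φ p 1 * c.D μ c.φ p 0) := by
    intro μ
    rw [nn_dot_cross, Fin.sum_univ_three]
    have : sg 0 * pd 0 (c.F μ 0) p + sg 1 * pd 1 (c.F μ 1) p + sg 2 * pd 2 (c.F μ 2) p
        = pd 0 (c.F μ 0) p - pd 1 (c.F μ 1) p - pd 2 (c.F μ 2) p := by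
      simp [sg]
      ring
    rw [this]
  constructor
  · rintro ⟨ha, hb, hc⟩
    exact ⟨h1 ▸ ha, h2.1 hb, fun μ => (h3 μ).1 (hc μ)⟩
  · rintro ⟨ha, hb, hc⟩
    exact ⟨h1.trans ha, h2.2 hb, fun μ => (h3 μ).2 (hc μ)⟩

/-- second covariant derivatives in components -/
theorem DD_zero {c : Config} (hφ : ∀ i, ContDiff ℝ ∞ (fun p => c.φ p i))
    (hA : ∀ μ, ContDiff ℝ ∞ (c.A μ)) (μ : Fin 3) (p : Pt) :
    c.D μ (c.D μ c.φ) p 0 = pd μ (pd μ (fun q => c.φ q 0)) p
      - 2 * c.A μ p * pd μ (fun q => c.φ q 1) p - pd μ (c.A μ) p * c.φ p 1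
      - c.A μ p ^ 2 * c.φ p 0 := by
  rw [D_zero, D_one]
  have h1 : (fun q => c.D μ c.φ q 0) =
      fun q => pd μ (fun q => c.φ q 0) q - c.A μ q * c.φ q 1 := by
    funext q
    exact D_zero c μ c.φ q
  rw [h1, pd_sub (pd_smooth (hφ 0) μ) ((hA μ).mul (hφ 1)), pd_mul (hA μ) (hφ 1)]
  ring

theorem DD_one {c : Config} (hφ : ∀ i, ContDiff ℝ ∞ (fun p => c.φ p i))
    (hA : ∀ μ, ContDiff ℝ ∞ (c.A μ)) (μ : Fin 3) (p : Pt) :
    c.D μ (c.D μ c.φ) p 1 = pd μ (pd μ (fun q => c.φ q 1)) p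
      + 2 * c.A μ p * pd μ (fun q => c.φ q 0) p + pd μ (c.A μ) p * c.φ p 0
      - c.A μ p ^ 2 * c.φ p 1 := by
  rw [D_one, D_zero]
  have h1 : (fun q => c.D μ c.φ q 1) =
      fun q => pd μ (fun q => c.φ q 1) q + c.A μ q * c.φ q 0 := by
    funext q
    exact D_one c μ c.φ q
  rw [h1, pd_add (pd_smooth (hφ 1) μ) ((hA μ).mul (hφ 0)), pd_mul (hA μ) (hφ 0)]
  ring

theorem DD_two (c : Config) (μ : Fin 3) (p : Pt) :
    c.D μ (c.D μ c.φ) p 2 = pd μ (pd μ (fun q => c.φ q 2)) p := by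
  rw [D_two]
  have h1 : (fun q => c.D μ c.φ q 2) = pd μ (fun q => c.φ q 2) := by
    funext q
    exact D_two c μ c.φ q
  rw [h1]

end

end H72GS

end S_Comp

section S_Glob

/-!
# Glob: cut off in time

Let `T' < b < T`.  Choose a smooth `κ : ℝ → ℝ` with `κ = 1` on a neighbourhood of `[0,b]` and
`tsupport κ ⊆ (-ε, T)` (`Real.smoothTransition` or `exists_contDiff...`), and put
`φ' p i = κ(p 0) φ p i`, `A' μ p = κ(p 0) A μ p`: globally smooth (near points outside the slab it is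
`0`), equal to `c` on the slab `(-δ, b+δ)`.  `SolvesAt` and `StartsFrom` only depend on the germ:
use `Filter.EventuallyEq.fderiv_eq` (twice for the second derivatives).
-/

namespace H72GS

open Set
open scoped ContDiff

/-- the coordinate derivative depends only on the germ -/
theorem Glob_pd {u v : Pt → ℝ} {S : Set Pt} (hS : IsOpen S) (h : ∀ p ∈ S, u p = v p) (μ : Fin 3) :
    ∀ p ∈ S, pd μ u p = pd μ v p := by
  intro p hp
  have h1 : u =ᶠ[nhds p] v := by
    filter_upwards [hS.mem_nhds hp] with q hq using h q hq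
  unfold pd
  rw [h1.fderiv_eq]

theorem Glob_D {c c' : Config} {S : Set Pt} (hS : IsOpen S)
    (hA : ∀ p ∈ S, ∀ μ, c'.A μ p = c.A μ p) {V V' : Pt → Fin 3 → ℝ} (hV : ∀ p ∈ S, V' p = V p)
    (μ : Fin 3) : ∀ p ∈ S, c'.D μ V' p = c.D μ V p := by
  intro p hp
  funext i
  unfold Config.D
  rw [Glob_pd hS (u := fun q => V' q i) (v := fun q => V q i) (fun q hq => by rw [hV q hq]) μ p hp,
    hA p hp, hV p hp]

theorem Glob_F {c c' : Config} {S : Set Pt} (hS : IsOpen S)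
    (hA : ∀ p ∈ S, ∀ μ, c'.A μ p = c.A μ p) (μ ν : Fin 3) : ∀ p ∈ S, c'.F μ ν p = c.F μ ν p := by
  intro p hp
  unfold Config.F
  rw [Glob_pd hS (fun q hq => hA q hq ν) μ p hp, Glob_pd hS (fun q hq => hA q hq μ) ν p hp]

/-- `SolvesAt` depends only on the germ -/
theorem SolvesAt_congr {c c' : Config} {S : Set Pt} (hS : IsOpen S) (hφ : ∀ p ∈ S, c'.φ p = c.φ p)
    (hA : ∀ p ∈ S, ∀ μ, c'.A μ p = c.A μ p) {p : Pt} (hp : p ∈ S) (h : c.SolvesAt p) :
    c'.SolvesAt p := by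
  have h1 : ∀ μ, ∀ q ∈ S, c'.D μ c'.φ q = c.D μ c.φ q := fun μ => Glob_D hS hA hφ μ
  refine ⟨?_, ?_, ?_⟩
  · rw [hφ p hp]
    exact h.sphere
  · have h2 : ∀ μ, c'.D μ (c'.D μ c'.φ) p = c.D μ (c.D μ c.φ) p := fun μ =>
      Glob_D hS hA (h1 μ) μ p hp
    simp only [h2, hφ p hp]
    exact h.phiEq
  · intro μ
    have h2 : ∀ ν, pd ν (c'.F μ ν) p = pd ν (c.F μ ν) p := fun ν =>
      Glob_pd hS (Glob_F hS hA μ ν) ν p hp
    simp only [h2, h1 μ p hp, hφ p hp]
    exact h.maxwell μ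

theorem Glob_isOpen_slab (a b : ℝ) : IsOpen (slab a b) := by
  have h : slab a b = (fun p : Pt => p 0) ⁻¹' Ioo a b := rfl
  rw [h]
  exact isOpen_Ioo.preimage (continuous_apply 0)

theorem StartsFrom_congr {c c' : Config} {a b : ℝ} (ha : a < 0) (hb : 0 < b)
    (hφ : ∀ p ∈ slab a b, c'.φ p = c.φ p) (hA : ∀ p ∈ slab a b, ∀ μ, c'.A μ p = c.A μ p)
    {d : InitData} (h : c.StartsFrom d) : c'.StartsFrom d := by
  obtain ⟨θ, hθ, h⟩ := h
  refine ⟨θ, hθ, fun x y => ?_⟩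
  obtain ⟨h1, h2, h3⟩ := h x y
  have hS := Glob_isOpen_slab a b
  have hp : pt0 x y ∈ slab a b := ⟨by simpa [pt0] using ha, by simpa [pt0] using hb⟩
  refine ⟨?_, ?_, fun i hi => ⟨?_, ?_⟩⟩
  · rw [hφ _ hp, h1]
  · rw [Glob_D hS hA hφ 0 _ hp, h2]
  · rw [hA _ hp, (h3 i hi).1]
  · rw [Glob_F hS hA 0 i _ hp, (h3 i hi).2]

/-- cut off in time of a function that is smooth in a slab -/
theorem Glob_cut {u : Pt → ℝ} {a b : ℝ} {κ : ℝ → ℝ} (hκ : ContDiff ℝ ∞ κ)
    (hs : tsupport κ ⊆ Ioo a b) (hu : ContDiffOn ℝ ∞ u (slab a b)) :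
    ContDiff ℝ ∞ (fun p => κ (p 0) * u p) := by
  rw [contDiff_iff_contDiffAt]
  intro p
  by_cases hp : p ∈ slab a b
  · have h1 : ContDiffAt ℝ ∞ u p := hu.contDiffAt ((Glob_isOpen_slab a b).mem_nhds hp)
    have h2 : ContDiff ℝ ∞ (fun q : Pt => κ (q 0)) := hκ.comp (contDiff_apply ℝ ℝ 0)
    exact h2.contDiffAt.mul h1
  · have h1 : p 0 ∉ tsupport κ := fun h => hp (hs h)
    have h2 : ∀ᶠ q : Pt in nhds p, κ (q 0) = 0 := by
      have h3 : ∀ᶠ t in nhds (p 0), κ t = 0 := notMem_tsupport_iff_eventuallyEq.1 h1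
      exact (continuous_apply (0 : Fin 3)).continuousAt.eventually h3
    have h3 : (fun q : Pt => κ (q 0) * u q) =ᶠ[nhds p] fun _ => (0 : ℝ) := by
      filter_upwards [h2] with q hq
      rw [hq, zero_mul]
    exact contDiffAt_const.congr_of_eventuallyEq h3

theorem Glob_bump {ε T b : ℝ} (hε : 0 < ε) (hb : 0 < b) (hbT : b < T) :
    ∃ κ : ℝ → ℝ, ContDiff ℝ ∞ κ ∧ tsupport κ ⊆ Ioo (-ε) T ∧
      ∀ t ∈ Ioo (-(ε / 2)) b, κ t = 1 := by
  set η := min (ε / 4) ((T - b) / 2) with hη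
  have hη0 : 0 < η := lt_min (by linarith) (by linarith)
  have hη1 : η ≤ ε / 4 := min_le_left _ _
  have hη2 : η ≤ (T - b) / 2 := min_le_right _ _
  let f : ContDiffBump ((b - ε / 2) / 2) :=
    { rIn := (b + ε / 2) / 2
      rOut := (b + ε / 2) / 2 + η
      rIn_pos := by linarith
      rIn_lt_rOut := by linarith }
  refine ⟨f, f.contDiff, ?_, fun t ht => ?_⟩
  · rw [f.tsupport_eq, Real.closedBall_eq_Icc]
    intro t ht
    have h1 : (b - ε / 2) / 2 - ((b + ε / 2) / 2 + η) ≤ t := ht.1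
    have h2 : t ≤ (b - ε / 2) / 2 + ((b + ε / 2) / 2 + η) := ht.2
    constructor <;> linarith
  · apply f.one_of_mem_closedBall
    rw [Real.closedBall_eq_Icc]
    change t ∈ Icc ((b - ε / 2) / 2 - (b + ε / 2) / 2) ((b - ε / 2) / 2 + (b + ε / 2) / 2)
    constructor <;> linarith [ht.1, ht.2]

theorem glob {c : Config} {d : InitData} {T T' : ℝ} (hT' : 0 < T') (hTT : T' < T)
    (h : IsSolutionFrom d T c) :
    ∃ (c' : Config) (b : ℝ), T' < b ∧ (∀ i, ContDiff ℝ ∞ (fun p => c'.φ p i)) ∧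
      (∀ μ, ContDiff ℝ ∞ (c'.A μ)) ∧ (∀ p ∈ slab 0 b, c'.SolvesAt p) ∧ c'.StartsFrom d := by
  obtain ⟨⟨ε, hε, hsm⟩, hsol, hst⟩ := h
  obtain ⟨κ, hκ, hκs, hκ1⟩ := Glob_bump (b := (T' + T) / 2) hε (by linarith)
    (show (T' + T) / 2 < T by linarith)
  let c' : Config :=
    { φ := fun p i => κ (p 0) * c.φ p i
      A := fun μ p => κ (p 0) * c.A μ p }
  have hφ : ∀ p ∈ slab (-(ε / 2)) ((T' + T) / 2), c'.φ p = c.φ p := by
    intro p hp
    funext i
    change κ (p 0) * c.φ p i = c.φ p i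
    rw [hκ1 (p 0) hp, one_mul]
  have hA : ∀ p ∈ slab (-(ε / 2)) ((T' + T) / 2), ∀ μ, c'.A μ p = c.A μ p := by
    intro p hp μ
    change κ (p 0) * c.A μ p = c.A μ p
    rw [hκ1 (p 0) hp, one_mul]
  refine ⟨c', (T' + T) / 2, by linarith, fun i => ?_, fun μ => ?_, fun p hp => ?_, ?_⟩
  · exact Glob_cut hκ hκs (hsm.1 i)
  · exact Glob_cut hκ hκs (hsm.2 μ)
  · refine SolvesAt_congr (Glob_isOpen_slab _ _) hφ hA ⟨by linarith [hp.1], hp.2⟩ (hsol p ⟨hp.1, ?_⟩)
    linarith [hp.2]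
  · exact StartsFrom_congr (by linarith) (by linarith) hφ hA hst

end H72GS

end S_Glob

section S_GaugeA

/-!
# GaugeA: gauge covariance

`c.gauge Λ`: `φ ↦ Rot(-Λ) φ`, `A_μ ↦ A_μ + ∂_μ Λ`.
* `gauge_D`: `D^{gauge}_μ (Rot(-Λ) V) = Rot(-Λ) (D_μ V)` for smooth `V`, because
  `∂_μ (Rot(-Λ) V) = Rot(-Λ) ∂_μ V - ∂_μ Λ n × Rot(-Λ) V` and `n × Rot V = Rot (n × V)`.
* `gauge_solves`: apply it twice for the second covariant derivatives; `F` is invariant (`pd_comm`);
  the cross product and the dot product with `n` are compatible with rotations about `n`.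
-/

namespace H72GS

open Set
open scoped ContDiff

noncomputable section

/-- gauge transformation -/
def Config.gauge (c : Config) (Λ : Pt → ℝ) : Config where
  φ := fun p => Rot (-Λ p) (c.φ p)
  A := fun μ p => c.A μ p + pd μ Λ p

private theorem GaugeA_cos {Λ : Pt → ℝ} (hΛ : ContDiff ℝ ∞ Λ) (μ : Fin 3) (p : Pt) :
    pd μ (fun q => Real.cos (-Λ q)) p = Real.sin (-Λ p) * pd μ Λ p := by
  have h1 : HasFDerivAt Λ (fderiv ℝ Λ p) p :=
    ((hΛ.differentiable (by simp)) p).hasFDerivAt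
  have h2 := (h1.fun_neg).cos
  unfold pd
  rw [h2.fderiv]
  simp

private theorem GaugeA_sin {Λ : Pt → ℝ} (hΛ : ContDiff ℝ ∞ Λ) (μ : Fin 3) (p : Pt) :
    pd μ (fun q => Real.sin (-Λ q)) p = -(Real.cos (-Λ p) * pd μ Λ p) := by
  have h1 : HasFDerivAt Λ (fderiv ℝ Λ p) p :=
    ((hΛ.differentiable (by simp)) p).hasFDerivAt
  have h2 := (h1.fun_neg).sin
  unfold pd
  rw [h2.fderiv]
  simp

theorem gauge_D {c : Config} {Λ : Pt → ℝ} (hΛ : ContDiff ℝ ∞ Λ) {V : Pt → Fin 3 → ℝ}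
    (hV : ∀ i, ContDiff ℝ ∞ (fun p => V p i)) (μ : Fin 3) (p : Pt) :
    (c.gauge Λ).D μ (fun q => Rot (-Λ q) (V q)) p = Rot (-Λ p) (c.D μ V p) := by
  have hcos : ContDiff ℝ ∞ (fun q => Real.cos (-Λ q)) := hΛ.neg.cos
  have hsin : ContDiff ℝ ∞ (fun q => Real.sin (-Λ q)) := hΛ.neg.sin
  have e0 : (fun q => Rot (-Λ q) (V q) 0) =
      fun q => Real.cos (-Λ q) * V q 0 - Real.sin (-Λ q) * V q 1 := by
    funext q; simp [Rot]
  have e1 : (fun q => Rot (-Λ q) (V q) 1) =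
      fun q => Real.sin (-Λ q) * V q 0 + Real.cos (-Λ q) * V q 1 := by
    funext q; simp [Rot]
  have e2 : (fun q => Rot (-Λ q) (V q) 2) = fun q => V q 2 := by
    funext q; simp [Rot]
  have hA : (c.gauge Λ).A μ p = c.A μ p + pd μ Λ p := rfl
  funext i
  fin_cases i
  · change (c.gauge Λ).D μ (fun q => Rot (-Λ q) (V q)) p 0 = Rot (-Λ p) (c.D μ V p) 0
    rw [D_zero, e0, pd_sub (hcos.mul (hV 0)) (hsin.mul (hV 1)), pd_mul hcos (hV 0),
      pd_mul hsin (hV 1), GaugeA_cos hΛ, GaugeA_sin hΛ, hA]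
    have h1 : Rot (-Λ p) (V p) 1 = Real.sin (-Λ p) * V p 0 + Real.cos (-Λ p) * V p 1 := by
      simp [Rot]
    have h2 : Rot (-Λ p) (c.D μ V p) 0 =
        Real.cos (-Λ p) * c.D μ V p 0 - Real.sin (-Λ p) * c.D μ V p 1 := by
      simp [Rot]
    rw [h1, h2, D_zero, D_one]
    ring
  · change (c.gauge Λ).D μ (fun q => Rot (-Λ q) (V q)) p 1 = Rot (-Λ p) (c.D μ V p) 1
    rw [D_one, e1, pd_add (hsin.mul (hV 0)) (hcos.mul (hV 1)), pd_mul hsin (hV 0),
      pd_mul hcos (hV 1), GaugeA_cos hΛ, GaugeA_sin hΛ, hA]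
    have h1 : Rot (-Λ p) (V p) 0 = Real.cos (-Λ p) * V p 0 - Real.sin (-Λ p) * V p 1 := by
      simp [Rot]
    have h2 : Rot (-Λ p) (c.D μ V p) 1 =
        Real.sin (-Λ p) * c.D μ V p 0 + Real.cos (-Λ p) * c.D μ V p 1 := by
      simp [Rot]
    rw [h1, h2, D_zero, D_one]
    ring
  · change (c.gauge Λ).D μ (fun q => Rot (-Λ q) (V q)) p 2 = Rot (-Λ p) (c.D μ V p) 2
    rw [D_two, e2]
    have h2 : Rot (-Λ p) (c.D μ V p) 2 = c.D μ V p 2 := by simp [Rot]
    rw [h2, D_two]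

theorem gauge_F {c : Config} {Λ : Pt → ℝ} (hΛ : ContDiff ℝ ∞ Λ) (hA : ∀ μ, ContDiff ℝ ∞ (c.A μ))
    (μ ν : Fin 3) (p : Pt) : (c.gauge Λ).F μ ν p = c.F μ ν p := by
  unfold Config.F
  have h1 : ∀ α, (c.gauge Λ).A α = fun q => c.A α q + pd α Λ q := fun α => rfl
  rw [h1, h1, pd_add (hA ν) (pd_smooth hΛ ν), pd_add (hA μ) (pd_smooth hΛ μ), pd_comm hΛ μ ν]
  ring

private theorem GaugeA_D_smooth {c : Config} (hφ : ∀ i, ContDiff ℝ ∞ (fun p => c.φ p i))
    (hA : ∀ μ, ContDiff ℝ ∞ (c.A μ)) (μ i : Fin 3) :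
    ContDiff ℝ ∞ (fun p => c.D μ c.φ p i) := by
  fin_cases i
  · change ContDiff ℝ ∞ (fun p => c.D μ c.φ p 0)
    simp only [D_zero]
    exact (pd_smooth (hφ 0) μ).sub ((hA μ).mul (hφ 1))
  · change ContDiff ℝ ∞ (fun p => c.D μ c.φ p 1)
    simp only [D_one]
    exact (pd_smooth (hφ 1) μ).add ((hA μ).mul (hφ 0))
  · change ContDiff ℝ ∞ (fun p => c.D μ c.φ p 2)
    simp only [D_two]
    exact pd_smooth (hφ 2) μ

private theorem GaugeA_Rot_dot (θ : ℝ) (V : Fin 3 → ℝ) :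
    dotProduct (Rot θ V) (Rot θ V) = dotProduct V V := by
  have h0 : Rot θ V 0 = Real.cos θ * V 0 - Real.sin θ * V 1 := by simp [Rot]
  have h1 : Rot θ V 1 = Real.sin θ * V 0 + Real.cos θ * V 1 := by simp [Rot]
  have h2 : Rot θ V 2 = V 2 := by simp [Rot]
  simp only [dotProduct, Fin.sum_univ_three, h0, h1, h2]
  have := Real.sin_sq_add_cos_sq θ
  linear_combination (V 0 * V 0 + V 1 * V 1) * this

private theorem GaugeA_Rot_nn_dot (θ : ℝ) (V : Fin 3 → ℝ) :
    dotProduct nn (Rot θ V) = dotProduct nn V := by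
  rw [nn_dot, nn_dot]
  simp [Rot]

private theorem GaugeA_Rot_cross (θ : ℝ) (V W : Fin 3 → ℝ) :
    crossProduct (Rot θ V) (Rot θ W) = Rot θ (crossProduct V W) := by
  have := Real.sin_sq_add_cos_sq θ
  rw [cross_apply, cross_apply]
  funext i
  fin_cases i
  · simp [Rot]; ring
  · simp [Rot]; ring
  · simp [Rot]
    linear_combination (V 0 * W 1 - V 1 * W 0) * this

private theorem GaugeA_Rot_lin (θ : ℝ) (a b d x : ℝ) (U V W : Fin 3 → ℝ) :
    a • Rot θ U + b • Rot θ V + d • Rot θ W - x • nn =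
      Rot θ (a • U + b • V + d • W - x • nn) := by
  funext i
  fin_cases i
  · simp [Rot, nn]; ring
  · simp [Rot, nn]; ring
  · simp [Rot, nn]

private theorem GaugeA_Rot_zero (θ : ℝ) : Rot θ 0 = 0 := by
  funext i
  fin_cases i <;> simp [Rot]

theorem gauge_solves {c : Config} {Λ : Pt → ℝ} (hΛ : ContDiff ℝ ∞ Λ)
    (hφ : ∀ i, ContDiff ℝ ∞ (fun p => c.φ p i)) (hA : ∀ μ, ContDiff ℝ ∞ (c.A μ)) {p : Pt}
    (h : c.SolvesAt p) : (c.gauge Λ).SolvesAt p := by
  have hφ' : (c.gauge Λ).φ = fun q => Rot (-Λ q) (c.φ q) := rfl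
  have hD : ∀ μ, (c.gauge Λ).D μ (c.gauge Λ).φ = fun q => Rot (-Λ q) (c.D μ c.φ q) := by
    intro μ
    funext q
    rw [hφ']
    exact gauge_D hΛ hφ μ q
  have hDD : ∀ μ, (c.gauge Λ).D μ ((c.gauge Λ).D μ (c.gauge Λ).φ) p =
      Rot (-Λ p) (c.D μ (c.D μ c.φ) p) := by
    intro μ
    rw [hD]
    exact gauge_D hΛ (fun i => GaugeA_D_smooth hφ hA μ i) μ p
  have hF : ∀ μ ν, (c.gauge Λ).F μ ν = c.F μ ν := fun μ ν => funext fun q => gauge_F hΛ hA μ ν q
  refine ⟨?_, ?_, ?_⟩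
  · rw [hφ', GaugeA_Rot_dot]
    exact h.sphere
  · have h1 := h.phiEq
    have hφp : (c.gauge Λ).φ p = Rot (-Λ p) (c.φ p) := rfl
    rw [Fin.sum_univ_three] at h1 ⊢
    rw [hDD, hDD, hDD, hφp, GaugeA_Rot_nn_dot, GaugeA_Rot_lin, GaugeA_Rot_cross, h1,
      GaugeA_Rot_zero]
  · intro μ
    have hφp : (c.gauge Λ).φ p = Rot (-Λ p) (c.φ p) := rfl
    simp only [hF, hφp, hD, GaugeA_Rot_cross, GaugeA_Rot_nn_dot]
    exact h.maxwell μ

end

end H72GS

end S_GaugeA

section S_GaugeB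

/-!
# GaugeB: transformation to the temporal gauge

* `theta_smooth`: the `θ` of `StartsFrom` is smooth because its derivatives
  `∂_i θ = c.A i (0,x) - a_i(x)` are (`contDiff_infty_iff_fderiv`).
* `to_temporal`: with `θ` from `StartsFrom`, `Λ(t,x) = -θ(x) - ∫_0^t A_0(s,x) ds
  = -θ(x) - t ∫_0^1 A_0(t s, x) ds` (smooth by `contDiff_paramInt`, `∂_t Λ = -A_0`).
  `c' = c.gauge Λ`.  At `t = 0`: `φ' = Rot(θ) Rot(-θ) φ_0`, `D_0 φ' = φ_1`, and `A'_0 = 0` gives
  `∂_t φ' = D_0 φ'`; `A'_i = 0`; `∂_t A'_i = F'_{0i} + ∂_i A'_0 = F_{0i} = 0`.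
-/

namespace H72GS

open Set
open scoped ContDiff

noncomputable section

/-- projection to the space coordinates -/
private def GaugeB_P : Pt →L[ℝ] ℝ × ℝ :=
  (ContinuousLinearMap.proj (R := ℝ) (φ := fun _ : Fin 3 => ℝ) 1).prod
    (ContinuousLinearMap.proj (R := ℝ) (φ := fun _ : Fin 3 => ℝ) 2)

private lemma GaugeB_P_apply (p : Pt) : GaugeB_P p = (p 1, p 2) := rfl

private lemma GaugeB_pd_comp {Θ : ℝ × ℝ → ℝ} (h : Differentiable ℝ Θ) (μ : Fin 3) (p : Pt) :
    pd μ (fun q => Θ (q 1, q 2)) p = fderiv ℝ Θ (p 1, p 2) (GaugeB_P (Pi.single μ 1)) := by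
  have h1 : HasFDerivAt (fun q : Pt => Θ (GaugeB_P q))
      ((fderiv ℝ Θ (GaugeB_P p)).comp GaugeB_P) p :=
    ((h (GaugeB_P p)).hasFDerivAt).comp p GaugeB_P.hasFDerivAt
  have h2 := h1.fderiv
  show fderiv ℝ (fun q : Pt => Θ (GaugeB_P q)) p (Pi.single μ 1) = _
  rw [h2]
  rfl

private lemma GaugeB_P0 : GaugeB_P (Pi.single 0 1) = 0 := by
  rw [GaugeB_P_apply]
  simp

private lemma GaugeB_P1 : GaugeB_P (Pi.single 1 1) = (1, 0) := by
  rw [GaugeB_P_apply]
  simp

private lemma GaugeB_P2 : GaugeB_P (Pi.single 2 1) = (0, 1) := by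
  rw [GaugeB_P_apply]
  simp

private lemma GaugeB_pt0_smooth : ContDiff ℝ ∞ (fun z : ℝ × ℝ => pt0 z.1 z.2) := by
  rw [contDiff_pi]
  intro i
  fin_cases i
  · exact contDiff_const
  · exact contDiff_fst
  · exact contDiff_snd

/-- a function on the plane whose derivatives are restrictions of smooth functions is smooth -/
theorem theta_smooth {θ : ℝ → ℝ → ℝ} (hθ : Differentiable ℝ (fun z : ℝ × ℝ => θ z.1 z.2))
    {G1 G2 : Pt → ℝ} (h1 : ContDiff ℝ ∞ G1) (h2 : ContDiff ℝ ∞ G2)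
    (e1 : ∀ x y, pd 1 (fun p => θ (p 1) (p 2)) (pt0 x y) = G1 (pt0 x y))
    (e2 : ∀ x y, pd 2 (fun p => θ (p 1) (p 2)) (pt0 x y) = G2 (pt0 x y)) :
    ContDiff ℝ ∞ (fun z : ℝ × ℝ => θ z.1 z.2) := by
  set Θ : ℝ × ℝ → ℝ := fun z => θ z.1 z.2 with hΘ
  have f1 : ∀ x y, fderiv ℝ Θ (x, y) (1, 0) = G1 (pt0 x y) := by
    intro x y
    rw [← e1 x y, ← GaugeB_P1]
    exact (GaugeB_pd_comp hθ 1 (pt0 x y)).symm
  have f2 : ∀ x y, fderiv ℝ Θ (x, y) (0, 1) = G2 (pt0 x y) := by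
    intro x y
    rw [← e2 x y, ← GaugeB_P2]
    exact (GaugeB_pd_comp hθ 2 (pt0 x y)).symm
  have f3 : fderiv ℝ Θ = fun z => G1 (pt0 z.1 z.2) • ContinuousLinearMap.fst ℝ ℝ ℝ +
      G2 (pt0 z.1 z.2) • ContinuousLinearMap.snd ℝ ℝ ℝ := by
    funext z
    obtain ⟨x, y⟩ := z
    ext
    · simp only [ContinuousLinearMap.comp_apply, ContinuousLinearMap.inl_apply]
      rw [f1]
      simp
    · simp only [ContinuousLinearMap.comp_apply, ContinuousLinearMap.inr_apply]
      rw [f2]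
      simp
  rw [contDiff_infty_iff_fderiv]
  refine ⟨hθ, ?_⟩
  rw [f3]
  exact ((h1.comp GaugeB_pt0_smooth).smul contDiff_const).add
    ((h2.comp GaugeB_pt0_smooth).smul contDiff_const)

private lemma GaugeB_Rot (t : ℝ) (V : Fin 3 → ℝ) : Rot t (Rot (-t) V) = V := by
  have h := Real.sin_sq_add_cos_sq t
  funext i
  fin_cases i
  · simp only [Rot, Real.cos_neg, Real.sin_neg, Fin.zero_eta, Matrix.cons_val_zero,
      Matrix.cons_val_one]
    linear_combination (V 0) * h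
  · simp only [Rot, Real.cos_neg, Real.sin_neg, Fin.mk_one, Matrix.cons_val_zero,
      Matrix.cons_val_one]
    linear_combination (V 1) * h
  · rfl

private lemma GaugeB_Rot_smooth {L : Pt → ℝ} {V : Pt → Fin 3 → ℝ} (hL : ContDiff ℝ ∞ L)
    (hV : ∀ i, ContDiff ℝ ∞ (fun p => V p i)) (i : Fin 3) :
    ContDiff ℝ ∞ (fun p => Rot (-L p) (V p) i) := by
  have hc : ContDiff ℝ ∞ (fun p => Real.cos (-L p)) := Real.contDiff_cos.comp hL.neg
  have hs : ContDiff ℝ ∞ (fun p => Real.sin (-L p)) := Real.contDiff_sin.comp hL.neg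
  fin_cases i
  · exact (hc.mul (hV 0)).sub (hs.mul (hV 1))
  · exact (hs.mul (hV 0)).add (hc.mul (hV 1))
  · exact hV 2

/-- the time integral of `A_0` -/
private def GaugeB_I (A : Pt → ℝ) (p : Pt) : ℝ :=
  ∫ s in (0 : ℝ)..1, A ![s * p 0, p 1, p 2]

private lemma GaugeB_I_smooth {A : Pt → ℝ} (hA : ContDiff ℝ ∞ A) : ContDiff ℝ ∞ (GaugeB_I A) := by
  have h1 : ContDiff ℝ ∞ (fun q : Pt × ℝ => (![q.2 * q.1 0, q.1 1, q.1 2] : Pt)) := by
    have hp : ∀ i : Fin 3, ContDiff ℝ ∞ (fun q : Pt × ℝ => q.1 i) := fun i =>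
      (contDiff_apply ℝ ℝ i).comp contDiff_fst
    rw [contDiff_pi]
    intro i
    fin_cases i
    · exact contDiff_snd.mul (hp 0)
    · exact hp 1
    · exact hp 2
  exact contDiff_paramInt (F := fun q : Pt × ℝ => A ![q.2 * q.1 0, q.1 1, q.1 2]) (hA.comp h1) 0 1

private lemma GaugeB_coord (i : Fin 3) : ContDiff ℝ ∞ (fun p : Pt => p i) :=
  contDiff_apply ℝ ℝ i

private lemma GaugeB_pd_coord (μ : Fin 3) (p : Pt) :
    pd μ (fun q : Pt => q 0) p = (Pi.single μ (1 : ℝ) : Pt) 0 := by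
  have : HasFDerivAt (fun q : Pt => q 0)
      (ContinuousLinearMap.proj (R := ℝ) (φ := fun _ : Fin 3 => ℝ) 0) p :=
    (ContinuousLinearMap.proj (R := ℝ) (φ := fun _ : Fin 3 => ℝ) 0).hasFDerivAt
  unfold pd
  rw [this.fderiv]
  rfl

private lemma GaugeB_pd_J {A : Pt → ℝ} (hA : ContDiff ℝ ∞ A) (p : Pt) :
    pd 0 (fun q => q 0 * GaugeB_I A q) p = A p := by
  have hJ : ContDiff ℝ ∞ (fun q : Pt => q 0 * GaugeB_I A q) :=
    (GaugeB_coord 0).mul (GaugeB_I_smooth hA)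
  have h1 := hasDerivAt_pd hJ 0 p (p 0)
  have e : ∀ x : ℝ, (fun q : Pt => q 0 * GaugeB_I A q) (Function.update p 0 x) =
      ∫ u in (0 : ℝ)..x, A ![u, p 1, p 2] := by
    intro x
    show (Function.update p 0 x) 0 * GaugeB_I A (Function.update p 0 x) = _
    unfold GaugeB_I
    have a0 : (Function.update p 0 x : Pt) 0 = x := by simp
    have a1 : (Function.update p 0 x : Pt) 1 = p 1 := by simp
    have a2 : (Function.update p 0 x : Pt) 2 = p 2 := by simp
    rw [a0, a1, a2]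
    have := intervalIntegral.mul_integral_comp_mul_right (f := fun u => A ![u, p 1, p 2])
      (a := 0) (b := 1) (c := x)
    simpa using this
  have hc : Continuous (fun u : ℝ => A ![u, p 1, p 2]) := by
    refine hA.continuous.comp ?_
    refine continuous_pi fun i => ?_
    fin_cases i
    · exact continuous_id
    · exact continuous_const
    · exact continuous_const
  have h2 : HasDerivAt (fun x : ℝ => ∫ u in (0 : ℝ)..x, A ![u, p 1, p 2]) (A ![p 0, p 1, p 2])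
      (p 0) := intervalIntegral.integral_hasDerivAt_right (hc.intervalIntegrable _ _)
        (hc.stronglyMeasurableAtFilter _ _) hc.continuousAt
  have h3 : (fun x : ℝ => (fun q : Pt => q 0 * GaugeB_I A q) (Function.update p 0 x)) =
      fun x : ℝ => ∫ u in (0 : ℝ)..x, A ![u, p 1, p 2] := funext e
  rw [h3] at h1
  have h4 := h1.unique h2
  have e5 : Function.update p 0 (p 0) = p := Function.update_eq_self 0 p
  have e6 : (![p 0, p 1, p 2] : Pt) = p := by
    funext i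
    fin_cases i <;> rfl
  rw [e5, e6] at h4
  exact h4

private lemma GaugeB_pd_zero (μ : Fin 3) (p : Pt) : pd μ (fun _ => (0 : ℝ)) p = 0 := by
  unfold pd
  simp

theorem to_temporal {c : Config} {b : ℝ} (hφ : ∀ i, ContDiff ℝ ∞ (fun p => c.φ p i))
    (hA : ∀ μ, ContDiff ℝ ∞ (c.A μ)) (hsol : ∀ p ∈ slab 0 b, c.SolvesAt p) {d : InitData}
    (hd : d.Smooth) (h0 : ∀ μ x y, d.a0 μ x y = 0) (h1 : ∀ μ x y, d.a1 μ x y = 0)
    (hst : c.StartsFrom d) :
    ∃ c' : Config, c'.Temporal b ∧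
      (∀ x y i, c'.φ (pt0 x y) i = d.φ0 x y i ∧
        pd 0 (fun p => c'.φ p i) (pt0 x y) = d.φ1 x y i) ∧
      (∀ μ x y, c'.A μ (pt0 x y) = 0 ∧ pd 0 (c'.A μ) (pt0 x y) = 0) := by
  obtain ⟨θ, hθ, hs⟩ := hst
  have hdA : ∀ μ, d.toConfig.A μ = fun _ => 0 := by
    intro μ
    funext p
    show d.a0 μ (p 1) (p 2) + p 0 * d.a1 μ (p 1) (p 2) = 0
    rw [h0, h1]
    ring
  have hth : ∀ i : Fin 3, i ≠ 0 → ∀ x y, pd i (fun p => θ (p 1) (p 2)) (pt0 x y) =
      c.A i (pt0 x y) := by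
    intro i hi x y
    have := ((hs x y).2.2 i hi).1
    rw [hdA i] at this
    rw [this]
    ring
  have hθs : ContDiff ℝ ∞ (fun z : ℝ × ℝ => θ z.1 z.2) :=
    theta_smooth hθ (hA 1) (hA 2) (hth 1 (by decide)) (hth 2 (by decide))
  have hθ3 : ContDiff ℝ ∞ (fun p : Pt => θ (p 1) (p 2)) :=
    hθs.comp ((GaugeB_coord 1).prodMk (GaugeB_coord 2))
  have hJ : ContDiff ℝ ∞ (fun q : Pt => q 0 * GaugeB_I (c.A 0) q) :=
    (GaugeB_coord 0).mul (GaugeB_I_smooth (hA 0))
  have hzero : ContDiff ℝ ∞ (fun _ : Pt => (0 : ℝ)) := contDiff_const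
  set L : Pt → ℝ := fun p => (0 - θ (p 1) (p 2)) - p 0 * GaugeB_I (c.A 0) p with hL
  have hLs : ContDiff ℝ ∞ L := (hzero.sub hθ3).sub hJ
  have pdL : ∀ μ p, pd μ L p = (0 - pd μ (fun p : Pt => θ (p 1) (p 2)) p) -
      pd μ (fun q : Pt => q 0 * GaugeB_I (c.A 0) q) p := by
    intro μ p
    have e1 := pd_sub (hzero.sub hθ3) hJ μ p
    have e2 := pd_sub hzero hθ3 μ p
    rw [GaugeB_pd_zero] at e2
    rw [← e2]
    exact e1
  have pd0θ : ∀ p, pd 0 (fun p : Pt => θ (p 1) (p 2)) p = 0 := by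
    intro p
    have := GaugeB_pd_comp (Θ := fun z : ℝ × ℝ => θ z.1 z.2) hθ 0 p
    rw [GaugeB_P0, map_zero] at this
    exact this
  have hL0 : ∀ x y, L (pt0 x y) = -θ x y := by
    intro x y
    show (0 - θ x y) - 0 * GaugeB_I (c.A 0) (pt0 x y) = _
    ring
  -- the new configuration
  have hA0 : ∀ p, (c.gauge L).A 0 p = 0 := by
    intro p
    show c.A 0 p + pd 0 L p = 0
    rw [pdL, pd0θ, GaugeB_pd_J (hA 0)]
    ring
  have hA0f : (c.gauge L).A 0 = fun _ => 0 := funext hA0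
  have hAi : ∀ i : Fin 3, i ≠ 0 → ∀ x y, (c.gauge L).A i (pt0 x y) = 0 := by
    intro i hi x y
    show c.A i (pt0 x y) + pd i L (pt0 x y) = 0
    rw [pdL, hth i hi]
    have e1 := pd_mul (GaugeB_coord 0) (GaugeB_I_smooth (hA 0)) i (pt0 x y)
    rw [GaugeB_pd_coord] at e1
    have e2 : (Pi.single i (1 : ℝ) : Pt) 0 = 0 := by
      rw [Pi.single_apply, if_neg (fun h => hi h.symm)]
    have e3 : pt0 x y 0 = 0 := rfl
    rw [e2, e3] at e1
    have e4 : pd i (fun q : Pt => q 0 * GaugeB_I (c.A 0) q) (pt0 x y) = 0 := by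
      rw [e1]; ring
    rw [e4]
    ring
  refine ⟨c.gauge L, ⟨?_, ?_, hA0, ?_⟩, ?_, ?_⟩
  · exact fun i => GaugeB_Rot_smooth hLs hφ i
  · exact fun μ => (hA μ).add (pd_smooth hLs μ)
  · exact fun p hp => gauge_solves hLs hφ hA (hsol p hp)
  · intro x y i
    have hx := hs x y
    constructor
    · show Rot (-L (pt0 x y)) (c.φ (pt0 x y)) i = d.φ0 x y i
      rw [hL0, neg_neg, hx.1, GaugeB_Rot]
      show d.φ0 x y i + 0 * d.φ1 x y i = d.φ0 x y i
      ring
    · have e1 := congrFun (gauge_D (c := c) hLs hφ 0 (pt0 x y)) i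
      rw [hL0, neg_neg, hx.2.1, GaugeB_Rot] at e1
      have e2 : (c.gauge L).D 0 (fun q => Rot (-L q) (c.φ q)) (pt0 x y) i =
          pd 0 (fun p => (c.gauge L).φ p i) (pt0 x y) := by
        show pd 0 (fun q => Rot (-L q) (c.φ q) i) (pt0 x y) + (c.gauge L).A 0 (pt0 x y) * _ = _
        rw [hA0]
        rw [zero_mul, add_zero]
        rfl
      rw [← e2, e1]
      show pd 0 (fun p => d.φ0 (p 1) (p 2) i + p 0 * d.φ1 (p 1) (p 2) i) (pt0 x y) +
        d.toConfig.A 0 (pt0 x y) * _ = _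
      rw [hdA 0, zero_mul, add_zero]
      have s0 : ContDiff ℝ ∞ (fun p : Pt => d.φ0 (p 1) (p 2) i) :=
        (hd.φ0 i).comp ((GaugeB_coord 1).prodMk (GaugeB_coord 2))
      have s1 : ContDiff ℝ ∞ (fun p : Pt => d.φ1 (p 1) (p 2) i) :=
        (hd.φ1 i).comp ((GaugeB_coord 1).prodMk (GaugeB_coord 2))
      rw [pd_add s0 ((GaugeB_coord 0).mul s1), pd_mul (GaugeB_coord 0) s1, GaugeB_pd_coord]
      have z0 : pd 0 (fun p : Pt => d.φ0 (p 1) (p 2) i) (pt0 x y) = 0 := by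
        have := GaugeB_pd_comp (Θ := fun z : ℝ × ℝ => d.φ0 z.1 z.2 i)
          ((hd.φ0 i).differentiable (by simp)) 0 (pt0 x y)
        rw [GaugeB_P0, map_zero] at this
        exact this
      rw [z0]
      have e3 : (Pi.single (0 : Fin 3) (1 : ℝ) : Pt) 0 = 1 := by simp
      have e4 : pt0 x y 0 = 0 := rfl
      have e5 : pt0 x y 1 = x := rfl
      have e6 : pt0 x y 2 = y := rfl
      rw [e3, e4, e5, e6]
      ring
  · intro μ x y
    by_cases hμ : μ = 0
    · subst hμ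
      refine ⟨hA0 _, ?_⟩
      rw [hA0f]
      exact GaugeB_pd_zero 0 _
    · refine ⟨hAi μ hμ x y, ?_⟩
      have e1 := gauge_F (c := c) hLs hA 0 μ (pt0 x y)
      rw [((hs x y).2.2 μ hμ).2] at e1
      have e2 : d.toConfig.F 0 μ (pt0 x y) = 0 := by
        show pd 0 (d.toConfig.A μ) (pt0 x y) - pd μ (d.toConfig.A 0) (pt0 x y) = 0
        rw [hdA μ, hdA 0, GaugeB_pd_zero, GaugeB_pd_zero]
        ring
      rw [e2] at e1
      have e3 : (c.gauge L).F 0 μ (pt0 x y) = pd 0 ((c.gauge L).A μ) (pt0 x y) -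
        pd μ ((c.gauge L).A 0) (pt0 x y) := rfl
      rw [e3, hA0f, GaugeB_pd_zero, sub_zero] at e1
      exact e1

end

end H72GS

end S_GaugeB

section S_SH

/-!
# SH: energy inequality with finite speed of propagation

Suppose `e ≥ 0`, `∂_t e = ∂_1 q1 + ∂_2 q2 + rem`, `ν·q ≤ e` for `|ν| ≤ 1`, `|rem| ≤ C_K e` on
compact sets, `e = 0` at `t = 0`.  Then `e = 0`.
Proof for a point `(t*, x*, y*)`, `t* > 0`: `R = t* + 2`, `u(t,x,y) = R - t - √(1+(x-x*)²+(y-y*)²)`,
`ψ = (max 0 u)²` (`C¹`, derivative `2 max 0 u · ∂u`), `|∇_x ψ| ≤ 2 max 0 u = -ψ_t`.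
`I(t) = ∫_{x*-R}^{x*+R} ∫_{y*-R}^{y*+R} ψ e dy dx` (iterated interval integrals; `ψ = 0` on the
boundary of the box).  `I' = ∫∫ ψ_t e + ψ (∂_1 q1 + ∂_2 q2 + rem)
= ∫∫ ψ_t e - ψ_x q1 - ψ_y q2 + ψ rem ≤ C I` for `t ∈ [0,t*]`, `C` from the compact set
`[0,t*] × box`.  Gronwall (`I e^{-Ct}` antitone), `I(0) = 0`, so `I(t*) = 0`, and `ψ(t*,x*,y*) = 1`,
continuity, give `e(t*,x*,y*) = 0`.
-/

namespace H72GS

open Set
open scoped ContDiff

/-! ### double integrals -/

private noncomputable def SH_dbl (a b c d : ℝ) (F : ℝ → ℝ → ℝ) : ℝ :=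
  ∫ x in a..b, ∫ y in c..d, F x y

private theorem SH_inner {F : ℝ → ℝ → ℝ} (hF : Continuous (fun p : ℝ × ℝ => F p.1 p.2)) (c d : ℝ) :
    Continuous (fun x => ∫ y in c..d, F x y) :=
  intervalIntegral.continuous_parametric_intervalIntegral_of_continuous' hF c d

private theorem SH_slice {F : ℝ → ℝ → ℝ} (hF : Continuous (fun p : ℝ × ℝ => F p.1 p.2)) (x : ℝ) :
    Continuous (F x) := hF.comp (f := fun y : ℝ => (x, y)) (by fun_prop)

private theorem SH_sub {F G : ℝ → ℝ → ℝ} (hF : Continuous (fun p : ℝ × ℝ => F p.1 p.2))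
    (hG : Continuous (fun p : ℝ × ℝ => G p.1 p.2)) (a b c d : ℝ) :
    SH_dbl a b c d (fun x y => F x y - G x y) = SH_dbl a b c d F - SH_dbl a b c d G := by
  unfold SH_dbl
  rw [← intervalIntegral.integral_sub ((SH_inner hF c d).intervalIntegrable _ _)
    ((SH_inner hG c d).intervalIntegrable _ _)]
  refine intervalIntegral.integral_congr fun x _ => ?_
  exact intervalIntegral.integral_sub ((SH_slice hF x).intervalIntegrable _ _)
    ((SH_slice hG x).intervalIntegrable _ _)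

private theorem SH_mono {F G : ℝ → ℝ → ℝ} (hF : Continuous (fun p : ℝ × ℝ => F p.1 p.2))
    (hG : Continuous (fun p : ℝ × ℝ => G p.1 p.2)) {a b c d : ℝ} (hab : a ≤ b) (hcd : c ≤ d)
    (h : ∀ x ∈ Icc a b, ∀ y ∈ Icc c d, F x y ≤ G x y) :
    SH_dbl a b c d F ≤ SH_dbl a b c d G := by
  refine intervalIntegral.integral_mono_on hab ((SH_inner hF c d).intervalIntegrable _ _)
    ((SH_inner hG c d).intervalIntegrable _ _) fun x hx => ?_
  exact intervalIntegral.integral_mono_on hcd ((SH_slice hF x).intervalIntegrable _ _)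
    ((SH_slice hG x).intervalIntegrable _ _) fun y hy => h x hx y hy

private theorem SH_const_mul (C : ℝ) (F : ℝ → ℝ → ℝ) (a b c d : ℝ) :
    SH_dbl a b c d (fun x y => C * F x y) = C * SH_dbl a b c d F := by
  unfold SH_dbl
  simp only [intervalIntegral.integral_const_mul]

private theorem SH_pos {F : ℝ → ℝ → ℝ} (hF : Continuous (fun p : ℝ × ℝ => F p.1 p.2))
    {a b c d : ℝ} (hab : a < b) (hcd : c < d)
    (h : ∀ x ∈ Icc a b, ∀ y ∈ Icc c d, 0 ≤ F x y) {x0 y0 : ℝ} (hx0 : x0 ∈ Icc a b)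
    (hy0 : y0 ∈ Icc c d) (h0 : 0 < F x0 y0) : 0 < SH_dbl a b c d F := by
  refine intervalIntegral.integral_pos hab (SH_inner hF c d).continuousOn (fun x hx => ?_)
    ⟨x0, hx0, ?_⟩
  · exact intervalIntegral.integral_nonneg hcd.le (h x (Ioc_subset_Icc_self hx))
  · exact intervalIntegral.integral_pos hcd (SH_slice hF x0).continuousOn
      (fun y hy => h x0 hx0 y (Ioc_subset_Icc_self hy)) ⟨y0, hy0, h0⟩

/-! ### coordinates -/

private theorem SH_vec {α : Type*} [TopologicalSpace α] {f g h : α → ℝ} (hf : Continuous f)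
    (hg : Continuous g) (hh : Continuous h) : Continuous (fun a => (![f a, g a, h a] : Pt)) := by
  refine continuous_pi fun i => ?_
  fin_cases i
  · exact hf
  · exact hg
  · exact hh

private theorem SH_pd_cont {G : Pt → ℝ} (hG : ContDiff ℝ 1 G) (μ : Fin 3) :
    Continuous (pd μ G) := (hG.continuous_fderiv one_ne_zero).clm_apply continuous_const

private theorem SH_d0 {G : Pt → ℝ} (hG : ContDiff ℝ 1 G) (t x y : ℝ) :
    HasDerivAt (fun s => G ![s, x, y]) (pd 0 G ![t, x, y]) t := by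
  have h1 := (hG.differentiable one_ne_zero ![t, x, y]).hasFDerivAt
  have h2 : HasDerivAt (fun s : ℝ => (![s, x, y] : Pt)) (Pi.single 0 1) t := by
    rw [hasDerivAt_pi]
    intro i
    fin_cases i
    · simpa using hasDerivAt_id' t
    · simpa using hasDerivAt_const t x
    · simpa using hasDerivAt_const t y
  exact h1.comp_hasDerivAt t h2

private theorem SH_d1 {G : Pt → ℝ} (hG : ContDiff ℝ 1 G) (t x y : ℝ) :
    HasDerivAt (fun s => G ![t, s, y]) (pd 1 G ![t, x, y]) x := by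
  have h1 := (hG.differentiable one_ne_zero ![t, x, y]).hasFDerivAt
  have h2 : HasDerivAt (fun s : ℝ => (![t, s, y] : Pt)) (Pi.single 1 1) x := by
    rw [hasDerivAt_pi]
    intro i
    fin_cases i
    · simpa using hasDerivAt_const x t
    · simpa using hasDerivAt_id' x
    · simpa using hasDerivAt_const x y
  exact h1.comp_hasDerivAt x h2

private theorem SH_d2 {G : Pt → ℝ} (hG : ContDiff ℝ 1 G) (t x y : ℝ) :
    HasDerivAt (fun s => G ![t, x, s]) (pd 2 G ![t, x, y]) y := by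
  have h1 := (hG.differentiable one_ne_zero ![t, x, y]).hasFDerivAt
  have h2 : HasDerivAt (fun s : ℝ => (![t, x, s] : Pt)) (Pi.single 2 1) y := by
    rw [hasDerivAt_pi]
    intro i
    fin_cases i
    · simpa using hasDerivAt_const y t
    · simpa using hasDerivAt_const y x
    · simpa using hasDerivAt_id' y
  exact h1.comp_hasDerivAt y h2

/-! ### the weight -/

private theorem SH_pp (s : ℝ) : HasDerivAt (fun s : ℝ => (max 0 s) ^ 2) (2 * max 0 s) s := by
  rcases lt_trichotomy s 0 with h | h | h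
  · have h1 : (fun s : ℝ => (max 0 s) ^ 2) =ᶠ[nhds s] fun _ => 0 := by
      filter_upwards [gt_mem_nhds h] with x hx
      rw [max_eq_left (le_of_lt hx)]; simp
    rw [max_eq_left h.le, mul_zero]
    exact (hasDerivAt_const s (0 : ℝ)).congr_of_eventuallyEq h1
  · subst h
    rw [max_self, mul_zero]
    rw [hasDerivAt_iff_isLittleO_nhds_zero]
    simp only [zero_add, smul_zero, sub_zero, max_self]
    have h1 : (fun h : ℝ => (max 0 h) ^ 2 - 0 ^ 2) =O[nhds 0] fun h : ℝ => h ^ 2 := by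
      refine Asymptotics.IsBigO.of_bound 1 (Filter.Eventually.of_forall fun h => ?_)
      rw [one_mul, Real.norm_eq_abs, Real.norm_eq_abs]
      rw [zero_pow two_ne_zero, sub_zero, abs_of_nonneg (sq_nonneg _), abs_of_nonneg (sq_nonneg _)]
      rcases le_total 0 h with h0 | h0
      · rw [max_eq_right h0]
      · rw [max_eq_left h0, zero_pow two_ne_zero]; positivity
    have h2 : (fun h : ℝ => h ^ 2) =o[nhds 0] fun h : ℝ => h := by
      have := Asymptotics.isLittleO_pow_id (𝕜 := ℝ) (n := 2) one_lt_two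
      simpa using this
    exact h1.trans_isLittleO h2
  · have h1 : (fun s : ℝ => (max 0 s) ^ 2) =ᶠ[nhds s] fun s => s ^ 2 := by
      filter_upwards [lt_mem_nhds h] with x hx
      rw [max_eq_right (le_of_lt hx)]
    rw [max_eq_right h.le]
    have h2 := hasDerivAt_pow 2 s
    simp only [Nat.cast_ofNat, Nat.add_one_sub_one, pow_one] at h2
    exact h2.congr_of_eventuallyEq h1

/-- the root -/
private noncomputable def SH_r (x0 y0 x y : ℝ) : ℝ := Real.sqrt (1 + (x - x0) ^ 2 + (y - y0) ^ 2)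

private noncomputable def SH_u (R x0 y0 t x y : ℝ) : ℝ := R - t - SH_r x0 y0 x y

private theorem SH_r_pos (x0 y0 x y : ℝ) : 0 < SH_r x0 y0 x y := Real.sqrt_pos.2 (by positivity)

private theorem SH_r_sq (x0 y0 x y : ℝ) : SH_r x0 y0 x y ^ 2 = 1 + (x - x0) ^ 2 + (y - y0) ^ 2 :=
  Real.sq_sqrt (by positivity)

private theorem SH_rx (x0 y0 x y : ℝ) :
    HasDerivAt (fun x => SH_r x0 y0 x y) ((x - x0) / SH_r x0 y0 x y) x := by
  have h1 : HasDerivAt (fun x : ℝ => 1 + (x - x0) ^ 2 + (y - y0) ^ 2) (2 * (x - x0)) x := by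
    have := ((((hasDerivAt_id x).sub_const x0).pow 2).const_add 1).add_const ((y - y0) ^ 2)
    simpa using this
  have h2 := h1.sqrt (by positivity)
  refine h2.congr_deriv ?_
  show 2 * (x - x0) / (2 * SH_r x0 y0 x y) = _
  have := (SH_r_pos x0 y0 x y).ne'
  field_simp

private theorem SH_ry (x0 y0 x y : ℝ) :
    HasDerivAt (fun y => SH_r x0 y0 x y) ((y - y0) / SH_r x0 y0 x y) y := by
  have h1 : HasDerivAt (fun y : ℝ => 1 + (x - x0) ^ 2 + (y - y0) ^ 2) (2 * (y - y0)) y := by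
    have := (((hasDerivAt_id y).sub_const y0).pow 2).const_add (1 + (x - x0) ^ 2)
    simpa using this
  have h2 := h1.sqrt (by positivity)
  refine h2.congr_deriv ?_
  show 2 * (y - y0) / (2 * SH_r x0 y0 x y) = _
  have := (SH_r_pos x0 y0 x y).ne'
  field_simp

private noncomputable def SH_P (R x0 y0 t x y : ℝ) : ℝ := (max 0 (SH_u R x0 y0 t x y)) ^ 2

private noncomputable def SH_Pt (R x0 y0 t x y : ℝ) : ℝ := 2 * max 0 (SH_u R x0 y0 t x y) * (-1)
private noncomputable def SH_Px (R x0 y0 t x y : ℝ) : ℝ :=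
  2 * max 0 (SH_u R x0 y0 t x y) * (-((x - x0) / SH_r x0 y0 x y))
private noncomputable def SH_Py (R x0 y0 t x y : ℝ) : ℝ :=
  2 * max 0 (SH_u R x0 y0 t x y) * (-((y - y0) / SH_r x0 y0 x y))

private theorem SH_dPt (R x0 y0 t x y : ℝ) :
    HasDerivAt (fun t => SH_P R x0 y0 t x y) (SH_Pt R x0 y0 t x y) t := by
  have h1 : HasDerivAt (fun t => SH_u R x0 y0 t x y) (-1) t := by
    exact ((hasDerivAt_id t).const_sub R).sub_const (SH_r x0 y0 x y)
  exact (SH_pp (SH_u R x0 y0 t x y)).comp t h1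

private theorem SH_dPx (R x0 y0 t x y : ℝ) :
    HasDerivAt (fun x => SH_P R x0 y0 t x y) (SH_Px R x0 y0 t x y) x := by
  have h1 : HasDerivAt (fun x => SH_u R x0 y0 t x y) (-((x - x0) / SH_r x0 y0 x y)) x := by
    exact (SH_rx x0 y0 x y).const_sub (R - t)
  exact (SH_pp (SH_u R x0 y0 t x y)).comp x h1

private theorem SH_dPy (R x0 y0 t x y : ℝ) :
    HasDerivAt (fun y => SH_P R x0 y0 t x y) (SH_Py R x0 y0 t x y) y := by
  have h1 : HasDerivAt (fun y => SH_u R x0 y0 t x y) (-((y - y0) / SH_r x0 y0 x y)) y := by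
    exact (SH_ry x0 y0 x y).const_sub (R - t)
  exact (SH_pp (SH_u R x0 y0 t x y)).comp y h1

section cont
variable {α : Type*} [TopologicalSpace α] {f g h : α → ℝ}

private theorem SH_r_c (x0 y0 : ℝ) (hg : Continuous g) (hh : Continuous h) :
    Continuous fun a => SH_r x0 y0 (g a) (h a) := by
  unfold SH_r; fun_prop

private theorem SH_u_c (R x0 y0 : ℝ) (hf : Continuous f) (hg : Continuous g) (hh : Continuous h) :
    Continuous fun a => max 0 (SH_u R x0 y0 (f a) (g a) (h a)) := by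
  have := SH_r_c x0 y0 hg hh
  unfold SH_u; fun_prop

private theorem SH_P_c (R x0 y0 : ℝ) (hf : Continuous f) (hg : Continuous g) (hh : Continuous h) :
    Continuous fun a => SH_P R x0 y0 (f a) (g a) (h a) := (SH_u_c R x0 y0 hf hg hh).pow 2

private theorem SH_Pt_c (R x0 y0 : ℝ) (hf : Continuous f) (hg : Continuous g) (hh : Continuous h) :
    Continuous fun a => SH_Pt R x0 y0 (f a) (g a) (h a) :=
  ((SH_u_c R x0 y0 hf hg hh).const_mul 2).mul continuous_const

private theorem SH_Px_c (R x0 y0 : ℝ) (hf : Continuous f) (hg : Continuous g) (hh : Continuous h) :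
    Continuous fun a => SH_Px R x0 y0 (f a) (g a) (h a) :=
  ((SH_u_c R x0 y0 hf hg hh).const_mul 2).mul
    ((hg.sub continuous_const).div (SH_r_c x0 y0 hg hh) fun _ => (SH_r_pos _ _ _ _).ne').neg

private theorem SH_Py_c (R x0 y0 : ℝ) (hf : Continuous f) (hg : Continuous g) (hh : Continuous h) :
    Continuous fun a => SH_Py R x0 y0 (f a) (g a) (h a) :=
  ((SH_u_c R x0 y0 hf hg hh).const_mul 2).mul
    ((hh.sub continuous_const).div (SH_r_c x0 y0 hg hh) fun _ => (SH_r_pos _ _ _ _).ne').neg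

end cont

private theorem SH_P_bx {R x0 y0 t x : ℝ} (ht : 0 ≤ t) (hx : R ≤ |x - x0|) (hR : 0 ≤ R) (y : ℝ) :
    SH_P R x0 y0 t x y = 0 := by
  have h1 : R ≤ SH_r x0 y0 x y := by
    apply Real.le_sqrt_of_sq_le
    have : R ^ 2 ≤ (x - x0) ^ 2 := by rw [← sq_abs (x - x0)]; gcongr
    nlinarith [sq_nonneg (y - y0)]
  unfold SH_P SH_u
  rw [max_eq_left (by linarith)]; simp

private theorem SH_P_by {R x0 y0 t y : ℝ} (ht : 0 ≤ t) (hy : R ≤ |y - y0|) (hR : 0 ≤ R) (x : ℝ) :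
    SH_P R x0 y0 t x y = 0 := by
  have h1 : R ≤ SH_r x0 y0 x y := by
    apply Real.le_sqrt_of_sq_le
    have : R ^ 2 ≤ (y - y0) ^ 2 := by rw [← sq_abs (y - y0)]; gcongr
    nlinarith [sq_nonneg (x - x0)]
  unfold SH_P SH_u
  rw [max_eq_left (by linarith)]; simp

/-- no boundary terms in the `x` direction -/
private theorem SH_Z1 {q : Pt → ℝ} (hq : ContDiff ℝ 1 q) {R x0 y0 t : ℝ} (ht : 0 ≤ t) (hR : 0 ≤ R) :
    SH_dbl (x0 - R) (x0 + R) (y0 - R) (y0 + R) (fun x y =>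
      SH_Px R x0 y0 t x y * q ![t, x, y] + SH_P R x0 y0 t x y * pd 1 q ![t, x, y]) = 0 := by
  have hqc := hq.continuous
  have hpc := SH_pd_cont hq 1
  have hD : ∀ x, HasDerivAt (fun x => ∫ y in (y0 - R)..(y0 + R), SH_P R x0 y0 t x y * q ![t, x, y])
      (∫ y in (y0 - R)..(y0 + R), (SH_Px R x0 y0 t x y * q ![t, x, y]
        + SH_P R x0 y0 t x y * pd 1 q ![t, x, y])) x := by
    intro x
    refine hasDerivAt_int (F := fun x y => SH_P R x0 y0 t x y * q ![t, x, y])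
      (F' := fun x y => SH_Px R x0 y0 t x y * q ![t, x, y]
        + SH_P R x0 y0 t x y * pd 1 q ![t, x, y]) ?_ ?_ ?_ _ _ x
    · intro x
      exact (SH_P_c R x0 y0 continuous_const continuous_const continuous_id).mul
        (hqc.comp (SH_vec continuous_const continuous_const continuous_id))
    · exact ((SH_Px_c R x0 y0 continuous_const continuous_fst continuous_snd).mul
        (hqc.comp (SH_vec continuous_const continuous_fst continuous_snd))).add
        ((SH_P_c R x0 y0 continuous_const continuous_fst continuous_snd).mul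
        (hpc.comp (SH_vec continuous_const continuous_fst continuous_snd)))
    · intro x y
      exact (SH_dPx R x0 y0 t x y).mul (SH_d1 hq t x y)
  unfold SH_dbl
  rw [ftc (F := fun x => ∫ y in (y0 - R)..(y0 + R), SH_P R x0 y0 t x y * q ![t, x, y])
    (by linarith) (fun x _ => (hD x).continuousAt.continuousWithinAt) ?_ (fun x _ => hD x)]
  · have e1 : ∀ x, R ≤ |x - x0| →
        ∫ y in (y0 - R)..(y0 + R), SH_P R x0 y0 t x y * q ![t, x, y] = 0 := by
      intro x hx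
      simp only [SH_P_bx ht hx hR, zero_mul]
      simp
    rw [e1 (x0 + R) (by rw [add_sub_cancel_left]; exact le_abs_self R),
      e1 (x0 - R) (by rw [sub_sub_cancel_left, abs_neg]; exact le_abs_self R), sub_zero]
  · refine (SH_inner (F := fun x y => SH_Px R x0 y0 t x y * q ![t, x, y]
      + SH_P R x0 y0 t x y * pd 1 q ![t, x, y]) ?_ _ _).continuousOn
    exact ((SH_Px_c R x0 y0 continuous_const continuous_fst continuous_snd).mul
        (hqc.comp (SH_vec continuous_const continuous_fst continuous_snd))).add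
        ((SH_P_c R x0 y0 continuous_const continuous_fst continuous_snd).mul
        (hpc.comp (SH_vec continuous_const continuous_fst continuous_snd)))

/-- no boundary terms in the `y` direction -/
private theorem SH_Z2 {q : Pt → ℝ} (hq : ContDiff ℝ 1 q) {R x0 y0 t : ℝ} (ht : 0 ≤ t) (hR : 0 ≤ R) :
    SH_dbl (x0 - R) (x0 + R) (y0 - R) (y0 + R) (fun x y =>
      SH_Py R x0 y0 t x y * q ![t, x, y] + SH_P R x0 y0 t x y * pd 2 q ![t, x, y]) = 0 := by
  have hqc := hq.continuous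
  have hpc := SH_pd_cont hq 2
  unfold SH_dbl
  have e1 : ∀ x, ∫ y in (y0 - R)..(y0 + R), (SH_Py R x0 y0 t x y * q ![t, x, y]
      + SH_P R x0 y0 t x y * pd 2 q ![t, x, y]) = 0 := by
    intro x
    have hD : ∀ y, HasDerivAt (fun y => SH_P R x0 y0 t x y * q ![t, x, y])
        (SH_Py R x0 y0 t x y * q ![t, x, y] + SH_P R x0 y0 t x y * pd 2 q ![t, x, y]) y :=
      fun y => (SH_dPy R x0 y0 t x y).mul (SH_d2 hq t x y)
    rw [ftc (F := fun y => SH_P R x0 y0 t x y * q ![t, x, y]) (by linarith)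
      (fun y _ => (hD y).continuousAt.continuousWithinAt) ?_ (fun y _ => hD y)]
    · rw [SH_P_by ht (by rw [add_sub_cancel_left]; exact le_abs_self R) hR,
        SH_P_by ht (by rw [sub_sub_cancel_left, abs_neg]; exact le_abs_self R) hR]
      ring
    · exact (((SH_Py_c R x0 y0 continuous_const continuous_const continuous_id).mul
        (hqc.comp (SH_vec continuous_const continuous_const continuous_id))).add
        ((SH_P_c R x0 y0 continuous_const continuous_const continuous_id).mul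
        (hpc.comp (SH_vec continuous_const continuous_const continuous_id)))).continuousOn
  simp only [e1]
  simp

theorem sh {b : ℝ} {e q1 q2 : Pt → ℝ} (he : ContDiff ℝ 1 e)
    (h1 : ContDiff ℝ 1 q1) (h2 : ContDiff ℝ 1 q2) (h0 : ∀ p ∈ hslab b, 0 ≤ e p)
    (hq : ∀ p ∈ hslab b, ∀ ν1 ν2 : ℝ, ν1 ^ 2 + ν2 ^ 2 ≤ 1 → ν1 * q1 p + ν2 * q2 p ≤ e p)
    (hrem : ∀ K : Set Pt, IsCompact K → K ⊆ hslab b →
      ∃ C, ∀ p ∈ K, |pd 0 e p - pd 1 q1 p - pd 2 q2 p| ≤ C * e p)
    (hinit : ∀ x y, e (pt0 x y) = 0) : ∀ p ∈ hslab b, e p = 0 := by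
  intro p hp
  obtain ⟨ts, x0, y0, rfl⟩ : ∃ t x y, p = ![t, x, y] := by
    refine ⟨p 0, p 1, p 2, ?_⟩
    funext i
    fin_cases i <;> rfl
  have hts : 0 ≤ ts ∧ ts < b := hp
  rcases hts.1.eq_or_lt with hz | hpos
  · rw [← hz]; exact hinit x0 y0
  by_contra hne
  have hep : 0 < e ![ts, x0, y0] := lt_of_le_of_ne (h0 _ hp) (Ne.symm hne)
  set R : ℝ := ts + 2 with hRdef
  have hR : 0 < R := by linarith
  -- the compact set
  set K : Set Pt := Icc (![0, x0 - R, y0 - R] : Pt) ![ts, x0 + R, y0 + R] with hK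
  have hKc : IsCompact K := isCompact_Icc
  have hmemK : ∀ t ∈ Icc 0 ts, ∀ x ∈ Icc (x0 - R) (x0 + R), ∀ y ∈ Icc (y0 - R) (y0 + R),
      (![t, x, y] : Pt) ∈ K := by
    intro t ht x hx y hy
    constructor
    · intro i; fin_cases i
      · exact ht.1
      · exact hx.1
      · exact hy.1
    · intro i; fin_cases i
      · exact ht.2
      · exact hx.2
      · exact hy.2
  have hKs : K ⊆ hslab b := by
    intro q hq'
    exact ⟨hq'.1 0, lt_of_le_of_lt (hq'.2 0) hts.2⟩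
  obtain ⟨C, hC⟩ := hrem K hKc hKs
  -- the integral
  have hec := he.continuous
  have hq1c := h1.continuous
  have hq2c := h2.continuous
  have hd0 := SH_pd_cont he 0
  have hd1 := SH_pd_cont h1 1
  have hd2 := SH_pd_cont h2 2
  set I : ℝ → ℝ := fun t => SH_dbl (x0 - R) (x0 + R) (y0 - R) (y0 + R)
    (fun x y => SH_P R x0 y0 t x y * e ![t, x, y]) with hI
  set I' : ℝ → ℝ := fun t => SH_dbl (x0 - R) (x0 + R) (y0 - R) (y0 + R)
    (fun x y => SH_Pt R x0 y0 t x y * e ![t, x, y] + SH_P R x0 y0 t x y * pd 0 e ![t, x, y]) with hI'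
  have hder : ∀ t, HasDerivAt I (I' t) t := by
    intro t
    refine hasDerivAt_int (F := fun t x => ∫ y in (y0 - R)..(y0 + R),
        SH_P R x0 y0 t x y * e ![t, x, y])
      (F' := fun t x => ∫ y in (y0 - R)..(y0 + R), (SH_Pt R x0 y0 t x y * e ![t, x, y]
        + SH_P R x0 y0 t x y * pd 0 e ![t, x, y])) ?_ ?_ ?_ _ _ t
    · intro t
      refine SH_inner (F := fun x y => SH_P R x0 y0 t x y * e ![t, x, y]) ?_ _ _
      exact (SH_P_c R x0 y0 continuous_const continuous_fst continuous_snd).mul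
        (hec.comp (SH_vec continuous_const continuous_fst continuous_snd))
    · refine intervalIntegral.continuous_parametric_intervalIntegral_of_continuous'
        (f := fun (p : ℝ × ℝ) y => SH_Pt R x0 y0 p.1 p.2 y * e ![p.1, p.2, y]
        + SH_P R x0 y0 p.1 p.2 y * pd 0 e ![p.1, p.2, y]) ?_ _ _
      have c1 : Continuous fun q : (ℝ × ℝ) × ℝ => q.1.1 := by fun_prop
      have c2 : Continuous fun q : (ℝ × ℝ) × ℝ => q.1.2 := by fun_prop
      have c3 : Continuous fun q : (ℝ × ℝ) × ℝ => q.2 := by fun_prop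
      exact ((SH_Pt_c R x0 y0 c1 c2 c3).mul (hec.comp (SH_vec c1 c2 c3))).add
        ((SH_P_c R x0 y0 c1 c2 c3).mul (hd0.comp (SH_vec c1 c2 c3)))
    · intro t x
      refine hasDerivAt_int (F := fun t y => SH_P R x0 y0 t x y * e ![t, x, y])
        (F' := fun t y => SH_Pt R x0 y0 t x y * e ![t, x, y]
          + SH_P R x0 y0 t x y * pd 0 e ![t, x, y]) ?_ ?_ ?_ _ _ t
      · intro t
        exact (SH_P_c R x0 y0 continuous_const continuous_const continuous_id).mul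
          (hec.comp (SH_vec continuous_const continuous_const continuous_id))
      · exact ((SH_Pt_c R x0 y0 continuous_fst continuous_const continuous_snd).mul
          (hec.comp (SH_vec continuous_fst continuous_const continuous_snd))).add
          ((SH_P_c R x0 y0 continuous_fst continuous_const continuous_snd).mul
          (hd0.comp (SH_vec continuous_fst continuous_const continuous_snd)))
      · intro t y
        exact (SH_dPt R x0 y0 t x y).mul (SH_d0 he t x y)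
  -- the differential inequality
  have hineq : ∀ t ∈ Icc 0 ts, I' t ≤ C * I t := by
    intro t ht
    have cf := continuous_const (X := ℝ × ℝ) (y := t)
    have cA : Continuous fun p : ℝ × ℝ => SH_Pt R x0 y0 t p.1 p.2 * e ![t, p.1, p.2]
        + SH_P R x0 y0 t p.1 p.2 * pd 0 e ![t, p.1, p.2] :=
      ((SH_Pt_c R x0 y0 cf continuous_fst continuous_snd).mul
        (hec.comp (SH_vec cf continuous_fst continuous_snd))).add
        ((SH_P_c R x0 y0 cf continuous_fst continuous_snd).mul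
        (hd0.comp (SH_vec cf continuous_fst continuous_snd)))
    have cB : Continuous fun p : ℝ × ℝ => SH_Px R x0 y0 t p.1 p.2 * q1 ![t, p.1, p.2]
        + SH_P R x0 y0 t p.1 p.2 * pd 1 q1 ![t, p.1, p.2] :=
      ((SH_Px_c R x0 y0 cf continuous_fst continuous_snd).mul
        (hq1c.comp (SH_vec cf continuous_fst continuous_snd))).add
        ((SH_P_c R x0 y0 cf continuous_fst continuous_snd).mul
        (hd1.comp (SH_vec cf continuous_fst continuous_snd)))
    have cD : Continuous fun p : ℝ × ℝ => SH_Py R x0 y0 t p.1 p.2 * q2 ![t, p.1, p.2]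
        + SH_P R x0 y0 t p.1 p.2 * pd 2 q2 ![t, p.1, p.2] :=
      ((SH_Py_c R x0 y0 cf continuous_fst continuous_snd).mul
        (hq2c.comp (SH_vec cf continuous_fst continuous_snd))).add
        ((SH_P_c R x0 y0 cf continuous_fst continuous_snd).mul
        (hd2.comp (SH_vec cf continuous_fst continuous_snd)))
    have cE : Continuous fun p : ℝ × ℝ => C * (SH_P R x0 y0 t p.1 p.2 * e ![t, p.1, p.2]) :=
      ((SH_P_c R x0 y0 cf continuous_fst continuous_snd).mul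
        (hec.comp (SH_vec cf continuous_fst continuous_snd))).const_mul C
    have e1 := SH_sub (F := fun x y => SH_Pt R x0 y0 t x y * e ![t, x, y]
        + SH_P R x0 y0 t x y * pd 0 e ![t, x, y])
      (G := fun x y => SH_Px R x0 y0 t x y * q1 ![t, x, y]
        + SH_P R x0 y0 t x y * pd 1 q1 ![t, x, y]) cA cB (x0 - R) (x0 + R) (y0 - R) (y0 + R)
    rw [SH_Z1 h1 ht.1 hR.le, sub_zero] at e1
    have e2 := SH_sub (F := fun x y => (SH_Pt R x0 y0 t x y * e ![t, x, y]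
        + SH_P R x0 y0 t x y * pd 0 e ![t, x, y]) - (SH_Px R x0 y0 t x y * q1 ![t, x, y]
        + SH_P R x0 y0 t x y * pd 1 q1 ![t, x, y]))
      (G := fun x y => SH_Py R x0 y0 t x y * q2 ![t, x, y]
        + SH_P R x0 y0 t x y * pd 2 q2 ![t, x, y]) (cA.sub cB) cD (x0 - R) (x0 + R) (y0 - R) (y0 + R)
    rw [SH_Z2 h2 ht.1 hR.le, sub_zero, e1] at e2
    show SH_dbl (x0 - R) (x0 + R) (y0 - R) (y0 + R) (fun x y => SH_Pt R x0 y0 t x y * e ![t, x, y]
      + SH_P R x0 y0 t x y * pd 0 e ![t, x, y]) ≤ C * SH_dbl (x0 - R) (x0 + R) (y0 - R) (y0 + R)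
        (fun x y => SH_P R x0 y0 t x y * e ![t, x, y])
    rw [← SH_const_mul, ← e2]
    refine SH_mono ((cA.sub cB).sub cD) cE (by linarith) (by linarith) fun x hx y hy => ?_
    have hmem := hmemK t ht x hx y hy
    have hr := (abs_le.1 (hC _ hmem)).2
    have hrp := SH_r_pos x0 y0 x y
    have hνsq : ((x - x0) / SH_r x0 y0 x y) ^ 2 + ((y - y0) / SH_r x0 y0 x y) ^ 2 ≤ 1 := by
      rw [div_pow, div_pow, ← add_div, div_le_one (by positivity), SH_r_sq]
      linarith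
    have hν := hq _ (hKs hmem) _ _ hνsq
    have hu0 : 0 ≤ max 0 (SH_u R x0 y0 t x y) := le_max_left _ _
    have hP0 : 0 ≤ SH_P R x0 y0 t x y := sq_nonneg _
    have m1 := mul_le_mul_of_nonneg_left hν hu0
    have m2 := mul_le_mul_of_nonneg_left hr hP0
    unfold SH_Pt SH_Px SH_Py
    generalize max 0 (SH_u R x0 y0 t x y) = m at *
    generalize SH_P R x0 y0 t x y = P at *
    generalize (x - x0) / SH_r x0 y0 x y = n1 at *
    generalize (y - y0) / SH_r x0 y0 x y = n2 at *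
    nlinarith
  -- Gronwall
  have hI0 : I 0 = 0 := by
    have : ∀ x y, e ![0, x, y] = 0 := fun x y => hinit x y
    simp only [hI, this, mul_zero, SH_dbl]
    simp
  set φ : ℝ → ℝ := fun t => I t * Real.exp (-C * t) with hφ
  have hφd : ∀ t, HasDerivAt φ (I' t * Real.exp (-C * t) + I t * (Real.exp (-C * t) * -C)) t := by
    intro t
    have h3 : HasDerivAt (fun t => Real.exp (-C * t)) (Real.exp (-C * t) * -C) t := by
      have h4 : HasDerivAt (fun t : ℝ => -C * t) (-C) t := by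
        simpa using (hasDerivAt_id t).const_mul (-C)
      exact h4.exp
    exact (hder t).mul h3
  have hanti : AntitoneOn φ (Icc 0 ts) := by
    refine antitoneOn_of_deriv_nonpos (convex_Icc 0 ts)
      (fun t _ => (hφd t).continuousAt.continuousWithinAt)
      (fun t _ => (hφd t).differentiableAt.differentiableWithinAt) fun t ht => ?_
    rw [interior_Icc] at ht
    rw [(hφd t).deriv]
    have h3 := hineq t ⟨ht.1.le, ht.2.le⟩
    have h4 := Real.exp_pos (-C * t)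
    nlinarith
  have hle : φ ts ≤ φ 0 := hanti ⟨le_refl _, hpos.le⟩ ⟨hpos.le, le_refl _⟩ hpos.le
  have hφ0 : φ 0 = 0 := by simp [hφ, hI0]
  rw [hφ0] at hle
  have hIts : I ts ≤ 0 := by
    by_contra hcon
    push Not at hcon
    have : 0 < φ ts := mul_pos hcon (Real.exp_pos _)
    linarith
  have hIpos : 0 < I ts := by
    have cf := continuous_const (X := ℝ × ℝ) (y := ts)
    refine SH_pos (F := fun x y => SH_P R x0 y0 ts x y * e ![ts, x, y]) ?_ (by linarith)
      (by linarith) ?_ (x0 := x0) (y0 := y0) ⟨by linarith, by linarith⟩ ⟨by linarith, by linarith⟩ ?_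
    · exact (SH_P_c R x0 y0 cf continuous_fst continuous_snd).mul
        (hec.comp (SH_vec cf continuous_fst continuous_snd))
    · intro x hx y hy
      exact mul_nonneg (sq_nonneg _) (h0 _ (hKs (hmemK ts ⟨hpos.le, le_refl _⟩ x hx y hy)))
    · have : SH_P R x0 y0 ts x0 y0 = 1 := by
        unfold SH_P SH_u SH_r
        simp only [sub_self]
        norm_num [hRdef]
      show 0 < SH_P R x0 y0 ts x0 y0 * e ![ts, x0, y0]
      rw [this, one_mul]; exact hep
  linarith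

end H72GS

end S_SH
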