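import Mathlib
import Pool.Agent.H72.GS.Defs
import Pool.Agent.H72.GM.M7

set_option autoImplicit false

/-! Gauged sigma model, file M8: this file joins several modules to save build time. -/

section S_FOdef

/-!
# FOdef: first order variables for a configuration in temporal gauge

`U = (φ (0-2), ∂_t φ (3-5), ∂_1 φ (6-8), ∂_2 φ (9-11), A₁, A₂ (12,13), ∂_t A₁, ∂_t A₂ (14,15),
B = ∂_1 A₂ - ∂_2 A₁ (16), d = ∂_1 A₁ + ∂_2 A₂ (17))`.
-/

namespace H72GS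

noncomputable section

/-- first order variables -/
def UU (c : Config) (p : Pt) : Fin 18 → ℝ :=
  ![c.φ p 0, c.φ p 1, c.φ p 2,
    pd 0 (fun q => c.φ q 0) p, pd 0 (fun q => c.φ q 1) p, pd 0 (fun q => c.φ q 2) p,
    pd 1 (fun q => c.φ q 0) p, pd 1 (fun q => c.φ q 1) p, pd 1 (fun q => c.φ q 2) p,
    pd 2 (fun q => c.φ q 0) p, pd 2 (fun q => c.φ q 1) p, pd 2 (fun q => c.φ q 2) p,
    c.A 1 p, c.A 2 p, pd 0 (c.A 1) p, pd 0 (c.A 2) p,
    pd 1 (c.A 2) p - pd 2 (c.A 1) p, pd 1 (c.A 1) p + pd 2 (c.A 2) p]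

/-- the Lagrange multiplier `α = -|∂_t φ|² + |D₁φ|² + |D₂φ|² - (1 - φ₂) φ₂` -/
def alf (u : Fin 18 → ℝ) : ℝ :=
  -(u 3 ^ 2 + u 4 ^ 2 + u 5 ^ 2)
    + ((u 6 - u 12 * u 1) ^ 2 + (u 7 + u 12 * u 0) ^ 2 + u 8 ^ 2)
    + ((u 9 - u 13 * u 1) ^ 2 + (u 10 + u 13 * u 0) ^ 2 + u 11 ^ 2)
    - (1 - u 2) * u 2

/-- lower order terms in `φ_tt = Δ φ + K` -/
def Kf (i : Fin 3) (u : Fin 18 → ℝ) : ℝ :=
  (![-2 * u 12 * u 7 - 2 * u 13 * u 10 - u 17 * u 1 - (u 12 ^ 2 + u 13 ^ 2) * u 0 + alf u * u 0,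
    2 * u 12 * u 6 + 2 * u 13 * u 9 + u 17 * u 0 - (u 12 ^ 2 + u 13 ^ 2) * u 1 + alf u * u 1,
    (1 - u 2) + alf u * u 2] : Fin 3 → ℝ) i

/-- currents `J_μ = n · (φ × D_μ φ)` -/
def Jf (μ : Fin 3) (u : Fin 18 → ℝ) : ℝ :=
  (![u 0 * u 4 - u 1 * u 3,
    u 0 * u 7 - u 1 * u 6 + u 12 * (u 0 ^ 2 + u 1 ^ 2),
    u 0 * u 10 - u 1 * u 9 + u 13 * (u 0 ^ 2 + u 1 ^ 2)] : Fin 3 → ℝ) μ

end

end H72GS

end S_FOdef

section S_FOa

/-!
# FOa: evolution equations of the first order variables (temporal gauge)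

From `φ × W = 0`, `|φ| = 1` one gets `W = (φ·W) φ`, `W = φ_tt - D_1D_1φ - D_2D_2φ - (1-φ₂) n`;
differentiating `|φ|² = 1` (on the open slab) and `φ · D_i φ = 0`: `φ·φ_tt = -|φ_t|²`,
`φ·D_iD_iφ = -|D_iφ|²`.  `D_iD_iφ = ∂_i²φ + 2 A_i n×∂_iφ + (∂_iA_i) n×φ + A_i² n×(n×φ)`.
First for `p ∈ slab 0 b`, then `eq_hslab` (all terms are continuous).
Maxwell: `μ=0`: `-∂_1E_1 - ∂_2E_2 = J_0`; `μ=1`: `-∂_tE_1 - ∂_2B = J_1`;
`μ=2`: `-∂_tE_2 + ∂_1B = J_2`.
-/

namespace H72GS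

open Set
open scoped ContDiff

variable {c : Config} {b : ℝ}

theorem FOa_slab_open (b : ℝ) : IsOpen (slab 0 b) := by
  have h : Continuous fun p : Pt => p 0 := continuous_apply 0
  exact (isOpen_lt continuous_const h).inter (isOpen_lt h continuous_const)

theorem FOa_pd_zero {u : Pt → ℝ} {k : ℝ} (h : ∀ q ∈ slab 0 b, u q = k) (μ : Fin 3) {p : Pt}
    (hp : p ∈ slab 0 b) : pd μ u p = 0 := by
  have h1 : u =ᶠ[nhds p] fun _ => k := by
    filter_upwards [(FOa_slab_open b).mem_nhds hp] with q hq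
    exact h q hq
  unfold pd
  rw [h1.fderiv_eq]
  simp

theorem FOa_pd_neg {u : Pt → ℝ} (μ : Fin 3) (p : Pt) :
    pd μ (fun q => -u q) p = -pd μ u p := by
  unfold pd
  rw [fderiv_fun_neg]
  simp

theorem FOa_pd_const (k : ℝ) (μ : Fin 3) (p : Pt) : pd μ (fun _ => k) p = 0 := by
  unfold pd
  simp

theorem FOa_A0 (hc : c.Temporal b) : c.A 0 = fun _ => 0 := funext hc.A0

/-- sphere constraint -/
theorem FOa_sphere (hc : c.Temporal b) {p : Pt} (hp : p ∈ slab 0 b) :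
    c.φ p 0 ^ 2 + c.φ p 1 ^ 2 + c.φ p 2 ^ 2 = 1 := ((solvesAt_iff c p).mp (hc.sol p hp)).1

theorem FOa_d1 (hc : c.Temporal b) (μ : Fin 3) (p : Pt) :
    pd μ (fun q => c.φ q 0 * c.φ q 0 + c.φ q 1 * c.φ q 1 + c.φ q 2 * c.φ q 2) p =
      2 * (c.φ p 0 * pd μ (fun q => c.φ q 0) p + c.φ p 1 * pd μ (fun q => c.φ q 1) p
        + c.φ p 2 * pd μ (fun q => c.φ q 2) p) := by
  rw [pd_add (((hc.hφ 0).mul (hc.hφ 0)).add ((hc.hφ 1).mul (hc.hφ 1)))
    ((hc.hφ 2).mul (hc.hφ 2)), pd_add ((hc.hφ 0).mul (hc.hφ 0)) ((hc.hφ 1).mul (hc.hφ 1)),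
    pd_mul (hc.hφ 0) (hc.hφ 0), pd_mul (hc.hφ 1) (hc.hφ 1), pd_mul (hc.hφ 2) (hc.hφ 2)]
  ring

theorem FOa_orth (hc : c.Temporal b) (μ : Fin 3) {p : Pt} (hp : p ∈ slab 0 b) :
    c.φ p 0 * pd μ (fun q => c.φ q 0) p + c.φ p 1 * pd μ (fun q => c.φ q 1) p
        + c.φ p 2 * pd μ (fun q => c.φ q 2) p = 0 := by
  have h1 := FOa_d1 hc μ p
  have h2 : pd μ (fun q => c.φ q 0 * c.φ q 0 + c.φ q 1 * c.φ q 1 + c.φ q 2 * c.φ q 2) p = 0 :=
    FOa_pd_zero (k := 1) (fun q hq => by linarith [FOa_sphere hc hq]) μ hp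
  linarith

theorem FOa_orth2 (hc : c.Temporal b) (μ : Fin 3) {p : Pt} (hp : p ∈ slab 0 b) :
    c.φ p 0 * pd μ (pd μ (fun q => c.φ q 0)) p + c.φ p 1 * pd μ (pd μ (fun q => c.φ q 1)) p
        + c.φ p 2 * pd μ (pd μ (fun q => c.φ q 2)) p =
      -(pd μ (fun q => c.φ q 0) p ^ 2 + pd μ (fun q => c.φ q 1) p ^ 2
        + pd μ (fun q => c.φ q 2) p ^ 2) := by
  have h2 : pd μ (fun p => c.φ p 0 * pd μ (fun q => c.φ q 0) p
      + c.φ p 1 * pd μ (fun q => c.φ q 1) p + c.φ p 2 * pd μ (fun q => c.φ q 2) p) p = 0 :=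
    FOa_pd_zero (k := 0) (fun q hq => FOa_orth hc μ hq) μ hp
  have s0 := pd_smooth (hc.hφ 0) μ
  have s1 := pd_smooth (hc.hφ 1) μ
  have s2 := pd_smooth (hc.hφ 2) μ
  rw [pd_add (((hc.hφ 0).mul s0).add ((hc.hφ 1).mul s1)) ((hc.hφ 2).mul s2),
    pd_add ((hc.hφ 0).mul s0) ((hc.hφ 1).mul s1),
    pd_mul (hc.hφ 0) s0, pd_mul (hc.hφ 1) s1, pd_mul (hc.hφ 2) s2] at h2
  linarith

theorem FOa_UU_cont (hc : c.Temporal b) : Continuous (UU c) := by
  have a : ∀ i, Continuous (fun p => c.φ p i) := fun i => (hc.hφ i).continuous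
  have d : ∀ μ i, Continuous (pd μ (fun p => c.φ p i)) := fun μ i =>
    (pd_smooth (hc.hφ i) μ).continuous
  have e : ∀ μ, Continuous (c.A μ) := fun μ => (hc.hA μ).continuous
  have g : ∀ μ ν, Continuous (pd μ (c.A ν)) := fun μ ν => (pd_smooth (hc.hA ν) μ).continuous
  refine continuous_pi fun j => ?_
  fin_cases j
  exacts [a 0, a 1, a 2, d 0 0, d 0 1, d 0 2, d 1 0, d 1 1, d 1 2, d 2 0, d 2 1, d 2 2,
    e 1, e 2, g 0 1, g 0 2, (g 1 2).sub (g 2 1), (g 1 1).add (g 2 2)]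

theorem FOa_Kf_cont (i : Fin 3) : Continuous (Kf i) := by
  fin_cases i
  · show Continuous fun u : Fin 18 → ℝ =>
      -2 * u 12 * u 7 - 2 * u 13 * u 10 - u 17 * u 1 - (u 12 ^ 2 + u 13 ^ 2) * u 0 + alf u * u 0
    unfold alf
    fun_prop
  · show Continuous fun u : Fin 18 → ℝ =>
      2 * u 12 * u 6 + 2 * u 13 * u 9 + u 17 * u 0 - (u 12 ^ 2 + u 13 ^ 2) * u 1 + alf u * u 1
    unfold alf
    fun_prop
  · show Continuous fun u : Fin 18 → ℝ => (1 - u 2) + alf u * u 2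
    unfold alf
    fun_prop

theorem FOa_Jf_cont (i : Fin 3) : Continuous (Jf i) := by
  fin_cases i
  · show Continuous fun u : Fin 18 → ℝ => u 0 * u 4 - u 1 * u 3
    fun_prop
  · show Continuous fun u : Fin 18 → ℝ => u 0 * u 7 - u 1 * u 6 + u 12 * (u 0 ^ 2 + u 1 ^ 2)
    fun_prop
  · show Continuous fun u : Fin 18 → ℝ => u 0 * u 10 - u 1 * u 9 + u 13 * (u 0 ^ 2 + u 1 ^ 2)
    fun_prop

/-- the multiplier in the original variables -/
theorem FOa_alf (p : Pt) : alf (UU c p) =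
    -(pd 0 (fun q => c.φ q 0) p ^ 2 + pd 0 (fun q => c.φ q 1) p ^ 2
      + pd 0 (fun q => c.φ q 2) p ^ 2)
    + ((pd 1 (fun q => c.φ q 0) p - c.A 1 p * c.φ p 1) ^ 2
      + (pd 1 (fun q => c.φ q 1) p + c.A 1 p * c.φ p 0) ^ 2 + pd 1 (fun q => c.φ q 2) p ^ 2)
    + ((pd 2 (fun q => c.φ q 0) p - c.A 2 p * c.φ p 1) ^ 2
      + (pd 2 (fun q => c.φ q 1) p + c.A 2 p * c.φ p 0) ^ 2 + pd 2 (fun q => c.φ q 2) p ^ 2)
    - (1 - c.φ p 2) * c.φ p 2 := rfl

/-- the three components of the equation for `φ` in the open slab -/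
theorem FOa_open (hc : c.Temporal b) {p : Pt} (hp : p ∈ slab 0 b) (i : Fin 3) :
    pd 0 (pd 0 (fun q => c.φ q i)) p = pd 1 (pd 1 (fun q => c.φ q i)) p
      + pd 2 (pd 2 (fun q => c.φ q i)) p + Kf i (UU c p) := by
  obtain ⟨hs, ⟨e0, e1, e2⟩, -⟩ := (solvesAt_iff c p).mp (hc.sol p hp)
  have o0 := FOa_orth2 hc 0 hp
  have o1 := FOa_orth2 hc 1 hp
  have o2 := FOa_orth2 hc 2 hp
  have hA0 := FOa_A0 hc
  have hAA : pd 0 (c.A 0) p = 0 := by
    rw [hA0]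
    exact FOa_pd_const 0 0 p
  have hAp : c.A 0 p = 0 := hc.A0 p
  have w0 : Wf c p 0 = pd 0 (pd 0 (fun q => c.φ q 0)) p
      - (pd 1 (pd 1 (fun q => c.φ q 0)) p - 2 * c.A 1 p * pd 1 (fun q => c.φ q 1) p
        - pd 1 (c.A 1) p * c.φ p 1 - c.A 1 p ^ 2 * c.φ p 0)
      - (pd 2 (pd 2 (fun q => c.φ q 0)) p - 2 * c.A 2 p * pd 2 (fun q => c.φ q 1) p
        - pd 2 (c.A 2) p * c.φ p 1 - c.A 2 p ^ 2 * c.φ p 0) := by
    unfold Wf
    rw [DD_zero hc.hφ hc.hA, DD_zero hc.hφ hc.hA, DD_zero hc.hφ hc.hA, hAA, hAp,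
      if_neg (by decide)]
    ring
  have w1 : Wf c p 1 = pd 0 (pd 0 (fun q => c.φ q 1)) p
      - (pd 1 (pd 1 (fun q => c.φ q 1)) p + 2 * c.A 1 p * pd 1 (fun q => c.φ q 0) p
        + pd 1 (c.A 1) p * c.φ p 0 - c.A 1 p ^ 2 * c.φ p 1)
      - (pd 2 (pd 2 (fun q => c.φ q 1)) p + 2 * c.A 2 p * pd 2 (fun q => c.φ q 0) p
        + pd 2 (c.A 2) p * c.φ p 0 - c.A 2 p ^ 2 * c.φ p 1) := by
    unfold Wf
    rw [DD_one hc.hφ hc.hA, DD_one hc.hφ hc.hA, DD_one hc.hφ hc.hA, hAA, hAp,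
      if_neg (by decide)]
    ring
  have w2 : Wf c p 2 = pd 0 (pd 0 (fun q => c.φ q 2)) p - pd 1 (pd 1 (fun q => c.φ q 2)) p
      - pd 2 (pd 2 (fun q => c.φ q 2)) p - (1 - c.φ p 2) := by
    unfold Wf
    rw [DD_two, DD_two, DD_two, if_pos rfl]
  have hal := FOa_alf (c := c) p
  -- φ · W = α
  have hW : c.φ p 0 * Wf c p 0 + c.φ p 1 * Wf c p 1 + c.φ p 2 * Wf c p 2 = alf (UU c p) := by
    rw [hal, w0, w1, w2]
    linear_combination o0 - o1 - o2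
  have W0 : Wf c p 0 = alf (UU c p) * c.φ p 0 := by
    rw [← hW]
    linear_combination (-Wf c p 0) * hs - c.φ p 1 * e2 + c.φ p 2 * e1
  have W1 : Wf c p 1 = alf (UU c p) * c.φ p 1 := by
    rw [← hW]
    linear_combination (-Wf c p 1) * hs + c.φ p 0 * e2 - c.φ p 2 * e0
  have W2 : Wf c p 2 = alf (UU c p) * c.φ p 2 := by
    rw [← hW]
    linear_combination (-Wf c p 2) * hs - c.φ p 0 * e1 + c.φ p 1 * e0
  fin_cases i
  · show pd 0 (pd 0 (fun q => c.φ q 0)) p = pd 1 (pd 1 (fun q => c.φ q 0)) p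
      + pd 2 (pd 2 (fun q => c.φ q 0)) p + (-2 * c.A 1 p * pd 1 (fun q => c.φ q 1) p
        - 2 * c.A 2 p * pd 2 (fun q => c.φ q 1) p - (pd 1 (c.A 1) p + pd 2 (c.A 2) p) * c.φ p 1
        - (c.A 1 p ^ 2 + c.A 2 p ^ 2) * c.φ p 0 + alf (UU c p) * c.φ p 0)
    rw [w0] at W0
    linear_combination W0
  · show pd 0 (pd 0 (fun q => c.φ q 1)) p = pd 1 (pd 1 (fun q => c.φ q 1)) p
      + pd 2 (pd 2 (fun q => c.φ q 1)) p + (2 * c.A 1 p * pd 1 (fun q => c.φ q 0) p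
        + 2 * c.A 2 p * pd 2 (fun q => c.φ q 0) p + (pd 1 (c.A 1) p + pd 2 (c.A 2) p) * c.φ p 0
        - (c.A 1 p ^ 2 + c.A 2 p ^ 2) * c.φ p 1 + alf (UU c p) * c.φ p 1)
    rw [w1] at W1
    linear_combination W1
  · show pd 0 (pd 0 (fun q => c.φ q 2)) p = pd 1 (pd 1 (fun q => c.φ q 2)) p
      + pd 2 (pd 2 (fun q => c.φ q 2)) p + ((1 - c.φ p 2) + alf (UU c p) * c.φ p 2)
    rw [w2] at W2
    linear_combination W2

theorem phi_tt (hc : c.Temporal b) {p : Pt} (hp : p ∈ hslab b) (i : Fin 3) :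
    pd 0 (pd 0 (fun q => c.φ q i)) p = pd 1 (pd 1 (fun q => c.φ q i)) p
      + pd 2 (pd 2 (fun q => c.φ q i)) p + Kf i (UU c p) := by
  have s : ∀ μ, Continuous (pd μ (pd μ (fun q => c.φ q i))) := fun μ =>
    (pd_smooth (pd_smooth (hc.hφ i) μ) μ).continuous
  exact eq_hslab (G := fun p => pd 1 (pd 1 (fun q => c.φ q i)) p
      + pd 2 (pd 2 (fun q => c.φ q i)) p + Kf i (UU c p)) (s 0)
    (((s 1).add (s 2)).add ((FOa_Kf_cont i).comp (FOa_UU_cont hc)))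
    (fun q hq => FOa_open hc hq i) p hp

theorem FOa_maxwell (hc : c.Temporal b) {p : Pt} (hp : p ∈ slab 0 b) (μ : Fin 3) :
    pd 0 (c.F μ 0) p - pd 1 (c.F μ 1) p - pd 2 (c.F μ 2) p =
      c.φ p 0 * c.D μ c.φ p 1 - c.φ p 1 * c.D μ c.φ p 0 :=
  ((solvesAt_iff c p).mp (hc.sol p hp)).2.2 μ

theorem E1_t (hc : c.Temporal b) {p : Pt} (hp : p ∈ hslab b) :
    pd 0 (pd 0 (c.A 1)) p = -pd 2 (fun q => pd 1 (c.A 2) q - pd 2 (c.A 1) q) p
      - Jf 1 (UU c p) := by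
  have hA0 := FOa_A0 hc
  have sB : ContDiff ℝ ∞ (fun q => pd 1 (c.A 2) q - pd 2 (c.A 1) q) :=
    (pd_smooth (hc.hA 2) 1).sub (pd_smooth (hc.hA 1) 2)
  refine eq_hslab (F := pd 0 (pd 0 (c.A 1)))
    (G := fun p => -pd 2 (fun q => pd 1 (c.A 2) q - pd 2 (c.A 1) q) p - Jf 1 (UU c p))
    (pd_smooth (pd_smooth (hc.hA 1) 0) 0).continuous
    (((pd_smooth sB 2).continuous.neg).sub ((FOa_Jf_cont 1).comp (FOa_UU_cont hc)))
    (fun p hp => ?_) p hp
  have hm := FOa_maxwell hc hp 1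
  have f10 : c.F 1 0 = fun q => -(pd 0 (c.A 1) q) := by
    funext q
    unfold Config.F
    rw [hA0, FOa_pd_const]
    ring
  have f11 : c.F 1 1 = fun _ => 0 := by
    funext q
    unfold Config.F
    ring
  have f12 : c.F 1 2 = fun q => pd 1 (c.A 2) q - pd 2 (c.A 1) q := rfl
  rw [f10, f11, f12, FOa_pd_neg, FOa_pd_const, D_one, D_zero] at hm
  show pd 0 (pd 0 (c.A 1)) p = -pd 2 (fun q => pd 1 (c.A 2) q - pd 2 (c.A 1) q) p
    - (c.φ p 0 * pd 1 (fun q => c.φ q 1) p - c.φ p 1 * pd 1 (fun q => c.φ q 0) p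
      + c.A 1 p * (c.φ p 0 ^ 2 + c.φ p 1 ^ 2))
  linear_combination -hm

theorem E2_t (hc : c.Temporal b) {p : Pt} (hp : p ∈ hslab b) :
    pd 0 (pd 0 (c.A 2)) p = pd 1 (fun q => pd 1 (c.A 2) q - pd 2 (c.A 1) q) p
      - Jf 2 (UU c p) := by
  have hA0 := FOa_A0 hc
  have sB : ContDiff ℝ ∞ (fun q => pd 1 (c.A 2) q - pd 2 (c.A 1) q) :=
    (pd_smooth (hc.hA 2) 1).sub (pd_smooth (hc.hA 1) 2)
  refine eq_hslab (F := pd 0 (pd 0 (c.A 2)))
    (G := fun p => pd 1 (fun q => pd 1 (c.A 2) q - pd 2 (c.A 1) q) p - Jf 2 (UU c p))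
    (pd_smooth (pd_smooth (hc.hA 2) 0) 0).continuous
    (((pd_smooth sB 1).continuous).sub ((FOa_Jf_cont 2).comp (FOa_UU_cont hc)))
    (fun p hp => ?_) p hp
  have hm := FOa_maxwell hc hp 2
  have f10 : c.F 2 0 = fun q => -(pd 0 (c.A 2) q) := by
    funext q
    unfold Config.F
    rw [hA0, FOa_pd_const]
    ring
  have f11 : c.F 2 2 = fun _ => 0 := by
    funext q
    unfold Config.F
    ring
  have f12 : c.F 2 1 = fun q => -((fun q => pd 1 (c.A 2) q - pd 2 (c.A 1) q) q) := by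
    funext q
    unfold Config.F
    ring
  rw [f10, f11, f12, FOa_pd_neg, FOa_pd_neg, FOa_pd_const, D_one, D_zero] at hm
  show pd 0 (pd 0 (c.A 2)) p = pd 1 (fun q => pd 1 (c.A 2) q - pd 2 (c.A 1) q) p
    - (c.φ p 0 * pd 2 (fun q => c.φ q 1) p - c.φ p 1 * pd 2 (fun q => c.φ q 0) p
      + c.A 2 p * (c.φ p 0 ^ 2 + c.φ p 1 ^ 2))
  linear_combination -hm

theorem div_t (hc : c.Temporal b) {p : Pt} (hp : p ∈ hslab b) :
    pd 0 (fun q => pd 1 (c.A 1) q + pd 2 (c.A 2) q) p = -Jf 0 (UU c p) := by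
  have hA0 := FOa_A0 hc
  have sB : ContDiff ℝ ∞ (fun q => pd 1 (c.A 1) q + pd 2 (c.A 2) q) :=
    (pd_smooth (hc.hA 1) 1).add (pd_smooth (hc.hA 2) 2)
  refine eq_hslab (F := pd 0 (fun q => pd 1 (c.A 1) q + pd 2 (c.A 2) q))
    (G := fun p => -Jf 0 (UU c p))
    (pd_smooth sB 0).continuous
    (((FOa_Jf_cont 0).comp (FOa_UU_cont hc)).neg)
    (fun p hp => ?_) p hp
  have hm := FOa_maxwell hc hp 0
  have f00 : c.F 0 0 = fun _ => 0 := by
    funext q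
    unfold Config.F
    ring
  have f01 : c.F 0 1 = pd 0 (c.A 1) := by
    funext q
    unfold Config.F
    rw [hA0, FOa_pd_const]
    ring
  have f02 : c.F 0 2 = pd 0 (c.A 2) := by
    funext q
    unfold Config.F
    rw [hA0, FOa_pd_const]
    ring
  have hAp : c.A 0 p = 0 := hc.A0 p
  rw [f00, f01, f02, FOa_pd_const, D_one, D_zero, hAp] at hm
  rw [pd_add (pd_smooth (hc.hA 1) 1) (pd_smooth (hc.hA 2) 2), pd_comm (hc.hA 1) 0 1,
    pd_comm (hc.hA 2) 0 2]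
  show pd 1 (pd 0 (c.A 1)) p + pd 2 (pd 0 (c.A 2)) p =
    -(c.φ p 0 * pd 0 (fun q => c.φ q 1) p - c.φ p 1 * pd 0 (fun q => c.φ q 0) p)
  linear_combination -hm

end H72GS

end S_FOa

section S_FOb

/-!
# FOb: the lower order terms are Lipschitz on bounded sets

`alf, Kf i, Jf μ` are polynomials, hence `C¹`; on a closed ball (compact, convex) the derivative is
bounded: `Convex.norm_image_sub_le_of_norm_fderiv_le`.
-/

namespace H72GS

open Set

/-- bounded and Lipschitz on the cube `|u j| ≤ M` -/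
def FOb_BL (M : ℝ) (f : (Fin 18 → ℝ) → ℝ) : Prop :=
  ∃ B C : ℝ, 0 ≤ B ∧ 0 ≤ C ∧ (∀ u : Fin 18 → ℝ, (∀ j, |u j| ≤ M) → |f u| ≤ B) ∧
    ∀ u v : Fin 18 → ℝ, (∀ j, |u j| ≤ M) → (∀ j, |v j| ≤ M) → |f u - f v| ≤ C * ∑ j, |u j - v j|

theorem FOb_const (M c : ℝ) : FOb_BL M (fun _ => c) :=
  ⟨|c|, 0, abs_nonneg _, le_refl _, fun _ _ => le_refl _, fun u v _ _ => by simp⟩

theorem FOb_coord (M : ℝ) (i : Fin 18) : FOb_BL M (fun u => u i) := by
  refine ⟨|M|, 1, abs_nonneg _, zero_le_one, fun u hu => (hu i).trans (le_abs_self _),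
    fun u v _ _ => ?_⟩
  rw [one_mul]
  exact Finset.single_le_sum (f := fun j => |u j - v j|) (fun j _ => abs_nonneg _)
    (Finset.mem_univ i)

theorem FOb_add {M : ℝ} {f g : (Fin 18 → ℝ) → ℝ} (hf : FOb_BL M f) (hg : FOb_BL M g) :
    FOb_BL M (fun u => f u + g u) := by
  obtain ⟨B, C, hB, hC, h1, h2⟩ := hf
  obtain ⟨B', C', hB', hC', h1', h2'⟩ := hg
  refine ⟨B + B', C + C', by positivity, by positivity, fun u hu =>
    (abs_add_le _ _).trans (add_le_add (h1 u hu) (h1' u hu)), fun u v hu hv => ?_⟩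
  have h3 := h2 u v hu hv
  have h4 := h2' u v hu hv
  calc |f u + g u - (f v + g v)| = |(f u - f v) + (g u - g v)| := by congr 1; ring
    _ ≤ |f u - f v| + |g u - g v| := abs_add_le _ _
    _ ≤ _ := by linarith

theorem FOb_mul {M : ℝ} {f g : (Fin 18 → ℝ) → ℝ} (hf : FOb_BL M f) (hg : FOb_BL M g) :
    FOb_BL M (fun u => f u * g u) := by
  obtain ⟨B, C, hB, hC, h1, h2⟩ := hf
  obtain ⟨B', C', hB', hC', h1', h2'⟩ := hg
  refine ⟨B * B', B * C' + C * B', by positivity, by positivity, fun u hu => ?_,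
    fun u v hu hv => ?_⟩
  · rw [abs_mul]
    exact mul_le_mul (h1 u hu) (h1' u hu) (abs_nonneg _) hB
  · have h3 := h2 u v hu hv
    have h4 := h2' u v hu hv
    have h5 := h1 u hu
    have h6 := h1' v hv
    have hs : 0 ≤ ∑ j, |u j - v j| := Finset.sum_nonneg fun j _ => abs_nonneg _
    calc |f u * g u - f v * g v| = |f u * (g u - g v) + (f u - f v) * g v| := by congr 1; ring
      _ ≤ |f u * (g u - g v)| + |(f u - f v) * g v| := abs_add_le _ _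
      _ = |f u| * |g u - g v| + |f u - f v| * |g v| := by rw [abs_mul, abs_mul]
      _ ≤ B * (C' * ∑ j, |u j - v j|) + (C * ∑ j, |u j - v j|) * B' :=
          add_le_add (mul_le_mul h5 h4 (abs_nonneg _) hB)
            (mul_le_mul h3 h6 (abs_nonneg _) (by positivity))
      _ = _ := by ring

theorem FOb_neg {M : ℝ} {f : (Fin 18 → ℝ) → ℝ} (hf : FOb_BL M f) :
    FOb_BL M (fun u => - f u) := by
  have h := FOb_mul (FOb_const M (-1)) hf
  simpa using h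

theorem FOb_sub {M : ℝ} {f g : (Fin 18 → ℝ) → ℝ} (hf : FOb_BL M f) (hg : FOb_BL M g) :
    FOb_BL M (fun u => f u - g u) := by
  have h := FOb_add hf (FOb_neg hg)
  simpa [sub_eq_add_neg] using h

theorem FOb_sq {M : ℝ} {f : (Fin 18 → ℝ) → ℝ} (hf : FOb_BL M f) :
    FOb_BL M (fun u => f u ^ 2) := by
  have h := FOb_mul hf hf
  simpa [sq] using h

theorem FOb_alf (M : ℝ) : FOb_BL M alf := by
  unfold alf
  have c := FOb_coord M
  have k := FOb_const M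
  exact FOb_sub (FOb_add (FOb_add (FOb_neg (FOb_add (FOb_add (FOb_sq (c 3)) (FOb_sq (c 4)))
    (FOb_sq (c 5))))
    (FOb_add (FOb_add (FOb_sq (FOb_sub (c 6) (FOb_mul (c 12) (c 1))))
      (FOb_sq (FOb_add (c 7) (FOb_mul (c 12) (c 0))))) (FOb_sq (c 8))))
    (FOb_add (FOb_add (FOb_sq (FOb_sub (c 9) (FOb_mul (c 13) (c 1))))
      (FOb_sq (FOb_add (c 10) (FOb_mul (c 13) (c 0))))) (FOb_sq (c 11))))
    (FOb_mul (FOb_sub (k 1) (c 2)) (c 2))

theorem FOb_Kf (M : ℝ) (i : Fin 3) : FOb_BL M (Kf i) := by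
  have c := FOb_coord M
  have k := FOb_const M
  have a := FOb_alf M
  fin_cases i
  · exact FOb_add (FOb_sub (FOb_sub (FOb_sub (FOb_mul (FOb_mul (k (-2)) (c 12)) (c 7))
      (FOb_mul (FOb_mul (k 2) (c 13)) (c 10))) (FOb_mul (c 17) (c 1)))
      (FOb_mul (FOb_add (FOb_sq (c 12)) (FOb_sq (c 13))) (c 0))) (FOb_mul a (c 0))
  · exact FOb_add (FOb_sub (FOb_add (FOb_add (FOb_mul (FOb_mul (k 2) (c 12)) (c 6))
      (FOb_mul (FOb_mul (k 2) (c 13)) (c 9))) (FOb_mul (c 17) (c 0)))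
      (FOb_mul (FOb_add (FOb_sq (c 12)) (FOb_sq (c 13))) (c 1))) (FOb_mul a (c 1))
  · exact FOb_add (FOb_sub (k 1) (c 2)) (FOb_mul a (c 2))

theorem FOb_Jf (M : ℝ) (i : Fin 3) : FOb_BL M (Jf i) := by
  have c := FOb_coord M
  fin_cases i
  · exact FOb_sub (FOb_mul (c 0) (c 4)) (FOb_mul (c 1) (c 3))
  · exact FOb_add (FOb_sub (FOb_mul (c 0) (c 7)) (FOb_mul (c 1) (c 6)))
      (FOb_mul (c 12) (FOb_add (FOb_sq (c 0)) (FOb_sq (c 1))))
  · exact FOb_add (FOb_sub (FOb_mul (c 0) (c 10)) (FOb_mul (c 1) (c 9)))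
      (FOb_mul (c 13) (FOb_add (FOb_sq (c 0)) (FOb_sq (c 1))))

theorem FOb_fin {M : ℝ} {F : Fin 3 → (Fin 18 → ℝ) → ℝ} (h : ∀ i, FOb_BL M (F i)) :
    ∃ C, 0 ≤ C ∧ ∀ u v : Fin 18 → ℝ, (∀ j, |u j| ≤ M) → (∀ j, |v j| ≤ M) →
      ∀ i, |F i u - F i v| ≤ C * ∑ j, |u j - v j| := by
  choose B C hB hC h1 h2 using h
  refine ⟨∑ i, C i, Finset.sum_nonneg fun i _ => hC i, fun u v hu hv i => ?_⟩
  refine (h2 i u v hu hv).trans ?_
  apply mul_le_mul_of_nonneg_right _ (Finset.sum_nonneg fun j _ => abs_nonneg _)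
  exact Finset.single_le_sum (f := C) (fun j _ => hC j) (Finset.mem_univ i)

theorem Kf_lip (M : ℝ) : ∃ C, 0 ≤ C ∧ ∀ u v : Fin 18 → ℝ, (∀ j, |u j| ≤ M) → (∀ j, |v j| ≤ M) →
    ∀ i, |Kf i u - Kf i v| ≤ C * ∑ j, |u j - v j| :=
  FOb_fin (FOb_Kf M)

theorem Jf_lip (M : ℝ) : ∃ C, 0 ≤ C ∧ ∀ u v : Fin 18 → ℝ, (∀ j, |u j| ≤ M) → (∀ j, |v j| ≤ M) →
    ∀ μ, |Jf μ u - Jf μ v| ≤ C * ∑ j, |u j - v j| :=
  FOb_fin (FOb_Jf M)

end H72GS

end S_FOb

section S_Uniq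

/-!
# Uniq: uniqueness in temporal gauge

`δ_j = UU c p j - UU c' p j`, `e = Σ_j δ_j²`,
`q1 = 2 Σ_i δ_{3+i} δ_{6+i} + 2 δ_15 δ_16`, `q2 = 2 Σ_i δ_{3+i} δ_{9+i} - 2 δ_14 δ_16`.
`∂_t e - ∂_1 q1 - ∂_2 q2` contains no derivatives of `δ`: it is
`2 Σ δ_i δ_{3+i} + 2 Σ δ_{3+i} (ΔK_i) + 2 δ_12 δ_14 + 2 δ_13 δ_15 - 2 δ_14 ΔJ_1 - 2 δ_15 ΔJ_2
 - 2 δ_17 ΔJ_0`  (using `pd_comm`), bounded by `C e` on compact sets (`Kf_lip`, `Jf_lip`,
`(Σ|δ_j|)² ≤ 18 e`).  For `|ν| ≤ 1`: `ν·q = 2 Σ δ_{3+i} (ν1 δ_{6+i} + ν2 δ_{9+i})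
+ 2 δ_16 (ν1 δ_15 - ν2 δ_14) ≤ e`.  At `t = 0` the spatial derivatives agree because the functions do.
-/

namespace H72GS

open Set
open scoped ContDiff

theorem Uniq_sum18 (g : Fin 18 → ℝ) : ∑ j, g j = g 0 + g 1 + g 2 + g 3 + g 4 + g 5 + g 6 + g 7
    + g 8 + g 9 + g 10 + g 11 + g 12 + g 13 + g 14 + g 15 + g 16 + g 17 := by
  rw [Fin.sum_univ_def]
  simp [List.finRange_succ]
  ring

/-- component function of the first order variables -/
noncomputable def Uniq_U (c : Config) (j : Fin 18) : Pt → ℝ := fun p => UU c p j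

variable {c c' : Config} {b : ℝ}

theorem Uniq_smooth (hc : c.Temporal b) (j : Fin 18) : ContDiff ℝ ∞ (Uniq_U c j) := by
  have hφ := hc.hφ
  have hA := hc.hA
  fin_cases j
  · exact hφ 0
  · exact hφ 1
  · exact hφ 2
  · exact pd_smooth (hφ 0) 0
  · exact pd_smooth (hφ 1) 0
  · exact pd_smooth (hφ 2) 0
  · exact pd_smooth (hφ 0) 1
  · exact pd_smooth (hφ 1) 1
  · exact pd_smooth (hφ 2) 1
  · exact pd_smooth (hφ 0) 2
  · exact pd_smooth (hφ 1) 2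
  · exact pd_smooth (hφ 2) 2
  · exact hA 1
  · exact hA 2
  · exact pd_smooth (hA 1) 0
  · exact pd_smooth (hA 2) 0
  · exact (pd_smooth (hA 2) 1).sub (pd_smooth (hA 1) 2)
  · exact (pd_smooth (hA 1) 1).add (pd_smooth (hA 2) 2)

/-- the evolution equations, for abstract component functions -/
structure Uniq_E (d : Fin 18 → Pt → ℝ) (K J : Fin 3 → ℝ) (p : Pt) : Prop where
  e0 : pd 0 (d 0) p = d 3 p
  e1 : pd 0 (d 1) p = d 4 p
  e2 : pd 0 (d 2) p = d 5 p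
  e3 : pd 0 (d 3) p = pd 1 (d 6) p + pd 2 (d 9) p + K 0
  e4 : pd 0 (d 4) p = pd 1 (d 7) p + pd 2 (d 10) p + K 1
  e5 : pd 0 (d 5) p = pd 1 (d 8) p + pd 2 (d 11) p + K 2
  e6 : pd 0 (d 6) p = pd 1 (d 3) p
  e7 : pd 0 (d 7) p = pd 1 (d 4) p
  e8 : pd 0 (d 8) p = pd 1 (d 5) p
  e9 : pd 0 (d 9) p = pd 2 (d 3) p
  e10 : pd 0 (d 10) p = pd 2 (d 4) p
  e11 : pd 0 (d 11) p = pd 2 (d 5) p
  e12 : pd 0 (d 12) p = d 14 p
  e13 : pd 0 (d 13) p = d 15 p
  e14 : pd 0 (d 14) p = -pd 2 (d 16) p - J 1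
  e15 : pd 0 (d 15) p = pd 1 (d 16) p - J 2
  e16 : pd 0 (d 16) p = pd 1 (d 15) p - pd 2 (d 14) p
  e17 : pd 0 (d 17) p = -J 0

theorem Uniq_eqs (hc : c.Temporal b) {p : Pt} (hp : p ∈ hslab b) :
    Uniq_E (Uniq_U c) (fun i => Kf i (UU c p)) (fun μ => Jf μ (UU c p)) p where
  e0 := rfl
  e1 := rfl
  e2 := rfl
  e3 := phi_tt hc hp 0
  e4 := phi_tt hc hp 1
  e5 := phi_tt hc hp 2
  e6 := pd_comm (hc.hφ 0) 0 1 p
  e7 := pd_comm (hc.hφ 1) 0 1 p
  e8 := pd_comm (hc.hφ 2) 0 1 p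
  e9 := pd_comm (hc.hφ 0) 0 2 p
  e10 := pd_comm (hc.hφ 1) 0 2 p
  e11 := pd_comm (hc.hφ 2) 0 2 p
  e12 := rfl
  e13 := rfl
  e14 := E1_t hc hp
  e15 := E2_t hc hp
  e16 := by
    have h1 := pd_sub (pd_smooth (hc.hA 2) 1) (pd_smooth (hc.hA 1) 2) 0 p
    have h2 := pd_comm (hc.hA 2) 0 1 p
    have h3 := pd_comm (hc.hA 1) 0 2 p
    rw [h2, h3] at h1
    exact h1
  e17 := div_t hc hp

/-- difference of the component functions -/
noncomputable def Uniq_d (c c' : Config) (j : Fin 18) : Pt → ℝ :=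
  fun p => Uniq_U c j p - Uniq_U c' j p

theorem Uniq_d_smooth (hc : c.Temporal b) (hc' : c'.Temporal b) (j : Fin 18) :
    ContDiff ℝ ∞ (Uniq_d c c' j) := (Uniq_smooth hc j).sub (Uniq_smooth hc' j)

theorem Uniq_pd (hc : c.Temporal b) (hc' : c'.Temporal b) (j : Fin 18) (μ : Fin 3) (p : Pt) :
    pd μ (Uniq_d c c' j) p = pd μ (Uniq_U c j) p - pd μ (Uniq_U c' j) p :=
  pd_sub (Uniq_smooth hc j) (Uniq_smooth hc' j) μ p

theorem Uniq_deqs (hc : c.Temporal b) (hc' : c'.Temporal b) {p : Pt} (hp : p ∈ hslab b) :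
    Uniq_E (Uniq_d c c') (fun i => Kf i (UU c p) - Kf i (UU c' p))
      (fun μ => Jf μ (UU c p) - Jf μ (UU c' p)) p := by
  have h := Uniq_eqs hc hp
  have h' := Uniq_eqs hc' hp
  have hd := Uniq_pd hc hc'
  constructor
  · rw [hd, h.e0, h'.e0]; rfl
  · rw [hd, h.e1, h'.e1]; rfl
  · rw [hd, h.e2, h'.e2]; rfl
  · rw [hd, hd, hd, h.e3, h'.e3]; ring
  · rw [hd, hd, hd, h.e4, h'.e4]; ring
  · rw [hd, hd, hd, h.e5, h'.e5]; ring
  · rw [hd, hd, h.e6, h'.e6]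
  · rw [hd, hd, h.e7, h'.e7]
  · rw [hd, hd, h.e8, h'.e8]
  · rw [hd, hd, h.e9, h'.e9]
  · rw [hd, hd, h.e10, h'.e10]
  · rw [hd, hd, h.e11, h'.e11]
  · rw [hd, h.e12, h'.e12]; rfl
  · rw [hd, h.e13, h'.e13]; rfl
  · rw [hd, hd, h.e14, h'.e14]; ring
  · rw [hd, hd, h.e15, h'.e15]; ring
  · rw [hd, hd, hd, h.e16, h'.e16]; ring
  · rw [hd, h.e17, h'.e17]; ring

theorem Uniq_pd_sumsq {d : Fin 18 → Pt → ℝ} (hd : ∀ j, ContDiff ℝ ∞ (d j)) (μ : Fin 3) (p : Pt) :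
    pd μ (fun q => ∑ j, d j q ^ 2) p = ∑ j, 2 * d j p * pd μ (d j) p := by
  have h : ∀ j, HasFDerivAt (fun q => d j q ^ 2) ((2 * d j p) • fderiv ℝ (d j) p) p := by
    intro j
    have h1 := (((hd j).differentiable (by simp)) p).hasFDerivAt.pow 2
    simpa using h1
  have hs := HasFDerivAt.fun_sum (u := Finset.univ) (fun j _ => h j)
  unfold pd
  rw [hs.fderiv]
  simp

theorem Uniq_pd_q {a b' c d e f g h : Pt → ℝ} (ha : ContDiff ℝ ∞ a) (hb : ContDiff ℝ ∞ b')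
    (hc : ContDiff ℝ ∞ c) (hd : ContDiff ℝ ∞ d) (he : ContDiff ℝ ∞ e) (hf : ContDiff ℝ ∞ f)
    (hg : ContDiff ℝ ∞ g) (hh : ContDiff ℝ ∞ h) (μ : Fin 3) (p : Pt) (s : ℝ) :
    pd μ (fun q => 2 * (a q * b' q + c q * d q + e q * f q + s * (g q * h q))) p
      = 2 * (pd μ a p * b' p + a p * pd μ b' p + pd μ c p * d p + c p * pd μ d p
        + pd μ e p * f p + e p * pd μ f p + s * (pd μ g p * h p + g p * pd μ h p)) := by
  have D : ∀ {u : Pt → ℝ}, ContDiff ℝ ∞ u → HasFDerivAt u (fderiv ℝ u p) p := fun hu =>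
    ((hu.differentiable (by simp)) p).hasFDerivAt
  have h1 := (((((D ha).mul (D hb)).add ((D hc).mul (D hd))).add ((D he).mul (D hf))).add
    (((D hg).mul (D hh)).const_mul s)).const_mul 2
  have h2 : HasFDerivAt (fun q => 2 * (a q * b' q + c q * d q + e q * f q + s * (g q * h q))) _ p :=
    h1
  unfold pd
  rw [h2.fderiv]
  simp
  ring

theorem Uniq_id {d : Fin 18 → Pt → ℝ} (hd : ∀ j, ContDiff ℝ ∞ (d j)) {K J : Fin 3 → ℝ} {p : Pt}
    (hE : Uniq_E d K J p) :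
    pd 0 (fun q => ∑ j, d j q ^ 2) p
      - pd 1 (fun q => 2 * (d 3 q * d 6 q + d 4 q * d 7 q + d 5 q * d 8 q
        + 1 * (d 15 q * d 16 q))) p
      - pd 2 (fun q => 2 * (d 3 q * d 9 q + d 4 q * d 10 q + d 5 q * d 11 q
        + (-1) * (d 14 q * d 16 q))) p
      = 2 * (d 0 p * d 3 p + d 1 p * d 4 p + d 2 p * d 5 p + d 12 p * d 14 p + d 13 p * d 15 p)
        + 2 * (d 3 p * K 0 + d 4 p * K 1 + d 5 p * K 2 - d 14 p * J 1 - d 15 p * J 2
          - d 17 p * J 0) := by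
  rw [Uniq_pd_sumsq hd, Uniq_pd_q (hd 3) (hd 6) (hd 4) (hd 7) (hd 5) (hd 8) (hd 15) (hd 16),
    Uniq_pd_q (hd 3) (hd 9) (hd 4) (hd 10) (hd 5) (hd 11) (hd 14) (hd 16), Uniq_sum18]
  rw [hE.e0, hE.e1, hE.e2, hE.e3, hE.e4, hE.e5, hE.e6, hE.e7, hE.e8, hE.e9, hE.e10, hE.e11,
    hE.e12, hE.e13, hE.e14, hE.e15, hE.e16, hE.e17]
  ring

theorem Uniq_bound (x : Fin 18 → ℝ) {K J : Fin 3 → ℝ} {C : ℝ} (hC : 0 ≤ C)
    (hK : ∀ i, |K i| ≤ C * ∑ j, |x j|) (hJ : ∀ i, |J i| ≤ C * ∑ j, |x j|) :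
    |2 * (x 0 * x 3 + x 1 * x 4 + x 2 * x 5 + x 12 * x 14 + x 13 * x 15)
        + 2 * (x 3 * K 0 + x 4 * K 1 + x 5 * K 2 - x 14 * J 1 - x 15 * J 2 - x 17 * J 0)|
      ≤ (1 + 36 * C) * ∑ j, x j ^ 2 := by
  set T := ∑ j, |x j| with hT
  have hT0 : 0 ≤ T := Finset.sum_nonneg (fun j _ => abs_nonneg _)
  have hT2 : T ^ 2 ≤ 18 * ∑ j, x j ^ 2 := by
    have h1 := sq_sum_le_card_mul_sum_sq (s := (Finset.univ : Finset (Fin 18)))
      (f := fun j => |x j|)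
    simpa using h1
  have h1 : |2 * (x 0 * x 3 + x 1 * x 4 + x 2 * x 5 + x 12 * x 14 + x 13 * x 15)|
      ≤ ∑ j, x j ^ 2 := by
    rw [Uniq_sum18, abs_le]
    constructor
    · nlinarith [sq_nonneg (x 0 + x 3), sq_nonneg (x 1 + x 4), sq_nonneg (x 2 + x 5),
        sq_nonneg (x 12 + x 14), sq_nonneg (x 13 + x 15), sq_nonneg (x 6), sq_nonneg (x 7),
        sq_nonneg (x 8), sq_nonneg (x 9), sq_nonneg (x 10), sq_nonneg (x 11), sq_nonneg (x 16),
        sq_nonneg (x 17)]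
    · nlinarith [sq_nonneg (x 0 - x 3), sq_nonneg (x 1 - x 4), sq_nonneg (x 2 - x 5),
        sq_nonneg (x 12 - x 14), sq_nonneg (x 13 - x 15), sq_nonneg (x 6), sq_nonneg (x 7),
        sq_nonneg (x 8), sq_nonneg (x 9), sq_nonneg (x 10), sq_nonneg (x 11), sq_nonneg (x 16),
        sq_nonneg (x 17)]
  have hm : ∀ (a k : ℝ), |k| ≤ C * T → |a * k| ≤ |a| * (C * T) := by
    intro a k hk
    rw [abs_mul]
    exact mul_le_mul_of_nonneg_left hk (abs_nonneg _)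
  have h2 : |2 * (x 3 * K 0 + x 4 * K 1 + x 5 * K 2 - x 14 * J 1 - x 15 * J 2 - x 17 * J 0)|
      ≤ 2 * (C * T) * T := by
    have a3 := abs_le.mp (hm (x 3) (K 0) (hK 0))
    have a4 := abs_le.mp (hm (x 4) (K 1) (hK 1))
    have a5 := abs_le.mp (hm (x 5) (K 2) (hK 2))
    have a14 := abs_le.mp (hm (x 14) (J 1) (hJ 1))
    have a15 := abs_le.mp (hm (x 15) (J 2) (hJ 2))
    have a17 := abs_le.mp (hm (x 17) (J 0) (hJ 0))
    have hS : |x 3| + |x 4| + |x 5| + |x 14| + |x 15| + |x 17| ≤ T := by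
      rw [hT, Uniq_sum18]
      have hn : ∀ j, 0 ≤ |x j| := fun j => abs_nonneg _
      linarith [hn 0, hn 1, hn 2, hn 6, hn 7, hn 8, hn 9, hn 10, hn 11, hn 12, hn 13, hn 16]
    have hS2 := mul_le_mul_of_nonneg_left hS (mul_nonneg hC hT0)
    rw [abs_le]
    constructor <;> nlinarith
  calc _ ≤ ∑ j, x j ^ 2 + 2 * (C * T) * T := (abs_add_le _ _).trans (add_le_add h1 h2)
    _ = ∑ j, x j ^ 2 + 2 * C * T ^ 2 := by ring
    _ ≤ ∑ j, x j ^ 2 + 2 * C * (18 * ∑ j, x j ^ 2) := by gcongr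
    _ = (1 + 36 * C) * ∑ j, x j ^ 2 := by ring

theorem Uniq_flux (x : Fin 18 → ℝ) {ν1 ν2 : ℝ} (hν : ν1 ^ 2 + ν2 ^ 2 ≤ 1) :
    ν1 * (2 * (x 3 * x 6 + x 4 * x 7 + x 5 * x 8 + 1 * (x 15 * x 16)))
      + ν2 * (2 * (x 3 * x 9 + x 4 * x 10 + x 5 * x 11 + (-1) * (x 14 * x 16)))
      ≤ ∑ j, x j ^ 2 := by
  have hcs : ∀ a a' : ℝ, (ν1 * a + ν2 * a') ^ 2 ≤ a ^ 2 + a' ^ 2 := by
    intro a a'
    have h1 : (ν1 * a + ν2 * a') ^ 2 ≤ (ν1 ^ 2 + ν2 ^ 2) * (a ^ 2 + a' ^ 2) := by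
      nlinarith [sq_nonneg (ν1 * a' - ν2 * a)]
    have h2 : (ν1 ^ 2 + ν2 ^ 2) * (a ^ 2 + a' ^ 2) ≤ 1 * (a ^ 2 + a' ^ 2) :=
      mul_le_mul_of_nonneg_right hν (by positivity)
    linarith
  rw [Uniq_sum18]
  nlinarith [hcs (x 6) (x 9), hcs (x 7) (x 10), hcs (x 8) (x 11), hcs (x 15) (-x 14),
    sq_nonneg (x 3 - (ν1 * x 6 + ν2 * x 9)), sq_nonneg (x 4 - (ν1 * x 7 + ν2 * x 10)),
    sq_nonneg (x 5 - (ν1 * x 8 + ν2 * x 11)), sq_nonneg (x 16 - (ν1 * x 15 + ν2 * -x 14)),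
    sq_nonneg (x 0), sq_nonneg (x 1), sq_nonneg (x 2), sq_nonneg (x 12), sq_nonneg (x 13),
    sq_nonneg (x 17)]

theorem Uniq_tan {u v : Pt → ℝ} (hu : ContDiff ℝ ∞ u) (hv : ContDiff ℝ ∞ v)
    (h : ∀ x y, u (pt0 x y) = v (pt0 x y)) (x y : ℝ) :
    pd 1 u (pt0 x y) = pd 1 v (pt0 x y) ∧ pd 2 u (pt0 x y) = pd 2 v (pt0 x y) := by
  have e1 : ∀ s, Function.update (pt0 x y) 1 s = pt0 s y := by
    intro s
    ext i
    fin_cases i <;> simp [pt0]
  have e2 : ∀ s, Function.update (pt0 x y) 2 s = pt0 x s := by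
    intro s
    ext i
    fin_cases i <;> simp [pt0]
  constructor
  · have h1 := hasDerivAt_pd hu 1 (pt0 x y) x
    have h2 := hasDerivAt_pd hv 1 (pt0 x y) x
    simp only [e1] at h1 h2
    have h3 : (fun s => u (pt0 s y)) = fun s => v (pt0 s y) := funext (fun s => h s y)
    rw [h3] at h1
    exact h1.unique h2
  · have h1 := hasDerivAt_pd hu 2 (pt0 x y) y
    have h2 := hasDerivAt_pd hv 2 (pt0 x y) y
    simp only [e2] at h1 h2
    have h3 : (fun s => u (pt0 x s)) = fun s => v (pt0 x s) := funext (fun s => h x s)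
    rw [h3] at h1
    exact h1.unique h2

theorem Uniq_init (hc : c.Temporal b) (hc' : c'.Temporal b)
    (h0 : ∀ x y, (∀ i, c.φ (pt0 x y) i = c'.φ (pt0 x y) i ∧
        pd 0 (fun p => c.φ p i) (pt0 x y) = pd 0 (fun p => c'.φ p i) (pt0 x y)) ∧
      ∀ μ, c.A μ (pt0 x y) = c'.A μ (pt0 x y) ∧
        pd 0 (c.A μ) (pt0 x y) = pd 0 (c'.A μ) (pt0 x y)) (x y : ℝ) (j : Fin 18) :
    Uniq_d c c' j (pt0 x y) = 0 := by
  have hφt : ∀ i, pd 1 (fun p => c.φ p i) (pt0 x y) = pd 1 (fun p => c'.φ p i) (pt0 x y) ∧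
      pd 2 (fun p => c.φ p i) (pt0 x y) = pd 2 (fun p => c'.φ p i) (pt0 x y) := fun i =>
    Uniq_tan (hc.hφ i) (hc'.hφ i) (fun x y => ((h0 x y).1 i).1) x y
  have hAt : ∀ μ, pd 1 (c.A μ) (pt0 x y) = pd 1 (c'.A μ) (pt0 x y) ∧
      pd 2 (c.A μ) (pt0 x y) = pd 2 (c'.A μ) (pt0 x y) := fun μ =>
    Uniq_tan (hc.hA μ) (hc'.hA μ) (fun x y => ((h0 x y).2 μ).1) x y
  obtain ⟨h1, h2⟩ := h0 x y
  apply sub_eq_zero.mpr
  fin_cases j
  · exact (h1 0).1
  · exact (h1 1).1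
  · exact (h1 2).1
  · exact (h1 0).2
  · exact (h1 1).2
  · exact (h1 2).2
  · exact (hφt 0).1
  · exact (hφt 1).1
  · exact (hφt 2).1
  · exact (hφt 0).2
  · exact (hφt 1).2
  · exact (hφt 2).2
  · exact (h2 1).1
  · exact (h2 2).1
  · exact (h2 1).2
  · exact (h2 2).2
  · exact congrArg₂ (fun a b : ℝ => a - b) (hAt 2).1 (hAt 1).2
  · exact congrArg₂ (fun a b : ℝ => a + b) (hAt 1).1 (hAt 2).2

theorem Uniq_rem (hc : c.Temporal b) (hc' : c'.Temporal b) {K : Set Pt} (hK : IsCompact K)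
    (hKb : K ⊆ hslab b) :
    ∃ C, ∀ p ∈ K, |pd 0 (fun q => ∑ j, Uniq_d c c' j q ^ 2) p
      - pd 1 (fun q => 2 * (Uniq_d c c' 3 q * Uniq_d c c' 6 q + Uniq_d c c' 4 q * Uniq_d c c' 7 q
        + Uniq_d c c' 5 q * Uniq_d c c' 8 q + 1 * (Uniq_d c c' 15 q * Uniq_d c c' 16 q))) p
      - pd 2 (fun q => 2 * (Uniq_d c c' 3 q * Uniq_d c c' 9 q + Uniq_d c c' 4 q * Uniq_d c c' 10 q
        + Uniq_d c c' 5 q * Uniq_d c c' 11 q
        + (-1) * (Uniq_d c c' 14 q * Uniq_d c c' 16 q))) p|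
      ≤ C * ∑ j, Uniq_d c c' j p ^ 2 := by
  have hU : Continuous (UU c) := continuous_pi (fun j => (Uniq_smooth hc j).continuous)
  have hU' : Continuous (UU c') := continuous_pi (fun j => (Uniq_smooth hc' j).continuous)
  obtain ⟨M1, hM1⟩ := hK.exists_bound_of_continuousOn hU.continuousOn
  obtain ⟨M2, hM2⟩ := hK.exists_bound_of_continuousOn hU'.continuousOn
  obtain ⟨C1, hC1, hKf⟩ := Kf_lip (max M1 M2)
  obtain ⟨C2, hC2, hJf⟩ := Jf_lip (max M1 M2)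
  refine ⟨1 + 36 * (C1 + C2), fun p hp => ?_⟩
  have hb1 : ∀ j, |UU c p j| ≤ max M1 M2 := fun j =>
    ((norm_le_pi_norm (UU c p) j).trans (hM1 p hp)).trans (le_max_left _ _)
  have hb2 : ∀ j, |UU c' p j| ≤ max M1 M2 := fun j =>
    ((norm_le_pi_norm (UU c' p) j).trans (hM2 p hp)).trans (le_max_right _ _)
  have hT0 : 0 ≤ ∑ j, |UU c p j - UU c' p j| := Finset.sum_nonneg (fun j _ => abs_nonneg _)
  have hK1 : ∀ i, |Kf i (UU c p) - Kf i (UU c' p)|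
      ≤ (C1 + C2) * ∑ j, |UU c p j - UU c' p j| := fun i =>
    (hKf _ _ hb1 hb2 i).trans (mul_le_mul_of_nonneg_right (by linarith) hT0)
  have hJ1 : ∀ i, |Jf i (UU c p) - Jf i (UU c' p)|
      ≤ (C1 + C2) * ∑ j, |UU c p j - UU c' p j| := fun i =>
    (hJf _ _ hb1 hb2 i).trans (mul_le_mul_of_nonneg_right (by linarith) hT0)
  have h1 := Uniq_id (Uniq_d_smooth hc hc') (Uniq_deqs hc hc' (hKb hp))
  rw [h1]
  have h2 : ∀ j, UU c p j - UU c' p j = Uniq_d c c' j p := fun j => rfl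
  simp only [h2] at hK1 hJ1
  exact Uniq_bound (fun j => Uniq_d c c' j p) (K := fun i => Kf i (UU c p) - Kf i (UU c' p))
    (J := fun i => Jf i (UU c p) - Jf i (UU c' p)) (add_nonneg hC1 hC2) hK1 hJ1

theorem uniq {c c' : Config} {b : ℝ} (hc : c.Temporal b) (hc' : c'.Temporal b)
    (h0 : ∀ x y, (∀ i, c.φ (pt0 x y) i = c'.φ (pt0 x y) i ∧
        pd 0 (fun p => c.φ p i) (pt0 x y) = pd 0 (fun p => c'.φ p i) (pt0 x y)) ∧
      ∀ μ, c.A μ (pt0 x y) = c'.A μ (pt0 x y) ∧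
        pd 0 (c.A μ) (pt0 x y) = pd 0 (c'.A μ) (pt0 x y)) :
    ∀ p ∈ hslab b, c.φ p = c'.φ p ∧ ∀ μ, c.A μ p = c'.A μ p := by
  set d := Uniq_d c c' with hdd
  have hd : ∀ j, ContDiff ℝ ∞ (d j) := Uniq_d_smooth hc hc'
  have hd1 : ∀ j, ContDiff ℝ 1 (d j) := fun j => (hd j).of_le (by exact_mod_cast le_top)
  have he : ∀ p ∈ hslab b, (fun q => ∑ j, d j q ^ 2) p = 0 := by
    apply sh (b := b) (e := fun q => ∑ j, d j q ^ 2)
      (q1 := fun q => 2 * (d 3 q * d 6 q + d 4 q * d 7 q + d 5 q * d 8 q + 1 * (d 15 q * d 16 q)))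
      (q2 := fun q => 2 * (d 3 q * d 9 q + d 4 q * d 10 q + d 5 q * d 11 q
        + (-1) * (d 14 q * d 16 q)))
    · exact ContDiff.sum (fun j _ => (hd1 j).pow 2)
    · exact contDiff_const.mul (((((hd1 3).mul (hd1 6)).add ((hd1 4).mul (hd1 7))).add
        ((hd1 5).mul (hd1 8))).add (contDiff_const.mul ((hd1 15).mul (hd1 16))))
    · exact contDiff_const.mul (((((hd1 3).mul (hd1 9)).add ((hd1 4).mul (hd1 10))).add
        ((hd1 5).mul (hd1 11))).add (contDiff_const.mul ((hd1 14).mul (hd1 16))))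
    · intro p _
      exact Finset.sum_nonneg (fun j _ => sq_nonneg _)
    · intro p _ ν1 ν2 hν
      exact Uniq_flux (fun j => d j p) hν
    · intro K hK hKb
      exact Uniq_rem hc hc' hK hKb
    · intro x y
      apply Finset.sum_eq_zero
      intro j _
      rw [hdd, Uniq_init hc hc' h0 x y j]
      norm_num
  intro p hp
  have h1 := he p hp
  have h2 : ∀ j, d j p = 0 := by
    intro j
    have h3 := (Finset.sum_eq_zero_iff_of_nonneg (fun j _ => sq_nonneg (d j p))).mp h1 j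
      (Finset.mem_univ j)
    exact pow_eq_zero_iff (two_ne_zero) |>.mp h3
  constructor
  · ext i
    fin_cases i
    · exact sub_eq_zero.mp (h2 0)
    · exact sub_eq_zero.mp (h2 1)
    · exact sub_eq_zero.mp (h2 2)
  · intro μ
    fin_cases μ
    · exact (hc.A0 p).trans (hc'.A0 p).symm
    · exact sub_eq_zero.mp (h2 12)
    · exact sub_eq_zero.mp (h2 13)

end H72GS

end S_Uniq

section S_SymR

/-!
# SymR: rotations of space and of the target

`q = (p 0, cs p1 + sn p2, -sn p1 + cs p2)` (rotation by `-β`), `φ'(p) = Rot φ(q)` with the target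
rotation `(CS, SN)`, `A'(p) = ` rotation by `β` of `(A₁,A₂)(q)`.  Chain rule (`pd_comp_linear`):
`∂_1 (u∘q) = (cs ∂_1 u - sn ∂_2 u)∘q`, `∂_2 (u∘q) = (sn ∂_1 u + cs ∂_2 u)∘q`.
So `D'_1 V' = cs (D_1 V)' - sn (D_2 V)'`, `D'_2 V' = sn (D_1V)' + cs (D_2V)'`, where
`V'(p) = Rot V(q)`; `D'_1D'_1 φ' + D'_2D'_2 φ' = (D_1D_1φ + D_2D_2φ)'`; `F'_{12} = F_{12}∘q`,
`(F'_{01},F'_{02})` = rotation of `(F_{01},F_{02})∘q`; the Maxwell equations rotate accordingly.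
Componentwise: `solvesAt_iff`.
-/

namespace H72GS

open Set
open scoped ContDiff

noncomputable section

/-- rotated point -/
def rotPt (cs sn : ℝ) (p : Pt) : Pt := ![p 0, cs * p 1 + sn * p 2, -sn * p 1 + cs * p 2]

/-- rotated configuration -/
def Config.rot (c : Config) (cs sn CS SN : ℝ) : Config where
  φ := fun p => ![CS * c.φ (rotPt cs sn p) 0 - SN * c.φ (rotPt cs sn p) 1,
    SN * c.φ (rotPt cs sn p) 0 + CS * c.φ (rotPt cs sn p) 1, c.φ (rotPt cs sn p) 2]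
  A := fun μ p => (![c.A 0 (rotPt cs sn p),
    cs * c.A 1 (rotPt cs sn p) - sn * c.A 2 (rotPt cs sn p),
    sn * c.A 1 (rotPt cs sn p) + cs * c.A 2 (rotPt cs sn p)] : Fin 3 → ℝ) μ

/-- the rotation matrix -/
def SymR_M (cs sn : ℝ) : Matrix (Fin 3) (Fin 3) ℝ := !![1, 0, 0; 0, cs, sn; 0, -sn, cs]

theorem SymR_mul (cs sn : ℝ) (p : Pt) : (SymR_M cs sn).mulVec p = rotPt cs sn p := by
  funext i
  fin_cases i <;>
    simp [SymR_M, rotPt, Matrix.mulVec, dotProduct, Fin.sum_univ_three]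

theorem SymR_smooth {u : Pt → ℝ} (hu : ContDiff ℝ ∞ u) (cs sn : ℝ) :
    ContDiff ℝ ∞ (fun p => u (rotPt cs sn p)) := by
  have h : ContDiff ℝ ∞ (rotPt cs sn) := by
    rw [contDiff_pi]
    intro i
    have h0 : ∀ j : Fin 3, ContDiff ℝ ∞ (fun p : Pt => p j) := fun j => contDiff_apply ℝ ℝ j
    fin_cases i
    · exact h0 0
    · exact (contDiff_const.mul (h0 1)).add (contDiff_const.mul (h0 2))
    · exact (contDiff_const.mul (h0 1)).add (contDiff_const.mul (h0 2))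
  exact hu.comp h

theorem SymR_pd0 {u : Pt → ℝ} (hu : ContDiff ℝ ∞ u) (cs sn : ℝ) (p : Pt) :
    pd 0 (fun q => u (rotPt cs sn q)) p = pd 0 u (rotPt cs sn p) := by
  have h := pd_comp_linear hu (SymR_M cs sn) 0 p
  simp only [SymR_mul] at h
  rw [h, Fin.sum_univ_three]
  simp [SymR_M]

theorem SymR_pd1 {u : Pt → ℝ} (hu : ContDiff ℝ ∞ u) (cs sn : ℝ) (p : Pt) :
    pd 1 (fun q => u (rotPt cs sn q)) p =
      cs * pd 1 u (rotPt cs sn p) + (-sn) * pd 2 u (rotPt cs sn p) := by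
  have h := pd_comp_linear hu (SymR_M cs sn) 1 p
  simp only [SymR_mul] at h
  rw [h, Fin.sum_univ_three]
  simp [SymR_M]

theorem SymR_pd2 {u : Pt → ℝ} (hu : ContDiff ℝ ∞ u) (cs sn : ℝ) (p : Pt) :
    pd 2 (fun q => u (rotPt cs sn q)) p =
      sn * pd 1 u (rotPt cs sn p) + cs * pd 2 u (rotPt cs sn p) := by
  have h := pd_comp_linear hu (SymR_M cs sn) 2 p
  simp only [SymR_mul] at h
  rw [h, Fin.sum_univ_three]
  simp [SymR_M]

theorem SymR_lin {u v : Pt → ℝ} (hu : ContDiff ℝ ∞ u) (hv : ContDiff ℝ ∞ v) (a b : ℝ)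
    (μ : Fin 3) (p : Pt) :
    pd μ (fun q => a * u q + b * v q) p = a * pd μ u p + b * pd μ v p := by
  have hu' : DifferentiableAt ℝ u p := (hu.differentiable (by simp)).differentiableAt
  have hv' : DifferentiableAt ℝ v p := (hv.differentiable (by simp)).differentiableAt
  unfold pd
  have h : HasFDerivAt (fun q => a * u q + b * v q)
      (a • fderiv ℝ u p + b • fderiv ℝ v p) p :=
    (hu'.hasFDerivAt.const_mul a).add (hv'.hasFDerivAt.const_mul b)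
  rw [h.fderiv]
  simp

/-- smooth field -/
def SymR_Sm (V : Pt → Fin 3 → ℝ) : Prop := ∀ i, ContDiff ℝ ∞ (fun p => V p i)

/-- the rotated field -/
def SymR_rot (cs sn CS SN : ℝ) (V : Pt → Fin 3 → ℝ) : Pt → Fin 3 → ℝ := fun p =>
  ![CS * V (rotPt cs sn p) 0 - SN * V (rotPt cs sn p) 1,
    SN * V (rotPt cs sn p) 0 + CS * V (rotPt cs sn p) 1, V (rotPt cs sn p) 2]

/-- linear combination of fields -/
def SymR_comb (a b : ℝ) (V W : Pt → Fin 3 → ℝ) : Pt → Fin 3 → ℝ := fun p i =>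
  a * V p i + b * W p i

theorem SymR_comb_sm {V W : Pt → Fin 3 → ℝ} (hV : SymR_Sm V) (hW : SymR_Sm W) (a b : ℝ) :
    SymR_Sm (SymR_comb a b V W) := fun i =>
  (contDiff_const.mul (hV i)).add (contDiff_const.mul (hW i))

theorem SymR_D_sm {c : Config} (hA : ∀ μ, ContDiff ℝ ∞ (c.A μ)) {V : Pt → Fin 3 → ℝ}
    (hV : SymR_Sm V) (μ : Fin 3) : SymR_Sm (c.D μ V) := by
  intro i
  fin_cases i
  · change ContDiff ℝ ∞ (fun p => c.D μ V p 0)
    simp only [D_zero]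
    exact (pd_smooth (hV 0) μ).sub ((hA μ).mul (hV 1))
  · change ContDiff ℝ ∞ (fun p => c.D μ V p 1)
    simp only [D_one]
    exact (pd_smooth (hV 1) μ).add ((hA μ).mul (hV 0))
  · change ContDiff ℝ ∞ (fun p => c.D μ V p 2)
    simp only [D_two]
    exact pd_smooth (hV 2) μ

theorem SymR_D_comb (c : Config) {V W : Pt → Fin 3 → ℝ} (hV : SymR_Sm V) (hW : SymR_Sm W)
    (a b : ℝ) (μ : Fin 3) :
    c.D μ (SymR_comb a b V W) = SymR_comb a b (c.D μ V) (c.D μ W) := by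
  funext p i
  fin_cases i
  · change c.D μ (SymR_comb a b V W) p 0 = a * c.D μ V p 0 + b * c.D μ W p 0
    rw [D_zero, D_zero, D_zero]
    unfold SymR_comb
    rw [SymR_lin (hV 0) (hW 0)]
    ring
  · change c.D μ (SymR_comb a b V W) p 1 = a * c.D μ V p 1 + b * c.D μ W p 1
    rw [D_one, D_one, D_one]
    unfold SymR_comb
    rw [SymR_lin (hV 1) (hW 1)]
    ring
  · change c.D μ (SymR_comb a b V W) p 2 = a * c.D μ V p 2 + b * c.D μ W p 2
    rw [D_two, D_two, D_two]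
    unfold SymR_comb
    rw [SymR_lin (hV 2) (hW 2)]

theorem SymR_rot_zero (cs sn CS SN : ℝ) (V : Pt → Fin 3 → ℝ) :
    (fun q => SymR_rot cs sn CS SN V q 0) = fun q =>
      CS * (fun r => V (rotPt cs sn r) 0) q + (-SN) * (fun r => V (rotPt cs sn r) 1) q := by
  funext q
  change CS * V (rotPt cs sn q) 0 - SN * V (rotPt cs sn q) 1 = _
  ring

theorem SymR_rot_one (cs sn CS SN : ℝ) (V : Pt → Fin 3 → ℝ) :
    (fun q => SymR_rot cs sn CS SN V q 1) = fun q =>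
      SN * (fun r => V (rotPt cs sn r) 0) q + CS * (fun r => V (rotPt cs sn r) 1) q := by
  funext q
  rfl

theorem SymR_rot_two (cs sn CS SN : ℝ) (V : Pt → Fin 3 → ℝ) :
    (fun q => SymR_rot cs sn CS SN V q 2) = fun q => V (rotPt cs sn q) 2 := by
  funext q
  rfl

section

variable {c : Config} {V : Pt → Fin 3 → ℝ} (cs sn CS SN : ℝ)

/-- general form: if `∂_μ` and `A'_μ` transform with the coefficients `(a, b)` of `(∂_ν, A_ν)`,
`(∂_κ, A_κ)` then so does `D_μ`. -/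
theorem SymR_gen (hV : SymR_Sm V) (μ ν κ : Fin 3) (a b : ℝ)
    (hpd : ∀ u : Pt → ℝ, ContDiff ℝ ∞ u → ∀ p, pd μ (fun q => u (rotPt cs sn q)) p =
      a * pd ν u (rotPt cs sn p) + b * pd κ u (rotPt cs sn p))
    (hA : ∀ p, (c.rot cs sn CS SN).A μ p =
      a * c.A ν (rotPt cs sn p) + b * c.A κ (rotPt cs sn p)) :
    (c.rot cs sn CS SN).D μ (SymR_rot cs sn CS SN V) =
      SymR_rot cs sn CS SN (SymR_comb a b (c.D ν V) (c.D κ V)) := by
  funext p i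
  have s0 := SymR_smooth (hV 0) cs sn
  have s1 := SymR_smooth (hV 1) cs sn
  fin_cases i
  · change (c.rot cs sn CS SN).D μ (SymR_rot cs sn CS SN V) p 0 =
      CS * (a * c.D ν V (rotPt cs sn p) 0 + b * c.D κ V (rotPt cs sn p) 0) -
        SN * (a * c.D ν V (rotPt cs sn p) 1 + b * c.D κ V (rotPt cs sn p) 1)
    rw [D_zero, SymR_rot_zero, SymR_lin s0 s1, hpd _ (hV 0), hpd _ (hV 1), hA, D_zero, D_zero,
      D_one, D_one]
    change CS * _ + -SN * _ - _ * (SN * V (rotPt cs sn p) 0 + CS * V (rotPt cs sn p) 1) = _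
    ring
  · change (c.rot cs sn CS SN).D μ (SymR_rot cs sn CS SN V) p 1 =
      SN * (a * c.D ν V (rotPt cs sn p) 0 + b * c.D κ V (rotPt cs sn p) 0) +
        CS * (a * c.D ν V (rotPt cs sn p) 1 + b * c.D κ V (rotPt cs sn p) 1)
    rw [D_one, SymR_rot_one, SymR_lin s0 s1, hpd _ (hV 0), hpd _ (hV 1), hA, D_zero, D_zero,
      D_one, D_one]
    change SN * _ + CS * _ + _ * (CS * V (rotPt cs sn p) 0 - SN * V (rotPt cs sn p) 1) = _
    ring
  · change (c.rot cs sn CS SN).D μ (SymR_rot cs sn CS SN V) p 2 =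
      a * c.D ν V (rotPt cs sn p) 2 + b * c.D κ V (rotPt cs sn p) 2
    rw [D_two, SymR_rot_two, hpd _ (hV 2), D_two, D_two]

theorem SymR_D0 (hV : SymR_Sm V) :
    (c.rot cs sn CS SN).D 0 (SymR_rot cs sn CS SN V) = SymR_rot cs sn CS SN (c.D 0 V) := by
  rw [SymR_gen cs sn CS SN hV 0 0 0 1 0 (fun u hu p => by rw [SymR_pd0 hu]; ring)
    (fun p => by change c.A 0 (rotPt cs sn p) = _; ring)]
  congr 1
  funext p i
  simp [SymR_comb]

theorem SymR_D1 (hV : SymR_Sm V) :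
    (c.rot cs sn CS SN).D 1 (SymR_rot cs sn CS SN V) =
      SymR_rot cs sn CS SN (SymR_comb cs (-sn) (c.D 1 V) (c.D 2 V)) :=
  SymR_gen cs sn CS SN hV 1 1 2 cs (-sn) (fun u hu p => by rw [SymR_pd1 hu])
    (fun p => by
      change cs * c.A 1 (rotPt cs sn p) - sn * c.A 2 (rotPt cs sn p) = _
      ring)

theorem SymR_D2 (hV : SymR_Sm V) :
    (c.rot cs sn CS SN).D 2 (SymR_rot cs sn CS SN V) =
      SymR_rot cs sn CS SN (SymR_comb sn cs (c.D 1 V) (c.D 2 V)) :=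
  SymR_gen cs sn CS SN hV 2 1 2 sn cs (fun u hu p => by rw [SymR_pd2 hu])
    (fun p => by
      change sn * c.A 1 (rotPt cs sn p) + cs * c.A 2 (rotPt cs sn p) = _
      rfl)

theorem SymR_F_smooth {c : Config} (hA : ∀ μ, ContDiff ℝ ∞ (c.A μ)) (μ ν : Fin 3) :
    ContDiff ℝ ∞ (c.F μ ν) := by
  have : c.F μ ν = fun p => pd μ (c.A ν) p - pd ν (c.A μ) p := by funext p; rfl
  rw [this]
  exact (pd_smooth (hA ν) μ).sub (pd_smooth (hA μ) ν)

theorem SymR_A1 (c : Config) : (c.rot cs sn CS SN).A 1 = fun q =>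
    cs * (fun r => c.A 1 (rotPt cs sn r)) q + (-sn) * (fun r => c.A 2 (rotPt cs sn r)) q := by
  funext q
  change cs * c.A 1 (rotPt cs sn q) - sn * c.A 2 (rotPt cs sn q) = _
  ring

theorem SymR_A2 (c : Config) : (c.rot cs sn CS SN).A 2 = fun q =>
    sn * (fun r => c.A 1 (rotPt cs sn r)) q + cs * (fun r => c.A 2 (rotPt cs sn r)) q := rfl

theorem SymR_A0 (c : Config) : (c.rot cs sn CS SN).A 0 = fun q => c.A 0 (rotPt cs sn q) := rfl

theorem SymR_F01 {c : Config} (hA : ∀ μ, ContDiff ℝ ∞ (c.A μ)) :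
    (c.rot cs sn CS SN).F 0 1 = fun q =>
      cs * (fun r => c.F 0 1 (rotPt cs sn r)) q + (-sn) * (fun r => c.F 0 2 (rotPt cs sn r)) q := by
  funext q
  change pd 0 ((c.rot cs sn CS SN).A 1) q - pd 1 ((c.rot cs sn CS SN).A 0) q = _
  rw [SymR_A1, SymR_A0, SymR_lin (SymR_smooth (hA 1) cs sn) (SymR_smooth (hA 2) cs sn),
    SymR_pd0 (hA 1), SymR_pd0 (hA 2), SymR_pd1 (hA 0)]
  simp only [Config.F]
  ring

theorem SymR_F02 {c : Config} (hA : ∀ μ, ContDiff ℝ ∞ (c.A μ)) :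
    (c.rot cs sn CS SN).F 0 2 = fun q =>
      sn * (fun r => c.F 0 1 (rotPt cs sn r)) q + cs * (fun r => c.F 0 2 (rotPt cs sn r)) q := by
  funext q
  change pd 0 ((c.rot cs sn CS SN).A 2) q - pd 2 ((c.rot cs sn CS SN).A 0) q = _
  rw [SymR_A2, SymR_A0, SymR_lin (SymR_smooth (hA 1) cs sn) (SymR_smooth (hA 2) cs sn),
    SymR_pd0 (hA 1), SymR_pd0 (hA 2), SymR_pd2 (hA 0)]
  simp only [Config.F]
  ring

theorem SymR_F12 {c : Config} (hA : ∀ μ, ContDiff ℝ ∞ (c.A μ)) (h1 : cs ^ 2 + sn ^ 2 = 1) :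
    (c.rot cs sn CS SN).F 1 2 = fun q => c.F 1 2 (rotPt cs sn q) := by
  funext q
  change pd 1 ((c.rot cs sn CS SN).A 2) q - pd 2 ((c.rot cs sn CS SN).A 1) q = _
  rw [SymR_A2, SymR_A1, SymR_lin (SymR_smooth (hA 1) cs sn) (SymR_smooth (hA 2) cs sn),
    SymR_lin (SymR_smooth (hA 1) cs sn) (SymR_smooth (hA 2) cs sn),
    SymR_pd1 (hA 1), SymR_pd1 (hA 2), SymR_pd2 (hA 1), SymR_pd2 (hA 2)]
  simp only [Config.F]
  linear_combination
    (pd 1 (c.A 2) (rotPt cs sn q) - pd 2 (c.A 1) (rotPt cs sn q)) * h1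

theorem SymR_F_anti (c : Config) (μ ν : Fin 3) : c.F μ ν = fun q => -c.F ν μ q := by
  funext q
  simp only [Config.F]
  ring

theorem SymR_F_diag (c : Config) (μ : Fin 3) : c.F μ μ = fun _ => 0 := by
  funext q
  simp only [Config.F]
  ring

end

theorem SymR_pd_zero (μ : Fin 3) (p : Pt) : pd μ (fun _ => (0 : ℝ)) p = 0 := by
  unfold pd
  simp

theorem SymR_pd_neg {u : Pt → ℝ} (hu : ContDiff ℝ ∞ u) (μ : Fin 3) (p : Pt) :
    pd μ (fun q => -u q) p = -pd μ u p := by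
  have h := SymR_lin hu hu (-1) 0 μ p
  simpa using h

theorem rot_temporal {c : Config} {b cs sn CS SN : ℝ} (h1 : cs ^ 2 + sn ^ 2 = 1)
    (h2 : CS ^ 2 + SN ^ 2 = 1) (hc : c.Temporal b) : (c.rot cs sn CS SN).Temporal b := by
  have hφ : SymR_Sm c.φ := hc.hφ
  have hA := hc.hA
  have hφ' : (c.rot cs sn CS SN).φ = SymR_rot cs sn CS SN c.φ := rfl
  refine ⟨?_, ?_, ?_, ?_⟩
  · intro i
    rw [hφ']
    have s0 := SymR_smooth (hφ 0) cs sn
    have s1 := SymR_smooth (hφ 1) cs sn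
    fin_cases i
    · change ContDiff ℝ ∞ (fun q => SymR_rot cs sn CS SN c.φ q 0)
      rw [SymR_rot_zero]
      exact (contDiff_const.mul s0).add (contDiff_const.mul s1)
    · change ContDiff ℝ ∞ (fun q => SymR_rot cs sn CS SN c.φ q 1)
      rw [SymR_rot_one]
      exact (contDiff_const.mul s0).add (contDiff_const.mul s1)
    · exact SymR_smooth (hφ 2) cs sn
  · intro μ
    have s1 := SymR_smooth (hA 1) cs sn
    have s2 := SymR_smooth (hA 2) cs sn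
    fin_cases μ
    · exact SymR_smooth (hA 0) cs sn
    · change ContDiff ℝ ∞ ((c.rot cs sn CS SN).A 1)
      rw [SymR_A1]
      exact (contDiff_const.mul s1).add (contDiff_const.mul s2)
    · change ContDiff ℝ ∞ ((c.rot cs sn CS SN).A 2)
      rw [SymR_A2]
      exact (contDiff_const.mul s1).add (contDiff_const.mul s2)
  · intro p
    exact hc.A0 _
  · intro p hp
    set q := rotPt cs sn p with hq
    have hq' : q ∈ slab 0 b := hp
    obtain ⟨e1, ⟨e2, e3, e4⟩, e5⟩ := (solvesAt_iff c q).mp (hc.sol q hq')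
    -- first derivatives
    have d0 := SymR_D0 (c := c) cs sn CS SN hφ
    have d1 := SymR_D1 (c := c) cs sn CS SN hφ
    have d2 := SymR_D2 (c := c) cs sn CS SN hφ
    have m0 := SymR_D_sm hA hφ 0
    have m1 := SymR_D_sm hA hφ 1
    have m2 := SymR_D_sm hA hφ 2
    -- second derivatives
    have dd0 : (c.rot cs sn CS SN).D 0 ((c.rot cs sn CS SN).D 0 (c.rot cs sn CS SN).φ) =
        SymR_rot cs sn CS SN (c.D 0 (c.D 0 c.φ)) := by
      rw [hφ', d0, SymR_D0 cs sn CS SN m0]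
    have dd1 : (c.rot cs sn CS SN).D 1 ((c.rot cs sn CS SN).D 1 (c.rot cs sn CS SN).φ) =
        SymR_rot cs sn CS SN (SymR_comb cs (-sn) (SymR_comb cs (-sn) (c.D 1 (c.D 1 c.φ))
          (c.D 1 (c.D 2 c.φ))) (SymR_comb cs (-sn) (c.D 2 (c.D 1 c.φ)) (c.D 2 (c.D 2 c.φ)))) := by
      rw [hφ', d1, SymR_D1 cs sn CS SN (SymR_comb_sm m1 m2 cs (-sn)), SymR_D_comb c m1 m2,
        SymR_D_comb c m1 m2]
    have dd2 : (c.rot cs sn CS SN).D 2 ((c.rot cs sn CS SN).D 2 (c.rot cs sn CS SN).φ) =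
        SymR_rot cs sn CS SN (SymR_comb sn cs (SymR_comb sn cs (c.D 1 (c.D 1 c.φ))
          (c.D 1 (c.D 2 c.φ))) (SymR_comb sn cs (c.D 2 (c.D 1 c.φ)) (c.D 2 (c.D 2 c.φ)))) := by
      rw [hφ', d2, SymR_D2 cs sn CS SN (SymR_comb_sm m1 m2 sn cs), SymR_D_comb c m1 m2,
        SymR_D_comb c m1 m2]
    have w0 : Wf (c.rot cs sn CS SN) p 0 = CS * Wf c q 0 - SN * Wf c q 1 := by
      unfold Wf
      rw [dd0, dd1, dd2]
      simp only [SymR_rot, SymR_comb, ← hq, Matrix.cons_val_zero]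
      have i1 : ((0 : Fin 3) = 2) = False := by decide
      have i2 : ((1 : Fin 3) = 2) = False := by decide
      simp only [i1, i2, if_false]
      linear_combination (-(CS * (c.D 1 (c.D 1 c.φ) q 0 + c.D 2 (c.D 2 c.φ) q 0)
        - SN * (c.D 1 (c.D 1 c.φ) q 1 + c.D 2 (c.D 2 c.φ) q 1))) * h1
    have w1 : Wf (c.rot cs sn CS SN) p 1 = SN * Wf c q 0 + CS * Wf c q 1 := by
      unfold Wf
      rw [dd0, dd1, dd2]
      simp only [SymR_rot, SymR_comb, ← hq, Matrix.cons_val_one, Matrix.cons_val_zero]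
      have i1 : ((0 : Fin 3) = 2) = False := by decide
      have i2 : ((1 : Fin 3) = 2) = False := by decide
      simp only [i1, i2, if_false]
      linear_combination (-(SN * (c.D 1 (c.D 1 c.φ) q 0 + c.D 2 (c.D 2 c.φ) q 0)
        + CS * (c.D 1 (c.D 1 c.φ) q 1 + c.D 2 (c.D 2 c.φ) q 1))) * h1
    have w2 : Wf (c.rot cs sn CS SN) p 2 = Wf c q 2 := by
      unfold Wf
      rw [dd0, dd1, dd2]
      have e : (c.rot cs sn CS SN).φ p 2 = c.φ q 2 := rfl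
      rw [e]
      change c.D 0 (c.D 0 c.φ) q 2 -
        (cs * (cs * c.D 1 (c.D 1 c.φ) q 2 + -sn * c.D 1 (c.D 2 c.φ) q 2) +
          -sn * (cs * c.D 2 (c.D 1 c.φ) q 2 + -sn * c.D 2 (c.D 2 c.φ) q 2)) -
        (sn * (sn * c.D 1 (c.D 1 c.φ) q 2 + cs * c.D 1 (c.D 2 c.φ) q 2) +
          cs * (sn * c.D 2 (c.D 1 c.φ) q 2 + cs * c.D 2 (c.D 2 c.φ) q 2)) - _ = _
      linear_combination (-(c.D 1 (c.D 1 c.φ) q 2 + c.D 2 (c.D 2 c.φ) q 2)) * h1
    have f0 : (c.rot cs sn CS SN).φ p 0 = CS * c.φ q 0 - SN * c.φ q 1 := rfl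
    have f1 : (c.rot cs sn CS SN).φ p 1 = SN * c.φ q 0 + CS * c.φ q 1 := rfl
    have f2 : (c.rot cs sn CS SN).φ p 2 = c.φ q 2 := rfl
    rw [solvesAt_iff]
    refine ⟨?_, ⟨?_, ?_, ?_⟩, ?_⟩
    · rw [f0, f1, f2]
      linear_combination e1 + (c.φ q 0 ^ 2 + c.φ q 1 ^ 2) * h2
    · rw [f1, f2, w1, w2]
      linear_combination CS * e2 - SN * e3
    · rw [f0, f2, w0, w2]
      linear_combination CS * e3 + SN * e2
    · rw [f0, f1, w0, w1]
      linear_combination e4 + (c.φ q 0 * Wf c q 1 - c.φ q 1 * Wf c q 0) * h2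
    · have F01 := SymR_F01 cs sn CS SN hA
      have F02 := SymR_F02 cs sn CS SN hA
      have F12 := SymR_F12 cs sn CS SN hA h1
      have sF : ∀ μ ν, ContDiff ℝ ∞ (fun r => c.F μ ν (rotPt cs sn r)) := fun μ ν =>
        SymR_smooth (SymR_F_smooth hA μ ν) cs sn
      have sG01 : ContDiff ℝ ∞ ((c.rot cs sn CS SN).F 0 1) := by
        rw [F01]
        exact (contDiff_const.mul (sF 0 1)).add (contDiff_const.mul (sF 0 2))
      have sG02 : ContDiff ℝ ∞ ((c.rot cs sn CS SN).F 0 2) := by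
        rw [F02]
        exact (contDiff_const.mul (sF 0 1)).add (contDiff_const.mul (sF 0 2))
      have sG12 : ContDiff ℝ ∞ ((c.rot cs sn CS SN).F 1 2) := by
        rw [F12]
        exact sF 1 2
      have hF := fun μ ν => SymR_F_smooth hA μ ν
      have g0 := e5 0
      have g1 := e5 1
      have g2 := e5 2
      rw [SymR_F_diag c 0, SymR_pd_zero] at g0
      rw [SymR_F_diag c 1, SymR_pd_zero, SymR_F_anti c 1 0, SymR_pd_neg (hF 0 1)] at g1
      rw [SymR_F_diag c 2, SymR_pd_zero, SymR_F_anti c 2 0, SymR_pd_neg (hF 0 2),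
        SymR_F_anti c 2 1, SymR_pd_neg (hF 1 2)] at g2
      intro μ
      fin_cases μ
      · change pd 0 ((c.rot cs sn CS SN).F 0 0) p - pd 1 ((c.rot cs sn CS SN).F 0 1) p -
          pd 2 ((c.rot cs sn CS SN).F 0 2) p =
          (c.rot cs sn CS SN).φ p 0 * (c.rot cs sn CS SN).D 0 (c.rot cs sn CS SN).φ p 1 -
          (c.rot cs sn CS SN).φ p 1 * (c.rot cs sn CS SN).D 0 (c.rot cs sn CS SN).φ p 0
        rw [f0, f1, hφ', d0, SymR_F_diag, SymR_pd_zero, F01, F02, SymR_lin (sF 0 1) (sF 0 2),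
          SymR_lin (sF 0 1) (sF 0 2), SymR_pd1 (hF 0 1), SymR_pd1 (hF 0 2), SymR_pd2 (hF 0 1),
          SymR_pd2 (hF 0 2), ← hq]
        change _ = (CS * c.φ q 0 - SN * c.φ q 1) *
          (SN * c.D 0 c.φ q 0 + CS * c.D 0 c.φ q 1) -
          (SN * c.φ q 0 + CS * c.φ q 1) * (CS * c.D 0 c.φ q 0 - SN * c.D 0 c.φ q 1)
        linear_combination g0 - (pd 1 (c.F 0 1) q + pd 2 (c.F 0 2) q) * h1 -
          (c.φ q 0 * c.D 0 c.φ q 1 - c.φ q 1 * c.D 0 c.φ q 0) * h2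
      · change pd 0 ((c.rot cs sn CS SN).F 1 0) p - pd 1 ((c.rot cs sn CS SN).F 1 1) p -
          pd 2 ((c.rot cs sn CS SN).F 1 2) p =
          (c.rot cs sn CS SN).φ p 0 * (c.rot cs sn CS SN).D 1 (c.rot cs sn CS SN).φ p 1 -
          (c.rot cs sn CS SN).φ p 1 * (c.rot cs sn CS SN).D 1 (c.rot cs sn CS SN).φ p 0
        rw [f0, f1, hφ', d1, SymR_F_diag, SymR_pd_zero, SymR_F_anti (c.rot cs sn CS SN) 1 0,
          SymR_pd_neg sG01, F01, F12, SymR_lin (sF 0 1) (sF 0 2), SymR_pd0 (hF 0 1),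
          SymR_pd0 (hF 0 2), SymR_pd2 (hF 1 2), ← hq]
        change _ = (CS * c.φ q 0 - SN * c.φ q 1) *
          (SN * (cs * c.D 1 c.φ q 0 + -sn * c.D 2 c.φ q 0) +
            CS * (cs * c.D 1 c.φ q 1 + -sn * c.D 2 c.φ q 1)) -
          (SN * c.φ q 0 + CS * c.φ q 1) *
          (CS * (cs * c.D 1 c.φ q 0 + -sn * c.D 2 c.φ q 0) -
            SN * (cs * c.D 1 c.φ q 1 + -sn * c.D 2 c.φ q 1))
        linear_combination cs * g1 - sn * g2 -
          (cs * (c.φ q 0 * c.D 1 c.φ q 1 - c.φ q 1 * c.D 1 c.φ q 0) -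
            sn * (c.φ q 0 * c.D 2 c.φ q 1 - c.φ q 1 * c.D 2 c.φ q 0)) * h2
      · change pd 0 ((c.rot cs sn CS SN).F 2 0) p - pd 1 ((c.rot cs sn CS SN).F 2 1) p -
          pd 2 ((c.rot cs sn CS SN).F 2 2) p =
          (c.rot cs sn CS SN).φ p 0 * (c.rot cs sn CS SN).D 2 (c.rot cs sn CS SN).φ p 1 -
          (c.rot cs sn CS SN).φ p 1 * (c.rot cs sn CS SN).D 2 (c.rot cs sn CS SN).φ p 0
        rw [f0, f1, hφ', d2, SymR_F_diag, SymR_pd_zero, SymR_F_anti (c.rot cs sn CS SN) 2 0,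
          SymR_pd_neg sG02, SymR_F_anti (c.rot cs sn CS SN) 2 1, SymR_pd_neg sG12, F02, F12,
          SymR_lin (sF 0 1) (sF 0 2), SymR_pd0 (hF 0 1),
          SymR_pd0 (hF 0 2), SymR_pd1 (hF 1 2), ← hq]
        change _ = (CS * c.φ q 0 - SN * c.φ q 1) *
          (SN * (sn * c.D 1 c.φ q 0 + cs * c.D 2 c.φ q 0) +
            CS * (sn * c.D 1 c.φ q 1 + cs * c.D 2 c.φ q 1)) -
          (SN * c.φ q 0 + CS * c.φ q 1) *
          (CS * (sn * c.D 1 c.φ q 0 + cs * c.D 2 c.φ q 0) -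
            SN * (sn * c.D 1 c.φ q 1 + cs * c.D 2 c.φ q 1))
        linear_combination sn * g1 + cs * g2 -
          (sn * (c.φ q 0 * c.D 1 c.φ q 1 - c.φ q 1 * c.D 1 c.φ q 0) +
            cs * (c.φ q 0 * c.D 2 c.φ q 1 - c.φ q 1 * c.D 2 c.φ q 0)) * h2

end

end H72GS

end S_SymR

section S_SymS

/-!
# SymS: the reflection

`q = (p0, p1, -p2)`, `φ' = (φ₀, -φ₁, φ₂)(q)`, `A' = (-A₀, -A₁, A₂)(q)`.  Then
`D'_0 V' = (D_0 V)'`, `D'_1 V' = (D_1 V)'`, `D'_2 V' = -(D_2 V)'` with `V' = (V₀,-V₁,V₂)(q)`;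
`F'_{01} = -F_{01}(q)`, `F'_{02} = F_{02}(q)`, `F'_{12} = F_{12}(q)`, `J'_0 = -J_0(q)`,
`J'_1 = -J_1(q)`, `J'_2 = J_2(q)`.
-/

namespace H72GS

open Set
open scoped ContDiff

noncomputable section

/-- reflected point -/
def refPt (p : Pt) : Pt := ![p 0, p 1, -p 2]

/-- reflected configuration -/
def Config.refl (c : Config) : Config where
  φ := fun p => ![c.φ (refPt p) 0, -c.φ (refPt p) 1, c.φ (refPt p) 2]
  A := fun μ p => (![-c.A 0 (refPt p), -c.A 1 (refPt p), c.A 2 (refPt p)] : Fin 3 → ℝ) μ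

/-- signs of the coordinates -/
def SymS_s : Fin 3 → ℝ := ![1, 1, -1]

/-- signs of the components of the map -/
def SymS_f : Fin 3 → ℝ := ![1, -1, 1]

theorem SymS_ss (μ : Fin 3) : SymS_s μ * SymS_s μ = 1 := by
  fin_cases μ <;> simp [SymS_s]

theorem SymS_ff (i : Fin 3) : SymS_f i * SymS_f i = 1 := by
  fin_cases i <;> simp [SymS_f]

theorem SymS_ref (p : Pt) : refPt p = (Matrix.diagonal SymS_s).mulVec p := by
  ext i
  rw [Matrix.mulVec_diagonal]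
  fin_cases i <;> simp [refPt, SymS_s]

theorem SymS_smooth : ContDiff ℝ ∞ refPt := by
  rw [contDiff_pi]
  intro i
  fin_cases i
  · exact contDiff_apply ℝ ℝ (0 : Fin 3)
  · exact contDiff_apply ℝ ℝ (1 : Fin 3)
  · exact (contDiff_apply ℝ ℝ (2 : Fin 3)).neg

theorem SymS_comp {u : Pt → ℝ} (hu : ContDiff ℝ ∞ u) : ContDiff ℝ ∞ (fun q => u (refPt q)) :=
  hu.comp SymS_smooth

theorem SymS_pd {u : Pt → ℝ} (hu : ContDiff ℝ ∞ u) (k : ℝ) (μ : Fin 3) :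
    pd μ (fun q => k * u (refPt q)) = fun p => (k * SymS_s μ) * pd μ u (refPt p) := by
  funext p
  have h1 : pd μ (fun q => u (refPt q)) p = SymS_s μ * pd μ u (refPt p) := by
    have h2 := pd_comp_linear hu (Matrix.diagonal SymS_s) μ p
    have h3 : (fun q => u (refPt q)) = fun q => u ((Matrix.diagonal SymS_s).mulVec q) := by
      funext q; rw [SymS_ref]
    rw [h3, h2, ← SymS_ref, Finset.sum_eq_single μ]
    · rw [Matrix.diagonal_apply_eq]
    · intro ν _ hν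
      rw [Matrix.diagonal_apply_ne _ hν, zero_mul]
    · intro h
      exact absurd (Finset.mem_univ μ) h
  have hd : DifferentiableAt ℝ (fun q => u (refPt q)) p :=
    (SymS_comp hu).contDiffAt.differentiableAt (by simp)
  have h4 : pd μ (fun q => k * u (refPt q)) p = k * pd μ (fun q => u (refPt q)) p := by
    unfold pd
    rw [fderiv_const_mul hd]
    rfl
  rw [h4, h1]; ring

theorem SymS_A (c : Config) (μ : Fin 3) :
    c.refl.A μ = fun p => -(SymS_s μ) * c.A μ (refPt p) := by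
  funext p
  fin_cases μ <;> simp [Config.refl, SymS_s]

theorem SymS_phi (c : Config) (i : Fin 3) :
    (fun p => c.refl.φ p i) = fun p => SymS_f i * c.φ (refPt p) i := by
  funext p
  fin_cases i <;> simp [Config.refl, SymS_f]

theorem SymS_pd2 {u : Pt → ℝ} (hu : ContDiff ℝ ∞ u) (k : ℝ) (μ : Fin 3) (p : Pt) :
    pd μ (pd μ (fun q => k * u (refPt q))) p = k * pd μ (pd μ u) (refPt p) := by
  rw [SymS_pd hu, SymS_pd (pd_smooth hu μ)]
  simp only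
  rw [mul_assoc k, SymS_ss, mul_one]

theorem SymS_F {c : Config} (hA : ∀ μ, ContDiff ℝ ∞ (c.A μ)) (μ ν : Fin 3) :
    c.refl.F μ ν = fun p => -(SymS_s μ * SymS_s ν) * c.F μ ν (refPt p) := by
  funext p
  unfold Config.F
  rw [SymS_A, SymS_A, SymS_pd (hA ν), SymS_pd (hA μ)]
  ring

theorem SymS_F_smooth {c : Config} (hA : ∀ μ, ContDiff ℝ ∞ (c.A μ)) (μ ν : Fin 3) :
    ContDiff ℝ ∞ (c.F μ ν) := by
  have : c.F μ ν = fun p => pd μ (c.A ν) p - pd ν (c.A μ) p := rfl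
  rw [this]
  exact (pd_smooth (hA ν) μ).sub (pd_smooth (hA μ) ν)

theorem SymS_pdF {c : Config} (hA : ∀ μ, ContDiff ℝ ∞ (c.A μ)) (μ ν : Fin 3) (p : Pt) :
    pd ν (c.refl.F μ ν) p = -(SymS_s μ) * pd ν (c.F μ ν) (refPt p) := by
  rw [SymS_F hA, SymS_pd (SymS_F_smooth hA μ ν)]
  simp only
  have := SymS_ss ν
  calc -(SymS_s μ * SymS_s ν) * SymS_s ν * pd ν (c.F μ ν) (refPt p)
      = -(SymS_s μ) * (SymS_s ν * SymS_s ν) * pd ν (c.F μ ν) (refPt p) := by ring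
    _ = _ := by rw [this, mul_one]

theorem SymS_D0 {c : Config} (hφ : ∀ i, ContDiff ℝ ∞ (fun p => c.φ p i)) (μ : Fin 3) (p : Pt) :
    c.refl.D μ c.refl.φ p 0 = SymS_s μ * c.D μ c.φ (refPt p) 0 := by
  rw [D_zero, D_zero, SymS_A, SymS_phi, SymS_pd (hφ 0)]
  have h1 : c.refl.φ p 1 = -c.φ (refPt p) 1 := rfl
  have h2 : SymS_f 0 = 1 := rfl
  simp only
  rw [h1, h2]; ring

theorem SymS_D1 {c : Config} (hφ : ∀ i, ContDiff ℝ ∞ (fun p => c.φ p i)) (μ : Fin 3) (p : Pt) :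
    c.refl.D μ c.refl.φ p 1 = -(SymS_s μ) * c.D μ c.φ (refPt p) 1 := by
  rw [D_one, D_one, SymS_A, SymS_phi, SymS_pd (hφ 1)]
  have h1 : c.refl.φ p 0 = c.φ (refPt p) 0 := rfl
  have h2 : SymS_f 1 = -1 := rfl
  simp only
  rw [h1, h2]; ring

theorem SymS_DD0 {c : Config} (hφ : ∀ i, ContDiff ℝ ∞ (fun p => c.φ p i))
    (hA : ∀ μ, ContDiff ℝ ∞ (c.A μ)) (hφ' : ∀ i, ContDiff ℝ ∞ (fun p => c.refl.φ p i))
    (hA' : ∀ μ, ContDiff ℝ ∞ (c.refl.A μ)) (μ : Fin 3) (p : Pt) :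
    c.refl.D μ (c.refl.D μ c.refl.φ) p 0 = c.D μ (c.D μ c.φ) (refPt p) 0 := by
  rw [DD_zero hφ' hA', DD_zero hφ hA, SymS_phi, SymS_phi, SymS_A, SymS_pd2 (hφ 0),
    SymS_pd (hφ 1), SymS_pd (hA μ)]
  have h1 : c.refl.φ p 1 = -c.φ (refPt p) 1 := rfl
  have h0 : c.refl.φ p 0 = c.φ (refPt p) 0 := rfl
  have h2 : SymS_f 0 = 1 := rfl
  have h3 : SymS_f 1 = -1 := rfl
  simp only
  rw [h0, h1, h2, h3]
  have := SymS_ss μ
  linear_combination (-2 * c.A μ (refPt p) * pd μ (fun q => c.φ q 1) (refPt p)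
    - pd μ (c.A μ) (refPt p) * c.φ (refPt p) 1 - c.A μ (refPt p) ^ 2 * c.φ (refPt p) 0) * this

theorem SymS_DD1 {c : Config} (hφ : ∀ i, ContDiff ℝ ∞ (fun p => c.φ p i))
    (hA : ∀ μ, ContDiff ℝ ∞ (c.A μ)) (hφ' : ∀ i, ContDiff ℝ ∞ (fun p => c.refl.φ p i))
    (hA' : ∀ μ, ContDiff ℝ ∞ (c.refl.A μ)) (μ : Fin 3) (p : Pt) :
    c.refl.D μ (c.refl.D μ c.refl.φ) p 1 = -c.D μ (c.D μ c.φ) (refPt p) 1 := by
  rw [DD_one hφ' hA', DD_one hφ hA, SymS_phi, SymS_phi, SymS_A, SymS_pd2 (hφ 1),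
    SymS_pd (hφ 0), SymS_pd (hA μ)]
  have h1 : c.refl.φ p 1 = -c.φ (refPt p) 1 := rfl
  have h0 : c.refl.φ p 0 = c.φ (refPt p) 0 := rfl
  have h2 : SymS_f 0 = 1 := rfl
  have h3 : SymS_f 1 = -1 := rfl
  simp only
  rw [h0, h1, h2, h3]
  have := SymS_ss μ
  linear_combination (-2 * c.A μ (refPt p) * pd μ (fun q => c.φ q 0) (refPt p)
    - pd μ (c.A μ) (refPt p) * c.φ (refPt p) 0 + c.A μ (refPt p) ^ 2 * c.φ (refPt p) 1) * this

theorem SymS_DD2 {c : Config} (hφ : ∀ i, ContDiff ℝ ∞ (fun p => c.φ p i)) (μ : Fin 3) (p : Pt) :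
    c.refl.D μ (c.refl.D μ c.refl.φ) p 2 = c.D μ (c.D μ c.φ) (refPt p) 2 := by
  rw [DD_two, DD_two, SymS_phi, SymS_pd2 (hφ 2)]
  have h2 : SymS_f 2 = 1 := rfl
  rw [h2, one_mul]

theorem refl_temporal {c : Config} {b : ℝ} (hc : c.Temporal b) : c.refl.Temporal b := by
  have hφ := hc.hφ
  have hA := hc.hA
  have hφ' : ∀ i, ContDiff ℝ ∞ (fun p => c.refl.φ p i) := by
    intro i
    rw [SymS_phi]
    exact contDiff_const.mul (SymS_comp (hφ i))
  have hA' : ∀ μ, ContDiff ℝ ∞ (c.refl.A μ) := by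
    intro μ
    rw [SymS_A]
    exact contDiff_const.mul (SymS_comp (hA μ))
  refine ⟨hφ', hA', ?_, ?_⟩
  · intro p
    rw [SymS_A]
    simp only
    rw [hc.A0, mul_zero]
  · intro p hp
    have hp' : refPt p ∈ slab 0 b := hp
    obtain ⟨k1, ⟨k2, k3, k4⟩, k5⟩ := (solvesAt_iff c (refPt p)).mp (hc.sol _ hp')
    have f0 : c.refl.φ p 0 = c.φ (refPt p) 0 := rfl
    have f1 : c.refl.φ p 1 = -c.φ (refPt p) 1 := rfl
    have f2 : c.refl.φ p 2 = c.φ (refPt p) 2 := rfl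
    have w0 : Wf c.refl p 0 = Wf c (refPt p) 0 := by
      unfold Wf
      rw [SymS_DD0 hφ hA hφ' hA', SymS_DD0 hφ hA hφ' hA', SymS_DD0 hφ hA hφ' hA', f2]
    have w1 : Wf c.refl p 1 = -Wf c (refPt p) 1 := by
      unfold Wf
      rw [SymS_DD1 hφ hA hφ' hA', SymS_DD1 hφ hA hφ' hA', SymS_DD1 hφ hA hφ' hA']
      simp only [Fin.reduceEq, if_false]
      ring
    have w2 : Wf c.refl p 2 = Wf c (refPt p) 2 := by
      unfold Wf
      rw [SymS_DD2 hφ, SymS_DD2 hφ, SymS_DD2 hφ, f2]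
    rw [solvesAt_iff]
    refine ⟨?_, ⟨?_, ?_, ?_⟩, ?_⟩
    · rw [f0, f1, f2]; linarith [k1, neg_sq (c.φ (refPt p) 1)]
    · rw [f1, f2, w1, w2]; linarith
    · rw [f0, f2, w0, w2]; linarith
    · rw [f0, f1, w0, w1]; linarith
    · intro μ
      rw [SymS_pdF hA, SymS_pdF hA, SymS_pdF hA, SymS_D0 hφ, SymS_D1 hφ, f0, f1]
      have := k5 μ
      linear_combination (-(SymS_s μ)) * this

end

end H72GS

end S_SymS

section S_DataDef

/-! # DataDef: the initial configuration, definitions -/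

namespace H72GS

noncomputable section

/-- radius of the support -/
def R00 : ℝ := 1 / 2000

/-- cut-off as a function of `ρ = |x|²` -/
def kap (ρ : ℝ) : ℝ := Real.smoothTransition (2 - 2 * ρ / R00 ^ 2)

/-- denominator -/
def den (ell ρ : ℝ) : ℝ := ρ ^ 4 + kap ρ ^ 2 * ell ^ 2

/-- the initial map -/
def dphi (ell x y : ℝ) : Fin 3 → ℝ :=
  ![2 * kap (x ^ 2 + y ^ 2) * ell * (x ^ 4 - 6 * x ^ 2 * y ^ 2 + y ^ 4) / den ell (x ^ 2 + y ^ 2),
    2 * kap (x ^ 2 + y ^ 2) * ell * (4 * x ^ 3 * y - 4 * x * y ^ 3) / den ell (x ^ 2 + y ^ 2),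
    ((x ^ 2 + y ^ 2) ^ 4 - kap (x ^ 2 + y ^ 2) ^ 2 * ell ^ 2) / den ell (x ^ 2 + y ^ 2)]

/-- the initial datum -/
def dat (om0 ell : ℝ) : InitData where
  φ0 := dphi ell
  φ1 := fun x y => ![-4 * om0 * (dphi ell x y 2 * dphi ell x y 0),
    -4 * om0 * (dphi ell x y 2 * dphi ell x y 1),
    4 * om0 * (dphi ell x y 0 ^ 2 + dphi ell x y 1 ^ 2)]
  a0 := fun _ _ _ => 0
  a1 := fun _ _ _ => 0

end

end H72GS

end S_DataDef

section S_DataA

/-!
# DataA: the cut-off, smoothness, constraints, symmetries of the initial configuration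

`ρ = x² + y²`, `kap ρ = 1` for `ρ ≤ R00²/2`, `0` for `ρ ≥ R00²`, `den = ρ⁴ + kap² ell² > 0`.
`(Re z⁴)² + (Im z⁴)² = ρ⁴`.  Gauss: all `F = 0`, `φ₀ (D_0φ)₁ - φ₁ (D_0φ)₀ = 0`.
-/

namespace H72GS

open Set
open scoped ContDiff

noncomputable section

theorem kap_smooth : ContDiff ℝ ∞ kap := by
  unfold kap
  have h : ContDiff ℝ ∞ (fun ρ : ℝ => 2 - 2 * ρ / R00 ^ 2) := by fun_prop
  exact Real.smoothTransition.contDiff.comp h

theorem DataA_R00_pos : 0 < R00 ^ 2 := by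
  unfold R00
  norm_num

theorem kap_one {ρ : ℝ} (h : ρ ≤ R00 ^ 2 / 2) : kap ρ = 1 := by
  unfold kap
  apply Real.smoothTransition.one_of_one_le
  have h1 : 2 * ρ / R00 ^ 2 ≤ 1 := by
    rw [div_le_one DataA_R00_pos]
    linarith
  linarith

theorem kap_zero {ρ : ℝ} (h : R00 ^ 2 ≤ ρ) : kap ρ = 0 := by
  unfold kap
  apply Real.smoothTransition.zero_of_nonpos
  have h1 : 2 ≤ 2 * ρ / R00 ^ 2 := by
    rw [le_div_iff₀ DataA_R00_pos]
    linarith
  linarith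

theorem kap_nonneg (ρ : ℝ) : 0 ≤ kap ρ := Real.smoothTransition.nonneg _

theorem kap_le_one (ρ : ℝ) : kap ρ ≤ 1 := Real.smoothTransition.le_one _

theorem den_pos {ell : ℝ} (hl : 0 < ell) {ρ : ℝ} (hρ : 0 ≤ ρ) : 0 < den ell ρ := by
  unfold den
  rcases hρ.eq_or_lt with h | h
  · rw [← h, kap_one (by have := DataA_R00_pos; positivity)]
    positivity
  · have h1 : 0 < ρ ^ 4 := by positivity
    have h2 : 0 ≤ kap ρ ^ 2 * ell ^ 2 := by positivity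
    linarith

variable {om0 ell : ℝ}

theorem dphi_smooth (hl : 0 < ell) (i : Fin 3) :
    ContDiff ℝ ∞ (fun z : ℝ × ℝ => dphi ell z.1 z.2 i) := by
  have h1 : ContDiff ℝ ∞ (fun z : ℝ × ℝ => z.1 ^ 2 + z.2 ^ 2) := by fun_prop
  have h2 : ContDiff ℝ ∞ (fun z : ℝ × ℝ => kap (z.1 ^ 2 + z.2 ^ 2)) := kap_smooth.comp h1
  have h3 : ContDiff ℝ ∞ (fun z : ℝ × ℝ => den ell (z.1 ^ 2 + z.2 ^ 2)) := by
    unfold den
    exact (h1.pow 4).add ((h2.pow 2).mul contDiff_const)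
  have h4 : ∀ z : ℝ × ℝ, den ell (z.1 ^ 2 + z.2 ^ 2) ≠ 0 := fun z =>
    (den_pos hl (by positivity)).ne'
  have h5 : ContDiff ℝ ∞ (fun z : ℝ × ℝ => z.1 ^ 4 - 6 * z.1 ^ 2 * z.2 ^ 2 + z.2 ^ 4) := by
    fun_prop
  have h6 : ContDiff ℝ ∞ (fun z : ℝ × ℝ => 4 * z.1 ^ 3 * z.2 - 4 * z.1 * z.2 ^ 3) := by
    fun_prop
  fin_cases i
  · exact (((contDiff_const.mul h2).mul contDiff_const).mul h5).div h3 h4
  · exact (((contDiff_const.mul h2).mul contDiff_const).mul h6).div h3 h4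
  · exact ((h1.pow 4).sub ((h2.pow 2).mul contDiff_const)).div h3 h4

theorem dat_smooth (hl : 0 < ell) : (dat om0 ell).Smooth := by
  have h0 := dphi_smooth hl 0
  have h1 := dphi_smooth hl 1
  have h2 := dphi_smooth hl 2
  refine ⟨fun i => dphi_smooth hl i, fun i => ?_, fun μ => ?_, fun μ => ?_⟩
  · fin_cases i
    · exact contDiff_const.mul (h2.mul h0)
    · exact contDiff_const.mul (h2.mul h1)
    · exact contDiff_const.mul ((h0.pow 2).add (h1.pow 2))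
  · exact contDiff_const
  · exact contDiff_const

theorem DataA_norm (hl : 0 < ell) (x y : ℝ) :
    dphi ell x y 0 ^ 2 + dphi ell x y 1 ^ 2 + dphi ell x y 2 ^ 2 = 1 := by
  have h : den ell (x ^ 2 + y ^ 2) ≠ 0 := (den_pos hl (by positivity)).ne'
  simp only [dphi, Matrix.cons_val_zero, Matrix.cons_val_one, Matrix.cons_val]
  field_simp
  unfold den
  ring

theorem dat_onSphere (hl : 0 < ell) : (dat om0 ell).OnSphere := by
  intro x y
  have h := DataA_norm hl x y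
  constructor
  · show dphi ell x y ⬝ᵥ dphi ell x y = 1
    simp only [dotProduct, Fin.sum_univ_three]
    linarith
  · show dphi ell x y ⬝ᵥ ![-4 * om0 * (dphi ell x y 2 * dphi ell x y 0),
      -4 * om0 * (dphi ell x y 2 * dphi ell x y 1),
      4 * om0 * (dphi ell x y 0 ^ 2 + dphi ell x y 1 ^ 2)] = 0
    simp only [dotProduct, Fin.sum_univ_three, Matrix.cons_val_zero, Matrix.cons_val_one,
      Matrix.cons_val]
    ring

theorem DataA_line {u v : ℝ × ℝ → ℝ} (hu : ContDiff ℝ ∞ u) (hv : ContDiff ℝ ∞ v) (x y : ℝ) :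
    pd 0 (fun q : Pt => u (q 1, q 2) + q 0 * v (q 1, q 2)) (pt0 x y) = v (x, y) := by
  have hpr : ContDiff ℝ ∞ (fun q : Pt => ((q 1, q 2) : ℝ × ℝ)) := by fun_prop
  have h3 : ContDiff ℝ ∞ (fun q : Pt => q 0) := by fun_prop
  have hd : DifferentiableAt ℝ (fun q : Pt => u (q 1, q 2) + q 0 * v (q 1, q 2)) (pt0 x y) :=
    ((hu.comp hpr).add (h3.mul (hv.comp hpr))).differentiable (by simp) _
  unfold pd
  rw [← hd.lineDeriv_eq_fderiv]
  have h4 : HasDerivAt (fun t : ℝ => u (x, y) + t * v (x, y)) (v (x, y)) 0 := by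
    have := ((hasDerivAt_id (0 : ℝ)).mul_const (v (x, y))).const_add (u (x, y))
    simpa using this
  have h5 : (fun t : ℝ => (fun q : Pt => u (q 1, q 2) + q 0 * v (q 1, q 2))
      (pt0 x y + t • Pi.single 0 1)) = fun t : ℝ => u (x, y) + t * v (x, y) := by
    funext t
    simp [pt0]
  unfold lineDeriv
  rw [h5]
  exact h4.deriv

/-- the time derivative of the auxiliary configuration -/
theorem DataA_pd0 (hl : 0 < ell) (i : Fin 3) (x y : ℝ) :
    pd 0 (fun q => (dat om0 ell).toConfig.φ q i) (pt0 x y) = (dat om0 ell).φ1 x y i :=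
  DataA_line ((dat_smooth (om0 := om0) hl).φ0 i) ((dat_smooth (om0 := om0) hl).φ1 i) x y

theorem dat_gauss (hl : 0 < ell) : (dat om0 ell).Gauss := by
  intro x y
  have hA : ∀ μ, (dat om0 ell).toConfig.A μ = fun _ => 0 := by
    intro μ
    funext p
    simp [InitData.toConfig, dat]
  have hpd : ∀ (ν : Fin 3), pd ν (fun _ : Pt => (0 : ℝ)) = fun _ => 0 := by
    intro ν
    funext p
    simp [pd]
  have hF : ∀ μ ν, (dat om0 ell).toConfig.F μ ν = fun _ => 0 := by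
    intro μ ν
    funext p
    simp [Config.F, hA, hpd]
  have hD : ∀ i, (dat om0 ell).toConfig.D 0 (dat om0 ell).toConfig.φ (pt0 x y) i
      = (dat om0 ell).φ1 x y i := by
    intro i
    simp only [Config.D, hA, zero_mul, add_zero]
    exact DataA_pd0 hl i x y
  have hφ : ∀ i, (dat om0 ell).toConfig.φ (pt0 x y) i = dphi ell x y i := by
    intro i
    simp [InitData.toConfig, dat, pt0]
  have hL : ∑ ν, sg ν * pd ν ((dat om0 ell).toConfig.F 0 ν) (pt0 x y) = 0 := by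
    simp [hF, hpd]
  rw [hL]
  simp only [crossProduct, nn, dotProduct, Fin.sum_univ_three, LinearMap.mk₂_apply,
    Matrix.cons_val_zero, Matrix.cons_val_one, Matrix.cons_val, hD, hφ]
  show _ = 0 * _ + 0 * _ + 1 * (dphi ell x y 0 * (-4 * om0 * (dphi ell x y 2 * dphi ell x y 1))
    - dphi ell x y 1 * (-4 * om0 * (dphi ell x y 2 * dphi ell x y 0)))
  ring

theorem DataA_cos4 (β : ℝ) : Real.cos (4 * β) =
    Real.cos β ^ 4 - 6 * Real.cos β ^ 2 * Real.sin β ^ 2 + Real.sin β ^ 4 := by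
  have h1 : 4 * β = 2 * (2 * β) := by ring
  rw [h1, Real.cos_two_mul', Real.cos_two_mul', Real.sin_two_mul]
  ring

theorem DataA_sin4 (β : ℝ) : Real.sin (4 * β) =
    4 * Real.cos β ^ 3 * Real.sin β - 4 * Real.cos β * Real.sin β ^ 3 := by
  have h1 : 4 * β = 2 * (2 * β) := by ring
  rw [h1, Real.sin_two_mul, Real.cos_two_mul', Real.sin_two_mul]
  ring

/-- rotation equivariance of the initial map -/
theorem dphi_rot (hl : 0 < ell) (β x y : ℝ) :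
    dphi ell (Real.cos β * x + Real.sin β * y) (-Real.sin β * x + Real.cos β * y) =
      ![Real.cos (4 * β) * dphi ell x y 0 + Real.sin (4 * β) * dphi ell x y 1,
        -Real.sin (4 * β) * dphi ell x y 0 + Real.cos (4 * β) * dphi ell x y 1,
        dphi ell x y 2] := by
  have h1 : (Real.cos β * x + Real.sin β * y) ^ 2 + (-Real.sin β * x + Real.cos β * y) ^ 2
      = x ^ 2 + y ^ 2 := by
    have := Real.sin_sq_add_cos_sq β
    linear_combination (x ^ 2 + y ^ 2) * this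
  have hden : den ell (x ^ 2 + y ^ 2) ≠ 0 := (den_pos hl (by positivity)).ne'
  funext i
  fin_cases i
  · simp only [dphi, h1, DataA_cos4, DataA_sin4, Fin.zero_eta, Matrix.cons_val_zero,
      Matrix.cons_val_one, Matrix.cons_val]
    field_simp
    ring
  · simp only [dphi, h1, DataA_cos4, DataA_sin4, Fin.mk_one, Matrix.cons_val_zero,
      Matrix.cons_val_one, Matrix.cons_val]
    field_simp
    ring
  · simp only [dphi, h1, Fin.reduceFinMk, Matrix.cons_val_zero,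
      Matrix.cons_val_one, Matrix.cons_val]

/-- reflection -/
theorem dphi_refl (ell x y : ℝ) :
    dphi ell x (-y) = ![dphi ell x y 0, -dphi ell x y 1, dphi ell x y 2] := by
  have h1 : x ^ 2 + (-y) ^ 2 = x ^ 2 + y ^ 2 := by ring
  funext i
  fin_cases i
  · simp only [dphi, h1, Fin.zero_eta, Matrix.cons_val_zero,
      Matrix.cons_val_one, Matrix.cons_val]
    congr 1
    ring
  · simp only [dphi, h1, Fin.mk_one, Matrix.cons_val_zero,
      Matrix.cons_val_one, Matrix.cons_val]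
    rw [← neg_div]
    congr 1
    ring
  · simp only [dphi, h1, Fin.reduceFinMk, Matrix.cons_val_zero,
      Matrix.cons_val_one, Matrix.cons_val]

end

end H72GS

end S_DataA

section S_DataB

/-!
# DataB: finite energy and boundary condition of the initial configuration

Energy density: for the configuration `(dat om0 ell).toConfig` at the points `(0,x,y)`: a continuous
function of `(x,y)` (everything is smooth), zero for `ρ = x² + y² > R00²` (there `φ0 = n`, `φ1 = 0`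
locally, vanishing gauge field), so continuous with compact support, hence integrable.
Boundary: `dphi ell x y 2 = 1` for `ρ ≥ R00²`.
-/

namespace H72GS

open Set MeasureTheory Filter Topology
open scoped ContDiff Matrix

private lemma DataB_out {z : ℝ × ℝ} (hz : z ∉ Metric.closedBall (0 : ℝ × ℝ) R00) :
    R00 ^ 2 < z.1 ^ 2 + z.2 ^ 2 := by
  have hR : (0 : ℝ) < R00 := by unfold R00; norm_num
  rw [mem_closedBall_zero_iff, not_le, Prod.norm_def, lt_max_iff, Real.norm_eq_abs,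
    Real.norm_eq_abs] at hz
  rcases hz with h | h
  · have := pow_lt_pow_left₀ h hR.le (two_ne_zero)
    rw [sq_abs] at this
    nlinarith [sq_nonneg z.2]
  · have := pow_lt_pow_left₀ h hR.le (two_ne_zero)
    rw [sq_abs] at this
    nlinarith [sq_nonneg z.1]

private lemma DataB_dphi {ell : ℝ} {x y : ℝ} (h : R00 ^ 2 < x ^ 2 + y ^ 2) :
    dphi ell x y = ![0, 0, 1] := by
  have hk : kap (x ^ 2 + y ^ 2) = 0 := kap_zero h.le
  have hpos : 0 < x ^ 2 + y ^ 2 := lt_of_le_of_lt (sq_nonneg _) h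
  have hne : (x ^ 2 + y ^ 2) ^ 4 ≠ 0 := (pow_pos hpos 4).ne'
  unfold dphi den
  rw [hk]
  ext i
  fin_cases i
  · simp
  · simp
  · simp [div_self hne]

private lemma DataB_nn (V : Fin 3 → ℝ) : nn ⬝ᵥ V = V 2 := by
  simp [nn, dotProduct, Fin.sum_univ_three]

private lemma DataB_A (om0 ell : ℝ) (μ : Fin 3) : (dat om0 ell).toConfig.A μ = fun _ => 0 := by
  funext p
  simp [InitData.toConfig, dat]

private lemma DataB_F (om0 ell : ℝ) (μ ν : Fin 3) (p : Pt) :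
    (dat om0 ell).toConfig.F μ ν p = 0 := by
  unfold Config.F pd
  rw [DataB_A, DataB_A]
  simp

private lemma DataB_D (om0 ell : ℝ) (μ i : Fin 3) (p : Pt) :
    (dat om0 ell).toConfig.D μ (dat om0 ell).toConfig.φ p i =
      pd μ (fun q => (dat om0 ell).toConfig.φ q i) p := by
  unfold Config.D
  rw [DataB_A]
  simp

private lemma DataB_smooth {om0 ell : ℝ} (hl : 0 < ell) (i : Fin 3) :
    ContDiff ℝ ∞ (fun q : Pt => (dat om0 ell).toConfig.φ q i) := by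
  have h := dat_smooth (om0 := om0) hl
  have e : ContDiff ℝ ∞ (fun q : Pt => (q 1, q 2)) :=
    (contDiff_apply ℝ ℝ (1 : Fin 3)).prodMk (contDiff_apply ℝ ℝ (2 : Fin 3))
  have h0 := (h.φ0 i).comp e
  have h1 := (h.φ1 i).comp e
  exact h0.add ((contDiff_apply ℝ ℝ (0 : Fin 3)).mul h1)

private lemma DataB_pd_cont {u : Pt → ℝ} (hu : ContDiff ℝ ∞ u) (μ : Fin 3) :
    Continuous (pd μ u) :=
  (hu.continuous_fderiv (by simp)).clm_apply continuous_const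

private lemma DataB_phi_out {om0 ell : ℝ} {p : Pt} (h : R00 ^ 2 < p 1 ^ 2 + p 2 ^ 2) :
    (dat om0 ell).toConfig.φ p = ![0, 0, 1] := by
  have h1 : dphi ell (p 1) (p 2) = ![0, 0, 1] := DataB_dphi h
  ext i
  simp only [InitData.toConfig, dat, h1]
  fin_cases i <;> simp

private lemma DataB_pd_out {om0 ell : ℝ} {p : Pt} (h : R00 ^ 2 < p 1 ^ 2 + p 2 ^ 2)
    (μ i : Fin 3) : pd μ (fun q => (dat om0 ell).toConfig.φ q i) p = 0 := by
  have hopen : IsOpen {q : Pt | R00 ^ 2 < q 1 ^ 2 + q 2 ^ 2} :=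
    isOpen_lt continuous_const (by fun_prop)
  have hev : (fun q : Pt => (dat om0 ell).toConfig.φ q i) =ᶠ[𝓝 p]
      fun _ => (![0, 0, 1] : Fin 3 → ℝ) i := by
    filter_upwards [hopen.mem_nhds h] with q hq
    rw [DataB_phi_out hq]
  unfold pd
  rw [hev.fderiv_eq]
  simp

private lemma DataB_ed (om0 ell : ℝ) (p : Pt) :
    (dat om0 ell).toConfig.energyDensity p = (1 / 2) *
      ((∑ μ : Fin 3, ∑ i : Fin 3, pd μ (fun q => (dat om0 ell).toConfig.φ q i) p *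
        pd μ (fun q => (dat om0 ell).toConfig.φ q i) p) +
        (1 - (dat om0 ell).toConfig.φ p 2) ^ 2) := by
  unfold Config.energyDensity
  rw [DataB_F, DataB_F, DataB_F, DataB_nn]
  simp only [dotProduct, DataB_D]
  ring

theorem dat_energy {om0 ell : ℝ} (hl : 0 < ell) : (dat om0 ell).FiniteEnergy := by
  unfold InitData.FiniteEnergy
  have hpt : Continuous (fun z : ℝ × ℝ => pt0 z.1 z.2) := by
    unfold pt0
    refine continuous_pi (fun i => ?_)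
    fin_cases i
    · exact continuous_const
    · exact continuous_fst
    · exact continuous_snd
  have hcont : Continuous (fun z : ℝ × ℝ => (dat om0 ell).toConfig.energyDensity (pt0 z.1 z.2)) := by
    have h1 : Continuous (fun p : Pt => (dat om0 ell).toConfig.energyDensity p) := by
      simp_rw [DataB_ed]
      refine continuous_const.mul (Continuous.add ?_ ?_)
      · refine continuous_finsetSum _ (fun μ _ => continuous_finsetSum _ (fun i _ => ?_))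
        exact (DataB_pd_cont (DataB_smooth hl i) μ).mul (DataB_pd_cont (DataB_smooth hl i) μ)
      · exact (continuous_const.sub (DataB_smooth hl 2).continuous).pow 2
    exact h1.comp hpt
  refine hcont.integrable_of_hasCompactSupport ?_
  refine HasCompactSupport.intro (isCompact_closedBall (0 : ℝ × ℝ) R00) (fun z hz => ?_)
  have hz' : R00 ^ 2 < (pt0 z.1 z.2) 1 ^ 2 + (pt0 z.1 z.2) 2 ^ 2 := by
    have := DataB_out hz
    simpa [pt0] using this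
  rw [DataB_ed]
  simp only [DataB_pd_out hz', DataB_phi_out hz']
  simp

theorem dat_boundary {om0 ell : ℝ} (hl : 0 < ell) : (dat om0 ell).Boundary := by
  unfold InitData.Boundary
  refine tendsto_const_nhds.congr' ?_
  have hmem : (Metric.closedBall (0 : ℝ × ℝ) R00)ᶜ ∈ cocompact (ℝ × ℝ) :=
    (isCompact_closedBall (0 : ℝ × ℝ) R00).compl_mem_cocompact
  filter_upwards [hmem] with z hz
  rw [DataB_nn]
  simp only [dat, DataB_dphi (DataB_out hz)]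
  simp

end H72GS

end S_DataB

section S_Inv

/-!
# Inv: the solution inherits the symmetries of the datum

`c` in temporal gauge with data `dat`; `c.rot (cos β) (sin β) (cos 4β) (sin 4β)` and `c.refl` are in
temporal gauge, solve, and have the same data (`dphi_rot`, `dphi_refl`; for the time derivatives:
`∂_t (c.rot ..) = Rot (∂_t c)(rotPt)`, because the rotation does not involve `t`); use `uniq`.
(`φ' (0,x) = Rot(4β) dphi(R_{-β} x) = dphi(x)`.)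
-/

namespace H72GS

open Set
open scoped ContDiff

/-- symmetric configuration in temporal gauge -/
structure SymConf (c : Config) (b : ℝ) : Prop where
  temp : c.Temporal b
  rot : ∀ β : ℝ, ∀ p ∈ hslab b,
    (c.rot (Real.cos β) (Real.sin β) (Real.cos (4 * β)) (Real.sin (4 * β))).φ p = c.φ p ∧
    ∀ μ, (c.rot (Real.cos β) (Real.sin β) (Real.cos (4 * β)) (Real.sin (4 * β))).A μ p = c.A μ p
  refl : ∀ p ∈ hslab b, c.refl.φ p = c.φ p ∧ ∀ μ, c.refl.A μ p = c.A μ p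
  south : c.φ (pt0 0 0) 2 = -1

/-- the reflection matrix -/
noncomputable def Inv_M : Matrix (Fin 3) (Fin 3) ℝ := !![1, 0, 0; 0, 1, 0; 0, 0, -1]

theorem Inv_mul (p : Pt) : Inv_M.mulVec p = refPt p := by
  funext i
  fin_cases i <;>
    simp [Inv_M, refPt, Matrix.mulVec, dotProduct, Fin.sum_univ_three]

theorem Inv_ref_smooth {u : Pt → ℝ} (hu : ContDiff ℝ ∞ u) :
    ContDiff ℝ ∞ (fun p => u (refPt p)) := by
  have h : ContDiff ℝ ∞ refPt := by
    rw [contDiff_pi]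
    intro i
    have h0 : ∀ j : Fin 3, ContDiff ℝ ∞ (fun p : Pt => p j) := fun j => contDiff_apply ℝ ℝ j
    fin_cases i
    · exact h0 0
    · exact h0 1
    · exact (h0 2).neg
  exact hu.comp h

theorem Inv_pd0 {u : Pt → ℝ} (hu : ContDiff ℝ ∞ u) (p : Pt) :
    pd 0 (fun q => u (refPt q)) p = pd 0 u (refPt p) := by
  have h := pd_comp_linear hu Inv_M 0 p
  simp only [Inv_mul] at h
  rw [h, Fin.sum_univ_three]
  simp [Inv_M]

theorem Inv_rotPt (cs sn x y : ℝ) :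
    rotPt cs sn (pt0 x y) = pt0 (cs * x + sn * y) (-sn * x + cs * y) := by
  funext i
  fin_cases i <;> simp [rotPt, pt0]

theorem Inv_refPt (x y : ℝ) : refPt (pt0 x y) = pt0 x (-y) := by
  funext i
  fin_cases i <;> simp [refPt, pt0]

theorem Inv_south {om0 ell : ℝ} (hl : 0 < ell) : (dat om0 ell).φ0 0 0 2 = -1 := by
  change ((0 ^ 2 + 0 ^ 2 : ℝ) ^ 4 - kap (0 ^ 2 + 0 ^ 2) ^ 2 * ell ^ 2) /
    den ell (0 ^ 2 + 0 ^ 2) = -1
  have h0 : (0 ^ 2 + 0 ^ 2 : ℝ) = 0 := by norm_num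
  have hk : kap 0 = 1 := kap_one (by unfold R00; norm_num)
  rw [h0, hk]
  unfold den
  rw [hk]
  have : ell ^ 2 ≠ 0 := by positivity
  field_simp
  ring

theorem symConf_of_data {c : Config} {b om0 ell : ℝ} (hl : 0 < ell) (hc : c.Temporal b)
    (h0 : ∀ x y i, c.φ (pt0 x y) i = (dat om0 ell).φ0 x y i ∧
        pd 0 (fun p => c.φ p i) (pt0 x y) = (dat om0 ell).φ1 x y i)
    (h1 : ∀ μ x y, c.A μ (pt0 x y) = 0 ∧ pd 0 (c.A μ) (pt0 x y) = 0) : SymConf c b := by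
  have hφ := hc.hφ
  have hA := hc.hA
  refine ⟨hc, ?_, ?_, ?_⟩
  · intro β
    set cs := Real.cos β with hcs
    set sn := Real.sin β with hsn
    set CS := Real.cos (4 * β) with hCS
    set SN := Real.sin (4 * β) with hSN
    have e1 : cs ^ 2 + sn ^ 2 = 1 := by rw [hcs, hsn]; exact Real.cos_sq_add_sin_sq β
    have e2 : CS ^ 2 + SN ^ 2 = 1 := by rw [hCS, hSN]; exact Real.cos_sq_add_sin_sq (4 * β)
    refine uniq (rot_temporal e1 e2 hc) hc ?_
    intro x y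
    have hd := dphi_rot hl β x y
    rw [← hcs, ← hsn, ← hCS, ← hSN] at hd
    have hd0 := congrFun hd 0
    have hd1 := congrFun hd 1
    have hd2 := congrFun hd 2
    simp only [Matrix.cons_val_zero, Matrix.cons_val_one, Matrix.cons_val_two] at hd0 hd1
    change _ = dphi ell x y 2 at hd2
    have s0 := SymR_smooth (hφ 0) cs sn
    have s1 := SymR_smooth (hφ 1) cs sn
    have t1 := SymR_smooth (hA 1) cs sn
    have t2 := SymR_smooth (hA 2) cs sn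
    have hq := Inv_rotPt cs sn x y
    set X := cs * x + sn * y with hX
    set Y := -sn * x + cs * y with hY
    have k0 := h0 X Y 0
    have k1 := h0 X Y 1
    have k2 := h0 X Y 2
    have l0 := h0 x y 0
    have l1 := h0 x y 1
    have l2 := h0 x y 2
    change _ = dphi ell X Y 0 ∧ _ = -4 * om0 * (dphi ell X Y 2 * dphi ell X Y 0) at k0
    change _ = dphi ell X Y 1 ∧ _ = -4 * om0 * (dphi ell X Y 2 * dphi ell X Y 1) at k1
    change _ = dphi ell X Y 2 ∧ _ = 4 * om0 * (dphi ell X Y 0 ^ 2 + dphi ell X Y 1 ^ 2) at k2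
    change _ = dphi ell x y 0 ∧ _ = -4 * om0 * (dphi ell x y 2 * dphi ell x y 0) at l0
    change _ = dphi ell x y 1 ∧ _ = -4 * om0 * (dphi ell x y 2 * dphi ell x y 1) at l1
    change _ = dphi ell x y 2 ∧ _ = 4 * om0 * (dphi ell x y 0 ^ 2 + dphi ell x y 1 ^ 2) at l2
    refine ⟨?_, ?_⟩
    · intro i
      fin_cases i
      · refine ⟨?_, ?_⟩
        · change CS * c.φ (rotPt cs sn (pt0 x y)) 0 - SN * c.φ (rotPt cs sn (pt0 x y)) 1 =
            c.φ (pt0 x y) 0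
          rw [hq, k0.1, k1.1, l0.1, hd0, hd1]
          linear_combination (dphi ell x y 0) * e2
        · change pd 0 (fun q => SymR_rot cs sn CS SN c.φ q 0) (pt0 x y) =
            pd 0 (fun p => c.φ p 0) (pt0 x y)
          rw [SymR_rot_zero, SymR_lin s0 s1, SymR_pd0 (hφ 0), SymR_pd0 (hφ 1), hq, k0.2, k1.2,
            l0.2, hd0, hd1, hd2]
          linear_combination (-4 * om0 * dphi ell x y 2 * dphi ell x y 0) * e2
      · refine ⟨?_, ?_⟩
        · change SN * c.φ (rotPt cs sn (pt0 x y)) 0 + CS * c.φ (rotPt cs sn (pt0 x y)) 1 =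
            c.φ (pt0 x y) 1
          rw [hq, k0.1, k1.1, l1.1, hd0, hd1]
          linear_combination (dphi ell x y 1) * e2
        · change pd 0 (fun q => SymR_rot cs sn CS SN c.φ q 1) (pt0 x y) =
            pd 0 (fun p => c.φ p 1) (pt0 x y)
          rw [SymR_rot_one, SymR_lin s0 s1, SymR_pd0 (hφ 0), SymR_pd0 (hφ 1), hq, k0.2, k1.2,
            l1.2, hd0, hd1, hd2]
          linear_combination (-4 * om0 * dphi ell x y 2 * dphi ell x y 1) * e2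
      · refine ⟨?_, ?_⟩
        · change c.φ (rotPt cs sn (pt0 x y)) 2 = c.φ (pt0 x y) 2
          rw [hq, k2.1, l2.1, hd2]
        · change pd 0 (fun q => SymR_rot cs sn CS SN c.φ q 2) (pt0 x y) =
            pd 0 (fun p => c.φ p 2) (pt0 x y)
          rw [SymR_rot_two, SymR_pd0 (hφ 2), hq, k2.2, l2.2, hd0, hd1]
          linear_combination (4 * om0 * (dphi ell x y 0 ^ 2 + dphi ell x y 1 ^ 2)) * e2
    · intro μ
      have a0 := h1 0 X Y
      have a1 := h1 1 X Y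
      have a2 := h1 2 X Y
      fin_cases μ
      · refine ⟨?_, ?_⟩
        · change c.A 0 (rotPt cs sn (pt0 x y)) = c.A 0 (pt0 x y)
          rw [hq, a0.1, (h1 0 x y).1]
        · change pd 0 (fun q => c.A 0 (rotPt cs sn q)) (pt0 x y) = pd 0 (c.A 0) (pt0 x y)
          rw [SymR_pd0 (hA 0), hq, a0.2, (h1 0 x y).2]
      · refine ⟨?_, ?_⟩
        · change cs * c.A 1 (rotPt cs sn (pt0 x y)) - sn * c.A 2 (rotPt cs sn (pt0 x y)) =
            c.A 1 (pt0 x y)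
          rw [hq, a1.1, a2.1, (h1 1 x y).1]
          ring
        · change pd 0 ((c.rot cs sn CS SN).A 1) (pt0 x y) = pd 0 (c.A 1) (pt0 x y)
          rw [SymR_A1, SymR_lin t1 t2, SymR_pd0 (hA 1), SymR_pd0 (hA 2), hq, a1.2, a2.2,
            (h1 1 x y).2]
          ring
      · refine ⟨?_, ?_⟩
        · change sn * c.A 1 (rotPt cs sn (pt0 x y)) + cs * c.A 2 (rotPt cs sn (pt0 x y)) =
            c.A 2 (pt0 x y)
          rw [hq, a1.1, a2.1, (h1 2 x y).1]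
          ring
        · change pd 0 ((c.rot cs sn CS SN).A 2) (pt0 x y) = pd 0 (c.A 2) (pt0 x y)
          rw [SymR_A2, SymR_lin t1 t2, SymR_pd0 (hA 1), SymR_pd0 (hA 2), hq, a1.2, a2.2,
            (h1 2 x y).2]
          ring
  · refine uniq (refl_temporal hc) hc ?_
    intro x y
    have hq := Inv_refPt x y
    have hd := dphi_refl ell x y
    have hd0 := congrFun hd 0
    have hd1 := congrFun hd 1
    have hd2 := congrFun hd 2
    simp only [Matrix.cons_val_zero, Matrix.cons_val_one] at hd0 hd1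
    change _ = dphi ell x y 2 at hd2
    have k0 := h0 x (-y) 0
    have k1 := h0 x (-y) 1
    have k2 := h0 x (-y) 2
    have l0 := h0 x y 0
    have l1 := h0 x y 1
    have l2 := h0 x y 2
    change _ = dphi ell x (-y) 0 ∧ _ = -4 * om0 * (dphi ell x (-y) 2 * dphi ell x (-y) 0) at k0
    change _ = dphi ell x (-y) 1 ∧ _ = -4 * om0 * (dphi ell x (-y) 2 * dphi ell x (-y) 1) at k1
    change _ = dphi ell x (-y) 2 ∧
      _ = 4 * om0 * (dphi ell x (-y) 0 ^ 2 + dphi ell x (-y) 1 ^ 2) at k2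
    change _ = dphi ell x y 0 ∧ _ = -4 * om0 * (dphi ell x y 2 * dphi ell x y 0) at l0
    change _ = dphi ell x y 1 ∧ _ = -4 * om0 * (dphi ell x y 2 * dphi ell x y 1) at l1
    change _ = dphi ell x y 2 ∧ _ = 4 * om0 * (dphi ell x y 0 ^ 2 + dphi ell x y 1 ^ 2) at l2
    refine ⟨?_, ?_⟩
    · intro i
      fin_cases i
      · refine ⟨?_, ?_⟩
        · change c.φ (refPt (pt0 x y)) 0 = c.φ (pt0 x y) 0
          rw [hq, k0.1, l0.1, hd0]
        · change pd 0 (fun q => c.φ (refPt q) 0) (pt0 x y) = pd 0 (fun p => c.φ p 0) (pt0 x y)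
          rw [Inv_pd0 (hφ 0), hq, k0.2, l0.2, hd0, hd2]
      · refine ⟨?_, ?_⟩
        · change -c.φ (refPt (pt0 x y)) 1 = c.φ (pt0 x y) 1
          rw [hq, k1.1, l1.1, hd1]
          ring
        · change pd 0 (fun q => -(fun r => c.φ (refPt r) 1) q) (pt0 x y) =
            pd 0 (fun p => c.φ p 1) (pt0 x y)
          rw [SymR_pd_neg (Inv_ref_smooth (hφ 1)), Inv_pd0 (hφ 1), hq, k1.2, l1.2, hd1, hd2]
          ring
      · refine ⟨?_, ?_⟩
        · change c.φ (refPt (pt0 x y)) 2 = c.φ (pt0 x y) 2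
          rw [hq, k2.1, l2.1, hd2]
        · change pd 0 (fun q => c.φ (refPt q) 2) (pt0 x y) = pd 0 (fun p => c.φ p 2) (pt0 x y)
          rw [Inv_pd0 (hφ 2), hq, k2.2, l2.2, hd0, hd1]
          ring
    · intro μ
      have a0 := h1 0 x (-y)
      have a1 := h1 1 x (-y)
      have a2 := h1 2 x (-y)
      fin_cases μ
      · refine ⟨?_, ?_⟩
        · change -c.A 0 (refPt (pt0 x y)) = c.A 0 (pt0 x y)
          rw [hq, a0.1, (h1 0 x y).1]
          ring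
        · change pd 0 (fun q => -(fun r => c.A 0 (refPt r)) q) (pt0 x y) = pd 0 (c.A 0) (pt0 x y)
          rw [SymR_pd_neg (Inv_ref_smooth (hA 0)), Inv_pd0 (hA 0), hq, a0.2, (h1 0 x y).2]
          ring
      · refine ⟨?_, ?_⟩
        · change -c.A 1 (refPt (pt0 x y)) = c.A 1 (pt0 x y)
          rw [hq, a1.1, (h1 1 x y).1]
          ring
        · change pd 0 (fun q => -(fun r => c.A 1 (refPt r)) q) (pt0 x y) = pd 0 (c.A 1) (pt0 x y)
          rw [SymR_pd_neg (Inv_ref_smooth (hA 1)), Inv_pd0 (hA 1), hq, a1.2, (h1 1 x y).2]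
          ring
      · refine ⟨?_, ?_⟩
        · change c.A 2 (refPt (pt0 x y)) = c.A 2 (pt0 x y)
          rw [hq, a2.1, (h1 2 x y).1]
        · change pd 0 (fun q => c.A 2 (refPt q)) (pt0 x y) = pd 0 (c.A 2) (pt0 x y)
          rw [Inv_pd0 (hA 2), hq, a2.2, (h1 2 x y).2]
  · rw [(h0 0 0 2).1]
    exact Inv_south hl

end H72GS

end S_Inv
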