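import Mathlib
import Pool.Agent.H72.GM.M1
import Pool.Agent.H72.GM.M7
import Pool.Agent.H72.GM.M8

set_option autoImplicit false

/-! Gauged sigma model, file M9: this file joins several modules to save build time. -/

section S_Axis1

/-!
# Axis1: restriction to the half line `x = (r,0)`, the angle

`AP, AZ, AB` are `φ₀, φ₂, A₂` at `(t,r,0)`.
* reflection at `p 2 = 0`: `φ₁ = -φ₁ = 0`, `A₁ = 0`.
* rotation by `β = π` (`4β = 4π`): `AP, AZ` even in `r`, `AB` odd, so `AP_r(t,0) = 0`, `AB(t,0) = 0`.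
* rotation by `β = π/4` at the origin: `AP(t,0) = -AP(t,0) = 0` (`4β = π`), so `AZ(t,0)² = 1`;
  continuity in `t` and `south`: `AZ(t,0) = -1` for `t ∈ [0,b)`.
* `fh t r = π + ∫_0^r (AZ AP_r - AP AZ_r)(t,s) ds = π + r ∫_0^1 (...)(t, r s) ds`: smooth;
  `U = AP cos fh - AZ sin fh`, `V = AP sin fh + AZ cos fh` have zero `r`-derivative
  (`AP_r = AZ fh_r`, `AZ_r = -AP fh_r` from `AP² + AZ² = 1`), `U(t,0) = 0`, `V(t,0) = 1`.
-/

namespace H72GS

open Set
open scoped ContDiff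

noncomputable section

/-- `φ₀` on the axis -/
def AP (c : Config) (t r : ℝ) : ℝ := c.φ ![t, r, 0] 0
/-- `φ₂` on the axis -/
def AZ (c : Config) (t r : ℝ) : ℝ := c.φ ![t, r, 0] 2
/-- `A₂` on the axis -/
def AB (c : Config) (t r : ℝ) : ℝ := c.A 2 ![t, r, 0]

variable {c : Config} {b : ℝ}

private lemma Axis1_emb : ContDiff ℝ ∞ (fun p : ℝ × ℝ => (![p.1, p.2, 0] : Pt)) := by
  rw [contDiff_pi]
  intro i
  fin_cases i
  · exact contDiff_fst
  · exact contDiff_snd
  · exact contDiff_const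

theorem AP_sm (h : SymConf c b) : Sm (AP c) := (h.temp.hφ 0).comp Axis1_emb
theorem AZ_sm (h : SymConf c b) : Sm (AZ c) := (h.temp.hφ 2).comp Axis1_emb
theorem AB_sm (h : SymConf c b) : Sm (AB c) := (h.temp.hA 2).comp Axis1_emb

private lemma Axis1_mem {t : ℝ} (ht : t ∈ Ico 0 b) (r : ℝ) : (![t, r, 0] : Pt) ∈ hslab b := ht

private lemma Axis1_ref (t r : ℝ) : refPt ![t, r, 0] = ![t, r, 0] := by
  ext i
  fin_cases i <;> simp [refPt]

theorem phi1_axis (h : SymConf c b) {t : ℝ} (ht : t ∈ Ico 0 b) (r : ℝ) :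
    c.φ ![t, r, 0] 1 = 0 ∧ c.A 1 ![t, r, 0] = 0 := by
  obtain ⟨h1, h2⟩ := h.refl _ (Axis1_mem ht r)
  have h3 := congrFun h1 1
  have h4 := h2 1
  simp only [Config.refl, Axis1_ref, Matrix.cons_val_one, Matrix.cons_val_zero] at h3 h4
  constructor <;> linarith

theorem AP_AZ (h : SymConf c b) {t : ℝ} (ht : t ∈ Ico 0 b) (r : ℝ) :
    AP c t r ^ 2 + AZ c t r ^ 2 = 1 := by
  have h1 : ∀ p ∈ slab 0 b, c.φ p 0 ^ 2 + c.φ p 1 ^ 2 + c.φ p 2 ^ 2 = (fun _ => (1 : ℝ)) p := by
    intro p hp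
    have := (h.temp.sol p hp).sphere
    simp only [dotProduct, Fin.sum_univ_three] at this
    simp only
    rw [← this]
    ring
  have hc : ∀ i, Continuous (fun p => c.φ p i) := fun i => (h.temp.hφ i).continuous
  have h2 := eq_hslab (F := fun p => c.φ p 0 ^ 2 + c.φ p 1 ^ 2 + c.φ p 2 ^ 2)
    (G := fun _ => (1 : ℝ)) ((((hc 0).pow 2).add ((hc 1).pow 2)).add ((hc 2).pow 2))
    continuous_const h1 _ (Axis1_mem ht r)
  simp only [(phi1_axis h ht r).1] at h2
  simp only [AP, AZ]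
  rw [← h2]
  ring

private lemma Axis1_rotpi (t r : ℝ) : rotPt (-1) 0 ![t, r, 0] = ![t, -r, 0] := by
  ext i
  fin_cases i <;> simp [rotPt]

private lemma Axis1_even (h : SymConf c b) {t : ℝ} (ht : t ∈ Ico 0 b) (r : ℝ) :
    AP c t (-r) = AP c t r ∧ AB c t (-r) = -AB c t r := by
  obtain ⟨h1, h2⟩ := h.rot Real.pi _ (Axis1_mem ht r)
  have e1 : Real.cos (4 * Real.pi) = 1 := by
    rw [show 4 * Real.pi = ((2 : ℕ) : ℝ) * (2 * Real.pi) by push_cast; ring]
    exact Real.cos_nat_mul_two_pi 2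
  have e2 : Real.sin (4 * Real.pi) = 0 := by
    have := Real.sin_nat_mul_pi 4
    exact_mod_cast this
  rw [Real.cos_pi, Real.sin_pi, e1, e2] at h1 h2
  have h3 := congrFun h1 0
  have h4 := h2 2
  simp only [Config.rot, Axis1_rotpi, Matrix.cons_val_zero, Matrix.cons_val_two, Matrix.tail_cons,
    Matrix.head_cons] at h3 h4
  simp only [AP, AB]
  constructor <;> linarith

theorem axis_zero (h : SymConf c b) {t : ℝ} (ht : t ∈ Ico 0 b) :
    AP c t 0 = 0 ∧ AZ c t 0 = -1 ∧ AB c t 0 = 0 ∧ dr (AP c) t 0 = 0 := by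
  have hAP0 : ∀ τ ∈ Ico 0 b, AP c τ 0 = 0 := by
    intro τ hτ
    obtain ⟨h1, -⟩ := h.rot (Real.pi / 4) _ (Axis1_mem hτ 0)
    have e0 : 4 * (Real.pi / 4) = Real.pi := by ring
    rw [e0, Real.cos_pi, Real.sin_pi] at h1
    have h3 := congrFun h1 0
    have e1 : ∀ x y : ℝ, rotPt x y ![τ, 0, 0] = ![τ, 0, 0] := by
      intro x y
      ext i
      fin_cases i <;> simp [rotPt]
    simp only [Config.rot, e1, Matrix.cons_val_zero] at h3
    simp only [AP]
    linarith
  have hAZ : ∀ τ ∈ Ico 0 b, AZ c τ 0 ^ 2 = 1 := by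
    intro τ hτ
    have := AP_AZ h hτ 0
    rw [hAP0 τ hτ] at this
    linarith
  refine ⟨hAP0 t ht, ?_, ?_, ?_⟩
  · have hpre : IsPreconnected (Ico 0 b) := isPreconnected_Ico
    have hcont : ContinuousOn (fun τ => AZ c τ 0) (Ico 0 b) :=
      ((AZ_sm h).cont_t 0).continuousOn
    have key := hpre.eq_or_eq_neg_of_sq_eq (f := fun τ => AZ c τ 0) (g := fun _ => (-1 : ℝ))
      hcont continuousOn_const (fun τ hτ => by
        simp only [Pi.pow_apply]
        rw [hAZ τ hτ]; norm_num) (fun _ => by norm_num)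
    have h0 : (0 : ℝ) ∈ Ico 0 b := ⟨le_rfl, lt_of_le_of_lt ht.1 ht.2⟩
    rcases key with key | key
    · exact key ht
    · exfalso
      have h1 := key h0
      have h2 : AZ c 0 0 = -1 := h.south
      simp only [Pi.neg_apply] at h1
      rw [h2] at h1
      norm_num at h1
  · have := (Axis1_even h ht 0).2
    rw [neg_zero] at this
    linarith
  · have h1 := (AP_sm h).hasDerivAt_r t 0
    have h2 : HasDerivAt (fun r => AP c t (-r)) (-(dr (AP c) t 0)) 0 := by
      have h3 : HasDerivAt (AP c t) (dr (AP c) t 0) (-0) := by rw [neg_zero]; exact h1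
      have h4 := h3.comp (0 : ℝ) (hasDerivAt_neg (0 : ℝ))
      rw [mul_neg, mul_one] at h4
      exact h4
    have h5 : (fun r => AP c t (-r)) = AP c t := by
      funext r
      exact (Axis1_even h ht r).1
    rw [h5] at h2
    have := h1.unique h2
    linarith

/-- lift of the angle -/
def fh (c : Config) (t r : ℝ) : ℝ :=
  Real.pi + ∫ s in (0 : ℝ)..r, (AZ c t s * dr (AP c) t s - AP c t s * dr (AZ c) t s)

private def Axis1_G (c : Config) (t r : ℝ) : ℝ :=
  AZ c t r * dr (AP c) t r - AP c t r * dr (AZ c) t r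

private lemma Axis1_G_sm (h : SymConf c b) : Sm (Axis1_G c) :=
  ((AZ_sm h).mul (AP_sm h).dr).sub ((AP_sm h).mul (AZ_sm h).dr)

theorem fh_sm (h : SymConf c b) : Sm (fh c) := by
  have h1 : fh c = fun t r => Real.pi + r * ∫ s in (0 : ℝ)..1, Axis1_G c t (r * s) := by
    funext t r
    have := intervalIntegral.smul_integral_comp_mul_left (a := 0) (b := 1) (fun s => Axis1_G c t s) r
    rw [mul_zero, mul_one, smul_eq_mul] at this
    rw [this]
    rfl
  rw [h1]
  have h2 : ContDiff ℝ ∞ (fun q : (ℝ × ℝ) × ℝ => Axis1_G c q.1.1 (q.1.2 * q.2)) :=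
    (Axis1_G_sm h).comp (g := fun p : ℝ × ℝ => Axis1_G c p.1 p.2)
      (f := fun q : (ℝ × ℝ) × ℝ => (q.1.1, q.1.2 * q.2)) (by fun_prop)
  have h3 : Sm (fun t r => ∫ s in (0 : ℝ)..1, Axis1_G c t (r * s)) := contDiff_paramInt h2 0 1
  exact (Sm.const Real.pi).add (Sm.idr.mul h3)

theorem fh_zero (c : Config) (t : ℝ) : fh c t 0 = Real.pi := by
  simp [fh]

private lemma Axis1_dfh (h : SymConf c b) (t r : ℝ) :
    HasDerivAt (fh c t) (Axis1_G c t r) r := by
  have hc : Continuous (Axis1_G c t) := (Axis1_G_sm h).cont_r t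
  exact (intervalIntegral.integral_hasDerivAt_right (hc.intervalIntegrable _ _)
    (hc.stronglyMeasurableAtFilter _ _) hc.continuousAt).const_add Real.pi

theorem fh_r_zero (h : SymConf c b) {t : ℝ} (ht : t ∈ Ico 0 b) :
    dr (fh c) t 0 = 0 := by
  have h1 : dr (fh c) t 0 = Axis1_G c t 0 := (Axis1_dfh h t 0).deriv
  obtain ⟨e1, e2, -, e4⟩ := axis_zero h ht
  rw [h1, Axis1_G, e1, e2, e4]
  ring

theorem sin_fh (h : SymConf c b) {t : ℝ} (ht : t ∈ Ico 0 b) (r : ℝ) :
    Real.sin (fh c t r) = AP c t r ∧ Real.cos (fh c t r) = AZ c t r := by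
  have hP := fun r => (AP_sm h).hasDerivAt_r t r
  have hZ := fun r => (AZ_sm h).hasDerivAt_r t r
  have hF := fun r => Axis1_dfh h t r
  have hrel : ∀ r, AP c t r * dr (AP c) t r + AZ c t r * dr (AZ c) t r = 0 := by
    intro r
    have h1 := ((hP r).pow 2).add ((hZ r).pow 2)
    have h2 : (AP c t ^ 2 + AZ c t ^ 2 : ℝ → ℝ) = fun _ => 1 := by
      funext x
      exact AP_AZ h ht x
    rw [h2] at h1
    have h3 := h1.unique (hasDerivAt_const r (1 : ℝ))
    have e1 : (2 - 1 : ℕ) = 1 := rfl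
    simp only [Nat.cast_ofNat, e1, pow_one] at h3
    linarith
  have hsq := fun r => AP_AZ h ht r
  have k1 : ∀ r, AZ c t r * Axis1_G c t r = dr (AP c) t r := by
    intro r
    have e1 := hrel r
    have e2 := hsq r
    simp only [Axis1_G]
    linear_combination (-AP c t r) * e1 + dr (AP c) t r * e2
  have k2 : ∀ r, AP c t r * Axis1_G c t r = -dr (AZ c) t r := by
    intro r
    have e1 := hrel r
    have e2 := hsq r
    simp only [Axis1_G]
    linear_combination (AZ c t r) * e1 - dr (AZ c) t r * e2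
  have hU : ∀ r, HasDerivAt (fun x => AP c t x * Real.cos (fh c t x) -
      AZ c t x * Real.sin (fh c t x)) 0 r := by
    intro r
    have h1 := ((hP r).mul (hF r).cos).sub ((hZ r).mul (hF r).sin)
    refine h1.congr_deriv ?_
    have e1 := k1 r
    have e2 := k2 r
    linear_combination (-Real.cos (fh c t r)) * e1 + (-Real.sin (fh c t r)) * e2
  have hV : ∀ r, HasDerivAt (fun x => AP c t x * Real.sin (fh c t x) +
      AZ c t x * Real.cos (fh c t x)) 0 r := by
    intro r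
    have h1 := ((hP r).mul (hF r).sin).add ((hZ r).mul (hF r).cos)
    refine h1.congr_deriv ?_
    have e1 := k1 r
    have e2 := k2 r
    linear_combination (-Real.sin (fh c t r)) * e1 + (Real.cos (fh c t r)) * e2
  have hUc := is_const_of_deriv_eq_zero (fun x => (hU x).differentiableAt)
    (fun x => (hU x).deriv) r 0
  have hVc := is_const_of_deriv_eq_zero (fun x => (hV x).differentiableAt)
    (fun x => (hV x).deriv) r 0
  obtain ⟨z1, z2, -, -⟩ := axis_zero h ht
  simp only [z1, z2, fh_zero, Real.sin_pi, Real.cos_pi] at hUc hVc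
  have hs := Real.sin_sq_add_cos_sq (fh c t r)
  constructor
  · linear_combination (-Real.cos (fh c t r)) * hUc - Real.sin (fh c t r) * hVc +
      AP c t r * hs
  · linear_combination (Real.sin (fh c t r)) * hUc - Real.cos (fh c t r) * hVc +
      AZ c t r * hs

end

end H72GS

end S_Axis1

section S_Axis2a

/-!
# Axis2a: derivatives across the axis

Differentiate the rotation invariance in `β` at `0` at the point `(t,r,0)`, `r > 0`
(`φ(t, R_β x) = Rot(4β) φ(t,x)`, `A(t,R_β x) = R_β A(t,x)`): `r ∂_2 φ = 4 n × φ`,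
`r² ∂_2² φ - r ∂_1 φ = 16 n×(n×φ)`, `r ∂_2 A₁ = -A₂`, `r ∂_2 A₂ = A₁ = 0`.  On the axis `φ₁ = 0`,
`A₁ = 0`, so also `∂_1 A₁ = 0`.
For the second derivative: `G(β) = φ_i(t, r cos β, r sin β)` has
`G'(β) = r (-sin β ∂_1 φ_i + cos β ∂_2 φ_i)`, `G''(0) = r² ∂_2² φ_i - r ∂_1 φ_i`.
-/

namespace H72GS

open Set
open scoped ContDiff

variable {c : Config} {b : ℝ}

/-- the rotated axis point -/
noncomputable def Axis2a_g (t r β : ℝ) : Pt := ![t, r * Real.cos β, -(r * Real.sin β)]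

theorem Axis2a_g_zero (t r : ℝ) : Axis2a_g t r 0 = ![t, r, 0] := by
  simp [Axis2a_g]

theorem Axis2a_rotPt (t r β : ℝ) :
    rotPt (Real.cos β) (Real.sin β) ![t, r, 0] = Axis2a_g t r β := by
  simp only [rotPt, Axis2a_g]
  funext i
  fin_cases i <;> simp <;> ring

theorem Axis2a_hd {u : Pt → ℝ} (hu : ContDiff ℝ ∞ u) (t r β : ℝ) :
    HasDerivAt (fun β => u (Axis2a_g t r β))
      (-(r * Real.sin β) * pd 1 u (Axis2a_g t r β) -
        r * Real.cos β * pd 2 u (Axis2a_g t r β)) β := by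
  have hg : HasDerivAt (fun β => Axis2a_g t r β)
      (![0, -(r * Real.sin β), -(r * Real.cos β)] : Pt) β := by
    rw [hasDerivAt_pi]
    intro i
    fin_cases i
    · simpa [Axis2a_g] using hasDerivAt_const β t
    · simpa [Axis2a_g] using (Real.hasDerivAt_cos β).const_mul r
    · have h0 : HasDerivAt (fun β => -(r * Real.sin β)) (-(r * Real.cos β)) β :=
        ((Real.hasDerivAt_sin β).const_mul r).neg
      simpa [Axis2a_g] using h0
  have hd : HasFDerivAt u (fderiv ℝ u (Axis2a_g t r β)) (Axis2a_g t r β) :=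
    ((ContDiff.differentiable hu (by simp)) _).hasFDerivAt
  have h := hd.comp_hasDerivAt β hg
  refine h.congr_deriv ?_
  have hv : (![0, -(r * Real.sin β), -(r * Real.cos β)] : Pt) =
      (-(r * Real.sin β)) • (Pi.single 1 1 : Pt) - (r * Real.cos β) • (Pi.single 2 1 : Pt) := by
    funext i
    fin_cases i <;> simp
  rw [hv, map_sub, map_smul, map_smul]
  rfl

theorem Axis2a_mem {t r : ℝ} (ht : t ∈ Ico 0 b) : (![t, r, 0] : Pt) ∈ hslab b := ht

/-- second derivative at the axis -/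
theorem Axis2a_hd2 {u : Pt → ℝ} (hu : ContDiff ℝ ∞ u) (t r : ℝ) :
    HasDerivAt (fun β => -(r * Real.sin β) * pd 1 u (Axis2a_g t r β) -
        r * Real.cos β * pd 2 u (Axis2a_g t r β))
      (r ^ 2 * pd 2 (pd 2 u) ![t, r, 0] - r * pd 1 u ![t, r, 0]) 0 := by
  have h1 := Axis2a_hd (pd_smooth hu 1) t r 0
  have h2 := Axis2a_hd (pd_smooth hu 2) t r 0
  have h3 : HasDerivAt (fun β => -(r * Real.sin β)) (-(r * Real.cos 0)) 0 :=
    ((Real.hasDerivAt_sin 0).const_mul r).neg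
  have h4 := (Real.hasDerivAt_cos 0).const_mul r
  refine ((h3.mul h1).sub (h4.mul h2)).congr_deriv ?_
  simp only [Real.sin_zero, Real.cos_zero, Axis2a_g_zero, mul_zero, neg_zero, zero_mul, mul_one,
    zero_sub, zero_add, add_zero, neg_mul]
  ring

theorem Axis2a_sin4 (β : ℝ) : HasDerivAt (fun β => Real.sin (4 * β)) (4 * Real.cos (4 * β)) β := by
  have h := (Real.hasDerivAt_sin (4 * β)).comp β ((hasDerivAt_id β).const_mul 4)
  refine h.congr_deriv ?_
  simp; ring

theorem Axis2a_cos4 (β : ℝ) :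
    HasDerivAt (fun β => Real.cos (4 * β)) (-(4 * Real.sin (4 * β))) β := by
  have h := (Real.hasDerivAt_cos (4 * β)).comp β ((hasDerivAt_id β).const_mul 4)
  refine h.congr_deriv ?_
  simp; ring

/-- invariance of `φ` at the axis point -/
theorem Axis2a_phi (h : SymConf c b) {t : ℝ} (ht : t ∈ Ico 0 b) (r β : ℝ) :
    Real.cos (4 * β) * c.φ (Axis2a_g t r β) 0 - Real.sin (4 * β) * c.φ (Axis2a_g t r β) 1 =
      c.φ ![t, r, 0] 0 ∧
    Real.sin (4 * β) * c.φ (Axis2a_g t r β) 0 + Real.cos (4 * β) * c.φ (Axis2a_g t r β) 1 =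
      c.φ ![t, r, 0] 1 ∧
    c.φ (Axis2a_g t r β) 2 = c.φ ![t, r, 0] 2 := by
  have h1 := (h.rot β ![t, r, 0] (Axis2a_mem ht)).1
  have e0 := congrFun h1 0
  have e1 := congrFun h1 1
  have e2 := congrFun h1 2
  simp only [Config.rot, Axis2a_rotPt, Matrix.cons_val_zero, Matrix.cons_val_one,
    Matrix.cons_val] at e0 e1 e2
  exact ⟨e0, e1, e2⟩

theorem Axis2a_A (h : SymConf c b) {t : ℝ} (ht : t ∈ Ico 0 b) (r β : ℝ) :
    Real.cos β * c.A 1 (Axis2a_g t r β) - Real.sin β * c.A 2 (Axis2a_g t r β) =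
      c.A 1 ![t, r, 0] ∧
    Real.sin β * c.A 1 (Axis2a_g t r β) + Real.cos β * c.A 2 (Axis2a_g t r β) =
      c.A 2 ![t, r, 0] := by
  have h1 := (h.rot β ![t, r, 0] (Axis2a_mem ht)).2
  have e1 := h1 1
  have e2 := h1 2
  simp only [Config.rot, Axis2a_rotPt, Matrix.cons_val_zero, Matrix.cons_val_one,
    Matrix.cons_val] at e1 e2
  exact ⟨e1, e2⟩

/-- first derivative of the first relation -/
theorem Axis2a_first (h : SymConf c b) {t : ℝ} (ht : t ∈ Ico 0 b) (r β : ℝ) :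
    -(4 * Real.sin (4 * β)) * c.φ (Axis2a_g t r β) 0 + Real.cos (4 * β) *
      (-(r * Real.sin β) * pd 1 (fun q => c.φ q 0) (Axis2a_g t r β) -
        r * Real.cos β * pd 2 (fun q => c.φ q 0) (Axis2a_g t r β)) -
      (4 * Real.cos (4 * β) * c.φ (Axis2a_g t r β) 1 + Real.sin (4 * β) *
      (-(r * Real.sin β) * pd 1 (fun q => c.φ q 1) (Axis2a_g t r β) -
        r * Real.cos β * pd 2 (fun q => c.φ q 1) (Axis2a_g t r β))) = 0 := by
  have h1 := (Axis2a_cos4 β).mul (Axis2a_hd (h.temp.hφ 0) t r β)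
  have h2 := (Axis2a_sin4 β).mul (Axis2a_hd (h.temp.hφ 1) t r β)
  have h3 := h1.sub h2
  have h4 : HasDerivAt (fun _ : ℝ => c.φ ![t, r, 0] 0) 0 β := hasDerivAt_const β _
  have h5 : (fun β => Real.cos (4 * β) * c.φ (Axis2a_g t r β) 0 -
      Real.sin (4 * β) * c.φ (Axis2a_g t r β) 1) = fun _ => c.φ ![t, r, 0] 0 := by
    funext β
    exact (Axis2a_phi h ht r β).1
  have h6 := h3.unique (h4.congr_of_eventuallyEq (Filter.Eventually.of_forall fun β =>
    (Axis2a_phi h ht r β).1))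
  exact h6

theorem cross_phi (h : SymConf c b) {t : ℝ} (ht : t ∈ Ico 0 b) {r : ℝ} (hr : 0 < r) :
    pd 2 (fun q => c.φ q 0) ![t, r, 0] = 0 ∧ r * pd 2 (fun q => c.φ q 1) ![t, r, 0] = 4 * AP c t r ∧
    pd 2 (fun q => c.φ q 2) ![t, r, 0] = 0 := by
  have hphi1 := (phi1_axis h ht r).1
  refine ⟨?_, ?_, ?_⟩
  · have h1 := Axis2a_first h ht r 0
    simp only [mul_zero, Real.sin_zero, Real.cos_zero, Axis2a_g_zero, hphi1, neg_zero, zero_mul,
      zero_add, one_mul, zero_sub, mul_one, sub_zero, neg_eq_zero] at h1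
    simpa [hr.ne'] using h1
  · have h1 := (Axis2a_sin4 0).mul (Axis2a_hd (h.temp.hφ 0) t r 0)
    have h2 := (Axis2a_cos4 0).mul (Axis2a_hd (h.temp.hφ 1) t r 0)
    have h3 := h1.add h2
    have h4 : HasDerivAt (fun _ : ℝ => c.φ ![t, r, 0] 1) 0 0 := hasDerivAt_const 0 _
    have h6 := h3.unique (h4.congr_of_eventuallyEq (Filter.Eventually.of_forall fun β =>
      (Axis2a_phi h ht r β).2.1))
    simp only [mul_zero, Real.sin_zero, Real.cos_zero, Axis2a_g_zero, hphi1, neg_zero, zero_mul,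
      zero_add, one_mul, zero_sub, mul_one, sub_zero, add_zero] at h6
    simp only [AP]
    linarith
  · have h1 := Axis2a_hd (h.temp.hφ 2) t r 0
    have h4 : HasDerivAt (fun _ : ℝ => c.φ ![t, r, 0] 2) 0 0 := hasDerivAt_const 0 _
    have h6 := h1.unique (h4.congr_of_eventuallyEq (Filter.Eventually.of_forall fun β =>
      (Axis2a_phi h ht r β).2.2))
    simp only [Real.sin_zero, Real.cos_zero, Axis2a_g_zero, mul_zero, neg_zero, zero_mul, mul_one,
      zero_sub, neg_eq_zero] at h6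
    simpa [hr.ne'] using h6

theorem Axis2a_dr {u : Pt → ℝ} (hu : ContDiff ℝ ∞ u) (t r : ℝ) :
    dr (fun t r => u ![t, r, 0]) t r = pd 1 u ![t, r, 0] := by
  have h := hasDerivAt_pd hu 1 ![t, 0, 0] r
  have e : ∀ x : ℝ, Function.update (![t, 0, 0] : Pt) 1 x = ![t, x, 0] := by
    intro x
    funext i
    fin_cases i <;> simp
  simp only [e] at h
  exact h.deriv

theorem cross_phi2 (h : SymConf c b) {t : ℝ} (ht : t ∈ Ico 0 b) {r : ℝ} (hr : 0 < r) :
    r ^ 2 * pd 2 (pd 2 (fun q => c.φ q 0)) ![t, r, 0] = r * dr (AP c) t r - 16 * AP c t r ∧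
    r ^ 2 * pd 2 (pd 2 (fun q => c.φ q 2)) ![t, r, 0] = r * dr (AZ c) t r := by
  have hphi1 := (phi1_axis h ht r).1
  have hd0 : dr (AP c) t r = pd 1 (fun q => c.φ q 0) ![t, r, 0] := Axis2a_dr (h.temp.hφ 0) t r
  have hd2 : dr (AZ c) t r = pd 1 (fun q => c.φ q 2) ![t, r, 0] := Axis2a_dr (h.temp.hφ 2) t r
  constructor
  · have a1 := (Axis2a_sin4 0).const_mul 4
    have a2 := Axis2a_cos4 0
    have a3 := (Axis2a_cos4 0).const_mul 4
    have a4 := Axis2a_sin4 0
    have b0 := Axis2a_hd (h.temp.hφ 0) t r 0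
    have b1 := Axis2a_hd2 (h.temp.hφ 0) t r
    have c0 := Axis2a_hd (h.temp.hφ 1) t r 0
    have c1 := Axis2a_hd2 (h.temp.hφ 1) t r
    have h3 := ((a1.neg.mul b0).add (a2.mul b1)).sub ((a3.mul c0).add (a4.mul c1))
    have h4 : HasDerivAt (fun _ : ℝ => (0 : ℝ)) 0 0 := hasDerivAt_const 0 _
    have h6 := h3.unique (h4.congr_of_eventuallyEq (Filter.Eventually.of_forall fun β =>
      Axis2a_first h ht r β))
    have hp2 := (cross_phi h ht hr).2.1
    have hp1 := (cross_phi h ht hr).1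
    simp only [mul_zero, Real.sin_zero, Real.cos_zero, Axis2a_g_zero, hphi1, neg_zero, zero_mul,
      zero_add, one_mul, zero_sub, mul_one, sub_zero, add_zero, hp1] at h6
    rw [hd0]
    simp only [AP] at hp2 ⊢
    linarith
  · have b1 := Axis2a_hd2 (h.temp.hφ 2) t r
    have hz : ∀ β, -(r * Real.sin β) * pd 1 (fun q => c.φ q 2) (Axis2a_g t r β) -
        r * Real.cos β * pd 2 (fun q => c.φ q 2) (Axis2a_g t r β) = 0 := by
      intro β
      have h1 := Axis2a_hd (h.temp.hφ 2) t r β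
      have h4 : HasDerivAt (fun _ : ℝ => c.φ ![t, r, 0] 2) 0 β := hasDerivAt_const β _
      exact h1.unique (h4.congr_of_eventuallyEq (Filter.Eventually.of_forall fun β =>
        (Axis2a_phi h ht r β).2.2))
    have h4 : HasDerivAt (fun _ : ℝ => (0 : ℝ)) 0 0 := hasDerivAt_const 0 _
    have h6 := b1.unique (h4.congr_of_eventuallyEq (Filter.Eventually.of_forall hz))
    rw [hd2]
    linarith

theorem cross_A (h : SymConf c b) {t : ℝ} (ht : t ∈ Ico 0 b) {r : ℝ} (hr : 0 < r) :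
    r * pd 2 (c.A 1) ![t, r, 0] = -AB c t r ∧ pd 2 (c.A 2) ![t, r, 0] = 0 ∧
    pd 1 (c.A 1) ![t, r, 0] = 0 := by
  have hA1 := (phi1_axis h ht r).2
  refine ⟨?_, ?_, ?_⟩
  · have h1 := (Real.hasDerivAt_cos 0).mul (Axis2a_hd (h.temp.hA 1) t r 0)
    have h2 := (Real.hasDerivAt_sin 0).mul (Axis2a_hd (h.temp.hA 2) t r 0)
    have h3 := h1.sub h2
    have h4 : HasDerivAt (fun _ : ℝ => c.A 1 ![t, r, 0]) 0 0 := hasDerivAt_const 0 _
    have h6 := h3.unique (h4.congr_of_eventuallyEq (Filter.Eventually.of_forall fun β =>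
      (Axis2a_A h ht r β).1))
    simp only [mul_zero, Real.sin_zero, Real.cos_zero, Axis2a_g_zero, hA1, neg_zero, zero_mul,
      zero_add, one_mul, zero_sub, mul_one, sub_zero, add_zero] at h6
    simp only [AB]
    linarith
  · have h1 := (Real.hasDerivAt_sin 0).mul (Axis2a_hd (h.temp.hA 1) t r 0)
    have h2 := (Real.hasDerivAt_cos 0).mul (Axis2a_hd (h.temp.hA 2) t r 0)
    have h3 := h1.add h2
    have h4 : HasDerivAt (fun _ : ℝ => c.A 2 ![t, r, 0]) 0 0 := hasDerivAt_const 0 _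
    have h6 := h3.unique (h4.congr_of_eventuallyEq (Filter.Eventually.of_forall fun β =>
      (Axis2a_A h ht r β).2))
    simp only [mul_zero, Real.sin_zero, Real.cos_zero, Axis2a_g_zero, hA1, neg_zero, zero_mul,
      zero_add, one_mul, zero_sub, mul_one, sub_zero, add_zero, neg_eq_zero] at h6
    simpa [hr.ne'] using h6
  · rw [← Axis2a_dr (h.temp.hA 1) t r]
    have : (fun x => c.A 1 ![t, x, 0]) = fun _ => 0 := by
      funext x
      exact (phi1_axis h ht x).2
    simp [dr, this]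

end H72GS

end S_Axis2a

section S_Axis2b

/-!
# Axis2b: the radial equations on the axis

The equations hold at points with `t > 0` (`solvesAt_iff`, `DD_zero`, `DD_two`); the case `t = 0` by
continuity in `t` (both sides are continuous functions of `t` by `Sm`).
`D_1D_1φ = (AP_rr, *, AZ_rr)`,
`D_2D_2φ = (AP_r/r - (4 + r AB)² AP/r², *, AZ_r/r)` (`cross_phi2`, `cross_phi`, `cross_A`); second
component of `φ × W = 0`: `AZ W₀ - AP W₂ = 0`.  Maxwell `μ = 2`: `-∂_t²A₂ + ∂_1 F_{12} = J_2`,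
`F_{12} = AB_r + AB/r` on the axis (for `r > 0`), `J_2 = AP² (4 + r AB)/r`.
`pd 0`, `pd 1` on the axis are `dt`, `dr` of `AP, AZ, AB`.
`fh_eq`: with `AP = sin fh`, `AZ = cos fh` for `t ∈ [0,b)`: `AZ AP_tt - AP AZ_tt = fh_tt` etc. (first for
`t > 0`, then `t = 0` by continuity).
-/

namespace H72GS

open Set
open scoped ContDiff

variable {c : Config} {b : ℝ}

theorem Axis2b_ax_dt {u : Pt → ℝ} (hu : ContDiff ℝ ∞ u) (t r : ℝ) :
    pd 0 u ![t, r, 0] = dt (fun t r => u ![t, r, 0]) t r := by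
  have h := hasDerivAt_pd hu 0 ![t, r, 0] t
  have e : ∀ x : ℝ, Function.update (![t, r, 0] : Pt) 0 x = ![x, r, 0] := by
    intro x
    funext i
    fin_cases i <;> simp [Function.update]
  simp only [e] at h
  exact h.deriv.symm

theorem Axis2b_ax_dr {u : Pt → ℝ} (hu : ContDiff ℝ ∞ u) (t r : ℝ) :
    pd 1 u ![t, r, 0] = dr (fun t r => u ![t, r, 0]) t r := by
  have h := hasDerivAt_pd hu 1 ![t, r, 0] r
  have e : ∀ x : ℝ, Function.update (![t, r, 0] : Pt) 1 x = ![t, x, 0] := by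
    intro x
    funext i
    fin_cases i <;> simp [Function.update]
  simp only [e] at h
  exact h.deriv.symm

theorem Axis2b_ax_dtt {u : Pt → ℝ} (hu : ContDiff ℝ ∞ u) (t r : ℝ) :
    pd 0 (pd 0 u) ![t, r, 0] = dt (dt (fun t r => u ![t, r, 0])) t r := by
  rw [Axis2b_ax_dt (pd_smooth hu 0)]
  have : (fun t r => pd 0 u ![t, r, 0]) = dt (fun t r => u ![t, r, 0]) := by
    funext t r
    exact Axis2b_ax_dt hu t r
  rw [this]

theorem Axis2b_ax_drr {u : Pt → ℝ} (hu : ContDiff ℝ ∞ u) (t r : ℝ) :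
    pd 1 (pd 1 u) ![t, r, 0] = dr (dr (fun t r => u ![t, r, 0])) t r := by
  rw [Axis2b_ax_dr (pd_smooth hu 1)]
  have : (fun t r => pd 1 u ![t, r, 0]) = dr (fun t r => u ![t, r, 0]) := by
    funext t r
    exact Axis2b_ax_dr hu t r
  rw [this]

/-- a continuous function vanishing on `(0,b)` vanishes on `[0,b)` -/
theorem Axis2b_ext {F : ℝ → ℝ} (hF : Continuous F) {b : ℝ} (h : ∀ t ∈ Ioo 0 b, F t = 0) :
    ∀ t ∈ Ico 0 b, F t = 0 := by
  intro t ht
  have hb : (0 : ℝ) ≠ b := (lt_of_le_of_lt ht.1 ht.2).ne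
  have h1 : Ioo 0 b ⊆ {t | F t = 0} := fun s hs => h s hs
  have h2 := (isClosed_eq hF continuous_const).closure_subset_iff.2 h1
  rw [closure_Ioo hb] at h2
  exact h2 ⟨ht.1, ht.2.le⟩

theorem Axis2b_mem {t r : ℝ} (ht : t ∈ Ioo 0 b) : (![t, r, 0] : Pt) ∈ slab 0 b :=
  ⟨by simpa using ht.1, by simpa using ht.2⟩

theorem phi_eq_axis (h : SymConf c b) {t : ℝ} (ht : t ∈ Ico 0 b) {r : ℝ} (hr : 0 < r) :
    AZ c t r * (r ^ 2 * dt (dt (AP c)) t r - r ^ 2 * dr (dr (AP c)) t r - r * dr (AP c) t r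
        + (4 + r * AB c t r) ^ 2 * AP c t r)
      - AP c t r * (r ^ 2 * dt (dt (AZ c)) t r - r ^ 2 * dr (dr (AZ c)) t r - r * dr (AZ c) t r
        - r ^ 2 * (1 - AZ c t r)) = 0 := by
  revert t
  have hAP := AP_sm h
  have hAZ := AZ_sm h
  have hAB := AB_sm h
  refine Axis2b_ext (F := fun t => AZ c t r * (r ^ 2 * dt (dt (AP c)) t r
        - r ^ 2 * dr (dr (AP c)) t r - r * dr (AP c) t r + (4 + r * AB c t r) ^ 2 * AP c t r)
      - AP c t r * (r ^ 2 * dt (dt (AZ c)) t r - r ^ 2 * dr (dr (AZ c)) t r - r * dr (AZ c) t r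
        - r ^ 2 * (1 - AZ c t r))) ?_ ?_
  · have h1 := hAP.cont_t r
    have h2 := hAZ.cont_t r
    have h3 := hAB.cont_t r
    have h4 := hAP.dt.dt.cont_t r
    have h5 := hAP.dr.dr.cont_t r
    have h6 := hAP.dr.cont_t r
    have h7 := hAZ.dt.dt.cont_t r
    have h8 := hAZ.dr.dr.cont_t r
    have h9 := hAZ.dr.cont_t r
    fun_prop
  · intro t ht
    have ht' : t ∈ Ico 0 b := ⟨ht.1.le, ht.2⟩
    have hs := (solvesAt_iff c _).1 (h.temp.sol _ (Axis2b_mem (r := r) ht))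
    have hφ := h.temp.hφ
    have hA := h.temp.hA
    have e1 := hs.2.1.2.1
    obtain ⟨hφ1, hA1⟩ := phi1_axis h ht' r
    have hA0 := h.temp.A0 ![t, r, 0]
    obtain ⟨c1, c2, c3⟩ := cross_phi h ht' hr
    obtain ⟨d1, d2⟩ := cross_phi2 h ht' hr
    have w00 : c.D 0 (c.D 0 c.φ) ![t, r, 0] 0 = dt (dt (AP c)) t r := by
      rw [DD_zero hφ hA, hA0, hφ1, Axis2b_ax_dtt (hφ 0)]
      simp only [mul_zero, zero_mul, sub_zero, ne_eq, OfNat.ofNat_ne_zero, not_false_eq_true,
        zero_pow]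
      rfl
    have w10 : c.D 1 (c.D 1 c.φ) ![t, r, 0] 0 = dr (dr (AP c)) t r := by
      rw [DD_zero hφ hA, hA1, hφ1, Axis2b_ax_drr (hφ 0)]
      simp only [mul_zero, zero_mul, sub_zero, ne_eq, OfNat.ofNat_ne_zero, not_false_eq_true,
        zero_pow]
      rfl
    have w20 : r ^ 2 * c.D 2 (c.D 2 c.φ) ![t, r, 0] 0 =
        r * dr (AP c) t r - (4 + r * AB c t r) ^ 2 * AP c t r := by
      rw [DD_zero hφ hA, hφ1]
      have e3 : c.A 2 ![t, r, 0] = AB c t r := rfl
      have e4 : c.φ ![t, r, 0] 0 = AP c t r := rfl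
      rw [e3, e4]
      linear_combination d1 - 2 * r * AB c t r * c2
    have w02 : c.D 0 (c.D 0 c.φ) ![t, r, 0] 2 = dt (dt (AZ c)) t r := by
      rw [DD_two, Axis2b_ax_dtt (hφ 2)]
      rfl
    have w12 : c.D 1 (c.D 1 c.φ) ![t, r, 0] 2 = dr (dr (AZ c)) t r := by
      rw [DD_two, Axis2b_ax_drr (hφ 2)]
      rfl
    have w22 : r ^ 2 * c.D 2 (c.D 2 c.φ) ![t, r, 0] 2 = r * dr (AZ c) t r := by
      rw [DD_two]
      exact d2
    have e5 : c.φ ![t, r, 0] 2 = AZ c t r := rfl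
    have e6 : c.φ ![t, r, 0] 0 = AP c t r := rfl
    unfold Wf at e1
    rw [w00, w10, w02, w12, e5, e6] at e1
    simp only [if_true, show ((0 : Fin 3) = 2) = False by simp, if_false, sub_zero] at e1
    linear_combination r ^ 2 * e1 + AZ c t r * w20 - AP c t r * w22

theorem A_eq_axis (h : SymConf c b) {t : ℝ} (ht : t ∈ Ico 0 b) {r : ℝ} (hr : 0 < r) :
    r ^ 2 * dt (dt (AB c)) t r = r ^ 2 * dr (dr (AB c)) t r + r * dr (AB c) t r - AB c t r
      - r * (4 + r * AB c t r) * AP c t r ^ 2 := by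
  rw [← sub_eq_zero]
  revert t
  have hAP := AP_sm h
  have hAB := AB_sm h
  refine Axis2b_ext (F := fun t => r ^ 2 * dt (dt (AB c)) t r - (r ^ 2 * dr (dr (AB c)) t r
      + r * dr (AB c) t r - AB c t r - r * (4 + r * AB c t r) * AP c t r ^ 2)) ?_ ?_
  · have h1 := hAP.cont_t r
    have h3 := hAB.cont_t r
    have h4 := hAB.dt.dt.cont_t r
    have h5 := hAB.dr.dr.cont_t r
    have h6 := hAB.dr.cont_t r
    fun_prop
  · intro t ht
    have ht' : t ∈ Ico 0 b := ⟨ht.1.le, ht.2⟩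
    have hs := (solvesAt_iff c _).1 (h.temp.sol _ (Axis2b_mem (r := r) ht))
    have hφ := h.temp.hφ
    have hA := h.temp.hA
    have e1 := hs.2.2 2
    obtain ⟨hφ1, hA1⟩ := phi1_axis h ht' r
    obtain ⟨c1, c2, c3⟩ := cross_phi h ht' hr
    have hA0 : c.A 0 = fun _ => 0 := funext fun p => h.temp.A0 p
    have z0 : ∀ (μ : Fin 3) (p : Pt), pd μ (fun _ => (0 : ℝ)) p = 0 := by
      intro μ p
      simp [pd]
    -- F 2 0
    have f20 : pd 0 (c.F 2 0) ![t, r, 0] = - dt (dt (AB c)) t r := by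
      have e : c.F 2 0 = fun q => (fun _ => (0 : ℝ)) q - pd 0 (c.A 2) q := by
        funext q
        unfold Config.F
        rw [hA0, z0]
      rw [e, pd_sub contDiff_const (pd_smooth (hA 2) 0), z0, Axis2b_ax_dtt (hA 2), zero_sub]
      rfl
    have f22 : pd 2 (c.F 2 2) ![t, r, 0] = 0 := by
      have e : c.F 2 2 = fun _ => 0 := by
        funext q
        unfold Config.F
        ring
      rw [e, z0]
    have f21 : r ^ 2 * pd 1 (c.F 2 1) ![t, r, 0] =
        - r * dr (AB c) t r + AB c t r - r ^ 2 * dr (dr (AB c)) t r := by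
      have e : c.F 2 1 = fun q => pd 2 (c.A 1) q - pd 1 (c.A 2) q := rfl
      rw [e, pd_sub (pd_smooth (hA 1) 2) (pd_smooth (hA 2) 1), Axis2b_ax_drr (hA 2)]
      have e2 : (fun t r => c.A 2 ![t, r, 0]) = AB c := rfl
      rw [e2]
      -- the function X
      set X : ℝ → ℝ := fun s => pd 2 (c.A 1) ![t, s, 0] with hX
      have hXd : HasDerivAt X (pd 1 (pd 2 (c.A 1)) ![t, r, 0]) r := by
        have hh := hasDerivAt_pd (pd_smooth (hA 1) 2) 1 ![t, r, 0] r
        have e : ∀ x : ℝ, Function.update (![t, r, 0] : Pt) 1 x = ![t, x, 0] := by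
          intro x
          funext i
          fin_cases i <;> simp [Function.update]
        simp only [e] at hh
        exact hh
      have h1 : HasDerivAt (fun s => s * X s) (1 * X r + r * pd 1 (pd 2 (c.A 1)) ![t, r, 0]) r :=
        (hasDerivAt_id r).mul hXd
      have h2 : HasDerivAt (fun s => - AB c t s) (-(dr (AB c) t r)) r :=
        (hAB.hasDerivAt_r t r).neg
      have h3 : (fun s => s * X s) =ᶠ[nhds r] fun s => - AB c t s := by
        filter_upwards [lt_mem_nhds hr] with s hs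
        exact (cross_A h ht' hs).1
      have h4 : HasDerivAt (fun s => s * X s) (-(dr (AB c) t r)) r := h2.congr_of_eventuallyEq h3
      have h5 := h1.unique h4
      have h6 : r * X r = - AB c t r := (cross_A h ht' hr).1
      linear_combination r * h5 - h6
    have d2 : r * c.D 2 c.φ ![t, r, 0] 1 = (4 + r * AB c t r) * AP c t r := by
      rw [D_one]
      have e3 : c.A 2 ![t, r, 0] = AB c t r := rfl
      have e4 : c.φ ![t, r, 0] 0 = AP c t r := rfl
      rw [e3, e4]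
      linear_combination c2
    have e6 : c.φ ![t, r, 0] 0 = AP c t r := rfl
    rw [f20, f22, hφ1, e6] at e1
    show r ^ 2 * dt (dt (AB c)) t r - (r ^ 2 * dr (dr (AB c)) t r
      + r * dr (AB c) t r - AB c t r - r * (4 + r * AB c t r) * AP c t r ^ 2) = 0
    linear_combination (-r ^ 2) * e1 - f21 - r * AP c t r * d2

/-- equation for the angle -/
theorem fh_eq (h : SymConf c b) {t : ℝ} (ht : t ∈ Ico 0 b) {r : ℝ} (hr : 0 < r) :
    r ^ 2 * dt (dt (fh c)) t r = r ^ 2 * dr (dr (fh c)) t r + r * dr (fh c) t r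
      - (4 + r * AB c t r) ^ 2 * Real.sin (fh c t r) * Real.cos (fh c t r)
      - r ^ 2 * (1 - Real.cos (fh c t r)) * Real.sin (fh c t r) := by
  rw [← sub_eq_zero]
  revert t
  have hf := fh_sm h
  have hAB := AB_sm h
  refine Axis2b_ext (F := fun t => r ^ 2 * dt (dt (fh c)) t r - (r ^ 2 * dr (dr (fh c)) t r
      + r * dr (fh c) t r
      - (4 + r * AB c t r) ^ 2 * Real.sin (fh c t r) * Real.cos (fh c t r)
      - r ^ 2 * (1 - Real.cos (fh c t r)) * Real.sin (fh c t r))) ?_ ?_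
  · have h1 := hf.cont_t r
    have h3 := hAB.cont_t r
    have h4 := hf.dt.dt.cont_t r
    have h5 := hf.dr.dr.cont_t r
    have h6 := hf.dr.cont_t r
    have h7 : Continuous fun t => Real.sin (fh c t r) := Real.continuous_sin.comp h1
    have h8 : Continuous fun t => Real.cos (fh c t r) := Real.continuous_cos.comp h1
    fun_prop
  · intro t ht
    have ht' : t ∈ Ico 0 b := ⟨ht.1.le, ht.2⟩
    have key := phi_eq_axis h ht' hr
    -- derivatives of sine and cosine of the angle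
    set f := fh c with hfdef
    have hfs : Sm f := hf
    have S_t : ∀ t r, dt (fun t r => Real.sin (f t r)) t r = Real.cos (f t r) * dt f t r :=
      fun t r => (hfs.hasDerivAt_t t r).sin.deriv
    have C_t : ∀ t r, dt (fun t r => Real.cos (f t r)) t r = -Real.sin (f t r) * dt f t r :=
      fun t r => (hfs.hasDerivAt_t t r).cos.deriv
    have S_r : ∀ t r, dr (fun t r => Real.sin (f t r)) t r = Real.cos (f t r) * dr f t r :=
      fun t r => (hfs.hasDerivAt_r t r).sin.deriv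
    have C_r : ∀ t r, dr (fun t r => Real.cos (f t r)) t r = -Real.sin (f t r) * dr f t r :=
      fun t r => (hfs.hasDerivAt_r t r).cos.deriv
    have S_tt : dt (dt (fun t r => Real.sin (f t r))) t r =
        -Real.sin (f t r) * dt f t r * dt f t r + Real.cos (f t r) * dt (dt f) t r := by
      have e : dt (fun t r => Real.sin (f t r)) = fun t r => Real.cos (f t r) * dt f t r := by
        funext t r
        exact S_t t r
      rw [e]
      exact ((hfs.hasDerivAt_t t r).cos.mul (hfs.dt.hasDerivAt_t t r)).deriv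
    have C_tt : dt (dt (fun t r => Real.cos (f t r))) t r =
        (-Real.cos (f t r) * dt f t r) * dt f t r + -Real.sin (f t r) * dt (dt f) t r := by
      have e : dt (fun t r => Real.cos (f t r)) = fun t r => -Real.sin (f t r) * dt f t r := by
        funext t r
        exact C_t t r
      rw [e]
      have := ((hfs.hasDerivAt_t t r).sin.neg.mul (hfs.dt.hasDerivAt_t t r)).deriv
      rw [← neg_mul] at this
      exact this
    have S_rr : dr (dr (fun t r => Real.sin (f t r))) t r =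
        -Real.sin (f t r) * dr f t r * dr f t r + Real.cos (f t r) * dr (dr f) t r := by
      have e : dr (fun t r => Real.sin (f t r)) = fun t r => Real.cos (f t r) * dr f t r := by
        funext t r
        exact S_r t r
      rw [e]
      exact ((hfs.hasDerivAt_r t r).cos.mul (hfs.dr.hasDerivAt_r t r)).deriv
    have C_rr : dr (dr (fun t r => Real.cos (f t r))) t r =
        (-Real.cos (f t r) * dr f t r) * dr f t r + -Real.sin (f t r) * dr (dr f) t r := by
      have e : dr (fun t r => Real.cos (f t r)) = fun t r => -Real.sin (f t r) * dr f t r := by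
        funext t r
        exact C_r t r
      rw [e]
      have := ((hfs.hasDerivAt_r t r).sin.neg.mul (hfs.dr.hasDerivAt_r t r)).deriv
      rw [← neg_mul] at this
      exact this
    -- identification near t
    have loc_t : ∀ u v : ℝ → ℝ → ℝ, (∀ s ∈ Ioo 0 b, ∀ r, u s r = v s r) →
        ∀ s ∈ Ioo 0 b, ∀ r, dt u s r = dt v s r := by
      intro u v huv s hs r
      have : (fun x => u x r) =ᶠ[nhds s] fun x => v x r := by
        filter_upwards [isOpen_Ioo.mem_nhds hs] with x hx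
        exact huv x hx r
      exact this.deriv_eq
    have loc_r : ∀ u v : ℝ → ℝ → ℝ, (∀ s ∈ Ioo 0 b, ∀ r, u s r = v s r) →
        ∀ s ∈ Ioo 0 b, ∀ r, dr u s r = dr v s r := by
      intro u v huv s hs r
      have : u s = v s := funext fun x => huv s hs x
      unfold dr
      rw [this]
    have eP : ∀ s ∈ Ioo 0 b, ∀ r, AP c s r = (fun t r => Real.sin (f t r)) s r :=
      fun s hs r => (sin_fh h ⟨hs.1.le, hs.2⟩ r).1.symm
    have eZ : ∀ s ∈ Ioo 0 b, ∀ r, AZ c s r = (fun t r => Real.cos (f t r)) s r :=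
      fun s hs r => (sin_fh h ⟨hs.1.le, hs.2⟩ r).2.symm
    have k1 := loc_t _ _ (loc_t _ _ eP) t ht r
    have k2 := loc_t _ _ (loc_t _ _ eZ) t ht r
    have k3 := loc_r _ _ (loc_r _ _ eP) t ht r
    have k4 := loc_r _ _ (loc_r _ _ eZ) t ht r
    have k5 := loc_r _ _ eP t ht r
    have k6 := loc_r _ _ eZ t ht r
    rw [S_tt] at k1
    rw [C_tt] at k2
    rw [S_rr] at k3
    rw [C_rr] at k4
    rw [S_r] at k5
    rw [C_r] at k6
    have eP' := eP t ht r
    have eZ' := eZ t ht r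
    simp only at eP' eZ'
    rw [k1, k2, k3, k4, k5, k6, eP', eZ'] at key
    have hsc := Real.sin_sq_add_cos_sq (f t r)
    show r ^ 2 * dt (dt f) t r - (r ^ 2 * dr (dr f) t r
      + r * dr f t r
      - (4 + r * AB c t r) ^ 2 * Real.sin (f t r) * Real.cos (f t r)
      - r ^ 2 * (1 - Real.cos (f t r)) * Real.sin (f t r)) = 0
    linear_combination key - (r ^ 2 * dt (dt f) t r - r ^ 2 * dr (dr f) t r - r * dr f t r) * hsc

end H72GS

end S_Axis2b

section S_Axis3

/-!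
# Axis3: from a solution for `0 ≤ t < T` to `Rad`

`glob`, `to_temporal`, `symConf_of_data` give a symmetric `c` with some `b > T'`.  Put
`f t r = fh t r - r * dr fh t 0`, `al t r = AB t r - AB t 0`.  The corrections are smooth functions of
`t` which vanish on `[0,b)` (`fh_r_zero`, `axis_zero`), so their time derivatives vanish there as
well; the equations for `t ∈ (0,b)` are `fh_eq`, `A_eq_axis`, and extend to `t = 0` by continuity.
`f t 0 = π`, `dr f t 0 = 0`, `al t 0 = 0` for all `t`.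
At `t = 0`: `sin f = AP = dphi ell r 0 0`, `cos f = dphi ell r 0 2`,
`g = AZ AP_t - AP AZ_t = -4 om0 AP` (`φ1`; differentiate `sin fh = AP`, `cos fh = AZ` for `t > 0`,
then `t → 0`), `al = al_t = 0`.
`f_init`: for `r ≥ R00`, `AZ = 1`, so `f ∈ 2πℤ`; `sin f = AP(0,r) ≥ 0` for all `r ≥ 0`, so by continuity
`f(0,r) ∈ [0,π]` for all `r ≥ 0` (start at `π`), hence `f = 0`.
-/

namespace H72GS

open Set
open scoped ContDiff

/-- a differentiable function vanishing on `[0,b)` has vanishing derivative there -/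
theorem Axis3_deriv_zero {K : ℝ → ℝ} {b : ℝ} (hK : Differentiable ℝ K)
    (h : ∀ t ∈ Ico 0 b, K t = 0) {t : ℝ} (ht : t ∈ Ico 0 b) : deriv K t = 0 := by
  have h1 : HasDerivWithinAt K (deriv K t) (Ico 0 b) t := (hK t).hasDerivAt.hasDerivWithinAt
  have h2 : HasDerivWithinAt K 0 (Ico 0 b) t :=
    (hasDerivWithinAt_const t (Ico 0 b) (0 : ℝ)).congr h (h t ht)
  exact (uniqueDiffOn_Ico 0 b t ht).eq_deriv _ h1 h2

/-- two functions which agree on `[0,b)` have the same derivative there -/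
theorem Axis3_deriv_congr {K L : ℝ → ℝ} {b : ℝ} (hK : Differentiable ℝ K) (hL : Differentiable ℝ L)
    (h : ∀ t ∈ Ico 0 b, K t = L t) {t : ℝ} (ht : t ∈ Ico 0 b) : deriv K t = deriv L t := by
  have h1 : HasDerivWithinAt K (deriv K t) (Ico 0 b) t := (hK t).hasDerivAt.hasDerivWithinAt
  have h2 : HasDerivWithinAt K (deriv L t) (Ico 0 b) t :=
    (hL t).hasDerivAt.hasDerivWithinAt.congr h (h t ht)
  exact (uniqueDiffOn_Ico 0 b t ht).eq_deriv _ h1 h2

theorem Axis3_sm_diff_t {u : ℝ → ℝ → ℝ} (h : Sm u) (r : ℝ) : Differentiable ℝ (fun t => u t r) :=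
  fun t => (h.hasDerivAt_t t r).differentiableAt

/-- freezing the second variable at `0` -/
theorem Axis3_freeze {u : ℝ → ℝ → ℝ} (h : Sm u) : Sm (fun t _ => u t 0) := by
  have h1 : ContDiff ℝ ∞ (fun p : ℝ × ℝ => u p.1 p.2) := h
  have h2 : ContDiff ℝ ∞ (fun p : ℝ × ℝ => (p.1, (0 : ℝ))) := by fun_prop
  exact h1.comp h2

/-- `fh - r fh_r(t,0)` -/
noncomputable def Axis3_F (c : Config) (t r : ℝ) : ℝ := fh c t r - r * dr (fh c) t 0

/-- `AB - AB(t,0)` -/
noncomputable def Axis3_al (c : Config) (t r : ℝ) : ℝ := AB c t r - AB c t 0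

variable {c : Config} {b : ℝ}

theorem Axis3_F_sm (h : SymConf c b) : Sm (Axis3_F c) :=
  (fh_sm h).sub (Sm.idr.mul (Axis3_freeze (fh_sm h).dr))

theorem Axis3_al_sm (h : SymConf c b) : Sm (Axis3_al c) :=
  (AB_sm h).sub (Axis3_freeze (AB_sm h))

theorem Axis3_F_eq (h : SymConf c b) {t : ℝ} (ht : t ∈ Ico 0 b) (r : ℝ) :
    Axis3_F c t r = fh c t r := by
  rw [Axis3_F, fh_r_zero h ht]; ring

theorem Axis3_al_eq (h : SymConf c b) {t : ℝ} (ht : t ∈ Ico 0 b) (r : ℝ) :
    Axis3_al c t r = AB c t r := by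
  rw [Axis3_al, (axis_zero h ht).2.2.1]; ring

/-- derivatives of functions that agree on `[0,b) × ℝ` agree -/
theorem Axis3_dt_congr {u v : ℝ → ℝ → ℝ} (hu : Sm u) (hv : Sm v)
    (h : ∀ t ∈ Ico 0 b, ∀ r, u t r = v t r) : ∀ t ∈ Ico 0 b, ∀ r, dt u t r = dt v t r :=
  fun _ ht r => Axis3_deriv_congr (Axis3_sm_diff_t hu r) (Axis3_sm_diff_t hv r)
    (fun t ht => h t ht r) ht

theorem Axis3_dr_congr {u v : ℝ → ℝ → ℝ}
    (h : ∀ t ∈ Ico 0 b, ∀ r, u t r = v t r) : ∀ t ∈ Ico 0 b, ∀ r, dr u t r = dr v t r := by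
  intro t ht r
  have : (fun x => u t x) = fun x => v t x := funext fun x => h t ht x
  simp only [dr, this]

theorem Axis3_eqf (h : SymConf c b) {t : ℝ} (ht : t ∈ Ico 0 b) {r : ℝ} (hr : 0 < r) :
    r ^ 2 * dt (dt (Axis3_F c)) t r = r ^ 2 * dr (dr (Axis3_F c)) t r + r * dr (Axis3_F c) t r
      - (4 + r * Axis3_al c t r) ^ 2 * Real.sin (Axis3_F c t r) * Real.cos (Axis3_F c t r)
      - r ^ 2 * (1 - Real.cos (Axis3_F c t r)) * Real.sin (Axis3_F c t r) := by
  have h0 : ∀ t ∈ Ico 0 b, ∀ r, Axis3_F c t r = fh c t r := fun t ht r => Axis3_F_eq h ht r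
  have h1 := Axis3_dt_congr (Axis3_F_sm h) (fh_sm h) h0
  have h2 := Axis3_dt_congr (Axis3_F_sm h).dt (fh_sm h).dt h1
  have h3 := Axis3_dr_congr h0
  have h4 := Axis3_dr_congr h3
  rw [h2 t ht r, h4 t ht r, h3 t ht r, h0 t ht r, Axis3_al_eq h ht]
  exact fh_eq h ht hr

theorem Axis3_eqa (h : SymConf c b) {t : ℝ} (ht : t ∈ Ico 0 b) {r : ℝ} (hr : 0 < r) :
    r ^ 2 * dt (dt (Axis3_al c)) t r = r ^ 2 * dr (dr (Axis3_al c)) t r + r * dr (Axis3_al c) t r
      - Axis3_al c t r - r * (4 + r * Axis3_al c t r) * Real.sin (Axis3_F c t r) ^ 2 := by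
  have h0 : ∀ t ∈ Ico 0 b, ∀ r, Axis3_al c t r = AB c t r := fun t ht r => Axis3_al_eq h ht r
  have h1 := Axis3_dt_congr (Axis3_al_sm h) (AB_sm h) h0
  have h2 := Axis3_dt_congr (Axis3_al_sm h).dt (AB_sm h).dt h1
  have h3 := Axis3_dr_congr h0
  have h4 := Axis3_dr_congr h3
  rw [h2 t ht r, h4 t ht r, h3 t ht r, h0 t ht r, Axis3_F_eq h ht, (sin_fh h ht r).1]
  exact A_eq_axis h ht hr

theorem Axis3_update (t r s : ℝ) : Function.update (![t, r, 0] : Pt) 0 s = ![s, r, 0] := by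
  funext i
  fin_cases i <;> simp [Function.update]

theorem Axis3_pd0 {u : Pt → ℝ} (hu : ContDiff ℝ ∞ u) (t r : ℝ) :
    deriv (fun s => u ![s, r, 0]) t = pd 0 u ![t, r, 0] := by
  have h := hasDerivAt_pd hu 0 ![t, r, 0] t
  simp only [Axis3_update] at h
  exact h.deriv

/-- the time derivative of the angle -/
theorem Axis3_fh_t (h : SymConf c b) {t : ℝ} (ht : t ∈ Ico 0 b) (r : ℝ) :
    dt (fh c) t r = AZ c t r * dt (AP c) t r - AP c t r * dt (AZ c) t r := by
  have e1 := Axis3_dt_congr (fh_sm h).sin (AP_sm h) (fun t ht r => (sin_fh h ht r).1) t ht r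
  have e2 := Axis3_dt_congr (fh_sm h).cos (AZ_sm h) (fun t ht r => (sin_fh h ht r).2) t ht r
  have d1 : dt (fun t r => Real.sin (fh c t r)) t r = Real.cos (fh c t r) * dt (fh c) t r :=
    ((fh_sm h).hasDerivAt_t t r).sin.deriv
  have d2 : dt (fun t r => Real.cos (fh c t r)) t r = -Real.sin (fh c t r) * dt (fh c) t r :=
    ((fh_sm h).hasDerivAt_t t r).cos.deriv
  rw [← e1, ← e2, d1, d2, ← (sin_fh h ht r).1, ← (sin_fh h ht r).2]
  linear_combination (-dt (fh c) t r) * Real.sin_sq_add_cos_sq (fh c t r)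

/-- an angle starting at `π` with nonnegative sine stays in `[0,π]` -/
theorem Axis3_range {f : ℝ → ℝ} (hf : Continuous f) (h0 : f 0 = Real.pi)
    (hs : ∀ r, 0 ≤ r → 0 ≤ Real.sin (f r)) {r : ℝ} (hr : 0 ≤ r) : 0 ≤ f r ∧ f r ≤ Real.pi := by
  have hpi := Real.pi_pos
  constructor
  · by_contra hlt
    push Not at hlt
    have h1 : max (f r) (-Real.pi / 2) ∈ uIcc (f 0) (f r) := by
      rw [h0, uIcc_of_ge (by linarith)]
      exact ⟨le_max_left _ _, max_le (by linarith) (by linarith)⟩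
    obtain ⟨s, hs1, hs2⟩ := intermediate_value_uIcc (a := 0) (b := r) hf.continuousOn h1
    rw [uIcc_of_le hr] at hs1
    have h2 := hs s hs1.1
    have h3 : Real.sin (f s) < 0 := by
      apply Real.sin_neg_of_neg_of_neg_pi_lt
      · rw [hs2]; exact max_lt hlt (by linarith)
      · rw [hs2]; exact lt_max_of_lt_right (by linarith)
    linarith
  · by_contra hlt
    push Not at hlt
    have h1 : min (f r) (3 * Real.pi / 2) ∈ uIcc (f 0) (f r) := by
      rw [h0, uIcc_of_le hlt.le]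
      exact ⟨le_min hlt.le (by linarith), min_le_left _ _⟩
    obtain ⟨s, hs1, hs2⟩ := intermediate_value_uIcc (a := 0) (b := r) hf.continuousOn h1
    rw [uIcc_of_le hr] at hs1
    have h2 := hs s hs1.1
    have h3 : 0 < Real.sin (f s - Real.pi) := by
      apply Real.sin_pos_of_pos_of_lt_pi
      · rw [hs2]; have := lt_min hlt (by linarith : Real.pi < 3 * Real.pi / 2); linarith
      · rw [hs2]; have := min_le_right (f r) (3 * Real.pi / 2); linarith
    rw [Real.sin_sub_pi] at h3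
    linarith

theorem Axis3_dphi1 (ell r : ℝ) : dphi ell r 0 1 = 0 := by
  simp [dphi]

theorem Axis3_dphi_far {ell r : ℝ} (hr : R00 ≤ r) : dphi ell r 0 0 = 0 ∧ dphi ell r 0 2 = 1 := by
  have hR : (0 : ℝ) < R00 := by unfold R00; norm_num
  have hk : kap (r ^ 2 + 0 ^ 2) = 0 := by
    apply kap_zero
    nlinarith
  have hr0 : 0 < r := lt_of_lt_of_le hR hr
  constructor
  · simp only [dphi, Matrix.cons_val_zero, hk]; simp
  · simp only [dphi, den, hk]
    simp only [Matrix.cons_val]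
    have : (r ^ 2 + 0 ^ 2) ^ 4 ≠ 0 := by positivity
    field_simp
    ring

theorem Axis3_dphi0_nonneg {ell : ℝ} (hl : 0 < ell) (r : ℝ) : 0 ≤ dphi ell r 0 0 := by
  have h1 := kap_nonneg (r ^ 2 + 0 ^ 2)
  have h2 := den_pos hl (ρ := r ^ 2 + 0 ^ 2) (by positivity)
  have h3 : dphi ell r 0 0 = 2 * kap (r ^ 2 + 0 ^ 2) * ell * r ^ 4 / den ell (r ^ 2 + 0 ^ 2) := by
    simp only [dphi, Matrix.cons_val_zero]
    congr 1
    ring
  rw [h3]
  positivity

theorem exists_rad {om0 ell T T' : ℝ} (hl : 0 < ell) (hT' : 0 < T') (hTT : T' < T)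
    {c : Config} (hc : IsSolutionFrom (dat om0 ell) T c) :
    ∃ R : Rad T' R00, (∀ r, 0 ≤ r → Real.sin (R.f 0 r) = dphi ell r 0 0 ∧
        Real.cos (R.f 0 r) = dphi ell r 0 2) ∧
      ∀ r, R.g 0 r = -4 * om0 * Real.sin (R.f 0 r) := by
  obtain ⟨c1, b, hb, hφ, hA, hsol, hst⟩ := glob hT' hTT hc
  obtain ⟨c2, htemp, hd1, hd2⟩ := to_temporal hφ hA hsol (dat_smooth hl) (fun _ _ _ => rfl)
    (fun _ _ _ => rfl) hst
  have h : SymConf c2 b := symConf_of_data hl htemp hd1 hd2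
  have hb0 : 0 < b := hT'.trans hb
  have h0b : (0 : ℝ) ∈ Ico 0 b := ⟨le_rfl, hb0⟩
  have hsub : ∀ t ∈ Icc 0 T', t ∈ Ico 0 b := fun t ht => ⟨ht.1, lt_of_le_of_lt ht.2 hb⟩
  -- the data on the axis
  have hAP : ∀ r, AP c2 0 r = dphi ell r 0 0 := fun r => (hd1 r 0 0).1
  have hAZ : ∀ r, AZ c2 0 r = dphi ell r 0 2 := fun r => (hd1 r 0 2).1
  have hAPt : ∀ r, dt (AP c2) 0 r = -4 * om0 * (dphi ell r 0 2 * dphi ell r 0 0) := by
    intro r
    have := Axis3_pd0 (htemp.hφ 0) 0 r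
    exact this.trans (hd1 r 0 0).2
  have hAZt : ∀ r, dt (AZ c2) 0 r = 4 * om0 * (dphi ell r 0 0 ^ 2 + dphi ell r 0 1 ^ 2) := by
    intro r
    have := Axis3_pd0 (htemp.hφ 2) 0 r
    exact this.trans (hd1 r 0 2).2
  have hfht : ∀ r, dt (fh c2) 0 r = -4 * om0 * AP c2 0 r := by
    intro r
    have hn := AP_AZ h h0b r
    rw [Axis3_fh_t h h0b, hAPt, hAZt, Axis3_dphi1, ← hAP, ← hAZ]
    linear_combination (-4 * om0 * AP c2 0 r) * hn
  have hdtF : ∀ r, dt (Axis3_F c2) 0 r = dt (fh c2) 0 r := fun r =>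
    Axis3_dt_congr (Axis3_F_sm h) (fh_sm h) (fun t ht r => Axis3_F_eq h ht r) 0 h0b r
  have hF0 : ∀ r, Axis3_F c2 0 r = fh c2 0 r := fun r => Axis3_F_eq h h0b r
  have hsin : ∀ r, Real.sin (Axis3_F c2 0 r) = dphi ell r 0 0 := fun r => by
    rw [hF0, (sin_fh h h0b r).1, hAP]
  have hcos : ∀ r, Real.cos (Axis3_F c2 0 r) = dphi ell r 0 2 := fun r => by
    rw [hF0, (sin_fh h h0b r).2, hAZ]
  have hg : ∀ r, dt (Axis3_F c2) 0 r = -4 * om0 * Real.sin (Axis3_F c2 0 r) := fun r => by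
    rw [hdtF, hfht, hAP, hsin]
  have hfinit : ∀ r, R00 ≤ r → Axis3_F c2 0 r = 0 := by
    intro r hr
    have hR : (0 : ℝ) < R00 := by unfold R00; norm_num
    have hr0 : 0 ≤ r := hR.le.trans hr
    have hrange := Axis3_range (f := Axis3_F c2 0) ((Axis3_F_sm h).cont_r 0)
      (by rw [hF0, fh_zero]) (fun r _ => by rw [hsin]; exact Axis3_dphi0_nonneg hl r) hr0
    have hcr : Real.cos (Axis3_F c2 0 r) = 1 := by rw [hcos, (Axis3_dphi_far hr).2]
    have hpi := Real.pi_pos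
    exact (Real.cos_eq_one_iff_of_lt_of_lt (by linarith [hrange.1]) (by linarith [hrange.2])).1 hcr
  have hginit : ∀ r, R00 ≤ r → dt (Axis3_F c2) 0 r = 0 := by
    intro r hr
    rw [hg, hsin, (Axis3_dphi_far hr).1, mul_zero]
  have halinit : ∀ r, Axis3_al c2 0 r = 0 := by
    intro r
    rw [Axis3_al_eq h h0b]
    exact (hd2 2 r 0).1
  have heinit : ∀ r, dt (Axis3_al c2) 0 r = 0 := by
    intro r
    rw [Axis3_dt_congr (Axis3_al_sm h) (AB_sm h) (fun t ht r => Axis3_al_eq h ht r) 0 h0b r]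
    exact (Axis3_pd0 (htemp.hA 2) 0 r).trans (hd2 2 r 0).2
  refine ⟨{ f := Axis3_F c2, al := Axis3_al c2, hT := hT', hR0 := by unfold R00; norm_num,
            sf := Axis3_F_sm h, sal := Axis3_al_sm h,
            f0 := fun t => by rw [Axis3_F, fh_zero]; ring,
            fr0 := ?_, al0 := fun t => by rw [Axis3_al]; ring,
            eqf := fun t ht r hr => Axis3_eqf h (hsub t ht) hr,
            eqa := fun t ht r hr => Axis3_eqa h (hsub t ht) hr,
            f_init := hfinit, g_init := hginit, al_init := halinit, e_init := heinit }, ?_, ?_⟩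
  · intro t
    have h1 : HasDerivAt (fun r => fh c2 t r - r * dr (fh c2) t 0)
        (dr (fh c2) t 0 - 1 * dr (fh c2) t 0) 0 :=
      ((fh_sm h).hasDerivAt_r t 0).sub ((hasDerivAt_id (0 : ℝ)).mul_const _)
    have h2 : dr (Axis3_F c2) t 0 = dr (fh c2) t 0 - 1 * dr (fh c2) t 0 := h1.deriv
    rw [h2]; ring
  · intro r _
    exact ⟨hsin r, hcos r⟩
  · intro r
    exact hg r

end H72GS

end S_Axis3
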