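import Mathlib
import Pool.Agent.H72.GM.M2
import Pool.Agent.H72.GM.M3
import Pool.Agent.H72.GM.M6
import Pool.Agent.H72.GM.M8
import Pool.Agent.H72.GM.M9

set_option autoImplicit false

/-! Gauged sigma model, file M10: this file joins several modules to save build time. -/

section S_InitA

/-!
# InitA: the functions of `Rad` at time `0`

For `r > 0`: with `κ(r) = kap (r²)`, `sin f = 2 κ ell r⁴/(r⁸ + κ² ell²)`,
`cos f = (r⁸ - κ² ell²)/(r⁸ + κ² ell²)`; `f_r = cos f (sin f)_r - sin f (cos f)_r`, and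
`w = f_r + 4 sin f / r = 2 κ' ell r⁴/(r⁸ + κ² ell²)` (`al = 0` at `t = 0`), `κ' = 2 r kap'(r²)`.
`w_t = -4 om0 cos f w` (`w = f_r + μ sin f / r`, `g = -4 om0 sin f`, `e = 0`), `y = 1 - cos f`,
`y_t = g sin f = -4 om0 sin² f`, `y_r = sin f f_r`.
`kap'` is supported in `ρ ∈ [R00²/2, R00²]`, where `r ≥ 1/3000`, so
`|w| ≤ C ell`, `|w_r| ≤ C ell`, `|w1| ≤ C ell` with `C` independent of `ell ∈ (0,1]` (compactness:
`kap'`, `kap''` are bounded there, denominator `≥ r⁸ ≥ 3000⁻⁸`).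
`init_sin`: `F = κ ell / r⁴`, `sin f = 2F/(1+F²) ≤ 2F`, `1 - cos f = 2F²/(1+F²) ≤ 2F²`, and for
`r ≤ 1/3000` (`κ = 1`) also `sin f ≤ 2/F`.
-/

namespace H72GS

open Set

/-- hypotheses on the initial values -/
structure RadInit {T : ℝ} (R : Rad T R00) (om0 ell : ℝ) : Prop where
  hsin : ∀ r, 0 ≤ r → Real.sin (R.f 0 r) = dphi ell r 0 0
  hcos : ∀ r, 0 ≤ r → Real.cos (R.f 0 r) = dphi ell r 0 2
  hg : ∀ r, R.g 0 r = -4 * om0 * Real.sin (R.f 0 r)

variable {T om0 ell : ℝ} {R : Rad T R00}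

/-! ### auxiliary facts -/

theorem InitA_s_smooth (R : Rad T R00) : Sm R.s := R.sf.sin
theorem InitA_c_smooth (R : Rad T R00) : Sm R.c := R.sf.cos
theorem InitA_S1_smooth (R : Rad T R00) : Sm R.S1 := (InitA_s_smooth R).Q
theorem InitA_mu_smooth (R : Rad T R00) : Sm R.mu := (Sm.const 4).add (Sm.idr.mul R.sal)
theorem InitA_w_smooth (R : Rad T R00) : Sm R.w :=
  R.sf.dr.add ((InitA_mu_smooth R).mul (InitA_S1_smooth R))

theorem InitA_S1 (R : Rad T R00) (t : ℝ) {r : ℝ} (hr : r ≠ 0) :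
    R.S1 t r = Real.sin (R.f t r) / r := by
  have h0 : R.s t 0 = 0 := by
    unfold Rad.s
    rw [R.f0 t, Real.sin_pi]
  have h1 := mul_Q (InitA_s_smooth R) h0 r
  rw [eq_div_iff hr, mul_comm]
  exact h1

theorem InitA_dral (R : Rad T R00) (r : ℝ) : dr R.al 0 r = 0 := by
  unfold dr
  have : (fun x => R.al 0 x) = fun _ => 0 := funext R.al_init
  rw [this]
  simp

theorem InitA_drdtal (R : Rad T R00) (r : ℝ) : dr (dt R.al) 0 r = 0 := by
  unfold dr
  have : (fun x => dt R.al 0 x) = fun _ => 0 := funext R.e_init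
  rw [this]
  simp

theorem InitA_w0 (R : Rad T R00) {r : ℝ} (hr : r ≠ 0) :
    R.w 0 r = dr R.f 0 r + 4 * Real.sin (R.f 0 r) / r := by
  unfold Rad.w Rad.mu
  rw [InitA_S1 R 0 hr, R.al_init]
  ring

theorem InitA_y0 (R : Rad T R00) (r : ℝ) : R.y 0 r = 1 - Real.cos (R.f 0 r) := by
  have h1 : R.al1 0 r = 0 := by
    unfold Rad.al1 Q
    simp only [InitA_dral]
    simp
  unfold Rad.y Rad.c
  rw [h1, InitA_dral]
  ring

theorem init_simple (h : RadInit R om0 ell) : (∀ r, R.al 0 r = 0) ∧ (∀ r, R.e 0 r = 0) ∧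
    (∀ r, 0 ≤ r → R.y 0 r = 1 - Real.cos (R.f 0 r)) ∧
    (∀ r, 0 ≤ r → dt R.w 0 r = -4 * om0 * Real.cos (R.f 0 r) * R.w 0 r) ∧
    (∀ r, 0 ≤ r → dt R.y 0 r = -4 * om0 * Real.sin (R.f 0 r) ^ 2) ∧
    (∀ r, 0 < r → dr R.y 0 r = Real.sin (R.f 0 r) * (R.w 0 r - 4 * Real.sin (R.f 0 r) / r)) := by
  refine ⟨R.al_init, R.e_init, fun r _ => InitA_y0 R r, ?_, ?_, ?_⟩
  · have hw := InitA_w_smooth R
    refine eq_of_pos (hw.dt.cont_r 0) ?_ ?_
    · exact (continuous_const.mul (Real.continuous_cos.comp (R.sf.cont_r 0))).mul (hw.cont_r 0)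
    · intro r hr
      have h1 : HasDerivAt (fun t => dr R.f t r) (dt (dr R.f) 0 r) 0 := R.sf.dr.hasDerivAt_t 0 r
      have h2 : HasDerivAt (fun t => R.mu t r) (r * dt R.al 0 r) 0 :=
        ((R.sal.hasDerivAt_t 0 r).const_mul r).const_add 4
      have h3 : HasDerivAt (fun t => R.S1 t r) (Real.cos (R.f 0 r) * dt R.f 0 r / r) 0 := by
        have h4 : (fun t => R.S1 t r) = fun t => Real.sin (R.f t r) / r :=
          funext fun t => InitA_S1 R t hr.ne'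
        rw [h4]
        exact ((R.sf.hasDerivAt_t 0 r).sin).div_const r
      have h4 : HasDerivAt (fun t => R.w t r) _ 0 := h1.add (h2.mul h3)
      have h5 : dt R.w 0 r = _ := h4.deriv
      rw [h5, R.sf.comm, R.e_init]
      have h6 : dr (dt R.f) 0 r = -4 * om0 * (Real.cos (R.f 0 r) * dr R.f 0 r) := by
        have h7 : (fun x => dt R.f 0 x) = fun x => -4 * om0 * Real.sin (R.f 0 x) := funext h.hg
        unfold dr
        rw [h7]
        exact (((R.sf.hasDerivAt_r 0 r).sin).const_mul (-4 * om0)).deriv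
      have h7 : dt R.f 0 r = -4 * om0 * Real.sin (R.f 0 r) := h.hg r
      have h8 : R.mu 0 r = 4 := by
        unfold Rad.mu
        rw [R.al_init]
        ring
      rw [h6, h7, h8, InitA_w0 R hr.ne']
      ring
  · intro r _
    have h1 : HasDerivAt (fun t => R.al1 t r) (dt R.al1 0 r) 0 := R.sal.Q.hasDerivAt_t 0 r
    have h2 : HasDerivAt (fun t => dr R.al t r) (dt (dr R.al) 0 r) 0 := R.sal.dr.hasDerivAt_t 0 r
    have h3 : HasDerivAt (fun t => R.c t r) (-Real.sin (R.f 0 r) * dt R.f 0 r) 0 :=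
      (R.sf.hasDerivAt_t 0 r).cos
    have h4 : HasDerivAt (fun t => R.y t r) _ 0 := ((h1.add h2).add_const 1).sub h3
    have h5 : dt R.y 0 r = _ := h4.deriv
    have h6 : dt R.al1 0 r = 0 := by
      unfold Rad.al1
      rw [dt_Q R.sal]
      unfold Q
      simp only [InitA_drdtal]
      simp
    have h7 : dt R.f 0 r = -4 * om0 * Real.sin (R.f 0 r) := h.hg r
    rw [h5, h6, R.sal.comm, InitA_drdtal, h7]
    ring
  · intro r hr
    have h1 : (fun x => R.y 0 x) = fun x => 1 - Real.cos (R.f 0 x) := funext (InitA_y0 R)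
    have h2 : dr R.y 0 r = Real.sin (R.f 0 r) * dr R.f 0 r := by
      unfold dr
      rw [h1]
      have h3 := ((R.sf.hasDerivAt_r 0 r).cos).const_sub 1
      rw [h3.deriv]
      unfold dr
      ring
    rw [h2, InitA_w0 R hr.ne']
    ring

theorem InitA_den {x : ℝ} : den ell (x ^ 2) = x ^ 8 + kap (x ^ 2) ^ 2 * ell ^ 2 := by
  unfold den
  ring

theorem InitA_sinf (h : RadInit R om0 ell) {x : ℝ} (hx : 0 ≤ x) :
    Real.sin (R.f 0 x) = 2 * kap (x ^ 2) * ell * x ^ 4 / (x ^ 8 + kap (x ^ 2) ^ 2 * ell ^ 2) := by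
  rw [h.hsin x hx, ← InitA_den]
  simp [dphi]

theorem InitA_cosf (h : RadInit R om0 ell) {x : ℝ} (hx : 0 ≤ x) :
    Real.cos (R.f 0 x) =
      (x ^ 8 - kap (x ^ 2) ^ 2 * ell ^ 2) / (x ^ 8 + kap (x ^ 2) ^ 2 * ell ^ 2) := by
  rw [h.hcos x hx, ← InitA_den]
  simp [dphi]
  ring

theorem InitA_Dpos {l x k : ℝ} (hx : 0 < x) : 0 < x ^ 8 + k ^ 2 * l ^ 2 := by positivity

theorem InitA_kd (x : ℝ) : HasDerivAt (fun x : ℝ => kap (x ^ 2)) (2 * x * deriv kap (x ^ 2)) x := by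
  have h1 : HasDerivAt kap (deriv kap (x ^ 2)) (x ^ 2) :=
    (kap_smooth.differentiable (by simp) _).hasDerivAt
  have h2 : HasDerivAt (fun x : ℝ => x ^ 2) (2 * x) x := by
    simpa using hasDerivAt_pow 2 x
  have h3 := HasDerivAt.comp (h := fun x : ℝ => x ^ 2) x h1 h2
  refine h3.congr_deriv ?_
  ring

theorem InitA_alg {k k' l r : ℝ} (hr : r ≠ 0) (hD : r ^ 8 + k ^ 2 * l ^ 2 ≠ 0) :
    (r ^ 8 - k ^ 2 * l ^ 2) / (r ^ 8 + k ^ 2 * l ^ 2) *
      (((2 * l * (k' * r ^ 4 + 4 * k * r ^ 3)) * (r ^ 8 + k ^ 2 * l ^ 2) -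
        (2 * k * l * r ^ 4) * (8 * r ^ 7 + 2 * k * k' * l ^ 2)) / (r ^ 8 + k ^ 2 * l ^ 2) ^ 2) -
      (2 * k * l * r ^ 4 / (r ^ 8 + k ^ 2 * l ^ 2)) *
      (((8 * r ^ 7 - 2 * k * k' * l ^ 2) * (r ^ 8 + k ^ 2 * l ^ 2) -
        (r ^ 8 - k ^ 2 * l ^ 2) * (8 * r ^ 7 + 2 * k * k' * l ^ 2)) /
          (r ^ 8 + k ^ 2 * l ^ 2) ^ 2) +
      4 * (2 * k * l * r ^ 4 / (r ^ 8 + k ^ 2 * l ^ 2)) / r =
      2 * k' * l * r ^ 4 / (r ^ 8 + k ^ 2 * l ^ 2) := by
  field_simp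
  ring

/-- the function `w(0,r)/ell` -/
noncomputable def InitA_G (l r : ℝ) : ℝ :=
  4 * r ^ 5 * deriv kap (r ^ 2) / (r ^ 8 + kap (r ^ 2) ^ 2 * l ^ 2)

theorem InitA_wG (h : RadInit R om0 ell) {r : ℝ} (hr : 0 < r) :
    R.w 0 r = ell * InitA_G ell r := by
  have hD : r ^ 8 + kap (r ^ 2) ^ 2 * ell ^ 2 ≠ 0 := (InitA_Dpos hr).ne'
  have hk := InitA_kd r
  have hnhds : ∀ᶠ x : ℝ in nhds r, 0 ≤ x := by
    filter_upwards [lt_mem_nhds hr] with x hx
    exact le_of_lt hx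
  have hden : HasDerivAt (fun x : ℝ => x ^ 8 + kap (x ^ 2) ^ 2 * ell ^ 2)
      (8 * r ^ 7 + 2 * kap (r ^ 2) * (2 * r * deriv kap (r ^ 2)) * ell ^ 2) r := by
    have h1 : HasDerivAt (fun x : ℝ => x ^ 8) (8 * r ^ 7) r := by
      simpa using hasDerivAt_pow 8 r
    have h2 := (hk.pow 2).mul_const (ell ^ 2)
    refine (h1.add h2).congr_deriv ?_
    norm_num
  have hx4 : HasDerivAt (fun x : ℝ => x ^ 4) (4 * r ^ 3) r := by
    simpa using hasDerivAt_pow 4 r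
  have hx8 : HasDerivAt (fun x : ℝ => x ^ 8) (8 * r ^ 7) r := by
    simpa using hasDerivAt_pow 8 r
  -- sine
  have hS1 : HasDerivAt (fun x => Real.sin (R.f 0 x)) (Real.cos (R.f 0 r) * dr R.f 0 r) r :=
    (R.sf.hasDerivAt_r 0 r).sin
  have hS2 : HasDerivAt (fun x => Real.sin (R.f 0 x))
      (((2 * ell * ((2 * r * deriv kap (r ^ 2)) * r ^ 4 + 4 * kap (r ^ 2) * r ^ 3)) *
        (r ^ 8 + kap (r ^ 2) ^ 2 * ell ^ 2) -
        (2 * kap (r ^ 2) * ell * r ^ 4) *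
          (8 * r ^ 7 + 2 * kap (r ^ 2) * (2 * r * deriv kap (r ^ 2)) * ell ^ 2)) /
        (r ^ 8 + kap (r ^ 2) ^ 2 * ell ^ 2) ^ 2) r := by
    have h1 := (((hk.const_mul 2).mul_const ell).mul hx4).div hden hD
    refine (h1.congr_deriv ?_).congr_of_eventuallyEq ?_
    · simp only [Pi.mul_apply]
      congr 1
      ring
    · filter_upwards [hnhds] with x hx
      exact InitA_sinf h hx
  have hC1 : HasDerivAt (fun x => Real.cos (R.f 0 x)) (-Real.sin (R.f 0 r) * dr R.f 0 r) r :=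
    (R.sf.hasDerivAt_r 0 r).cos
  have hC2 : HasDerivAt (fun x => Real.cos (R.f 0 x))
      (((8 * r ^ 7 - 2 * kap (r ^ 2) * (2 * r * deriv kap (r ^ 2)) * ell ^ 2) *
        (r ^ 8 + kap (r ^ 2) ^ 2 * ell ^ 2) -
        (r ^ 8 - kap (r ^ 2) ^ 2 * ell ^ 2) *
          (8 * r ^ 7 + 2 * kap (r ^ 2) * (2 * r * deriv kap (r ^ 2)) * ell ^ 2)) /
        (r ^ 8 + kap (r ^ 2) ^ 2 * ell ^ 2) ^ 2) r := by
    have h1 := (hx8.sub ((hk.pow 2).mul_const (ell ^ 2))).div hden hD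
    refine (h1.congr_deriv ?_).congr_of_eventuallyEq ?_
    · congr 1
      norm_num
    · filter_upwards [hnhds] with x hx
      exact InitA_cosf h hx
  have e1 := hS1.unique hS2
  have e2 := hC1.unique hC2
  have e3 : dr R.f 0 r = Real.cos (R.f 0 r) * (Real.cos (R.f 0 r) * dr R.f 0 r) -
      Real.sin (R.f 0 r) * (-Real.sin (R.f 0 r) * dr R.f 0 r) := by
    have := Real.sin_sq_add_cos_sq (R.f 0 r)
    linear_combination (-dr R.f 0 r) * this
  rw [e1, e2] at e3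
  rw [InitA_w0 R hr.ne', e3, InitA_sinf h hr.le, InitA_cosf h hr.le]
  have e4 := InitA_alg (k' := 2 * r * deriv kap (r ^ 2)) hr.ne' hD
  rw [e4]
  unfold InitA_G
  ring

theorem InitA_G_smooth {l r : ℝ} (hr : 0 < r) :
    ContDiffAt ℝ 1 (fun p : ℝ × ℝ => InitA_G p.1 p.2) (l, r) := by
  have hk : ContDiff ℝ 1 kap := kap_smooth.of_le (by simp)
  have hkd : ContDiff ℝ 1 (deriv kap) := ((contDiff_infty_iff_deriv.1 kap_smooth).2).of_le (by simp)
  unfold InitA_G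
  refine ContDiffAt.div ?_ ?_ (InitA_Dpos hr).ne'
  · exact (ContDiff.mul (by fun_prop) (hkd.comp (by fun_prop))).contDiffAt
  · refine ContDiff.contDiffAt ?_
    exact ContDiff.add (by fun_prop) (ContDiff.mul ((hk.comp (by fun_prop)).pow 2) (by fun_prop))

theorem InitA_kd_small {ρ : ℝ} (h : ρ < R00 ^ 2 / 2) : deriv kap ρ = 0 := by
  have h1 : kap =ᶠ[nhds ρ] fun _ => 1 := by
    filter_upwards [gt_mem_nhds h] with x hx
    exact kap_one (le_of_lt hx)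
  rw [h1.deriv_eq]
  simp

theorem InitA_kd_large {ρ : ℝ} (h : R00 ^ 2 < ρ) : deriv kap ρ = 0 := by
  have h1 : kap =ᶠ[nhds ρ] fun _ => 0 := by
    filter_upwards [lt_mem_nhds h] with x hx
    exact kap_zero (le_of_lt hx)
  rw [h1.deriv_eq]
  simp

theorem InitA_w_small (h : RadInit R om0 ell) {r : ℝ} (hr : 0 < r) (hr2 : r < 1 / 2900) :
    R.w 0 r = 0 := by
  rw [InitA_wG h hr]
  unfold InitA_G
  rw [InitA_kd_small]
  · simp
  · have : r ^ 2 < (1 / 2900) ^ 2 := by gcongr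
    unfold R00
    norm_num at this ⊢
    linarith

theorem InitA_w_large (h : RadInit R om0 ell) {r : ℝ} (hr2 : 1 / 1500 < r) :
    R.w 0 r = 0 := by
  have hr : 0 < r := by
    have : (0 : ℝ) < 1 / 1500 := by norm_num
    linarith
  rw [InitA_wG h hr]
  unfold InitA_G
  rw [InitA_kd_large]
  · simp
  · have : (1 / 1500 : ℝ) ^ 2 < r ^ 2 := by gcongr
    unfold R00
    norm_num at this ⊢
    linarith

theorem InitA_closure {F : ℝ → ℝ} (hF : Continuous F) (h : ∀ r, 0 < r → r < 1 / 2900 → F r = 0) :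
    ∀ r, 0 ≤ r → r ≤ 1 / 3000 → F r = 0 := by
  intro r h0 h1
  have h2 : EqOn F (fun _ => 0) (Ioo 0 (1 / 2900)) := fun x hx => h x hx.1 hx.2
  have h3 := h2.closure hF continuous_const
  rw [closure_Ioo (by norm_num)] at h3
  exact h3 ⟨h0, h1.trans (by norm_num)⟩

/-- `w(0,·)` is `O(ell)` with two derivatives, supported away from `0`;
the constant does not depend on `R, om0, ell` -/
theorem init_w : ∃ C, 0 < C ∧ ∀ (T om0 ell : ℝ) (R : Rad T R00), 0 < ell → ell ≤ 1 →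
    RadInit R om0 ell → ∀ r, 0 ≤ r →
      |R.w 0 r| ≤ C * ell ∧ |dr R.w 0 r| ≤ C * ell ∧ |R.w1 0 r| ≤ C * ell ∧
      (r ≤ 1 / 3000 → R.w 0 r = 0 ∧ dr R.w 0 r = 0) := by
  have hK : IsCompact (Icc (0 : ℝ) 1 ×ˢ Icc (1 / 3000 : ℝ) (1 / 1000)) :=
    isCompact_Icc.prod isCompact_Icc
  have hpos : ∀ p ∈ Icc (0 : ℝ) 1 ×ˢ Icc (1 / 3000 : ℝ) (1 / 1000), 0 < p.2 := by
    intro p hp
    have h1 := hp.2.1
    have h2 : (0 : ℝ) < 1 / 3000 := by norm_num
    linarith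
  have hc1 : ContinuousOn (fun p : ℝ × ℝ => InitA_G p.1 p.2)
      (Icc (0 : ℝ) 1 ×ˢ Icc (1 / 3000 : ℝ) (1 / 1000)) := fun p hp =>
    (InitA_G_smooth (hpos p hp)).continuousAt.continuousWithinAt
  have hc2 : ContinuousOn (fun p : ℝ × ℝ => fderiv ℝ (fun p : ℝ × ℝ => InitA_G p.1 p.2) p (0, 1))
      (Icc (0 : ℝ) 1 ×ˢ Icc (1 / 3000 : ℝ) (1 / 1000)) := by
    intro p hp
    have h1 : ContinuousAt (fderiv ℝ (fun p : ℝ × ℝ => InitA_G p.1 p.2)) p :=
      (InitA_G_smooth (l := p.1) (hpos p hp)).continuousAt_fderiv (by norm_num)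
    exact (h1.clm_apply continuousAt_const).continuousWithinAt
  obtain ⟨C1, hC1⟩ := hK.exists_bound_of_continuousOn hc1
  obtain ⟨C2, hC2⟩ := hK.exists_bound_of_continuousOn hc2
  have hmem : ((0 : ℝ), (1 / 3000 : ℝ)) ∈ Icc (0 : ℝ) 1 ×ˢ Icc (1 / 3000 : ℝ) (1 / 1000) := by
    constructor <;> constructor <;> norm_num
  have hC10 : 0 ≤ C1 := (norm_nonneg _).trans (hC1 _ hmem)
  have hC20 : 0 ≤ C2 := (norm_nonneg _).trans (hC2 _ hmem)
  refine ⟨3000 * C1 + C2 + 1, by positivity, ?_⟩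
  intro T om0 ell R hl hl1 h r hr
  have hw := InitA_w_smooth R
  -- vanishing near the origin
  have ha1 : ∀ r, 0 ≤ r → r ≤ 1 / 3000 → R.w 0 r = 0 :=
    InitA_closure (hw.cont_r 0) fun r h1 h2 => InitA_w_small h h1 h2
  have ha2 : ∀ r, 0 ≤ r → r ≤ 1 / 3000 → dr R.w 0 r = 0 := by
    refine InitA_closure (hw.dr.cont_r 0) fun r h1 h2 => ?_
    have h3 : (fun x => R.w 0 x) =ᶠ[nhds r] fun _ => 0 := by
      filter_upwards [lt_mem_nhds h1, gt_mem_nhds h2] with x hx1 hx2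
      exact InitA_w_small h hx1 hx2
    unfold dr
    rw [h3.deriv_eq]
    simp
  have hw00 : R.w 0 0 = 0 := ha1 0 le_rfl (by norm_num)
  have hw1 : ∀ r, r * R.w1 0 r = R.w 0 r := fun r => mul_Q hw hw00 r
  have ha3 : ∀ r, 0 ≤ r → r ≤ 1 / 3000 → R.w1 0 r = 0 := by
    refine InitA_closure (hw.Q.cont_r 0) fun r h1 h2 => ?_
    have h3 := hw1 r
    rw [InitA_w_small h h1 h2] at h3
    exact (mul_eq_zero.1 h3).resolve_left h1.ne'
  have hCell : 0 ≤ (3000 * C1 + C2 + 1) * ell := by positivity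
  rcases le_or_gt r (1 / 3000) with hr1 | hr1
  · rw [ha1 r hr hr1, ha2 r hr hr1, ha3 r hr hr1, abs_zero]
    exact ⟨hCell, hCell, hCell, fun _ => ⟨rfl, rfl⟩⟩
  have hr0 : 0 < r := lt_trans (by norm_num) hr1
  rcases le_or_gt r (1 / 1000) with hr2 | hr2
  · have hm : (ell, r) ∈ Icc (0 : ℝ) 1 ×ˢ Icc (1 / 3000 : ℝ) (1 / 1000) :=
      ⟨⟨hl.le, hl1⟩, ⟨hr1.le, hr2⟩⟩
    have b1 := hC1 _ hm
    have b2 := hC2 _ hm
    rw [Real.norm_eq_abs] at b1 b2
    simp only at b1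
    have e1 : R.w 0 r = ell * InitA_G ell r := InitA_wG h hr0
    have e2 : dr R.w 0 r =
        ell * fderiv ℝ (fun p : ℝ × ℝ => InitA_G p.1 p.2) (ell, r) (0, 1) := by
      have h3 : (fun x => R.w 0 x) =ᶠ[nhds r] fun x => ell * InitA_G ell x := by
        filter_upwards [lt_mem_nhds hr0] with x hx1
        exact InitA_wG h hx1
      unfold dr
      rw [h3.deriv_eq]
      have h4 : HasFDerivAt (fun p : ℝ × ℝ => InitA_G p.1 p.2)
          (fderiv ℝ (fun p : ℝ × ℝ => InitA_G p.1 p.2) (ell, r)) (ell, r) :=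
        ((InitA_G_smooth hr0).differentiableAt (by norm_num)).hasFDerivAt
      have h5 : HasDerivAt (fun x : ℝ => (ell, x)) ((0 : ℝ), (1 : ℝ)) r :=
        (hasDerivAt_const _ _).prodMk (hasDerivAt_id r)
      exact ((h4.comp_hasDerivAt r h5).const_mul ell).deriv
    have f1 : |R.w 0 r| ≤ C1 * ell := by
      rw [e1, abs_mul, abs_of_pos hl, mul_comm]
      gcongr
    have f2 : |dr R.w 0 r| ≤ C2 * ell := by
      rw [e2, abs_mul, abs_of_pos hl, mul_comm]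
      gcongr
    have f3 : |R.w1 0 r| ≤ 3000 * (C1 * ell) := by
      have h3 := hw1 r
      have h4 : |r| * |R.w1 0 r| ≤ C1 * ell := by
        rw [← abs_mul, h3]
        exact f1
      rw [abs_of_pos hr0] at h4
      have h5 : (1 / 3000 : ℝ) * |R.w1 0 r| ≤ r * |R.w1 0 r| := by gcongr
      linarith
    have g1 : 0 ≤ C1 * ell := by positivity
    have g2 : 0 ≤ C2 * ell := by positivity
    refine ⟨?_, ?_, ?_, fun hcon => absurd hr1 (not_lt.2 hcon)⟩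
    · linarith
    · linarith
    · linarith
  · have hr3 : 1 / 1500 < r := lt_trans (by norm_num) hr2
    have e1 : R.w 0 r = 0 := InitA_w_large h hr3
    have e2 : dr R.w 0 r = 0 := by
      have h3 : (fun x => R.w 0 x) =ᶠ[nhds r] fun _ => 0 := by
        filter_upwards [lt_mem_nhds hr3] with x hx1
        exact InitA_w_large h hx1
      unfold dr
      rw [h3.deriv_eq]
      simp
    have e3 : R.w1 0 r = 0 := by
      have h3 := hw1 r
      rw [e1] at h3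
      exact (mul_eq_zero.1 h3).resolve_left hr0.ne'
    rw [e1, e2, e3, abs_zero]
    exact ⟨hCell, hCell, hCell, fun _ => ⟨rfl, rfl⟩⟩

theorem init_sin (h : RadInit R om0 ell) (hl : 0 < ell) : ∀ r, 0 < r →
    |Real.sin (R.f 0 r)| ≤ 2 * ell / r ^ 4 ∧
    1 - Real.cos (R.f 0 r) ≤ 2 * ell ^ 2 / r ^ 8 ∧
    (r ≤ 1 / 3000 → |Real.sin (R.f 0 r)| ≤ 2 * r ^ 4 / ell) ∧
    (r ≤ 1 / 3000 → Real.cos (R.f 0 r) = (r ^ 8 - ell ^ 2) / (r ^ 8 + ell ^ 2)) := by
  intro r hr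
  have hk0 := kap_nonneg (r ^ 2)
  have hk1 := kap_le_one (r ^ 2)
  have hs := InitA_sinf h hr.le
  have hc := InitA_cosf h hr.le
  have hD : 0 < r ^ 8 + kap (r ^ 2) ^ 2 * ell ^ 2 := InitA_Dpos hr
  have habs : |Real.sin (R.f 0 r)| =
      2 * kap (r ^ 2) * ell * r ^ 4 / (r ^ 8 + kap (r ^ 2) ^ 2 * ell ^ 2) := by
    rw [hs, abs_of_nonneg]
    positivity
  have hkone : r ≤ 1 / 3000 → kap (r ^ 2) = 1 := by
    intro h1
    apply kap_one
    have : r ^ 2 ≤ (1 / 3000) ^ 2 := by gcongr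
    unfold R00
    norm_num at this ⊢
    linarith
  have h8 : 0 < r ^ 8 := by positivity
  have h4 : 0 < r ^ 4 := by positivity
  refine ⟨?_, ?_, ?_, ?_⟩
  · rw [habs, div_le_div_iff₀ hD h4]
    have h1 : 2 * kap (r ^ 2) * ell * r ^ 4 * r ^ 4 ≤ 2 * 1 * ell * r ^ 4 * r ^ 4 := by gcongr
    have h2 : 0 ≤ 2 * ell * (kap (r ^ 2) ^ 2 * ell ^ 2) := by positivity
    nlinarith
  · have h1 : 1 - Real.cos (R.f 0 r) =
        2 * kap (r ^ 2) ^ 2 * ell ^ 2 / (r ^ 8 + kap (r ^ 2) ^ 2 * ell ^ 2) := by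
      rw [hc]
      field_simp
      ring
    rw [h1, div_le_div_iff₀ hD h8]
    have h2 : kap (r ^ 2) ^ 2 ≤ 1 := by nlinarith
    have h3 : 2 * kap (r ^ 2) ^ 2 * ell ^ 2 * r ^ 8 ≤ 2 * 1 * ell ^ 2 * r ^ 8 := by gcongr
    have h5 : 0 ≤ 2 * ell ^ 2 * (kap (r ^ 2) ^ 2 * ell ^ 2) := by positivity
    nlinarith
  · intro h1
    rw [habs, hkone h1]
    rw [hkone h1] at hD
    rw [div_le_div_iff₀ hD hl]
    have h2 : 0 ≤ 2 * r ^ 4 * r ^ 8 := by positivity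
    nlinarith
  · intro h1
    rw [hc, hkone h1]
    ring

end H72GS

end S_InitA

section S_InitB1

/-!
# InitB1: energies and size of the soliton at time `0`

`ell = (b0/om0)⁴ = lam⁴`, `b0 = 10⁻²³`, `lam = b0/om0`, `T = 6/(5 om0)`, `R1 = R00 + T ≤ 1/1000`.
* `int_sin`: `|sin f| ≤ 1`, `|sin f| ≤ 2 lam⁴/r⁴`: `∫ r sin² ≤ lam²/2 + 4 lam⁸ ∫_lam^∞ r⁻⁷
  = (1/2 + 2/3) lam²` (compare with an explicit antiderivative on `[lam, R1]`).
* `int_y`: `0 ≤ 1 - cos f ≤ 2`, `≤ 2 lam⁸/r⁸`: `∫ r (1 - cos f)² ≤ 2 lam² + (4/14) lam²`.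
* `int_s4`: `∫ sin⁴/r ≤ ∫_0^lam 16 r^15/lam^16 + ∫_lam^∞ 16 lam^16/r^17 = 2`; write it as
  `∫ r s1² sin²`, `s1 = sin f / r` (`mul_Q`).
* `En(0) = ∫ r (16 om0² sin² + w² + (1-cos f)²) ≤ 20 b0² + 3 lam² + C² ell² ≤ 10⁻⁴⁴`
  (`|w| ≤ C ell`, `init_w`); `om0` large.
* `P = -4 om0 N` since `g = -4 om0 sin f`.
* `N ≥ lam²/16`: `exists_lam` gives `l` with `f(l) = π/2`, so `cos f(l) = 0`, `l⁸ = kap² ell² ≤ ell²`,
  `l ≤ lam ≤ 1/3000`, so `kap = 1` and `l = lam`; `N_lo`.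
* `Ey(0) ≤ 100`: `y_t = -4 om0 sin²`, `∫ r 16 om0² sin⁴ ≤ 20 b0²`;
  `y_r = sin (w - 4 sin/r)`: `∫ r y_r² ≤ 2 ∫ r w² + 32 ∫ sin⁴/r ≤ 65`; `∫ r sin² y² ≤ 4 ∫ r sin²`.
-/

namespace H72GS

open Set MeasureTheory

/-- `b0` -/
noncomputable def b00 : ℝ := 1 / 10 ^ 23

private lemma InitB1_split {F G G' A A' : ℝ → ℝ} {lam R1 : ℝ} (hF : Continuous F) (h0 : 0 < lam)
    (h1 : lam ≤ R1) (ha : ∀ r ∈ Icc 0 lam, F r ≤ A' r) (hA'c : Continuous A')
    (hA : ∀ r, HasDerivAt A (A' r) r)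
    (hb : ∀ r ∈ Icc lam R1, F r ≤ G' r) (hG'c : ContinuousOn G' (Icc lam R1))
    (hG : ∀ r ∈ Icc lam R1, HasDerivAt G (G' r) r) :
    ∫ r in (0 : ℝ)..R1, F r ≤ (A lam - A 0) + (G R1 - G lam) := by
  have hi : ∀ a b, IntervalIntegrable F volume a b := fun a b => hF.intervalIntegrable a b
  have e1 : ∫ r in (0:ℝ)..R1, F r = (∫ r in (0:ℝ)..lam, F r) + (∫ r in lam..R1, F r) := by
    rw [intervalIntegral.integral_add_adjacent_intervals (hi _ _) (hi _ _)]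
  have i1 : ∫ r in (0:ℝ)..lam, F r ≤ A lam - A 0 := by
    have : ∫ r in (0:ℝ)..lam, F r ≤ ∫ r in (0:ℝ)..lam, A' r :=
      intervalIntegral.integral_mono_on h0.le (hi _ _) (hA'c.intervalIntegrable _ _) ha
    refine this.trans (le_of_eq ?_)
    exact intervalIntegral.integral_eq_sub_of_hasDerivAt (fun r _ => hA r)
      (hA'c.intervalIntegrable _ _)
  have hG'i : IntervalIntegrable G' volume lam R1 := by
    apply ContinuousOn.intervalIntegrable
    rw [uIcc_of_le h1]; exact hG'c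
  have i2 : ∫ r in lam..R1, F r ≤ G R1 - G lam := by
    have : ∫ r in lam..R1, F r ≤ ∫ r in lam..R1, G' r :=
      intervalIntegral.integral_mono_on h1 (hi _ _) hG'i hb
    refine this.trans (le_of_eq ?_)
    apply intervalIntegral.integral_eq_sub_of_hasDerivAt _ hG'i
    intro r hr
    rw [uIcc_of_le h1] at hr
    exact hG r hr
  rw [e1]; linarith

private lemma InitB1_int {S : ℝ → ℝ} {lam R1 A : ℝ} (hS : Continuous S) (h0 : 0 < lam)
    (h1 : lam ≤ R1) (ha : ∀ r ∈ Icc 0 lam, S r ^ 2 ≤ A)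
    (hb : ∀ r, 0 < r → S r ^ 2 ≤ 4 * lam ^ 8 / r ^ 8) :
    ∫ r in (0 : ℝ)..R1, r * S r ^ 2 ≤ (A / 2 + 2 / 3) * lam ^ 2 := by
  have key := InitB1_split (F := fun r => r * S r ^ 2) (A' := fun r => A * r)
    (A := fun r => A * (r ^ 2 / 2)) (G' := fun r => 4 * lam ^ 8 / r ^ 7)
    (G := fun r => -(2 / 3) * lam ^ 8 / r ^ 6) (by fun_prop) h0 h1 ?_ (by fun_prop) ?_ ?_ ?_ ?_
  · refine key.trans ?_
    have hR : 0 < R1 := lt_of_lt_of_le h0 h1
    have e1 : -(2 / 3) * lam ^ 8 / lam ^ 6 = -(2 / 3) * lam ^ 2 := by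
      field_simp
    have e2 : -(2 / 3) * lam ^ 8 / R1 ^ 6 ≤ 0 := by
      have : 0 ≤ (2 / 3) * lam ^ 8 / R1 ^ 6 := by positivity
      have h' : -(2 / 3) * lam ^ 8 / R1 ^ 6 = -((2 / 3) * lam ^ 8 / R1 ^ 6) := by ring
      linarith
    rw [e1]
    nlinarith
  · intro r hr
    have := mul_le_mul_of_nonneg_left (ha r hr) hr.1
    linarith
  · intro r
    have d2 : HasDerivAt (fun r : ℝ => r ^ 2) (2 * r) r := by
      simpa using hasDerivAt_pow 2 r
    refine ((d2.div_const 2).const_mul A).congr_deriv ?_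
    ring
  · intro r hr
    have hr0 : 0 < r := lt_of_lt_of_le h0 hr.1
    calc r * S r ^ 2 ≤ r * (4 * lam ^ 8 / r ^ 8) := mul_le_mul_of_nonneg_left (hb r hr0) hr0.le
      _ = 4 * lam ^ 8 / r ^ 7 := by field_simp
  · intro r hr
    have hr0 : 0 < r := lt_of_lt_of_le h0 hr.1
    apply ContinuousAt.continuousWithinAt
    have : r ^ 7 ≠ 0 := (pow_pos hr0 7).ne'
    fun_prop (disch := assumption)
  · intro r hr
    have hr0 : 0 < r := lt_of_lt_of_le h0 hr.1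
    have d1 : HasDerivAt (fun r : ℝ => r ^ 6) (6 * r ^ 5) r := by
      simpa using hasDerivAt_pow 6 r
    refine ((hasDerivAt_const r (-(2 / 3) * lam ^ 8)).div d1 (pow_pos hr0 6).ne').congr_deriv ?_
    field_simp
    ring

private lemma InitB1_s1 {S : ℝ → ℝ} {lam R1 : ℝ} (hS : Continuous S) (h0 : 0 < lam)
    (h1 : lam ≤ R1) (ha : ∀ r ∈ Icc 0 lam, r * S r ^ 2 ≤ 4 * r ^ 7 / lam ^ 8)
    (hb : ∀ r ∈ Icc lam R1, r * S r ^ 2 ≤ 4 * lam ^ 8 / r ^ 9) :
    ∫ r in (0 : ℝ)..R1, r * S r ^ 2 ≤ 1 := by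
  have key := InitB1_split (F := fun r => r * S r ^ 2) (A' := fun r => 4 * r ^ 7 / lam ^ 8)
    (A := fun r => r ^ 8 / (2 * lam ^ 8)) (G' := fun r => 4 * lam ^ 8 / r ^ 9)
    (G := fun r => -(1 / 2) * lam ^ 8 / r ^ 8) (by fun_prop) h0 h1 ha (by fun_prop) ?_ hb ?_ ?_
  · refine key.trans ?_
    have hR : 0 < R1 := lt_of_lt_of_le h0 h1
    have e1 : -(1 / 2) * lam ^ 8 / lam ^ 8 = -(1 / 2) := by
      field_simp
    have e2 : -(1 / 2) * lam ^ 8 / R1 ^ 8 ≤ 0 := by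
      have : 0 ≤ (1 / 2) * lam ^ 8 / R1 ^ 8 := by positivity
      have h' : -(1 / 2) * lam ^ 8 / R1 ^ 8 = -((1 / 2) * lam ^ 8 / R1 ^ 8) := by ring
      linarith
    have e3 : lam ^ 8 / (2 * lam ^ 8) = 1 / 2 := by
      field_simp
    have e4 : (0 : ℝ) ^ 8 / (2 * lam ^ 8) = 0 := by simp
    rw [e1, e3, e4]
    linarith
  · intro r
    have d2 : HasDerivAt (fun r : ℝ => r ^ 8) (8 * r ^ 7) r := by
      simpa using hasDerivAt_pow 8 r
    refine (d2.div_const (2 * lam ^ 8)).congr_deriv ?_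
    field_simp
    ring
  · intro r hr
    have hr0 : 0 < r := lt_of_lt_of_le h0 hr.1
    apply ContinuousAt.continuousWithinAt
    have : r ^ 9 ≠ 0 := (pow_pos hr0 9).ne'
    fun_prop (disch := assumption)
  · intro r hr
    have hr0 : 0 < r := lt_of_lt_of_le h0 hr.1
    have d1 : HasDerivAt (fun r : ℝ => r ^ 8) (8 * r ^ 7) r := by
      simpa using hasDerivAt_pow 8 r
    refine ((hasDerivAt_const r (-(1 / 2) * lam ^ 8)).div d1 (pow_pos hr0 8).ne').congr_deriv ?_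
    field_simp
    ring

theorem init_ENP : ∃ Ω : ℝ, 10 ^ 60 < Ω ∧ ∀ om0, Ω ≤ om0 → ∀ R : Rad (6 / (5 * om0)) R00,
    RadInit R om0 ((b00 / om0) ^ 4) →
    (R.pre 0).En (R00 + 6 / (5 * om0)) ≤ eps ^ 2 ∧
    (R.pre 0).P (R00 + 6 / (5 * om0)) = -4 * om0 * (R.pre 0).N (R00 + 6 / (5 * om0)) ∧
    (b00 / om0) ^ 2 / 16 ≤ (R.pre 0).N (R00 + 6 / (5 * om0)) ∧
    (R.pre 0).Ey (R00 + 6 / (5 * om0)) ≤ 100 := by
  obtain ⟨C, hC, hCw⟩ := init_w
  refine ⟨max (10 ^ 61) C, lt_of_lt_of_le (by norm_num) (le_max_left _ _), ?_⟩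
  intro om0 hom R hI
  have hom1 : (10 : ℝ) ^ 61 ≤ om0 := le_trans (le_max_left _ _) hom
  have homC : C ≤ om0 := le_trans (le_max_right _ _) hom
  have hom0 : 0 < om0 := lt_of_lt_of_le (by norm_num) hom1
  have hb0 : (0 : ℝ) < b00 := by unfold b00; norm_num
  have homl : om0 * (b00 / om0) = b00 := by field_simp
  set lam := b00 / om0 with hlam
  have hl0 : 0 < lam := by positivity
  have hlsm : lam ≤ b00 / 10 ^ 61 := by
    rw [hlam]
    exact div_le_div_of_nonneg_left hb0.le (by norm_num) hom1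
  have hb_val : b00 = 1 / 10 ^ 23 := rfl
  have hl80 : lam ≤ 1 / 10 ^ 80 := by
    refine hlsm.trans ?_
    rw [hb_val]; norm_num
  have hl3000 : lam ≤ 1 / 6000 := by
    refine hl80.trans ?_
    norm_num
  have hTpos : 0 < 6 / (5 * om0) := by positivity
  have hTle : 6 / (5 * om0) ≤ 1 / 10 ^ 60 := by
    rw [div_le_div_iff₀ (by positivity) (by norm_num)]
    linarith
  have hR00 : R00 = 1 / 2000 := rfl
  obtain ⟨R1, hR1def⟩ : ∃ R1, R1 = R00 + 6 / (5 * om0) := ⟨_, rfl⟩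
  have hR1le : R00 + 6 / (5 * om0) ≤ 1 / 1000 := by
    rw [hR00]
    have : (1 : ℝ) / 10 ^ 60 ≤ 1 / 2000 := by norm_num
    linarith
  have hR1ge : 1 / 10 ^ 50 ≤ R00 + 6 / (5 * om0) := by
    rw [hR00]
    have : (1 : ℝ) / 10 ^ 50 ≤ 1 / 2000 := by norm_num
    linarith
  have hs : IsSlice (R00 + 6 / (5 * om0)) (R.pre 0) :=
    R.isSlice hR1le hR1ge ⟨le_rfl, hTpos.le⟩
  rw [← hR1def] at hs hR1le hR1ge ⊢
  have hlR : lam ≤ R1 := by
    rw [hR1def, hR00]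
    linarith
  have hR1pos : 0 < R1 := hs.R1pos
  -- ell
  have hell0 : 0 < lam ^ 4 := by positivity
  have hell1 : lam ^ 4 ≤ 1 := pow_le_one₀ hl0.le (by linarith)
  have hw := hCw _ om0 (lam ^ 4) R hell0 hell1 hI
  have hsin := init_sin hI hell0
  obtain ⟨hal, he, hy, hwt, hyt, hyr⟩ := init_simple hI
  have hCl : C * lam ^ 4 ≤ 1 / 10 ^ 40 := by
    have h1 : C * lam ≤ b00 := by
      calc C * lam ≤ om0 * lam := mul_le_mul_of_nonneg_right homC hl0.le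
        _ = b00 := homl
    have h2 : lam ^ 3 ≤ lam := by
      have : lam ^ 3 = lam * lam ^ 2 := by ring
      rw [this]
      have : lam ^ 2 ≤ 1 := pow_le_one₀ hl0.le (by linarith)
      nlinarith
    calc C * lam ^ 4 = (C * lam) * lam ^ 3 := by ring
      _ ≤ b00 * lam := mul_le_mul h1 h2 (by positivity) hb0.le
      _ ≤ b00 * (1 / 10 ^ 80) := mul_le_mul_of_nonneg_left hl80 hb0.le
      _ ≤ 1 / 10 ^ 40 := by rw [hb_val]; norm_num
  have hCl0 : 0 ≤ C * lam ^ 4 := by positivity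
  -- continuity
  have cf : Continuous (R.f 0) := hs.cf
  have cw : Continuous (R.w 0) := hs.cw
  have cg : Continuous (R.g 0) := hs.cg
  have ce : Continuous (R.e 0) := hs.ce
  have cy : Continuous (R.y 0) := hs.cy
  have cyt : Continuous (dt R.y 0) := hs.cyt
  have cyr : Continuous (dr R.y 0) := hs.cyr
  have cs1 : Continuous (R.S1 0) := hs.cs1
  -- sine integrals
  have hsin2 : ∀ r, 0 < r → Real.sin (R.f 0 r) ^ 2 ≤ 4 * lam ^ 8 / r ^ 8 := by
    intro r hr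
    have h1 := (hsin r hr).1
    have h2 : |Real.sin (R.f 0 r)| ^ 2 ≤ (2 * lam ^ 4 / r ^ 4) ^ 2 :=
      pow_le_pow_left₀ (abs_nonneg _) h1 2
    rw [sq_abs] at h2
    refine h2.trans (le_of_eq ?_)
    rw [div_pow]
    ring
  have I1 : ∫ r in (0 : ℝ)..R1, r * Real.sin (R.f 0 r) ^ 2 ≤ (1 / 2 + 2 / 3) * lam ^ 2 :=
    InitB1_int (S := fun r => Real.sin (R.f 0 r)) (by fun_prop) hl0 hlR
      (fun r _ => Real.sin_sq_le_one _) hsin2
  have I2 : ∫ r in (0 : ℝ)..R1, r * (1 - Real.cos (R.f 0 r)) ^ 2 ≤ (4 / 2 + 2 / 3) * lam ^ 2 := by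
    refine InitB1_int (S := fun r => 1 - Real.cos (R.f 0 r)) (by fun_prop) hl0 hlR ?_ ?_
    · intro r _
      nlinarith [Real.neg_one_le_cos (R.f 0 r), Real.cos_le_one (R.f 0 r)]
    · intro r hr
      have h1 := (hsin r hr).2.1
      have h2 : (1 - Real.cos (R.f 0 r)) ^ 2 ≤ 2 * (1 - Real.cos (R.f 0 r)) := by
        nlinarith [Real.neg_one_le_cos (R.f 0 r), Real.cos_le_one (R.f 0 r)]
      calc (1 - Real.cos (R.f 0 r)) ^ 2 ≤ 2 * (1 - Real.cos (R.f 0 r)) := h2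
        _ ≤ 2 * (2 * (lam ^ 4) ^ 2 / r ^ 8) := by linarith
        _ = 4 * lam ^ 8 / r ^ 8 := by ring
  have I3 : ∫ r in (0 : ℝ)..R1, r * R.S1 0 r ^ 2 ≤ 1 := by
    refine InitB1_s1 cs1 hl0 hlR ?_ ?_
    · intro r hr
      rcases eq_or_lt_of_le hr.1 with h | h
      · rw [← h]; simp
      · have h1 := (hsin r h).2.2.1 (by linarith [hr.2])
        have h2 : |Real.sin (R.f 0 r)| ^ 2 ≤ (2 * r ^ 4 / lam ^ 4) ^ 2 :=
          pow_le_pow_left₀ (abs_nonneg _) h1 2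
        rw [sq_abs] at h2
        have h3 : Real.sin (R.f 0 r) = r * R.S1 0 r := (R.r_S1 0 r).symm
        rw [h3] at h2
        have h4 : r * R.S1 0 r ^ 2 = (r * R.S1 0 r) ^ 2 / r := by field_simp
        rw [h4, div_le_iff₀ h]
        refine h2.trans (le_of_eq ?_)
        field_simp
        ring
    · intro r hr
      have h : 0 < r := lt_of_lt_of_le hl0 hr.1
      have h2 := hsin2 r h
      have h3 : Real.sin (R.f 0 r) = r * R.S1 0 r := (R.r_S1 0 r).symm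
      rw [h3] at h2
      have h4 : r * R.S1 0 r ^ 2 = (r * R.S1 0 r) ^ 2 / r := by field_simp
      rw [h4, div_le_iff₀ h]
      refine h2.trans (le_of_eq ?_)
      field_simp
  have hw2 : ∀ r, 0 ≤ r → R.w 0 r ^ 2 ≤ (C * lam ^ 4) ^ 2 := by
    intro r hr
    rw [← sq_abs]
    exact pow_le_pow_left₀ (abs_nonneg _) (hw r hr).1 2
  -- energy
  have hEn : (R.pre 0).En R1 ≤ eps ^ 2 := by
    have step : (R.pre 0).En R1 ≤ ∫ r in (0 : ℝ)..R1, ((16 * om0 ^ 2) * (r * Real.sin (R.f 0 r) ^ 2)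
        + (C * lam ^ 4) ^ 2 + r * (1 - Real.cos (R.f 0 r)) ^ 2) := by
      unfold Pre.En
      apply intervalIntegral.integral_mono_on hR1pos.le
      · apply Continuous.intervalIntegrable
        have h1 := hs.cg
        have h2 := hs.ce
        have h3 := hs.cw
        have h4 := hs.cy
        fun_prop
      · apply Continuous.intervalIntegrable
        fun_prop
      · intro r hr
        show r * (R.g 0 r ^ 2 + R.e 0 r ^ 2 + R.w 0 r ^ 2 + R.y 0 r ^ 2) ≤ _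
        rw [hI.hg r, he r, hy r hr.1]
        have h1 := hw2 r hr.1
        have h2 : r * R.w 0 r ^ 2 ≤ 1 * (C * lam ^ 4) ^ 2 :=
          mul_le_mul (by linarith [hr.2]) h1 (sq_nonneg _) zero_le_one
        nlinarith
    have hi1 : IntervalIntegrable (fun r => (16 * om0 ^ 2) * (r * Real.sin (R.f 0 r) ^ 2))
        volume 0 R1 := by
      apply Continuous.intervalIntegrable; fun_prop
    have hi2 : IntervalIntegrable (fun _ : ℝ => (C * lam ^ 4) ^ 2) volume 0 R1 := by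
      apply Continuous.intervalIntegrable; fun_prop
    have hi3 : IntervalIntegrable (fun r => r * (1 - Real.cos (R.f 0 r)) ^ 2) volume 0 R1 := by
      apply Continuous.intervalIntegrable; fun_prop
    rw [intervalIntegral.integral_add (hi1.add hi2) hi3, intervalIntegral.integral_add hi1 hi2,
      intervalIntegral.integral_const_mul, intervalIntegral.integral_const, smul_eq_mul] at step
    have s1 : (16 * om0 ^ 2) * ∫ r in (0 : ℝ)..R1, r * Real.sin (R.f 0 r) ^ 2 ≤ 19 * b00 ^ 2 := by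
      calc (16 * om0 ^ 2) * ∫ r in (0 : ℝ)..R1, r * Real.sin (R.f 0 r) ^ 2
          ≤ (16 * om0 ^ 2) * ((1 / 2 + 2 / 3) * lam ^ 2) :=
            mul_le_mul_of_nonneg_left I1 (by positivity)
        _ = (16 * (1 / 2 + 2 / 3)) * (om0 * lam) ^ 2 := by ring
        _ = (16 * (1 / 2 + 2 / 3)) * b00 ^ 2 := by rw [homl]
        _ ≤ 19 * b00 ^ 2 := by
            apply mul_le_mul_of_nonneg_right _ (sq_nonneg _)
            norm_num
    have s2 : (R1 - 0) * (C * lam ^ 4) ^ 2 ≤ (1 / 10 ^ 40) ^ 2 := by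
      have h1 : (C * lam ^ 4) ^ 2 ≤ (1 / 10 ^ 40) ^ 2 := pow_le_pow_left₀ hCl0 hCl 2
      calc (R1 - 0) * (C * lam ^ 4) ^ 2 ≤ 1 * (1 / 10 ^ 40) ^ 2 :=
            mul_le_mul (by linarith) h1 (sq_nonneg _) zero_le_one
        _ = (1 / 10 ^ 40) ^ 2 := one_mul _
    have s3 : lam ^ 2 ≤ (1 / 10 ^ 80) ^ 2 := pow_le_pow_left₀ hl0.le hl80 2
    have s4 : 19 * b00 ^ 2 + (1 / 10 ^ 40) ^ 2 + (4 / 2 + 2 / 3) * (1 / 10 ^ 80) ^ 2 ≤ eps ^ 2 := by
      rw [hb_val]; unfold eps; norm_num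
    have s5 : (4 / 2 + 2 / 3) * lam ^ 2 ≤ (4 / 2 + 2 / 3) * (1 / 10 ^ 80) ^ 2 :=
      mul_le_mul_of_nonneg_left s3 (by norm_num)
    linarith
  refine ⟨hEn, ?_, ?_, ?_⟩
  · -- momentum
    unfold Pre.P Pre.N
    rw [← intervalIntegral.integral_const_mul]
    congr 1
    funext r
    show r * R.g 0 r * Th (R.f 0 r) = -4 * om0 * (r * Th (R.f 0 r) * Real.sin (R.f 0 r))
    rw [hI.hg r]
    ring
  · -- size
    obtain ⟨l, hl, hlR1, hfl⟩ := exists_lam hs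
    have hfl' : R.f 0 l = Real.pi / 2 := hfl
    have hcos0 : Real.cos (R.f 0 l) = 0 := by rw [hfl']; exact Real.cos_pi_div_two
    have h1 := (hsin l hl).2.1
    rw [hcos0, sub_zero, le_div_iff₀ (by positivity), one_mul] at h1
    have h2 : l ≤ 2 * lam := by
      by_contra hlt
      push Not at hlt
      have h3 : (2 * lam) ^ 8 < l ^ 8 := pow_lt_pow_left₀ hlt (by positivity) (by norm_num)
      have h4 : 0 < lam ^ 8 := by positivity
      have h5 : (2 * lam) ^ 8 = 256 * lam ^ 8 := by ring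
      have h6 : 2 * (lam ^ 4) ^ 2 = 2 * lam ^ 8 := by ring
      linarith
    have h3 := (hsin l hl).2.2.2 (by linarith)
    rw [hcos0] at h3
    have h4 : l ^ 8 = (lam ^ 4) ^ 2 := by
      have h5 : 0 < l ^ 8 + (lam ^ 4) ^ 2 := by positivity
      have h6 : l ^ 8 - (lam ^ 4) ^ 2 = 0 := by
        rcases div_eq_zero_iff.mp h3.symm with h | h
        · exact h
        · exact absurd h h5.ne'
      linarith
    have h5 : l = lam := by
      have h6 : l ^ 8 = lam ^ 8 := by rw [h4]; ring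
      exact (pow_left_inj₀ hl.le hl0.le (by norm_num)).mp h6
    have h6 := N_lo hs hEn hl hlR1 hfl
    rw [h5] at h6
    exact h6
  · -- gauge energy
    have step : (R.pre 0).Ey R1 ≤ ∫ r in (0 : ℝ)..R1, ((8 * om0 ^ 2) * (r * Real.sin (R.f 0 r) ^ 2)
        + (C * lam ^ 4) ^ 2 + 16 * (r * R.S1 0 r ^ 2) + 2 * (r * Real.sin (R.f 0 r) ^ 2)) := by
      unfold Pre.Ey
      apply intervalIntegral.integral_mono_on hR1pos.le
      · apply Continuous.intervalIntegrable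
        have h1 := hs.cyt
        have h2 := hs.cyr
        have h3 := hs.cf
        have h4 := hs.cy
        fun_prop
      · apply Continuous.intervalIntegrable
        fun_prop
      · intro r hr
        show (1 / 2) * r * (dt R.y 0 r ^ 2 + dr R.y 0 r ^ 2
          + Real.sin (R.f 0 r) ^ 2 * R.y 0 r ^ 2) ≤ _
        rcases eq_or_lt_of_le hr.1 with h | h
        · rw [← h]
          simp only [mul_zero, zero_mul, add_zero, zero_add]
          positivity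
        · have hs1 : Real.sin (R.f 0 r) / r = R.S1 0 r := by
            have h9 : r * R.S1 0 r = Real.sin (R.f 0 r) := R.r_S1 0 r
            rw [div_eq_iff h.ne']
            linarith
          have hyr' : dr R.y 0 r = Real.sin (R.f 0 r) * (R.w 0 r - 4 * R.S1 0 r) := by
            rw [hyr r h, mul_div_assoc, hs1]
          rw [hyt r hr.1, hyr', hy r hr.1]
          have hsq : Real.sin (R.f 0 r) ^ 2 ≤ 1 := Real.sin_sq_le_one _
          have hsq0 : 0 ≤ Real.sin (R.f 0 r) ^ 2 := sq_nonneg _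
          have a1 : (-4 * om0 * Real.sin (R.f 0 r) ^ 2) ^ 2
              ≤ 16 * om0 ^ 2 * Real.sin (R.f 0 r) ^ 2 := by
            have : (-4 * om0 * Real.sin (R.f 0 r) ^ 2) ^ 2
              = (16 * om0 ^ 2 * Real.sin (R.f 0 r) ^ 2) * Real.sin (R.f 0 r) ^ 2 := by ring
            rw [this]
            have h5 : 0 ≤ 16 * om0 ^ 2 * Real.sin (R.f 0 r) ^ 2 := by positivity
            nlinarith
          have a2 : (Real.sin (R.f 0 r) * (R.w 0 r - 4 * R.S1 0 r)) ^ 2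
              ≤ 2 * R.w 0 r ^ 2 + 32 * R.S1 0 r ^ 2 := by
            have e : (Real.sin (R.f 0 r) * (R.w 0 r - 4 * R.S1 0 r)) ^ 2
              = Real.sin (R.f 0 r) ^ 2 * (R.w 0 r - 4 * R.S1 0 r) ^ 2 := by ring
            rw [e]
            have h5 : (R.w 0 r - 4 * R.S1 0 r) ^ 2 ≤ 2 * R.w 0 r ^ 2 + 32 * R.S1 0 r ^ 2 := by
              nlinarith [sq_nonneg (R.w 0 r + 4 * R.S1 0 r)]
            have h6 : 0 ≤ (R.w 0 r - 4 * R.S1 0 r) ^ 2 := sq_nonneg _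
            nlinarith
          have a3 : Real.sin (R.f 0 r) ^ 2 * (1 - Real.cos (R.f 0 r)) ^ 2
              ≤ 4 * Real.sin (R.f 0 r) ^ 2 := by
            have h5 : (1 - Real.cos (R.f 0 r)) ^ 2 ≤ 4 := by
              nlinarith [Real.neg_one_le_cos (R.f 0 r), Real.cos_le_one (R.f 0 r)]
            nlinarith
          have a4 : r * R.w 0 r ^ 2 ≤ 1 * (C * lam ^ 4) ^ 2 :=
            mul_le_mul (by linarith [hr.2]) (hw2 r hr.1) (sq_nonneg _) zero_le_one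
          calc (1 / 2) * r * ((-4 * om0 * Real.sin (R.f 0 r) ^ 2) ^ 2
                + (Real.sin (R.f 0 r) * (R.w 0 r - 4 * R.S1 0 r)) ^ 2
                + Real.sin (R.f 0 r) ^ 2 * (1 - Real.cos (R.f 0 r)) ^ 2)
              ≤ (1 / 2) * r * (16 * om0 ^ 2 * Real.sin (R.f 0 r) ^ 2
                + (2 * R.w 0 r ^ 2 + 32 * R.S1 0 r ^ 2) + 4 * Real.sin (R.f 0 r) ^ 2) := by
                apply mul_le_mul_of_nonneg_left _ (by positivity)
                linarith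
            _ = (8 * om0 ^ 2) * (r * Real.sin (R.f 0 r) ^ 2) + r * R.w 0 r ^ 2
                + 16 * (r * R.S1 0 r ^ 2) + 2 * (r * Real.sin (R.f 0 r) ^ 2) := by ring
            _ ≤ _ := by linarith
    have hi1 : IntervalIntegrable (fun r => (8 * om0 ^ 2) * (r * Real.sin (R.f 0 r) ^ 2))
        volume 0 R1 := by
      apply Continuous.intervalIntegrable; fun_prop
    have hi2 : IntervalIntegrable (fun _ : ℝ => (C * lam ^ 4) ^ 2) volume 0 R1 := by
      apply Continuous.intervalIntegrable; fun_prop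
    have hi3 : IntervalIntegrable (fun r => 16 * (r * R.S1 0 r ^ 2)) volume 0 R1 := by
      apply Continuous.intervalIntegrable; fun_prop
    have hi4 : IntervalIntegrable (fun r => 2 * (r * Real.sin (R.f 0 r) ^ 2)) volume 0 R1 := by
      apply Continuous.intervalIntegrable; fun_prop
    rw [intervalIntegral.integral_add ((hi1.add hi2).add hi3) hi4,
      intervalIntegral.integral_add (hi1.add hi2) hi3, intervalIntegral.integral_add hi1 hi2,
      intervalIntegral.integral_const_mul, intervalIntegral.integral_const, smul_eq_mul,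
      intervalIntegral.integral_const_mul, intervalIntegral.integral_const_mul] at step
    have s1 : (8 * om0 ^ 2) * ∫ r in (0 : ℝ)..R1, r * Real.sin (R.f 0 r) ^ 2 ≤ 10 * b00 ^ 2 := by
      calc (8 * om0 ^ 2) * ∫ r in (0 : ℝ)..R1, r * Real.sin (R.f 0 r) ^ 2
          ≤ (8 * om0 ^ 2) * ((1 / 2 + 2 / 3) * lam ^ 2) :=
            mul_le_mul_of_nonneg_left I1 (by positivity)
        _ = (8 * (1 / 2 + 2 / 3)) * (om0 * lam) ^ 2 := by ring
        _ = (8 * (1 / 2 + 2 / 3)) * b00 ^ 2 := by rw [homl]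
        _ ≤ 10 * b00 ^ 2 := by
            apply mul_le_mul_of_nonneg_right _ (sq_nonneg _)
            norm_num
    have s2 : (R1 - 0) * (C * lam ^ 4) ^ 2 ≤ (1 / 10 ^ 40) ^ 2 := by
      have h1 : (C * lam ^ 4) ^ 2 ≤ (1 / 10 ^ 40) ^ 2 := pow_le_pow_left₀ hCl0 hCl 2
      calc (R1 - 0) * (C * lam ^ 4) ^ 2 ≤ 1 * (1 / 10 ^ 40) ^ 2 :=
            mul_le_mul (by linarith) h1 (sq_nonneg _) zero_le_one
        _ = (1 / 10 ^ 40) ^ 2 := one_mul _
    have s3 : lam ^ 2 ≤ 1 := pow_le_one₀ hl0.le (by linarith)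
    have s4 : 10 * b00 ^ 2 + (1 / 10 ^ 40) ^ 2 ≤ 1 := by
      rw [hb_val]; norm_num
    linarith

end H72GS

end S_InitB1

section S_InitB2

/-!
# InitB2: second order quantities at time `0`

`ell = (b0/om0)⁴`, `b0 = 10⁻²³`; `om0 ≥ 10^60`, `ell ≤ 1/om0⁴ ≤ 1`, `R1 = R00 + T ≤ 1`.  With
`|w|, |w_r|, |w1| ≤ C ell`, `|w_t| ≤ 4 om0 C ell`, `|g| ≤ 4 om0`, `al = 0`, `0 ≤ A ≤ 25`:
* `X ≤ (16 om0² + 1 + 26) C² ell² ≤ 50 C²/om0²`;
* `|D| ≤ C ell · 4 · 16 om0² ≤ 64 C/om0²`;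
* `|M| ≤ 4 om0 C ell (C ell + C ell)` (`r²/(r+L) ≤ r`, `r/(2(r+L)) ≤ 1/2`, `L = ep1/om0 > 0`).
-/

namespace H72GS

open Set

theorem InitB2_int {F : ℝ → ℝ} {R1 K : ℝ} (h0 : 0 ≤ R1) (h1 : R1 ≤ 1) (hK : 0 ≤ K)
    (h : ∀ r, 0 ≤ r → r ≤ 1 → |F r| ≤ K) : |∫ r in (0:ℝ)..R1, F r| ≤ K := by
  have h2 := intervalIntegral.norm_integral_le_of_norm_le_const (a := 0) (b := R1) (C := K)
    (f := F) (by
      intro x hx
      rw [uIoc_of_le h0] at hx
      rw [Real.norm_eq_abs]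
      exact h x hx.1.le (hx.2.trans h1))
  rw [Real.norm_eq_abs, sub_zero, abs_of_nonneg h0] at h2
  nlinarith

theorem init_XDM : ∃ C : ℝ, 0 < C ∧ ∀ om0 : ℝ, 10 ^ 60 ≤ om0 → ∀ R : Rad (6 / (5 * om0)) R00,
    RadInit R om0 ((1 / 10 ^ 23 / om0) ^ 4) →
    (R.pre 0).X (R00 + 6 / (5 * om0)) ≤ C / om0 ^ 2 ∧
    |(R.pre 0).D (R00 + 6 / (5 * om0))| ≤ C / om0 ^ 2 ∧
    |(R.pre 0).M (R00 + 6 / (5 * om0)) (ep1 / om0)| ≤ C / om0 ^ 2 := by
  obtain ⟨C, hC, hw⟩ := init_w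
  refine ⟨44 * C ^ 2 + 64 * C + 6 * C ^ 2, by positivity, ?_⟩
  intro om0 hom R hR
  have hom0 : 0 < om0 := lt_of_lt_of_le (by norm_num) hom
  have hom1 : 1 ≤ om0 := le_trans (by norm_num) hom
  set ell : ℝ := (1 / 10 ^ 23 / om0) ^ 4 with hell
  have hell0 : 0 < ell := by positivity
  have hell1 : ell ≤ 1 / om0 ^ 4 := by
    rw [hell, div_pow]
    apply div_le_div_of_nonneg_right _ (by positivity)
    norm_num
  have hell2 : ell ≤ 1 := by
    refine hell1.trans ?_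
    rw [div_le_one (by positivity)]
    exact one_le_pow₀ hom1
  have hR00 : 0 < R00 ∧ R00 ≤ 1 / 2 := by unfold R00; constructor <;> norm_num
  have hT : 6 / (5 * om0) ≤ 1 / 2 := by
    rw [div_le_div_iff₀ (by positivity) (by norm_num)]
    have : (10:ℝ) ≤ 10 ^ 60 := by norm_num
    linarith
  have hT0 : 0 < 6 / (5 * om0) := by positivity
  have hR1 : R00 + 6 / (5 * om0) ≤ 1 := by linarith [hR00.2]
  have hR0 : 0 ≤ R00 + 6 / (5 * om0) := by linarith [hR00.1]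
  obtain ⟨hal, he, hy, hwt, hyt, hyr⟩ := init_simple hR
  have hb := hw _ om0 ell R hell0 hell2 hR
  -- pointwise facts
  have b1 : ∀ r, 0 ≤ r → |R.w 0 r| ≤ C * ell := fun r hr => (hb r hr).1
  have b2 : ∀ r, 0 ≤ r → |dr R.w 0 r| ≤ C * ell := fun r hr => (hb r hr).2.1
  have b3 : ∀ r, 0 ≤ r → |R.w1 0 r| ≤ C * ell := fun r hr => (hb r hr).2.2.1
  have b4 : ∀ r, 0 ≤ r → |dt R.w 0 r| ≤ 4 * om0 * (C * ell) := by
    intro r hr
    rw [hwt r hr, abs_mul, abs_mul, abs_mul, abs_neg, abs_of_pos hom0,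
      abs_of_pos (by norm_num : (0:ℝ) < 4)]
    have h1 := Real.abs_cos_le_one (R.f 0 r)
    have h2 := b1 r hr
    have h3 : |Real.cos (R.f 0 r)| * |R.w 0 r| ≤ 1 * (C * ell) :=
      mul_le_mul h1 h2 (abs_nonneg _) zero_le_one
    calc 4 * om0 * |Real.cos (R.f 0 r)| * |R.w 0 r|
        = 4 * om0 * (|Real.cos (R.f 0 r)| * |R.w 0 r|) := by ring
      _ ≤ 4 * om0 * (1 * (C * ell)) := mul_le_mul_of_nonneg_left h3 (by positivity)
      _ = _ := by ring
  have b5 : ∀ r, |R.g 0 r| ≤ 4 * om0 := by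
    intro r
    rw [hR.hg r, abs_mul, abs_mul, abs_neg, abs_of_pos hom0, abs_of_pos (by norm_num : (0:ℝ) < 4)]
    have := Real.abs_sin_le_one (R.f 0 r)
    nlinarith
  have hq : 0 < C * ell := by positivity
  have hqle : C * ell ≤ C / om0 ^ 4 := by
    rw [div_eq_mul_one_div]
    exact mul_le_mul_of_nonneg_left hell1 hC.le
  -- powers
  have hp1 : om0 ^ 2 * (C * ell) ^ 2 ≤ C ^ 2 / om0 ^ 2 := by
    have h1 : (C * ell) ^ 2 ≤ (C / om0 ^ 4) ^ 2 := by gcongr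
    calc om0 ^ 2 * (C * ell) ^ 2 ≤ om0 ^ 2 * (C / om0 ^ 4) ^ 2 := by gcongr
      _ = C ^ 2 / om0 ^ 6 := by field_simp
      _ ≤ C ^ 2 / om0 ^ 2 := by
          apply div_le_div_of_nonneg_left (by positivity) (by positivity)
          exact pow_le_pow_right₀ hom1 (by norm_num)
  have hp2 : om0 ^ 2 * (C * ell) ≤ C / om0 ^ 2 := by
    calc om0 ^ 2 * (C * ell) ≤ om0 ^ 2 * (C / om0 ^ 4) := by gcongr
      _ = C / om0 ^ 2 := by field_simp
  have hom2 : 1 ≤ om0 ^ 2 := one_le_pow₀ hom1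
  have hom3 : om0 ≤ om0 ^ 2 := by nlinarith
  refine ⟨?_, ?_, ?_⟩
  · refine (le_abs_self _).trans ?_
    have h1 : |(R.pre 0).X (R00 + 6 / (5 * om0))| ≤ 44 * (om0 ^ 2 * (C * ell) ^ 2) := by
      unfold Pre.X
      apply InitB2_int hR0 hR1 (by positivity)
      intro r hr0 hr1
      have a0 : (R.pre 0).a r = 0 := by
        change r * R.al 0 r = 0
        rw [hal r, mul_zero]
      have hA : (R.pre 0).A r = 17 - 8 * Real.cos (R.f 0 r) := by
        unfold Pre.A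
        rw [a0]
        change 1 + (4 + 0) ^ 2 - 2 * (4 + 0) * Real.cos (R.f 0 r) = _
        ring
      rw [hA]
      change |r * (dt R.w 0 r ^ 2 + dr R.w 0 r ^ 2 + (17 - 8 * Real.cos (R.f 0 r)
        + r ^ 2 * (1 - Real.cos (R.f 0 r))) * R.w1 0 r ^ 2)| ≤ _
      have c1 := Real.neg_one_le_cos (R.f 0 r)
      have c2 := Real.cos_le_one (R.f 0 r)
      have r2 : r ^ 2 ≤ 1 := by nlinarith
      have k1 : 0 ≤ 17 - 8 * Real.cos (R.f 0 r) + r ^ 2 * (1 - Real.cos (R.f 0 r)) := by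
        have : 0 ≤ r ^ 2 * (1 - Real.cos (R.f 0 r)) := mul_nonneg (sq_nonneg _) (by linarith)
        linarith
      have k2 : 17 - 8 * Real.cos (R.f 0 r) + r ^ 2 * (1 - Real.cos (R.f 0 r)) ≤ 27 := by
        have : r ^ 2 * (1 - Real.cos (R.f 0 r)) ≤ 1 * 2 :=
          mul_le_mul r2 (by linarith) (by linarith) zero_le_one
        linarith
      have s1 : dt R.w 0 r ^ 2 ≤ (4 * om0 * (C * ell)) ^ 2 := by
        rw [← sq_abs]; have := b4 r hr0; gcongr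
      have s2 : dr R.w 0 r ^ 2 ≤ (C * ell) ^ 2 := by
        rw [← sq_abs]; have := b2 r hr0; gcongr
      have s3 : R.w1 0 r ^ 2 ≤ (C * ell) ^ 2 := by
        rw [← sq_abs]; have := b3 r hr0; gcongr
      have s4 : (17 - 8 * Real.cos (R.f 0 r) + r ^ 2 * (1 - Real.cos (R.f 0 r))) * R.w1 0 r ^ 2
          ≤ 27 * (C * ell) ^ 2 := mul_le_mul k2 s3 (sq_nonneg _) (by norm_num)
      have s5 : 0 ≤ (17 - 8 * Real.cos (R.f 0 r) + r ^ 2 * (1 - Real.cos (R.f 0 r)))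
        * R.w1 0 r ^ 2 := mul_nonneg k1 (sq_nonneg _)
      have s6 : 0 ≤ dt R.w 0 r ^ 2 + dr R.w 0 r ^ 2 + (17 - 8 * Real.cos (R.f 0 r)
        + r ^ 2 * (1 - Real.cos (R.f 0 r))) * R.w1 0 r ^ 2 := by positivity
      rw [abs_of_nonneg (mul_nonneg hr0 s6)]
      have s7 : (C * ell) ^ 2 ≤ om0 ^ 2 * (C * ell) ^ 2 := by
        have : 0 ≤ (C * ell) ^ 2 := sq_nonneg _
        nlinarith
      have s8 : (4 * om0 * (C * ell)) ^ 2 = 16 * (om0 ^ 2 * (C * ell) ^ 2) := by ring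
      have s9 : dt R.w 0 r ^ 2 + dr R.w 0 r ^ 2 + (17 - 8 * Real.cos (R.f 0 r)
        + r ^ 2 * (1 - Real.cos (R.f 0 r))) * R.w1 0 r ^ 2 ≤ 44 * (om0 ^ 2 * (C * ell) ^ 2) := by
        linarith
      calc _ ≤ 1 * (44 * (om0 ^ 2 * (C * ell) ^ 2)) := mul_le_mul hr1 s9 s6 zero_le_one
        _ = _ := one_mul _
    refine h1.trans ?_
    calc 44 * (om0 ^ 2 * (C * ell) ^ 2) ≤ 44 * (C ^ 2 / om0 ^ 2) := by gcongr
      _ = (44 * C ^ 2) / om0 ^ 2 := by ring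
      _ ≤ _ := by
          apply div_le_div_of_nonneg_right _ (by positivity)
          nlinarith [sq_nonneg C]
  · have h1 : |(R.pre 0).D (R00 + 6 / (5 * om0))| ≤ 64 * (om0 ^ 2 * (C * ell)) := by
      unfold Pre.D
      apply InitB2_int hR0 hR1 (by positivity)
      intro r hr0 hr1
      have a0 : (R.pre 0).a r = 0 := by
        change r * R.al 0 r = 0
        rw [hal r, mul_zero]
      rw [a0]
      change |R.w 0 r * (4 + 0) * Real.sin (R.f 0 r) * R.g 0 r ^ 2| ≤ _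
      rw [abs_mul, abs_mul, abs_mul, abs_pow]
      have s1 := b1 r hr0
      have s2 := Real.abs_sin_le_one (R.f 0 r)
      have s3 := b5 r
      have s4 : |(4:ℝ) + 0| = 4 := by norm_num
      rw [s4]
      have s5 : |R.g 0 r| ^ 2 ≤ (4 * om0) ^ 2 := by gcongr
      calc |R.w 0 r| * 4 * |Real.sin (R.f 0 r)| * |R.g 0 r| ^ 2
          ≤ (C * ell) * 4 * 1 * (4 * om0) ^ 2 := by gcongr
        _ = _ := by ring
    refine h1.trans ?_
    calc 64 * (om0 ^ 2 * (C * ell)) ≤ 64 * (C / om0 ^ 2) := by gcongr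
      _ = (64 * C) / om0 ^ 2 := by ring
      _ ≤ _ := by
          apply div_le_div_of_nonneg_right _ (by positivity)
          nlinarith [sq_nonneg C]
  · have h1 : |(R.pre 0).M (R00 + 6 / (5 * om0)) (ep1 / om0)| ≤ 6 * (om0 ^ 2 * (C * ell) ^ 2) := by
      unfold Pre.M
      apply InitB2_int hR0 hR1 (by positivity)
      intro r hr0 hr1
      have hL : 0 < ep1 / om0 := by
        have : (0:ℝ) < ep1 := by unfold ep1; norm_num
        positivity
      set L := ep1 / om0 with hLdef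
      change |dt R.w 0 r * (r ^ 2 / (r + L) * dr R.w 0 r + r / (2 * (r + L)) * R.w 0 r)| ≤ _
      rw [abs_mul]
      have s1 : |r ^ 2 / (r + L) * dr R.w 0 r + r / (2 * (r + L)) * R.w 0 r| ≤
          (3 / 2) * (C * ell) := by
        refine (abs_add_le _ _).trans ?_
        rw [abs_mul, abs_mul]
        have t1 : |r ^ 2 / (r + L)| ≤ 1 := by
          rw [abs_of_nonneg (by positivity), div_le_one (by linarith)]
          nlinarith
        have t2 : |r / (2 * (r + L))| ≤ 1 / 2 := by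
          rw [abs_of_nonneg (by positivity), div_le_div_iff₀ (by linarith) (by norm_num)]
          linarith
        have t3 := b2 r hr0
        have t4 := b1 r hr0
        calc |r ^ 2 / (r + L)| * |dr R.w 0 r| + |r / (2 * (r + L))| * |R.w 0 r|
            ≤ 1 * (C * ell) + (1 / 2) * (C * ell) := by gcongr
          _ = _ := by ring
      have s2 := b4 r hr0
      calc |dt R.w 0 r| * |r ^ 2 / (r + L) * dr R.w 0 r + r / (2 * (r + L)) * R.w 0 r|
          ≤ (4 * om0 * (C * ell)) * ((3 / 2) * (C * ell)) := by gcongr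
        _ = 6 * (om0 * (C * ell) ^ 2) := by ring
        _ ≤ 6 * (om0 ^ 2 * (C * ell) ^ 2) := by gcongr
    refine h1.trans ?_
    calc 6 * (om0 ^ 2 * (C * ell) ^ 2) ≤ 6 * (C ^ 2 / om0 ^ 2) := by gcongr
      _ = (6 * C ^ 2) / om0 ^ 2 := by ring
      _ ≤ _ := by
          apply div_le_div_of_nonneg_right _ (by positivity)
          nlinarith [sq_nonneg C]

end H72GS

end S_InitB2

section S_InitB

/-! # InitB: the initial conditions of `core` (assembly) -/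

namespace H72GS

open Set

theorem init_core : ∃ Ω : ℝ, 10 ^ 60 < Ω ∧ ∀ om0, Ω ≤ om0 → ∀ R : Rad (6 / (5 * om0)) R00,
    RadInit R om0 ((b00 / om0) ^ 4) →
    (R00 + 6 / (5 * om0) ≤ 1 / 1000 ∧
    (R.pre 0).En (R00 + 6 / (5 * om0)) ≤ eps ^ 2 ∧
    (R.pre 0).P (R00 + 6 / (5 * om0)) = -4 * om0 * (R.pre 0).N (R00 + 6 / (5 * om0)) ∧
    1 < om0 ^ 3 * (R.pre 0).N (R00 + 6 / (5 * om0)) ∧
    (R.pre 0).Ey (R00 + 6 / (5 * om0)) < om0 ∧
    (R.pre 0).X (R00 + 6 / (5 * om0)) < Gam ^ 2 * om0 ^ 4 * (R.pre 0).N (R00 + 6 / (5 * om0)) ∧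
    (R.pre 0).X (R00 + 6 / (5 * om0)) + 2 * (R.pre 0).D (R00 + 6 / (5 * om0))
      + (1 / 2) * (R.pre 0).M (R00 + 6 / (5 * om0)) (ep1 / om0)
      < Gam1 ^ 2 * om0 ^ 4 * (R.pre 0).N (R00 + 6 / (5 * om0))) := by
  obtain ⟨Ω1, hΩ1, H1⟩ := init_ENP
  obtain ⟨C, hC, H2⟩ := init_XDM
  refine ⟨max Ω1 (C * 10 ^ 48 + 10 ^ 61), lt_of_lt_of_le hΩ1 (le_max_left _ _), ?_⟩
  intro om0 hom R hR
  have ho1 : Ω1 ≤ om0 := (le_max_left _ _).trans hom
  have ho2 : C * 10 ^ 48 + 10 ^ 61 ≤ om0 := (le_max_right _ _).trans hom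
  have ho3 : (10 : ℝ) ^ 61 ≤ om0 := by
    have : 0 < C * 10 ^ 48 := by positivity
    linarith
  have ho4 : C * 10 ^ 48 ≤ om0 := by
    have : (0 : ℝ) < 10 ^ 61 := by positivity
    linarith
  have hpos : 0 < om0 := lt_of_lt_of_le (by positivity) ho3
  have hb : b00 = 1 / 10 ^ 23 := rfl
  obtain ⟨e1, e2, e3, e4⟩ := H1 om0 ho1 R hR
  obtain ⟨x1, x2, x3⟩ := H2 om0 (le_trans (by norm_num) ho3) R hR
  set N := (R.pre 0).N (R00 + 6 / (5 * om0)) with hN
  set X := (R.pre 0).X (R00 + 6 / (5 * om0)) with hX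
  set D := (R.pre 0).D (R00 + 6 / (5 * om0)) with hD
  set M := (R.pre 0).M (R00 + 6 / (5 * om0)) (ep1 / om0) with hM
  -- lower bound for `om0 ^ 2 * N`
  have n1 : 1 / 10 ^ 48 ≤ om0 ^ 2 * N := by
    have h1 : om0 ^ 2 * ((b00 / om0) ^ 2 / 16) ≤ om0 ^ 2 * N :=
      mul_le_mul_of_nonneg_left e3 (by positivity)
    have h2 : om0 ^ 2 * ((b00 / om0) ^ 2 / 16) = b00 ^ 2 / 16 := by
      field_simp
    rw [h2, hb] at h1
    refine le_trans ?_ h1
    norm_num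
  have hNpos : 0 < N := by
    have h3 : 0 < (b00 / om0) ^ 2 / 16 := by
      have : 0 < b00 := by rw [hb]; positivity
      positivity
    linarith
  have q : C / om0 ^ 2 ≤ om0 ^ 4 * N := by
    have h1 : C / om0 ^ 2 ≤ om0 ^ 2 * (1 / 10 ^ 48) := by
      rw [div_le_iff₀ (by positivity)]
      have h4 : (1 : ℝ) ≤ om0 := le_trans (by norm_num) ho3
      have h5 : om0 ≤ om0 ^ 2 * om0 ^ 2 := by
        have : om0 ^ 2 * om0 ^ 2 = om0 ^ 3 * om0 := by ring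
        rw [this]
        have h6 : (1 : ℝ) ≤ om0 ^ 3 := one_le_pow₀ h4
        nlinarith
      have h7 : C ≤ om0 * (1 / 10 ^ 48) := by
        have : om0 * (1 / 10 ^ 48) = om0 / 10 ^ 48 := by ring
        rw [this, le_div_iff₀ (by positivity)]
        exact ho4
      have h8 : om0 * (1 / 10 ^ 48) ≤ om0 ^ 2 * (1 / 10 ^ 48) * om0 ^ 2 := by
        have : om0 ^ 2 * (1 / 10 ^ 48) * om0 ^ 2 = om0 ^ 2 * om0 ^ 2 * (1 / 10 ^ 48) := by ring
        rw [this]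
        exact mul_le_mul_of_nonneg_right h5 (by positivity)
      linarith
    calc C / om0 ^ 2 ≤ om0 ^ 2 * (1 / 10 ^ 48) := h1
      _ ≤ om0 ^ 2 * (om0 ^ 2 * N) := mul_le_mul_of_nonneg_left n1 (by positivity)
      _ = om0 ^ 4 * N := by ring
  have hpp : 0 < om0 ^ 4 * N := by positivity
  refine ⟨?_, e1, e2, ?_, ?_, ?_, ?_⟩
  · have h1 : 6 / (5 * om0) ≤ 1 / 10000 := by
      rw [div_le_div_iff₀ (by positivity) (by norm_num)]
      have : (10 : ℝ) ^ 61 ≤ om0 := ho3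
      nlinarith [this, (by norm_num : (12000 : ℝ) ≤ 10 ^ 61)]
    unfold R00
    linarith
  · have h1 : om0 ^ 3 * N = om0 * (om0 ^ 2 * N) := by ring
    rw [h1]
    have h2 : om0 * (1 / 10 ^ 48) ≤ om0 * (om0 ^ 2 * N) :=
      mul_le_mul_of_nonneg_left n1 hpos.le
    have h3 : (10 : ℝ) ^ 61 * (1 / 10 ^ 48) ≤ om0 * (1 / 10 ^ 48) :=
      mul_le_mul_of_nonneg_right ho3 (by positivity)
    have h4 : (1 : ℝ) < 10 ^ 61 * (1 / 10 ^ 48) := by norm_num
    linarith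
  · have : (100 : ℝ) < 10 ^ 61 := by norm_num
    linarith
  · have h1 : X ≤ om0 ^ 4 * N := x1.trans q
    have h2 : Gam ^ 2 * om0 ^ 4 * N = Gam ^ 2 * (om0 ^ 4 * N) := by ring
    rw [h2]
    have h3 : (1 : ℝ) < Gam ^ 2 := by unfold Gam; norm_num
    nlinarith
  · have h1 : X ≤ om0 ^ 4 * N := x1.trans q
    have h4 : D ≤ om0 ^ 4 * N := (le_abs_self _).trans (x2.trans q)
    have h5 : M ≤ om0 ^ 4 * N := (le_abs_self _).trans (x3.trans q)
    have h2 : Gam1 ^ 2 * om0 ^ 4 * N = Gam1 ^ 2 * (om0 ^ 4 * N) := by ring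
    rw [h2]
    have h3 : (10 : ℝ) < Gam1 ^ 2 := by unfold Gam1; norm_num
    nlinarith

end H72GS

end S_InitB

section S_Final

/-! # Final: smooth finite energy data without a smooth solution on `[0,T)` in any gauge -/

namespace H72GS

open Set

theorem no_solution : ∃ om0 ell : ℝ, 0 < om0 ∧ 0 < ell ∧
    ¬ ∃ c : Config, IsSolutionFrom (dat om0 ell) (2 / om0) c := by
  obtain ⟨om0, hΩ, H⟩ := init_core
  have h0 : 0 < om0 := lt_trans (by norm_num) hΩ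
  have hb : 0 < b00 := by unfold b00; norm_num
  have hell : 0 < (b00 / om0) ^ 4 := by positivity
  refine ⟨om0, (b00 / om0) ^ 4, h0, hell, ?_⟩
  rintro ⟨c, hc⟩
  have hT' : 0 < 6 / (5 * om0) := by positivity
  have hTT : 6 / (5 * om0) < 2 / om0 := by
    rw [div_lt_div_iff₀ (by positivity) h0]
    nlinarith
  obtain ⟨R, hf, hg⟩ := exists_rad hell hT' hTT hc
  have hR : RadInit R om0 ((b00 / om0) ^ 4) :=
    ⟨fun r hr => (hf r hr).1, fun r hr => (hf r hr).2, hg⟩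
  obtain ⟨k1, k2, k3, k4, k5, k6, k7⟩ := H om0 le_rfl R hR
  refine core R k1 ?_ k2 k3 hΩ k4 k5 k6 k7 ?_
  · have : (1 : ℝ) / 10 ^ 50 ≤ R00 := by unfold R00; norm_num
    linarith
  · have : 6 / (5 * om0) * om0 = 6 / 5 := by field_simp
    rw [this]; norm_num

theorem main : ∃ d : InitData, d.Smooth ∧ d.OnSphere ∧ d.Gauss ∧ d.FiniteEnergy ∧ d.Boundary ∧
    ∃ T > 0, ¬ ∃ c : Config, IsSolutionFrom d T c := by
  obtain ⟨om0, ell, h0, hl, h⟩ := no_solution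
  exact ⟨dat om0 ell, dat_smooth hl, dat_onSphere hl, dat_gauss hl, dat_energy hl,
    dat_boundary hl, 2 / om0, by positivity, h⟩

end H72GS

end S_Final
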